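import Mathlib

/-!
# Right-angled Fuchsian buildings as chamber systems with walls and sheets (project QFC, MP_d0a8c9_al)

`Bldg n C` : chambers `C`, panel types `i : ZMod n` (sides of the polygon, `6 ≤ n`), walls
(tree-walls) with their types, and for every wall `T` a sheet function `σ T : C → Sheet`.
-/

open scoped Classical

namespace QFC

/-- neighbouring types (sides sharing a vertex of the polygon) -/
def TAdj {n : ℕ} (i j : ZMod n) : Prop := j = i + 1 ∨ i = j + 1

theorem TAdj.symm {n : ℕ} {i j : ZMod n} (h : TAdj i j) : TAdj j i := by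
  rcases h with h | h
  · exact Or.inr h
  · exact Or.inl h

/-- A right-angled Fuchsian building: chambers, panels, walls, sheets. -/
structure Bldg (n : ℕ) (C : Type) where
  hn : 6 ≤ n
  Wall : Type
  Sheet : Type
  adj : ZMod n → C → C → Prop
  adj_equiv : ∀ i, Equivalence (adj i)
  wall : ZMod n → C → Wall
  typ : Wall → ZMod n
  typ_wall : ∀ i c, typ (wall i c) = i
  wall_surj : ∀ T, ∃ c, wall (typ T) c = T
  /-- moving inside the panel, or across a neighbouring side, stays on the wall -/
  wall_eq : ∀ {i j : ZMod n} {c d : C}, adj j c d → (j = i ∨ TAdj i j) → wall i c = wall i d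
  /-- a wall is connected by such moves -/
  wall_conn : ∀ {i : ZMod n} {c d : C}, wall i c = wall i d →
    Relation.ReflTransGen (fun x y => ∃ j, (j = i ∨ TAdj i j) ∧ adj j x y) c d
  σ : Wall → C → Sheet
  /-- only crossing the wall changes the sheet -/
  σ_eq : ∀ {T : Wall} {j : ZMod n} {c d : C}, adj j c d → T ≠ wall j c → σ T c = σ T d
  σ_ne : ∀ {j : ZMod n} {c d : C}, adj j c d → c ≠ d → σ (wall j c) c ≠ σ (wall j c) d
  square : ∀ {i j : ZMod n} {c d e : C}, TAdj i j → adj i c d → adj j c e →
    ∃ f, adj j d f ∧ adj i e f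
  conn : ∀ c d, Relation.ReflTransGen (fun x y => ∃ i, adj i x y) c d
  q : ZMod n → ℕ
  q_ge : ∀ i, 3 ≤ q i
  card_panel : ∀ i c, {d | adj i c d}.ncard = q i

namespace Bldg

variable {n : ℕ} {C : Type} (B : Bldg n C)

/-- the panel of type `i` of the chamber `c` -/
def panel (i : ZMod n) (c : C) : Set C := {d | B.adj i c d}

/-- the chamber `c` has a side on the wall `T` -/
def On (T : B.Wall) (c : C) : Prop := B.wall (B.typ T) c = T

/-- two walls cross -/
def Cross (T U : B.Wall) : Prop := TAdj (B.typ T) (B.typ U) ∧ ∃ c, B.On T c ∧ B.On U c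

/-- walls separating two chambers -/
def Sep (c d : C) : Set B.Wall := {T | B.σ T c ≠ B.σ T d}

/-- gallery graph -/
def graph : SimpleGraph C where
  Adj c d := c ≠ d ∧ ∃ i, B.adj i c d
  symm := ⟨fun _ _ h => ⟨h.1.symm, h.2.imp fun i hi => (B.adj_equiv i).symm hi⟩⟩
  loopless := ⟨fun _ h => h.1 rfl⟩

/-- gallery distance -/
noncomputable def dist (c d : C) : ℕ := B.graph.dist c d

/-- closed ball -/
def ball (c : C) (r : ℕ) : Set C := {d | B.dist c d ≤ r}

/-- sphere -/
def sphere (c : C) (r : ℕ) : Set C := {d | B.dist c d = r}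

/-- a (generalized) root: a choice of sheet at each wall, finitely approximable by chambers -/
def IsRoller (η : B.Wall → B.Sheet) : Prop :=
  ∀ 𝒲 : Finset B.Wall, ∃ x, ∀ T ∈ 𝒲, B.σ T x = η T

/-- the root given by a chamber -/
def pt (x : C) : B.Wall → B.Sheet := fun T => B.σ T x

/-- descents of `c` towards the root `η` : sides of `c` whose wall separates `c` from `η` -/
def D (η : B.Wall → B.Sheet) (c : C) : Set (ZMod n) :=
  {i | B.σ (B.wall i c) c ≠ η (B.wall i c)}

/-- mod 2 locally finite 2-cycles: sets of chambers meeting each panel in an even number -/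
def IsCycle (S : Set C) : Prop := ∀ i c, Even (S ∩ B.panel i c).ncard

/-- no defect of `S` at the panel of type `i` of its `η`-gate `g` -/
def NoDef (S : Set C) (i : ZMod n) (g : C) : Prop :=
  S ∩ B.panel i g = ∅ ∨ ∃ d, d ≠ g ∧ S ∩ B.panel i g = {g, d}

/-- defect-free sets for the root `η` : every panel (with gate `g`) meets `S` in nothing or in
`g` and exactly one other chamber -/
def Apt (η : B.Wall → B.Sheet) : Set (Set C) :=
  {S | ∀ i g, i ∉ B.D η g → B.NoDef S i g}

/-- the weight `r(c) = ∏ 1/(q_T - 1)` over the walls separating the root chamber from `c` -/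
noncomputable def r (x c : C) : ℝ := ∏ᶠ T ∈ B.Sep x c, (1 / ((B.q (B.typ T) : ℝ) - 1))

/-! ### first facts: finiteness -/

theorem adj_refl (i : ZMod n) (c : C) : B.adj i c c := (B.adj_equiv i).refl c
theorem adj_symm {i : ZMod n} {c d : C} (h : B.adj i c d) : B.adj i d c := (B.adj_equiv i).symm h
theorem adj_trans {i : ZMod n} {c d e : C} (h : B.adj i c d) (h' : B.adj i d e) : B.adj i c e :=
  (B.adj_equiv i).trans h h'

theorem panel_finite (i : ZMod n) (c : C) : (B.panel i c).Finite := by
  by_contra h
  have h1 := B.card_panel i c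
  have h2 := B.q_ge i
  have h3 : (B.panel i c).ncard = 0 := Set.Infinite.ncard h
  have h4 : (B.panel i c).ncard = B.q i := h1
  omega

theorem preconnected : B.graph.Preconnected := by
  intro c d
  have key : ∀ {c d : C}, Relation.ReflTransGen (fun x y => ∃ i, B.adj i x y) c d →
      B.graph.Reachable c d := by
    intro c d h
    induction h with
    | refl => exact SimpleGraph.Reachable.refl _
    | @tail x y _ hbc ih =>
      obtain ⟨i, hi⟩ := hbc
      by_cases hxy : x = y
      · exact hxy ▸ ih
      · exact ih.trans (SimpleGraph.Adj.reachable (show B.graph.Adj x y from ⟨hxy, i, hi⟩))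
  exact key (B.conn c d)

theorem exists_step {c d : C} {k : ℕ} (h : B.dist c d = k + 1) :
    ∃ i e, B.adj i c e ∧ e ≠ c ∧ B.dist e d = k := by
  obtain ⟨p, hp⟩ := (B.preconnected c d).exists_walk_length_eq_dist
  cases p with
  | nil => rw [SimpleGraph.Walk.length_nil] at hp; unfold dist at h; omega
  | cons hadj p' =>
    rename_i e
    refine ⟨hadj.2.choose, e, hadj.2.choose_spec, hadj.1.symm, ?_⟩
    rw [SimpleGraph.Walk.length_cons] at hp
    have h1 : B.graph.dist e d ≤ p'.length := SimpleGraph.dist_le p'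
    obtain ⟨p2, hp2⟩ := (B.preconnected e d).exists_walk_length_eq_dist
    have h2 : B.graph.dist c d ≤ (SimpleGraph.Walk.cons hadj p2).length := SimpleGraph.dist_le _
    rw [SimpleGraph.Walk.length_cons] at h2
    unfold dist at *
    omega

theorem dist_comm (c d : C) : B.dist c d = B.dist d c := SimpleGraph.dist_comm

theorem dist_self (c : C) : B.dist c c = 0 := SimpleGraph.dist_self

theorem dist_eq_zero {c d : C} (h : B.dist c d = 0) : c = d := by
  rcases SimpleGraph.dist_eq_zero_iff_eq_or_not_reachable.1 h with h | h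
  · exact h
  · exact absurd (B.preconnected c d) h

theorem dist_triangle (c d e : C) : B.dist c e ≤ B.dist c d + B.dist d e := by
  obtain ⟨p, hp⟩ := (B.preconnected c d).exists_walk_length_eq_dist
  obtain ⟨p', hp'⟩ := (B.preconnected d e).exists_walk_length_eq_dist
  have := SimpleGraph.dist_le (p.append p')
  rw [SimpleGraph.Walk.length_append] at this
  unfold dist
  omega

theorem dist_le_one {i : ZMod n} {c d : C} (h : B.adj i c d) : B.dist c d ≤ 1 := by
  by_cases hcd : c = d
  · subst hcd; rw [B.dist_self]; exact Nat.zero_le _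
  · have hadj : B.graph.Adj c d := ⟨hcd, i, h⟩
    have h1 := SimpleGraph.dist_le (SimpleGraph.Walk.cons hadj SimpleGraph.Walk.nil)
    simpa [dist] using h1

theorem ball_finite (c : C) (r : ℕ) : (B.ball c r).Finite := by
  have : NeZero n := ⟨by have := B.hn; omega⟩
  induction r with
  | zero =>
    refine (Set.finite_singleton c).subset ?_
    intro d hd
    exact (B.dist_eq_zero (Nat.le_zero.1 hd)).symm
  | succ r ih =>
    refine ((ih.biUnion (t := fun d => ⋃ i : ZMod n, B.panel i d)
      (fun d _ => Set.finite_iUnion (fun i => B.panel_finite i d)))).subset ?_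
    intro d hd
    rcases Nat.lt_or_ge (B.dist c d) (r + 1) with h | h
    · refine Set.mem_biUnion (x := d) (show d ∈ B.ball c r from Nat.lt_succ_iff.1 h) ?_
      exact Set.mem_iUnion.2 ⟨0, B.adj_refl 0 d⟩
    · have h' : B.dist d c = r + 1 := by rw [B.dist_comm]; exact le_antisymm hd h
      obtain ⟨i, e, h1, _, h3⟩ := B.exists_step h'
      refine Set.mem_biUnion (x := e) (show e ∈ B.ball c r from ?_) ?_
      · show B.dist c e ≤ r
        rw [B.dist_comm]; omega
      · exact Set.mem_iUnion.2 ⟨i, B.adj_symm h1⟩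

theorem sphere_finite (c : C) (r : ℕ) : (B.sphere c r).Finite :=
  (B.ball_finite c r).subset (fun _ hd => le_of_eq hd)

/-- the ball as a finset -/
noncomputable def ballF (c : C) (r : ℕ) : Finset C := (B.ball_finite c r).toFinset

/-- the sphere as a finset -/
noncomputable def sphereF (c : C) (r : ℕ) : Finset C := (B.sphere_finite c r).toFinset

theorem mem_ballF {c d : C} {r : ℕ} : d ∈ B.ballF c r ↔ B.dist c d ≤ r := by
  simp [ballF, ball]

theorem mem_sphereF {c d : C} {r : ℕ} : d ∈ B.sphereF c r ↔ B.dist c d = r := by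
  simp [sphereF, sphere]

/-- quasi-isometry pair: coarse Lipschitz maps, coarse inverse to each other -/
structure Pair {n₁ n₂ : ℕ} {C₁ C₂ : Type} (B₁ : Bldg n₁ C₁) (B₂ : Bldg n₂ C₂)
    (F : C₁ → C₂) (G : C₂ → C₁) (K : ℕ) : Prop where
  lipF : ∀ a b, B₂.dist (F a) (F b) ≤ K * B₁.dist a b + K
  lipG : ∀ a b, B₁.dist (G a) (G b) ≤ K * B₂.dist a b + K
  gf : ∀ a, B₁.dist (G (F a)) a ≤ K
  fg : ∀ b, B₂.dist (F (G b)) b ≤ K

end Bldg

end QFC
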