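import Mathlib

/-!
# Discrete geodesic spaces and the four-point condition
-/

namespace QFC

/-- integer valued geodesic metric (graph metric) -/
structure GeoSp {X : Type} (d : X → X → ℕ) : Prop where
  self : ∀ x, d x x = 0
  eq : ∀ {x y}, d x y = 0 → x = y
  comm : ∀ x y, d x y = d y x
  tri : ∀ x y z, d x z ≤ d x y + d y z
  geo : ∀ x y k, k ≤ d x y → ∃ z, d x z = k ∧ d z y = d x y - k

/-- the four-point condition -/
def FourPt {X : Type} (d : X → X → ℕ) (δ : ℕ) : Prop :=
  ∀ a b c e, d a b + d c e ≤ max (d a c + d b e) (d a e + d b c) + δ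

end QFC
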