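import Mathlib
import Pool.Agent.QFC.Hyp

/-!
# The four-point condition is a quasi-isometry invariant of discrete geodesic spaces

Proof with intervals and 'guessed geodesics' (no paths in the source space).
-/

namespace QFC

namespace HypQI

/-- linear functions are below powers of two -/
theorem lin_le_pow (C : ℕ) : ∀ k, 2 * C ≤ k → C * k ≤ 2 ^ k := by
  have h2C : 2 * C ≤ 2 ^ C := by
    rcases Nat.eq_zero_or_pos C with h | h
    · subst h; simp
    · obtain ⟨m, rfl⟩ : ∃ m, C = m + 1 := ⟨C - 1, by omega⟩
      have : m < 2 ^ m := Nat.lt_two_pow_self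
      rw [pow_succ]
      omega
  intro k hk
  induction k, hk using Nat.le_induction with
  | base =>
    have : (2 : ℕ) ^ (2 * C) = 2 ^ C * 2 ^ C := by rw [two_mul, pow_add]
    rw [this]
    calc C * (2 * C) ≤ 2 ^ C * 2 ^ C := Nat.mul_le_mul (by omega) h2C
  | succ k hk ih =>
    have h1 : C ≤ 2 ^ k := by
      have : k < 2 ^ k := Nat.lt_two_pow_self
      omega
    rw [pow_succ, Nat.mul_succ]
    omega

theorem large_exponent (h : ℕ) : ∃ B : ℕ, ∀ t, B < t → ∃ k, 4 * t + 4 * h + 2 ≤ 2 ^ k ∧
    2 * h + (k + 1) * h < t := by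
  set C := 40 * h + 4 with hC
  refine ⟨(2 * C + 3) * h, ?_⟩
  intro t ht
  refine ⟨Nat.clog 2 (4 * t + 4 * h + 2), Nat.le_pow_clog (by norm_num) _, ?_⟩
  set k := Nat.clog 2 (4 * t + 4 * h + 2) with hk
  by_contra hcon
  have hcon' : t ≤ (k + 3) * h := by
    have : (k + 3) * h = 2 * h + (k + 1) * h := by ring
    omega
  have hk1 : 2 * C ≤ k := by
    by_contra hlt
    have : (k + 3) * h ≤ (2 * C + 3) * h := Nat.mul_le_mul_right h (by omega)
    omega
  have h1 := lin_le_pow C k hk1
  have h2 : 2 ^ (k - 1) < 4 * t + 4 * h + 2 := by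
    have : k - 1 < Nat.clog 2 (4 * t + 4 * h + 2) := by omega
    exact (Nat.lt_clog_iff_pow_lt (by norm_num)).1 this
  have h3 : 2 ^ k = 2 ^ (k - 1) * 2 := by
    have h30 : k - 1 + 1 = k := by omega
    rw [← pow_succ, h30]
  have h4 : C * k = 40 * (h * k) + 4 * k := by rw [hC]; ring
  have h5 : (k + 3) * h = h * k + 3 * h := by ring
  have h6 : h ≤ h * k := Nat.le_mul_of_pos_right h (by omega)
  omega

section One

variable {X : Type} {d : X → X → ℕ} (hd : GeoSp d)

include hd

/-- interval -/
theorem ival_sub {x y a u : X} (ha : d x a + d a y = d x y) (hu : d x u + d u a = d x a) :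
    d x u + d u y = d x y := by
  have h1 := hd.tri x u y
  have h2 := hd.tri u a y
  omega

theorem ival_sub' {x y a u : X} (ha : d x a + d a y = d x y) (hu : d a u + d u y = d a y) :
    d x u + d u y = d x y := by
  have h1 := hd.tri x u y
  have h2 := hd.tri x a u
  omega

/-- A geodesic chain from `x` to `y`. -/
theorem chain (x y : X) : ∃ p : ℕ → X, p 0 = x ∧ p (d x y) = y ∧
    ∀ i, i ≤ d x y → d x (p i) = i ∧ d (p i) y = d x y - i ∧
      (i < d x y → d (p i) (p (i + 1)) = 1) := by
  have key : ∀ n : ℕ, ∀ x, d x y = n → ∃ p : ℕ → X, p 0 = x ∧ p n = y ∧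
      ∀ i, i ≤ n → d (p i) y = n - i ∧ (i < n → d (p i) (p (i + 1)) = 1) := by
    intro n
    induction n with
    | zero =>
      intro x hx
      refine ⟨fun _ => x, rfl, hd.eq hx, fun i hi => ⟨?_, by omega⟩⟩
      show d x y = 0 - i
      omega
    | succ n ih =>
      intro x hx
      obtain ⟨z, hz1, hz2⟩ := hd.geo x y 1 (by omega)
      obtain ⟨p, hp0, hpn, hp⟩ := ih z (by omega)
      refine ⟨fun i => if i = 0 then x else p (i - 1), by simp, by simp [hpn], ?_⟩
      intro i hi
      rcases Nat.eq_zero_or_pos i with h0 | h0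
      · subst h0
        refine ⟨by simp [hx], fun _ => ?_⟩
        simp [hp0, hz1]
      · have hne : i ≠ 0 := by omega
        obtain ⟨h1, h2⟩ := hp (i - 1) (by omega)
        refine ⟨?_, ?_⟩
        · simp only [hne, if_false]
          omega
        · intro hlt
          have h3 := h2 (by omega)
          have h4 : i + 1 ≠ 0 := by omega
          simp only [hne, h4, if_false]
          have h5 : i - 1 + 1 = i + 1 - 1 := by omega
          rw [← h5]
          exact h3
  obtain ⟨p, hp0, hpn, hp⟩ := key (d x y) x rfl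
  refine ⟨p, hp0, hpn, ?_⟩
  have hup : ∀ i, i ≤ d x y → d x (p i) ≤ i := by
    intro i
    induction i with
    | zero => intro _; rw [hp0, hd.self]
    | succ i ih =>
      intro hi
      have h1 := ih (by omega)
      have h2 := (hp i (by omega)).2 (by omega)
      have h3 := hd.tri x (p i) (p (i + 1))
      omega
  intro i hi
  have h1 := hup i hi
  have h2 := (hp i hi).1
  have h3 := hd.tri x (p i) y
  exact ⟨by omega, h2, (hp i hi).2⟩

/-- Slim intervals imply the four-point condition. -/
theorem fourPt_of_slim {δ : ℕ}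
    (hs : ∀ x y z p, d x p + d p y = d x y →
      ∃ q, (d x q + d q z = d x z ∨ d z q + d q y = d z y) ∧ d p q ≤ δ) :
    FourPt d (4 * δ + 4) := by
  have hcen : ∀ (a b : X) (p : ℕ → X), p 0 = a → p (d a b) = b →
      (∀ i, i ≤ d a b → d a (p i) = i ∧ d (p i) b = d a b - i ∧
        (i < d a b → d (p i) (p (i + 1)) = 1)) → ∀ c, ∃ i ≤ d a b,
      d a (p i) + d (p i) c ≤ d a c + (2 * δ + 2) ∧ d c (p i) + d (p i) b ≤ d c b + (2 * δ + 2) := by
    intro a b p hp0 hpn hp c
    -- each point is of one of two kinds
    have hk : ∀ i ≤ d a b, d a (p i) + d (p i) c ≤ d a c + 2 * δ ∨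
        d c (p i) + d (p i) b ≤ d c b + 2 * δ := by
      intro i hi
      obtain ⟨h1, h2, -⟩ := hp i hi
      obtain ⟨q, hq, hq2⟩ := hs a b c (p i) (by omega)
      rcases hq with hq | hq
      · left
        have h3 := hd.tri a q (p i)
        have h4 := hd.tri (p i) q c
        have h5 := hd.comm (p i) q
        omega
      · right
        have h3 := hd.tri c q (p i)
        have h4 := hd.tri (p i) q b
        have h5 := hd.comm (p i) q
        omega
    by_contra hcon
    push Not at hcon
    -- the first kind propagates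
    have hall : ∀ i, i ≤ d a b → d a (p i) + d (p i) c ≤ d a c + 2 * δ + 1 := by
      intro i
      induction i with
      | zero =>
        intro _
        rw [hp0, hd.self]
        omega
      | succ i ih =>
        intro hi
        have h1 := ih (by omega)
        have h2 := hcon i (by omega) (by omega)
        rcases hk (i + 1) hi with h | h
        · omega
        · exfalso
          have h3 := (hp i (by omega)).2.2 (by omega)
          have h4 := hd.tri c (p (i + 1)) (p i)
          have h5 := hd.comm (p i) (p (i + 1))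
          have h6 := (hp i (by omega)).2.1
          have h7 := (hp (i + 1) hi).2.1
          omega
    have h1 := hall (d a b) le_rfl
    have h2 := hcon (d a b) le_rfl (by omega)
    rw [hpn, hd.self] at h2
    omega
  intro a b c e
  obtain ⟨p, hp0, hpn, hp⟩ := chain hd a b
  obtain ⟨i, hi, h1, h2⟩ := hcen a b p hp0 hpn hp c
  obtain ⟨j, hj, h3, h4⟩ := hcen a b p hp0 hpn hp e
  -- distance on the chain
  have hdist : ∀ i j, i ≤ j → j ≤ d a b → d (p i) (p j) ≤ j - i := by
    intro i j hij
    induction j, hij using Nat.le_induction with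
    | base => intro _; rw [hd.self]; omega
    | succ j hij ih =>
      intro hj
      have h1 := ih (by omega)
      have h2 := (hp j (by omega)).2.2 (by omega)
      have h3 := hd.tri (p i) (p j) (p (j + 1))
      omega
  obtain ⟨hi1, hi2, -⟩ := hp i hi
  obtain ⟨hj1, hj2, -⟩ := hp j hj
  have hce := hd.tri c (p i) e
  have hce2 := hd.tri (p i) (p j) e
  have hc1 := hd.comm c (p i)
  have he1 := hd.comm e (p j)
  have hbc := hd.comm b c
  have hbe := hd.comm b e
  rcases Nat.le_total i j with hij | hij
  · have h5 := hdist i j hij hj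
    have h6 : d a b + d c e ≤ d a e + d b c + (4 * δ + 4) := by omega
    exact h6.trans (by omega)
  · have h5 := hdist j i hij hi
    have h7 := hd.comm (p i) (p j)
    have h6 : d a b + d c e ≤ d a c + d b e + (4 * δ + 4) := by omega
    exact h6.trans (by omega)

/-- Guessed geodesics: a family of coarsely connected sets satisfying the slim triangle condition
is close to the intervals, and so the space is hyperbolic. -/
theorem fourPt_of_guess {h : ℕ} (A : X → X → X → Prop)
    (h1 : ∀ x y p, d x y ≤ 1 → A x y p → d x p ≤ h)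
    (h2 : ∀ x y z p, A x y p → ∃ q, (A x z q ∨ A z y q) ∧ d p q ≤ h)
    (h3 : ∀ x y, ∃ (N : ℕ) (w : ℕ → X), w 0 = x ∧ w N = y ∧ (∀ i ≤ N, A x y (w i)) ∧
      ∀ i < N, d (w i) (w (i + 1)) ≤ h) :
    ∃ δ, FourPt d δ := by
  classical
  -- logarithmic bound
  have hlog : ∀ k : ℕ, ∀ x y p, d x y ≤ 2 ^ k → A x y p →
      ∃ u, d x u + d u y = d x y ∧ d p u ≤ (k + 1) * h := by
    intro k
    induction k with
    | zero =>
      intro x y p hxy hp
      refine ⟨x, by rw [hd.self]; omega, ?_⟩
      rw [hd.comm]
      simpa using h1 x y p (by simpa using hxy) hp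
    | succ k ih =>
      intro x y p hxy hp
      obtain ⟨m, hm1, hm2⟩ := hd.geo x y (d x y / 2) (by omega)
      rw [pow_succ] at hxy
      obtain ⟨q, hq, hq2⟩ := h2 x y m p hp
      rcases hq with hq | hq
      · obtain ⟨u, hu1, hu2⟩ := ih x m q (by omega) hq
        refine ⟨u, ival_sub hd (by omega) hu1, ?_⟩
        have h4 := hd.tri p q u
        have h5 : (k + 1 + 1) * h = (k + 1) * h + h := by ring
        omega
      · obtain ⟨u, hu1, hu2⟩ := ih m y q (by omega) hq
        refine ⟨u, ival_sub' hd (by omega) hu1, ?_⟩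
        have h4 := hd.tri p q u
        have h5 : (k + 1 + 1) * h = (k + 1) * h + h := by ring
        omega
  -- for large `t` there is a good exponent `k`
  obtain ⟨B, hB⟩ : ∃ B : ℕ, ∀ t, B < t → ∃ k, 4 * t + 4 * h + 2 ≤ 2 ^ k ∧
      2 * h + (k + 1) * h < t := large_exponent h
  -- `A x y` is close to the interval
  have hI : ∀ x y p, A x y p → ∃ u, d x u + d u y = d x y ∧ d p u ≤ B := by
    intro x0 y0 p0 hp0
    by_contra hcon
    push Not at hcon
    -- the set of defects for pairs at distance at most `n`
    let Q : ℕ → Prop := fun t => ∃ x y p, d x y ≤ d x0 y0 ∧ A x y p ∧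
      ∀ u, d x u + d u y = d x y → t ≤ d p u
    have hQ0 : Q (B + 1) := ⟨x0, y0, p0, le_rfl, hp0, fun u hu => hcon u hu⟩
    obtain ⟨k0, hk0⟩ : ∃ k0, d x0 y0 ≤ 2 ^ k0 := ⟨d x0 y0, Nat.lt_two_pow_self.le⟩
    have hQb : ∀ t, Q t → t ≤ (k0 + 1) * h := by
      rintro t ⟨x, y, p, hxy, hp, hu⟩
      obtain ⟨u, hu1, hu2⟩ := hlog k0 x y p (hxy.trans hk0) hp
      exact (hu u hu1).trans hu2
    obtain ⟨t, htQ, htB, htmax⟩ : ∃ t, Q t ∧ B < t ∧ ¬ Q (t + 1) := by
      by_contra hno
      push Not at hno
      have hall : ∀ j, Q (B + 1 + j) := by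
        intro j
        induction j with
        | zero => exact hQ0
        | succ j ih =>
          have h5 := hno (B + 1 + j) ih (Nat.lt_of_lt_of_le (Nat.lt_succ_self B) (Nat.le_add_right _ _))
          have h6 : B + 1 + (j + 1) = B + 1 + j + 1 := rfl
          rw [h6]
          exact h5
      have := hQb _ (hall ((k0 + 1) * h))
      omega
    have hmax : ∀ x y p, d x y ≤ d x0 y0 → A x y p → ∃ u, d x u + d u y = d x y ∧ d p u ≤ t := by
      intro x y p hxy hp
      by_contra hno
      push Not at hno
      exact htmax ⟨x, y, p, hxy, hp, fun u hu => hno u hu⟩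
    obtain ⟨k, hk1, hk2⟩ := hB t htB
    obtain ⟨x, y, p, hxy, hp, hfar⟩ := htQ
    obtain ⟨c, hc1, hc2⟩ := hmax x y p hxy hp
    have hkh : h ≤ (k + 1) * h := Nat.le_mul_of_pos_left h (Nat.succ_pos k)
    obtain ⟨a, ha1, ha2⟩ := hd.geo x c (d x c - min (2 * t + 2 * h + 1) (d x c)) (by omega)
    obtain ⟨b, hb1, hb2⟩ := hd.geo c y (min (2 * t + 2 * h + 1) (d c y)) (by omega)
    obtain ⟨q1, hq1, hq1'⟩ := h2 x y a p hp
    rcases hq1 with hq1 | hq1
    · by_cases hxa : d x a = 0
      · have h5 := h1 x a q1 (by omega) hq1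
        have h6 := hfar x (by rw [hd.self]; omega)
        have h7 := hd.tri p q1 x
        have h8 := hd.comm q1 x
        omega
      · obtain ⟨u, hu1, hu2⟩ := hmax x a q1 (by omega) hq1
        have h5 := hd.tri x u c
        have h6 := hd.tri u q1 c
        have h7 := hd.tri q1 p c
        have h8 := hd.comm q1 u
        have h9 := hd.comm p q1
        omega
    · obtain ⟨q2, hq2, hq2'⟩ := h2 a y b q1 hq1
      rcases hq2 with hq2 | hq2
      · have hab := hd.tri a c b
        obtain ⟨u, hu1, hu2⟩ := hlog k a b q2 (by omega) hq2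
        have h5 := hd.tri x a u
        have h6 := hd.tri u b y
        have h7 := hd.tri x u y
        have h8 := hfar u (by omega)
        have h9 := hd.tri p q1 u
        have h10 := hd.tri q1 q2 u
        omega
      · by_cases hby : d b y = 0
        · have h5 := h1 b y q2 (by omega) hq2
          have h5' := hd.eq hby
          subst h5'
          have h6 := hfar b (by rw [hd.self]; omega)
          have h7 := hd.tri p q1 b
          have h8 := hd.tri q1 q2 b
          have h9 := hd.comm q2 b
          omega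
        · obtain ⟨u, hu1, hu2⟩ := hmax b y q2 (by omega) hq2
          have h5 := hd.tri c u y
          have h6 := hd.tri c p u
          have h7 := hd.tri p q1 u
          have h7' := hd.tri q1 q2 u
          have h8 := hd.comm c p
          omega
  -- the interval is close to `A x y`
  have hII : ∀ x y u, d x u + d u y = d x y → ∃ w, A x y w ∧ d u w ≤ 3 * B + 4 * h := by
    intro x y u hu
    obtain ⟨N, w, hw0, hwN, hwA, hwd⟩ := h3 x y
    let Lf : ℕ → Prop := fun i => ∃ v, d x v + d v u = d x u ∧ d (w i) v ≤ B + h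
    have hLR : ∀ i ≤ N, Lf i ∨ ∃ v, d u v + d v y = d u y ∧ d (w i) v ≤ B + h := by
      intro i hi
      obtain ⟨q, hq, hq2⟩ := h2 x y u (w i) (hwA i hi)
      rcases hq with hq | hq
      · obtain ⟨v, hv1, hv2⟩ := hI x u q hq
        have h5 := hd.tri (w i) q v
        exact Or.inl ⟨v, hv1, by omega⟩
      · obtain ⟨v, hv1, hv2⟩ := hI u y q hq
        have h5 := hd.tri (w i) q v
        exact Or.inr ⟨v, hv1, by omega⟩
    have hfin : ∀ i ≤ N, Lf i → ∀ j ≤ N, d (w i) (w j) ≤ h →
        (∃ v, d u v + d v y = d u y ∧ d (w j) v ≤ B + h) →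
        ∃ w, A x y w ∧ d u w ≤ 3 * B + 4 * h := by
      rintro i hi ⟨v, hv1, hv2⟩ j hj hij ⟨v', hv1', hv2'⟩
      refine ⟨w i, hwA i hi, ?_⟩
      have h5 := hd.tri v (w i) v'
      have h6 := hd.tri (w i) (w j) v'
      have h7 := hd.comm v (w i)
      have h8 := hd.tri x v y
      have h9 := hd.tri v v' y
      have h10 := hd.tri u v (w i)
      have h11 := hd.comm u v
      omega
    by_cases hN : Lf N
    · exact hfin N le_rfl hN N le_rfl (by rw [hd.self]; omega)
        ⟨y, by rw [hd.self]; omega, by rw [hwN, hd.self]; omega⟩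
    · have h0 : Lf 0 := ⟨x, by rw [hd.self]; omega, by rw [hw0, hd.self]; omega⟩
      obtain ⟨i, hi, hi1, hi2⟩ : ∃ i, i < N ∧ Lf i ∧ ¬ Lf (i + 1) := by
        by_contra hno
        push Not at hno
        have hall : ∀ i, i ≤ N → Lf i := by
          intro i
          induction i with
          | zero => intro _; exact h0
          | succ i ih => intro hi; exact hno i (by omega) (ih (by omega))
        exact hN (hall N le_rfl)
      exact hfin i hi.le hi1 (i + 1) hi (hwd i hi) ((hLR (i + 1) hi).resolve_left hi2)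
  refine ⟨4 * (4 * B + 5 * h) + 4, fourPt_of_slim hd ?_⟩
  intro x y z u hu
  obtain ⟨w, hw1, hw2⟩ := hII x y u hu
  obtain ⟨q, hq1, hq2⟩ := h2 x y z w hw1
  rcases hq1 with hq1 | hq1
  · obtain ⟨v, hv1, hv2⟩ := hI x z q hq1
    refine ⟨v, Or.inl hv1, ?_⟩
    have h5 := hd.tri u w v
    have h6 := hd.tri w q v
    omega
  · obtain ⟨v, hv1, hv2⟩ := hI z y q hq1
    refine ⟨v, Or.inr hv1, ?_⟩
    have h5 := hd.tri u w v
    have h6 := hd.tri w q v
    omega

end One

/-- The four-point condition passes through a quasi-isometry `f : X → Y` (coarsely surjective). -/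
theorem fourPt_of_qi {X Y : Type} {d : X → X → ℕ} {e : Y → Y → ℕ} (hd : GeoSp d) (he : GeoSp e)
    (f : X → Y) (K : ℕ) (hf1 : ∀ x y, e (f x) (f y) ≤ K * d x y + K)
    (hf2 : ∀ x y, d x y ≤ K * e (f x) (f y) + K) (hf3 : ∀ y, ∃ x, e (f x) y ≤ K)
    {δ : ℕ} (hδ : FourPt e δ) : ∃ δ', FourPt d δ' := by
  classical
  -- points of `X` whose image is near the interval
  let A : X → X → X → Prop := fun x y p => e (f x) (f p) + e (f p) (f y) ≤ e (f x) (f y) + 2 * K
  -- constants
  have hback : ∀ p q c, e (f p) (f q) ≤ c → d p q ≤ K * c + K := by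
    intro p q c hc
    exact (hf2 p q).trans (Nat.add_le_add_right (Nat.mul_le_mul_left K hc) K)
  refine fourPt_of_guess hd (h := K * (4 * K + 2 * δ + 1) + K) A ?_ ?_ ?_
  · intro x y p hxy hp
    refine (hback x p (4 * K) ?_).trans ?_
    · have h1 := hf1 x y
      have h2 : K * d x y ≤ K * 1 := Nat.mul_le_mul_left K hxy
      have h3 : e (f x) (f p) + e (f p) (f y) ≤ e (f x) (f y) + 2 * K := hp
      omega
    · exact Nat.add_le_add_right (Nat.mul_le_mul_left K (by omega)) K
  · intro x y z p hp
    have hp' : e (f x) (f p) + e (f p) (f y) ≤ e (f x) (f y) + 2 * K := hp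
    have h4 := hδ (f x) (f y) (f z) (f p)
    -- a general step: `f p` near the interval of `a`, `b`
    have hstep : ∀ a b : X, e (f a) (f p) + e (f p) (f b) ≤ e (f a) (f b) + δ + 2 * K →
        ∃ q, A a b q ∧ d p q ≤ K * (4 * K + 2 * δ + 1) + K := by
      intro a b hab
      obtain ⟨v, hv1, hv2⟩ := he.geo (f a) (f b) (min (e (f a) (f p)) (e (f a) (f b))) (by omega)
      obtain ⟨q, hq⟩ := hf3 v
      have hpv : e (f p) v ≤ 2 * K + 2 * δ := by
        have h5 := hδ (f p) v (f a) (f b)
        have h6 := he.comm (f p) (f a)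
        have h7 := he.comm v (f a)
        have h8 := he.comm v (f b)
        have h9 := he.tri (f a) (f p) (f b)
        have h10 := he.comm (f p) v
        have h11 := he.comm (f p) (f b)
        omega
      refine ⟨q, ?_, ?_⟩
      · show e (f a) (f q) + e (f q) (f b) ≤ e (f a) (f b) + 2 * K
        have h5 := he.tri (f a) v (f q)
        have h6 := he.tri (f q) v (f b)
        have h7 := he.comm v (f q)
        omega
      · refine (hback p q (3 * K + 2 * δ) ?_).trans ?_
        · have h5 := he.tri (f p) v (f q)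
          have h6 := he.comm v (f q)
          omega
        · exact Nat.add_le_add_right (Nat.mul_le_mul_left K (by omega)) K
    have h5 := he.comm (f z) (f p)
    have h6 := he.comm (f y) (f p)
    have h7 := he.comm (f y) (f z)
    by_cases hcase : e (f x) (f y) + e (f z) (f p) ≤ e (f x) (f z) + e (f y) (f p) + δ
    · obtain ⟨q, hq1, hq2⟩ := hstep x z (by omega)
      exact ⟨q, Or.inl hq1, hq2⟩
    · obtain ⟨q, hq1, hq2⟩ := hstep z y (by omega)
      exact ⟨q, Or.inr hq1, hq2⟩
  · intro x y
    obtain ⟨v, hv0, hvn, hv⟩ := chain he (f x) (f y)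
    choose g hg using hf3
    refine ⟨e (f x) (f y) + 2, fun i => if i = 0 then x else if i = e (f x) (f y) + 2 then y
      else g (v (i - 1)), by simp, by simp, ?_, ?_⟩
    · intro i hi
      show e (f x) _ + e _ (f y) ≤ _
      by_cases h0 : i = 0
      · simp only [h0, if_true]
        rw [he.self]
        omega
      · by_cases h1 : i = e (f x) (f y) + 2
        · simp only [h1, if_true]
          rw [if_neg (by omega), he.self]
          omega
        · simp only [h0, h1, if_false]
          obtain ⟨h2, h3, -⟩ := hv (i - 1) (by omega)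
          have h4 := hg (v (i - 1))
          have h5 := he.tri (f x) (v (i - 1)) (f (g (v (i - 1))))
          have h6 := he.tri (f (g (v (i - 1)))) (v (i - 1)) (f y)
          have h7 := he.comm (v (i - 1)) (f (g (v (i - 1))))
          omega
    · intro i hi
      by_cases h0 : i = 0
      · subst h0
        have h1 : (0 : ℕ) + 1 ≠ e (f x) (f y) + 2 := by omega
        simp only [if_true, h1, if_false]
        refine (hback _ _ K ?_).trans (Nat.add_le_add_right (Nat.mul_le_mul_left K (by omega)) K)
        have h4 := hg (v 0)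
        rw [hv0] at h4
        simp only [Nat.add_sub_cancel, hv0]
        rw [he.comm]
        simpa using h4
      · have hi1 : i ≠ e (f x) (f y) + 2 := by omega
        simp only [h0, hi1, if_false]
        by_cases h2 : i + 1 = e (f x) (f y) + 2
        · have h3 : i + 1 ≠ 0 := by omega
          have h4 : i - 1 = e (f x) (f y) := by omega
          simp only [h3, if_false, h2, if_true, h4, hvn]
          refine (hback _ _ K ?_).trans (Nat.add_le_add_right (Nat.mul_le_mul_left K (by omega)) K)
          exact hg (f y)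
        · have h3 : i + 1 ≠ 0 := by omega
          simp only [h2, h3, if_false]
          refine (hback _ _ (2 * K + 1) ?_).trans
            (Nat.add_le_add_right (Nat.mul_le_mul_left K (by omega)) K)
          have h4 := (hv (i - 1) (by omega)).2.2 (by omega)
          have h5 : i - 1 + 1 = i + 1 - 1 := by omega
          rw [h5] at h4
          have h6 := hg (v (i - 1))
          have h7 := hg (v (i + 1 - 1))
          have h8 := he.tri (f (g (v (i - 1)))) (v (i - 1)) (f (g (v (i + 1 - 1))))
          have h9 := he.tri (v (i - 1)) (v (i + 1 - 1)) (f (g (v (i + 1 - 1))))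
          have h10 := he.comm (v (i + 1 - 1)) (f (g (v (i + 1 - 1))))
          omega

end HypQI

end QFC
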