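import Mathlib
import Pool.Agent.QFC.Bldg
import Pool.Agent.QFC.HypQI

/-!
# Geodesic galleries cross every wall at most once; right-angled Fuchsian buildings are hyperbolic
-/

open scoped Classical

namespace QFC

/-! ### types -/

theorem four_ne_zero_zmod {n : ℕ} (hn : 6 ≤ n) : ((4 : ℕ) : ZMod n) ≠ 0 := by
  intro h
  rw [ZMod.natCast_eq_zero_iff] at h
  exact absurd (Nat.le_of_dvd (by norm_num) h) (by omega)

theorem three_ne_zero_zmod {n : ℕ} (hn : 6 ≤ n) : ((3 : ℕ) : ZMod n) ≠ 0 := by
  intro h
  rw [ZMod.natCast_eq_zero_iff] at h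
  exact absurd (Nat.le_of_dvd (by norm_num) h) (by omega)

theorem two_ne_zero_zmod {n : ℕ} (hn : 6 ≤ n) : ((2 : ℕ) : ZMod n) ≠ 0 := by
  intro h
  rw [ZMod.natCast_eq_zero_iff] at h
  exact absurd (Nat.le_of_dvd (by norm_num) h) (by omega)

theorem one_ne_zero_zmod {n : ℕ} (hn : 6 ≤ n) : ((1 : ℕ) : ZMod n) ≠ 0 := by
  intro h
  rw [ZMod.natCast_eq_zero_iff] at h
  exact absurd (Nat.le_of_dvd (by norm_num) h) (by omega)

theorem tadj_ne {n : ℕ} (hn : 6 ≤ n) {i j : ZMod n} (h : TAdj i j) : i ≠ j := by
  rintro rfl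
  apply one_ne_zero_zmod hn
  rcases h with h | h
  · push_cast
    linear_combination -h
  · push_cast
    linear_combination -h

/-- no triangles in the cycle -/
theorem no_triangle {n : ℕ} (hn : 6 ≤ n) {i j k : ZMod n} (h1 : TAdj i j) (h2 : TAdj j k)
    (h3 : TAdj i k) : False := by
  rcases h1 with h1 | h1 <;> rcases h2 with h2 | h2 <;> rcases h3 with h3 | h3
  · apply one_ne_zero_zmod hn
    push_cast
    linear_combination h3 - h2 - h1
  · apply three_ne_zero_zmod hn
    push_cast
    linear_combination -h3 - h2 - h1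
  · apply one_ne_zero_zmod hn
    push_cast
    linear_combination h1 - h2 - h3
  · apply one_ne_zero_zmod hn
    push_cast
    linear_combination -h3 + h2 - h1
  · apply one_ne_zero_zmod hn
    push_cast
    linear_combination -h3 + h2 - h1
  · apply one_ne_zero_zmod hn
    push_cast
    linear_combination h1 - h2 - h3
  · apply three_ne_zero_zmod hn
    push_cast
    linear_combination -h3 - h2 - h1
  · apply one_ne_zero_zmod hn
    push_cast
    linear_combination h3 - h2 - h1

/-- two different types adjacent to `j` have only `j` as a common neighbour -/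
theorem common_nbr {n : ℕ} (hn : 6 ≤ n) {i j k l : ZMod n} (h1 : TAdj i j) (h2 : TAdj k j)
    (hik : i ≠ k) (h3 : TAdj i l) (h4 : TAdj k l) : l = j := by
  have h40 := four_ne_zero_zmod hn
  rcases h1 with h1 | h1 <;> rcases h2 with h2 | h2 <;> rcases h3 with h3 | h3 <;>
    rcases h4 with h4 | h4 <;>
    first
    | (exfalso; apply hik; linear_combination h1 - h2; done)
    | (exfalso; apply hik; linear_combination h2 - h1; done)
    | (linear_combination h3 - h1; done)
    | (linear_combination h4 - h2; done)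
    | (linear_combination h1 - h3; done)
    | (linear_combination h2 - h4; done)
    | (exfalso; apply h40; push_cast; linear_combination -h1 - h2 - h3 - h4; done)

namespace Bldg

variable {n : ℕ} {C : Type} (B : Bldg n C)

/-! ### the gallery metric -/

theorem exists_adj_of_dist_one {x y : C} (h : B.dist x y = 1) : ∃ i, B.adj i x y ∧ x ≠ y := by
  obtain ⟨i, e, h1, h2, h3⟩ := B.exists_step (k := 0) h
  have h4 := B.dist_eq_zero h3
  subst h4
  exact ⟨i, h1, h2.symm⟩

theorem geoSpH : GeoSp B.dist where
  self := B.dist_self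
  eq := B.dist_eq_zero
  comm := B.dist_comm
  tri := B.dist_triangle
  geo := by
    intro x y k hk
    have key : ∀ k, k ≤ B.dist x y → ∃ z, B.dist x z ≤ k ∧ B.dist z y = B.dist x y - k := by
      intro k
      induction k with
      | zero => intro _; exact ⟨x, by rw [B.dist_self], by simp⟩
      | succ k ih =>
        intro hk
        obtain ⟨z, h1, h2⟩ := ih (by omega)
        obtain ⟨i, e, h3, -, h4⟩ := B.exists_step (c := z) (d := y) (k := B.dist x y - (k + 1))
          (by omega)
        refine ⟨e, ?_, h4⟩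
        have h5 := B.dist_triangle x z e
        have h6 := B.dist_le_one h3
        omega
    obtain ⟨z, h1, h2⟩ := key k hk
    refine ⟨z, ?_, h2⟩
    have h3 := B.dist_triangle x z y
    omega

/-! ### walls -/

theorem on_wall (j : ZMod n) (c : C) : B.On (B.wall j c) c := by
  unfold On
  rw [B.typ_wall]

theorem wall_eq_of_on {T : B.Wall} {c : C} (h : B.On T c) {j : ZMod n} (hj : B.typ T = j) :
    B.wall j c = T := by
  subst hj
  exact h

/-- crossing a side -/
theorem wall_of_sep {T : B.Wall} {j : ZMod n} {c d : C} (h : B.adj j c d)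
    (hs : B.σ T c ≠ B.σ T d) : T = B.wall j c := by
  by_contra hne
  exact hs (B.σ_eq h hne)

/-- moving along a wall keeps us on it -/
theorem on_move {T : B.Wall} {j : ZMod n} {c d : C} (hT : B.On T c) (h : B.adj j c d)
    (hj : j = B.typ T ∨ TAdj (B.typ T) j) : B.On T d := by
  unfold On at *
  rw [← B.wall_eq h hj]
  exact hT

theorem cross_symm {T U : B.Wall} (h : B.Cross T U) : B.Cross U T :=
  ⟨h.1.symm, h.2.imp fun _ hc => ⟨hc.2, hc.1⟩⟩

/-- a wall `V` separating two chambers on the wall `U ≠ V` crosses `U` -/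
theorem cross_of_sep_on {U V : B.Wall} {c d : C} (hc : B.On U c) (hd : B.On U d)
    (hs : B.σ V c ≠ B.σ V d) (hne : V ≠ U) : B.Cross V U := by
  have hw : B.wall (B.typ U) c = B.wall (B.typ U) d := by
    rw [hc, hd]
  have hch := B.wall_conn hw
  have key : ∀ x, Relation.ReflTransGen (fun x y => ∃ j, (j = B.typ U ∨ TAdj (B.typ U) j) ∧
      B.adj j x y) c x → B.On U x ∧ (B.σ V c ≠ B.σ V x → B.Cross V U) := by
    intro x hx
    induction hx with
    | refl => exact ⟨hc, fun h => absurd rfl h⟩
    | @tail x y _ hxy ih =>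
      obtain ⟨j, hj, hadj⟩ := hxy
      refine ⟨B.on_move ih.1 hadj hj, fun hs => ?_⟩
      by_cases h1 : B.σ V c = B.σ V x
      · have h2 : B.σ V x ≠ B.σ V y := by rw [← h1]; exact hs
        have h3 := B.wall_of_sep hadj h2
        rcases hj with hj | hj
        · exfalso
          apply hne
          rw [h3, hj]
          exact ih.1
        · refine ⟨?_, x, ?_, ih.1⟩
          · rw [h3, B.typ_wall]
            exact hj.symm
          · rw [h3]
            exact B.on_wall j x
      · exact ih.2 h1
  exact (key d hch).2 hs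

/-- the same sheets are seen from all panels of a wall -/
theorem panel_sheets {T : B.Wall} {c x : C} (hc : B.On T c) (hx : B.On T x) :
    ∀ y, B.adj (B.typ T) x y → ∃ y', B.adj (B.typ T) c y' ∧ B.σ T y' = B.σ T y := by
  have hw : B.wall (B.typ T) c = B.wall (B.typ T) x := by
    rw [hc, hx]
  have hch := B.wall_conn hw
  have key : ∀ x, Relation.ReflTransGen (fun x y => ∃ j, (j = B.typ T ∨ TAdj (B.typ T) j) ∧
      B.adj j x y) c x → ∀ y, B.adj (B.typ T) x y →
        ∃ y', B.adj (B.typ T) c y' ∧ B.σ T y' = B.σ T y := by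
    intro x hx
    induction hx with
    | refl => exact fun y hy => ⟨y, hy, rfl⟩
    | @tail x z _ hxz ih =>
      obtain ⟨j, hj, hadj⟩ := hxz
      intro y hy
      rcases hj with hj | hj
      · subst hj
        exact ih y (B.adj_trans hadj hy)
      · obtain ⟨f, hf1, hf2⟩ := B.square hj hy (B.adj_symm hadj)
        obtain ⟨y', hy1, hy2⟩ := ih f hf2
        refine ⟨y', hy1, ?_⟩
        rw [hy2]
        refine (B.σ_eq hf1 ?_).symm
        intro hT
        have h1 : B.typ T = j := by
          rw [hT, B.typ_wall]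
        exact tadj_ne B.hn hj h1
  exact key x hch

/-- gate: a chamber on `T` can be moved inside its `T`-panel into the `T`-sheet of any chamber -/
theorem gate {T : B.Wall} {c : C} (hc : B.On T c) (z : C) :
    ∃ c', B.adj (B.typ T) c c' ∧ B.σ T c' = B.σ T z := by
  have hch := B.conn c z
  induction hch with
  | refl => exact ⟨c, B.adj_refl _ c, rfl⟩
  | @tail x y _ hxy ih =>
    obtain ⟨j, hadj⟩ := hxy
    by_cases h : B.σ T x = B.σ T y
    · obtain ⟨c', h1, h2⟩ := ih
      exact ⟨c', h1, by rw [h2, h]⟩
    · have h3 := B.wall_of_sep hadj h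
      have h4 : B.typ T = j := by rw [h3, B.typ_wall]
      have hy : B.On T y := by
        rw [h3]
        exact B.on_move (B.on_wall j x) hadj (Or.inl (by rw [B.typ_wall]))
      exact B.panel_sheets hc hy y (B.adj_refl _ y)

/-- the gate stays on the other walls through adjacent sides, and does not change other sheets -/
theorem gate_cross {T U : B.Wall} (hTU : TAdj (B.typ T) (B.typ U)) {c : C} (hcT : B.On T c)
    (hcU : B.On U c) (z : C) :
    ∃ c', B.On T c' ∧ B.On U c' ∧ B.σ T c' = B.σ T z ∧ ∀ V, V ≠ T → B.σ V c' = B.σ V c := by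
  obtain ⟨c', h1, h2⟩ := B.gate hcT z
  refine ⟨c', B.on_move hcT h1 (Or.inl rfl), B.on_move hcU h1 (Or.inr hTU.symm), h2, ?_⟩
  intro V hV
  refine (B.σ_eq h1 ?_).symm
  rw [hcT]
  exact hV

/-! ### geodesic galleries cross a wall at most once -/

/-- the shifting argument: a gallery `p` from step `r+1` to `s` inside the wall of type `i`,
parallel to a gallery starting at an `i`-neighbour `x` of `p (r+1)` -/
theorem shift {i : ZMod n} {p : ℕ → C} {t : ℕ → ZMod n} {r : ℕ} {x : C}
    (hx : B.adj i x (p r)) : ∀ m, (∀ u, r ≤ u → u < r + m →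
      B.adj (t u) (p u) (p (u + 1)) ∧ TAdj i (t u)) →
      ∃ x', B.adj i x' (p (r + m)) ∧ B.dist x x' ≤ m := by
  intro m
  induction m with
  | zero => intro _; exact ⟨x, hx, by rw [B.dist_self]⟩
  | succ m ih =>
    intro h
    obtain ⟨x', h1, h2⟩ := ih (fun u hu hu' => h u hu (by omega))
    obtain ⟨h3, h4⟩ := h (r + m) (by omega) (by omega)
    obtain ⟨f, hf1, hf2⟩ := B.square h4 (B.adj_symm h1) h3
    refine ⟨f, B.adj_symm hf2, ?_⟩
    have h5 := B.dist_triangle x x' f
    have h6 := B.dist_le_one hf1
    omega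

/-- Along a geodesic gallery no wall is crossed twice. -/
theorem cross_once {p : ℕ → C} {t : ℕ → ZMod n} {N : ℕ}
    (hp : ∀ i < N, B.adj (t i) (p i) (p (i + 1)) ∧ p i ≠ p (i + 1))
    (hgeo : ∀ i j, i ≤ j → j ≤ N → B.dist (p i) (p j) = j - i) :
    ∀ m r, 0 < m → r + m < N → B.wall (t r) (p r) ≠ B.wall (t (r + m)) (p (r + m)) := by
  intro m
  induction m using Nat.strong_induction_on with
  | _ m ih =>
    intro r hm hN heq
    set T := B.wall (t r) (p r) with hT
    have htyp : B.typ T = t r := by rw [hT, B.typ_wall]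
    have hts : t (r + m) = t r := by
      rw [← htyp, heq, B.typ_wall]
    have hon1 : B.On T (p (r + 1)) := by
      refine B.on_move (c := p r) ?_ (hp r (by omega)).1 (Or.inl htyp.symm)
      rw [hT]
      exact B.on_wall _ _
    have hon2 : B.On T (p (r + m)) := by
      rw [heq]
      exact B.on_wall _ _
    -- the walls crossed in between
    have hbet : ∀ u, r + 1 ≤ u → u < r + m → TAdj (t r) (t u) := by
      intro u hu1 hu2
      set V := B.wall (t u) (p u) with hV
      have hVT : V ≠ T := by
        intro h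
        exact ih (u - r) (by omega) r (by omega) (by omega) (by
          have : r + (u - r) = u := by omega
          rw [this, ← hT, ← hV, h])
      -- `V` is crossed only at `u` between `r+1` and `r+m`
      have hconst : ∀ a b, r + 1 ≤ a → a ≤ b → b ≤ r + m → (b ≤ u ∨ u < a) →
          B.σ V (p a) = B.σ V (p b) := by
        intro a b ha hab
        induction b, hab using Nat.le_induction with
        | base => intro _ _; rfl
        | succ b hab ihb =>
          intro hb hbu
          rw [ihb (by omega) (by omega)]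
          refine B.σ_eq (hp b (by omega)).1 ?_
          intro h
          rcases Nat.lt_or_ge b u with hbu' | hbu'
          · exact ih (u - b) (by omega) b (by omega) (by omega) (by
              have : b + (u - b) = u := by omega
              rw [this, ← hV, ← h])
          · have hbu2 : u < b := by omega
            exact ih (b - u) (by omega) u (by omega) (by omega) (by
              have : u + (b - u) = b := by omega
              rw [this, ← hV, ← h])
      have hsep : B.σ V (p (r + 1)) ≠ B.σ V (p (r + m)) := by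
        rw [hconst (r + 1) u le_rfl hu1 (by omega) (Or.inl le_rfl),
          ← hconst (u + 1) (r + m) (by omega) (by omega) le_rfl (Or.inr (by omega))]
        exact B.σ_ne (hp u (by omega)).1 (hp u (by omega)).2
      have hcr := B.cross_of_sep_on hon1 hon2 hsep hVT
      have h1 := hcr.1
      rw [hV, B.typ_wall, htyp] at h1
      exact h1.symm
    obtain ⟨x', h1, h2⟩ := B.shift (i := t r) (p := p) (t := t) (r := r + 1) (x := p r)
      (hp r (by omega)).1 (m - 1) (by
        intro u hu1 hu2
        exact ⟨(hp u (by omega)).1, hbet u hu1 (by omega)⟩)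
    have h3 : r + 1 + (m - 1) = r + m := by omega
    rw [h3] at h1
    have h4 := (hp (r + m) (by omega)).1
    rw [hts] at h4
    have h5 := B.dist_le_one (B.adj_trans h1 h4)
    have h6 := B.dist_triangle (p r) x' (p (r + m + 1))
    have h7 := hgeo r (r + m + 1) (by omega) (by omega)
    omega

/-- A geodesic gallery between two chambers. -/
theorem exists_gallery (c d : C) : ∃ (p : ℕ → C) (t : ℕ → ZMod n), p 0 = c ∧ p (B.dist c d) = d ∧
    (∀ i < B.dist c d, B.adj (t i) (p i) (p (i + 1)) ∧ p i ≠ p (i + 1)) ∧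
    ∀ i j, i ≤ j → j ≤ B.dist c d → B.dist (p i) (p j) = j - i := by
  obtain ⟨p, hp0, hpn, hp⟩ := HypQI.chain B.geoSpH c d
  have h1 : ∀ i, ∃ j, i < B.dist c d → B.adj j (p i) (p (i + 1)) ∧ p i ≠ p (i + 1) := by
    intro i
    by_cases hi : i < B.dist c d
    · obtain ⟨j, hj⟩ := B.exists_adj_of_dist_one ((hp i hi.le).2.2 hi)
      exact ⟨j, fun _ => hj⟩
    · exact ⟨0, fun h => absurd h hi⟩
  choose t ht using h1
  refine ⟨p, t, hp0, hpn, ht, ?_⟩
  have hle : ∀ i j, i ≤ j → j ≤ B.dist c d → B.dist (p i) (p j) ≤ j - i := by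
    intro i j hij
    induction j, hij using Nat.le_induction with
    | base => intro _; rw [B.dist_self]; omega
    | succ j hij ih =>
      intro hj
      have h2 := ih (by omega)
      have h3 := (hp j (by omega)).2.2 (by omega)
      have h4 := B.dist_triangle (p i) (p j) (p (j + 1))
      omega
  intro i j hij hj
  have h2 := hle i j hij hj
  have h3 := (hp i (by omega)).1
  have h4 := (hp j hj).1
  have h5 := B.dist_triangle c (p i) (p j)
  omega

/-- The first wall crossed by a geodesic gallery separates its ends. -/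
theorem geodesic_sep {p : ℕ → C} {t : ℕ → ZMod n} {N : ℕ}
    (hp : ∀ i < N, B.adj (t i) (p i) (p (i + 1)) ∧ p i ≠ p (i + 1))
    (hgeo : ∀ i j, i ≤ j → j ≤ N → B.dist (p i) (p j) = j - i) (u : ℕ) (hu : u < N) :
    B.wall (t u) (p u) ∈ B.Sep (p 0) (p N) := by
  set V := B.wall (t u) (p u) with hV
  have hconst : ∀ a b, a ≤ b → b ≤ N → (b ≤ u ∨ u < a) → B.σ V (p a) = B.σ V (p b) := by
    intro a b hab
    induction b, hab using Nat.le_induction with
    | base => intro _ _; rfl
    | succ b hab ihb =>
      intro hb hbu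
      rw [ihb (by omega) (by omega)]
      refine B.σ_eq (hp b (by omega)).1 ?_
      intro h
      rcases Nat.lt_or_ge b u with hbu' | hbu'
      · exact B.cross_once hp hgeo (u - b) b (by omega) (by omega) (by
          have : b + (u - b) = u := by omega
          rw [this, ← hV, ← h])
      · exact B.cross_once hp hgeo (b - u) u (by omega) (by omega) (by
          have : u + (b - u) = b := by omega
          rw [this, ← hV, ← h])
  show B.σ V (p 0) ≠ B.σ V (p N)
  rw [hconst 0 u (Nat.zero_le _) hu.le (Or.inl le_rfl),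
    ← hconst (u + 1) N hu le_rfl (Or.inr (Nat.lt_succ_self u))]
  exact B.σ_ne (hp u hu).1 (hp u hu).2

/-- a separating wall is crossed -/
theorem sep_crossed {p : ℕ → C} {t : ℕ → ZMod n} {N : ℕ}
    (hp : ∀ i < N, B.adj (t i) (p i) (p (i + 1)) ∧ p i ≠ p (i + 1)) {T : B.Wall}
    (hT : T ∈ B.Sep (p 0) (p N)) : ∃ u < N, T = B.wall (t u) (p u) ∧
      B.σ T (p u) ≠ B.σ T (p (u + 1)) := by
  by_contra hno
  push Not at hno
  apply hT
  have hall : ∀ u, u ≤ N → B.σ T (p 0) = B.σ T (p u) := by
    intro u
    induction u with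
    | zero => intro _; rfl
    | succ u ih =>
      intro hu
      rw [ih (by omega)]
      by_contra hne
      have h1 := B.wall_of_sep (hp u (by omega)).1 hne
      exact hne (hno u (by omega) h1)
  exact hall N le_rfl

/-- The gallery distance is the number of separating walls. -/
theorem dist_eq_ncard_sep (c d : C) : (B.Sep c d).Finite ∧ B.dist c d = (B.Sep c d).ncard := by
  obtain ⟨p, t, hp0, hpn, hp, hgeo⟩ := B.exists_gallery c d
  have himg : B.Sep c d = (fun u => B.wall (t u) (p u)) '' (Set.Iio (B.dist c d)) := by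
    ext T
    constructor
    · intro hT
      rw [← hp0, ← hpn] at hT
      obtain ⟨u, hu, h1, -⟩ := B.sep_crossed hp hT
      exact ⟨u, hu, h1.symm⟩
    · rintro ⟨u, hu, rfl⟩
      have := B.geodesic_sep hp hgeo u hu
      rw [hp0, hpn] at this
      exact this
  have hinj : Set.InjOn (fun u => B.wall (t u) (p u)) (Set.Iio (B.dist c d)) := by
    intro u hu v hv huv
    by_contra hne
    rcases Nat.lt_or_gt_of_ne hne with h | h
    · exact B.cross_once hp hgeo (v - u) u (by omega) (by
        have h1 : v < B.dist c d := hv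
        omega) (by
        have : u + (v - u) = v := by omega
        rw [this]
        exact huv)
    · exact B.cross_once hp hgeo (u - v) v (by omega) (by
        have h1 : u < B.dist c d := hu
        omega) (by
        have : v + (u - v) = u := by omega
        rw [this]
        exact huv.symm)
  constructor
  · rw [himg]
    exact (Set.finite_Iio _).image _
  · rw [himg, hinj.ncard_image]
    rw [show Set.Iio (B.dist c d) = ((Finset.range (B.dist c d) : Finset ℕ) : Set ℕ) by
      ext x; simp, Set.ncard_coe_finset, Finset.card_range]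

/-- the first step of a geodesic: if `c ≠ d` some wall on `c` separates them -/
theorem exists_wall_sep {c d : C} (h : c ≠ d) : ∃ k, B.wall k c ∈ B.Sep c d := by
  obtain ⟨p, t, hp0, hpn, hp, hgeo⟩ := B.exists_gallery c d
  have hpos : 0 < B.dist c d := by
    rcases Nat.eq_zero_or_pos (B.dist c d) with h0 | h0
    · exact absurd (B.dist_eq_zero h0) h
    · exact h0
  have := B.geodesic_sep hp hgeo 0 hpos
  rw [hp0, hpn] at this
  exact ⟨t 0, this⟩

/-! ### no four walls in a crossing square -/

/-- A wall separating two chambers `c₁, c₂` on `U`, if `c₁` is on `T`, `c₂` on `T'`, crosses also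
the fourth wall `U'` of a crossing square (`c₃` on `T'` and `U'`, `c₄` on `U'` and `T`), provided
it is different from `T, T', U'`. -/
theorem square_sep {T U T' U' V : B.Wall} {c₁ c₂ c₃ c₄ : C}
    (hTU : B.Cross T U) (hUT' : B.Cross U T')
    (h1T : B.On T c₁) (h1U : B.On U c₁) (h2U : B.On U c₂) (h2T' : B.On T' c₂)
    (h3T' : B.On T' c₃) (h3U' : B.On U' c₃) (h4U' : B.On U' c₄) (h4T : B.On T c₄)
    (hV : B.σ V c₁ ≠ B.σ V c₂) (hVT : V ≠ T) (hVT' : V ≠ T') (hVU : V ≠ U) (hVU' : V ≠ U') :
    B.Cross V U ∧ B.Cross V U' := by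
  have hVUc := B.cross_of_sep_on h1U h2U hV hVU
  refine ⟨hVUc, ?_⟩
  by_cases h23 : B.σ V c₂ = B.σ V c₃
  · by_cases h34 : B.σ V c₃ = B.σ V c₄
    · -- separates `c₄` and `c₁`, both on `T`
      exfalso
      have h41 : B.σ V c₄ ≠ B.σ V c₁ := by
        rw [← h34, ← h23]
        exact hV.symm
      have h := B.cross_of_sep_on h4T h1T h41 hVT
      exact no_triangle B.hn h.1 hTU.1 hVUc.1
    · exact B.cross_of_sep_on h3U' h4U' h34 hVU'
  · exfalso
    have h := B.cross_of_sep_on h2T' h3T' h23 hVT'
    exact no_triangle B.hn h.1 hUT'.1.symm hVUc.1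

/-- the sheet is constant along a wall that does not cross -/
theorem sheet_const {T U : B.Wall} (hne : T ≠ U) (hcr : ¬ B.Cross T U) {c d : C} (hc : B.On U c)
    (hd : B.On U d) : B.σ T c = B.σ T d := by
  by_contra h
  exact hcr (B.cross_of_sep_on hc hd h hne)

/-- a corner of the crossing square, adjusted to the sheets of two chambers -/
theorem corner {T U : B.Wall} (h : B.Cross T U) (z z' : C) :
    ∃ c, B.On T c ∧ B.On U c ∧ B.σ T c = B.σ T z ∧ B.σ U c = B.σ U z' := by
  obtain ⟨hty, c₀, h0T, h0U⟩ := h
  obtain ⟨c', h1, h2, h3, -⟩ := B.gate_cross hty h0T h0U z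
  obtain ⟨c'', h4, h5, h6, h7⟩ := B.gate_cross hty.symm h2 h1 z'
  refine ⟨c'', h5, h4, ?_, h6⟩
  rw [h7 T ?_, h3]
  intro hTU
  subst hTU
  exact tadj_ne B.hn hty rfl

/-- No crossing square: two different walls cannot both cross two different walls. -/
theorem no_square {T T' U U' : B.Wall} (hT : T ≠ T') (hU : U ≠ U') (h1 : B.Cross T U)
    (h2 : B.Cross T' U) (h3 : B.Cross T' U') (h4 : B.Cross T U') : False := by
  -- step 1: reduce to two walls through one chamber
  have main : ∀ T T' : B.Wall, T ≠ T' → B.Cross T U → B.Cross T' U → B.Cross T' U' →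
      B.Cross T U' → ∀ c, B.On T c → B.On T' c → B.On U c →
      (∀ z, B.On U' z → B.σ U c = B.σ U z) → False := by
    intro T T' hT h1 h2 h3 h4 c hcT hcT' hcU hcs
    have hTT' : ¬ B.Cross T T' := fun h => no_triangle B.hn h.1 h2.1 h1.1
    have hT'T : ¬ B.Cross T' T := fun h => hTT' (B.cross_symm h)
    have hUU' : ¬ B.Cross U U' := fun h => no_triangle B.hn h1.1 h.1 h4.1
    have hU'U : ¬ B.Cross U' U := fun h => hUU' (B.cross_symm h)
    have htyne : B.typ T ≠ B.typ T' := by
      intro h
      apply hT
      have h5 : B.wall (B.typ T) c = T := hcT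
      have h6 : B.wall (B.typ T') c = T' := hcT'
      rw [← h5, ← h6, h]
    -- corners
    obtain ⟨c₃, h3T', h3U', h3s, h3s'⟩ := B.corner h3 c c
    obtain ⟨c₄, h4U', h4T, h4s, h4s'⟩ := B.corner (B.cross_symm h4) c c
    by_cases hcc : c = c₃
    · subst hcc
      have hty := common_nbr B.hn h1.1 h2.1 htyne h4.1 h3.1
      apply hU
      have h5 : B.wall (B.typ U) c = U := hcU
      have h6 : B.wall (B.typ U') c = U' := h3U'
      rw [← h5, ← h6, hty]
    · obtain ⟨k, hk⟩ := B.exists_wall_sep hcc
      set X := B.wall k c with hX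
      have hXs : B.σ X c ≠ B.σ X c₃ := hk
      have hXT' : X ≠ T' := by
        intro h
        rw [h] at hXs
        exact hXs h3s.symm
      have hXU' : X ≠ U' := by
        intro h
        rw [h] at hXs
        exact hXs h3s'.symm
      have hXU : X ≠ U := by
        intro h
        rw [h] at hXs
        exact hXs (hcs c₃ h3U')
      have hXT : X ≠ T := by
        intro h
        rw [h] at hXs
        exact hXs (B.sheet_const hT hTT' hcT' h3T')
      -- the square `T', U', T, U` with corners `c (on U, T')`, `c₃ (T', U')`, `c₄ (U', T)`, `c (T, U)`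
      obtain ⟨hc1, hc2⟩ := B.square_sep (T := U) (U := T') (T' := U') (U' := T) (V := X)
        (c₁ := c) (c₂ := c₃) (c₃ := c₄) (c₄ := c) (B.cross_symm h2) h3
        hcU hcT' h3T' h3U' h4U' h4T hcT hcU hXs hXU hXU' hXT' hXT
      have hty : B.typ X = B.typ U :=
        common_nbr B.hn h1.1 h2.1 htyne hc2.1.symm hc1.1.symm
      apply hXU
      have h5 : B.wall (B.typ U) c = U := hcU
      have h6 : B.wall (B.typ X) c = X := by rw [hX]; exact B.on_wall k c
      rw [← h6, hty, h5]
  have hTT' : ¬ B.Cross T T' := fun h => no_triangle B.hn h.1 h2.1 h1.1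
  have hT'T : ¬ B.Cross T' T := fun h => hTT' (B.cross_symm h)
  have hUU' : ¬ B.Cross U U' := fun h => no_triangle B.hn h1.1 h.1 h4.1
  have hU'U : ¬ B.Cross U' U := fun h => hUU' (B.cross_symm h)
  obtain ⟨e, heT', heU'⟩ := h3.2
  obtain ⟨e', heT, heU⟩ := h1.2
  -- corners adjusted: `c₁` on `T, U`, `c₂` on `U, T'`, `c₃` on `T', U'`, `c₄` on `U', T`
  obtain ⟨c₁, h1T, h1U, h1s, h1s'⟩ := B.corner h1 e e
  obtain ⟨c₂, h2T', h2U, h2s, h2s'⟩ := B.corner h2 e' e
  obtain ⟨c₃, h3T', h3U', h3s, h3s'⟩ := B.corner h3 e' e'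
  obtain ⟨c₄, h4T, h4U', h4s, h4s'⟩ := B.corner h4 e e'
  have hUs : ∀ z, B.On U' z → B.σ U e = B.σ U z := fun z hz => B.sheet_const hU hUU' heU' hz
  by_cases hcc : c₁ = c₂
  · subst hcc
    exact main T T' hT h1 h2 h3 h4 c₁ h1T h2T' h1U (fun z hz => by rw [h1s', hUs z hz])
  · obtain ⟨k, hk⟩ := B.exists_wall_sep hcc
    set X := B.wall k c₁ with hX
    have hXs : B.σ X c₁ ≠ B.σ X c₂ := hk
    have hXT : X ≠ T := by
      intro h
      rw [h] at hXs
      apply hXs
      rw [h1s]
      exact B.sheet_const hT hTT' heT' h2T'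
    have hXT' : X ≠ T' := by
      intro h
      rw [h] at hXs
      apply hXs
      rw [h2s]
      exact B.sheet_const hT.symm hT'T h1T heT
    have hXU : X ≠ U := by
      intro h
      rw [h] at hXs
      apply hXs
      rw [h1s', h2s']
    have hXU' : X ≠ U' := by
      intro h
      rw [h] at hXs
      exact hXs (B.sheet_const hU.symm hU'U h1U h2U)
    obtain ⟨hc1, hc2⟩ := B.square_sep (V := X) h1 (B.cross_symm h2) h1T h1U h2U h2T' h3T' h3U'
      h4U' h4T hXs hXT hXT' hXU hXU'
    exact main T X hXT.symm h1 hc1 hc2 h4 c₁ h1T (by rw [hX]; exact B.on_wall k c₁) h1U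
      (fun z hz => by rw [h1s', hUs z hz])

/-- Two different walls which do not cross: every chamber is in the sheet of the first containing
the second, or in the sheet of the second containing the first. -/
theorem nested {T U : B.Wall} (hne : T ≠ U) (hcr : ¬ B.Cross T U) {t u : C} (ht : B.On T t)
    (hu : B.On U u) (x : C) : B.σ T x = B.σ T u ∨ B.σ U x = B.σ U t := by
  by_contra hno
  push Not at hno
  obtain ⟨hx1, hx2⟩ := hno
  have hcr' : ¬ B.Cross U T := fun h => hcr (B.cross_symm h)
  obtain ⟨t', ht1, ht2⟩ := B.gate ht x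
  have ht'T : B.On T t' := B.on_move ht ht1 (Or.inl rfl)
  obtain ⟨p, s, hp0, hpn, hp, hgeo⟩ := B.exists_gallery x t'
  -- `U` separates `x` and `t'`
  have hU : U ∈ B.Sep (p 0) (p (B.dist x t')) := by
    rw [hp0, hpn]
    show B.σ U x ≠ B.σ U t'
    rw [B.sheet_const hne.symm hcr' ht'T ht]
    exact hx2
  obtain ⟨v, hv, hv1, hv2⟩ := B.sep_crossed hp hU
  -- `T` does not separate `x` from `p v`
  have hTv : B.σ T (p 0) = B.σ T (p v) := by
    by_contra hs
    have h1 : T ∈ B.Sep (p 0) (p v) := hs
    obtain ⟨w, hw, hw1, -⟩ := B.sep_crossed (N := v) (fun i hi => hp i (by omega)) h1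
    have h2 := B.geodesic_sep hp hgeo w (by omega)
    rw [← hw1, hp0, hpn] at h2
    exact h2 ht2.symm
  rw [hp0] at hTv
  apply hx1
  rw [hTv]
  have hUv : B.On U (p v) := by
    rw [hv1]
    exact B.on_wall _ _
  exact B.sheet_const hne hcr hUv hu

/-- the pairing type of a wall: it separates `a|b`, `c|e`, `a|e`, `b|c`, and does not separate one
of the pairs `a, c` and `b, e` -/
def PT (T : B.Wall) (a b c e : C) : Prop :=
  B.σ T a ≠ B.σ T b ∧ B.σ T c ≠ B.σ T e ∧ B.σ T a ≠ B.σ T e ∧ B.σ T b ≠ B.σ T c ∧
    (B.σ T a = B.σ T c ∨ B.σ T b = B.σ T e)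

/-- walls of different pairing types cross -/
theorem cross_of_PT {T U : B.Wall} {a b c e : C} (hT : B.PT T a b c e) (hU : B.PT U a b e c) :
    B.Cross T U := by
  obtain ⟨hT1, hT2, hT3, hT4, hT5⟩ := hT
  obtain ⟨hU1, hU2, hU3, hU4, hU5⟩ := hU
  have hne : T ≠ U := by
    rintro rfl
    rcases hT5 with h | h
    · exact hU3 h
    · exact hU4 h
  by_contra hcr
  obtain ⟨t, ht⟩ := B.wall_surj T
  obtain ⟨u, hu⟩ := B.wall_surj U
  have hn := fun x => B.nested hne hcr (t := t) (u := u) ht hu x
  rcases hn a with ha | ha <;> rcases hn b with hb | hb <;> rcases hn c with hc | hc <;>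
    rcases hn e with he | he
  all_goals first
    | exact hT1 (ha.trans hb.symm)
    | exact hT2 (hc.trans he.symm)
    | exact hT3 (ha.trans he.symm)
    | exact hT4 (hb.trans hc.symm)
    | exact hU1 (ha.trans hb.symm)
    | exact hU2 (he.trans hc.symm)
    | exact hU3 (ha.trans hc.symm)
    | exact hU4 (hb.trans he.symm)

/-- Right-angled Fuchsian buildings are hyperbolic. -/
theorem fourPt : FourPt B.dist 2 := by
  intro a b c e
  -- finite set of all relevant walls
  have hfin : ∀ x y, (B.Sep x y).Finite := fun x y => (B.dist_eq_ncard_sep x y).1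
  let F : Finset B.Wall := ((hfin a b).toFinset ∪ (hfin c e).toFinset) ∪
    ((hfin a c).toFinset ∪ (hfin b e).toFinset) ∪ ((hfin a e).toFinset ∪ (hfin b c).toFinset)
  have hcard : ∀ x y, B.Sep x y ⊆ ↑F →
      B.dist x y = ∑ T ∈ F, if B.σ T x ≠ B.σ T y then 1 else 0 := by
    intro x y hxy
    rw [(B.dist_eq_ncard_sep x y).2, Finset.sum_boole, Nat.cast_id]
    rw [← Set.ncard_coe_finset]
    congr 1
    ext T
    simp only [Finset.coe_filter, Set.mem_ofPred_eq]
    constructor
    · intro h
      exact ⟨hxy h, h⟩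
    · intro h
      exact h.2
  have hsub : ∀ x y, (hfin x y).toFinset ⊆ F → B.Sep x y ⊆ ↑F := by
    intro x y h T hT
    exact h ((hfin x y).mem_toFinset.2 hT)
  have hab := hcard a b (hsub a b (by intro T hT; simp only [F, Finset.mem_union]; tauto))
  have hce := hcard c e (hsub c e (by intro T hT; simp only [F, Finset.mem_union]; tauto))
  have hac := hcard a c (hsub a c (by intro T hT; simp only [F, Finset.mem_union]; tauto))
  have hbe := hcard b e (hsub b e (by intro T hT; simp only [F, Finset.mem_union]; tauto))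
  have hae := hcard a e (hsub a e (by intro T hT; simp only [F, Finset.mem_union]; tauto))
  have hbc := hcard b c (hsub b c (by intro T hT; simp only [F, Finset.mem_union]; tauto))
  have hpt : ∀ a b c e : C, ∀ T : B.Wall,
      (if B.σ T a ≠ B.σ T b then 1 else 0) + (if B.σ T c ≠ B.σ T e then 1 else 0) ≤
      (if B.σ T a ≠ B.σ T c then 1 else 0) + (if B.σ T b ≠ B.σ T e then 1 else 0) +
      (if B.PT T a b c e then 2 else 0) := by
    intro a b c e T
    by_cases h1 : B.σ T a = B.σ T c
    · by_cases h2 : B.σ T b = B.σ T e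
      · by_cases h3 : B.σ T a = B.σ T b
        · have h4 : B.σ T c = B.σ T e := by rw [← h1, h3, h2]
          simp [h3, h4]
        · have : B.PT T a b c e := ⟨h3, by rw [← h1, ← h2]; exact h3, by rw [← h2]; exact h3,
            by rw [← h1]; exact fun h => h3 h.symm, Or.inl h1⟩
          rw [if_pos this]
          split_ifs <;> omega
      · by_cases h3 : B.σ T a = B.σ T b
        · rw [if_neg (not_not.2 h3), if_pos h2]
          split_ifs <;> omega
        · by_cases h4 : B.σ T c = B.σ T e
          · rw [if_neg (not_not.2 h4), if_pos h2]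
            split_ifs <;> omega
          · have : B.PT T a b c e := ⟨h3, h4, by rw [h1]; exact h4,
              by rw [← h1]; exact fun h => h3 h.symm, Or.inl h1⟩
            rw [if_pos this]
            split_ifs <;> omega
    · by_cases h2 : B.σ T b = B.σ T e
      · by_cases h3 : B.σ T a = B.σ T b
        · rw [if_neg (not_not.2 h3), if_pos h1]
          split_ifs <;> omega
        · by_cases h4 : B.σ T c = B.σ T e
          · rw [if_neg (not_not.2 h4), if_pos h1]
            split_ifs <;> omega
          · have : B.PT T a b c e := ⟨h3, h4, by rw [← h2]; exact h3,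
              by rw [h2]; exact fun h => h4 h.symm, Or.inr h2⟩
            rw [if_pos this]
            split_ifs <;> omega
      · rw [if_pos h1, if_pos h2]
        split_ifs <;> omega
  have hone : ∀ a b c e : C, (∀ T U : B.Wall, B.PT T a b c e → B.PT U a b c e → T = U) →
      ∑ T ∈ F, (if B.PT T a b c e then 2 else 0) ≤ 2 := by
    intro a b c e h
    by_cases hex : ∃ T ∈ F, B.PT T a b c e
    · obtain ⟨T, hTF, hT⟩ := hex
      rw [Finset.sum_eq_single T]
      · rw [if_pos hT]
      · intro U _ hUT
        rw [if_neg]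
        exact fun hU => hUT (h U T hU hT)
      · intro h
        exact absurd hTF h
    · rw [Finset.sum_eq_zero]
      · omega
      · intro T hTF
        rw [if_neg]
        exact fun hT => hex ⟨T, hTF, hT⟩
  have hsum1 : B.dist a b + B.dist c e ≤ B.dist a c + B.dist b e +
      ∑ T ∈ F, (if B.PT T a b c e then 2 else 0) := by
    rw [hab, hce, hac, hbe, ← Finset.sum_add_distrib, ← Finset.sum_add_distrib,
      ← Finset.sum_add_distrib]
    exact Finset.sum_le_sum fun T _ => hpt a b c e T
  have hsum2 : B.dist a b + B.dist c e ≤ B.dist a e + B.dist b c +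
      ∑ T ∈ F, (if B.PT T a b e c then 2 else 0) := by
    have h1 : B.dist c e = B.dist e c := B.dist_comm c e
    have h2 := hcard e c (by
      intro T hT
      exact (hsub c e (by intro T hT; simp only [F, Finset.mem_union]; tauto)) (fun h => hT h.symm))
    rw [h1, hab, h2, hae, hbc, ← Finset.sum_add_distrib, ← Finset.sum_add_distrib,
      ← Finset.sum_add_distrib]
    exact Finset.sum_le_sum fun T _ => hpt a b e c T
  by_cases hA : ∀ T U : B.Wall, B.PT T a b c e → B.PT U a b c e → T = U
  · have := hone a b c e hA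
    omega
  · by_cases hB : ∀ T U : B.Wall, B.PT T a b e c → B.PT U a b e c → T = U
    · have := hone a b e c hB
      omega
    · exfalso
      push Not at hA hB
      obtain ⟨T, T', hT, hT', hne⟩ := hA
      obtain ⟨U, U', hU, hU', hne'⟩ := hB
      exact B.no_square hne hne' (B.cross_of_PT hT hU) (B.cross_of_PT hT' hU)
        (B.cross_of_PT hT' hU') (B.cross_of_PT hT hU')

end Bldg

end QFC
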