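import Pool.Agent.QFC.Bldg
import Pool.Agent.QFC.BldgHyp

/-! # A1 : types, first facts on walls and sheets -/

open scoped Classical

namespace QFC

/-- `n ≥ 6`: `i + 1 ≠ i` in `ZMod n`. -/
theorem TAdj_ne {n : ℕ} (hn : 6 ≤ n) {i j : ZMod n} (h : TAdj i j) : i ≠ j := tadj_ne hn h

/-- no triangles among neighbouring types: `i, i ± 1, …` (differences `±1, ±1, ±1` cannot sum to `0` mod `n ≥ 6`) -/
theorem TAdj_cases {n : ℕ} (hn : 6 ≤ n) {i j k : ZMod n} (h : TAdj i j) (h' : TAdj i k) : ¬ TAdj j k :=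
  fun h2 => QFC.no_triangle hn h h2 h'

/-- two different types have at most one common neighbour (`j - i, i' - j, j' - i', i - j' ∈ {±1}` with sum `0`; sum of four
signs is `0, ±2, ±4`; it is `0` mod `n ≥ 6` only if it is `0`) -/
theorem TAdj_unique {n : ℕ} (hn : 6 ≤ n) {i i' j j' : ZMod n} (h1 : i ≠ i') (h2 : TAdj i j) (h3 : TAdj i' j)
    (h4 : TAdj i j') (h5 : TAdj i' j') : j = j' := common_nbr hn h4 h5 h1 h2 h3

/-- small multiples: `k • 1 ≠ 0` in `ZMod n` for `0 < k < 6` -/
theorem natCast_ne_zero {n : ℕ} (hn : 6 ≤ n) {k : ℕ} (h0 : 0 < k) (h6 : k < 6) : ((k : ℕ) : ZMod n) ≠ 0 := by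
  intro h
  rw [ZMod.natCast_eq_zero_iff] at h
  have := Nat.le_of_dvd h0 h
  omega

namespace Bldg

variable {n : ℕ} {C : Type} (B : Bldg n C)

theorem Sep_self (c : C) : B.Sep c c = ∅ := by
  ext T
  simp [Sep]

theorem Sep_comm (c d : C) : B.Sep c d = B.Sep d c := by
  ext T
  exact ne_comm

theorem Sep_subset (c d e : C) : B.Sep c e ⊆ B.Sep c d ∪ B.Sep d e := by
  intro T hT
  by_cases h : B.σ T c = B.σ T d
  · refine Or.inr ?_
    intro h2
    exact hT (h.trans h2)
  · exact Or.inl h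

/-- `σ_eq` and `σ_ne` -/
theorem Sep_adj {i : ZMod n} {c d : C} (h : B.adj i c d) (hne : c ≠ d) : B.Sep c d = {B.wall i c} := by
  ext T
  constructor
  · intro hT
    exact B.wall_of_sep h hT
  · intro hT
    have hT' : T = B.wall i c := hT
    subst hT'
    exact B.σ_ne h hne

/-- induction on `conn` with `Sep_subset`, `Sep_adj` -/
theorem Sep_finite (c d : C) : (B.Sep c d).Finite := (B.dist_eq_ncard_sep c d).1

theorem wall_adj {i : ZMod n} {c d : C} (h : B.adj i c d) : B.wall i c = B.wall i d :=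
  B.wall_eq h (Or.inl rfl)

theorem On_wall (i : ZMod n) (c : C) : B.On (B.wall i c) c := B.on_wall i c

theorem On_iff {T : B.Wall} {c : C} : B.On T c ↔ ∃ i, B.wall i c = T := by
  constructor
  · intro h
    exact ⟨B.typ T, h⟩
  · rintro ⟨i, rfl⟩
    exact B.on_wall i c

theorem wall_ne_of_ne {i j : ZMod n} (h : i ≠ j) (c d : C) : B.wall i c ≠ B.wall j d := by
  intro h2
  apply h
  rw [← B.typ_wall i c, h2, B.typ_wall]

theorem On_move {T : B.Wall} {j : ZMod n} {c d : C} (h : B.adj j c d) (hj : j = B.typ T ∨ TAdj (B.typ T) j)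
    (hT : B.On T c) : B.On T d := B.on_move hT h hj

theorem Cross_symm {T U : B.Wall} (h : B.Cross T U) : B.Cross U T := B.cross_symm h

theorem Cross_ne {T U : B.Wall} (h : B.Cross T U) : T ≠ U := by
  intro h2
  subst h2
  exact tadj_ne B.hn h.1 rfl

/-- the types would be pairwise neighbours -/
theorem no_triangle {T U V : B.Wall} (h1 : B.Cross T U) (h2 : B.Cross T V) (h3 : B.Cross U V) : False :=
  QFC.no_triangle B.hn h1.1 h3.1 h2.1

/-- two walls on a common chamber cross iff their types are neighbours -/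
theorem Cross_of_On {T U : B.Wall} {c : C} (h1 : B.On T c) (h2 : B.On U c) (h : TAdj (B.typ T) (B.typ U)) :
    B.Cross T U := ⟨h, c, h1, h2⟩

end Bldg

end QFC
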