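import Pool.Agent.QFC.A1

/-! # A2 : gates in panels, squares -/

open scoped Classical

namespace QFC

namespace Bldg

variable {n : ℕ} {C : Type} (B : Bldg n C)

/-- the sheet separates the chambers of a panel (`σ_ne` at `g`, with `wall_adj`) -/
theorem gate_unique {i : ZMod n} {c g g' : C} (h : B.adj i c g) (h' : B.adj i c g')
    (he : B.σ (B.wall i c) g = B.σ (B.wall i c) g') : g = g' := by
  by_contra hne
  have h1 : B.adj i g g' := B.adj_trans (B.adj_symm h) h'
  have h2 := B.σ_ne h1 hne
  rw [← B.wall_adj h] at h2
  exact h2 he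

/-- Every sheet of the wall `T = wall i c` is met by the panel `(i, c)`.
Proof. (a) Transport: if `wall i y = wall i c` then for every `z` with `adj i y z` there is `z'` with `adj i c z'` and
`σ T z = σ T z'`. Induction along `wall_conn` (from `y` to `c`): a step `y → w` by `j = i` stays in the same panel; a step by `j` with
`TAdj i j`: `square` (types `i`, `j` at `y`: `adj i y z`, `adj j y w`) gives `f` with `adj j z f`, `adj i w f`, and
`σ T z = σ T f` by `σ_eq` (`wall j z ≠ T` because of the types).
(b) Induction along a gallery from `c` to `x` (`conn`, so `∃ c'` for every `y` on the gallery): start `x = c`. A step `y → z` across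
`j`: if `T ≠ wall j y` then `σ T z = σ T y`. If `T = wall j y` then `j = i` (types), `wall i y = wall i c` and (a) applies to `z`. -/
theorem exists_gate (i : ZMod n) (c x : C) :
    ∃ g, B.adj i c g ∧ B.σ (B.wall i c) g = B.σ (B.wall i c) x := by
  obtain ⟨g, h1, h2⟩ := B.gate (B.on_wall i c) x
  rw [B.typ_wall] at h1
  exact ⟨g, h1, h2⟩

/-- if `c ≠ d` then `σ_ne` (side `i`) and `σ_eq` (side `j`, `wall j c ≠ wall i c`) contradict each other -/
theorem panels_meet {i j : ZMod n} {c d : C} (hij : i ≠ j) (h : B.adj i c d) (h' : B.adj j c d) : c = d := by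
  by_contra hne
  exact B.σ_ne h hne (B.σ_eq h' (B.wall_ne_of_ne hij c c))

theorem square_unique {i j : ZMod n} {d e f f' : C} (hij : i ≠ j) (h1 : B.adj j d f) (h2 : B.adj i e f)
    (h1' : B.adj j d f') (h2' : B.adj i e f') : f = f' :=
  B.panels_meet hij (B.adj_trans (B.adj_symm h2) h2') (B.adj_trans (B.adj_symm h1) h1')

/-- a panel contains a chamber different from two given ones (`q ≥ 3`) -/
theorem exists_third (i : ZMod n) (c a b : C) : ∃ d, B.adj i c d ∧ d ≠ a ∧ d ≠ b := by
  by_contra hno
  push Not at hno
  have h1 : {d | B.adj i c d} ⊆ ({a, b} : Set C) := by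
    intro d hd
    by_cases hda : d = a
    · exact Or.inl hda
    · exact Or.inr (hno d hd hda)
  have h2 := Set.ncard_le_ncard h1 (Set.toFinite _)
  have h3 := B.card_panel i c
  have h4 := B.q_ge i
  have h5 : ({a, b} : Set C).ncard ≤ 2 := by
    by_cases hab : a = b
    · subst hab
      simp
    · rw [Set.ncard_pair hab]
  omega

/-- the range of the sheet function is the image of a panel -/
theorem sheets_eq {T : B.Wall} {c : C} (hc : B.wall (B.typ T) c = T) :
    (Set.range fun c => B.σ T c) = (fun d => B.σ T d) '' B.panel (B.typ T) c := by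
  ext s
  constructor
  · rintro ⟨x, rfl⟩
    obtain ⟨g, h1, h2⟩ := B.exists_gate (B.typ T) c x
    rw [hc] at h2
    exact ⟨g, h1, h2⟩
  · rintro ⟨d, _, rfl⟩
    exact ⟨d, rfl⟩

/-- the sheets of a wall: finitely many -/
theorem sheets_finite (T : B.Wall) : (Set.range fun c => B.σ T c).Finite := by
  obtain ⟨c, hc⟩ := B.wall_surj T
  rw [B.sheets_eq hc]
  exact (B.panel_finite _ _).image _

/-- exactly `q (typ T)` sheets (the chambers of one panel on `T`) -/
theorem sheets_ncard (T : B.Wall) : (Set.range fun c => B.σ T c).ncard = B.q (B.typ T) := by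
  obtain ⟨c, hc⟩ := B.wall_surj T
  rw [B.sheets_eq hc, Set.InjOn.ncard_image]
  · exact B.card_panel _ _
  · intro d hd d' hd' h
    refine B.gate_unique hd hd' ?_
    rw [hc]
    exact h

end Bldg

end QFC
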