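import Pool.Agent.QFC.A2

/-! # A3 : walls that do not cross -/

open scoped Classical

namespace QFC

namespace Bldg

variable {n : ℕ} {C : Type} (B : Bldg n C)

/-- `σ T` is constant on a wall `U ≠ T` that does not cross `T`.
Proof. `wall_conn` for `U` (`i = typ U`): induct along the moves (keeping `On U`, `On_move`): a move `y → z` across `j` with
`j = typ U ∨ TAdj (typ U) j`. If `T = wall j y`: `j = typ U` would give `T = U` (as `y` is on `U`), `TAdj (typ U) j` would give
`Cross T U` (both on `y`). So `T ≠ wall j y` and `σ_eq`. -/
theorem const_on {T U : B.Wall} (hne : T ≠ U) (hx : ¬ B.Cross T U) {x y : C} (h1 : B.On U x) (h2 : B.On U y) :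
    B.σ T x = B.σ T y := B.sheet_const hne hx h1 h2

/-- Dichotomy. Proof: among all chambers `y` on `T` or on `U` take one with `dist x y` minimal and a shortest gallery from `x` to `y`
(induct: `exists_step`); strong induction on `dist x y`: if `x` itself is on `T` then `σ U x = σ U t` (`const_on`), if `x` is on `U` then `σ T x = σ T u`;
otherwise the first step `x → x'` towards `y` crosses a wall `wall i x` which is neither `T` nor `U`, so `σ T`, `σ U` do not change. -/
theorem dichotomy {T U : B.Wall} (hne : T ≠ U) (hx : ¬ B.Cross T U) {t u : C} (h1 : B.On T t) (h2 : B.On U u)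
    (x : C) : B.σ T x = B.σ T u ∨ B.σ U x = B.σ U t := B.nested hne hx h1 h2 x

end Bldg

end QFC
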