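import Pool.Agent.QFC.A3

/-! # A4 : shortening of galleries; the distance is the number of separating walls -/

open scoped Classical

namespace QFC

namespace Bldg

variable {n : ℕ} {C : Type} (B : Bldg n C)

/-- **Shortening.** A gallery `c 0, …, c (k+2)` with types `τ l` (`adj (τ l) (c l) (c (l+1))`) whose first and last steps cross the
same wall can be replaced by a shorter one. Strong induction on `k`.
(0) `c l = c (l+1)` for some `l ≤ k+1`: then drop it. So assume `c l ≠ c (l+1)` for all `l ≤ k + 1`.
(1) `k = 0`: `τ 0 = τ 1` (types) and `c 0, c 2` are in the same panel: `dist ≤ 1`.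
(2) if two steps `a < b ≤ k+1`, `(a, b) ≠ (0, k+1)` cross the same wall: induction for the sub-gallery from `c a` to `c (b+1)` (`b - a - 1 < k`).
(3) else `U := wall (τ 1) (c 1) ≠ T := wall (τ 0) (c 0)`, `U` is crossed by no step other than step `1`. `c 1` and `c (k+1)` are on `T`,
`σ U (c 1) ≠ σ U (c 2) = … = σ U (c (k+1))`. By `const_on`, `U` crosses `T` so `TAdj (τ 0) (τ 1)`. `square` exchanges the first two steps:
`d'` with `adj (τ 1) (c 0) d'`, `adj (τ 0) d' (c 2)`, and `wall (τ 0) d' = T`. Apply the induction hypothesis (`k - 1`) to `d', c 2, …, c (k+2)`: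
`dist d' (c (k+2)) ≤ k`. -/
theorem shorten (k : ℕ) (c : ℕ → C) (τ : ℕ → ZMod n) (h : ∀ l ≤ k + 1, B.adj (τ l) (c l) (c (l + 1)))
    (hT : B.wall (τ 0) (c 0) = B.wall (τ (k + 1)) (c (k + 1))) : B.dist (c 0) (c (k + 2)) ≤ k + 1 := by
  have key : ∀ m ≤ k + 2, B.Sep (c 0) (c m) ⊆
      (((Finset.range m).image fun l => B.wall (τ l) (c l) : Finset B.Wall) : Set B.Wall) := by
    intro m
    induction m with
    | zero =>
      intro _
      rw [B.Sep_self]
      exact Set.empty_subset _
    | succ m ih =>
      intro hm T hTS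
      rcases B.Sep_subset (c 0) (c m) (c (m + 1)) hTS with h1 | h1
      · have h2 := ih (by omega) h1
        rw [Finset.mem_coe, Finset.mem_image] at h2 ⊢
        obtain ⟨l, hl, hlT⟩ := h2
        exact ⟨l, Finset.mem_range.2 (by have := Finset.mem_range.1 hl; omega), hlT⟩
      · have h2 := B.wall_of_sep (h m (by omega)) h1
        rw [Finset.mem_coe, Finset.mem_image]
        exact ⟨m, Finset.mem_range.2 (by omega), h2.symm⟩
  have h3 : ((Finset.range (k + 2)).image fun l => B.wall (τ l) (c l)) =
      (Finset.range (k + 1)).image fun l => B.wall (τ l) (c l) := by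
    rw [Finset.range_add_one, Finset.image_insert, Finset.insert_eq_self, Finset.mem_image]
    exact ⟨0, Finset.mem_range.2 (by omega), hT⟩
  have h4 := key (k + 2) le_rfl
  rw [h3] at h4
  rw [(B.dist_eq_ncard_sep _ _).2]
  refine (Set.ncard_le_ncard h4 (Finset.finite_toSet _)).trans ?_
  rw [Set.ncard_coe_finset]
  refine Finset.card_image_le.trans ?_
  rw [Finset.card_range]

/-- Take a shortest gallery from `c` to `d`; if its first wall were crossed again, `shorten` would give a shorter gallery; so the first wall
is crossed exactly once and is in `Sep c d`. -/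
theorem exists_sep_side {c d : C} (h : c ≠ d) : ∃ i, B.wall i c ∈ B.Sep c d := B.exists_wall_sep h

end Bldg

end QFC
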