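import Pool.Agent.QFC.A4

/-! # A4b : the distance is the number of separating walls -/

open scoped Classical

namespace QFC

namespace Bldg

variable {n : ℕ} {C : Type} (B : Bldg n C)

/-- `≤`: induction on the cardinality of `Sep c d` with `exists_sep_side`, `exists_gate`; `≥`: every step changes at most one wall. -/
theorem dist_eq (c d : C) : B.dist c d = (B.Sep c d).ncard := (B.dist_eq_ncard_sep c d).2

theorem step_toward {i : ZMod n} {c d e : C} (h : B.wall i c ∈ B.Sep c d) (h1 : B.adj i c e)
    (h2 : B.σ (B.wall i c) e = B.σ (B.wall i c) d) :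
    B.Sep e d = B.Sep c d \ {B.wall i c} ∧ B.dist c d = B.dist e d + 1 := by
  have hs : B.Sep e d = B.Sep c d \ {B.wall i c} := by
    ext T
    constructor
    · intro hT
      have hne : T ≠ B.wall i c := by
        intro h3
        subst h3
        exact hT h2
      refine ⟨?_, hne⟩
      intro h4
      exact hT ((B.σ_eq h1 hne).symm.trans h4)
    · rintro ⟨hT, hne⟩
      have hne' : T ≠ B.wall i c := hne
      intro h4
      exact hT ((B.σ_eq h1 hne').trans h4)
  refine ⟨hs, ?_⟩
  rw [B.dist_eq, B.dist_eq, hs]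
  exact (Set.ncard_sdiff_singleton_add_one h (B.Sep_finite c d)).symm

theorem eq_of_sep_empty {c d : C} (h : ∀ T, B.σ T c = B.σ T d) : c = d := by
  apply B.dist_eq_zero
  rw [B.dist_eq]
  have : B.Sep c d = ∅ := by
    ext T
    simp [Sep, h T]
  rw [this, Set.ncard_empty]

/-- `y` between `c` and `d` in terms of separating walls gives additivity of the distance -/
theorem dist_add_of_btw {c d y : C} (h : ∀ T, B.σ T y = B.σ T c ∨ B.σ T y = B.σ T d) :
    B.dist c d = B.dist c y + B.dist y d := by
  have h1 : B.Sep c d = B.Sep c y ∪ B.Sep y d := by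
    ext T
    constructor
    · intro hT
      exact B.Sep_subset c y d hT
    · rintro (hT | hT)
      · rcases h T with h2 | h2
        · exact absurd h2.symm hT
        · intro h3
          exact hT (h3.trans h2.symm)
      · rcases h T with h2 | h2
        · intro h3
          exact hT (h2.trans h3)
        · exact absurd h2 hT
  have h2 : Disjoint (B.Sep c y) (B.Sep y d) := by
    rw [Set.disjoint_left]
    intro T hT hT'
    rcases h T with h2 | h2
    · exact hT h2.symm
    · exact hT' h2
  rw [B.dist_eq, B.dist_eq, B.dist_eq, h1, Set.ncard_union_eq h2 (B.Sep_finite _ _) (B.Sep_finite _ _)]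

/-- and conversely -/
theorem btw_of_dist_add {c d y : C} (h : B.dist c d = B.dist c y + B.dist y d) :
    ∀ T, B.σ T y = B.σ T c ∨ B.σ T y = B.σ T d := by
  intro T
  by_contra hno
  push Not at hno
  have h1 : T ∈ B.Sep c y := fun h => hno.1 h.symm
  have h2 : T ∈ B.Sep y d := hno.2
  rw [B.dist_eq, B.dist_eq, B.dist_eq] at h
  have h3 := Set.ncard_le_ncard (B.Sep_subset c y d) ((B.Sep_finite _ _).union (B.Sep_finite _ _))
  have h4 := Set.ncard_union_add_ncard_inter (B.Sep c y) (B.Sep y d) (B.Sep_finite _ _) (B.Sep_finite _ _)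
  have h5 : 0 < (B.Sep c y ∩ B.Sep y d).ncard :=
    (Set.ncard_pos ((B.Sep_finite _ _).inter_of_left _)).2 ⟨T, h1, h2⟩
  omega

/-- if `T` separates `x` from `z` then some chamber `t` on `T` lies between `x` and `z` -/
theorem exists_on_between {T : B.Wall} {x z : C} (h : B.σ T x ≠ B.σ T z) :
    ∃ t, B.On T t ∧ B.dist x z = B.dist x t + B.dist t z ∧ B.σ T t = B.σ T x := by
  obtain ⟨p, t, h0, hN, hp, hgeo⟩ := B.exists_gallery x z
  have hex : ∃ u, u ≤ B.dist x z ∧ B.σ T (p u) ≠ B.σ T x := ⟨B.dist x z, le_rfl, by rw [hN]; exact fun h' => h h'.symm⟩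
  classical
  have hs := Nat.find_spec hex
  have hm := fun m (hm : m < Nat.find hex) => Nat.find_min hex hm
  obtain ⟨u, hu⟩ : ∃ u, Nat.find hex = u + 1 := by
    refine Nat.exists_eq_succ_of_ne_zero ?_
    intro h1
    rw [h1, h0] at hs
    exact hs.2 rfl
  rw [hu] at hs hm
  have h2 : B.σ T (p u) = B.σ T x := by
    by_contra h3
    exact hm u (by omega) ⟨by omega, h3⟩
  have hadj := (hp u (by omega)).1
  have h3 : T = B.wall (t u) (p u) := B.wall_of_sep hadj (by rw [h2]; exact fun h' => hs.2 h'.symm)
  refine ⟨p u, by rw [h3]; exact B.on_wall _ _, ?_, h2⟩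
  have h4 := hgeo 0 u (by omega) (by omega)
  have h5 := hgeo u (B.dist x z) (by omega) le_rfl
  rw [h0] at h4
  rw [hN] at h5
  omega

end Bldg

end QFC
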