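import Pool.Agent.QFC.A4b

/-! # A5 : gates of walls, completeness, meets -/

open scoped Classical

namespace QFC

namespace Bldg

variable {n : ℕ} {C : Type} (B : Bldg n C)

/-- Let `t` be on `T` with `dist c t` minimal (`wall_surj`). (1) `T ∉ Sep c t`: otherwise cross the side `typ T` of `t` towards `c`
(`exists_gate`, `step_toward`), staying on `T` and closer to `c`. (2) Suppose `U ∈ Sep c t` crosses `T`. Among the chambers `u` on both `T` and `U` choose one with
`dist t u` minimal. If `t` is on `U`: put `V = U`. Otherwise `t ≠ u`; let `V = wall j t ∈ Sep t u` (`exists_sep_side`). `V ≠ T`: otherwise replace `u` by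
the chamber of its panel of type `typ T` in the `T`-sheet of `t` (still on `T` and `U` since `TAdj (typ T) (typ U)`, and closer to `t`). `σ V` is not constant on `T`
(`t`, `u`), so `V` crosses `T` (`const_on`), and `V` is on `t`. If `V ≠ U`: `V`, `U` do not cross (`no_triangle` with `T`), `dichotomy` for `V`, `U` with the points `t` on
`V`, `u` on `U` at `x = c`: `σ V c = σ V u ∨ σ U c = σ U t`; the second is false (`U ∈ Sep c t`), so `σ V c = σ V u ≠ σ V t`: `V ∈ Sep c t`. In all cases
`V = wall j t ∈ Sep c t` with `TAdj (typ T) j`: the step across `V` towards `c` stays on `T` and is closer to `c`, contradiction. -/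
theorem wall_gate (T : B.Wall) (c : C) :
    ∃ t, B.On T t ∧ B.σ T t = B.σ T c ∧ (∀ U ∈ B.Sep c t, U ≠ T ∧ ¬ B.Cross U T) ∧
      ∀ t', B.On T t' → B.dist c t ≤ B.dist c t' := by
  have hex : ∃ k, ∃ t, B.On T t ∧ B.dist c t = k := by
    obtain ⟨t, ht⟩ := B.wall_surj T
    exact ⟨_, t, ht, rfl⟩
  obtain ⟨t, ht, hdt⟩ := Nat.find_spec hex
  have hmin : ∀ t', B.On T t' → B.dist c t ≤ B.dist c t' := by
    intro t' ht'
    rw [hdt]
    exact Nat.find_min' hex ⟨t', ht', rfl⟩
  clear hdt hex
  have hstep : ∀ j, (j = B.typ T ∨ TAdj (B.typ T) j) → B.wall j t ∉ B.Sep t c := by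
    intro j hj hS
    obtain ⟨g, hg1, hg2⟩ := B.exists_gate j t c
    have h1 := (B.step_toward hS hg1 hg2).2
    have h2 := hmin g (B.On_move hg1 hj ht)
    rw [B.dist_comm c t, B.dist_comm c g] at h2
    omega
  have hT : B.σ T t = B.σ T c := by
    by_contra hne
    refine hstep (B.typ T) (Or.inl rfl) ?_
    have h1 : B.wall (B.typ T) t = T := ht
    rw [h1]
    exact hne
  refine ⟨t, ht, hT, ?_, hmin⟩
  intro U hU
  refine ⟨?_, ?_⟩
  · intro h
    subst h
    exact hU hT.symm
  intro hUT
  have hex : ∃ k, ∃ u, B.On T u ∧ B.On U u ∧ B.dist t u = k := by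
    obtain ⟨_, u, hu, hu'⟩ := hUT
    exact ⟨_, u, hu', hu, rfl⟩
  obtain ⟨u, huT, huU, hdu⟩ := Nat.find_spec hex
  have hminu : ∀ u', B.On T u' → B.On U u' → B.dist t u ≤ B.dist t u' := by
    intro u' h1 h2
    rw [hdu]
    exact Nat.find_min' hex ⟨u', h1, h2, rfl⟩
  clear hdu hex
  by_cases htU : B.On U t
  · refine hstep (B.typ U) (Or.inr hUT.1.symm) ?_
    have h1 : B.wall (B.typ U) t = U := htU
    rw [h1]
    exact fun h => hU h.symm
  · have htu : t ≠ u := by
      rintro rfl
      exact htU huU
    obtain ⟨j, hj⟩ := B.exists_sep_side htu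
    have hVT : B.wall j t ≠ T := by
      intro h
      rw [h] at hj
      have h1 : B.wall (B.typ T) u = T := huT
      obtain ⟨g, hg1, hg2⟩ := B.exists_gate (B.typ T) u t
      have h3 := (B.step_toward (i := B.typ T) (c := u) (d := t) (e := g)
        (by rw [h1]; exact fun h => hj h.symm) hg1 hg2).2
      have h4 := hminu g (B.On_move hg1 (Or.inl rfl) huT) (B.On_move hg1 (Or.inr hUT.1) huU)
      rw [B.dist_comm t u, B.dist_comm t g] at h4
      omega
    have hVc : B.Cross (B.wall j t) T := by
      by_contra h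
      exact hj (B.const_on hVT h ht huT)
    have hVt : B.On (B.wall j t) t := B.On_wall j t
    have hVU : B.wall j t ≠ U := by
      intro h
      rw [h] at hVt
      exact htU hVt
    have hno : ¬ B.Cross (B.wall j t) U := fun h => B.no_triangle h hVc hUT
    have hS : B.wall j t ∈ B.Sep t c := by
      rcases B.dichotomy hVU hno hVt huU c with h | h
      · intro h2
        exact hj (h2.trans h)
      · exact absurd h hU
    have h1 := hVc.1
    rw [B.typ_wall] at h1
    exact hstep j (Or.inr h1.symm) hS


end Bldg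

end QFC
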