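import Pool.Agent.QFC.A5

/-! # A5b : completeness, meets -/

open scoped Classical

namespace QFC

namespace Bldg

variable {n : ℕ} {C : Type} (B : Bldg n C)

/-- Completeness. Induction on the number of walls `T` with `η T ≠ σ T c`. If there is none, `e = c`. Otherwise choose such a `T` and `t` on `T` with `dist c t` minimal (over both).
By `wall_gate` (for this `T`) we may take `t` to be the gate. If `dist c t = 0` then `T = wall (typ T) c`: move to the chamber `c'` of this panel with `σ T c' = η T`
(`h1` and `exists_gate`); the set of bad walls loses `T`. If `dist c t > 0`: let `U = wall i c ∈ Sep c t`. By minimality (`U` is on `c`, distance `0`) `η U = σ U c`. `U ≠ T`, `¬ Cross U T` (gate).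
`h2 T U` with `t` on `T`, `c` on `U`: `η T = σ T c` (false) or `η U = σ U t ≠ σ U c` (false). -/
theorem complete {η : B.Wall → B.Sheet} (h1 : ∀ T, ∃ x, B.σ T x = η T)
    (h2 : ∀ T U t u, T ≠ U → ¬ B.Cross T U → B.On T t → B.On U u → η T = B.σ T u ∨ η U = B.σ U t)
    (c : C) (hf : {T | η T ≠ B.σ T c}.Finite) :
    ∃ e, ∀ T, B.σ T e = η T := by
  classical
  obtain ⟨N, hN⟩ : ∃ N, {T | η T ≠ B.σ T c}.ncard = N := ⟨_, rfl⟩
  induction N generalizing c with
  | zero =>
    refine ⟨c, fun T => ?_⟩
    by_contra hne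
    have h3 := (Set.ncard_eq_zero hf).1 hN
    have h4 : T ∈ {T | η T ≠ B.σ T c} := fun h => hne h.symm
    rw [h3] at h4
    exact h4
  | succ N ih =>
    have hex : ∃ k, ∃ T t, η T ≠ B.σ T c ∧ B.On T t ∧ B.dist c t = k := by
      have h3 : {T | η T ≠ B.σ T c}.Nonempty := by
        rw [← Set.ncard_pos hf]
        omega
      obtain ⟨T, hT⟩ := h3
      obtain ⟨t, ht⟩ := B.wall_surj T
      exact ⟨_, T, t, hT, ht, rfl⟩
    obtain ⟨T, t0, hTb, ht0, hd0⟩ := Nat.find_spec hex
    have hmin : ∀ T' t', η T' ≠ B.σ T' c → B.On T' t' → B.dist c t0 ≤ B.dist c t' := by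
      intro T' t' h3 h4
      rw [hd0]
      exact Nat.find_min' hex ⟨T', t', h3, h4, rfl⟩
    clear hd0 hex
    obtain ⟨t, ht, hTt, hsep, htmin⟩ := B.wall_gate T c
    have hmin' : ∀ T' t', η T' ≠ B.σ T' c → B.On T' t' → B.dist c t ≤ B.dist c t' := fun T' t' h3 h4 =>
      (htmin t0 ht0).trans (hmin T' t' h3 h4)
    by_cases hct : c = t
    · subst hct
      have hw : B.wall (B.typ T) c = T := ht
      obtain ⟨x, hx⟩ := h1 T
      obtain ⟨c', hc', hσ⟩ := B.exists_gate (B.typ T) c x
      rw [hw] at hσ
      have hset : {T' | η T' ≠ B.σ T' c'} = {T' | η T' ≠ B.σ T' c} \ {T} := by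
        ext T'
        constructor
        · intro h3
          have hne : T' ≠ T := by
            rintro rfl
            exact h3 (hx.symm.trans hσ.symm)
          refine ⟨?_, hne⟩
          intro h4
          exact h3 (h4.trans (B.σ_eq hc' (by rw [hw]; exact hne)))
        · rintro ⟨h3, hne⟩ h4
          exact h3 (h4.trans (B.σ_eq hc' (by rw [hw]; exact hne)).symm)
      refine ih c' ?_ ?_
      · rw [hset]
        exact hf.subset Set.sdiff_subset
      · rw [hset]
        have h3 := Set.ncard_sdiff_singleton_add_one (s := {T' | η T' ≠ B.σ T' c}) (a := T) hTb hf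
        omega
    · exfalso
      obtain ⟨i, hi⟩ := B.exists_sep_side hct
      have hU : η (B.wall i c) = B.σ (B.wall i c) c := by
        by_contra h3
        have h4 := hmin' _ c h3 (B.On_wall i c)
        rw [B.dist_self] at h4
        exact hct (B.dist_eq_zero (Nat.le_zero.1 h4))
      obtain ⟨h3, h4⟩ := hsep _ hi
      rcases h2 T (B.wall i c) t c h3.symm (fun h => h4 (B.Cross_symm h)) ht (B.On_wall i c) with h5 | h5
      · exact hTb h5
      · exact hi (hU.symm.trans h5)

theorem roller_consistent {η : B.Wall → B.Sheet} (hη : B.IsRoller η) {T U : B.Wall} {t u : C} (hne : T ≠ U)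
    (hx : ¬ B.Cross T U) (ht : B.On T t) (hu : B.On U u) : η T = B.σ T u ∨ η U = B.σ U t := by
  obtain ⟨x, hx'⟩ := hη {T, U}
  rw [← hx' T (by simp), ← hx' U (by simp)]
  exact B.dichotomy hne hx ht hu x

theorem roller_real {η : B.Wall → B.Sheet} (hη : B.IsRoller η) (T : B.Wall) : ∃ x, B.σ T x = η T := by
  obtain ⟨x, hx⟩ := hη {T}
  exact ⟨x, hx T (by simp)⟩

/-- Meet of `c`, `d` towards the root: `complete` at `c` for the family `e_T = σ T c` if `σ T c = σ T d`, else `η T` (it differs from `σ · c` only on `Sep c d`).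
`h2`: `T ≠ U` not crossing, `t` on `T`, `u` on `U`; suppose `e_T ≠ σ T u` and `e_U ≠ σ U t`. If `σ T c = σ T d` (`≠ σ T u`) then `dichotomy` at `c` and at `d` gives `σ U c = σ U t = σ U d`, so
`e_U = σ U t`, contradiction; same if `c, d` agree at `U`. If they disagree at both, `e = η` at both and `roller_consistent` applies. -/
theorem meet {η : B.Wall → B.Sheet} (hη : B.IsRoller η) (c d : C) :
    ∃ e, ∀ T, B.σ T e = if B.σ T c = B.σ T d then B.σ T c else η T := by
  have h := B.complete (η := fun T => if B.σ T c = B.σ T d then B.σ T c else η T) ?_ ?_ c ?_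
  · exact h
  · intro T
    by_cases h : B.σ T c = B.σ T d
    · exact ⟨c, by rw [if_pos h]⟩
    · obtain ⟨x, hx⟩ := B.roller_real hη T
      exact ⟨x, by rw [if_neg h]; exact hx⟩
  · intro T U t u hne hcr ht hu
    by_contra hno
    push Not at hno
    obtain ⟨hT, hU⟩ := hno
    by_cases h1 : B.σ T c = B.σ T d
    · rw [if_pos h1] at hT
      have h3 := (B.dichotomy hne hcr ht hu c).resolve_left hT
      have h4 := (B.dichotomy hne hcr ht hu d).resolve_left (by rw [← h1]; exact hT)
      rw [if_pos (h3.trans h4.symm)] at hU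
      exact hU h3
    · by_cases h2 : B.σ U c = B.σ U d
      · rw [if_pos h2] at hU
        have h3 := (B.dichotomy hne hcr ht hu c).resolve_right hU
        have h4 := (B.dichotomy hne hcr ht hu d).resolve_right (by rw [← h2]; exact hU)
        exact h1 (h3.trans h4.symm)
      · rw [if_neg h1] at hT
        rw [if_neg h2] at hU
        rcases B.roller_consistent hη hne hcr ht hu with h3 | h3
        · exact hT h3
        · exact hU h3
  · refine (B.Sep_finite c d).subset ?_
    intro T hT
    by_contra h
    have h' : B.σ T c = B.σ T d := by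
      by_contra h2
      exact h h2
    exact hT (by rw [if_pos h'])

end Bldg

end QFC
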