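import Pool.Agent.QFC.A5b

/-! # A6 : no two walls cross two walls -/

open scoped Classical

namespace QFC

namespace Bldg

variable {n : ℕ} {C : Type} (B : Bldg n C)

/-- (step 1) If `T₁` crosses `T₃`, `T₄`, no wall crossing `T₁` separates a chamber of `T₃` from a chamber of `T₄` (`hno`), then every `c` on `T₁` and `T₃` lying in the `T₃`-sheet of
`T₄` is on `T₄`. Proof: `T₃`, `T₄` do not cross (`no_triangle`). Take `y` on `T₁` and `T₄` with `σ T₁ y = σ T₁ c` (start from any `y₀` on both, move inside its panel of type `typ T₁` (`exists_gate`), which stays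
on `T₄`), with `dist c y` minimal among these. If `y = c` done. Else let `V = wall j c ∈ Sep c y`. `V ≠ T₁`. Both `c` and `y` are on `T₁`, so `V` crosses `T₁` (`const_on`). `V ≠ T₃`: `σ T₃ c = σ T₃ y`
(hypothesis and `const_on` for `T₃` on `T₄`). If `V = T₄` then `c` is on `T₄`, done. Otherwise `hno` is contradicted. -/
theorem on_of_no_sep {T₁ T₃ T₄ : B.Wall} (h34 : T₃ ≠ T₄) (h13 : B.Cross T₁ T₃) (h14 : B.Cross T₁ T₄)
    (hno : ∀ V x y, B.Cross T₁ V → V ≠ T₃ → V ≠ T₄ → B.On T₃ x → B.On T₄ y → B.σ V x = B.σ V y)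
    {c : C} (hc1 : B.On T₁ c) (hc3 : B.On T₃ c) {y₀ : C} (hy₀ : B.On T₄ y₀) (hc : B.σ T₃ c = B.σ T₃ y₀) :
    B.On T₄ c := by
  have h34c : ¬ B.Cross T₃ T₄ := fun h => B.no_triangle h13 h14 h
  obtain ⟨y1, hy1, hy1'⟩ := h14.2
  obtain ⟨y, hy, hyσ⟩ := B.exists_gate (B.typ T₁) y1 c
  have hw : B.wall (B.typ T₁) y1 = T₁ := hy1
  rw [hw] at hyσ
  have hyT1 : B.On T₁ y := B.On_move hy (Or.inl rfl) hy1
  have hyT4 : B.On T₄ y := B.On_move hy (Or.inr h14.1.symm) hy1'
  by_cases hcy : c = y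
  · rw [hcy]
    exact hyT4
  obtain ⟨j, hj⟩ := B.exists_sep_side hcy
  have hV1 : B.wall j c ≠ T₁ := by
    intro h
    rw [h] at hj
    exact hj hyσ.symm
  have hVc : B.Cross (B.wall j c) T₁ := by
    by_contra h
    exact hj (B.const_on hV1 h hc1 hyT1)
  have hV3 : B.wall j c ≠ T₃ := by
    intro h
    rw [h] at hj
    exact hj (hc.trans (B.const_on h34 h34c hy₀ hyT4))
  by_cases hV4 : B.wall j c = T₄
  · rw [← hV4]
    exact B.On_wall j c
  · exact absurd (hno _ c y (B.Cross_symm hVc) hV3 hV4 hc3 hyT4) hj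

end Bldg

end QFC
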