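import Pool.Agent.QFC.A6

/-! # A6b : no two walls cross two walls -/

open scoped Classical

namespace QFC

namespace Bldg

variable {n : ℕ} {C : Type} (B : Bldg n C)

/-- **No `K_{2,2}`.** `T₁, T₂` do not cross and `T₃, T₄` do not cross (`no_triangle`).
Reduction A: if `U` crosses `T₁`, `U ≠ T₃, T₄`, and `σ U x ≠ σ U y` for some `x` on `T₃`, `y` on `T₄`, then `U` crosses `T₂`: `T₂` contains chambers on `T₃` and chambers on `T₄`, and `σ U` is constant on
`T₃` and on `T₄` (`U` does not cross them, `no_triangle` with `T₁`), so `σ U` is not constant on `T₂`; `U ≠ T₂` since `T₂` does not cross `T₁`; `const_on`. Choose the pair `(T₃, T₄)` (for fixed `T₁, T₂`) such that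
`min {dist x y | x on T₁ and T₃, y on T₁ and T₄}` is minimal: replacing `T₄` by `U` makes it smaller? — take `x, y` realizing the minimum; WLOG (change the `T₁`-sheet of one of them) they are in the same
`T₁`-sheet; the walls separating them all cross `T₁` (or are `T₁`); if `U` is one of them, different from `T₃, T₄`, a chamber on `U` between them (`exists_on_between`, still on `T₁`: it is between two
chambers on `T₁`) is closer. So for the minimal pair `hno` of `on_of_no_sep` holds for `(T₁; T₃, T₄)`. (A `V` as in `hno` separates `T₃` from `T₄`, hence separates `x` and `y`.)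
Reduction B: then in the same way choose `(T₁, T₂)` minimal for this fixed `(T₃, T₄)`; the property for `(T₁; T₃, T₄)` may get lost, so instead minimize the sum
`min dist over T₁-part + min dist over T₃-part` — or do a strong induction on (number of walls separating `T₃` from `T₄`) + (number of walls separating `T₁` from `T₂`), where a wall separates `T` from `U` if it crosses
neither and takes different values on them; both reductions decrease one summand and do not change the other.
Final step: let `c` be on `T₁` and `T₃`; moving inside the panels of types `typ T₁`, `typ T₃` (which are neighbours, so we stay on both walls) we may assume `σ T₃ c` = the value on `T₄` and `σ T₁ c` = the value on `T₂`.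
By `on_of_no_sep` (twice) `c` is on `T₄` and on `T₂`. So `c` is on all four walls, `typ T₁ ≠ typ T₂` (both on `c`, `T₁ ≠ T₂`), `typ T₃ ≠ typ T₄`, and `TAdj_unique` gives a contradiction. -/
theorem no_K22 {T₁ T₂ T₃ T₄ : B.Wall} (h12 : T₁ ≠ T₂) (h34 : T₃ ≠ T₄) (h13 : B.Cross T₁ T₃)
    (h14 : B.Cross T₁ T₄) (h23 : B.Cross T₂ T₃) (h24 : B.Cross T₂ T₄) : False := B.no_square h12 h34 h13 h23 h24 h14

end Bldg

end QFC
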