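import Pool.Agent.QFC.A5b

/-! # A7 : descents towards a root -/

open scoped Classical

namespace QFC

namespace Bldg

variable {n : ℕ} {C : Type} (B : Bldg n C)

theorem pt_roller (x : C) : B.IsRoller (B.pt x) := fun _ => ⟨x, fun _ _ => rfl⟩

/-- The walls `T = wall i c`, `U = wall j c` are different (types) and both on `c`. If `¬ TAdj i j` they do not cross (`Cross` needs neighbouring types), and
`roller_consistent` with `t = u = c` gives `η T = σ T c` or `η U = σ U c`, contradicting `i, j ∈ D`. -/
theorem D_adj {η : B.Wall → B.Sheet} (hη : B.IsRoller η) {c : C} {i j : ZMod n} (hi : i ∈ B.D η c)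
    (hj : j ∈ B.D η c) (hij : i ≠ j) : TAdj i j := by
  by_contra hno
  rcases B.roller_consistent hη (B.wall_ne_of_ne hij c c) (fun h => hno (by
    have h1 := h.1
    rw [B.typ_wall, B.typ_wall] at h1
    exact h1)) (B.On_wall i c) (B.On_wall j c) with h | h
  · exact hi h.symm
  · exact hj h.symm

/-- pairwise neighbours (`D_adj`) and no triangles (`TAdj_cases`) -/
theorem D_cases {η : B.Wall → B.Sheet} (hη : B.IsRoller η) (c : C) :
    B.D η c = ∅ ∨ (∃ i, B.D η c = {i}) ∨ ∃ i, B.D η c = {i, i + 1} := by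
  by_cases h0 : B.D η c = ∅
  · exact Or.inl h0
  right
  obtain ⟨i, hi⟩ := Set.nonempty_iff_ne_empty.2 h0
  by_cases h1 : B.D η c = {i}
  · exact Or.inl ⟨i, h1⟩
  right
  obtain ⟨j, hj, hji⟩ : ∃ j, j ∈ B.D η c ∧ j ≠ i := by
    by_contra hno
    push Not at hno
    apply h1
    ext j
    constructor
    · intro hj
      exact hno j hj
    · intro hj
      have hj' : j = i := hj
      rw [hj']
      exact hi
  have hij := B.D_adj hη hi hj (Ne.symm hji)
  have hset : B.D η c = {i, j} := by
    ext k
    constructor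
    · intro hk
      by_contra hno
      have h2 : k ≠ i := fun h => hno (Or.inl h)
      have h3 : k ≠ j := fun h => hno (Or.inr h)
      exact TAdj_cases B.hn hij (B.D_adj hη hi hk (Ne.symm h2)) (B.D_adj hη hj hk (Ne.symm h3))
    · rintro (h | h)
      · rw [h]
        exact hi
      · have h' : k = j := h
        rw [h']
        exact hj
  rcases hij with h | h
  · exact ⟨i, by rw [hset, h]⟩
  · exact ⟨j, by rw [hset, h, Set.pair_comm]⟩

/-- there is always a non-descent; more precisely for every `i ∈ D` (or if `D = ∅`) the side `i + 3` is not a descent -/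
theorem D_ne_univ {η : B.Wall → B.Sheet} (hη : B.IsRoller η) (c : C) : ∃ j, j ∉ B.D η c := by
  have h1 := natCast_ne_zero B.hn (k := 1) (by norm_num) (by norm_num)
  have h2 := natCast_ne_zero B.hn (k := 2) (by norm_num) (by norm_num)
  push_cast at h1 h2
  rcases B.D_cases hη c with h | ⟨i, h⟩ | ⟨i, h⟩
  · exact ⟨0, by rw [h]; exact fun h => h⟩
  · refine ⟨i + 1, ?_⟩
    rw [h]
    intro h3
    have h4 : i + 1 = i := h3
    exact h1 (by linear_combination h4)
  · refine ⟨i + 2, ?_⟩
    rw [h]
    rintro (h3 | h3)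
    · exact h2 (by linear_combination h3)
    · have h4 : i + 2 = i + 1 := h3
      exact h1 (by linear_combination h4)

/-- `hη {wall i c}` gives a chamber `x` with `σ T x = η T` for `T = wall i c`; take `exists_gate i c x`. -/
theorem exists_gate_roller {η : B.Wall → B.Sheet} (hη : B.IsRoller η) (i : ZMod n) (c : C) :
    ∃ g, B.adj i c g ∧ i ∉ B.D η g := by
  obtain ⟨x, hx⟩ := hη {B.wall i c}
  obtain ⟨g, hg, hg2⟩ := B.exists_gate i c x
  refine ⟨g, hg, ?_⟩
  intro h
  apply h
  rw [← B.wall_adj hg, hg2]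
  exact hx _ (by simp)

theorem gate_roller_unique {η : B.Wall → B.Sheet} {i : ZMod n} {g g' : C} (h : B.adj i g g')
    (h1 : i ∉ B.D η g) (h2 : i ∉ B.D η g') : g = g' := by
  refine B.gate_unique (B.adj_refl i g) h ?_
  have h3 : B.σ (B.wall i g) g = η (B.wall i g) := by
    by_contra h4
    exact h1 h4
  have h5 : B.σ (B.wall i g') g' = η (B.wall i g') := by
    by_contra h4
    exact h2 h4
  rw [← B.wall_adj h] at h5
  rw [h3, h5]

/-- a chamber of the panel different from the gate has the descent `i` -/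
theorem mem_D_child {η : B.Wall → B.Sheet} {i : ZMod n} {g c : C} (h : B.adj i g c) (hne : g ≠ c)
    (hg : i ∉ B.D η g) : i ∈ B.D η c := by
  by_contra h1
  exact hne (B.gate_roller_unique h hg h1)

/-- `j = i`: `mem_D_child`. `j ≠ i`, `TAdj i j`: `wall j c = wall j g` and `σ (wall j c) c = σ (wall j c) g` (`σ_eq`, the types differ). `j ≠ i` not neighbouring: `j ∈ D η c` would
contradict `D_adj` with `i ∈ D η c`. -/
theorem D_child {η : B.Wall → B.Sheet} (hη : B.IsRoller η) {i : ZMod n} {g c : C} (h : B.adj i g c) (hne : g ≠ c)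
    (hg : i ∉ B.D η g) : B.D η c = {i} ∪ {j | j ∈ B.D η g ∧ TAdj i j} := by
  have hi := B.mem_D_child h hne hg
  ext j
  constructor
  · intro hj
    by_cases hji : j = i
    · exact Or.inl hji
    · right
      have h1 := B.D_adj hη hi hj (Ne.symm hji)
      refine ⟨?_, h1⟩
      have hw : B.wall j g = B.wall j c := B.wall_eq h (Or.inr h1.symm)
      have hσ : B.σ (B.wall j g) g = B.σ (B.wall j g) c := B.σ_eq h (B.wall_ne_of_ne hji g g)
      intro h2
      apply hj
      rw [← hw, ← hσ]
      exact h2
  · rintro (hj | ⟨hj, h1⟩)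
    · have hj' : j = i := hj
      rw [hj']
      exact hi
    · have hji : j ≠ i := (TAdj_ne B.hn h1).symm
      have hw : B.wall j g = B.wall j c := B.wall_eq h (Or.inr h1.symm)
      have hσ : B.σ (B.wall j g) g = B.σ (B.wall j g) c := B.σ_eq h (B.wall_ne_of_ne hji g g)
      intro h2
      apply hj
      rw [hσ, hw]
      exact h2

/-- `exists_sep_side` -/
theorem D_pt_empty {x c : C} : B.D (B.pt x) c = ∅ ↔ c = x := by
  constructor
  · intro h
    by_contra hne
    obtain ⟨i, hi⟩ := B.exists_sep_side hne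
    have : i ∈ B.D (B.pt x) c := hi
    rw [h] at this
    exact this
  · rintro rfl
    ext i
    constructor
    · intro hi
      exact absurd rfl hi
    · intro hi
      exact absurd hi (by simp)

/-- `Sep_adj`, `dist_eq` -/
theorem dist_child {x : C} {i : ZMod n} {g c : C} (h : B.adj i g c) (hne : g ≠ c) (hg : i ∉ B.D (B.pt x) g) :
    B.dist x c = B.dist x g + 1 ∧ B.Sep x c = insert (B.wall i g) (B.Sep x g) ∧ B.wall i g ∉ B.Sep x g := by
  have hσ : B.σ (B.wall i g) g = B.σ (B.wall i g) x := by
    by_contra h1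
    exact hg h1
  have hS : B.wall i c ∈ B.Sep c x := by
    rw [← B.wall_adj h]
    intro h1
    exact B.σ_ne h hne (hσ.trans h1.symm)
  have h2 := B.step_toward hS (B.adj_symm h) (by rw [← B.wall_adj h]; exact hσ)
  refine ⟨?_, ?_, ?_⟩
  · rw [B.dist_comm x c, B.dist_comm x g]
    exact h2.2
  · rw [B.Sep_comm x c, B.Sep_comm x g, h2.1, B.wall_adj h, Set.insert_sdiff_singleton, Set.insert_eq_of_mem hS]
  · intro h1
    exact h1 hσ.symm

/-- the same with an arbitrary root: crossing a non-descent side `i` changes only `σ (wall i g)` -/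
theorem σ_child {i : ZMod n} {g c : C} (h : B.adj i g c) {T : B.Wall} (hT : T ≠ B.wall i g) :
    B.σ T c = B.σ T g := by
  have h1 : T ≠ B.wall i g := hT
  exact (B.σ_eq h h1).symm

end Bldg

end QFC
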