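import Pool.Agent.QFC.A7
import Pool.Agent.QFC.A6b

/-! # A8 : the four-point condition -/

open scoped Classical

namespace QFC

namespace Bldg

variable {n : ℕ} {C : Type} (B : Bldg n C)

/-- `T` separates `{a, c}` from `{b, d}` (crosswise) and does not separate both pairs -/
def Split (a b c d : C) : Set B.Wall :=
  {T | B.σ T a ≠ B.σ T b ∧ B.σ T a ≠ B.σ T d ∧ B.σ T c ≠ B.σ T b ∧ B.σ T c ≠ B.σ T d ∧
    (B.σ T a = B.σ T c ∨ B.σ T b = B.σ T d)}

/-- `T ∈ Split a b c d` (pairs `ac | bd`) and `U ∈ Split a b d c` (pairs `ad | bc`) cross. `T ≠ U` (`σ T a ≠ σ T d`, … whichever pair of `U` agrees, `T` separates it).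
If `¬ Cross T U`, take `t` on `T`, `u` on `U` (`wall_surj`) and `dichotomy`: every chamber `x` has `σ T x = σ T u =: s` or `σ U x = σ U t =: s'`. At least one of the pairs `{a, c}`, `{b, d}`
lies outside of the sheet `s` of `T` (if one of `a, c` has value `s` then `b` and `d` do not), so it lies in one sheet `s'` of `U`; but `U` separates `a` from `c` and `b` from `d`. -/
theorem cross_of_split {a b c d : C} {T U : B.Wall} (hT : T ∈ B.Split a b c d) (hU : U ∈ B.Split a b d c) :
    B.Cross T U := by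
  have hT' := hT
  have hU' := hU
  obtain ⟨t, ht⟩ := B.wall_surj T
  obtain ⟨u, hu⟩ := B.wall_surj U
  obtain ⟨h1, h2, h3, h4, h5⟩ := hT
  obtain ⟨k1, k2, k3, k4, k5⟩ := hU
  by_contra hcr
  have hne : T ≠ U := by
    rintro rfl
    rcases h5 with h5 | h5
    · exact k2 h5
    · exact k3 h5.symm
  have ha := B.dichotomy hne hcr ht hu a
  have hb := B.dichotomy hne hcr ht hu b
  have hc := B.dichotomy hne hcr ht hu c
  have hd := B.dichotomy hne hcr ht hu d
  rcases ha with ha | ha
  · have hb' := hb.resolve_left (fun h => h1 (ha.trans h.symm))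
    have hd' := hd.resolve_left (fun h => h2 (ha.trans h.symm))
    exact k3 (hd'.trans hb'.symm)
  · rcases hc with hc | hc
    · have hb' := hb.resolve_left (fun h => h3 (hc.trans h.symm))
      have hd' := hd.resolve_left (fun h => h4 (hc.trans h.symm))
      exact k3 (hd'.trans hb'.symm)
    · exact k2 (ha.trans hc.symm)

/-- **Four-point condition, `δ = 2`.** Write `S₁ = ab + cd`, `S₂ = ac + bd`, `S₃ = ad + bc` (distances). All distances are numbers of separating walls (`dist_eq`); let `W` be a finite set containing all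
`Sep` of the six pairs; `dist x y = ∑ T ∈ W, (if σ T x = σ T y then 0 else 1)`. For every wall look at the partition of `{a,b,c,d}` given by `σ T`. `𝒜₁ = Split a c b d` (`ab | cd`: contributes `2` to `S₂` and `S₃`,
`0` or `1` to `S₁`), `𝒜₂ = Split a b c d` (`ac | bd`: contributes `2` to `S₁`, `S₃`, `0` or `1` to `S₂`), `𝒜₃ = Split a b d c` (`ad | bc`); every other wall contributes the same amount to `S₁, S₂, S₃`. So
`S₁ ≤ S₂ + 2 |𝒜₂|` and `S₁ ≤ S₃ + 2 |𝒜₃|` (per wall: contribution to `S₁` ≤ contribution to `S₂` + (if `T ∈ 𝒜₂` then 2 else 0), a finite case check). If `|𝒜₂| ≤ 1` or `|𝒜₃| ≤ 1` we are done. Otherwise take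
`T₁ ≠ T₂` in `𝒜₂` and `T₃ ≠ T₄` in `𝒜₃`: `cross_of_split` and `no_K22` give a contradiction. -/
theorem four_point (a b c d : C) :
    B.dist a b + B.dist c d ≤ max (B.dist a c + B.dist b d) (B.dist a d + B.dist b c) + 2 := B.fourPt a b c d

end Bldg

end QFC
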