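import Pool.Agent.QFC.A7

/-! # B1 : the weight `r` -/

open scoped Classical

namespace QFC

namespace Bldg

variable {n : ℕ} {C : Type} (B : Bldg n C)

theorem r_self (x : C) : B.r x x = 1 := by
  unfold r
  rw [B.Sep_self]
  exact finprod_mem_empty

theorem b1_eq (x c : C) :
    B.r x c = ∏ T ∈ (B.Sep_finite x c).toFinset, (1 / ((B.q (B.typ T) : ℝ) - 1)) :=
  finprod_mem_eq_finite_toFinset_prod _ _

theorem b1_q (i : ZMod n) : 2 ≤ (B.q i : ℝ) - 1 := by
  have h : (3 : ℝ) ≤ B.q i := by exact_mod_cast B.q_ge i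
  linarith

/-- `finprod` over the finite set `Sep x c` (`Sep_finite`, `finprod_mem_eq_finite_toFinset_prod`) -/
theorem r_pos (x c : C) : 0 < B.r x c := by
  rw [B.b1_eq]
  refine Finset.prod_pos fun T _ => ?_
  have := B.b1_q (B.typ T)
  positivity

theorem r_le_one (x c : C) : B.r x c ≤ 1 := by
  rw [B.b1_eq]
  refine Finset.prod_le_one (fun T _ => ?_) fun T _ => ?_
  · have := B.b1_q (B.typ T)
    positivity
  · have := B.b1_q (B.typ T)
    rw [div_le_one (by linarith)]
    linarith

/-- `dist_child`: `Sep x c = insert (wall i g) (Sep x g)` -/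
theorem r_child {x : C} {i : ZMod n} {g c : C} (h : B.adj i g c) (hne : g ≠ c) (hg : i ∉ B.D (B.pt x) g) :
    B.r x c = B.r x g / ((B.q i : ℝ) - 1) := by
  obtain ⟨-, h2, h3⟩ := B.dist_child h hne hg
  unfold r
  rw [h2, finprod_mem_insert _ h3 (B.Sep_finite x g), B.typ_wall]
  ring

theorem b1_panel (x : C) {i : ZMod n} {g c : C} (h : B.adj i c g) (hg : i ∉ B.D (B.pt x) g) :
    B.r x c ≤ B.r x g ∧ B.r x g ≤ ((B.q i : ℝ) - 1) * B.r x c := by
  have hq := B.b1_q i
  have hr := B.r_pos x g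
  by_cases hne : g = c
  · subst hne
    refine ⟨le_rfl, ?_⟩
    nlinarith
  · rw [B.r_child (B.adj_symm h) hne hg]
    constructor
    · rw [div_le_iff₀ (by linarith)]
      nlinarith
    · rw [mul_div_cancel₀ _ (by linarith)]

/-- `Q = (max q) - 1` (finitely many types): for adjacent chambers `c, d` of a panel with gate `g` both `r x c` and `r x d` are `r x g` or `r x g / (q i - 1)`; induction on `dist c d` (`exists_step`). -/
theorem exists_r_ratio : ∃ Q : ℝ, 1 ≤ Q ∧ ∀ x c d, B.r x c ≤ Q ^ (B.dist c d) * B.r x d := by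
  have hn0 : NeZero n := ⟨by have := B.hn; omega⟩
  have hQ : ∀ i : ZMod n, (B.q i : ℝ) ≤ ∑ j : ZMod n, (B.q j : ℝ) := fun i =>
    Finset.single_le_sum (f := fun j : ZMod n => (B.q j : ℝ)) (fun j _ => Nat.cast_nonneg _)
      (Finset.mem_univ i)
  set Q : ℝ := ∑ j : ZMod n, (B.q j : ℝ) with hQd
  have hQ1 : 1 ≤ Q := by
    have h1 := hQ 0
    have h2 := B.b1_q 0
    linarith
  refine ⟨Q, hQ1, ?_⟩
  have key : ∀ (x : C) (k : ℕ) (c d : C), B.dist c d = k → B.r x c ≤ Q ^ k * B.r x d := by
    intro x k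
    induction k with
    | zero =>
      intro c d h
      rw [B.dist_eq_zero h, pow_zero, one_mul]
    | succ k ih =>
      intro c d h
      obtain ⟨i, e, h1, _, h3⟩ := B.exists_step h
      have h4 := ih e d h3
      obtain ⟨g, hg1, hg2⟩ := B.exists_gate_roller (B.pt_roller x) i c
      have h5 := (B.b1_panel x hg1 hg2).1
      have h6 := (B.b1_panel x (B.adj_trans (B.adj_symm h1) hg1) hg2).2
      have h7 := B.r_pos x e
      have h8 := hQ i
      calc B.r x c ≤ B.r x g := h5
        _ ≤ ((B.q i : ℝ) - 1) * B.r x e := h6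
        _ ≤ Q * B.r x e := mul_le_mul_of_nonneg_right (by linarith) h7.le
        _ ≤ Q * (Q ^ k * B.r x d) := mul_le_mul_of_nonneg_left h4 (by linarith)
        _ = Q ^ (k + 1) * B.r x d := by ring
  intro x c d
  exact key x _ c d rfl

/-- number of chambers of a ball: induction on `ρ` as in `ball_finite`, `N (ρ + 1) = N ρ * (∑ i, q i)` (plus `N ρ`) -/
theorem exists_ball_card : ∀ ρ, ∃ N : ℕ, ∀ c, (B.ballF c ρ).card ≤ N := by
  have hn0 : NeZero n := ⟨by have := B.hn; omega⟩
  intro ρ
  induction ρ with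
  | zero =>
    refine ⟨1, fun c => ?_⟩
    have h1 : B.ballF c 0 ⊆ {c} := by
      intro d hd
      rw [B.mem_ballF] at hd
      rw [Finset.mem_singleton]
      exact (B.dist_eq_zero (Nat.le_zero.1 hd)).symm
    exact (Finset.card_le_card h1).trans (by simp)
  | succ ρ ih =>
    obtain ⟨N, hN⟩ := ih
    refine ⟨N * ∑ i : ZMod n, B.q i, fun c => ?_⟩
    have h1 : B.ballF c (ρ + 1) ⊆ (B.ballF c ρ).biUnion
        (fun d => Finset.univ.biUnion fun i : ZMod n => (B.panel_finite i d).toFinset) := by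
      intro d hd
      rw [B.mem_ballF] at hd
      rw [Finset.mem_biUnion]
      rcases Nat.lt_or_ge (B.dist c d) (ρ + 1) with h | h
      · refine ⟨d, B.mem_ballF.2 (by omega), ?_⟩
        rw [Finset.mem_biUnion]
        exact ⟨0, Finset.mem_univ _, (Set.Finite.mem_toFinset _).2 (B.adj_refl 0 d)⟩
      · have h' : B.dist d c = ρ + 1 := by rw [B.dist_comm]; exact le_antisymm hd h
        obtain ⟨i, e, h1, _, h3⟩ := B.exists_step h'
        refine ⟨e, B.mem_ballF.2 (by rw [B.dist_comm]; omega), ?_⟩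
        rw [Finset.mem_biUnion]
        exact ⟨i, Finset.mem_univ _, (Set.Finite.mem_toFinset _).2 (B.adj_symm h1)⟩
    have h2 : ∀ (i : ZMod n) (d : C), (B.panel_finite i d).toFinset.card = B.q i := by
      intro i d
      rw [← Set.ncard_eq_toFinset_card _ (B.panel_finite i d)]
      exact B.card_panel i d
    calc (B.ballF c (ρ + 1)).card ≤ _ := Finset.card_le_card h1
      _ ≤ ∑ d ∈ B.ballF c ρ,
          (Finset.univ.biUnion fun i : ZMod n => (B.panel_finite i d).toFinset).card :=
        Finset.card_biUnion_le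
      _ ≤ ∑ d ∈ B.ballF c ρ, ∑ i : ZMod n, B.q i := by
        refine Finset.sum_le_sum fun d _ => ?_
        refine Finset.card_biUnion_le.trans (le_of_eq ?_)
        exact Finset.sum_congr rfl fun i _ => h2 i d
      _ = (B.ballF c ρ).card * ∑ i : ZMod n, B.q i := by
        rw [Finset.sum_const, smul_eq_mul]
      _ ≤ N * ∑ i : ZMod n, B.q i := Nat.mul_le_mul_right _ (hN c)

end Bldg

end QFC
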