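import Pool.Agent.QFC.Bldg

/-!
# Weights on a right-angled Fuchsian building of Euler characteristic zero
-/

open scoped Classical

namespace QFC

/-- the local solution of the flow equations (exists for the Euler characteristic zero thickness) -/
structure Weights {n : ℕ} [NeZero n] (q : ZMod n → ℕ) where
  x1 : ZMod n → ℝ
  /-- `(q (i+1) - 1) ×` flow out of a chamber with descent `i` through the side `i + 1` -/
  up : ZMod n → ℝ
  /-- `(q i - 1) ×` flow out of a chamber with descent `i + 1` through the side `i` -/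
  dn : ZMod n → ℝ
  x1_pos : ∀ i, 0 < x1 i
  up_pos : ∀ i, 0 < up i
  dn_pos : ∀ i, 0 < dn i
  eq1 : ∀ i, x1 i = (∑ j ∈ Finset.univ.filter (fun j => j ≠ i ∧ ¬ TAdj i j), x1 j / ((q j : ℝ) - 1))
    + up i / ((q (i + 1) : ℝ) - 1) + dn (i - 1) / ((q (i - 1) : ℝ) - 1)
  eq2 : ∀ i, up i + dn i =
    (∑ j ∈ Finset.univ.filter (fun j => j ≠ i ∧ j ≠ i + 1 ∧ ¬ TAdj i j ∧ ¬ TAdj (i + 1) j),
      x1 j / ((q j : ℝ) - 1))
    + up (i + 1) / ((q (i + 2) : ℝ) - 1) + dn (i - 1) / ((q (i - 1) : ℝ) - 1)

namespace Weights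

variable {n : ℕ} [NeZero n] {q : ZMod n → ℕ} (w : Weights q)

/-- outflow of a chamber with descent set `D` through one chamber-side `j ∉ D` (relative to `r`) -/
noncomputable def out (D : Set (ZMod n)) (j : ZMod n) : ℝ :=
  (if j - 1 ∈ D then w.up (j - 1) else if j + 1 ∈ D then w.dn j else w.x1 j) / ((q j : ℝ) - 1)

/-- value of a chamber with descent set `D` (relative to `r`) -/
noncomputable def val (D : Set (ZMod n)) : ℝ :=
  ∑ j ∈ Finset.univ.filter (fun j => j ∉ D), w.out D j

end Weights

namespace Bldg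

variable {n : ℕ} [NeZero n] {C : Type} (B : Bldg n C) (w : Weights B.q)

/-- the vertex weight `v(c) = r(c) · val(D(c))` for the root chamber `x` -/
noncomputable def v (x c : C) : ℝ := B.r x c * w.val (B.D (B.pt x) c)

/-- the flow through the side `j` of `c` -/
noncomputable def fl (x c : C) (j : ZMod n) : ℝ := B.r x c * w.out (B.D (B.pt x) c) j

/-- `M_k(S)` : total weight of the chambers of `S` at distance `k` of the root chamber `x` -/
noncomputable def M (x : C) (S : Set C) (k : ℕ) : ℝ := ∑ c ∈ B.sphereF x k, if c ∈ S then B.v w x c else 0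

/-- children of `c` across the side `j` -/
def kids (j : ZMod n) (c : C) : Set C := {d | B.adj j c d ∧ d ≠ c}

/-- defect of `S` at the side `j` of the gate `c` -/
noncomputable def dfct (S : Set C) (c : C) (j : ZMod n) : ℝ :=
  ((S ∩ B.kids j c).ncard : ℝ) - (if c ∈ S then 1 else 0)

end Bldg

end QFC
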