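import Pool.Agent.QFC.B1
import Pool.Agent.QFC.Weights

/-! # B2 : conservation of the flow -/

open scoped Classical

namespace QFC

namespace Weights

variable {n : ℕ} [NeZero n] {q : ZMod n → ℕ} (w : Weights q)

theorem b2_ne {n : ℕ} (hn : 6 ≤ n) : (1 : ZMod n) ≠ 0 ∧ (2 : ZMod n) ≠ 0 ∧ (3 : ZMod n) ≠ 0 := by
  refine ⟨?_, ?_, ?_⟩
  · exact_mod_cast natCast_ne_zero hn (k := 1) (by norm_num) (by norm_num)
  · exact_mod_cast natCast_ne_zero hn (k := 2) (by norm_num) (by norm_num)
  · exact_mod_cast natCast_ne_zero hn (k := 3) (by norm_num) (by norm_num)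

theorem b2_split (D : Set (ZMod n)) (P : ZMod n → Prop) (s t : Finset (ZMod n))
    (hs : ∀ j, j ∈ s ↔ j ∉ D ∧ P j) (ht : ∀ j, j ∈ t ↔ j ∉ D ∧ ¬ P j) :
    w.val D = ∑ j ∈ s, w.out D j + ∑ j ∈ t, w.out D j := by
  unfold val
  rw [← Finset.sum_union]
  · refine Finset.sum_congr ?_ fun _ _ => rfl
    ext j
    rw [Finset.mem_filter, Finset.mem_union, hs, ht]
    have := Finset.mem_univ j
    tauto
  · rw [Finset.disjoint_left]
    intro j h1 h2
    exact ((ht j).1 h2).2 ((hs j).1 h1).2

/-- `eq1`. The sides `j ≠ i` are: `j = i + 1` (value `up i / (q (i+1) - 1)`, since `j - 1 = i`), `j = i - 1` (value `dn (i-1) / (q (i-1) - 1)`, since `j + 1 = i` and `j - 1 = i - 2 ≠ i`), and the rest (`x1 j / (q j - 1)`). -/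
theorem val_single (hn : 6 ≤ n) (i : ZMod n) : w.val {i} = w.x1 i := by
  obtain ⟨e1, e2, e3⟩ := b2_ne hn
  rw [w.eq1 i, add_assoc]
  refine (w.b2_split {i} (fun j => ¬ TAdj i j) _ ({i + 1, i - 1} : Finset (ZMod n)) ?_ ?_).trans
    (congrArg₂ (· + ·) (Finset.sum_congr rfl ?_) ?_)
  · intro j
    simp only [Finset.mem_filter, Finset.mem_univ, true_and, Set.mem_singleton_iff, ne_eq]
  · intro j
    simp only [Set.mem_singleton_iff, not_not, Finset.mem_insert, Finset.mem_singleton]
    constructor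
    · rintro (h | h)
      · refine ⟨fun h1 => e1 ?_, Or.inl h⟩
        rw [h] at h1
        linear_combination h1
      · refine ⟨fun h1 => e1 ?_, Or.inr (by rw [h]; ring)⟩
        rw [h] at h1
        linear_combination -h1
    · rintro ⟨_, h | h⟩
      · exact Or.inl h
      · exact Or.inr (by rw [h]; ring)
  · intro j hj
    simp only [Finset.mem_filter, Finset.mem_univ, true_and] at hj
    obtain ⟨h1, h2⟩ := hj
    unfold out
    rw [if_neg, if_neg]
    · intro h3
      exact h2 (Or.inr (Set.mem_singleton_iff.1 h3).symm)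
    · intro h3
      exact h2 (Or.inl (by rw [← Set.mem_singleton_iff.1 h3]; ring))
  · have hne : i + 1 ≠ i - 1 := fun h => e2 (by linear_combination h)
    rw [Finset.sum_pair hne]
    unfold out
    have a1 : i + 1 - 1 = i := by ring
    have a2 : i - 1 + 1 = i := by ring
    have a3 : i - 1 - 1 ∉ ({i} : Set (ZMod n)) := fun h => e2 (by
      have := Set.mem_singleton_iff.1 h
      linear_combination -this)
    rw [a1, a2, if_pos (Set.mem_singleton i), if_neg a3, if_pos (Set.mem_singleton i)]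

/-- `eq2`. Sides `j ∉ {i, i+1}`: `j = i + 2` (value `up (i+1) / (q (i+2) - 1)`), `j = i - 1` (value `dn (i-1) / (q (i-1) - 1)`), the rest -/
theorem val_pair (hn : 6 ≤ n) (i : ZMod n) : w.val {i, i + 1} = w.up i + w.dn i := by
  obtain ⟨e1, e2, e3⟩ := b2_ne hn
  rw [w.eq2 i, add_assoc]
  refine (w.b2_split {i, i + 1} (fun j => ¬ TAdj i j ∧ ¬ TAdj (i + 1) j) _
    ({i + 2, i - 1} : Finset (ZMod n)) ?_ ?_).trans
    (congrArg₂ (· + ·) (Finset.sum_congr rfl ?_) ?_)
  · intro j
    simp only [Finset.mem_filter, Finset.mem_univ, true_and, Set.mem_insert_iff,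
      Set.mem_singleton_iff, not_or, and_assoc, ne_eq]
  · intro j
    simp only [Set.mem_insert_iff, Set.mem_singleton_iff, not_or, Finset.mem_insert,
      Finset.mem_singleton]
    constructor
    · rintro (h | h)
      · refine ⟨⟨fun h1 => e2 ?_, fun h1 => e1 ?_⟩, fun h1 => h1.2 (Or.inl (by rw [h]; ring))⟩
        · rw [h] at h1
          linear_combination h1
        · rw [h] at h1
          linear_combination h1
      · refine ⟨⟨fun h1 => e1 ?_, fun h1 => e2 ?_⟩, fun h1 => h1.1 (Or.inr (by rw [h]; ring))⟩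
        · rw [h] at h1
          linear_combination -h1
        · rw [h] at h1
          linear_combination -h1
    · rintro ⟨⟨h0, h1⟩, h2⟩
      have h3 : TAdj i j ∨ TAdj (i + 1) j := by
        by_contra hh
        exact h2 ⟨fun a => hh (Or.inl a), fun a => hh (Or.inr a)⟩
      rcases h3 with (h | h) | (h | h)
      · exact absurd h h1
      · exact Or.inr (by rw [h]; ring)
      · exact Or.inl (by rw [h]; ring)
      · exact absurd (by linear_combination -h) h0
  · intro j hj
    simp only [Finset.mem_filter, Finset.mem_univ, true_and] at hj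
    obtain ⟨h0, h1, h2, h3⟩ := hj
    unfold out
    rw [if_neg, if_neg]
    · intro h4
      rcases h4 with h4 | h4
      · exact h2 (Or.inr h4.symm)
      · exact h0 (by have := Set.mem_singleton_iff.1 h4; linear_combination this)
    · intro h4
      rcases h4 with h4 | h4
      · exact h1 (by rw [← h4]; ring)
      · exact h3 (Or.inl (by rw [← Set.mem_singleton_iff.1 h4]; ring))
  · have hne : i + 2 ≠ i - 1 := fun h => e3 (by linear_combination h)
    rw [Finset.sum_pair hne]
    unfold out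
    have a1 : i + 2 - 1 = i + 1 := by ring
    have a2 : i - 1 + 1 = i := by ring
    have a3 : i - 1 - 1 ∉ ({i, i + 1} : Set (ZMod n)) := by
      rintro (h | h)
      · exact e2 (by linear_combination -h)
      · exact e3 (by have := Set.mem_singleton_iff.1 h; linear_combination -this)
    have a4 : i + 1 ∈ ({i, i + 1} : Set (ZMod n)) := Or.inr rfl
    have a5 : i ∈ ({i, i + 1} : Set (ZMod n)) := Or.inl rfl
    rw [a1, a2, if_pos a4, if_neg a3, if_pos a5]

/-- inflow, one descent: the gate has no descent in `{i-1, i, i+1}` -/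
theorem out_gate_single (hn : 6 ≤ n) {i : ZMod n} (hq : 3 ≤ q i) {D : Set (ZMod n)} (h : ∀ j ∈ D, j ≠ i ∧ ¬ TAdj i j) :
    ((q i : ℝ) - 1) * w.out D i = w.x1 i := by
  have hq' : (3 : ℝ) ≤ q i := by exact_mod_cast hq
  unfold out
  rw [if_neg, if_neg, mul_div_cancel₀ _ (by linarith)]
  · intro h1
    exact (h _ h1).2 (Or.inl rfl)
  · intro h1
    exact (h _ h1).2 (Or.inr (by ring))

/-- inflow through the side `i` of a chamber with descents `{i, i+1}`: the gate `g` has `i + 1 ∈ D g`, `i - 1 ∉ D g` -/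
theorem out_gate_dn (hn : 6 ≤ n) {i : ZMod n} (hq : 3 ≤ q i) {D : Set (ZMod n)} (h : i - 1 ∉ D) (h' : i + 1 ∈ D) :
    ((q i : ℝ) - 1) * w.out D i = w.dn i := by
  have hq' : (3 : ℝ) ≤ q i := by exact_mod_cast hq
  unfold out
  rw [if_neg h, if_pos h', mul_div_cancel₀ _ (by linarith)]

/-- inflow through the side `i + 1` of a chamber with descents `{i, i+1}`: the gate `g` has `i ∈ D g` -/
theorem out_gate_up (hn : 6 ≤ n) {i : ZMod n} (hq : 3 ≤ q (i + 1)) {D : Set (ZMod n)} (h : i ∈ D) :
    ((q (i + 1) : ℝ) - 1) * w.out D (i + 1) = w.up i := by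
  have hq' : (3 : ℝ) ≤ q (i + 1) := by exact_mod_cast hq
  unfold out
  have a1 : i + 1 - 1 = i := by ring
  rw [a1, if_pos h, mul_div_cancel₀ _ (by linarith)]

theorem out_pos (hq : ∀ i, 3 ≤ q i) (D : Set (ZMod n)) (j : ZMod n) : 0 < w.out D j := by
  have hq' : (3 : ℝ) ≤ q j := by exact_mod_cast hq j
  unfold out
  refine div_pos ?_ (by linarith)
  split_ifs
  · exact w.up_pos _
  · exact w.dn_pos _
  · exact w.x1_pos _

/-- `out D j` takes finitely many values: for each `j` one of `up (j-1)`, `dn j`, `x1 j` divided by `q j - 1`. `a` = the least of them, `b` = `n` times the largest one. -/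
theorem exists_bounds (hq : ∀ i, 3 ≤ q i) (hn : 6 ≤ n) : ∃ a b : ℝ, 0 < a ∧
    (∀ D j, a ≤ w.out D j) ∧ (∀ D : Set (ZMod n), w.val D ≤ b) ∧
    (∀ D : Set (ZMod n), (∃ j, j ∉ D) → a ≤ w.val D) := by
  obtain ⟨p0, hp0⟩ := Finite.exists_min (fun p : Set (ZMod n) × ZMod n => w.out p.1 p.2)
  obtain ⟨D1, hD1⟩ := Finite.exists_max (fun D : Set (ZMod n) => w.val D)
  refine ⟨w.out p0.1 p0.2, w.val D1, w.out_pos hq _ _, fun D j => hp0 (D, j), hD1, ?_⟩
  rintro D ⟨j, hj⟩
  refine (hp0 (D, j)).trans ?_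
  unfold val
  exact Finset.single_le_sum (f := fun j => w.out D j) (fun j _ => (w.out_pos hq D j).le)
    (Finset.mem_filter.2 ⟨Finset.mem_univ j, hj⟩)

end Weights

end QFC
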