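import Pool.Agent.QFC.B2

/-! # B2b : conservation of the flow -/

open scoped Classical

namespace QFC

namespace Bldg

variable {n : ℕ} [NeZero n] {C : Type} (B : Bldg n C) (w : Weights B.q)

/-- `D = B.D (pt x) c ≠ ∅` (`D_pt_empty`). `D_cases`. If `D = {i}`: the gate `g = g i` has (`D_child`) no descent in `{i-1, i, i+1}`, `r x g = (q i - 1) r x c` (`r_child`), so
`fl x g i = r x c * ((q i - 1) * out (D g) i) = r x c * x1 i = r x c * val {i}`. If `D = {i, i+1}`: `fl x (g i) i = r x c * dn i`, `fl x (g (i+1)) (i+1) = r x c * up i`; sum `= r x c * val {i, i+1}`. (`g i ≠ c` for `i ∈ D`.) -/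
theorem inflow (x c : C) (hc : c ≠ x) (g : ZMod n → C) (hg : ∀ i, B.adj i c (g i) ∧ i ∉ B.D (B.pt x) (g i)) :
    B.v w x c = ∑ i ∈ Finset.univ.filter (fun i => i ∈ B.D (B.pt x) c), B.fl w x (g i) i := by
  have hn := B.hn
  obtain ⟨e1, e2, e3⟩ := Weights.b2_ne hn
  have hne : ∀ i ∈ B.D (B.pt x) c, g i ≠ c := by
    intro i hi h
    exact (hg i).2 (by rw [h]; exact hi)
  have hq : ∀ i, (B.q i : ℝ) - 1 ≠ 0 := fun i => by
    have := B.b1_q i
    linarith
  have hr : ∀ i ∈ B.D (B.pt x) c, B.r x (g i) = B.r x c * ((B.q i : ℝ) - 1) := by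
    intro i hi
    rw [B.r_child (B.adj_symm (hg i).1) (hne i hi) (hg i).2, div_mul_cancel₀ _ (hq i)]
  have hD : ∀ i ∈ B.D (B.pt x) c, ∀ j, j ≠ i → (j ∈ B.D (B.pt x) c ↔ j ∈ B.D (B.pt x) (g i) ∧ TAdj i j) := by
    intro i hi j hj
    rw [B.D_child (B.pt_roller x) (B.adj_symm (hg i).1) (hne i hi) (hg i).2]
    constructor
    · rintro (h | h)
      · exact absurd h hj
      · exact h
    · intro h
      exact Or.inr h
  rcases B.D_cases (B.pt_roller x) c with h | ⟨i, h⟩ | ⟨i, h⟩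
  · exact absurd (B.D_pt_empty.1 h) hc
  · have hi : i ∈ B.D (B.pt x) c := by rw [h]; rfl
    have hf : Finset.univ.filter (fun i => i ∈ B.D (B.pt x) c) = {i} := by
      ext j
      rw [Finset.mem_filter, h, Finset.mem_singleton, Set.mem_singleton_iff]
      exact ⟨fun h => h.2, fun h => ⟨Finset.mem_univ _, h⟩⟩
    rw [hf, Finset.sum_singleton]
    unfold v fl
    have ho := w.out_gate_single hn (B.q_ge i) (D := B.D (B.pt x) (g i)) (by
      intro j hj
      have hji : j ≠ i := fun h1 => (hg i).2 (h1 ▸ hj)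
      refine ⟨hji, fun h2 => ?_⟩
      have h3 := (hD i hi j hji).2 ⟨hj, h2⟩
      rw [h] at h3
      exact hji h3)
    rw [h, w.val_single hn, hr i hi, ← ho]
    ring
  · have hi : i ∈ B.D (B.pt x) c := by rw [h]; exact Or.inl rfl
    have hi' : i + 1 ∈ B.D (B.pt x) c := by rw [h]; exact Or.inr rfl
    have hii : i ≠ i + 1 := fun h1 => e1 (by linear_combination -h1)
    have hf : Finset.univ.filter (fun i => i ∈ B.D (B.pt x) c) = {i, i + 1} := by
      ext j
      rw [Finset.mem_filter, h, Finset.mem_insert, Finset.mem_singleton, Set.mem_insert_iff,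
        Set.mem_singleton_iff]
      exact ⟨fun h => h.2, fun h => ⟨Finset.mem_univ _, h⟩⟩
    rw [hf, Finset.sum_pair hii]
    unfold v fl
    have h1 : i + 1 ∈ B.D (B.pt x) (g i) := ((hD i hi (i + 1) hii.symm).1 hi').1
    have h2 : i - 1 ∉ B.D (B.pt x) (g i) := by
      intro h3
      have h4 : i - 1 ≠ i := fun h5 => e1 (by linear_combination -h5)
      have h5 := (hD i hi (i - 1) h4).2 ⟨h3, Or.inr (by ring)⟩
      rw [h] at h5
      rcases h5 with h5 | h5
      · exact h4 h5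
      · exact e2 (by have := Set.mem_singleton_iff.1 h5; linear_combination -this)
    have h3 : i ∈ B.D (B.pt x) (g (i + 1)) := ((hD (i + 1) hi' i hii).1 hi).1
    have ho := w.out_gate_dn hn (B.q_ge i) h2 h1
    have ho' := w.out_gate_up hn (B.q_ge (i + 1)) h3
    rw [h, w.val_pair hn, hr i hi, hr (i + 1) hi', ← ho, ← ho']
    ring

/-- by definition -/
theorem outflow (x c : C) :
    B.v w x c = ∑ j ∈ Finset.univ.filter (fun j => j ∉ B.D (B.pt x) c), B.fl w x c j := by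
  unfold v fl Weights.val
  rw [Finset.mul_sum]

theorem fl_pos (x c : C) (j : ZMod n) : 0 < B.fl w x c j :=
  mul_pos (B.r_pos x c) (w.out_pos B.q_ge _ _)

theorem v_pos (x c : C) : 0 < B.v w x c := by
  obtain ⟨j, hj⟩ := B.D_ne_univ (B.pt_roller x) c
  rw [B.outflow]
  exact Finset.sum_pos (fun j _ => B.fl_pos w x c j) ⟨j, Finset.mem_filter.2 ⟨Finset.mem_univ j, hj⟩⟩

/-- constants `a, b` with `a r ≤ v ≤ b r`, `a r ≤ fl` (`exists_bounds`, `D_ne_univ`) -/
theorem exists_v_bounds : ∃ a b : ℝ, 0 < a ∧ 0 < b ∧ ∀ x c, a * B.r x c ≤ B.v w x c ∧ B.v w x c ≤ b * B.r x c ∧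
    ∀ j, a * B.r x c ≤ B.fl w x c j := by
  obtain ⟨a, b, ha, h1, h2, h3⟩ := w.exists_bounds B.q_ge B.hn
  refine ⟨a, max b 1, ha, lt_of_lt_of_le one_pos (le_max_right _ _), fun x c => ?_⟩
  have hr := B.r_pos x c
  refine ⟨?_, ?_, fun j => ?_⟩
  · unfold v
    rw [mul_comm]
    exact mul_le_mul_of_nonneg_left (h3 _ (B.D_ne_univ (B.pt_roller x) c)) hr.le
  · unfold v
    rw [mul_comm]
    exact mul_le_mul_of_nonneg_right ((h2 _).trans (le_max_left _ _)) hr.le
  · unfold fl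
    rw [mul_comm]
    exact mul_le_mul_of_nonneg_left (h1 _ _) hr.le

end Bldg

end QFC
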