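import Pool.Agent.QFC.B2b

/-! # B3 : double counting over the levels -/

open scoped Classical

namespace QFC

namespace Bldg

variable {n : ℕ} [NeZero n] {C : Type} (B : Bldg n C) (w : Weights B.q)

theorem kids_finite (j : ZMod n) (c : C) : (B.kids j c).Finite :=
  (B.panel_finite j c).subset fun _ hd => hd.1

theorem kids_ncard (j : ZMod n) (c : C) : (B.kids j c).ncard = B.q j - 1 := by
  have h1 : B.kids j c = B.panel j c \ {c} := by
    ext d
    rfl
  have h2 : c ∈ B.panel j c := B.adj_refl j c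
  rw [h1, Set.ncard_sdiff_singleton_of_mem h2]
  congr 1
  exact B.card_panel j c

/-- Double counting. The pairs `(c', i)`, `c'` at distance `k + 1` from `x`, `i ∈ D c'`, correspond to the triples `(c, j, c')` with `c` at distance `k`, `j ∉ D c`, `c' ∈ kids j c`: `c = g c' i`, `j = i`
(`dist_child`, `mem_D_child`, `gate_roller_unique`; conversely for `i ∈ D c'` the gate `g c' i ≠ c'` is at distance `k`). Suggested: both sides are sums over a finset of triples `(c, j, c')`;
use `Finset.sum_bij'` / `Finset.sum_nbij'` on sigma finsets. -/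
theorem double_count (x : C) (k : ℕ) (g : C → ZMod n → C) (hg : ∀ c i, B.adj i c (g c i) ∧ i ∉ B.D (B.pt x) (g c i))
    (f : C → ZMod n → ℝ) (h : C → ℝ) :
    ∑ c' ∈ B.sphereF x (k + 1), h c' * ∑ i ∈ Finset.univ.filter (fun i => i ∈ B.D (B.pt x) c'), f (g c' i) i
      = ∑ c ∈ B.sphereF x k, ∑ j ∈ Finset.univ.filter (fun j => j ∉ B.D (B.pt x) c),
          f c j * ∑ c' ∈ (B.kids_finite j c).toFinset, h c' := by
  have hL : ∑ c' ∈ B.sphereF x (k + 1), h c' * ∑ i ∈ Finset.univ.filter (fun i => i ∈ B.D (B.pt x) c'), f (g c' i) i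
      = ∑ c' ∈ B.sphereF x (k + 1), ∑ j : ZMod n, ∑ c ∈ B.sphereF x k,
        if j ∉ B.D (B.pt x) c ∧ c' ∈ B.kids j c then f c j * h c' else 0 := by
    refine Finset.sum_congr rfl fun c' hc' => ?_
    rw [B.mem_sphereF] at hc'
    rw [Finset.mul_sum, Finset.sum_filter]
    refine Finset.sum_congr rfl fun j _ => ?_
    obtain ⟨g1, g2⟩ := hg c' j
    split_ifs with hj
    · have hne : g c' j ≠ c' := by
        intro h1
        rw [h1] at g2
        exact g2 hj
      have hd := (B.dist_child (B.adj_symm g1) hne g2).1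
      rw [Finset.sum_eq_single (g c' j)]
      · rw [if_pos ⟨g2, B.adj_symm g1, hne.symm⟩, mul_comm]
      · intro c _ hcg
        rw [if_neg]
        rintro ⟨h1, h2⟩
        exact hcg (B.gate_roller_unique (B.adj_trans h2.1 g1) h1 g2)
      · intro h1
        exfalso
        apply h1
        rw [B.mem_sphereF]
        omega
    · symm
      refine Finset.sum_eq_zero fun c _ => ?_
      rw [if_neg]
      rintro ⟨h1, h2⟩
      exact hj (B.mem_D_child h2.1 h2.2.symm h1)
  have hR : ∑ c ∈ B.sphereF x k, ∑ j ∈ Finset.univ.filter (fun j => j ∉ B.D (B.pt x) c),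
          f c j * ∑ c' ∈ (B.kids_finite j c).toFinset, h c'
      = ∑ c ∈ B.sphereF x k, ∑ j : ZMod n, ∑ c' ∈ B.sphereF x (k + 1),
        if j ∉ B.D (B.pt x) c ∧ c' ∈ B.kids j c then f c j * h c' else 0 := by
    refine Finset.sum_congr rfl fun c hc => ?_
    rw [B.mem_sphereF] at hc
    rw [Finset.sum_filter]
    refine Finset.sum_congr rfl fun j _ => ?_
    by_cases hj : j ∉ B.D (B.pt x) c
    · rw [if_pos hj, Finset.mul_sum, ← Finset.sum_filter]
      refine Finset.sum_congr ?_ fun _ _ => rfl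
      ext c'
      rw [Set.Finite.mem_toFinset, Finset.mem_filter, B.mem_sphereF]
      constructor
      · intro h1
        have hd := (B.dist_child h1.1 h1.2.symm hj).1
        exact ⟨by omega, hj, h1⟩
      · intro h1
        exact h1.2.2
    · rw [if_neg hj]
      symm
      refine Finset.sum_eq_zero fun c' _ => ?_
      rw [if_neg]
      rintro ⟨h1, -⟩
      exact hj h1
  rw [hL, hR]
  calc ∑ c' ∈ B.sphereF x (k + 1), ∑ j : ZMod n, ∑ c ∈ B.sphereF x k,
        (if j ∉ B.D (B.pt x) c ∧ c' ∈ B.kids j c then f c j * h c' else 0)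
      = ∑ c' ∈ B.sphereF x (k + 1), ∑ c ∈ B.sphereF x k, ∑ j : ZMod n,
        (if j ∉ B.D (B.pt x) c ∧ c' ∈ B.kids j c then f c j * h c' else 0) :=
        Finset.sum_congr rfl fun _ _ => Finset.sum_comm
    _ = ∑ c ∈ B.sphereF x k, ∑ c' ∈ B.sphereF x (k + 1), ∑ j : ZMod n,
        (if j ∉ B.D (B.pt x) c ∧ c' ∈ B.kids j c then f c j * h c' else 0) := Finset.sum_comm
    _ = ∑ c ∈ B.sphereF x k, ∑ j : ZMod n, ∑ c' ∈ B.sphereF x (k + 1),
        (if j ∉ B.D (B.pt x) c ∧ c' ∈ B.kids j c then f c j * h c' else 0) :=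
        Finset.sum_congr rfl fun _ _ => Finset.sum_comm

/-- Combine `double_count` (`f = fl w x`) with `inflow` (`c' ≠ x` since its distance is `k + 1`; choose `g` with `exists_gate_roller`). -/
theorem sum_level (x : C) (k : ℕ) (h : C → ℝ) :
    ∑ c' ∈ B.sphereF x (k + 1), h c' * B.v w x c'
      = ∑ c ∈ B.sphereF x k, ∑ j ∈ Finset.univ.filter (fun j => j ∉ B.D (B.pt x) c),
          B.fl w x c j * ∑ c' ∈ (B.kids_finite j c).toFinset, h c' := by
  have hex : ∀ c i, ∃ g, B.adj i c g ∧ i ∉ B.D (B.pt x) g := fun c i =>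
    B.exists_gate_roller (B.pt_roller x) i c
  choose g hg using hex
  rw [← B.double_count x k g hg (fun c j => B.fl w x c j) h]
  refine Finset.sum_congr rfl fun c' hc' => ?_
  rw [B.mem_sphereF] at hc'
  have hne : c' ≠ x := by
    rintro rfl
    rw [B.dist_self] at hc'
    omega
  rw [B.inflow w x c' hne (g c') (hg c')]

end Bldg

end QFC
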