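import Pool.Agent.QFC.B3

/-! # B3b : defects and levels -/

open scoped Classical

namespace QFC

namespace Bldg

variable {n : ℕ} [NeZero n] {C : Type} (B : Bldg n C) (w : Weights B.q)

theorem b3b_card_mem {S : Set C} {c : C} {j : ZMod n} (h : c ∈ S) :
    (S ∩ B.panel j c).ncard = (S ∩ B.kids j c).ncard + 1 := by
  have h1 : S ∩ B.panel j c = insert c (S ∩ B.kids j c) := by
    ext d
    constructor
    · rintro ⟨h2, h3⟩
      by_cases h4 : d = c
      · exact Or.inl h4
      · exact Or.inr ⟨h2, h3, h4⟩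
    · rintro (h4 | ⟨h2, h3, -⟩)
      · subst h4
        exact ⟨h, B.adj_refl j d⟩
      · exact ⟨h2, h3⟩
  rw [h1, Set.ncard_insert_of_notMem (fun h2 => h2.2.2 rfl)
    ((B.kids_finite j c).subset Set.inter_subset_right)]

theorem b3b_not {S : Set C} {c : C} {j : ZMod n} (h : c ∉ S) :
    S ∩ B.panel j c = S ∩ B.kids j c := by
  ext d
  constructor
  · rintro ⟨h2, h3⟩
    exact ⟨h2, h3, fun h4 => h (h4 ▸ h2)⟩
  · rintro ⟨h2, h3, -⟩
    exact ⟨h2, h3⟩

/-- parity: if `c ∈ S` then `(S ∩ kids j c).ncard + 1 = (S ∩ panel j c).ncard` is even, so `≥ 1` kids -/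
theorem dfct_nonneg {S : Set C} (hS : B.IsCycle S) (c : C) (j : ZMod n) : 0 ≤ B.dfct S c j := by
  unfold dfct
  by_cases h : c ∈ S
  · rw [if_pos h]
    have h1 := hS j c
    rw [B.b3b_card_mem h] at h1
    obtain ⟨k, hk⟩ := h1
    have h2 : 1 ≤ (S ∩ B.kids j c).ncard := by omega
    have h3 : (1 : ℝ) ≤ ((S ∩ B.kids j c).ncard : ℝ) := by exact_mod_cast h2
    linarith
  · rw [if_neg h, sub_zero]
    exact Nat.cast_nonneg _

theorem dfct_ge_one {S : Set C} (hS : B.IsCycle S) (c : C) (j : ZMod n) (h : ¬ B.NoDef S j c) :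
    1 ≤ B.dfct S c j := by
  unfold dfct
  by_cases hc : c ∈ S
  · rw [if_pos hc]
    have h1 := hS j c
    rw [B.b3b_card_mem hc] at h1
    obtain ⟨k, hk⟩ := h1
    have h2 : (S ∩ B.kids j c).ncard ≠ 1 := by
      intro h3
      obtain ⟨d, hd⟩ := Set.ncard_eq_one.1 h3
      have hd' : d ∈ S ∩ B.kids j c := by
        rw [hd]
        exact Set.mem_singleton d
      apply h
      refine Or.inr ⟨d, hd'.2.2, ?_⟩
      ext e
      constructor
      · rintro ⟨h4, h5⟩
        by_cases h6 : e = c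
        · exact Or.inl h6
        · have h7 : e ∈ S ∩ B.kids j c := ⟨h4, h5, h6⟩
          rw [hd] at h7
          exact Or.inr h7
      · rintro (h4 | h4)
        · rw [h4]
          exact ⟨hc, B.adj_refl j c⟩
        · rw [Set.mem_singleton_iff.1 h4]
          exact ⟨hd'.1, hd'.2.1⟩
    have h3 : 2 ≤ (S ∩ B.kids j c).ncard := by omega
    have h4 : (2 : ℝ) ≤ ((S ∩ B.kids j c).ncard : ℝ) := by exact_mod_cast h3
    linarith
  · rw [if_neg hc, sub_zero]
    have h2 : (S ∩ B.kids j c).ncard ≠ 0 := by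
      intro h3
      apply h
      left
      rw [B.b3b_not hc]
      exact (Set.ncard_eq_zero ((B.kids_finite j c).subset Set.inter_subset_right)).1 h3
    have h3 : 1 ≤ (S ∩ B.kids j c).ncard := by omega
    exact_mod_cast h3

theorem b3b_sum (S : Set C) (c : C) (j : ZMod n) :
    ∑ c' ∈ (B.kids_finite j c).toFinset, (if c' ∈ S then (1 : ℝ) else 0) =
      B.dfct S c j + (if c ∈ S then 1 else 0) := by
  unfold dfct
  rw [sub_add_cancel, Finset.sum_boole]
  congr 1
  rw [← Set.ncard_coe_finset]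
  congr 1
  ext d
  rw [Finset.mem_coe, Finset.mem_filter, Set.Finite.mem_toFinset]
  exact and_comm

/-- `sum_level` with `h = indicator of S`; `∑ c' ∈ kids, [c' ∈ S] = (S ∩ kids j c).ncard = dfct + [c ∈ S]`, and `∑ j, fl c j [c ∈ S] = v c [c ∈ S]` (`outflow`) -/
theorem M_succ (x : C) (S : Set C) (k : ℕ) :
    B.M w x S (k + 1) = B.M w x S k + ∑ c ∈ B.sphereF x k,
      ∑ j ∈ Finset.univ.filter (fun j => j ∉ B.D (B.pt x) c), B.fl w x c j * B.dfct S c j := by
  have h1 := B.sum_level w x k (fun c => if c ∈ S then (1 : ℝ) else 0)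
  have h2 : B.M w x S (k + 1) =
      ∑ c' ∈ B.sphereF x (k + 1), (if c' ∈ S then (1 : ℝ) else 0) * B.v w x c' := by
    unfold M
    refine Finset.sum_congr rfl fun c _ => ?_
    by_cases h : c ∈ S
    · rw [if_pos h, if_pos h, one_mul]
    · rw [if_neg h, if_neg h, zero_mul]
  rw [h2, h1]
  unfold M
  rw [← Finset.sum_add_distrib]
  refine Finset.sum_congr rfl fun c _ => ?_
  have h3 : (if c ∈ S then B.v w x c else 0) =
      ∑ j ∈ Finset.univ.filter (fun j => j ∉ B.D (B.pt x) c),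
        B.fl w x c j * (if c ∈ S then (1 : ℝ) else 0) := by
    rw [← Finset.sum_mul, ← B.outflow w x c]
    by_cases h : c ∈ S
    · rw [if_pos h, if_pos h, mul_one]
    · rw [if_neg h, if_neg h, mul_zero]
  rw [h3, ← Finset.sum_add_distrib]
  refine Finset.sum_congr rfl fun j _ => ?_
  rw [B.b3b_sum S c j]
  ring

/-- `M` is nondecreasing in the level for cycles -/
theorem M_mono {S : Set C} (hS : B.IsCycle S) (x : C) {k l : ℕ} (hkl : k ≤ l) : B.M w x S k ≤ B.M w x S l := by
  induction l, hkl using Nat.le_induction with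
  | base => exact le_rfl
  | succ l _ ih =>
    refine ih.trans ?_
    rw [B.M_succ w x S l]
    refine le_add_of_nonneg_right ?_
    refine Finset.sum_nonneg fun c _ => Finset.sum_nonneg fun j _ => ?_
    exact mul_nonneg (B.fl_pos w x c j).le (B.dfct_nonneg hS c j)

end Bldg

end QFC
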