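import Pool.Agent.QFC.B3b

/-! # B4 : the invariant sum, and visits -/

open scoped Classical

namespace QFC

namespace Bldg

variable {n : ℕ} [NeZero n] {C : Type} (B : Bldg n C) (w : Weights B.q)

theorem b4_kids_r {x c c' : C} {j : ZMod n} (hj : j ∉ B.D (B.pt x) c)
    (hc' : c' ∈ (B.kids_finite j c).toFinset) : B.r x c' = B.r x c / ((B.q j : ℝ) - 1) := by
  rw [Set.Finite.mem_toFinset] at hc'
  exact B.r_child hc'.1 (fun e => hc'.2 e.symm) hj

theorem b4_kids_sum {x c : C} {j : ZMod n} (hj : j ∉ B.D (B.pt x) c) :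
    ∑ c' ∈ (B.kids_finite j c).toFinset, B.r x c' = B.r x c := by
  rw [Finset.sum_congr rfl fun c' hc' => B.b4_kids_r hj hc', Finset.sum_const, nsmul_eq_mul,
    ← Set.ncard_eq_toFinset_card _ (B.kids_finite j c), B.kids_ncard j c]
  have h3 := B.q_ge j
  have h4 : (3 : ℝ) ≤ B.q j := by exact_mod_cast h3
  rw [Nat.cast_sub (by omega), Nat.cast_one]
  have h5 : (B.q j : ℝ) - 1 ≠ 0 := by
    have : (0 : ℝ) < (B.q j : ℝ) - 1 := by linarith
    exact this.ne'
  field_simp

/-- Induction on `k`; `k = 0`: `sphere x 0 = {x}`, `r x x = 1`, `D (pt x) x = ∅`. Step: `sum_level` with `h = r x ·`, `r_child` and `kids_ncard`: `∑ c' ∈ kids j c, r x c' = r x c` for `j ∉ D c`, then `outflow`. -/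
theorem sum_rv (x : C) (k : ℕ) : ∑ c ∈ B.sphereF x k, B.r x c * B.v w x c = w.val ∅ := by
  induction k with
  | zero =>
    have h0 : B.sphereF x 0 = {x} := by
      ext d
      rw [B.mem_sphereF, Finset.mem_singleton]
      constructor
      · intro h
        exact (B.dist_eq_zero h).symm
      · rintro rfl
        exact B.dist_self _
    have hD : B.D (B.pt x) x = ∅ := B.D_pt_empty.2 rfl
    rw [h0, Finset.sum_singleton, v, hD, B.r_self, one_mul, one_mul]
  | succ k ih =>
    rw [B.sum_level w x k (fun c => B.r x c), ← ih]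
    refine Finset.sum_congr rfl fun c _ => ?_
    rw [B.outflow w x c, Finset.mul_sum]
    refine Finset.sum_congr rfl fun j hj => ?_
    rw [B.b4_kids_sum (Finset.mem_filter.1 hj).2, mul_comm]

include w in
/-- `v ≥ a r` (`exists_v_bounds`), `b = val ∅ / a` -/
theorem exists_sum_rr : ∃ b : ℝ, ∀ x k, ∑ c ∈ B.sphereF x k, B.r x c ^ 2 ≤ b := by
  obtain ⟨a, b, ha, _, h⟩ := B.exists_v_bounds w
  refine ⟨w.val ∅ / a, fun x k => ?_⟩
  rw [le_div_iff₀ ha, ← B.sum_rv w x k, Finset.sum_mul]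
  refine Finset.sum_le_sum fun c _ => ?_
  have h1 := (h x c).1
  have h2 := B.r_pos x c
  nlinarith

end Bldg

end QFC
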