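import Pool.Agent.QFC.B4

/-! # B4b : visits -/

open scoped Classical

namespace QFC

namespace Bldg

variable {n : ℕ} [NeZero n] {C : Type} (B : Bldg n C) (w : Weights B.q)

theorem b4b_step (x : C) (Q : Set C) (H : C → ℕ)
    (hH : ∀ i g c, B.adj i g c → g ≠ c → i ∉ B.D (B.pt x) g → H g + (if c ∈ Q then 1 else 0) ≤ H c)
    (k : ℕ) : ∑ c ∈ B.sphereF x k, (B.r x c * H c) * B.v w x c +
      ∑ c ∈ B.sphereF x (k + 1), (if c ∈ Q then B.r x c * B.v w x c else 0) ≤
      ∑ c ∈ B.sphereF x (k + 1), (B.r x c * H c) * B.v w x c := by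
  have h1 : ∑ c ∈ B.sphereF x (k + 1), (if c ∈ Q then B.r x c * B.v w x c else 0) =
      ∑ c ∈ B.sphereF x (k + 1), (if c ∈ Q then B.r x c else 0) * B.v w x c := by
    refine Finset.sum_congr rfl fun c _ => ?_
    split_ifs
    · rfl
    · rw [zero_mul]
  rw [h1, B.sum_level w x k (fun c => if c ∈ Q then B.r x c else 0),
    B.sum_level w x k (fun c => B.r x c * H c), ← Finset.sum_add_distrib]
  refine Finset.sum_le_sum fun c _ => ?_
  rw [B.outflow w x c, Finset.mul_sum, ← Finset.sum_add_distrib]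
  refine Finset.sum_le_sum fun j hj => ?_
  have hj' := (Finset.mem_filter.1 hj).2
  have h2 : B.r x c * (H c : ℝ) * B.fl w x c j +
      B.fl w x c j * ∑ c' ∈ (B.kids_finite j c).toFinset, (if c' ∈ Q then B.r x c' else 0) =
      B.fl w x c j * ∑ c' ∈ (B.kids_finite j c).toFinset,
        B.r x c' * ((H c : ℝ) + (if c' ∈ Q then 1 else 0)) := by
    have h3 : ∑ c' ∈ (B.kids_finite j c).toFinset,
        B.r x c' * ((H c : ℝ) + (if c' ∈ Q then 1 else 0)) =
        B.r x c * H c +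
          ∑ c' ∈ (B.kids_finite j c).toFinset, (if c' ∈ Q then B.r x c' else 0) := by
      rw [← B.b4_kids_sum hj', Finset.sum_mul, ← Finset.sum_add_distrib]
      refine Finset.sum_congr rfl fun c' _ => ?_
      split_ifs <;> ring
    rw [h3]
    ring
  rw [h2]
  apply mul_le_mul_of_nonneg_left _ (B.fl_pos w x c j).le
  refine Finset.sum_le_sum fun c' hc' => ?_
  apply mul_le_mul_of_nonneg_left _ (B.r_pos x c').le
  rw [Set.Finite.mem_toFinset] at hc'
  have h4 := hH j c c' hc'.1 (fun e => hc'.2 e.symm) hj'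
  split_ifs at h4 ⊢
  · exact_mod_cast h4
  · exact_mod_cast h4

/-- If `H ≤ M` counts at least the visits to `Q` on the way from the root, the `r²`-mass of `Q` is bounded. Let `A k = ∑ c ∈ sphere k, r v H`. By `sum_level` (`h = r x · * H ·`), `r_child`, `kids_ncard`, `hH`:
`A (k+1) = ∑ c ∑ j fl c j ∑ c' ∈ kids, r c' H c' ≥ ∑ c ∑ j fl c j ∑ c' ∈ kids, r c' (H c + [c' ∈ Q]) = A k + mass (k+1)` where `mass k = ∑ c ∈ sphere k, [c ∈ Q] r v` (`sum_level` again, with
`h = r x · * [· ∈ Q]`). So `∑ k ≤ N, mass k ≤ mass 0 + A N ≤ val ∅ + M val ∅` (`sum_rv`). -/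
theorem visits (x : C) (Q : Set C) (H : C → ℕ) (M : ℕ) (hM : ∀ c, H c ≤ M)
    (hH : ∀ i g c, B.adj i g c → g ≠ c → i ∉ B.D (B.pt x) g → H g + (if c ∈ Q then 1 else 0) ≤ H c)
    (N : ℕ) : ∑ k ∈ Finset.range (N + 1), ∑ c ∈ B.sphereF x k, (if c ∈ Q then B.r x c * B.v w x c else 0)
      ≤ (M + 1) * w.val ∅ := by
  have hA : ∀ k, 0 ≤ ∑ c ∈ B.sphereF x k, (B.r x c * H c) * B.v w x c := fun k =>
    Finset.sum_nonneg fun c _ => mul_nonneg (mul_nonneg (B.r_pos x c).le (Nat.cast_nonneg _))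
      (B.v_pos w x c).le
  have hind : ∀ N : ℕ, ∑ k ∈ Finset.range (N + 1),
      ∑ c ∈ B.sphereF x k, (if c ∈ Q then B.r x c * B.v w x c else 0) ≤
      ∑ c ∈ B.sphereF x 0, (if c ∈ Q then B.r x c * B.v w x c else 0) +
        ∑ c ∈ B.sphereF x N, (B.r x c * H c) * B.v w x c := by
    intro N
    induction N with
    | zero =>
      rw [Finset.sum_range_one]
      have := hA 0
      linarith
    | succ N ih =>
      rw [Finset.sum_range_succ]
      have := B.b4b_step w x Q H hH N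
      linarith
  have h0 : ∑ c ∈ B.sphereF x 0, (if c ∈ Q then B.r x c * B.v w x c else 0) ≤ w.val ∅ := by
    rw [← B.sum_rv w x 0]
    refine Finset.sum_le_sum fun c _ => ?_
    split_ifs
    · exact le_refl _
    · exact mul_nonneg (B.r_pos x c).le (B.v_pos w x c).le
  have hN : ∑ c ∈ B.sphereF x N, (B.r x c * H c) * B.v w x c ≤ M * w.val ∅ := by
    rw [← B.sum_rv w x N, Finset.mul_sum]
    refine Finset.sum_le_sum fun c _ => ?_
    have h1 : (H c : ℝ) ≤ M := by exact_mod_cast hM c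
    have h2 : 0 ≤ B.r x c * B.v w x c := mul_nonneg (B.r_pos x c).le (B.v_pos w x c).le
    calc B.r x c * (H c : ℝ) * B.v w x c = (H c : ℝ) * (B.r x c * B.v w x c) := by ring
      _ ≤ M * (B.r x c * B.v w x c) := mul_le_mul_of_nonneg_right h1 h2
  have := hind N
  linarith

end Bldg

end QFC
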