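import Pool.Agent.QFC.Bldg

/-!
# The cellular chain complex mod 2 of a right-angled Fuchsian building:
2-cells = chambers, 1-cells = panels, 0-cells = vertex residues; bounded chain maps
-/

open scoped Classical

namespace QFC

namespace Bldg

variable {n : ℕ} {C : Type} (B : Bldg n C)

/-- panels -/
def Pnl : Type := Σ i : ZMod n, Quotient (⟨B.adj i, B.adj_equiv i⟩ : Setoid C)

/-- the panel of type `i` of `c` -/
def mkP (i : ZMod n) (c : C) : B.Pnl := ⟨i, Quotient.mk _ c⟩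

/-- the relation generating the vertex residues of type `{i, i+1}` -/
def vrel (i : ZMod n) (c d : C) : Prop := B.adj i c d ∨ B.adj (i + 1) c d

/-- vertices (of type `{i, i+1}`) -/
def Vtx : Type := Σ i : ZMod n, Quotient (Relation.EqvGen.setoid (B.vrel i))

/-- the vertex of type `{i, i+1}` of `c` -/
def mkV (i : ZMod n) (c : C) : B.Vtx := ⟨i, Quotient.mk _ c⟩

theorem mkP_eq {i : ZMod n} {c d : C} (h : B.adj i c d) : B.mkP i c = B.mkP i d := by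
  unfold mkP
  congr 1
  exact Quotient.sound h

theorem mkV_eq_left {i : ZMod n} {c d : C} (h : B.adj i c d) : B.mkV i c = B.mkV i d := by
  unfold mkV
  congr 1
  exact Quotient.sound (Relation.EqvGen.rel _ _ (Or.inl h))

theorem mkV_eq_right {i : ZMod n} {c d : C} (h : B.adj (i + 1) c d) : B.mkV i c = B.mkV i d := by
  unfold mkV
  congr 1
  exact Quotient.sound (Relation.EqvGen.rel _ _ (Or.inr h))

/-- boundary of a chamber: its `n` panels -/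
noncomputable def d2 [NeZero n] : (C →₀ ZMod 2) →ₗ[ZMod 2] (B.Pnl →₀ ZMod 2) :=
  Finsupp.linearCombination (ZMod 2) (fun c => ∑ i : ZMod n, Finsupp.single (B.mkP i c) (1 : ZMod 2))

/-- the two endpoints of a panel -/
noncomputable def bdP (p : B.Pnl) : B.Vtx →₀ ZMod 2 :=
  Finsupp.single (B.mkV (p.1 - 1) p.2.out) 1 + Finsupp.single (B.mkV p.1 p.2.out) 1

/-- boundary of a panel -/
noncomputable def d1 : (B.Pnl →₀ ZMod 2) →ₗ[ZMod 2] (B.Vtx →₀ ZMod 2) :=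
  Finsupp.linearCombination (ZMod 2) B.bdP

/-- augmentation -/
noncomputable def aug : (B.Vtx →₀ ZMod 2) →ₗ[ZMod 2] ZMod 2 :=
  Finsupp.linearCombination (ZMod 2) (fun _ => (1 : ZMod 2))

/-- a 2-chain supported in the ball `ball x N` -/
def Near2 (y : C →₀ ZMod 2) (x : C) (N : ℕ) : Prop := ∀ c, y c ≠ 0 → B.dist x c ≤ N

/-- a 1-chain supported on panels meeting the ball `ball x N` -/
def Near1 (z : B.Pnl →₀ ZMod 2) (x : C) (N : ℕ) : Prop :=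
  ∀ p, z p ≠ 0 → ∃ c, B.mkP p.1 c = p ∧ B.dist x c ≤ N

/-- a 0-chain supported on vertices meeting the ball `ball x N` -/
def Near0 (u : B.Vtx →₀ ZMod 2) (x : C) (N : ℕ) : Prop :=
  ∀ v, u v ≠ 0 → ∃ c, B.mkV v.1 c = v ∧ B.dist x c ≤ N

end Bldg

/-- bounded (augmentation preserving) chain maps over a map of chambers -/
structure BCM {n₁ n₂ : ℕ} [NeZero n₁] [NeZero n₂] {C₁ C₂ : Type} (B₁ : Bldg n₁ C₁) (B₂ : Bldg n₂ C₂)
    (F : C₁ → C₂) (R : ℕ) where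
  φ2 : (C₁ →₀ ZMod 2) →ₗ[ZMod 2] (C₂ →₀ ZMod 2)
  φ1 : (B₁.Pnl →₀ ZMod 2) →ₗ[ZMod 2] (B₂.Pnl →₀ ZMod 2)
  φ0 : (B₁.Vtx →₀ ZMod 2) →ₗ[ZMod 2] (B₂.Vtx →₀ ZMod 2)
  comm2 : ∀ y, B₂.d2 (φ2 y) = φ1 (B₁.d2 y)
  comm1 : ∀ z, B₂.d1 (φ1 z) = φ0 (B₁.d1 z)
  aug0 : ∀ u, B₂.aug (φ0 u) = B₁.aug u
  near2 : ∀ c, B₂.Near2 (φ2 (Finsupp.single c 1)) (F c) R
  near1 : ∀ i c, B₂.Near1 (φ1 (Finsupp.single (B₁.mkP i c) 1)) (F c) R
  near0 : ∀ i c, B₂.Near0 (φ0 (Finsupp.single (B₁.mkV i c) 1)) (F c) R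

namespace BCM

variable {n₁ n₂ : ℕ} [NeZero n₁] [NeZero n₂] {C₁ C₂ : Type} {B₁ : Bldg n₁ C₁} {B₂ : Bldg n₂ C₂}
  {F : C₁ → C₂} {R : ℕ}

/-- push-forward of locally finite 2-cycles -/
def push (φ : BCM B₁ B₂ F R) (S : Set C₁) : Set C₂ :=
  {c' | (∑ᶠ c ∈ S, φ.φ2 (Finsupp.single c 1) c') ≠ 0}

end BCM

end QFC
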