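import Pool.Agent.QFC.Weights

/-!
# Random apartments through a root chamber: independent uniform choices of a sheet at every wall
-/

open scoped Classical

namespace QFC

namespace Bldg

variable {n : ℕ} {C : Type} (B : Bldg n C)

/-- admissible choice: at every wall a sheet different from the sheet of the root chamber `x` -/
def Adm (x : C) (s : B.Wall → B.Sheet) : Prop := ∀ T, s T ≠ B.σ T x ∧ ∃ c, B.σ T c = s T

/-- the apartment of the choice `s` -/
def Ap (x : C) (s : B.Wall → B.Sheet) : Set C := {c | ∀ T ∈ B.Sep x c, B.σ T c = s T}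

/-- walls separating two chambers of the ball `ball e ρ` from its centre -/
def Wb (e : C) (ρ : ℕ) : Set B.Wall := {T | ∃ c ∈ B.ball e ρ, T ∈ B.Sep e c}

/-- all admissible choices equal to `s₀` off the finite set `𝒲` -/
def chSet (x : C) (s₀ : B.Wall → B.Sheet) (𝒲 : Finset B.Wall) : Set (B.Wall → B.Sheet) :=
  {s | B.Adm x s ∧ ∀ T, T ∉ 𝒲 → s T = s₀ T}

/-- the same as a finset (finiteness is proved in row P2) -/
noncomputable def ch (x : C) (s₀ : B.Wall → B.Sheet) (𝒲 : Finset B.Wall) : Finset (B.Wall → B.Sheet) :=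
  if h : (B.chSet x s₀ 𝒲).Finite then h.toFinset else ∅

/-- average over the choices -/
noncomputable def avg (x : C) (s₀ : B.Wall → B.Sheet) (𝒲 : Finset B.Wall) (f : (B.Wall → B.Sheet) → ℝ) : ℝ :=
  (∑ s ∈ B.ch x s₀ 𝒲, f s) / (B.ch x s₀ 𝒲).card

/-- probability -/
noncomputable def pr (x : C) (s₀ : B.Wall → B.Sheet) (𝒲 : Finset B.Wall) (E : (B.Wall → B.Sheet) → Prop) : ℝ :=
  B.avg x s₀ 𝒲 (fun s => if E s then 1 else 0)

end Bldg

end QFC
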