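import Mathlib

/-!
# QFC: definitions for MP_d0a8c9_al

Mapping tori of automorphisms of finitely generated free groups, irreducible automorphisms,
word metrics, hyperbolic groups and quasi-isometric groups.
-/

namespace Pool.Agent.QFC

/-- The mapping torus `F_n ⋊_φ ℤ` of an automorphism `φ` of the free group `F_n`
(the generator `t = inr (ofAdd 1)` acts by `t x t⁻¹ = φ x`). -/
abbrev MappingTorus {n : ℕ} (φ : MulAut (FreeGroup (Fin n))) : Type :=
  FreeGroup (Fin n) ⋊[zpowersHom (MulAut (FreeGroup (Fin n))) φ] Multiplicative ℤ

/-- `φ` preserves the proper free factor system given by `F = A 1 * ⋯ * A k * B`: the free product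
of the subgroups `A i` (`i : Fin k`, `k ≥ 1`) and `B` maps isomorphically onto `F`, every `A i` is
nontrivial and proper, and `φ` permutes the conjugacy classes of the subgroups `A i`. -/
structure PreservedFreeFactorSystem {F : Type} [Group F] (φ : MulAut F) (k : ℕ) where
  /-- the free factors; `P (some i)` is `A i`, `P none` is `B` -/
  P : Option (Fin k) → Subgroup F
  pos : 0 < k
  free_product : Function.Bijective (Monoid.CoprodI.lift (fun i => (P i).subtype))
  ne_bot : ∀ i : Fin k, P (some i) ≠ ⊥
  ne_top : ∀ i : Fin k, P (some i) ≠ ⊤
  /-- the permutation of the conjugacy classes -/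
  σ : Equiv.Perm (Fin k)
  permutes : ∀ i : Fin k, ∃ g : F,
    (P (some i)).map φ.toMonoidHom = (P (some (σ i))).map (MulAut.conj g).toMonoidHom

/-- An automorphism is irreducible if it preserves no proper free factor system up to
conjugacy. -/
def IsIrreducibleAut {F : Type} [Group F] (φ : MulAut F) : Prop :=
  ∀ k : ℕ, IsEmpty (PreservedFreeFactorSystem φ k)

/-- Word length of `g` with respect to `S`: the least length of a list of elements of `S` and
inverses of elements of `S` with product `g`. -/
noncomputable def wordLength {G : Type} [Group G] (S : Finset G) (g : G) : ℕ :=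
  sInf {k : ℕ | ∃ l : List G, l.length = k ∧ (∀ x ∈ l, x ∈ S ∨ x⁻¹ ∈ S) ∧ l.prod = g}

/-- The word metric `d_S(g, h) = |g⁻¹ h|_S`. -/
noncomputable def wordDist {G : Type} [Group G] (S : Finset G) (g h : G) : ℕ :=
  wordLength S (g⁻¹ * h)

/-- `S` is a finite generating set of `G`. -/
def Generates {G : Type} [Group G] (S : Finset G) : Prop :=
  Subgroup.closure (S : Set G) = ⊤

/-- Gromov's four point condition with constant `δ` for the word metric of `S`. -/
def FourPoint {G : Type} [Group G] (S : Finset G) (δ : ℕ) : Prop :=
  ∀ x y z w : G, wordDist S x y + wordDist S z w ≤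
    max (wordDist S x z + wordDist S y w) (wordDist S x w + wordDist S y z) + δ

/-- A group is (word-)hyperbolic if it has a finite generating set whose word metric satisfies
Gromov's four point condition for some constant. -/
def IsHyperbolicGroup (G : Type) [Group G] : Prop :=
  ∃ S : Finset G, Generates S ∧ ∃ δ : ℕ, FourPoint S δ

/-- Two groups are quasi-isometric: for some finite generating sets there is a quasi-isometry
`f : G → H` of the word metrics. -/
def QIGroups (G H : Type) [Group G] [Group H] : Prop :=
  ∃ (S : Finset G) (T : Finset H), Generates S ∧ Generates T ∧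
    ∃ (f : G → H) (K C : ℕ),
      (∀ x y, wordDist T (f x) (f y) ≤ K * wordDist S x y + C) ∧
      (∀ x y, wordDist S x y ≤ K * wordDist T (f x) (f y) + C) ∧
      (∀ h, ∃ x, wordDist T (f x) h ≤ C)

end Pool.Agent.QFC
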