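import Pool.Agent.QFC.Hyp
import Pool.Agent.QFC.Defs

/-!
# One-vertex polygonal complexes with complete bipartite link, and their fundamental groups (project QFC)
-/

namespace QFC

/-! ## one-vertex complexes -/

/-- combinatorial data of a one-vertex `2m`-gonal complex with link `K_{b,a}` : `x`-ends `Fin b`,
`y`-ends `Fin a`, corners `Fin b × Fin a` -/
structure KData (m a b : ℕ) where
  ix : Fin b → Fin b
  iy : Fin a → Fin a
  al : Fin b → Fin a → Fin a
  be : Fin b → Fin a → Fin b
  r1_inv : ∀ s t, ix (ix s) = s ∧ al (ix s) (al s t) = t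
  r2_inv : ∀ s t, iy (iy t) = t ∧ be (be s t) (iy t) = s
  face : ∀ w : Fin b × Fin a,
    ((fun w => ((ix (be w.1 w.2), al (be w.1 w.2) (iy w.2)) : Fin b × Fin a))^[m]) w = w

namespace KData

variable {m a b : ℕ} (K : KData m a b)

/-- corners -/
abbrev Cor (_ : KData m a b) : Type := Fin b × Fin a

/-- move along the `x`-edge of the corner -/
def r1 (w : Fin b × Fin a) : Fin b × Fin a := (K.ix w.1, K.al w.1 w.2)

/-- move along the `y`-edge of the corner -/
def r2 (w : Fin b × Fin a) : Fin b × Fin a := (K.be w.1 w.2, K.iy w.2)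

/-- the `k`-th corner of the polygon with base corner `w` : side `k` (between the corners `k-1`
and `k`) is an `x`-edge for `k` even, a `y`-edge for `k` odd -/
def kap : ℕ → Fin b × Fin a → Fin b × Fin a
  | 0, w => w
  | k + 1, w => if (k + 1) % 2 = 0 then K.r1 (kap k w) else K.r2 (kap k w)

/-- the letter read along the side `k ≥ 1`, from the corner `k-1` to the corner `k` -/
def ltr (k : ℕ) (w : Fin b × Fin a) : Fin b ⊕ Fin a :=
  if k % 2 = 0 then Sum.inl (K.kap (k - 1) w).1 else Sum.inr (K.kap (k - 1) w).2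

/-- relators of the fundamental group -/
def rels : Set (FreeGroup (Fin b ⊕ Fin a)) :=
  {g | ∃ s, g = FreeGroup.of (Sum.inl s) * FreeGroup.of (Sum.inl (K.ix s))} ∪
  {g | ∃ t, g = FreeGroup.of (Sum.inr t) * FreeGroup.of (Sum.inr (K.iy t))} ∪
  {g | ∃ w, g = ((List.range (2 * m)).map (fun k => FreeGroup.of (K.ltr (k + 1) w))).prod}

/-- the fundamental group -/
abbrev Pi : Type := PresentedGroup K.rels

end KData

end QFC
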