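import Pool.Agent.QFC.GP
import Pool.Agent.QFC.Groups
import Pool.Agent.QFC.Weights

/-!
# Label systems and the thickness of one-vertex complexes (definitions)
-/

open scoped Classical

namespace QFC

/-- labels: a typed chamber system with product residues -/
structure LabSys (n : ℕ) (q : ZMod n → ℕ) (Ω : Type) where
  R : ZMod n → Ω → Ω → Prop
  equiv : ∀ i, Equivalence (R i)
  card : ∀ i a, {b | R i a b}.ncard = q i
  sq : ∀ i j a b c, TAdj i j → R i a b → R j a c → ∃ e, R j b e ∧ R i c e
  meet : ∀ i j a b, TAdj i j → R i a b → R j a b → a = b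

/-- thickness of the sides: even sides are `x`-edges (thickness `a`), odd sides `y`-edges -/
def KData.thick {m a b : ℕ} (_ : KData m a b) (i : ZMod (2 * m)) : ℕ := if i.val % 2 = 0 then a else b

/-- vertex groups -/
abbrev KData.VG {m a b : ℕ} (K : KData m a b) (i : ZMod (2 * m)) : Type := Multiplicative (ZMod (K.thick i))

namespace KData

variable {m a b : ℕ} (K : KData m a b)

/-- relation between the labels of two chambers sharing the side `i` -/
def Rel (i : ZMod (2 * m)) (w w' : Fin b × Fin a) : Prop :=
  if i.val % 2 = 0 then (K.kap i.val w).1 = (K.kap i.val w').1 else (K.kap i.val w).2 = (K.kap i.val w').2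

/-- developing data: a label (corner of `K`, the position of the base corner) for every chamber -/
structure Dev {Γ : Type} (B : Bldg (2 * m) Γ) (π : Γ → Fin b × Fin a) : Prop where
  rel : ∀ i c d, B.adj i c d → K.Rel i (π c) (π d)
  inj : ∀ i c d, B.adj i c d → π c = π d → c = d
  surj : ∀ i c w, K.Rel i (π c) w → ∃ d, B.adj i c d ∧ π d = w

/-- generators of the fundamental group -/
def gen (l : Fin b ⊕ Fin a) : K.Pi := PresentedGroup.of l

/-- product of the letters of the sides `1, …, k` -/
def wd (k : ℕ) (w : Fin b × Fin a) : K.Pi := ((List.range k).map (fun l => K.gen (K.ltr (l + 1) w))).prod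

/-- the letter leaving the corner `i` along the side `i + 1` -/
def fw (i : ZMod (2 * m)) (w : Fin b × Fin a) : Fin b ⊕ Fin a :=
  if i.val % 2 = 0 then Sum.inr (K.kap i.val w).2 else Sum.inl (K.kap i.val w).1

/-- the letter leaving the corner `i` along the side `i` -/
def bw (i : ZMod (2 * m)) (w : Fin b × Fin a) : Fin b ⊕ Fin a :=
  if i.val % 2 = 0 then Sum.inl (K.kap i.val w).1 else Sum.inr (K.kap i.val w).2

/-- the element of the fundamental group given by the corner `i` of the chamber `c`, if `Θ c` is the one of the base corner -/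
def cor {Γ : Type} (Θ : Γ → K.Pi) (π : Γ → Fin b × Fin a) (c : Γ) (i : ZMod (2 * m)) : K.Pi :=
  Θ c * K.wd i.val (π c)

end KData

end QFC
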