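import Mathlib
import Pool.Agent.QFC.Bldg
import Pool.Agent.QFC.BldgHyp
import Pool.Agent.QFC.Label

/-!
# A right-angled Fuchsian building covers every label system with the same parameters
-/

open scoped Classical

namespace QFC

namespace Bldg

variable {n : ℕ} {C : Type} (B : Bldg n C)

/-- `i` is a descent of `c` towards `x` -/
def Dsc (x : C) (i : ZMod n) (c : C) : Prop := B.σ (B.wall i c) c ≠ B.σ (B.wall i c) x

theorem adj_meet {i j : ZMod n} (h : TAdj i j) {c d : C} (h1 : B.adj i c d) (h2 : B.adj j c d) :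
    c = d := by
  by_contra hne
  have h3 := B.σ_ne h1 hne
  apply h3
  refine B.σ_eq h2 ?_
  intro h4
  have h5 : B.typ (B.wall i c) = B.typ (B.wall j c) := by rw [h4]
  rw [B.typ_wall, B.typ_wall] at h5
  exact tadj_ne B.hn h h5

theorem wall_adjH {i : ZMod n} {c d : C} (h : B.adj i c d) : B.wall i c = B.wall i d :=
  B.wall_eq h (Or.inl rfl)

theorem wall_adj' {i j : ZMod n} (hij : TAdj i j) {c d : C} (h : B.adj j c d) :
    B.wall i c = B.wall i d := B.wall_eq h (Or.inr hij)

theorem sheet_adj' {i j : ZMod n} (hij : i ≠ j) {c d : C} (h : B.adj j c d) :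
    B.σ (B.wall i c) c = B.σ (B.wall i c) d := by
  refine B.σ_eq h ?_
  intro h4
  have h5 : B.typ (B.wall i c) = B.typ (B.wall j c) := by rw [h4]
  rw [B.typ_wall, B.typ_wall] at h5
  exact hij h5

/-- the gate of a panel -/
theorem exists_gateH (x : C) (i : ZMod n) (c : C) : ∃ g, B.adj i c g ∧ ¬ B.Dsc x i g := by
  obtain ⟨g, h1, h2⟩ := B.gate (B.on_wall i c) x
  rw [B.typ_wall] at h1
  refine ⟨g, h1, ?_⟩
  unfold Dsc
  rw [not_not, ← B.wall_adjH h1]
  exact h2

theorem gate_uniqueH {x : C} {i : ZMod n} {g g' : C} (h : B.adj i g g') (h1 : ¬ B.Dsc x i g)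
    (h2 : ¬ B.Dsc x i g') : g = g' := by
  by_contra hne
  apply B.σ_ne h hne
  unfold Dsc at h1 h2
  rw [not_not] at h1 h2
  rw [← B.wall_adjH h] at h2
  rw [h1, h2]

theorem dist_of_gate {x : C} {i : ZMod n} {g d : C} (h : B.adj i g d) (hg : ¬ B.Dsc x i g)
    (hne : d ≠ g) : B.dist x d = B.dist x g + 1 := by
  unfold Dsc at hg
  rw [not_not] at hg
  rw [(B.dist_eq_ncard_sep x d).2, (B.dist_eq_ncard_sep x g).2]
  have h1 : B.Sep x d = insert (B.wall i g) (B.Sep x g) := by
    ext V
    rw [Set.mem_insert_iff]
    constructor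
    · intro hV
      by_cases hVT : V = B.wall i g
      · exact Or.inl hVT
      · right
        have := B.σ_eq h hVT
        show B.σ V x ≠ B.σ V g
        rw [this]
        exact hV
    · rintro (hV | hV)
      · subst hV
        show B.σ (B.wall i g) x ≠ B.σ (B.wall i g) d
        rw [← hg]
        exact B.σ_ne h hne.symm
      · have hVT : V ≠ B.wall i g := by
          rintro rfl
          exact hV hg.symm
        have := B.σ_eq h hVT
        show B.σ V x ≠ B.σ V d
        rw [← this]
        exact hV
  rw [h1, Set.ncard_insert_of_notMem _ (B.dist_eq_ncard_sep x g).1]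
  exact fun h2 => h2 hg.symm

/-- descents are pairwise adjacent -/
theorem two_desc {x : C} {i j : ZMod n} {c : C} (hij : i ≠ j) (hi : B.Dsc x i c)
    (hj : B.Dsc x j c) : TAdj i j := by
  have hne : B.wall i c ≠ B.wall j c := by
    intro h
    have h5 : B.typ (B.wall i c) = B.typ (B.wall j c) := by rw [h]
    rw [B.typ_wall, B.typ_wall] at h5
    exact hij h5
  by_contra hcon
  have hcr : ¬ B.Cross (B.wall i c) (B.wall j c) := by
    intro h
    have := h.1
    rw [B.typ_wall, B.typ_wall] at this
    exact hcon this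
  rcases B.nested hne hcr (B.on_wall i c) (B.on_wall j c) x with h | h
  · exact hi h.symm
  · exact hj h.symm

theorem desc_self {x : C} {i : ZMod n} {g d : C} (h : B.adj i g d) (hg : ¬ B.Dsc x i g)
    (hne : d ≠ g) : B.Dsc x i d := fun hd => hne (B.gate_uniqueH (B.adj_symm h) (not_not.2 hd) hg)

theorem desc_adj {x : C} {i j : ZMod n} (hij : TAdj i j) {g d : C} (h : B.adj i g d) :
    B.Dsc x j g ↔ B.Dsc x j d := by
  unfold Dsc
  have hne : j ≠ i := (tadj_ne B.hn hij).symm
  rw [← B.wall_adj' hij.symm h, ← B.sheet_adj' hne h]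

theorem dist_desc {x : C} {i : ZMod n} {c g : C} (hc : B.Dsc x i c) (h : B.adj i c g)
    (hg : ¬ B.Dsc x i g) : B.dist x c = B.dist x g + 1 :=
  B.dist_of_gate (B.adj_symm h) hg (fun h => hg (h ▸ hc))

/-- every chamber different from `x` has a descent -/
theorem exists_desc {x c : C} (h : c ≠ x) : ∃ i, B.Dsc x i c := by
  obtain ⟨k, hk⟩ := B.exists_wall_sep h
  exact ⟨k, hk⟩

/-- the gate square of a chamber with two descents -/
theorem gate_square {x : C} {i j : ZMod n} (hij : TAdj i j) {c gi gj : C} (hj : B.Dsc x j c)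
    (h1 : B.adj i c gi) (h2 : B.adj j c gj) (hgj : ¬ B.Dsc x j gj) :
    ∃ h, B.adj j gi h ∧ B.adj i h gj ∧ ¬ B.Dsc x j h ∧ B.Dsc x j gi := by
  have hjg : B.Dsc x j gi := (B.desc_adj hij h1).1 hj
  obtain ⟨h, hh1, hh2⟩ := B.exists_gateH x j gi
  obtain ⟨e, he1, he2⟩ := B.square hij (B.adj_symm h1) hh1
  have he3 : ¬ B.Dsc x j e := fun hd => hh2 ((B.desc_adj hij he2).2 hd)
  have he4 : e = gj := B.gate_uniqueH (B.adj_trans (B.adj_symm he1) h2) he3 hgj
  subst he4
  exact ⟨h, hh1, he2, hh2, hjg⟩

section Cover

variable {Ω : Type} (L : LabSys n B.q Ω) (x : C)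

/-- partial covering on the ball of radius `k` -/
def PCov (k : ℕ) (f : C → Ω) : Prop :=
  ∀ c d, B.dist x c ≤ k → B.dist x d ≤ k → ∀ i, B.adj i c d →
    L.R i (f c) (f d) ∧ (c ≠ d → f c ≠ f d)

/-- an injective map between panels -/
theorem exists_panel_map (i : ZMod n) (g : C) (ω : Ω) : ∃ β : C → Ω, β g = ω ∧
    (∀ d, B.adj i g d → L.R i ω (β d)) ∧
    ∀ d e, B.adj i g d → B.adj i g e → d ≠ e → β d ≠ β e := by
  have h1 : (B.panel i g).Finite := B.panel_finite i g
  have h2 : (B.panel i g).ncard = B.q i := B.card_panel i g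
  have h3 : {b | L.R i ω b}.ncard = B.q i := L.card i ω
  have h4 : {b | L.R i ω b}.Finite := by
    by_contra h
    have h5 : {b | L.R i ω b}.ncard = 0 := Set.Infinite.ncard h
    have h6 := B.q_ge i
    omega
  have hg : g ∈ B.panel i g := B.adj_refl i g
  have hω : ω ∈ {b | L.R i ω b} := (L.equiv i).refl ω
  have h5 : (B.panel i g \ {g}).ncard = ({b | L.R i ω b} \ {ω}).ncard := by
    rw [Set.ncard_sdiff_singleton_of_mem hg, Set.ncard_sdiff_singleton_of_mem hω, h2, h3]
  obtain ⟨e⟩ : Nonempty ((B.panel i g \ {g} : Set C) ≃ ({b | L.R i ω b} \ {ω} : Set Ω)) := by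
    have : Finite (B.panel i g \ {g} : Set C) := (h1.subset Set.sdiff_subset).to_subtype
    have : Finite ({b | L.R i ω b} \ {ω} : Set Ω) := (h4.subset Set.sdiff_subset).to_subtype
    exact (Finite.card_eq).1 (by
      rw [Nat.card_coe_set_eq, Nat.card_coe_set_eq]
      exact h5)
  refine ⟨fun d => if h : d ∈ B.panel i g \ {g} then (e ⟨d, h⟩ : Ω) else ω, ?_, ?_, ?_⟩
  · dsimp only
    rw [dif_neg]
    intro h
    exact h.2 rfl
  · intro d hd
    dsimp only
    by_cases h : d ∈ B.panel i g \ {g}
    · rw [dif_pos h]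
      exact (e ⟨d, h⟩).2.1
    · rw [dif_neg h]
      exact (L.equiv i).refl ω
  · intro d d' hd hd' hne
    by_cases h : d ∈ B.panel i g \ {g}
    · by_cases h' : d' ∈ B.panel i g \ {g}
      · simp only [dif_pos h, dif_pos h']
        intro heq
        have := e.injective (Subtype.ext heq)
        exact hne (congrArg Subtype.val this)
      · simp only [dif_pos h, dif_neg h']
        exact (e ⟨d, h⟩).2.2
    · by_cases h' : d' ∈ B.panel i g \ {g}
      · simp only [dif_neg h, dif_pos h']
        intro heq
        exact (e ⟨d', h'⟩).2.2 heq.symm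
      · exfalso
        have h1 : d = g := by
          by_contra h2
          exact h ⟨hd, h2⟩
        have h2 : d' = g := by
          by_contra h2
          exact h' ⟨hd', h2⟩
        exact hne (h1.trans h2.symm)

/-- Extension of a partial covering by one sphere. -/
theorem extend (k : ℕ) (f : C → Ω) (hf : B.PCov L x k f) :
    ∃ f' : C → Ω, B.PCov L x (k + 1) f' ∧ ∀ c, B.dist x c ≤ k → f' c = f c := by
  -- chosen panel maps
  choose β hβ1 hβ2 hβ3 using fun (i : ZMod n) (g : C) => B.exists_panel_map L i g (f g)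
  -- the values on the new sphere
  have hval : ∀ c, ∃ ω, B.dist x c = k + 1 →
      (∀ i g, B.Dsc x i c → B.adj i c g → ¬ B.Dsc x i g → L.R i (f g) ω) ∧
      (∀ i g, B.Dsc x i c → B.adj i c g → ¬ B.Dsc x i g →
        (∀ j, B.Dsc x j c → j = i) → ω = β i g c) := by
    intro c
    by_cases hc : B.dist x c = k + 1
    · have hcx : c ≠ x := by
        rintro rfl
        rw [B.dist_self] at hc
        omega
      obtain ⟨i, hi⟩ := B.exists_desc hcx
      obtain ⟨gi, hgi1, hgi2⟩ := B.exists_gateH x i c
      have hdi := B.dist_desc hi hgi1 hgi2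
      by_cases htwo : ∀ j, B.Dsc x j c → j = i
      · refine ⟨β i gi c, fun _ => ⟨?_, ?_⟩⟩
        · intro j g hj hjg hg
          have := htwo j hj
          subst this
          have hgg : gi = g := B.gate_uniqueH (B.adj_trans (B.adj_symm hgi1) hjg) hgi2 hg
          subst hgg
          exact hβ2 j gi c (B.adj_symm hgi1)
        · intro j g hj hjg hg _
          have := htwo j hj
          subst this
          have hgg : gi = g := B.gate_uniqueH (B.adj_trans (B.adj_symm hgi1) hjg) hgi2 hg
          subst hgg
          rfl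
      · push Not at htwo
        obtain ⟨j, hj, hji⟩ := htwo
        have hij : TAdj i j := B.two_desc hji.symm hi hj
        obtain ⟨gj, hgj1, hgj2⟩ := B.exists_gateH x j c
        have hdj := B.dist_desc hj hgj1 hgj2
        obtain ⟨h, hh1, hh2, hh3, hh4⟩ := B.gate_square hij hj hgi1 hgj1 hgj2
        have hdh := B.dist_desc hh4 hh1 hh3
        obtain ⟨ω, hω1, hω2⟩ := L.sq i j (f h) (f gj) (f gi) hij
          (hf h gj (by omega) (by omega) i hh2).1
          (hf h gi (by omega) (by omega) j (B.adj_symm hh1)).1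
        refine ⟨ω, fun _ => ⟨?_, ?_⟩⟩
        · intro l g hl hlg hg
          have hlij : l = i ∨ l = j := by
            by_contra hcon
            push Not at hcon
            exact no_triangle B.hn (B.two_desc hji.symm hi hj) (B.two_desc hcon.2.symm hj hl)
              (B.two_desc hcon.1.symm hi hl)
          rcases hlij with hl' | hl'
          · subst hl'
            have hgg : gi = g := B.gate_uniqueH (B.adj_trans (B.adj_symm hgi1) hlg) hgi2 hg
            subst hgg
            exact hω2
          · subst hl'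
            have hgg : gj = g := B.gate_uniqueH (B.adj_trans (B.adj_symm hgj1) hlg) hgj2 hg
            subst hgg
            exact hω1
        · intro l g hl hlg hg hall
          exfalso
          apply hji
          rw [hall j hj, hall i hi]
    · exact ⟨f c, fun h => absurd h hc⟩
  choose v hv using hval
  let f' : C → Ω := fun c => if B.dist x c = k + 1 then v c else f c
  have hf'1 : ∀ c, B.dist x c ≤ k → f' c = f c := by
    intro c hc
    show (if B.dist x c = k + 1 then v c else f c) = f c
    rw [if_neg (by omega)]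
  have hf'2 : ∀ c, B.dist x c = k + 1 → f' c = v c := by
    intro c hc
    show (if B.dist x c = k + 1 then v c else f c) = v c
    rw [if_pos hc]
  refine ⟨f', ?_, hf'1⟩
  -- injectivity on the panels at new gates
  have hS1 : ∀ i g d, B.dist x g = k → ¬ B.Dsc x i g → B.adj i g d → d ≠ g →
      L.R i (f g) (f' d) := by
    intro i g d hgk hg hd hne
    have hdk := B.dist_of_gate hd hg hne
    rw [hf'2 d (by omega)]
    exact (hv d (by omega)).1 i g (B.desc_self hd hg hne) (B.adj_symm hd) hg
  have hS2 : ∀ i g d, B.dist x g = k → ¬ B.Dsc x i g → B.adj i g d → d ≠ g →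
      f' d ≠ f g ∧ ∀ d', B.adj i g d' → d' ≠ g → d ≠ d' → f' d ≠ f' d' := by
    intro i g d hgk hg hd hne
    have hdk := B.dist_of_gate hd hg hne
    by_cases hadj : ∃ j, TAdj i j ∧ B.Dsc x j g
    · obtain ⟨j, hij, hj⟩ := hadj
      have hjd : B.Dsc x j d := (B.desc_adj hij hd).1 hj
      obtain ⟨e, he1, he2⟩ := B.exists_gateH x j d
      obtain ⟨h, hh1, hh2, hh3, hh4⟩ := B.gate_square hij hjd (B.adj_symm hd) he1 he2
      have hdh := B.dist_desc hj hh1 hh3
      have hde := B.dist_desc hjd he1 he2
      have hRj : L.R j (f e) (f' d) := by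
        rw [hf'2 d (by omega)]
        exact (hv d (by omega)).1 j e hjd he1 he2
      refine ⟨?_, ?_⟩
      · intro heq
        have h1 : L.R j (f e) (f h) := by
          rw [heq] at hRj
          exact (L.equiv j).trans hRj (hf g h (by omega) (by omega) j hh1).1
        have h2 := hf h e (by omega) (by omega) i hh2
        have h3 : f e = f h := L.meet i j (f e) (f h) hij ((L.equiv i).symm h2.1) h1
        by_cases h4 : h = e
        · subst h4
          have h5 : B.adj j d g := B.adj_trans he1 (B.adj_symm hh1)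
          exact hne (B.adj_meet hij (B.adj_symm hd) h5)
        · exact h2.2 h4 h3.symm
      · intro d' hd' hne' hdd heq
        have hdk' := B.dist_of_gate hd' hg hne'
        have hjd' : B.Dsc x j d' := (B.desc_adj hij hd').1 hj
        obtain ⟨e', he1', he2'⟩ := B.exists_gateH x j d'
        obtain ⟨h', hh1', hh2', hh3', hh4'⟩ := B.gate_square hij hjd' (B.adj_symm hd') he1' he2'
        have hhh : h = h' := B.gate_uniqueH (B.adj_trans (B.adj_symm hh1) hh1') hh3 hh3'
        subst hhh
        have hde' := B.dist_desc hjd' he1' he2'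
        have hRj' : L.R j (f e') (f' d') := by
          rw [hf'2 d' (by omega)]
          exact (hv d' (by omega)).1 j e' hjd' he1' he2'
        have h1 : L.R j (f e) (f e') := by
          rw [heq] at hRj
          exact (L.equiv j).trans hRj ((L.equiv j).symm hRj')
        have hee : B.adj i e e' := B.adj_trans (B.adj_symm hh2) hh2'
        have h2 := hf e e' (by omega) (by omega) i hee
        have h3 : f e = f e' := L.meet i j (f e) (f e') hij h2.1 h1
        have h4 : e = e' := by
          by_contra h5
          exact h2.2 h5 h3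
        subst h4
        exact hdd (B.adj_meet hij (B.adj_trans (B.adj_symm hd) hd')
          (B.adj_trans he1 (B.adj_symm he1')))
    · push Not at hadj
      have honly : ∀ d, B.adj i g d → d ≠ g → ∀ j, B.Dsc x j d → j = i := by
        intro d hd hne j hj
        by_contra hji
        have hij : TAdj i j := B.two_desc (fun h => hji h.symm) (B.desc_self hd hg hne) hj
        exact hadj j hij ((B.desc_adj hij hd).2 hj)
      have hvd : ∀ d, B.adj i g d → d ≠ g → f' d = β i g d := by
        intro d hd hne
        have hdk := B.dist_of_gate hd hg hne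
        rw [hf'2 d (by omega)]
        exact (hv d (by omega)).2 i g (B.desc_self hd hg hne) (B.adj_symm hd) hg
          (honly d hd hne)
      refine ⟨?_, ?_⟩
      · rw [hvd d hd hne, ← hβ1 i g]
        exact hβ3 i g d g hd (B.adj_refl i g) hne
      · intro d' hd' hne' hdd
        rw [hvd d hd hne, hvd d' hd' hne']
        exact hβ3 i g d d' hd hd' hdd
  -- the general statement
  have main : ∀ c d i, B.dist x c ≤ k + 1 → B.dist x d ≤ k + 1 → B.adj i c d → c ≠ d →
      L.R i (f' c) (f' d) ∧ f' c ≠ f' d := by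
    intro c d i hc hd hcd hne
    by_cases hck : B.dist x c ≤ k
    · by_cases hdk : B.dist x d ≤ k
      · rw [hf'1 c hck, hf'1 d hdk]
        have := hf c d hck hdk i hcd
        exact ⟨this.1, this.2 hne⟩
      · -- `c` is the gate
        have hcg : ¬ B.Dsc x i c := by
          intro hcd'
          obtain ⟨g, hg1, hg2⟩ := B.exists_gateH x i c
          have h1 := B.dist_desc hcd' hg1 hg2
          by_cases hdg : d = g
          · subst hdg
            omega
          · have h2 := B.dist_of_gate (B.adj_trans (B.adj_symm hg1) hcd) hg2 hdg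
            omega
        have h1 := B.dist_of_gate hcd hcg hne.symm
        rw [hf'1 c hck]
        exact ⟨hS1 i c d (by omega) hcg hcd hne.symm,
          ((hS2 i c d (by omega) hcg hcd hne.symm).1).symm⟩
    · by_cases hdk : B.dist x d ≤ k
      · have hdg : ¬ B.Dsc x i d := by
          intro hcd'
          obtain ⟨g, hg1, hg2⟩ := B.exists_gateH x i d
          have h1 := B.dist_desc hcd' hg1 hg2
          by_cases hcg : c = g
          · subst hcg
            omega
          · have h2 := B.dist_of_gate (B.adj_trans (B.adj_symm hg1) (B.adj_symm hcd)) hg2 hcg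
            omega
        have h1 := B.dist_of_gate (B.adj_symm hcd) hdg hne
        rw [hf'1 d hdk]
        exact ⟨(L.equiv i).symm (hS1 i d c (by omega) hdg (B.adj_symm hcd) hne),
          (hS2 i d c (by omega) hdg (B.adj_symm hcd) hne).1⟩
      · obtain ⟨g, hg1, hg2⟩ := B.exists_gateH x i c
        have hcg : c ≠ g := by
          rintro rfl
          have h1 := B.dist_of_gate hcd hg2 hne.symm
          omega
        have h1 := B.dist_of_gate (B.adj_symm hg1) hg2 hcg
        have hdg : d ≠ g := by
          rintro rfl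
          omega
        have hgd : B.adj i g d := B.adj_trans (B.adj_symm hg1) hcd
        refine ⟨(L.equiv i).trans ((L.equiv i).symm (hS1 i g c (by omega) hg2 (B.adj_symm hg1) hcg))
          (hS1 i g d (by omega) hg2 hgd hdg), ?_⟩
        exact (hS2 i g c (by omega) hg2 (B.adj_symm hg1) hcg).2 d hgd hdg hne
  intro c d hc hd i hcd
  by_cases hne : c = d
  · subst hne
    exact ⟨(L.equiv i).refl _, fun h => absurd rfl h⟩
  · exact ⟨(main c d i hc hd hcd hne).1, fun _ => (main c d i hc hd hcd hne).2⟩

/-- The covering theorem. -/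
theorem exists_cover (ω₀ : Ω) : ∃ f : C → Ω, f x = ω₀ ∧
    (∀ i c d, B.adj i c d → L.R i (f c) (f d)) ∧
    (∀ i c d, B.adj i c d → c ≠ d → f c ≠ f d) := by
  have h0 : B.PCov L x 0 (fun _ => ω₀) := by
    intro c d hc hd i hcd
    have h1 : x = c := B.dist_eq_zero (Nat.le_zero.1 hc)
    have h2 : x = d := B.dist_eq_zero (Nat.le_zero.1 hd)
    exact ⟨(L.equiv i).refl _, fun h => absurd (h1.symm.trans h2) h⟩
  choose ext hext1 hext2 using B.extend L x
  let F : ∀ k : ℕ, {f : C → Ω // B.PCov L x k f} := fun k =>
    Nat.rec ⟨fun _ => ω₀, h0⟩ (fun k f => ⟨ext k f.1 f.2, hext1 k f.1 f.2⟩) k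
  have hF : ∀ k c, B.dist x c ≤ k → (F (k + 1)).1 c = (F k).1 c := by
    intro k c hc
    exact hext2 k (F k).1 (F k).2 c hc
  have hF2 : ∀ k m c, B.dist x c ≤ k → k ≤ m → (F m).1 c = (F k).1 c := by
    intro k m c hc hkm
    induction m, hkm using Nat.le_induction with
    | base => rfl
    | succ m hkm ih => rw [hF m c (by omega), ih]
  let f : C → Ω := fun c => (F (B.dist x c)).1 c
  have hf : ∀ k c, B.dist x c ≤ k → f c = (F k).1 c := fun k c hc => (hF2 _ _ c le_rfl hc).symm
  refine ⟨f, ?_, ?_, ?_⟩
  · show (F (B.dist x x)).1 x = ω₀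
    rw [B.dist_self]
    rfl
  · intro i c d hcd
    rw [hf (max (B.dist x c) (B.dist x d)) c (le_max_left _ _),
      hf (max (B.dist x c) (B.dist x d)) d (le_max_right _ _)]
    exact ((F _).2 c d (le_max_left _ _) (le_max_right _ _) i hcd).1
  · intro i c d hcd hne
    rw [hf (max (B.dist x c) (B.dist x d)) c (le_max_left _ _),
      hf (max (B.dist x c) (B.dist x d)) d (le_max_right _ _)]
    exact ((F _).2 c d (le_max_left _ _) (le_max_right _ _) i hcd).2 hne

end Cover

end Bldg

end QFC
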