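import Pool.Agent.QFC.Hyp

/-! # D1 : discrete geodesics, slim triangles, exponential divergence -/

namespace QFC

variable {X Y : Type} {d : X → X → ℕ} {δ : ℕ}

/-- a sequence with steps of size at most one is 1-Lipschitz -/
theorem d1_lip (hd : GeoSp d) {γ : ℕ → X} (h : ∀ i, d (γ i) (γ (i + 1)) ≤ 1) :
    ∀ i j, i ≤ j → d (γ i) (γ j) ≤ j - i := by
  intro i j hij
  obtain ⟨k, rfl⟩ := Nat.exists_eq_add_of_le hij
  clear hij
  induction k with
  | zero => simp [hd.self]
  | succ k ih =>
    have h1 := hd.tri (γ i) (γ (i + k)) (γ (i + (k + 1)))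
    have h2 : d (γ (i + k)) (γ (i + (k + 1))) ≤ 1 := h (i + k)
    omega

theorem d1_full (hd : GeoSp d) {x y : X} {γ : ℕ → X} (h0 : γ 0 = x) (h1 : ∀ i, d x y ≤ i → γ i = y)
    (h : ∀ i, d (γ i) (γ (i + 1)) ≤ 1) :
    (∀ i j, i ≤ j → j ≤ d x y → d (γ i) (γ j) = j - i) ∧ (∀ i j, i ≤ j → d (γ i) (γ j) ≤ j - i) := by
  have hl := d1_lip hd h
  refine ⟨fun i j hij hj => ?_, hl⟩
  have a1 := hl i j hij
  have a2 := hl 0 i (by omega)
  have a3 := hl j (d x y) hj
  rw [h0] at a2
  rw [h1 _ le_rfl] at a3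
  have b1 := hd.tri x (γ i) y
  have b2 := hd.tri (γ i) (γ j) y
  omega

theorem d1_exists_path (hd : GeoSp d) (n : ℕ) : ∀ x y : X, d x y = n → ∃ γ : ℕ → X, γ 0 = x ∧ (∀ i, n ≤ i → γ i = y) ∧
    ∀ i, d (γ i) (γ (i + 1)) ≤ 1 := by
  induction n with
  | zero =>
    intro x y h
    have := hd.eq h
    subst this
    exact ⟨fun _ => x, rfl, fun _ _ => rfl, fun _ => by simp [hd.self]⟩
  | succ n ih =>
    intro x y h
    obtain ⟨z, hz1, hz2⟩ := hd.geo x y 1 (by omega)
    obtain ⟨γ, g0, g1, g2⟩ := ih z y (by omega)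
    refine ⟨fun i => if i = 0 then x else γ (i - 1), by simp, fun i hi => ?_, fun i => ?_⟩
    · have : i ≠ 0 := by omega
      simp only [this, if_false]
      exact g1 _ (by omega)
    · by_cases hi : i = 0
      · subst hi
        simp [g0, hz1]
      · obtain ⟨k, rfl⟩ : ∃ k, i = k + 1 := ⟨i - 1, by omega⟩
        simpa using g2 k

/-- discrete geodesics between two points: by induction on `d x y` (`geo` with `k = d x y - 1` gives the last but one point). Beyond the index `d x y` the sequence is constant `y`. -/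
theorem GeoSp.exists_geodesic (hd : GeoSp d) (x y : X) : ∃ γ : ℕ → X, γ 0 = x ∧ (∀ i, d x y ≤ i → γ i = y) ∧
    (∀ i j, i ≤ j → j ≤ d x y → d (γ i) (γ j) = j - i) ∧ (∀ i j, i ≤ j → d (γ i) (γ j) ≤ j - i) := by
  obtain ⟨γ, g0, g1, g2⟩ := d1_exists_path hd _ x y rfl
  exact ⟨γ, g0, g1, d1_full hd g0 g1 g2⟩

/-- concatenation: a geodesic through a point between the end points -/
theorem GeoSp.exists_geodesic_through (hd : GeoSp d) {x y p : X} (hp : d x p + d p y = d x y) : ∃ γ : ℕ → X,
    γ 0 = x ∧ γ (d x p) = p ∧ (∀ i, d x y ≤ i → γ i = y) ∧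
    (∀ i j, i ≤ j → j ≤ d x y → d (γ i) (γ j) = j - i) ∧ (∀ i j, i ≤ j → d (γ i) (γ j) ≤ j - i) := by
  obtain ⟨γ, g0, g1, g2⟩ := d1_exists_path hd _ x p rfl
  obtain ⟨γ', g0', g1', g2'⟩ := d1_exists_path hd _ p y rfl
  have k0 : (fun i => if i ≤ d x p then γ i else γ' (i - d x p)) 0 = x := by simp [g0]
  have k1 : ∀ i, d x y ≤ i → (fun i => if i ≤ d x p then γ i else γ' (i - d x p)) i = y := by
    intro i hi
    by_cases hc : i ≤ d x p
    · simp only [hc, if_true]
      rw [g1 i (by omega)]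
      exact hd.eq (by omega)
    · simp only [hc, if_false]
      exact g1' _ (by omega)
  have k2 : ∀ i, d ((fun i => if i ≤ d x p then γ i else γ' (i - d x p)) i) ((fun i => if i ≤ d x p then γ i else γ' (i - d x p)) (i + 1)) ≤ 1 := by
    intro i
    by_cases hc : i + 1 ≤ d x p
    · have : i ≤ d x p := by omega
      simp only [hc, this, if_true]
      exact g2 i
    · by_cases hc' : i ≤ d x p
      · have hi : i = d x p := by omega
        simp only [hc, hc', if_true, if_false]
        have e : i + 1 - d x p = 0 + 1 := by omega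
        rw [e, g1 i (by omega)]
        have := g2' 0
        rw [g0'] at this
        exact this
      · simp only [hc, hc', if_false]
        have e : i + 1 - d x p = (i - d x p) + 1 := by omega
        rw [e]
        exact g2' _
  refine ⟨(fun i => if i ≤ d x p then γ i else γ' (i - d x p)), k0, ?_, k1, d1_full hd k0 k1 k2⟩
  simp only [le_refl, if_true]
  exact g1 _ le_rfl

/-- four-point for `(x, y, z, p)`: `d x y + d z p ≤ max (d x z + d y p) (d x p + d y z) + δ`. First case: `d x p + d p z ≤ d x z + δ`. Take `q` between `x, z` with `d x q = min (d x p) (d x z)`. If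
`d x p ≤ d x z`: four-point for `(p, q, x, z)`: `d p q + d x z ≤ max (d p x + d q z) (d p z + d q x) + δ ≤ d x z + 2 δ`. If `d x p > d x z`: `q = z`, `d p z ≤ δ`. Second case: symmetric with `y`. -/
theorem slim (hd : GeoSp d) (h4 : FourPt d δ) {x y p : X} (z : X) (hp : d x p + d p y = d x y) :
    ∃ q, d p q ≤ 2 * δ ∧ (d x q + d q z = d x z ∨ d z q + d q y = d z y) := by
  have h := h4 x y z p
  rcases le_total (d x p + d y z) (d x z + d y p) with hm | hm
  · rw [max_eq_left hm] at h
    have c1 := hd.comm y p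
    have c2 := hd.comm z p
    by_cases hc : d x p ≤ d x z
    · obtain ⟨q, q1, q2⟩ := hd.geo x z (d x p) hc
      refine ⟨q, ?_, Or.inl (by omega)⟩
      have h' := h4 p q x z
      have c3 := hd.comm p x
      have c4 := hd.comm q x
      rcases le_total (d p z + d q x) (d p x + d q z) with hm' | hm'
      · rw [max_eq_left hm'] at h'
        omega
      · rw [max_eq_right hm'] at h'
        omega
    · refine ⟨z, by omega, Or.inl ?_⟩
      have := hd.self z
      omega
  · rw [max_eq_right hm] at h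
    have c1 := hd.comm y z
    have c2 := hd.comm z p
    have c5 := hd.comm y p
    by_cases hc : d p y ≤ d z y
    · obtain ⟨q, q1, q2⟩ := hd.geo y z (d p y) (by omega)
      have c6 := hd.comm q z
      have c7 := hd.comm q y
      refine ⟨q, ?_, Or.inr (by omega)⟩
      have h' := h4 p q y z
      rcases le_total (d p z + d q y) (d p y + d q z) with hm' | hm'
      · rw [max_eq_left hm'] at h'
        omega
      · rw [max_eq_right hm'] at h'
        omega
    · refine ⟨z, by omega, Or.inr ?_⟩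
      have := hd.self z
      omega

/-- Induction on `k` (for all `γ`, `p`). `k = 0`: `d p (γ 0) ≤ d (γ 0) (γ 1) ≤ L`. Step: `slim` with `z = γ (2 ^ k)`; the point `q` is between `γ 0, γ (2^k)` or between `γ (2^k), γ (2^(k+1))` (shift `γ`). -/
theorem exp_div (hd : GeoSp d) (h4 : FourPt d δ) {L : ℕ} (γ : ℕ → X) (hγ : ∀ i, d (γ i) (γ (i + 1)) ≤ L) (k : ℕ)
    {p : X} (hp : d (γ 0) p + d p (γ (2 ^ k)) = d (γ 0) (γ (2 ^ k))) :
    ∃ i ≤ 2 ^ k, d p (γ i) ≤ 2 * δ * k + L := by
  induction k generalizing γ p with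
  | zero =>
    refine ⟨0, by omega, ?_⟩
    have h1 := hγ 0
    have h2 := hd.comm (γ 0) p
    simp only [pow_zero] at hp
    simp only [zero_add] at h1
    omega
  | succ k ih =>
    obtain ⟨q, hq, hq'⟩ := slim hd h4 (γ (2 ^ k)) hp
    have e : 2 * δ * (k + 1) = 2 * δ * k + 2 * δ := by ring
    have e2 : 2 ^ (k + 1) = 2 ^ k + 2 ^ k := by ring
    rcases hq' with hq' | hq'
    · obtain ⟨i, hi, hi'⟩ := ih γ hγ hq'
      refine ⟨i, by omega, ?_⟩
      have := hd.tri p q (γ i)
      omega
    · obtain ⟨i, hi, hi'⟩ := ih (fun t => γ (2 ^ k + t)) (fun t => hγ (2 ^ k + t)) (p := q) (by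
        simp only [add_zero, ← e2]
        exact hq')
      refine ⟨2 ^ k + i, by omega, ?_⟩
      have := hd.tri p q (γ (2 ^ k + i))
      omega

end QFC
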