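import Pool.Agent.QFC.D1

/-! # D2 : the Morse lemma, first half: a geodesic is close to a quasi-geodesic -/

namespace QFC

variable {X : Type} {d : X → X → ℕ} {δ : ℕ}

/-- A linear function of `Δ` is dominated by an exponential: `Δ ≤ 2 δ k + L` and `2 ^ (k - 1) ≤ A Δ + B` (`k ≥ 1`) bound `Δ`. (Used with `k` = the least number such that `2 ^ k ≥ A Δ + B`, i.e. `Nat.clog 2 (A Δ + B)`.) -/
theorem log_bound (δ L A B : ℕ) : ∃ R : ℕ, ∀ Δ : ℕ, Δ ≤ 2 * δ * Nat.clog 2 (A * Δ + B) + L → Δ ≤ R := by
  refine ⟨2 * δ * (2 * (A * (2 * δ) * 2 + A * L + B) + 2) + L, fun Δ h => ?_⟩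
  have hk : Nat.clog 2 (A * Δ + B) ≤ 2 * (A * (2 * δ) * 2 + A * L + B) + 2 := by
    by_contra hcon
    push Not at hcon
    generalize hkk : Nat.clog 2 (A * Δ + B) = k at h hcon
    have h1 : 1 < A * Δ + B := by
      by_contra h2
      push Not at h2
      have : Nat.clog 2 (A * Δ + B) = 0 := Nat.clog_of_right_le_one h2 2
      omega
    have h3 : 2 ^ (k - 1) < A * Δ + B := by
      have := Nat.pow_pred_clog_lt_self (b := 2) (by norm_num) h1
      rw [hkk] at this
      simpa using this
    have h4 : k - 1 = (k - 1) / 2 + ((k - 1) - (k - 1) / 2) := by omega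
    have h5 : 2 ^ (k - 1) = 2 ^ ((k - 1) / 2) * 2 ^ ((k - 1) - (k - 1) / 2) := by
      rw [← pow_add, ← h4]
    have h6 : (k - 1) / 2 + 1 ≤ 2 ^ ((k - 1) / 2) := Nat.lt_two_pow_self
    have h7 : (k - 1) / 2 + 1 ≤ 2 ^ ((k - 1) - (k - 1) / 2) := by
      have : ((k - 1) - (k - 1) / 2) < 2 ^ ((k - 1) - (k - 1) / 2) := Nat.lt_two_pow_self
      omega
    have h8 : k ≤ 2 * ((k - 1) / 2 + 1) := by omega
    generalize hm : (k - 1) / 2 + 1 = m at h6 h7 h8
    have h9 : m * m ≤ 2 ^ (k - 1) := by
      rw [h5]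
      exact Nat.mul_le_mul h6 h7
    have h10 : A * Δ + B ≤ m * (A * (2 * δ) * 2 + A * L + B) := by
      have hm1 : 1 ≤ m := by omega
      calc A * Δ + B ≤ A * (2 * δ * k + L) + B := by gcongr
        _ ≤ A * (2 * δ * (2 * m) + L) + B := by gcongr
        _ = m * (A * (2 * δ) * 2) + 1 * (A * L + B) := by ring
        _ ≤ m * (A * (2 * δ) * 2) + m * (A * L + B) := by gcongr
        _ = m * (A * (2 * δ) * 2 + A * L + B) := by ring
    have h11 : A * (2 * δ) * 2 + A * L + B ≤ m := by omega
    have h12 : m * (A * (2 * δ) * 2 + A * L + B) ≤ m * m := Nat.mul_le_mul_left _ h11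
    omega
  calc Δ ≤ 2 * δ * Nat.clog 2 (A * Δ + B) + L := h
    _ ≤ 2 * δ * (2 * (A * (2 * δ) * 2 + A * L + B) + 2) + L := by gcongr

/-- a path with steps of size at most `L` from `x` to `y`, of length `M`, all of whose points satisfy `P` -/
def D2Path (d : X → X → ℕ) (P : X → Prop) (L : ℕ) (x y : X) (M : ℕ) : Prop :=
  ∃ β : ℕ → X, β 0 = x ∧ (∀ i, M ≤ i → β i = y) ∧ (∀ i, d (β i) (β (i + 1)) ≤ L) ∧ ∀ i, P (β i)

theorem d2_concat {P : X → Prop} {L : ℕ} {x y z : X} {M M' : ℕ} (h : D2Path d P L x y M) (h' : D2Path d P L y z M') :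
    D2Path d P L x z (M + M') := by
  obtain ⟨β, h0, h1, h2, h3⟩ := h
  obtain ⟨β', h0', h1', h2', h3'⟩ := h'
  refine ⟨fun i => if i ≤ M then β i else β' (i - M), by simp [h0], ?_, ?_, ?_⟩
  · intro i hi
    by_cases hc : i ≤ M
    · have hM' : M' = 0 := by omega
      have hi' : i = M := by omega
      simp only [hc, if_true]
      rw [hi', h1 M le_rfl, ← h0']
      exact h1' 0 (by omega)
    · simp only [hc, if_false]
      exact h1' _ (by omega)
  · intro i
    by_cases hc : i + 1 ≤ M
    · have : i ≤ M := by omega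
      simp only [hc, this, if_true]
      exact h2 i
    · by_cases hc' : i ≤ M
      · have : i = M := by omega
        subst this
        simp only [le_refl, hc, if_true, if_false]
        rw [h1 i le_rfl, ← h0']
        have := h2' 0
        simpa using this
      · simp only [hc, hc', if_false]
        have : i + 1 - M = (i - M) + 1 := by omega
        rw [this]
        exact h2' _
  · intro i
    by_cases hc : i ≤ M
    · simp only [hc, if_true]
      exact h3 i
    · simp only [hc, if_false]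
      exact h3' _

theorem d2_mono {P : X → Prop} {L : ℕ} {x y : X} {M M' : ℕ} (h : D2Path d P L x y M) (hM : M ≤ M') :
    D2Path d P L x y M' := by
  obtain ⟨β, h0, h1, h2, h3⟩ := h
  exact ⟨β, h0, fun i hi => h1 i (by omega), h2, h3⟩

/-- the detour path. -/
theorem exists_detour (hd : GeoSp d) {K N Δ : ℕ} {γ : ℕ → X}
    (hγ : ∀ i ≤ N, ∀ j ≤ N, i ≤ j → d (γ i) (γ j) ≤ K * (j - i) + K ∧ j - i ≤ K * d (γ i) (γ j) + K)
    (hmax : ∀ p', d (γ 0) p' + d p' (γ N) = d (γ 0) (γ N) → ∃ i ≤ N, d p' (γ i) ≤ Δ)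
    {p : X} (hp : d (γ 0) p + d p (γ N) = d (γ 0) (γ N)) (hmin : ∀ i ≤ N, Δ ≤ d p (γ i)) :
    ∃ (β : ℕ → X) (M : ℕ), M ≤ (6 * K + 2) * Δ + K + 2 ∧ (∀ i, d (β i) (β (i + 1)) ≤ 2 * K + 1) ∧
      (∀ i, M ≤ i → β i = β M) ∧ d (β 0) p + d p (β M) = d (β 0) (β M) ∧ ∀ i, Δ ≤ d p (β i) := by
  have hcomm := hd.comm
  have htri := hd.tri
  -- the point y
  obtain ⟨y, hy1, hy2⟩ := hd.geo (γ 0) p (d (γ 0) p - min (2 * Δ) (d (γ 0) p)) (by omega)
  obtain ⟨y', hy1', hy2'⟩ := hd.geo p (γ N) (min (2 * Δ) (d p (γ N))) (by omega)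
  have hybet : d (γ 0) y + d y (γ N) = d (γ 0) (γ N) := by
    have h1 := htri (γ 0) y (γ N)
    have h2 := htri y p (γ N)
    omega
  have hybet' : d (γ 0) y' + d y' (γ N) = d (γ 0) (γ N) := by
    have h1 := htri (γ 0) y' (γ N)
    have h2 := htri (γ 0) p y'
    omega
  have hpbet : d y p + d p y' = d y y' := by
    have h1 := htri y p y'
    have h2 := htri (γ 0) y (γ N)
    have h3 := htri y y' (γ N)
    omega
  have hi : ∃ i ≤ N, d y (γ i) ≤ Δ ∧ (y = γ i ∨ d y p = 2 * Δ) := by
    by_cases hc : y = γ 0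
    · exact ⟨0, by omega, by rw [hc, hd.self]; omega, Or.inl hc⟩
    · obtain ⟨i, hi, hi'⟩ := hmax y hybet
      refine ⟨i, hi, hi', Or.inr ?_⟩
      have : d (γ 0) y ≠ 0 := fun h => hc (hd.eq h).symm
      omega
  have hj : ∃ j ≤ N, d y' (γ j) ≤ Δ ∧ (y' = γ j ∨ d p y' = 2 * Δ) := by
    by_cases hc : y' = γ N
    · exact ⟨N, le_rfl, by rw [hc, hd.self]; omega, Or.inl hc⟩
    · obtain ⟨i, hi, hi'⟩ := hmax y' hybet'
      refine ⟨i, hi, hi', Or.inr ?_⟩
      have : d y' (γ N) ≠ 0 := fun h => hc (hd.eq h)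
      omega
  obtain ⟨i, hiN, hi1, hi2⟩ := hi
  obtain ⟨j, hjN, hj1, hj2⟩ := hj
  have hij : d (γ i) (γ j) ≤ 6 * Δ := by
    have h1 := htri (γ i) y (γ j)
    have h2 := htri y p (γ j)
    have h3 := htri p y' (γ j)
    have h4 := hcomm (γ i) y
    omega
  -- first part
  have P1 : D2Path d (fun z => Δ ≤ d p z) (2 * K + 1) y (γ i) Δ := by
    obtain ⟨g, hg0, hg1, hg2, hg3⟩ := hd.exists_geodesic y (γ i)
    have hgd : ∀ t, d y (g t) ≤ d y (γ i) := by
      intro t
      by_cases ht : t ≤ d y (γ i)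
      · have := hg2 0 t (by omega) ht
        rw [hg0] at this
        omega
      · rw [hg1 t (by omega)]
    refine ⟨g, hg0, fun t ht => hg1 t (by omega), fun t => ?_, fun t => ?_⟩
    · have := hg3 t (t + 1) (by omega)
      omega
    · rcases hi2 with h | h
      · have h0 : d y (γ i) = 0 := by rw [← h]; exact hd.self y
        rw [hg1 t (by omega)]
        exact hmin i hiN
      · have h1 := htri y (g t) p
        have h2 := hcomm (g t) p
        have h3 := hgd t
        show Δ ≤ d p (g t)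
        omega
  have P3 : D2Path d (fun z => Δ ≤ d p z) (2 * K + 1) (γ j) y' Δ := by
    obtain ⟨g, hg0, hg1, hg2, hg3⟩ := hd.exists_geodesic (γ j) y'
    have hjc := hcomm (γ j) y'
    have hgd : ∀ t, d (g t) y' ≤ d (γ j) y' := by
      intro t
      by_cases ht : t ≤ d (γ j) y'
      · have := hg2 t _ ht le_rfl
        rw [hg1 _ le_rfl] at this
        omega
      · rw [hg1 t (by omega), hd.self]
        omega
    refine ⟨g, hg0, fun t ht => hg1 t (by omega), fun t => ?_, fun t => ?_⟩
    · have := hg3 t (t + 1) (by omega)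
      omega
    · rcases hj2 with h | h
      · have h0 : d (γ j) y' = 0 := by rw [← h]; exact hd.self y'
        rw [hg1 t (by omega), h]
        exact hmin j hjN
      · have h1 := htri p (g t) y'
        have h3 := hgd t
        show Δ ≤ d p (g t)
        omega
  have P2 : D2Path d (fun z => Δ ≤ d p z) (2 * K + 1) (γ i) (γ j) (K * (6 * Δ) + K) := by
    have hstep : ∀ l, l + 1 ≤ N → d (γ l) (γ (l + 1)) ≤ 2 * K := by
      intro l hl
      have := (hγ l (by omega) (l + 1) hl (by omega)).1
      have h1 : l + 1 - l = 1 := by omega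
      rw [h1] at this
      omega
    rcases le_total i j with hle | hle
    · have h1 := (hγ i hiN j hjN hle).2
      have h2 : j - i ≤ K * (6 * Δ) + K := by
        have : K * d (γ i) (γ j) ≤ K * (6 * Δ) := Nat.mul_le_mul_left _ hij
        omega
      refine ⟨fun t => γ (min (i + t) j), by simp [hle], fun t ht => ?_, fun t => ?_, fun t => ?_⟩
      · have : min (i + t) j = j := by omega
        simp only [this]
      · by_cases ht : i + t + 1 ≤ j
        · have e1 : min (i + t) j = i + t := by omega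
          have e2 : min (i + (t + 1)) j = i + t + 1 := by omega
          simp only [e1, e2]
          have := hstep (i + t) (by omega)
          omega
        · have e1 : min (i + t) j = j := by omega
          have e2 : min (i + (t + 1)) j = j := by omega
          simp only [e1, e2, hd.self]
          omega
      · exact hmin _ (by omega)
    · have h1 := (hγ j hjN i hiN hle).2
      have h2 : i - j ≤ K * (6 * Δ) + K := by
        have : K * d (γ j) (γ i) ≤ K * (6 * Δ) := Nat.mul_le_mul_left _ (by rw [hcomm]; exact hij)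
        omega
      refine ⟨fun t => γ (max (i - t) j), by simp [hle], fun t ht => ?_, fun t => ?_, fun t => ?_⟩
      · have : max (i - t) j = j := by omega
        simp only [this]
      · by_cases ht : j + t + 1 ≤ i
        · have e1 : max (i - t) j = i - (t + 1) + 1 := by omega
          have e2 : max (i - (t + 1)) j = i - (t + 1) := by omega
          simp only [e1, e2]
          have := hstep (i - (t + 1)) (by omega)
          rw [hcomm]
          omega
        · have e1 : max (i - t) j = j := by omega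
          have e2 : max (i - (t + 1)) j = j := by omega
          simp only [e1, e2, hd.self]
          omega
      · exact hmin _ (by omega)
  obtain ⟨β, hb0, hb1, hb2, hb3⟩ := d2_concat (d2_concat P1 P2) P3
  refine ⟨β, Δ + (K * (6 * Δ) + K) + Δ, ?_, hb2, fun t ht => ?_, ?_, hb3⟩
  · have : (6 * K + 2) * Δ + K + 2 = Δ + (K * (6 * Δ) + K) + Δ + 2 := by ring
    omega
  · rw [hb1 t ht, hb1 _ le_rfl]
  · rw [hb0, hb1 _ le_rfl]
    exact hpbet

end QFC
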