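import Pool.Agent.QFC.D2

/-! # D2b : the Morse lemma, first half -/

namespace QFC

variable {X Y : Type} {d : X → X → ℕ} {δ : ℕ}

/-- Choose `p` between `γ 0` and `γ N` maximizing `f p = min_{i ≤ N} d p (γ i)` (`f ≤ d (γ 0) (γ N)`, so the maximum exists), `Δ = f p`. `exists_detour`, `exp_div` for `β` with `2 ^ k ≥ M`, `k = clog 2 ((6 K + 2) Δ + K + 2)`:
`Δ ≤ 2 δ k + (2 K + 1)`; `log_bound` gives `R`. -/
theorem exists_morse (K : ℕ) (δ : ℕ) : ∃ R : ℕ, ∀ (X : Type) (d : X → X → ℕ), GeoSp d → FourPt d δ →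
    ∀ (N : ℕ) (γ : ℕ → X), (∀ i ≤ N, ∀ j ≤ N, i ≤ j → d (γ i) (γ j) ≤ K * (j - i) + K ∧ j - i ≤ K * d (γ i) (γ j) + K) →
    ∀ p, d (γ 0) p + d p (γ N) = d (γ 0) (γ N) → ∃ i ≤ N, d p (γ i) ≤ R := by
  obtain ⟨R, hR⟩ := log_bound δ (2 * K + 1) (6 * K + 2) (K + 2)
  refine ⟨R, fun X d hd h4 N γ hγ p₀ hp₀ => ?_⟩
  classical
  let Good : ℕ → Prop := fun D => ∃ p, d (γ 0) p + d p (γ N) = d (γ 0) (γ N) ∧ ∀ i ≤ N, D ≤ d p (γ i)
  have hG0 : Good 0 := ⟨γ 0, by rw [hd.self]; omega, fun _ _ => Nat.zero_le _⟩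
  have hGb : ∀ D, Good D → D ≤ d (γ 0) (γ N) := by
    rintro D ⟨p, hp1, hp2⟩
    have h1 := hp2 0 (Nat.zero_le _)
    have h2 := hd.comm p (γ 0)
    omega
  let Δ := Nat.findGreatest Good (d (γ 0) (γ N))
  have hGΔ : Good Δ := Nat.findGreatest_spec (Nat.zero_le _) hG0
  have hmax : ∀ p', d (γ 0) p' + d p' (γ N) = d (γ 0) (γ N) → ∃ i ≤ N, d p' (γ i) ≤ Δ := by
    intro p' hp'
    by_contra hcon
    push Not at hcon
    have hG : Good (Δ + 1) := ⟨p', hp', fun i hi => hcon i hi⟩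
    have h2 : Δ + 1 ≤ Δ := Nat.le_findGreatest (hGb _ hG) hG
    omega
  obtain ⟨p, hp, hmin⟩ := hGΔ
  have hΔ : Δ ≤ R := by
    obtain ⟨β, M, hM, hb1, hb2, hb3, hb4⟩ := exists_detour hd hγ hmax hp hmin
    apply hR
    have hk : M ≤ 2 ^ (Nat.clog 2 ((6 * K + 2) * Δ + (K + 2))) := by
      refine le_trans hM ?_
      have := Nat.le_pow_clog (b := 2) (by norm_num) ((6 * K + 2) * Δ + (K + 2))
      omega
    have hb5 := hb2 _ hk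
    obtain ⟨i, -, hi⟩ := exp_div hd h4 (L := 2 * K + 1) β hb1 (Nat.clog 2 ((6 * K + 2) * Δ + (K + 2))) (p := p) (by rw [hb5]; exact hb3)
    exact le_trans (hb4 i) hi
  obtain ⟨i, hi, hi'⟩ := hmax p₀ hp₀
  exact ⟨i, hi, le_trans hi' hΔ⟩

end QFC
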