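import Pool.Agent.QFC.D2b

/-! # D3 : the Morse lemma, second half; quasi-isometry invariance of the four-point condition -/

namespace QFC

variable {X Y : Type} {d : X → X → ℕ} {δ : ℕ}

/-- A point of the quasi-geodesic is close to a point between its end points. Let `R₀` be the constant of `exists_morse`, `p 0 = γ 0, …, p L = γ N` a geodesic (`exists_geodesic`, `L = d (γ 0) (γ N)`); for `t ≤ L` choose `l t ≤ N` with
`d (p t) (γ (l t)) ≤ R₀`, `l 0 = 0`, `l L = N`. `|l (t+1) - l t| ≤ K (2 R₀ + 1) + K`. Given `i ≤ N`, let `t` be the first index with `i ≤ l t`; then `t = 0` (so `i = 0`) or `l (t-1) < i ≤ l t`, so `|i - l t| ≤ K (2 R₀ + 1) + K` and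
`d (p t) (γ i) ≤ R₀ + K (K (2 R₀ + 1) + K) + K =: R`. -/
theorem exists_morse' (K : ℕ) (δ : ℕ) : ∃ R : ℕ, ∀ (X : Type) (d : X → X → ℕ), GeoSp d → FourPt d δ →
    ∀ (N : ℕ) (γ : ℕ → X), (∀ i ≤ N, ∀ j ≤ N, i ≤ j → d (γ i) (γ j) ≤ K * (j - i) + K ∧ j - i ≤ K * d (γ i) (γ j) + K) →
    ∀ i ≤ N, ∃ p, d (γ 0) p + d p (γ N) = d (γ 0) (γ N) ∧ d p (γ i) ≤ R := by
  obtain ⟨R₀, hR₀⟩ := exists_morse K δ
  refine ⟨R₀ + (K * (K * (2 * R₀ + 1) + K) + K), fun X d hd h4 N γ hγ i hi => ?_⟩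
  have hm := hR₀ X d hd h4 N γ hγ
  obtain ⟨g, g0, g1, g2, g3⟩ := hd.exists_geodesic (γ 0) (γ N)
  have hbet : ∀ t, t ≤ d (γ 0) (γ N) → d (γ 0) (g t) + d (g t) (γ N) = d (γ 0) (γ N) := by
    intro t ht
    have h1 := g2 0 t (by omega) ht
    have h2 := g2 t _ ht le_rfl
    rw [g0] at h1
    rw [g1 _ le_rfl] at h2
    omega
  have hl : ∀ t, ∃ l, t ≤ d (γ 0) (γ N) → l ≤ N ∧ d (g t) (γ l) ≤ R₀ ∧ (t = 0 → l = 0) ∧ (t ≠ 0 → t = d (γ 0) (γ N) → l = N) := by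
    intro t
    by_cases h0 : t = 0
    · refine ⟨0, fun _ => ⟨by omega, ?_, fun _ => rfl, fun h => absurd h0 h⟩⟩
      rw [h0, g0, hd.self]
      omega
    · by_cases hN : t = d (γ 0) (γ N)
      · refine ⟨N, fun _ => ⟨le_rfl, ?_, fun h => absurd h h0, fun _ _ => rfl⟩⟩
        rw [g1 t (by omega), hd.self]
        omega
      · by_cases ht : t ≤ d (γ 0) (γ N)
        · obtain ⟨l, hl, hl'⟩ := hm _ (hbet t ht)
          exact ⟨l, fun _ => ⟨hl, hl', fun h => absurd h h0, fun _ h => absurd h hN⟩⟩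
        · exact ⟨0, fun h => absurd h ht⟩
  choose l hl using hl
  have hstep : ∀ t, t + 1 ≤ d (γ 0) (γ N) → l (t + 1) ≤ l t + (K * (2 * R₀ + 1) + K) := by
    intro t ht
    obtain ⟨a1, a2, -⟩ := hl t (by omega)
    obtain ⟨b1, b2, -⟩ := hl (t + 1) ht
    by_cases hc : l t ≤ l (t + 1)
    · have h1 := (hγ _ a1 _ b1 hc).2
      have h2 := hd.tri (γ (l t)) (g t) (γ (l (t + 1)))
      have h3 := hd.tri (g t) (g (t + 1)) (γ (l (t + 1)))
      have h4 := hd.comm (γ (l t)) (g t)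
      have h5 := g3 t (t + 1) (by omega)
      have h6 : d (γ (l t)) (γ (l (t + 1))) ≤ 2 * R₀ + 1 := by omega
      have h7 : K * d (γ (l t)) (γ (l (t + 1))) ≤ K * (2 * R₀ + 1) := Nat.mul_le_mul_left _ h6
      omega
    · omega
  -- case L = 0
  by_cases hL : d (γ 0) (γ N) = 0
  · refine ⟨γ 0, by rw [hd.self]; omega, ?_⟩
    have h1 := (hγ 0 (by omega) N le_rfl (by omega)).2
    rw [hL] at h1
    have h2 := (hγ 0 (by omega) i hi (by omega)).1
    have h3 : i - 0 ≤ K := by omega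
    have h4 : K * (i - 0) ≤ K * (K * (2 * R₀ + 1) + K) := Nat.mul_le_mul_left _ (by omega)
    omega
  · have hex : ∃ t, t ≤ d (γ 0) (γ N) ∧ i ≤ l t := by
      refine ⟨_, le_rfl, ?_⟩
      obtain ⟨-, -, -, h⟩ := hl _ (le_refl (d (γ 0) (γ N)))
      rw [h hL rfl]
      exact hi
    obtain ⟨ht1, ht2⟩ := Nat.find_spec hex
    have hmin : ∀ m, m < Nat.find hex → ¬ (m ≤ d (γ 0) (γ N) ∧ i ≤ l m) := fun m hm => Nat.find_min hex hm
    generalize Nat.find hex = t at ht1 ht2 hmin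
    obtain ⟨a1, a2, a3, -⟩ := hl t ht1
    have hli : l t ≤ i + (K * (2 * R₀ + 1) + K) := by
      by_cases h0 : t = 0
      · rw [a3 h0]
        omega
      · have h1 := hmin (t - 1) (by omega)
        have h2 := hstep (t - 1) (by omega)
        have h3 : t - 1 + 1 = t := by omega
        rw [h3] at h2
        have h4 : ¬ i ≤ l (t - 1) := fun h => h1 ⟨by omega, h⟩
        omega
    refine ⟨g t, hbet t ht1, ?_⟩
    have h1 := (hγ i hi _ a1 ht2).1
    have h2 := hd.tri (g t) (γ (l t)) (γ i)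
    have h3 := hd.comm (γ (l t)) (γ i)
    have h4 : K * (l t - i) ≤ K * (K * (2 * R₀ + 1) + K) := Nat.mul_le_mul_left _ (by omega)
    omega

end QFC
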