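import Pool.Agent.QFC.EnergyDefs

/-! # Pr : elementary facts on quasi-isometry pairs (complete, no sorry) -/

open scoped Classical

namespace QFC

namespace Bldg

variable {n₁ n₂ : ℕ} {C₁ C₂ : Type} {B₁ : Bldg n₁ C₁} {B₂ : Bldg n₂ C₂} {F : C₁ → C₂} {G : C₂ → C₁} {K : ℕ}

theorem Pair.symm (hp : Pair B₁ B₂ F G K) : Pair B₂ B₁ G F K :=
  ⟨hp.lipG, hp.lipF, hp.fg, hp.gf⟩

theorem Pair.mono {K' : ℕ} (hp : Pair B₁ B₂ F G K) (h : K ≤ K') : Pair B₁ B₂ F G K' := by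
  refine ⟨fun a b => ?_, fun a b => ?_, fun a => (hp.gf a).trans h, fun b => (hp.fg b).trans h⟩
  · exact (hp.lipF a b).trans (Nat.add_le_add (Nat.mul_le_mul_right _ h) h)
  · exact (hp.lipG a b).trans (Nat.add_le_add (Nat.mul_le_mul_right _ h) h)

/-- lower bound for the distances of images -/
theorem Pair.lower (hp : Pair B₁ B₂ F G K) (a b : C₁) :
    B₁.dist a b ≤ K * B₂.dist (F a) (F b) + 3 * K := by
  have h1 := B₁.dist_triangle a (G (F a)) b
  have h2 := B₁.dist_triangle (G (F a)) (G (F b)) b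
  have h3 := hp.gf a
  have h4 := hp.gf b
  have h5 := hp.lipG (F a) (F b)
  rw [B₁.dist_comm a (G (F a))] at h1
  omega

theorem Pair.near (hp : Pair B₁ B₂ F G K) {c' : C₂} {ρ : ℕ} {c : C₁}
    (h : B₂.dist (F c) c' ≤ ρ) : B₁.dist (G c') c ≤ K * ρ + 2 * K := by
  have h1 := B₁.dist_triangle (G c') (G (F c)) c
  have h2 := hp.gf c
  have h3 := hp.lipG c' (F c)
  rw [B₂.dist_comm c' (F c)] at h3
  have h4 := Nat.mul_le_mul_left K h
  omega

theorem Pair.proper (hp : Pair B₁ B₂ F G K) (c' : C₂) (ρ : ℕ) : {c | B₂.dist (F c) c' ≤ ρ}.Finite :=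
  (B₁.ball_finite (G c') (K * ρ + 2 * K)).subset (fun _ hc => hp.near hc)

/-- a uniform version: chambers whose images are close are close -/
theorem Pair.close (hp : Pair B₁ B₂ F G K) {a b : C₁} {ρ : ℕ} (h : B₂.dist (F a) (F b) ≤ ρ) :
    B₁.dist a b ≤ K * ρ + 3 * K := by
  have h1 := hp.lower a b
  have h2 := Nat.mul_le_mul_left K h
  omega

end Bldg

end QFC
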