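import Pool.Agent.QFC.D3
import Pool.Agent.QFC.A4b
import Pool.Agent.QFC.Pr

/-! # D6 : visits of a geodesic to a shell -/

open scoped Classical

namespace QFC

/-- `geo`: `exists_step` repeatedly -/
theorem Bldg.geoSp {n : ℕ} {C : Type} (B : Bldg n C) : GeoSp B.dist := by
  refine ⟨B.dist_self, fun h => B.dist_eq_zero h, B.dist_comm, B.dist_triangle, ?_⟩
  intro x y k
  induction k generalizing x with
  | zero => exact fun _ => ⟨x, B.dist_self x, rfl⟩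
  | succ k ih =>
    intro h
    obtain ⟨m, hm⟩ : ∃ m, B.dist x y = m + 1 := ⟨B.dist x y - 1, by omega⟩
    obtain ⟨i, e, h1, h2, h3⟩ := B.exists_step hm
    obtain ⟨z, z1, z2⟩ := ih e (by omega)
    have h4 := B.dist_le_one h1
    have h5 := B.dist_triangle x e z
    have h6 := B.dist_triangle x z y
    exact ⟨z, by omega, by omega⟩

/-- Let `γ` be a geodesic from `x₁` to `e` through `c` (`exists_geodesic_through`); `F ∘ γ` is a quasi-geodesic (`Pair.lower`; constant `3 K`, and `K ≤ 3 K`). `exists_morse'`: `F c` is within `R` of a point `p` with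
`dist (F x₁) p + dist p (F e) = dist (F x₁) (F e)`. With `A = dist x₂ (F x₁)`: `dist (F x₁) p ≥ dist x₂ (F c) - A - R ≥ k - ρ - A - R` and `dist (F x₁) (F e) ≤ k + ρ + A`, so `dist p (F e) ≤ 2 ρ + 2 A + R`,
`dist (F c) (F e) ≤ 2 ρ + 2 A + 2 R`, and `Pair.lower`. -/
theorem exists_visits {n₁ n₂ : ℕ} {C₁ C₂ : Type} (B₁ : Bldg n₁ C₁) (B₂ : Bldg n₂ C₂) {δ : ℕ} (h4 : FourPt B₂.dist δ)
    {F : C₁ → C₂} {G : C₂ → C₁} {K : ℕ} (hp : Bldg.Pair B₁ B₂ F G K) (x₁ : C₁) (x₂ : C₂) (ρ : ℕ) :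
    ∃ M₀ : ℕ, ∀ k c e, B₁.dist x₁ c + B₁.dist c e = B₁.dist x₁ e →
      k ≤ B₂.dist x₂ (F c) + ρ → B₂.dist x₂ (F c) ≤ k + ρ →
      k ≤ B₂.dist x₂ (F e) + ρ → B₂.dist x₂ (F e) ≤ k + ρ → B₁.dist c e ≤ M₀ := by
  obtain ⟨R, hR⟩ := exists_morse' (3 * K) δ
  refine ⟨K * (2 * ρ + 2 * B₂.dist x₂ (F x₁) + 2 * R) + 3 * K, fun k c e hce h1 h2 h3 h4' => ?_⟩
  obtain ⟨γ, g0, gc, g1, g2, g3⟩ := (Bldg.geoSp B₁).exists_geodesic_through hce
  have hq : ∀ i ≤ B₁.dist x₁ e, ∀ j ≤ B₁.dist x₁ e, i ≤ j →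
      B₂.dist ((fun t => F (γ t)) i) ((fun t => F (γ t)) j) ≤ 3 * K * (j - i) + 3 * K ∧
      j - i ≤ 3 * K * B₂.dist ((fun t => F (γ t)) i) ((fun t => F (γ t)) j) + 3 * K := by
    intro i hi j hj hij
    have a1 := hp.lipF (γ i) (γ j)
    have a2 := hp.lower (γ i) (γ j)
    rw [g2 i j hij hj] at a1 a2
    refine ⟨?_, ?_⟩
    · refine a1.trans ?_
      have : K * (j - i) ≤ 3 * K * (j - i) := Nat.mul_le_mul_right _ (by omega)
      omega
    · refine a2.trans ?_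
      have : K * B₂.dist (F (γ i)) (F (γ j)) ≤ 3 * K * B₂.dist (F (γ i)) (F (γ j)) := Nat.mul_le_mul_right _ (by omega)
      simp only
      omega
  obtain ⟨p, p1, p2⟩ := hR C₂ B₂.dist (Bldg.geoSp B₂) h4 _ _ hq (B₁.dist x₁ c) (by omega)
  simp only [g0, gc, g1 _ le_rfl] at p1 p2
  apply hp.close
  have t1 := B₂.dist_triangle x₂ (F x₁) (F c)
  have t2 := B₂.dist_triangle (F x₁) p (F c)
  have t3 := B₂.dist_triangle (F x₁) x₂ (F e)
  have t4 := B₂.dist_comm (F x₁) x₂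
  have t5 := B₂.dist_triangle (F c) p (F e)
  have t6 := B₂.dist_comm (F c) p
  omega


end QFC
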