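import Pool.Agent.QFC.Bldg

/-!
# The rigid limit situation
-/

open scoped Classical

namespace QFC

namespace Bldg

variable {n : ℕ} {C : Type} (B : Bldg n C)

/-- `y` lies between `c` and `d` -/
def Btw (c d y : C) : Prop := ∀ T, B.σ T y = B.σ T c ∨ B.σ T y = B.σ T d

/-- the building structure on a group is invariant under left translations -/
def _root_.QFC.LInv {n : ℕ} {Γ : Type} [Group Γ] (B : Bldg n Γ) : Prop :=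
  ∀ (h : Γ) (i : ZMod n) (c d : Γ), B.adj i c d → B.adj i (h * c) (h * d)

end Bldg

/-- the rigid limit situation: a quasi-isometry inducing a bijection between the apartments through
`η₁` and the apartments through `η₂` -/
structure LimitData {n₁ n₂ : ℕ} {C₁ C₂ : Type} (B₁ : Bldg n₁ C₁) (B₂ : Bldg n₂ C₂) where
  η₁ : B₁.Wall → B₁.Sheet
  η₂ : B₂.Wall → B₂.Sheet
  hη₁ : B₁.IsRoller η₁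
  hη₂ : B₂.IsRoller η₂
  F : C₁ → C₂
  G : C₂ → C₁
  K : ℕ
  pair : Bldg.Pair B₁ B₂ F G K
  Φ : Set C₁ → Set C₂
  Ψ : Set C₂ → Set C₁
  Φ_apt : ∀ A ∈ B₁.Apt η₁, Φ A ∈ B₂.Apt η₂
  Ψ_apt : ∀ A ∈ B₂.Apt η₂, Ψ A ∈ B₁.Apt η₁
  ΨΦ : ∀ A ∈ B₁.Apt η₁, Ψ (Φ A) = A
  ΦΨ : ∀ A ∈ B₂.Apt η₂, Φ (Ψ A) = A
  nearΦ : ∀ A ∈ B₁.Apt η₁, ∀ c' ∈ Φ A, ∃ c ∈ A, B₂.dist c' (F c) ≤ K
  nearΨ : ∀ A ∈ B₂.Apt η₂, ∀ c' ∈ Ψ A, ∃ c ∈ A, B₁.dist c' (G c) ≤ K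
  locΦ : ∀ r, ∃ r', ∀ A ∈ B₁.Apt η₁, ∀ A' ∈ B₁.Apt η₁, ∀ c,
    A ∩ B₁.ball c r' = A' ∩ B₁.ball c r' → Φ A ∩ B₂.ball (F c) r = Φ A' ∩ B₂.ball (F c) r
  locΨ : ∀ r, ∃ r', ∀ A ∈ B₂.Apt η₂, ∀ A' ∈ B₂.Apt η₂, ∀ c,
    A ∩ B₂.ball c r' = A' ∩ B₂.ball c r' → Ψ A ∩ B₁.ball (G c) r = Ψ A' ∩ B₁.ball (G c) r

end QFC
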