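import Pool.Agent.QFC.Choice
import Pool.Agent.QFC.Chain
import Pool.Agent.QFC.Hyp
import Pool.Agent.QFC.LimitData

/-!
# Definitions for the energy estimate and the selection of a good position
-/

open scoped Classical

namespace QFC

/-- properness of a map of chambers -/
def BCM.Proper {n₁ n₂ : ℕ} {C₁ C₂ : Type} (_ : Bldg n₁ C₁) (B₂ : Bldg n₂ C₂) (F : C₁ → C₂) : Prop :=
  ∀ c' ρ, {c | B₂.dist (F c) c' ≤ ρ}.Finite

variable {n₁ n₂ : ℕ} [NeZero n₁] [NeZero n₂] {C₁ C₂ : Type} (B₁ : Bldg n₁ C₁) (B₂ : Bldg n₂ C₂)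

/-- `𝒲` contains all walls relevant for the push-forward up to level `I` -/
def Good (F : C₁ → C₂) (R : ℕ) (x₁ : C₁) (x₂ : C₂) (I : ℕ) (𝒲 : Finset B₁.Wall) : Prop :=
  ∀ c', B₂.dist x₂ c' ≤ I → ∀ c, B₂.dist (F c) c' ≤ R → B₁.Sep x₁ c ⊆ ↑𝒲

/-- the push-forward of the apartment of `s` has a defect at the gate `g` -/
def DefAt {F : C₁ → C₂} {R : ℕ} (φ : BCM B₁ B₂ F R) (x₁ : C₁) (x₂ : C₂) (g : C₂) (s : B₁.Wall → B₁.Sheet) : Prop :=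
  ∃ j, j ∉ B₂.D (B₂.pt x₂) g ∧ ¬ B₂.NoDef (φ.push (B₁.Ap x₁ s)) j g

/-- bad position of radius `N` for `φ` : some apartment through the root meeting `ball c N` has a
push-forward with a defect in `ball c' N` -/
def Bad {F : C₁ → C₂} {R : ℕ} (φ : BCM B₁ B₂ F R) (x₁ : C₁) (x₂ : C₂) (N : ℕ) (c : C₁) (c' : C₂) : Prop :=
  ∃ s, B₁.Adm x₁ s ∧ (B₁.Ap x₁ s ∩ B₁.ball c N).Nonempty ∧ ∃ g ∈ B₂.ball c' N, DefAt B₁ B₂ φ x₁ x₂ g s

end QFC
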