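import Pool.Agent.QFC.B4b
import Pool.Agent.QFC.D6
import Pool.Agent.QFC.A8
import Pool.Agent.QFC.EnergyDefs

/-! # E1 : the energy estimate -/

open scoped Classical

namespace QFC

variable {n₁ n₂ : ℕ} [NeZero n₁] [NeZero n₂] {C₁ C₂ : Type} (B₁ : Bldg n₁ C₁) (B₂ : Bldg n₂ C₂)

/-- `a ≼ b` seen from `x` -/
def e1_le {n : ℕ} {C : Type} (B : Bldg n C) (x a b : C) : Prop := B.dist x a + B.dist a b = B.dist x b

theorem e1_le_refl {n : ℕ} {C : Type} (B : Bldg n C) (x a : C) : e1_le B x a a := by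
  unfold e1_le
  rw [B.dist_self, add_zero]

theorem e1_le_trans {n : ℕ} {C : Type} (B : Bldg n C) {x a b c : C} (h : e1_le B x a b) (h' : e1_le B x b c) :
    e1_le B x a c := by
  unfold e1_le at *
  have h1 := B.dist_triangle x a c
  have h2 := B.dist_triangle a b c
  omega

/-- the pairs of visits below `c` -/
noncomputable def e1_pairs {n : ℕ} {C : Type} (B : Bldg n C) (x : C) (Q : Finset C) (c : C) : Finset (C × C) :=
  (Q ×ˢ Q).filter (fun p => e1_le B x p.1 p.2 ∧ e1_le B x p.2 c)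

/-- the counting function -/
noncomputable def e1_H {n : ℕ} {C : Type} (B : Bldg n C) (x : C) (Q : Finset C) (c : C) : ℕ :=
  (e1_pairs B x Q c).sup (fun p => B.dist x p.2 - B.dist x p.1 + 1)

theorem e1_mem_pairs {n : ℕ} {C : Type} (B : Bldg n C) {x : C} {Q : Finset C} {c : C} {p : C × C} :
    p ∈ e1_pairs B x Q c ↔ (p.1 ∈ Q ∧ p.2 ∈ Q) ∧ e1_le B x p.1 p.2 ∧ e1_le B x p.2 c := by
  unfold e1_pairs
  rw [Finset.mem_filter, Finset.mem_product]

theorem e1_H_le {n : ℕ} {C : Type} (B : Bldg n C) {x : C} {Q : Finset C} {M₀ : ℕ}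
    (h : ∀ a ∈ Q, ∀ b ∈ Q, e1_le B x a b → B.dist a b ≤ M₀) (c : C) : e1_H B x Q c ≤ M₀ + 1 := by
  unfold e1_H
  apply Finset.sup_le
  intro p hp
  rw [e1_mem_pairs] at hp
  obtain ⟨⟨h1, h2⟩, h3, _⟩ := hp
  have h4 := h p.1 h1 p.2 h2 h3
  unfold e1_le at h3
  show B.dist x p.2 - B.dist x p.1 + 1 ≤ M₀ + 1
  omega

theorem e1_H_step {n : ℕ} {C : Type} (B : Bldg n C) {x : C} (Q : Finset C) {S : Set C}
    (hS : ∀ c, c ∈ S ↔ c ∈ Q) {i : ZMod n} {g c : C}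
    (h : B.adj i g c) (hne : g ≠ c) (hg : i ∉ B.D (B.pt x) g) :
    e1_H B x Q g + (if c ∈ S then 1 else 0) ≤ e1_H B x Q c := by
  obtain ⟨h1, _, _⟩ := B.dist_child h hne hg
  have hgc : e1_le B x g c := by
    unfold e1_le
    have h2 := B.dist_le_one h
    have h3 := B.dist_triangle x g c
    omega
  have hsub : e1_pairs B x Q g ⊆ e1_pairs B x Q c := by
    intro p hp
    rw [e1_mem_pairs] at hp ⊢
    exact ⟨hp.1, hp.2.1, e1_le_trans B hp.2.2 hgc⟩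
  by_cases hc : c ∈ S
  · rw [if_pos hc]
    have hcQ : c ∈ Q := (hS c).1 hc
    have key : e1_H B x Q g < e1_H B x Q c := by
      have hpos : (⊥ : ℕ) < e1_H B x Q c := by
        have h5 : (c, c) ∈ e1_pairs B x Q c := by
          rw [e1_mem_pairs]
          exact ⟨⟨hcQ, hcQ⟩, e1_le_refl B x c, e1_le_refl B x c⟩
        have h6 := Finset.le_sup (f := fun p : C × C => B.dist x p.2 - B.dist x p.1 + 1) h5
        have h7 : B.dist x c - B.dist x c + 1 ≤ e1_H B x Q c := h6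
        show 0 < _
        omega
      have h8 := (Finset.sup_lt_iff (s := e1_pairs B x Q g)
        (f := fun p : C × C => B.dist x p.2 - B.dist x p.1 + 1) hpos).2
      apply h8
      intro p hp
      rw [e1_mem_pairs] at hp
      obtain ⟨⟨h9, h10⟩, h11, h12⟩ := hp
      have h13 : (p.1, c) ∈ e1_pairs B x Q c := by
        rw [e1_mem_pairs]
        exact ⟨⟨h9, hcQ⟩, e1_le_trans B (e1_le_trans B h11 h12) hgc, e1_le_refl B x c⟩
      have h14 := Finset.le_sup (f := fun p : C × C => B.dist x p.2 - B.dist x p.1 + 1) h13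
      have h15 : B.dist x c - B.dist x p.1 + 1 ≤ e1_H B x Q c := h14
      show B.dist x p.2 - B.dist x p.1 + 1 < e1_H B x Q c
      unfold e1_le at h11 h12
      omega
    exact key
  · rw [if_neg hc, add_zero]
    exact Finset.sup_mono hsub

/-- The chambers of `B₁` whose image has distance about `k` from `x₂` have bounded `r²`-mass. Let `Q = {c | k ≤ dist x₂ (F c) + ρ ∧ dist x₂ (F c) ≤ k + ρ}` (finite, `Pair.proper`), `M₀` from `exists_visits` (`FourPt` from `four_point`, `δ = 2`). Write `a ≼ b` for `dist x₁ a + dist a b = dist x₁ b`. `H c` := the maximum (0 if none)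
of `dist x₁ b - dist x₁ a + 1` over pairs `a ≼ b ≼ c` in `Q` (`sSup` of a bounded set of naturals, or `Nat.findGreatest`); `H ≤ M₀ + 1` since `dist x₁ b - dist x₁ a = dist a b ≤ M₀`. `hH` of `visits`: `g ≼ c` and `dist x₁ c = dist x₁ g + 1` (`dist_child`); `≼` is transitive; if `c ∈ Q`: either `H g = 0` and the pair `(c, c)` shows `H c ≥ 1`, or
`H g` is realized by `a ≼ b ≼ g` and the pair `(a, c)` shows `H c ≥ H g + 1`. So `∑_k ∑_{c ∈ sphere k ∩ Q} r v ≤ (M₀ + 2) val ∅`, and `v ≥ a r` (`exists_v_bounds`). Every finite set of chambers is contained in a ball, which is the disjoint union of spheres. -/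
theorem exists_shell_mass (w₁ : Weights B₁.q) {F : C₁ → C₂} {G : C₂ → C₁} {K : ℕ}
    (hp : Bldg.Pair B₁ B₂ F G K) (x₁ : C₁) (x₂ : C₂) (ρ : ℕ) :
    ∃ b : ℝ, ∀ k, ∀ Q : Finset C₁, (∀ c ∈ Q, k ≤ B₂.dist x₂ (F c) + ρ ∧ B₂.dist x₂ (F c) ≤ k + ρ) →
      ∑ c ∈ Q, B₁.r x₁ c ^ 2 ≤ b := by
  have h4 : FourPt B₂.dist 2 := fun a b c e => B₂.four_point a b c e
  obtain ⟨M₀, hM₀⟩ := exists_visits B₁ B₂ h4 hp x₁ x₂ ρ
  obtain ⟨a, _, ha, _, hv⟩ := B₁.exists_v_bounds w₁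
  refine ⟨(((M₀ + 1 : ℕ) : ℝ) + 1) * w₁.val ∅ / a, fun k Q hQ => ?_⟩
  obtain ⟨S, hS⟩ : ∃ S : Set C₁, ∀ c, c ∈ S ↔ c ∈ Q := ⟨↑Q, fun c => Iff.rfl⟩
  have hvis := B₁.visits w₁ x₁ S (e1_H B₁ x₁ Q) (M₀ + 1)
    (e1_H_le B₁ (fun a ha b hb hab => hM₀ k a b hab (hQ a ha).1 (hQ a ha).2 (hQ b hb).1 (hQ b hb).2))
    (fun i g c h hne hg => e1_H_step B₁ Q hS h hne hg) (Q.sup (B₁.dist x₁))
  have hsum : ∑ k ∈ Finset.range (Q.sup (B₁.dist x₁) + 1), ∑ c ∈ B₁.sphereF x₁ k,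
      (if c ∈ S then B₁.r x₁ c * B₁.v w₁ x₁ c else 0) = ∑ c ∈ Q, B₁.r x₁ c * B₁.v w₁ x₁ c := by
    rw [← Finset.sum_fiberwise_of_maps_to (s := Q) (t := Finset.range (Q.sup (B₁.dist x₁) + 1))
      (g := B₁.dist x₁) (fun c hc => Finset.mem_range.2 (Nat.lt_succ_of_le (Finset.le_sup hc)))]
    apply Finset.sum_congr rfl
    intro k _
    rw [← Finset.sum_filter]
    apply Finset.sum_congr _ (fun _ _ => rfl)
    ext c
    rw [Finset.mem_filter, Finset.mem_filter, B₁.mem_sphereF, hS]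
    constructor
    · rintro ⟨h1, h2⟩
      exact ⟨h2, h1⟩
    · rintro ⟨h1, h2⟩
      exact ⟨h2, h1⟩
  rw [hsum] at hvis
  rw [le_div_iff₀ ha]
  refine le_trans ?_ hvis
  rw [Finset.sum_mul]
  apply Finset.sum_le_sum
  intro c _
  have h5 := (hv x₁ c).1
  have h6 := B₁.r_pos x₁ c
  calc B₁.r x₁ c ^ 2 * a = B₁.r x₁ c * (a * B₁.r x₁ c) := by ring
    _ ≤ B₁.r x₁ c * B₁.v w₁ x₁ c := mul_le_mul_of_nonneg_left h5 h6.le

end QFC
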