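import Pool.Agent.QFC.E1

/-! # E1b : the energy estimate -/

open scoped Classical

namespace QFC

variable {n₁ n₂ : ℕ} [NeZero n₁] [NeZero n₂] {C₁ C₂ : Type} (B₁ : Bldg n₁ C₁) (B₂ : Bldg n₂ C₂)

/-- Cauchy–Schwarz (`Finset.sum_mul_sq_le_sq_mul_sq` or `inner_mul_le_norm_mul_norm`): `(∑ r₂ (c') r₁ (G c'))² ≤ (∑ r₂ (c')²) (∑ r₁ (G c')²)`. First factor: `exists_sum_rr`. Second: the image of the sphere under `G` is a finite set `Q` as in `exists_shell_mass` with `ρ = K`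
(`dist (F (G c')) c' ≤ K`), and each `c` is `G c'` for at most `N` chambers `c'` (they lie in `ball (F c) K`; `exists_ball_card`): `∑ r₁ (G c')² ≤ N ∑ c ∈ Q, r₁ c ²` (`Finset.sum_comp`/`sum_fiberwise`). -/
theorem exists_energy (w₁ : Weights B₁.q) (w₂ : Weights B₂.q) {F : C₁ → C₂} {G : C₂ → C₁} {K : ℕ}
    (hp : Bldg.Pair B₁ B₂ F G K) (x₁ : C₁) (x₂ : C₂) :
    ∃ b : ℝ, 0 < b ∧ ∀ k, ∑ c' ∈ B₂.sphereF x₂ k, B₂.r x₂ c' * B₁.r x₁ (G c') ≤ b := by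
  have hrr : ∃ b : ℝ, ∀ x k, ∑ c ∈ B₂.sphereF x k, B₂.r x c ^ 2 ≤ b := by
    first
      | exact B₂.exists_sum_rr w₂
      | exact B₂.exists_sum_rr
  obtain ⟨b₂, hb₂⟩ := hrr
  obtain ⟨b₁, hb₁⟩ := exists_shell_mass B₁ B₂ w₁ hp x₁ x₂ K
  obtain ⟨N, hN⟩ := B₂.exists_ball_card K
  refine ⟨|b₂| + N * |b₁| + 1, by positivity, ?_⟩
  intro k
  have h1 : ∑ c' ∈ B₂.sphereF x₂ k, B₁.r x₁ (G c') ^ 2 ≤ N * |b₁| := by
    have hQ : ∀ c ∈ (B₂.sphereF x₂ k).image G,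
        k ≤ B₂.dist x₂ (F c) + K ∧ B₂.dist x₂ (F c) ≤ k + K := by
      intro c hc
      rw [Finset.mem_image] at hc
      obtain ⟨c', hc', rfl⟩ := hc
      rw [B₂.mem_sphereF] at hc'
      have e1 := hp.fg c'
      have e2 := B₂.dist_triangle x₂ (F (G c')) c'
      have e3 := B₂.dist_triangle x₂ c' (F (G c'))
      rw [B₂.dist_comm c' (F (G c'))] at e3
      omega
    have h2 := hb₁ k _ hQ
    have h3 : ∑ c' ∈ B₂.sphereF x₂ k, B₁.r x₁ (G c') ^ 2 =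
        ∑ c ∈ (B₂.sphereF x₂ k).image G,
          ((B₂.sphereF x₂ k).filter (fun c' => G c' = c)).card • B₁.r x₁ c ^ 2 :=
      Finset.sum_comp (fun c => B₁.r x₁ c ^ 2) G
    rw [h3]
    calc ∑ c ∈ (B₂.sphereF x₂ k).image G,
          ((B₂.sphereF x₂ k).filter (fun c' => G c' = c)).card • B₁.r x₁ c ^ 2
        ≤ ∑ c ∈ (B₂.sphereF x₂ k).image G, (N : ℝ) * B₁.r x₁ c ^ 2 := by
          refine Finset.sum_le_sum fun c _ => ?_
          rw [nsmul_eq_mul]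
          apply mul_le_mul_of_nonneg_right _ (sq_nonneg _)
          have h4 : ((B₂.sphereF x₂ k).filter (fun c' => G c' = c)).card ≤ N := by
            refine (Finset.card_le_card ?_).trans (hN (F c))
            intro c' hc'
            rw [Finset.mem_filter] at hc'
            rw [B₂.mem_ballF, ← hc'.2]
            exact hp.fg c'
          exact_mod_cast h4
      _ = N * ∑ c ∈ (B₂.sphereF x₂ k).image G, B₁.r x₁ c ^ 2 := by
          rw [Finset.mul_sum]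
      _ ≤ N * |b₁| :=
          mul_le_mul_of_nonneg_left (h2.trans (le_abs_self _)) (Nat.cast_nonneg _)
  have h2 : ∑ c' ∈ B₂.sphereF x₂ k, B₂.r x₂ c' ^ 2 ≤ |b₂| :=
    (hb₂ x₂ k).trans (le_abs_self _)
  have h3 : ∑ c' ∈ B₂.sphereF x₂ k, B₂.r x₂ c' * B₁.r x₁ (G c') ≤
      ∑ c' ∈ B₂.sphereF x₂ k, (B₂.r x₂ c' ^ 2 + B₁.r x₁ (G c') ^ 2) := by
    refine Finset.sum_le_sum fun c' _ => ?_
    nlinarith [sq_nonneg (B₂.r x₂ c' - B₁.r x₁ (G c')), sq_nonneg (B₂.r x₂ c'),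
      sq_nonneg (B₁.r x₁ (G c'))]
  rw [Finset.sum_add_distrib] at h3
  linarith

end QFC
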