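import Pool.Agent.QFC.G1
import Pool.Agent.QFC.EnergyDefs

/-! # H2 : composition, identity, change of the underlying map; elementary facts on push-forwards -/

open scoped Classical

namespace QFC

namespace BCM

variable {n₁ n₂ n₃ : ℕ} [NeZero n₁] [NeZero n₂] [NeZero n₃] {C₁ C₂ C₃ : Type} {B₁ : Bldg n₁ C₁} {B₂ : Bldg n₂ C₂}
  {B₃ : Bldg n₃ C₃}

/-- evaluation of a linear map as a finite sum -/
theorem h2_eval {α β : Type} (L : (α →₀ ZMod 2) →ₗ[ZMod 2] (β →₀ ZMod 2)) (y : α →₀ ZMod 2) (b : β) :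
    (L y) b = ∑ a ∈ y.support, y a * (L (Finsupp.single a 1)) b := by
  have e1 : y = ∑ a ∈ y.support, y a • Finsupp.single a (1 : ZMod 2) := by
    have e2 := Finsupp.sum_single y
    rw [Finsupp.sum] at e2
    conv_lhs => rw [← e2]
    apply Finset.sum_congr rfl
    intro a _
    rw [Finsupp.smul_single, smul_eq_mul, mul_one]
  conv_lhs => rw [e1]
  rw [map_sum, Finsupp.finset_sum_apply]
  apply Finset.sum_congr rfl
  intro a _
  rw [map_smul, Finsupp.smul_apply, smul_eq_mul]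

theorem h2_exists {α β : Type} (L : (α →₀ ZMod 2) →ₗ[ZMod 2] (β →₀ ZMod 2)) {y : α →₀ ZMod 2} {b : β}
    (h : (L y) b ≠ 0) : ∃ a, y a ≠ 0 ∧ (L (Finsupp.single a 1)) b ≠ 0 := by
  rw [h2_eval] at h
  obtain ⟨a, _, ha⟩ := Finset.exists_ne_zero_of_sum_ne_zero h
  exact ⟨a, left_ne_zero_of_mul ha, right_ne_zero_of_mul ha⟩

theorem h2_near2 {G : C₂ → C₃} {R' K : ℕ} (ψ : BCM B₂ B₃ G R')
    (hG : ∀ a b, B₃.dist (G a) (G b) ≤ K * B₂.dist a b + K) {y : C₂ →₀ ZMod 2} {x : C₂} {N : ℕ}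
    (h : B₂.Near2 y x N) : B₃.Near2 (ψ.φ2 y) (G x) (K * N + K + R') := by
  intro c hc
  obtain ⟨a, ha, hb⟩ := h2_exists ψ.φ2 hc
  have e1 := h a ha
  have e2 := ψ.near2 a c hb
  have e3 := B₃.dist_triangle (G x) (G a) c
  have e4 := hG x a
  have e5 := Nat.mul_le_mul_left K e1
  omega

theorem h2_near1 {G : C₂ → C₃} {R' K : ℕ} (ψ : BCM B₂ B₃ G R')
    (hG : ∀ a b, B₃.dist (G a) (G b) ≤ K * B₂.dist a b + K) {y : B₂.Pnl →₀ ZMod 2} {x : C₂} {N : ℕ}
    (h : B₂.Near1 y x N) : B₃.Near1 (ψ.φ1 y) (G x) (K * N + K + R') := by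
  intro p hp
  obtain ⟨a, ha, hb⟩ := h2_exists ψ.φ1 hp
  obtain ⟨d, hd, e1⟩ := h a ha
  rw [← hd] at hb
  obtain ⟨e, he, e2⟩ := ψ.near1 a.1 d p hb
  refine ⟨e, he, ?_⟩
  have e3 := B₃.dist_triangle (G x) (G d) e
  have e4 := hG x d
  have e5 := Nat.mul_le_mul_left K e1
  omega

theorem h2_near0 {G : C₂ → C₃} {R' K : ℕ} (ψ : BCM B₂ B₃ G R')
    (hG : ∀ a b, B₃.dist (G a) (G b) ≤ K * B₂.dist a b + K) {y : B₂.Vtx →₀ ZMod 2} {x : C₂} {N : ℕ}
    (h : B₂.Near0 y x N) : B₃.Near0 (ψ.φ0 y) (G x) (K * N + K + R') := by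
  intro p hp
  obtain ⟨a, ha, hb⟩ := h2_exists ψ.φ0 hp
  obtain ⟨d, hd, e1⟩ := h a ha
  rw [← hd] at hb
  obtain ⟨e, he, e2⟩ := ψ.near0 a.1 d p hb
  refine ⟨e, he, ?_⟩
  have e3 := B₃.dist_triangle (G x) (G d) e
  have e4 := hG x d
  have e5 := Nat.mul_le_mul_left K e1
  omega

theorem h2_zmod2 (x : ZMod 2) : x ≠ 0 ↔ x = 1 := by
  revert x; decide

/-- composition of the linear maps. `near2`: `φ2 (single c 1)` is a sum of `single d 1` with `dist (F c) d ≤ R`, `ψ2 (single d 1)` is near `G d` (radius `R'`), `dist (G (F c)) (G d) ≤ K R + K`. `near1`, `near0`: same (a panel `p` in the support of `φ1 (single (mkP i c) 1)` is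
`mkP p.1 d` with `dist (F c) d ≤ R`). -/
theorem exists_comp {F : C₁ → C₂} {G : C₂ → C₃} {R R' K : ℕ} (φ : BCM B₁ B₂ F R) (ψ : BCM B₂ B₃ G R')
    (hG : ∀ a b, B₃.dist (G a) (G b) ≤ K * B₂.dist a b + K) :
    ∃ χ : BCM B₁ B₃ (G ∘ F) (K * R + K + R'), ∀ y, χ.φ2 y = ψ.φ2 (φ.φ2 y) := by
  refine ⟨{ φ2 := ψ.φ2 ∘ₗ φ.φ2
            φ1 := ψ.φ1 ∘ₗ φ.φ1
            φ0 := ψ.φ0 ∘ₗ φ.φ0
            comm2 := fun y => by
              rw [LinearMap.comp_apply, LinearMap.comp_apply, ψ.comm2, φ.comm2]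
            comm1 := fun z => by
              rw [LinearMap.comp_apply, LinearMap.comp_apply, ψ.comm1, φ.comm1]
            aug0 := fun u => by
              rw [LinearMap.comp_apply, ψ.aug0, φ.aug0]
            near2 := fun c => by
              rw [LinearMap.comp_apply]
              exact h2_near2 ψ hG (φ.near2 c)
            near1 := fun i c => by
              rw [LinearMap.comp_apply]
              exact h2_near1 ψ hG (φ.near1 i c)
            near0 := fun i c => by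
              rw [LinearMap.comp_apply]
              exact h2_near0 ψ hG (φ.near0 i c) }, fun y => rfl⟩

theorem exists_id (B₁ : Bldg n₁ C₁) : ∃ χ : BCM B₁ B₁ id 0, ∀ y, χ.φ2 y = y := by
  refine ⟨{ φ2 := LinearMap.id
            φ1 := LinearMap.id
            φ0 := LinearMap.id
            comm2 := fun y => rfl
            comm1 := fun z => rfl
            aug0 := fun u => rfl
            near2 := fun c c' h => by
              rw [LinearMap.id_apply, Finsupp.single_apply] at h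
              by_cases hc : c = c'
              · subst hc; exact le_of_eq (B₁.dist_self _)
              · rw [if_neg hc] at h; exact absurd rfl h
            near1 := fun i c p h => by
              rw [LinearMap.id_apply, Finsupp.single_apply] at h
              by_cases hc : B₁.mkP i c = p
              · subst hc; exact ⟨c, rfl, le_of_eq (B₁.dist_self _)⟩
              · rw [if_neg hc] at h; exact absurd rfl h
            near0 := fun i c p h => by
              rw [LinearMap.id_apply, Finsupp.single_apply] at h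
              by_cases hc : B₁.mkV i c = p
              · subst hc; exact ⟨c, rfl, le_of_eq (B₁.dist_self _)⟩
              · rw [if_neg hc] at h; exact absurd rfl h }, fun y => rfl⟩

theorem exists_mono {F F' : C₁ → C₂} {R K R' : ℕ} (φ : BCM B₁ B₂ F R) (h : ∀ c, B₂.dist (F c) (F' c) ≤ K) (hR : R + K ≤ R') :
    ∃ χ : BCM B₁ B₂ F' R', ∀ y, χ.φ2 y = φ.φ2 y := by
  have hc : ∀ c, B₂.dist (F' c) (F c) + R ≤ R' := by
    intro c
    have := h c
    rw [B₂.dist_comm] at this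
    omega
  exact ⟨{ φ2 := φ.φ2
           φ1 := φ.φ1
           φ0 := φ.φ0
           comm2 := φ.comm2
           comm1 := φ.comm1
           aug0 := φ.aug0
           near2 := fun c => B₂.near2_mono (φ.near2 c) (hc c)
           near1 := fun i c => B₂.near1_mono (φ.near1 i c) (hc c)
           near0 := fun i c => B₂.near0_mono (φ.near0 i c) (hc c) }, fun y => rfl⟩

/-- if all terms vanish the `finsum` vanishes -/
theorem push_near {F : C₁ → C₂} {R : ℕ} (φ : BCM B₁ B₂ F R) {S : Set C₁} {c' : C₂} (h : c' ∈ φ.push S) :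
    ∃ c ∈ S, B₂.dist (F c) c' ≤ R := by
  obtain ⟨c, hc, hne⟩ := exists_ne_zero_of_finsum_mem_ne_zero (show (∑ᶠ c ∈ S, φ.φ2 (Finsupp.single c 1) c') ≠ 0 from h)
  exact ⟨c, hc, φ.near2 c c' hne⟩

/-- membership depends only on the chambers `c` with `dist (F c) c' ≤ R` (the other terms vanish) -/
theorem push_local {F : C₁ → C₂} {R : ℕ} (φ : BCM B₁ B₂ F R) {S S' : Set C₁} {c' : C₂}
    (h : ∀ c, B₂.dist (F c) c' ≤ R → (c ∈ S ↔ c ∈ S')) : c' ∈ φ.push S ↔ c' ∈ φ.push S' := by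
  show (∑ᶠ c ∈ S, φ.φ2 (Finsupp.single c 1) c') ≠ 0 ↔ (∑ᶠ c ∈ S', φ.φ2 (Finsupp.single c 1) c') ≠ 0
  rw [finsum_mem_inter_support_eq' (fun c => φ.φ2 (Finsupp.single c 1) c') S S'
    (fun c hc => h c (φ.near2 c c' hc))]

/-- membership as a finite sum over any finite set `Q` containing the relevant chambers -/
theorem mem_push_iff {F : C₁ → C₂} {R : ℕ} (φ : BCM B₁ B₂ F R) {S : Set C₁} {c' : C₂} (Q : Finset C₁)
    (hQ : ∀ c, φ.φ2 (Finsupp.single c 1) c' ≠ 0 → c ∈ Q) :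
    c' ∈ φ.push S ↔ (∑ c ∈ Q.filter (fun c => c ∈ S), φ.φ2 (Finsupp.single c 1) c') = 1 := by
  show (∑ᶠ c ∈ S, φ.φ2 (Finsupp.single c 1) c') ≠ 0 ↔ _
  rw [finsum_mem_eq_sum_of_inter_support_eq (fun c => φ.φ2 (Finsupp.single c 1) c')
    (t := Q.filter (fun c => c ∈ S)), h2_zmod2]
  ext c
  simp only [Set.mem_inter_iff, Function.mem_support, Finset.coe_filter, Set.mem_setOf_eq]
  constructor
  · rintro ⟨h1, h2⟩
    exact ⟨⟨hQ c h2, h1⟩, h2⟩
  · rintro ⟨⟨_, h1⟩, h2⟩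
    exact ⟨h1, h2⟩

/-- two maps with the same `φ2` on the relevant chambers -/
theorem push_congr {F F' : C₁ → C₂} {R R' : ℕ} (φ : BCM B₁ B₂ F R) (ψ : BCM B₁ B₂ F' R') {S : Set C₁} {c' : C₂}
    (h : ∀ c ∈ S, φ.φ2 (Finsupp.single c 1) c' = ψ.φ2 (Finsupp.single c 1) c') : c' ∈ φ.push S ↔ c' ∈ ψ.push S := by
  show (∑ᶠ c ∈ S, φ.φ2 (Finsupp.single c 1) c') ≠ 0 ↔ (∑ᶠ c ∈ S, ψ.φ2 (Finsupp.single c 1) c') ≠ 0
  rw [finsum_mem_congr rfl h]

end BCM

end QFC
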