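import Pool.Agent.QFC.P3
import Pool.Agent.QFC.B2b
import Pool.Agent.QFC.H2
import Pool.Agent.QFC.Pr

/-! # E2 : probability that a chamber lies in the push-forward of a random apartment -/

open scoped Classical

namespace QFC

variable {n₁ n₂ : ℕ} [NeZero n₁] [NeZero n₂] {C₁ C₂ : Type} (B₁ : Bldg n₁ C₁) (B₂ : Bldg n₂ C₂)

/-- finitely many `c'`, finitely many `c` (`Pair.proper`), finite `Sep`; moreover `𝒲` may contain any given finite set -/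
theorem exists_good {F : C₁ → C₂} {G : C₂ → C₁} {K : ℕ} (hp : Bldg.Pair B₁ B₂ F G K) (R : ℕ) (x₁ : C₁) (x₂ : C₂) (I : ℕ) (𝒲₀ : Finset B₁.Wall) :
    ∃ 𝒲, 𝒲₀ ⊆ 𝒲 ∧ Good B₁ B₂ F R x₁ x₂ I 𝒲 := by
  have hfin : (⋃ c' ∈ B₂.ball x₂ I, ⋃ c ∈ {c | B₂.dist (F c) c' ≤ R}, B₁.Sep x₁ c).Finite :=
    (B₂.ball_finite x₂ I).biUnion (fun c' _ => (hp.proper c' R).biUnion (fun c _ => B₁.Sep_finite x₁ c))
  refine ⟨𝒲₀ ∪ hfin.toFinset, Finset.subset_union_left, ?_⟩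
  intro c' hc' c hc T hT
  rw [Finset.mem_coe, Finset.mem_union]
  right
  rw [Set.Finite.mem_toFinset]
  exact Set.mem_biUnion (x := c') (show c' ∈ B₂.ball x₂ I from hc')
    (Set.mem_biUnion (x := c) (show c ∈ {c | B₂.dist (F c) c' ≤ R} from hc) hT)


/-- `c' ∈ push (Ap s)` implies that some `c ∈ Ap s` has `dist (F c) c' ≤ R` (`push_near`), so `dist (G c') c ≤ K R + 2 K` (`Pair.near`). Union bound (`pr_mono`, `pr_exists_le`) over these `c` (finite set; at most `N` of them, `exists_ball_card`), `pr_mem_Ap` (`Good`), `exists_r_ratio`: `b = N * Q ^ (K R + 2 K)`. -/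
theorem exists_pr_push {F : C₁ → C₂} {G : C₂ → C₁} {K R : ℕ} (hp : Bldg.Pair B₁ B₂ F G K) (φ : BCM B₁ B₂ F R)
    (x₁ : C₁) (x₂ : C₂) : ∃ b : ℝ, 0 < b ∧ ∀ (I : ℕ) (𝒲 : Finset B₁.Wall) (s₀ : B₁.Wall → B₁.Sheet), B₁.Adm x₁ s₀ →
      Good B₁ B₂ F R x₁ x₂ I 𝒲 → ∀ c', B₂.dist x₂ c' ≤ I →
      B₁.pr x₁ s₀ 𝒲 (fun s => c' ∈ φ.push (B₁.Ap x₁ s)) ≤ b * B₁.r x₁ (G c') := by
  obtain ⟨N, hN⟩ := B₁.exists_ball_card (K * R + 2 * K)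
  obtain ⟨Q, hQ, hr⟩ := B₁.exists_r_ratio
  refine ⟨(N + 1) * Q ^ (K * R + 2 * K), mul_pos (by positivity) (pow_pos (by linarith) _), ?_⟩
  intro I 𝒲 s₀ hs₀ hgood c' hc'
  have h1 : B₁.pr x₁ s₀ 𝒲 (fun s => c' ∈ φ.push (B₁.Ap x₁ s)) ≤
      B₁.pr x₁ s₀ 𝒲 (fun s => ∃ c ∈ (B₁.ballF (G c') (K * R + 2 * K)).filter (fun c => B₂.dist (F c) c' ≤ R), c ∈ B₁.Ap x₁ s) := by
    apply B₁.pr_mono
    intro s _ h
    obtain ⟨c, hc, hd⟩ := BCM.push_near φ h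
    exact ⟨c, Finset.mem_filter.2 ⟨B₁.mem_ballF.2 (hp.near hd), hd⟩, hc⟩
  refine h1.trans ((B₁.pr_exists_le 𝒲 _ (fun c s => c ∈ B₁.Ap x₁ s)).trans ?_)
  have h2 : ∀ c ∈ (B₁.ballF (G c') (K * R + 2 * K)).filter (fun c => B₂.dist (F c) c' ≤ R),
      B₁.pr x₁ s₀ 𝒲 (fun s => c ∈ B₁.Ap x₁ s) ≤ Q ^ (K * R + 2 * K) * B₁.r x₁ (G c') := by
    intro c hc
    rw [Finset.mem_filter, B₁.mem_ballF] at hc
    rw [B₁.pr_mem_Ap hs₀ 𝒲 (hgood c' hc' c hc.2)]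
    refine (hr x₁ c (G c')).trans (mul_le_mul_of_nonneg_right (pow_le_pow_right₀ hQ ?_) (B₁.r_pos x₁ _).le)
    rw [B₁.dist_comm]; exact hc.1
  refine (Finset.sum_le_sum h2).trans ?_
  rw [Finset.sum_const, nsmul_eq_mul, mul_assoc]
  apply mul_le_mul_of_nonneg_right _ (mul_nonneg (pow_nonneg (by linarith) _) (B₁.r_pos x₁ _).le)
  have h3 := (Finset.card_filter_le (B₁.ballF (G c') (K * R + 2 * K)) (fun c => B₂.dist (F c) c' ≤ R)).trans (hN (G c'))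
  have h4 : (((B₁.ballF (G c') (K * R + 2 * K)).filter (fun c => B₂.dist (F c) c' ≤ R)).card : ℝ) ≤ N := by
    exact_mod_cast h3
  linarith


/-- `M k = ∑ c' ∈ sphere k, [c' ∈ push] v c'`; `avg_sum`, `avg_mul`, `v ≤ b₂ r₂` (`exists_v_bounds`), `exists_pr_push` -/
theorem exists_avg_M_le (w₂ : Weights B₂.q) {F : C₁ → C₂} {G : C₂ → C₁} {K R : ℕ}
    (hp : Bldg.Pair B₁ B₂ F G K) (φ : BCM B₁ B₂ F R) (x₁ : C₁) (x₂ : C₂) :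
    ∃ b : ℝ, 0 < b ∧ ∀ (I : ℕ) (𝒲 : Finset B₁.Wall) (s₀ : B₁.Wall → B₁.Sheet), B₁.Adm x₁ s₀ →
      Good B₁ B₂ F R x₁ x₂ I 𝒲 → ∀ k ≤ I,
      B₁.avg x₁ s₀ 𝒲 (fun s => B₂.M w₂ x₂ (φ.push (B₁.Ap x₁ s)) k) ≤
        b * ∑ c' ∈ B₂.sphereF x₂ k, B₂.r x₂ c' * B₁.r x₁ (G c') := by
  obtain ⟨b₁, hb₁, hpush⟩ := exists_pr_push B₁ B₂ hp φ x₁ x₂
  obtain ⟨a, b₂, _, hb₂, hv⟩ := B₂.exists_v_bounds w₂
  refine ⟨b₂ * b₁, mul_pos hb₂ hb₁, ?_⟩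
  intro I 𝒲 s₀ hs₀ hgood k hk
  have h1 : B₁.avg x₁ s₀ 𝒲 (fun s => B₂.M w₂ x₂ (φ.push (B₁.Ap x₁ s)) k) =
      ∑ c' ∈ B₂.sphereF x₂ k, B₂.v w₂ x₂ c' * B₁.pr x₁ s₀ 𝒲 (fun s => c' ∈ φ.push (B₁.Ap x₁ s)) := by
    unfold Bldg.M
    rw [B₁.avg_sum]
    apply Finset.sum_congr rfl
    intro c' _
    unfold Bldg.pr
    rw [← B₁.avg_mul]
    congr 1
    funext s
    by_cases h : c' ∈ φ.push (B₁.Ap x₁ s)
    · rw [if_pos h, if_pos h, mul_one]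
    · rw [if_neg h, if_neg h, mul_zero]
  rw [h1, Finset.mul_sum]
  apply Finset.sum_le_sum
  intro c' hc'
  have hd : B₂.dist x₂ c' ≤ I := by rw [B₂.mem_sphereF.1 hc']; exact hk
  have h2 := hpush I 𝒲 s₀ hs₀ hgood c' hd
  have h3 := (hv x₂ c').2.1
  calc B₂.v w₂ x₂ c' * B₁.pr x₁ s₀ 𝒲 (fun s => c' ∈ φ.push (B₁.Ap x₁ s))
      ≤ (b₂ * B₂.r x₂ c') * (b₁ * B₁.r x₁ (G c')) :=
        mul_le_mul h3 h2 (B₁.pr_nonneg 𝒲 _) (mul_nonneg hb₂.le (B₂.r_pos x₂ c').le)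
    _ = b₂ * b₁ * (B₂.r x₂ c' * B₁.r x₁ (G c')) := by ring


end QFC
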