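import Pool.Agent.QFC.H2

/-! # H3 : push-forwards of cycles are cycles; functoriality -/

open scoped Classical

namespace QFC

namespace Bldg

variable {n : ℕ} [NeZero n] {C : Type} (B : Bldg n C)

/-- Exchange the sums; for fixed `j` group the chambers `c ∈ Q ∩ S` by their `j`-panel: if `f p ≠ 0` all chambers of the panel `p` are in `Q`, and `S` contains an even number of them; if `f p = 0` the contribution is `0`. -/
theorem sum_cycle {S : Set C} (hS : B.IsCycle S) (f : B.Pnl → ZMod 2) (Q : Finset C)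
    (hQ : ∀ j c, f (B.mkP j c) ≠ 0 → c ∈ Q) :
    ∑ c ∈ Q.filter (fun c => c ∈ S), ∑ j : ZMod n, f (B.mkP j c) = 0 := by
  rw [Finset.sum_comm]
  apply Finset.sum_eq_zero
  intro j _
  rw [Finset.sum_comp (fun p => f p) (fun c => B.mkP j c)]
  apply Finset.sum_eq_zero
  intro b hb
  obtain ⟨c₀, hc₀, rfl⟩ := Finset.mem_image.1 hb
  by_cases hf : f (B.mkP j c₀) = 0
  · rw [hf, smul_zero]
  · have h1 : (Finset.filter (fun a => B.mkP j a = B.mkP j c₀) (Q.filter (fun c => c ∈ S)) : Set C) = S ∩ B.panel j c₀ := by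
      ext a
      rw [Finset.mem_coe, Finset.mem_filter, Finset.mem_filter]
      constructor
      · rintro ⟨⟨_, h2⟩, h3⟩
        exact ⟨h2, B.adj_symm ((B.mkP_eq_iff).1 h3).2⟩
      · rintro ⟨h2, h3⟩
        have h4 : B.mkP j a = B.mkP j c₀ := B.mkP_eq_iff.2 ⟨rfl, B.adj_symm h3⟩
        exact ⟨⟨hQ j a (by rw [h4]; exact hf), h2⟩, h4⟩
    have h5 := hS j c₀
    rw [← h1, Set.ncard_coe_finset] at h5
    rw [nsmul_eq_mul, ZMod.natCast_eq_zero_iff_even.2 h5, zero_mul]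


end Bldg

namespace BCM

variable {n₁ n₂ n₃ : ℕ} [NeZero n₁] [NeZero n₂] [NeZero n₃] {C₁ C₂ C₃ : Type} {B₁ : Bldg n₁ C₁} {B₂ : Bldg n₂ C₂}
  {B₃ : Bldg n₃ C₃}

/-- Let `π' = mkP i c'`. The parity of `(push S ∩ panel i c').ncard` is `∑ d ∈ panel, [d ∈ push S] = ∑ d ∈ panel ∑ c ∈ Q ∩ S, φ2 (single c) d` (`mem_push_iff`; `Q` = the finite set of `c` with `dist (F c) d ≤ R` for some `d` in the panel)
`= ∑ c ∈ Q ∩ S, d2 (φ2 (single c)) π'` (`d2_apply`) `= ∑ c ∈ Q ∩ S, φ1 (d2 (single c)) π' = ∑ c ∈ Q ∩ S ∑ j, φ1 (single (mkP j c)) π' = 0` (`comm2`, `d2_single`, `sum_cycle` with `f p = φ1 (single p 1) π'`; `hQ` from `near1`). -/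
theorem push_cycle {F : C₁ → C₂} {R : ℕ} (φ : BCM B₁ B₂ F R) (hF : Proper B₁ B₂ F) {S : Set C₁} (hS : B₁.IsCycle S) :
    B₂.IsCycle (φ.push S) := by
  intro i c'
  have hfin : (⋃ d ∈ B₂.panel i c', {c | B₂.dist (F c) d ≤ R}).Finite :=
    (B₂.panel_finite i c').biUnion (fun d _ => hF d R)
  have hQ : ∀ d ∈ (B₂.panel_finite i c').toFinset, ∀ c, φ.φ2 (Finsupp.single c 1) d ≠ 0 → c ∈ hfin.toFinset := by
    intro d hd c hc
    rw [Set.Finite.mem_toFinset] at hd ⊢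
    exact Set.mem_biUnion (x := d) hd (φ.near2 c d hc)
  have hcard : (φ.push S ∩ B₂.panel i c').ncard =
      ((B₂.panel_finite i c').toFinset.filter (fun d => d ∈ φ.push S)).card := by
    rw [← Set.ncard_coe_finset]
    congr 1
    ext d
    rw [Finset.mem_coe, Finset.mem_filter, Set.Finite.mem_toFinset]
    exact and_comm
  rw [hcard, ← ZMod.natCast_eq_zero_iff_even, Finset.card_filter, Nat.cast_sum]
  have h1 : ∀ d ∈ (B₂.panel_finite i c').toFinset, ((if d ∈ φ.push S then 1 else 0 : ℕ) : ZMod 2) =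
      ∑ c ∈ hfin.toFinset.filter (fun c => c ∈ S), φ.φ2 (Finsupp.single c 1) d := by
    intro d hd
    have h2 := mem_push_iff φ (S := S) hfin.toFinset (hQ d hd)
    by_cases h : d ∈ φ.push S
    · rw [if_pos h, h2.1 h, Nat.cast_one]
    · rw [if_neg h, Nat.cast_zero]
      have h3 : ¬ (∑ c ∈ hfin.toFinset.filter (fun c => c ∈ S), φ.φ2 (Finsupp.single c 1) d) = 1 := fun h4 => h (h2.2 h4)
      revert h3
      generalize (∑ c ∈ hfin.toFinset.filter (fun c => c ∈ S), φ.φ2 (Finsupp.single c 1) d) = t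
      revert t
      decide
  rw [Finset.sum_congr rfl h1, Finset.sum_comm]
  have h5 : ∀ c ∈ hfin.toFinset.filter (fun c => c ∈ S),
      ∑ d ∈ (B₂.panel_finite i c').toFinset, φ.φ2 (Finsupp.single c 1) d =
        ∑ j : ZMod n₁, φ.φ1 (Finsupp.single (B₁.mkP j c) 1) (B₂.mkP i c') := by
    intro c _
    rw [← B₂.d2_apply, φ.comm2, B₁.d2_single, map_sum, Finsupp.finset_sum_apply]
  rw [Finset.sum_congr rfl h5]
  apply B₁.sum_cycle hS (fun p => φ.φ1 (Finsupp.single p 1) (B₂.mkP i c'))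
  intro j c hc
  obtain ⟨e, he, hd⟩ := φ.near1 j c _ hc
  have he' : e ∈ B₂.panel i c' := B₂.adj_symm ((B₂.mkP_eq_iff).1 he).2
  rw [Set.Finite.mem_toFinset]
  exact Set.mem_biUnion (x := e) he' hd


end BCM

end QFC
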