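import Pool.Agent.QFC.A7
import Pool.Agent.QFC.LimitData

/-! # K01 : defect-free sets ('apartments' for the root `η`): first properties -/

open scoped Classical

namespace QFC

namespace Bldg

variable {n : ℕ} {C : Type} (B : Bldg n C)
variable {η : B.Wall → B.Sheet}

/-- the gate `g` of a panel met by `S` is in `S` (`NoDef`) -/
theorem Apt_gate_mem {S : Set C} (hS : S ∈ B.Apt η) {i : ZMod n} {c g : C} (hc : c ∈ S) (h : B.adj i c g)
    (hg : i ∉ B.D η g) : g ∈ S := by
  rcases hS i g hg with h1 | ⟨d, _, h1⟩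
  · exfalso
    have h2 : c ∈ S ∩ B.panel i g := ⟨hc, B.adj_symm h⟩
    rw [h1] at h2
    exact h2
  · have h2 : g ∈ S ∩ B.panel i g := by
      rw [h1]
      exact Or.inl rfl
    exact h2.1

theorem k01_panel_eq {i : ZMod n} {c g : C} (h : B.adj i c g) : B.panel i c = B.panel i g := by
  ext d
  constructor
  · intro hd
    exact B.adj_trans (B.adj_symm h) hd
  · intro hd
    exact B.adj_trans h hd

/-- exactly two chambers in every panel met by `S` -/
theorem Apt_other (hη : B.IsRoller η) {S : Set C} (hS : S ∈ B.Apt η) (i : ZMod n) {c : C} (hc : c ∈ S) :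
    ∃ d, d ≠ c ∧ S ∩ B.panel i c = {c, d} := by
  obtain ⟨g, hg, hgD⟩ := B.exists_gate_roller hη i c
  rw [B.k01_panel_eq hg]
  have hcm : c ∈ S ∩ B.panel i g := ⟨hc, B.adj_symm hg⟩
  rcases hS i g hgD with h1 | ⟨d, hd, h1⟩
  · exfalso
    rw [h1] at hcm
    exact hcm
  · have h2 := hcm
    rw [h1] at h2
    rcases h2 with h2 | h2
    · subst h2
      exact ⟨d, hd, h1⟩
    · rw [Set.mem_singleton_iff] at h2
      subst h2
      exact ⟨g, hd.symm, h1.trans (Set.pair_comm g c)⟩

/-- Induction on `dist c e`. If `c ≠ e`, `exists_sep_side` gives `i` with `T = wall i c ∈ Sep c e`, so `σ T e = η T`. Let `g` be the chamber of the panel `(i, c)` with `σ T g = σ T e = η T` (`exists_gate`): `i ∉ D η g`, so `g ∈ S` (`Apt_gate_mem`);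
`dist g e < dist c e` (`step_toward`); for `U ≠ T` `σ U g = σ U c`, so the hypothesis holds for `g`. -/
theorem Apt_toward_root (hη : B.IsRoller η) {S : Set C} (hS : S ∈ B.Apt η) {c e : C} (hc : c ∈ S)
    (he : ∀ T, B.σ T e = B.σ T c ∨ B.σ T e = η T) : e ∈ S := by
  obtain ⟨k, hk⟩ : ∃ k, B.dist c e = k := ⟨_, rfl⟩
  induction k generalizing c with
  | zero =>
    have h := B.dist_eq_zero hk
    rw [← h]
    exact hc
  | succ k ih =>
    have hne : c ≠ e := by
      intro h
      rw [h, B.dist_self] at hk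
      omega
    obtain ⟨i, hi⟩ := B.exists_sep_side hne
    obtain ⟨g, hg, hgσ⟩ := B.exists_gate i c e
    have hT : B.σ (B.wall i c) e = η (B.wall i c) := by
      rcases he (B.wall i c) with h | h
      · exact absurd h.symm hi
      · exact h
    have hgD : i ∉ B.D η g := by
      intro h
      have h' : B.σ (B.wall i g) g ≠ η (B.wall i g) := h
      rw [← B.wall_adj hg] at h'
      exact h' (hgσ.trans hT)
    have hst := (B.step_toward hi hg hgσ).2
    refine ih (B.Apt_gate_mem hS hc hg hgD) ?_ (by omega)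
    intro U
    by_cases hU : U = B.wall i c
    · rw [hU]
      exact Or.inr hT
    · rw [← B.σ_eq hg hU]
      exact he U

/-- `0` or `2` chambers in a panel (use the gate of the panel) -/
theorem Apt_cycle (hη : B.IsRoller η) {S : Set C} (hS : S ∈ B.Apt η) : B.IsCycle S := by
  intro i c
  obtain ⟨g, hg, hgD⟩ := B.exists_gate_roller hη i c
  rw [B.k01_panel_eq hg]
  rcases hS i g hgD with h1 | ⟨d, hd, h1⟩
  · rw [h1, Set.ncard_empty]
    exact Even.zero
  · rw [h1, Set.ncard_pair hd.symm]
    exact even_two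

end Bldg

end QFC
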