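import Pool.Agent.QFC.E1b
import Pool.Agent.QFC.E2
import Pool.Agent.QFC.H3
import Pool.Agent.QFC.K01
import Pool.Agent.QFC.B3b

/-! # E3 : the expected number of defects is bounded -/

open scoped Classical

namespace QFC

variable {n₁ n₂ : ℕ} [NeZero n₁] [NeZero n₂] {C₁ C₂ : Type} (B₁ : Bldg n₁ C₁) (B₂ : Bldg n₂ C₂)

/-- `Ap_Apt`, `Apt_cycle`, `push_cycle` -/
theorem push_Ap_cycle {F : C₁ → C₂} {G : C₂ → C₁} {K R : ℕ}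
    (hp : Bldg.Pair B₁ B₂ F G K) (φ : BCM B₁ B₂ F R) {x₁ : C₁} {s : B₁.Wall → B₁.Sheet} (hs : B₁.Adm x₁ s) :
    B₂.IsCycle (φ.push (B₁.Ap x₁ s)) := by
  refine BCM.push_cycle φ (fun c' ρ => hp.proper c' ρ) ?_
  exact B₁.Apt_cycle (η := B₁.pt x₁) (fun _ => ⟨x₁, fun _ _ => rfl⟩) (B₁.Ap_Apt hs)

theorem e3_ball_sum (x : C₂) (f : C₂ → ℝ) (I : ℕ) :
    ∑ c' ∈ B₂.ballF x I, f c' = ∑ k ∈ Finset.range (I + 1), ∑ c' ∈ B₂.sphereF x k, f c' := by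
  have h : B₂.ballF x I = (Finset.range (I + 1)).biUnion (fun k => B₂.sphereF x k) := by
    ext c
    rw [Finset.mem_biUnion, B₂.mem_ballF]
    constructor
    · intro h
      exact ⟨B₂.dist x c, Finset.mem_range.2 (Nat.lt_succ_iff.2 h), B₂.mem_sphereF.2 rfl⟩
    · rintro ⟨k, hk, hc⟩
      rw [B₂.mem_sphereF.1 hc]
      exact Nat.lt_succ_iff.1 (Finset.mem_range.1 hk)
  rw [h, Finset.sum_biUnion]
  intro k _ l _ hkl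
  rw [Function.onFun, Finset.disjoint_left]
  intro c hc hc'
  exact hkl ((B₂.mem_sphereF.1 hc).symm.trans (B₂.mem_sphereF.1 hc'))

theorem e3_M_zero (w₂ : Weights B₂.q) (x₂ : C₂) (S : Set C₂) (k : ℕ) : 0 ≤ B₂.M w₂ x₂ S k := by
  unfold Bldg.M
  refine Finset.sum_nonneg (fun c _ => ?_)
  split_ifs
  · exact (B₂.v_pos w₂ x₂ c).le
  · exact le_refl _

/-- For a cycle `S` of `B₂`: `M (I + 1) ≥ ∑_{c' ∈ ball x₂ I} ∑_{j ∉ D c'} fl c' j * dfct S c' j ≥ a ∑_{c' ∈ ball x₂ I} r c' [∃ j ∉ D c', ¬ NoDef S j c']` (`M_succ`, `M 0 ≥ 0`, `dfct_nonneg`, `dfct_ge_one`, `exists_v_bounds`) -/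
theorem exists_M_lower (w₂ : Weights B₂.q) (x₂ : C₂) : ∃ a : ℝ, 0 < a ∧ ∀ (S : Set C₂), B₂.IsCycle S → ∀ I,
    a * ∑ c' ∈ B₂.ballF x₂ I, (if ∃ j, j ∉ B₂.D (B₂.pt x₂) c' ∧ ¬ B₂.NoDef S j c' then B₂.r x₂ c' else 0)
      ≤ B₂.M w₂ x₂ S (I + 1) := by
  obtain ⟨a, b, ha, hb, hab⟩ := B₂.exists_v_bounds w₂
  refine ⟨a, ha, fun S hS I => ?_⟩
  set ind : C₂ → ℝ := fun c' =>
    (if ∃ j, j ∉ B₂.D (B₂.pt x₂) c' ∧ ¬ B₂.NoDef S j c' then B₂.r x₂ c' else 0) with hind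
  have hterm : ∀ c, a * ind c ≤ ∑ j ∈ Finset.univ.filter (fun j => j ∉ B₂.D (B₂.pt x₂) c),
      B₂.fl w₂ x₂ c j * B₂.dfct S c j := by
    intro c
    have hnn : ∀ j ∈ Finset.univ.filter (fun j => j ∉ B₂.D (B₂.pt x₂) c),
        0 ≤ B₂.fl w₂ x₂ c j * B₂.dfct S c j :=
      fun j _ => mul_nonneg (B₂.fl_pos w₂ x₂ c j).le (B₂.dfct_nonneg hS c j)
    by_cases hc : ∃ j, j ∉ B₂.D (B₂.pt x₂) c ∧ ¬ B₂.NoDef S j c
    · have h0 : ind c = B₂.r x₂ c := by rw [hind]; simp only [if_pos hc]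
      obtain ⟨j, hj, hj'⟩ := hc
      have h1 := Finset.single_le_sum hnn (Finset.mem_filter.2 ⟨Finset.mem_univ j, hj⟩)
      refine le_trans ?_ h1
      rw [h0]
      have h2 := (hab x₂ c).2.2 j
      have h3 := B₂.dfct_ge_one hS c j hj'
      have h4 := B₂.fl_pos w₂ x₂ c j
      nlinarith
    · have h0 : ind c = 0 := by rw [hind]; simp only [if_neg hc]
      rw [h0, mul_zero]
      exact Finset.sum_nonneg hnn
  have hstep : ∀ k, a * ∑ c ∈ B₂.sphereF x₂ k, ind c ≤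
      B₂.M w₂ x₂ S (k + 1) - B₂.M w₂ x₂ S k := by
    intro k
    rw [B₂.M_succ w₂ x₂ S k, Finset.mul_sum]
    have := Finset.sum_le_sum (fun c (_ : c ∈ B₂.sphereF x₂ k) => hterm c)
    linarith
  have hsum : ∀ I, a * ∑ k ∈ Finset.range (I + 1), ∑ c ∈ B₂.sphereF x₂ k, ind c ≤
      B₂.M w₂ x₂ S (I + 1) := by
    intro I
    induction I with
    | zero =>
      have h1 := hstep 0
      have h2 := e3_M_zero B₂ w₂ x₂ S 0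
      rw [Finset.sum_range_one]
      linarith
    | succ I ih =>
      rw [Finset.sum_range_succ, mul_add]
      have h1 := hstep (I + 1)
      linarith
  rw [e3_ball_sum B₂ x₂ ind I]
  exact hsum I

/-- average of `exists_M_lower` (`avg_mono`, `avg_sum`, `avg_mul`), `exists_avg_M_le`, `exists_energy` -/
theorem exists_defect_sum (w₁ : Weights B₁.q) (w₂ : Weights B₂.q) {F : C₁ → C₂} {G : C₂ → C₁} {K R : ℕ}
    (hp : Bldg.Pair B₁ B₂ F G K) (φ : BCM B₁ B₂ F R) (x₁ : C₁) (x₂ : C₂) :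
    ∃ b : ℝ, ∀ (I : ℕ) (𝒲 : Finset B₁.Wall) (s₀ : B₁.Wall → B₁.Sheet), B₁.Adm x₁ s₀ →
      Good B₁ B₂ F R x₁ x₂ (I + 1) 𝒲 →
      ∑ c' ∈ B₂.ballF x₂ I, B₂.r x₂ c' * B₁.pr x₁ s₀ 𝒲 (fun s => DefAt B₁ B₂ φ x₁ x₂ c' s) ≤ b := by
  obtain ⟨a, ha, haM⟩ := exists_M_lower B₂ w₂ x₂
  obtain ⟨b₁, hb₁, hM⟩ := exists_avg_M_le B₁ B₂ w₂ hp φ x₁ x₂
  obtain ⟨b₂, hb₂, hE⟩ := exists_energy B₁ B₂ w₁ w₂ hp x₁ x₂
  refine ⟨b₁ * b₂ / a, fun I 𝒲 s₀ hs₀ hG => ?_⟩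
  have h1 : B₁.avg x₁ s₀ 𝒲 (fun s => ∑ c' ∈ B₂.ballF x₂ I, (a * B₂.r x₂ c') *
      (if DefAt B₁ B₂ φ x₁ x₂ c' s then (1 : ℝ) else 0)) ≤
      B₁.avg x₁ s₀ 𝒲 (fun s => B₂.M w₂ x₂ (φ.push (B₁.Ap x₁ s)) (I + 1)) := by
    refine B₁.avg_mono 𝒲 (fun s hs => ?_)
    refine le_trans (le_of_eq ?_) (haM (φ.push (B₁.Ap x₁ s)) (push_Ap_cycle B₁ B₂ hp φ hs) I)
    rw [Finset.mul_sum]
    refine Finset.sum_congr rfl (fun c' _ => ?_)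
    by_cases hc : DefAt B₁ B₂ φ x₁ x₂ c' s
    · rw [if_pos hc, mul_one]
      unfold DefAt at hc
      rw [if_pos hc]
    · rw [if_neg hc, mul_zero]
      unfold DefAt at hc
      rw [if_neg hc, mul_zero]
  rw [B₁.avg_sum] at h1
  have h2 := hM (I + 1) 𝒲 s₀ hs₀ hG (I + 1) (le_refl _)
  have h3 := hE (I + 1)
  have h4 : ∑ c' ∈ B₂.ballF x₂ I, B₁.avg x₁ s₀ 𝒲 (fun s => (a * B₂.r x₂ c') *
      (if DefAt B₁ B₂ φ x₁ x₂ c' s then (1 : ℝ) else 0)) =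
      a * ∑ c' ∈ B₂.ballF x₂ I, B₂.r x₂ c' * B₁.pr x₁ s₀ 𝒲 (fun s => DefAt B₁ B₂ φ x₁ x₂ c' s) := by
    rw [Finset.mul_sum]
    refine Finset.sum_congr rfl (fun c' _ => ?_)
    rw [B₁.avg_mul]
    unfold Bldg.pr
    ring
  rw [h4] at h1
  rw [le_div_iff₀ ha]
  have h5 := mul_le_mul_of_nonneg_left h3 hb₁.le
  linarith

end QFC
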