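import Pool.Agent.QFC.H2

/-! # H3b : functoriality of push-forwards -/

open scoped Classical

namespace QFC

namespace BCM

variable {n₁ n₂ n₃ : ℕ} [NeZero n₁] [NeZero n₂] [NeZero n₃] {C₁ C₂ C₃ : Type} {B₁ : Bldg n₁ C₁} {B₂ : Bldg n₂ C₂}
  {B₃ : Bldg n₃ C₃}

theorem h3b_lin {G : C₂ → C₃} {R' : ℕ} (ψ : BCM B₂ B₃ G R') (c'' : C₃) (Q : Finset C₂)
    (hQ : ∀ c', ψ.φ2 (Finsupp.single c' 1) c'' ≠ 0 → c' ∈ Q) (y : C₂ →₀ ZMod 2) :
    ψ.φ2 y c'' = ∑ c' ∈ Q, y c' * ψ.φ2 (Finsupp.single c' 1) c'' := by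
  induction y using Finsupp.induction_linear with
  | zero => simp
  | add f g hf hg =>
    rw [map_add, Finsupp.add_apply, hf, hg, ← Finset.sum_add_distrib]
    refine Finset.sum_congr rfl fun c _ => ?_
    rw [Finsupp.add_apply, add_mul]
  | single a b =>
    have h2 : ∑ c' ∈ Q, (Finsupp.single a b : C₂ →₀ ZMod 2) c' * ψ.φ2 (Finsupp.single c' 1) c''
        = b * ψ.φ2 (Finsupp.single a 1) c'' := by
      rw [Finset.sum_eq_single a]
      · rw [Finsupp.single_eq_same]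
      · intro c _ hc
        rw [Finsupp.single_eq_of_ne hc, zero_mul]
      · intro ha
        have h3 : ψ.φ2 (Finsupp.single a 1) c'' = 0 := by
          by_contra h4
          exact ha (hQ a h4)
        rw [h3, mul_zero]
    rw [h2]
    have h1 : (Finsupp.single a b : C₂ →₀ ZMod 2) = b • Finsupp.single a (1 : ZMod 2) := by
      rw [Finsupp.smul_single, smul_eq_mul, mul_one]
    rw [h1, map_smul, Finsupp.smul_apply, smul_eq_mul]

/-- finite sums exchanged: `∑ c ∈ S, ψ2 (φ2 c) c'' = ∑ c' , ψ2 (single c') c'' * ∑ c ∈ S, φ2 (single c) c'` -/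
theorem push_push {F : C₁ → C₂} {G : C₂ → C₃} {R R' R'' : ℕ} (φ : BCM B₁ B₂ F R) (ψ : BCM B₂ B₃ G R')
    (χ : BCM B₁ B₃ (G ∘ F) R'') (hχ : ∀ y, χ.φ2 y = ψ.φ2 (φ.φ2 y)) (hF : Proper B₁ B₂ F)
    (hG : Proper B₂ B₃ G) (S : Set C₁) : ψ.push (φ.push S) = χ.push S := by
  ext c''
  set Q2 : Finset C₂ := (hG c'' R').toFinset with hQ2
  have hq2 : ∀ c', ψ.φ2 (Finsupp.single c' 1) c'' ≠ 0 → c' ∈ Q2 := by
    intro c' h
    rw [hQ2, Set.Finite.mem_toFinset]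
    exact ψ.near2 c' c'' h
  set Q1 : Finset C₁ := Q2.biUnion (fun c' => (hF c' R).toFinset) with hQ1
  have hq1 : ∀ c' ∈ Q2, ∀ c, φ.φ2 (Finsupp.single c 1) c' ≠ 0 → c ∈ Q1 := by
    intro c' hc' c h
    rw [hQ1, Finset.mem_biUnion]
    exact ⟨c', hc', (Set.Finite.mem_toFinset _).2 (φ.near2 c c' h)⟩
  have hlin : ∀ c, χ.φ2 (Finsupp.single c 1) c'' =
      ∑ c' ∈ Q2, φ.φ2 (Finsupp.single c 1) c' * ψ.φ2 (Finsupp.single c' 1) c'' := by
    intro c
    rw [hχ]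
    exact h3b_lin ψ c'' Q2 hq2 _
  have hq3 : ∀ c, χ.φ2 (Finsupp.single c 1) c'' ≠ 0 → c ∈ Q1 := by
    intro c h
    rw [hlin] at h
    obtain ⟨c', hc', h1⟩ := Finset.exists_ne_zero_of_sum_ne_zero h
    exact hq1 c' hc' c (fun h2 => h1 (by rw [h2, zero_mul]))
  rw [ψ.mem_push_iff Q2 hq2, χ.mem_push_iff Q1 hq3]
  have h2 : ∀ a : ZMod 2, a = 1 ∨ a = 0 := by decide
  have key : ∑ c' ∈ Q2.filter (fun c' => c' ∈ φ.push S), ψ.φ2 (Finsupp.single c' 1) c'' =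
      ∑ c ∈ Q1.filter (fun c => c ∈ S), χ.φ2 (Finsupp.single c 1) c'' := by
    calc ∑ c' ∈ Q2.filter (fun c' => c' ∈ φ.push S), ψ.φ2 (Finsupp.single c' 1) c''
        = ∑ c' ∈ Q2, (∑ c ∈ Q1.filter (fun c => c ∈ S), φ.φ2 (Finsupp.single c 1) c') *
            ψ.φ2 (Finsupp.single c' 1) c'' := by
          rw [Finset.sum_filter]
          refine Finset.sum_congr rfl fun c' hc' => ?_
          by_cases h : c' ∈ φ.push S
          · rw [if_pos h, (φ.mem_push_iff Q1 (hq1 c' hc')).1 h, one_mul]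
          · rw [if_neg h]
            have h3 : (∑ c ∈ Q1.filter (fun c => c ∈ S), φ.φ2 (Finsupp.single c 1) c') = 0 := by
              rcases h2 (∑ c ∈ Q1.filter (fun c => c ∈ S), φ.φ2 (Finsupp.single c 1) c') with h4 | h4
              · exact absurd ((φ.mem_push_iff Q1 (hq1 c' hc')).2 h4) h
              · exact h4
            rw [h3, zero_mul]
      _ = ∑ c' ∈ Q2, ∑ c ∈ Q1.filter (fun c => c ∈ S), φ.φ2 (Finsupp.single c 1) c' *
            ψ.φ2 (Finsupp.single c' 1) c'' := Finset.sum_congr rfl fun c' _ => Finset.sum_mul _ _ _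
      _ = ∑ c ∈ Q1.filter (fun c => c ∈ S), ∑ c' ∈ Q2, φ.φ2 (Finsupp.single c 1) c' *
            ψ.φ2 (Finsupp.single c' 1) c'' := Finset.sum_comm
      _ = ∑ c ∈ Q1.filter (fun c => c ∈ S), χ.φ2 (Finsupp.single c 1) c'' :=
          Finset.sum_congr rfl fun c _ => (hlin c).symm
  rw [key]

end BCM

end QFC
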