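import Pool.Agent.QFC.H4
import Pool.Agent.QFC.H3b

/-! # H4b : uniqueness of push-forwards, inverse of a quasi-isometry -/

open scoped Classical

namespace QFC

namespace BCM

variable {n₁ n₂ : ℕ} [NeZero n₁] [NeZero n₂] {C₁ C₂ : Type} {B₁ : Bldg n₁ C₁} {B₂ : Bldg n₂ C₂}

/-- For fixed `c'` let `Q` = the (finite, `Proper`) set of `c` with `dist (F c) c' ≤ R + 3 K`. `∑ c ∈ Q ∩ S, (φ2 (single c) + ψ2 (single c)) c' = ∑ c ∈ Q ∩ S ∑ j, h1 (mkP j c) c' = 0` by `sum_cycle`. With `mem_push_iff`. -/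
theorem push_unique {F : C₁ → C₂} {R K : ℕ} (φ ψ : BCM B₁ B₂ F R)
    (hL : ∀ a b, B₂.dist (F a) (F b) ≤ K * B₁.dist a b + K) (hF : Proper B₁ B₂ F) {S : Set C₁}
    (hS : B₁.IsCycle S) : φ.push S = ψ.push S := by
  obtain ⟨h1, hn, heq⟩ := exists_homotopy φ ψ hL
  ext c'
  have hfin := hF c' (R + 3 * K)
  rw [mem_push_iff φ hfin.toFinset (fun c hc => by
      rw [Set.Finite.mem_toFinset]
      exact le_trans (φ.near2 c c' hc) (Nat.le_add_right _ _)),
    mem_push_iff ψ hfin.toFinset (fun c hc => by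
      rw [Set.Finite.mem_toFinset]
      exact le_trans (ψ.near2 c c' hc) (Nat.le_add_right _ _))]
  have h2 : (∑ c ∈ hfin.toFinset.filter (fun c => c ∈ S), φ.φ2 (Finsupp.single c 1) c') +
      (∑ c ∈ hfin.toFinset.filter (fun c => c ∈ S), ψ.φ2 (Finsupp.single c 1) c') = 0 := by
    rw [← Finset.sum_add_distrib, ← B₁.sum_cycle hS (fun p => h1 p c') hfin.toFinset (fun j c hc => by
      rw [Set.Finite.mem_toFinset]
      exact hn j c c' hc)]
    apply Finset.sum_congr rfl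
    intro c _
    rw [← Finsupp.add_apply, heq c, Finsupp.finset_sum_apply]
  rw [CharTwo.add_eq_zero.1 h2]


theorem proper_of_pair {F : C₁ → C₂} {G : C₂ → C₁} {K : ℕ} (hp : Bldg.Pair B₁ B₂ F G K) : Proper B₁ B₂ F :=
  fun c' ρ => hp.proper c' ρ

/-- `exists_comp` gives `χ : BCM B₁ B₁ (G ∘ F) _` with `χ.push S = ψ.push (φ.push S)` (`push_push`); `exists_mono` (`dist (G (F c)) c ≤ K`) makes it a chain map over `id`; `exists_id` made of the same radius; `push_unique` for `id` (Lipschitz with constant `1`, proper); the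
push-forward of the identity is the identity (`mem_push_iff` / `single_apply`). `G` is proper by `Pair.symm`. -/
theorem push_inverse {F : C₁ → C₂} {G : C₂ → C₁} {K R R' : ℕ} (hp : Bldg.Pair B₁ B₂ F G K) (φ : BCM B₁ B₂ F R)
    (ψ : BCM B₂ B₁ G R') {S : Set C₁} (hS : B₁.IsCycle S) : ψ.push (φ.push S) = S := by
  obtain ⟨χ, hχ⟩ := exists_comp φ ψ hp.lipG
  rw [push_push φ ψ χ hχ (proper_of_pair hp) (proper_of_pair hp.symm) S]
  obtain ⟨χ', hχ'⟩ := exists_mono (F' := (id : C₁ → C₁)) (K := K) (R' := K * R + K + R' + K) χ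
    (fun c => hp.gf c) (le_refl _)
  obtain ⟨χ₀, hχ₀⟩ := exists_id B₁
  obtain ⟨χ₁, hχ₁⟩ := exists_mono (F' := (id : C₁ → C₁)) (K := 0) (R' := K * R + K + R' + K) χ₀
    (fun c => le_of_eq (B₁.dist_self c)) (Nat.zero_le _)
  have e1 : χ.push S = χ'.push S := by
    ext c'
    exact push_congr χ χ' (fun c _ => by rw [hχ'])
  have e2 : χ'.push S = χ₁.push S := by
    apply push_unique (K := 1) χ' χ₁ _ _ hS
    · intro a b
      show B₁.dist a b ≤ 1 * B₁.dist a b + 1
      omega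
    · intro c' ρ
      refine (B₁.ball_finite c' ρ).subset (fun c hc => ?_)
      show B₁.dist c' c ≤ ρ
      rw [B₁.dist_comm]; exact hc
  rw [e1, e2]
  ext c'
  rw [mem_push_iff χ₁ {c'} (fun c hc => by
    rw [hχ₁, hχ₀, Finsupp.single_apply] at hc
    by_cases h : c = c'
    · exact Finset.mem_singleton.2 h
    · rw [if_neg h] at hc; exact absurd rfl hc)]
  by_cases hc : c' ∈ S
  · rw [Finset.filter_singleton, if_pos hc, Finset.sum_singleton, hχ₁, hχ₀, Finsupp.single_eq_same]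
    exact ⟨fun _ => hc, fun _ => rfl⟩
  · rw [Finset.filter_singleton, if_neg hc, Finset.sum_empty]
    exact ⟨fun h => absurd h (by decide), fun h => absurd h hc⟩


end BCM

end QFC
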