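import Pool.Agent.QFC.E2
import Pool.Agent.QFC.B3b
import Pool.Agent.QFC.H4b
import Pool.Agent.QFC.K01

/-! # E4 : lower bound for the mass -/

open scoped Classical

namespace QFC

variable {n₁ n₂ : ℕ} [NeZero n₁] [NeZero n₂] {C₁ C₂ : Type} (B₁ : Bldg n₁ C₁) (B₂ : Bldg n₂ C₂)

/-- Let `S = Ap x₁ s`, `P = φ.push S` (a cycle: `Ap_Apt`, `Apt_cycle`, `push_cycle`). `x₁ ∈ S = ψ.push P` (`push_inverse`), so (`push_near`) some `c' ∈ P` has `dist (G c') x₁ ≤ R'`, hence `dist (F x₁) c' ≤ K R' + 2 K` and `dist x₂ c' ≤ k₀ := dist x₂ (F x₁) + K R' + 2 K`. So `M (dist x₂ c') P ≥ v c' ≥ κ :=` the minimum of `v` over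
`ball x₂ k₀` (`v_pos`), and `M` is nondecreasing (`M_mono`). -/
theorem exists_M_push_lower (w₂ : Weights B₂.q) {F : C₁ → C₂} {G : C₂ → C₁} {K R R' : ℕ}
    (hp : Bldg.Pair B₁ B₂ F G K) (φ : BCM B₁ B₂ F R) (ψ : BCM B₂ B₁ G R') (x₁ : C₁) (x₂ : C₂) :
    ∃ κ : ℝ, 0 < κ ∧ ∃ k₀ : ℕ, ∀ k ≥ k₀, ∀ s, B₁.Adm x₁ s → κ ≤ B₂.M w₂ x₂ (φ.push (B₁.Ap x₁ s)) k := by
  set k₀ : ℕ := B₂.dist x₂ (F x₁) + (K * R' + 2 * K) with hk₀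
  have hne : (B₂.ballF x₂ k₀).Nonempty := ⟨x₂, B₂.mem_ballF.2 (by rw [B₂.dist_self]; exact Nat.zero_le _)⟩
  obtain ⟨c₀, _, hmin⟩ := Finset.exists_min_image (B₂.ballF x₂ k₀) (fun c => B₂.v w₂ x₂ c) hne
  refine ⟨B₂.v w₂ x₂ c₀, B₂.v_pos w₂ x₂ c₀, k₀, fun k hk s hs => ?_⟩
  have hApt : B₁.Ap x₁ s ∈ B₁.Apt (B₁.pt x₁) := B₁.Ap_Apt hs
  have hcyc : B₁.IsCycle (B₁.Ap x₁ s) :=
    B₁.Apt_cycle (η := B₁.pt x₁) (fun _ => ⟨x₁, fun _ _ => rfl⟩) hApt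
  have hP : B₂.IsCycle (φ.push (B₁.Ap x₁ s)) :=
    BCM.push_cycle φ (fun c' ρ => hp.proper c' ρ) hcyc
  have hinv := BCM.push_inverse hp φ ψ hcyc
  have hx : x₁ ∈ ψ.push (φ.push (B₁.Ap x₁ s)) := by
    rw [hinv]
    exact B₁.mem_Ap_self x₁ s
  obtain ⟨c', hc', hd⟩ := BCM.push_near ψ hx
  have h1 : B₂.dist (F x₁) c' ≤ K * R' + 2 * K := hp.symm.near hd
  have h2 : B₂.dist x₂ c' ≤ k₀ := by
    have := B₂.dist_triangle x₂ (F x₁) c'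
    omega
  have h3 : B₂.v w₂ x₂ c₀ ≤ B₂.v w₂ x₂ c' := hmin c' (B₂.mem_ballF.2 h2)
  have h4 : B₂.v w₂ x₂ c' ≤ B₂.M w₂ x₂ (φ.push (B₁.Ap x₁ s)) (B₂.dist x₂ c') := by
    unfold Bldg.M
    have hnn : ∀ c ∈ B₂.sphereF x₂ (B₂.dist x₂ c'),
        0 ≤ (if c ∈ φ.push (B₁.Ap x₁ s) then B₂.v w₂ x₂ c else 0) := by
      intro c _
      split_ifs
      · exact (B₂.v_pos w₂ x₂ c).le
      · exact le_refl _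
    have h5 := Finset.single_le_sum hnn (B₂.mem_sphereF.2 rfl : c' ∈ B₂.sphereF x₂ (B₂.dist x₂ c'))
    rw [if_pos hc'] at h5
    exact h5
  exact (h3.trans h4).trans (B₂.M_mono w₂ hP x₂ (h2.trans hk))

/-- average of `exists_M_push_lower` (`exists_Adm`, `exists_good` with `I = k`, `avg_mono`, `avg_const`) and `exists_avg_M_le` -/
theorem exists_mass_lower (w₂ : Weights B₂.q) {F : C₁ → C₂} {G : C₂ → C₁} {K R R' : ℕ}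
    (hp : Bldg.Pair B₁ B₂ F G K) (φ : BCM B₁ B₂ F R) (ψ : BCM B₂ B₁ G R') (x₁ : C₁) (x₂ : C₂) :
    ∃ κ : ℝ, 0 < κ ∧ ∃ k₀ : ℕ, ∀ k ≥ k₀, κ ≤ ∑ c' ∈ B₂.sphereF x₂ k, B₂.r x₂ c' * B₁.r x₁ (G c') := by
  obtain ⟨κ, hκ, k₀, h⟩ := exists_M_push_lower B₁ B₂ w₂ hp φ ψ x₁ x₂
  obtain ⟨b, hb, hM⟩ := exists_avg_M_le B₁ B₂ w₂ hp φ x₁ x₂
  refine ⟨κ / b, div_pos hκ hb, k₀, fun k hk => ?_⟩
  obtain ⟨s₀, hs₀⟩ := B₁.exists_Adm x₁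
  obtain ⟨𝒲, _, hG⟩ := exists_good B₁ B₂ hp R x₁ x₂ k ∅
  have h1 := hM k 𝒲 s₀ hs₀ hG k (le_refl _)
  have h2 : B₁.avg x₁ s₀ 𝒲 (fun _ => κ) ≤
      B₁.avg x₁ s₀ 𝒲 (fun s => B₂.M w₂ x₂ (φ.push (B₁.Ap x₁ s)) k) :=
    B₁.avg_mono 𝒲 (fun s hs => h k hk s hs)
  rw [B₁.avg_const hs₀] at h2
  rw [div_le_iff₀ hb]
  linarith

end QFC
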