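import Pool.Agent.QFC.G3

/-! # G3b : every 1-cycle bounds -/

open scoped Classical

namespace QFC

namespace Bldg

variable {n : ℕ} [NeZero n] {C : Type} (B : Bldg n C)

/-- the measure -/
noncomputable def g3b_mu (x : C) (z : B.Pnl →₀ ZMod 2) : ℕ := ∑ p ∈ z.support, 3 ^ B.lev x p

theorem g3b_card_D (x d : C) : (Finset.univ.filter (fun i => i ∈ B.D (B.pt x) d)).card ≤ 2 := by
  rcases B.D_cases (B.pt_roller x) d with h | ⟨i, h⟩ | ⟨i, h⟩
  · refine le_trans (Finset.card_le_card (t := ∅) ?_) (by simp)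
    intro j hj
    have hj' := (Finset.mem_filter.1 hj).2
    rw [h] at hj'
    exact absurd hj' (Set.notMem_empty j)
  · refine le_trans (Finset.card_le_card (t := {i}) ?_) (by simp)
    intro j hj
    have hj' := (Finset.mem_filter.1 hj).2
    rw [h] at hj'
    rw [Finset.mem_singleton]
    exact hj'
  · refine le_trans (Finset.card_le_card (t := {i, i + 1}) ?_) Finset.card_le_two
    intro j hj
    have hj' := (Finset.mem_filter.1 hj).2
    rw [h] at hj'
    rw [Finset.mem_insert, Finset.mem_singleton]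
    exact hj'

theorem g3b_d2_single_apply (d : C) (i : ZMod n) (e : C) :
    B.d2 (Finsupp.single d 1) (B.mkP i e) = if B.adj i e d then 1 else 0 := by
  rw [B.d2_apply]
  by_cases h : B.adj i e d
  · rw [if_pos h, Finset.sum_eq_single d]
    · exact Finsupp.single_eq_same
    · intro f _ hf
      rw [Finsupp.single_apply, if_neg hf.symm]
    · intro h'
      exact absurd ((Set.Finite.mem_toFinset _).2 (show d ∈ B.panel i e from h)) h'
  · rw [if_neg h]
    apply Finset.sum_eq_zero
    intro f hf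
    have hf' : B.adj i e f := (Set.Finite.mem_toFinset _).1 hf
    rw [Finsupp.single_apply, if_neg]
    intro h'
    rw [← h'] at hf'
    exact h hf'

theorem g3b_step (x : C) {z : B.Pnl →₀ ZMod 2} (h : B.d1 z = 0) (hz : z ≠ 0) :
    ∃ d, g3b_mu B x (z + B.d2 (Finsupp.single d 1)) < g3b_mu B x z := by
  obtain ⟨p, hp, hmax⟩ := Finset.exists_max_image z.support (B.lev x) (Finsupp.support_nonempty_iff.2 hz)
  obtain ⟨d, hd, hdD⟩ := B.exists_gate_roller (B.pt_roller x) p.1 p.2.out
  have hpd : p = B.mkP p.1 d := by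
    have h1 := B.mkP_out p
    rw [← h1]
    exact B.mkP_eq hd
  have hlev : B.lev x p = B.dist x d := by
    rw [hpd]
    exact B.lev_gate hdD
  have hone : ∀ j, j ∉ B.D (B.pt x) d → z (B.mkP j d) = 1 := by
    intro j hj
    have h1 := B.cycle_arc h (x := x) (d := d) (fun p' hp' => by
      rw [← hlev]
      exact hmax p' (Finsupp.mem_support_iff.2 hp')) hj hdD
    rw [h1, ← hpd]
    have h2 := Finsupp.mem_support_iff.1 hp
    generalize z p = a at h2
    revert h2
    revert a
    decide
  refine ⟨d, ?_⟩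
  have hsub : (z + B.d2 (Finsupp.single d 1)).support ⊆ z.support.erase p ∪
      (Finset.univ.filter (fun i => i ∈ B.D (B.pt x) d)).image (fun i => B.mkP i d) := by
    intro p' hp'
    rw [Finsupp.mem_support_iff, Finsupp.add_apply] at hp'
    rw [Finset.mem_union, Finset.mem_erase, Finset.mem_image]
    have ho := B.mkP_out p'
    by_cases hadj : B.adj p'.1 p'.2.out d
    · have hp'd : p' = B.mkP p'.1 d := by
        have e1 := B.mkP_eq hadj
        rw [ho] at e1
        exact e1
      by_cases hD : p'.1 ∈ B.D (B.pt x) d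
      · right
        refine ⟨p'.1, ?_, hp'd.symm⟩
        rw [Finset.mem_filter]
        exact ⟨Finset.mem_univ _, hD⟩
      · exfalso
        apply hp'
        have e2 := hone p'.1 hD
        rw [← hp'd] at e2
        have e3 := B.g3b_d2_single_apply d p'.1 p'.2.out
        rw [ho, if_pos hadj] at e3
        rw [e2, e3]
        decide
    · left
      have e3 := B.g3b_d2_single_apply d p'.1 p'.2.out
      rw [ho, if_neg hadj] at e3
      rw [e3, add_zero] at hp'
      refine ⟨?_, Finsupp.mem_support_iff.2 hp'⟩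
      intro h'
      rw [h'] at hadj
      exact hadj hd
  have hsum : ∑ i ∈ Finset.univ.filter (fun i => i ∈ B.D (B.pt x) d), 3 ^ B.lev x (B.mkP i d) < 3 ^ B.dist x d := by
    have e1 : 3 * ∑ i ∈ Finset.univ.filter (fun i => i ∈ B.D (B.pt x) d), 3 ^ B.lev x (B.mkP i d) ≤ 2 * 3 ^ B.dist x d := by
      rw [Finset.mul_sum]
      have e2 : ∀ i ∈ Finset.univ.filter (fun i => i ∈ B.D (B.pt x) d), 3 * 3 ^ B.lev x (B.mkP i d) = 3 ^ B.dist x d := by
        intro i hi
        rw [Finset.mem_filter] at hi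
        rw [← pow_succ', B.lev_desc hi.2]
      rw [Finset.sum_congr rfl e2, Finset.sum_const, smul_eq_mul]
      exact Nat.mul_le_mul_right _ (B.g3b_card_D x d)
    have e3 : 0 < 3 ^ B.dist x d := pow_pos (by norm_num) _
    omega
  unfold g3b_mu
  calc ∑ p' ∈ (z + B.d2 (Finsupp.single d 1)).support, 3 ^ B.lev x p'
      ≤ ∑ p' ∈ z.support.erase p ∪
          (Finset.univ.filter (fun i => i ∈ B.D (B.pt x) d)).image (fun i => B.mkP i d), 3 ^ B.lev x p' :=
        Finset.sum_le_sum_of_subset hsub
    _ ≤ ∑ p' ∈ z.support.erase p, 3 ^ B.lev x p' + ∑ p' ∈ (Finset.univ.filter (fun i => i ∈ B.D (B.pt x) d)).image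
          (fun i => B.mkP i d), 3 ^ B.lev x p' := by
        rw [← Finset.sum_union_inter]
        exact Nat.le_add_right _ _
    _ = ∑ p' ∈ z.support.erase p, 3 ^ B.lev x p' +
          ∑ i ∈ Finset.univ.filter (fun i => i ∈ B.D (B.pt x) d), 3 ^ B.lev x (B.mkP i d) := by
        rw [Finset.sum_image (fun i _ i' _ hii => (B.mkP_eq_iff.1 hii).1)]
    _ < ∑ p' ∈ z.support.erase p, 3 ^ B.lev x p' + 3 ^ B.lev x p := by
        rw [hlev]
        exact Nat.add_lt_add_left hsum _
    _ = ∑ p' ∈ z.support, 3 ^ B.lev x p' := Finset.sum_erase_add _ _ hp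

/-- Strong induction on `μ z = ∑ p ∈ z.support, 3 ^ lev x p` (fix any `x`). If `z ≠ 0` take a panel `π = mkP j d` of maximal level `k`, `d` its gate (`exists_gate_roller`). By `cycle_arc` `z (mkP j' d) = 1` for all `j' ∉ D d`.
`z' = z + d2 (single d 1)`: all panels `(j', d)`, `j' ∉ D d` (level `k`, at least one) disappear, the other panels of `d` (at most `2`: `i ∈ D d`, of level `k - 1`) are toggled. So `μ z' ≤ μ z - 3 ^ k + 2 * 3 ^ (k - 1) < μ z` (if `k = 0` then `d = x`, `D d = ∅`).
`z' = d2 y'`, `y = y' + single d 1`. -/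
theorem exists_fill {z : B.Pnl →₀ ZMod 2} (h : B.d1 z = 0) : ∃ y, B.d2 y = z := by
  by_cases hz : z = 0
  · exact ⟨0, by rw [hz, map_zero]⟩
  · obtain ⟨p, _⟩ := Finsupp.support_nonempty_iff.2 hz
    have key : ∀ m (z : B.Pnl →₀ ZMod 2), g3b_mu B p.2.out z < m → B.d1 z = 0 → ∃ y, B.d2 y = z := by
      intro m
      induction m with
      | zero => intro z hm; exact absurd hm (Nat.not_lt_zero _)
      | succ m ih =>
        intro z hm hz1
        by_cases hz : z = 0
        · exact ⟨0, by rw [hz, map_zero]⟩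
        · obtain ⟨d, hd⟩ := B.g3b_step p.2.out hz1 hz
          obtain ⟨y, hy⟩ := ih (z + B.d2 (Finsupp.single d 1)) (by omega) (by
            rw [map_add, hz1, B.d1_d2, add_zero])
          refine ⟨y + Finsupp.single d 1, ?_⟩
          rw [map_add, hy, add_assoc, ZModModule.add_self, add_zero]
    exact key _ z (Nat.lt_succ_self _) h

end Bldg

end QFC
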