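import Pool.Agent.QFC.G1

/-! # G4 : connectivity -/

open scoped Classical

namespace QFC

namespace Bldg

variable {n : ℕ} [NeZero n] {C : Type} (B : Bldg n C)

theorem g4_near1_zero (x : C) (N : ℕ) : B.Near1 0 x N := by
  intro p hp
  exact absurd rfl hp

theorem g4_near1_single (i : ZMod n) (c : C) : B.Near1 (Finsupp.single (B.mkP i c) 1) c 0 := by
  intro p hp
  rw [Finsupp.single_apply] at hp
  have h : B.mkP i c = p := by
    by_contra h
    rw [if_neg h] at hp
    exact hp rfl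
  subst h
  exact ⟨c, rfl, by rw [B.dist_self]⟩

theorem g4_near1_smul {z : B.Pnl →₀ ZMod 2} {x : C} {N : ℕ} (a : ZMod 2) (h : B.Near1 z x N) : B.Near1 (a • z) x N := by
  intro p hp
  apply h
  intro h0
  apply hp
  rw [Finsupp.smul_apply, h0, smul_zero]

theorem g4_near1_sum {ι : Type} (s : Finset ι) (f : ι → (B.Pnl →₀ ZMod 2)) (x : C) (N : ℕ)
    (h : ∀ i ∈ s, B.Near1 (f i) x N) : B.Near1 (∑ i ∈ s, f i) x N := by
  induction s using Finset.induction_on with
  | empty => rw [Finset.sum_empty]; exact B.g4_near1_zero x N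
  | insert a s ha ih =>
    rw [Finset.sum_insert ha]
    exact B.near1_add (h a (Finset.mem_insert_self _ _)) (ih (fun i hi => h i (Finset.mem_insert_of_mem hi)))

/-- inside one chamber: from the vertex `i` to the vertex `j` along the panels `i + 1, i + 2, …, j` (`d1 (mkP (i+1) c) = mkV i c + mkV (i+1) c`) -/
theorem exists_path_chamber (c : C) (i j : ZMod n) :
    ∃ z : B.Pnl →₀ ZMod 2, B.d1 z = Finsupp.single (B.mkV i c) 1 + Finsupp.single (B.mkV j c) 1 ∧ B.Near1 z c 0 := by
  have key : ∀ k : ℕ, ∃ z : B.Pnl →₀ ZMod 2,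
      B.d1 z = Finsupp.single (B.mkV i c) 1 + Finsupp.single (B.mkV (i + (k : ZMod n)) c) 1 ∧ B.Near1 z c 0 := by
    intro k
    induction k with
    | zero =>
      refine ⟨0, ?_, B.g4_near1_zero c 0⟩
      rw [map_zero, Nat.cast_zero, add_zero]
      exact (ZModModule.add_self _).symm
    | succ k ih =>
      obtain ⟨z, hz, hz'⟩ := ih
      refine ⟨z + Finsupp.single (B.mkP (i + (k : ZMod n) + 1) c) 1, ?_, B.near1_add hz' (B.g4_near1_single _ _)⟩
      rw [map_add, hz, B.d1_single, add_sub_cancel_right, Nat.cast_succ, ← add_assoc i, add_assoc, ← add_assoc (Finsupp.single _ _) (Finsupp.single _ _) (Finsupp.single _ _),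
        ZModModule.add_self, zero_add]
  obtain ⟨z, hz, hz'⟩ := key (j - i).val
  refine ⟨z, ?_, hz'⟩
  rw [hz, ZMod.natCast_val, ZMod.cast_id, add_sub_cancel]

/-- induction on `dist x c`: `exists_step` gives `e` adjacent to `c` (side `i`) with `dist x e < dist x c`; `mkV i c = mkV i e` -/
theorem exists_path (x c : C) (i j : ZMod n) :
    ∃ z : B.Pnl →₀ ZMod 2, B.d1 z = Finsupp.single (B.mkV i c) 1 + Finsupp.single (B.mkV j x) 1 ∧
      B.Near1 z x (B.dist x c) := by
  obtain ⟨k, hk⟩ : ∃ k, B.dist c x = k := ⟨_, rfl⟩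
  induction k generalizing c i with
  | zero =>
    have h := B.dist_eq_zero hk
    subst h
    obtain ⟨z, hz, hz'⟩ := B.exists_path_chamber c i j
    refine ⟨z, hz, B.near1_mono hz' ?_⟩
    rw [B.dist_self]
  | succ k ih =>
    obtain ⟨l, e, hle, _, he⟩ := B.exists_step hk
    obtain ⟨z₁, hz₁, hz₁'⟩ := B.exists_path_chamber c i l
    obtain ⟨z₂, hz₂, hz₂'⟩ := ih e l he
    have hxc : B.dist x c = k + 1 := by rw [B.dist_comm]; exact hk
    have hxe : B.dist x e = k := by rw [B.dist_comm]; exact he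
    refine ⟨z₁ + z₂, ?_, B.near1_add (B.near1_mono hz₁' (by omega)) (B.near1_mono hz₂' ?_)⟩
    · rw [map_add, hz₁, hz₂, B.mkV_eq_left hle, add_assoc, ← add_assoc (Finsupp.single _ _) (Finsupp.single _ _) (Finsupp.single _ _),
        ZModModule.add_self, zero_add]
    · rw [B.dist_self]
      omega

/-- `u = ∑ u v • single v`; for `v ∈ supp u` take a chamber `c` with `mkV v.1 c = v`, `dist x c ≤ N` and `z_v` from `exists_path` (`j = 0`); `z = ∑ u v • z_v`, `d1 z = u + (aug u) • single (mkV 0 x) 1 = u` -/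
theorem exists_fill0 {u : B.Vtx →₀ ZMod 2} (h : B.aug u = 0) {x : C} {N : ℕ} (hu : B.Near0 u x N) :
    ∃ z, B.d1 z = u ∧ B.Near1 z x N := by
  have hv : ∀ v, u v ≠ 0 → ∃ z : B.Pnl →₀ ZMod 2,
      B.d1 z = Finsupp.single v 1 + Finsupp.single (B.mkV 0 x) 1 ∧ B.Near1 z x N := by
    intro v hv
    obtain ⟨c, hc, hd⟩ := hu v hv
    obtain ⟨z, hz, hz'⟩ := B.exists_path x c v.1 0
    rw [hc] at hz
    refine ⟨z, hz, B.near1_mono hz' ?_⟩
    rw [B.dist_self]
    omega
  choose! zv hz1 hz2 using hv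
  refine ⟨∑ v ∈ u.support, u v • zv v, ?_, ?_⟩
  · rw [map_sum]
    have e1 : ∀ v ∈ u.support, B.d1 (u v • zv v) =
        Finsupp.single v (u v) + u v • Finsupp.single (B.mkV 0 x) 1 := by
      intro v hv
      rw [map_smul, hz1 v (Finsupp.mem_support_iff.1 hv), smul_add, Finsupp.smul_single_one]
    rw [Finset.sum_congr rfl e1, Finset.sum_add_distrib, ← Finset.sum_smul]
    have e2 : ∑ v ∈ u.support, u v = 0 := by
      rw [← h]
      unfold aug
      rw [Finsupp.linearCombination_apply, Finsupp.sum]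
      apply Finset.sum_congr rfl
      intro v _
      rw [smul_eq_mul, mul_one]
    rw [e2, zero_smul, add_zero]
    exact Finsupp.sum_single u
  · exact B.g4_near1_sum _ _ _ _ (fun v hv => B.g4_near1_smul _ (hz2 v (Finsupp.mem_support_iff.1 hv)))

end Bldg

end QFC
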