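import Pool.Agent.QFC.G2
import Pool.Agent.QFC.G3b
import Pool.Agent.QFC.G4

/-! # H1 : bounded chain maps over coarse Lipschitz maps -/

open scoped Classical

namespace QFC

namespace BCM

variable {n₁ n₂ : ℕ} [NeZero n₁] [NeZero n₂] {C₁ C₂ : Type} {B₁ : Bldg n₁ C₁} {B₂ : Bldg n₂ C₂}

/-- the image of a vertex -/
noncomputable def h1_f0 (B₁ : Bldg n₁ C₁) (B₂ : Bldg n₂ C₂) (F : C₁ → C₂) (v : B₁.Vtx) : B₂.Vtx →₀ ZMod 2 :=
  Finsupp.single (B₂.mkV 0 (F v.2.out)) 1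

/-- the linear map on vertices -/
noncomputable def h1_φ0 (B₁ : Bldg n₁ C₁) (B₂ : Bldg n₂ C₂) (F : C₁ → C₂) :
    (B₁.Vtx →₀ ZMod 2) →ₗ[ZMod 2] (B₂.Vtx →₀ ZMod 2) :=
  Finsupp.linearCombination (ZMod 2) (h1_f0 B₁ B₂ F)

theorem h1_φ0_single (F : C₁ → C₂) (v : B₁.Vtx) :
    h1_φ0 B₁ B₂ F (Finsupp.single v 1) = h1_f0 B₁ B₂ F v := by
  unfold h1_φ0
  rw [Finsupp.linearCombination_single, one_smul]

theorem h1_near0 {F : C₁ → C₂} {K : ℕ} (hF : ∀ a b, B₂.dist (F a) (F b) ≤ K * B₁.dist a b + K)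
    (i : ZMod n₁) (c : C₁) :
    B₂.Near0 (h1_φ0 B₁ B₂ F (Finsupp.single (B₁.mkV i c) 1)) (F c) (3 * K) := by
  rw [h1_φ0_single]
  intro v' hv'
  unfold h1_f0 at hv'
  rw [Finsupp.single_apply] at hv'
  have hv : B₂.mkV 0 (F (B₁.mkV i c).2.out) = v' := by
    by_contra h
    rw [if_neg h] at hv'
    exact hv' rfl
  subst hv
  refine ⟨F (B₁.mkV i c).2.out, rfl, ?_⟩
  have h1 : B₁.mkV i (B₁.mkV i c).2.out = B₁.mkV i c := B₁.mkV_out (B₁.mkV i c)
  have h2 : B₁.dist c (B₁.mkV i c).2.out ≤ 2 := B₁.dist_le_two_of_mkV h1.symm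
  have h3 := hF c (B₁.mkV i c).2.out
  have h4 : K * B₁.dist c (B₁.mkV i c).2.out ≤ K * 2 := Nat.mul_le_mul_left _ h2
  omega

theorem h1_aug0 (F : C₁ → C₂) (u : B₁.Vtx →₀ ZMod 2) : B₂.aug (h1_φ0 B₁ B₂ F u) = B₁.aug u := by
  have h : (B₂.aug).comp (h1_φ0 B₁ B₂ F) = B₁.aug := by
    apply Finsupp.lhom_ext'
    intro v
    apply LinearMap.ext_ring
    show B₂.aug (h1_φ0 B₁ B₂ F (Finsupp.single v 1)) = B₁.aug (Finsupp.single v 1)
    rw [h1_φ0_single, B₁.aug_single]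
    exact B₂.aug_single _
  exact congrArg (fun f => f u) h

theorem h1_exists1 {F : C₁ → C₂} {K : ℕ} (hF : ∀ a b, B₂.dist (F a) (F b) ≤ K * B₁.dist a b + K)
    (p : B₁.Pnl) : ∃ z, B₂.d1 z = h1_φ0 B₁ B₂ F (B₁.bdP p) ∧ B₂.Near1 z (F p.2.out) (3 * K) := by
  apply B₂.exists_fill0
  · rw [h1_aug0]
    unfold Bldg.bdP
    rw [map_add, B₁.aug_single, B₁.aug_single]
    decide
  · unfold Bldg.bdP
    rw [map_add]
    exact B₂.near0_add (h1_near0 hF _ _) (h1_near0 hF _ _)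

theorem h1_near1_zero (B : Bldg n₂ C₂) (x : C₂) (N : ℕ) : B.Near1 0 x N := by
  intro p hp
  exact absurd rfl hp

theorem h1_near1_sum (B : Bldg n₂ C₂) {ι : Type} (s : Finset ι) (f : ι → (B.Pnl →₀ ZMod 2)) (x : C₂) (N : ℕ)
    (h : ∀ i ∈ s, B.Near1 (f i) x N) : B.Near1 (∑ i ∈ s, f i) x N := by
  induction s using Finset.induction_on with
  | empty => rw [Finset.sum_empty]; exact h1_near1_zero B x N
  | insert a s ha ih =>
    rw [Finset.sum_insert ha]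
    exact B.near1_add (h a (Finset.mem_insert_self _ _)) (ih (fun i hi => h i (Finset.mem_insert_of_mem hi)))

/-- `R = 5 K`. `φ0 (single v) = single (mkV 0 (F v.2.out))`, near `F c` (radius `3 K`) for every `c` at `v` (`dist_le_two_of_mkV`). `φ1 (single p)`: `exists_fill0` for `φ0 (bdP p)` (its augmentation is `1 + 1 = 0`) at `x = F p.2.out`, `N = 3 K`; near `F c`
(radius `5 K`) for every `c` in the panel. `φ2 (single c)`: `exists_fill` for `φ1 (d2 (single c))` (a cycle by `d1_d2`), near `F c` by `near2_of_d2`. Define the linear maps by `Finsupp.linearCombination` (or `Finsupp.lift`) on the basis;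
`comm1`, `comm2`, `aug0` by linearity (`Finsupp.induction_linear`). -/
theorem exists_bcm {F : C₁ → C₂} {K : ℕ} (hF : ∀ a b, B₂.dist (F a) (F b) ≤ K * B₁.dist a b + K) :
    ∃ R, Nonempty (BCM B₁ B₂ F R) := by
  choose f1 hf1 hf1n using h1_exists1 hF
  let φ1 : (B₁.Pnl →₀ ZMod 2) →ₗ[ZMod 2] (B₂.Pnl →₀ ZMod 2) := Finsupp.linearCombination (ZMod 2) f1
  have hφ1 : ∀ p, φ1 (Finsupp.single p 1) = f1 p := by
    intro p
    show Finsupp.linearCombination (ZMod 2) f1 (Finsupp.single p 1) = f1 p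
    rw [Finsupp.linearCombination_single, one_smul]
  have hcomm1 : ∀ z, B₂.d1 (φ1 z) = h1_φ0 B₁ B₂ F (B₁.d1 z) := by
    have h : (B₂.d1).comp φ1 = (h1_φ0 B₁ B₂ F).comp B₁.d1 := by
      apply Finsupp.lhom_ext'
      intro p
      apply LinearMap.ext_ring
      show B₂.d1 (φ1 (Finsupp.single p 1)) = h1_φ0 B₁ B₂ F (B₁.d1 (Finsupp.single p 1))
      rw [hφ1, hf1]
      congr 1
      unfold Bldg.d1
      rw [Finsupp.linearCombination_single, one_smul]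
    intro z
    exact congrArg (fun f => f z) h
  have hex2 : ∀ c, ∃ y, B₂.d2 y = φ1 (B₁.d2 (Finsupp.single c 1)) := by
    intro c
    apply B₂.exists_fill
    rw [hcomm1, B₁.d1_d2, map_zero]
  choose f2 hf2 using hex2
  let φ2 : (C₁ →₀ ZMod 2) →ₗ[ZMod 2] (C₂ →₀ ZMod 2) := Finsupp.linearCombination (ZMod 2) f2
  have hφ2 : ∀ p, φ2 (Finsupp.single p 1) = f2 p := by
    intro p
    show Finsupp.linearCombination (ZMod 2) f2 (Finsupp.single p 1) = f2 p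
    rw [Finsupp.linearCombination_single, one_smul]
  have hcomm2 : ∀ z, B₂.d2 (φ2 z) = φ1 (B₁.d2 z) := by
    have h : (B₂.d2).comp φ2 = φ1.comp B₁.d2 := by
      apply Finsupp.lhom_ext'
      intro p
      apply LinearMap.ext_ring
      show B₂.d2 (φ2 (Finsupp.single p 1)) = φ1 (B₁.d2 (Finsupp.single p 1))
      rw [hφ2, hf2]
    intro z
    exact congrArg (fun f => f z) h
  have hnear1 : ∀ i c, B₂.Near1 (φ1 (Finsupp.single (B₁.mkP i c) 1)) (F c) (5 * K) := by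
    intro i c
    rw [hφ1]
    refine B₂.near1_mono (hf1n (B₁.mkP i c)) ?_
    have h1 : B₁.mkP i (B₁.mkP i c).2.out = B₁.mkP i c := B₁.mkP_out (B₁.mkP i c)
    have h2 : B₁.dist c (B₁.mkP i c).2.out ≤ 1 := B₁.dist_le_one (B₁.mkP_eq_iff.1 h1.symm).2
    have h3 := hF c (B₁.mkP i c).2.out
    have h4 : K * B₁.dist c (B₁.mkP i c).2.out ≤ K * 1 := Nat.mul_le_mul_left _ h2
    omega
  refine ⟨5 * K, ⟨⟨φ2, φ1, h1_φ0 B₁ B₂ F, hcomm2, hcomm1, h1_aug0 F, ?_, hnear1, ?_⟩⟩⟩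
  · intro c
    apply B₂.near2_of_d2
    rw [hcomm2, B₁.d2_single, map_sum]
    exact h1_near1_sum B₂ _ _ _ _ (fun i _ => hnear1 i c)
  · intro i c
    refine B₂.near0_mono (h1_near0 hF i c) ?_
    rw [B₂.dist_self]
    omega

end BCM

end QFC
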