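import Pool.Agent.QFC.J1

/-! # J1c : the mass of bad positions is bounded, other direction -/

open scoped Classical

namespace QFC

variable {n₁ n₂ : ℕ} [NeZero n₁] [NeZero n₂] {C₁ C₂ : Type} (B₁ : Bldg n₁ C₁) (B₂ : Bldg n₂ C₂)

/-- The other direction, again summed over `c' ∈ C₂`. Let `c'` be bad: `g ∈ ball (G c') N` (in `B₁`) with `DefAt g t`, `Ap x₂ t` meets `ball c' N`; `dist (F g) c' ≤ K N + 2 K =: L` . `exists_pr_def_lower` for `(B₂, B₁, ψ, Pair.symm)`: `δ r₂ (c') ≤ pr₂ (DefAt g)`, and `r₁ (G c') ≤ Q₁ ^ N r₁ (g)`. Each `g` is used by at most `|ball (F g) L|` positions `c'`.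
`g ∈ ball x₁ I'` for some `I'` depending on `I`. `exists_defect_sum` for `(B₂, B₁, ψ)`. -/
theorem exists_bad_bound' (w₁ : Weights B₁.q) (w₂ : Weights B₂.q) {F : C₁ → C₂} {G : C₂ → C₁} {K R : ℕ}
    (hp : Bldg.Pair B₁ B₂ F G K) (ψ : BCM B₂ B₁ G R) (x₁ : C₁) (x₂ : C₂) (N : ℕ) :
    ∃ b : ℝ, ∀ (I : ℕ), ∑ c' ∈ B₂.ballF x₂ I,
      (if Bad B₂ B₁ ψ x₂ x₁ N c' (G c') then B₂.r x₂ c' * B₁.r x₁ (G c') else 0) ≤ b := by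
  obtain ⟨δ, hδ, hlow⟩ := exists_pr_def_lower B₂ B₁ hp.symm ψ N (K * N + 2 * K)
  obtain ⟨Q, hQ, hr⟩ := B₁.exists_r_ratio
  obtain ⟨n₀, hcard⟩ := B₂.exists_ball_card (K * N + 2 * K)
  obtain ⟨b, hb⟩ := exists_defect_sum B₂ B₁ w₂ w₁ hp.symm ψ x₂ x₁
  obtain ⟨s₀, hs₀⟩ := B₂.exists_Adm x₂
  refine ⟨Q ^ N / δ * (n₀ * b), fun I => ?_⟩
  have hQ0 : 0 ≤ Q ^ N / δ := div_nonneg (pow_nonneg (by linarith) _) hδ.le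
  have hclose : ∀ (c' : C₂) (g : C₁), B₁.dist (G c') g ≤ N → B₂.dist (F g) c' ≤ K * N + 2 * K := by
    intro c' g hg
    have h1 := hp.lipF g (G c')
    have h2 := hp.fg c'
    have h3 := B₂.dist_triangle (F g) (F (G c')) c'
    rw [B₁.dist_comm g (G c')] at h1
    have h4 := Nat.mul_le_mul_left K hg
    omega
  -- choice of the finite sets of walls
  have h𝒲₀ : ∀ c' : C₂, ∃ 𝒲₀ : Finset B₂.Wall, Bad B₂ B₁ ψ x₂ x₁ N c' (G c') →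
      ∃ g ∈ B₁.ball (G c') N, ∀ 𝒲, 𝒲₀ ⊆ 𝒲 → δ * B₂.r x₂ c' ≤ B₂.pr x₂ s₀ 𝒲 (fun s => DefAt B₂ B₁ ψ x₂ x₁ g s) := by
    intro c'
    by_cases hB : Bad B₂ B₁ ψ x₂ x₁ N c' (G c')
    · obtain ⟨t, ht, hne, g, hg, hdef⟩ := hB
      obtain ⟨𝒲₀, h𝒲₀⟩ := hlow x₂ c' x₁ g s₀ t hs₀ ht hne (hclose c' g hg) hdef
      exact ⟨𝒲₀, fun _ => ⟨g, hg, h𝒲₀⟩⟩
    · exact ⟨∅, fun h => absurd h hB⟩
  choose 𝒲₀ h𝒲₀ using h𝒲₀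
  obtain ⟨𝒲, h𝒲, hgood⟩ := exists_good B₂ B₁ hp.symm R x₂ x₁ ((B₁.dist x₁ (G x₂) + (K * I + K) + N) + 1) ((B₂.ballF x₂ I).biUnion 𝒲₀)
  have hfn : ∀ g, 0 ≤ B₁.r x₁ g * B₂.pr x₂ s₀ 𝒲 (fun s => DefAt B₂ B₁ ψ x₂ x₁ g s) := fun g =>
    mul_nonneg (B₁.r_pos x₁ g).le (B₂.pr_nonneg 𝒲 _)
  have hterm : ∀ c' ∈ B₂.ballF x₂ I,
      (if Bad B₂ B₁ ψ x₂ x₁ N c' (G c') then B₂.r x₂ c' * B₁.r x₁ (G c') else 0) ≤
        Q ^ N / δ * ∑ g ∈ (B₁.ballF x₁ (B₁.dist x₁ (G x₂) + (K * I + K) + N)).filter (fun g => B₂.dist (F g) c' ≤ K * N + 2 * K),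
          B₁.r x₁ g * B₂.pr x₂ s₀ 𝒲 (fun s => DefAt B₂ B₁ ψ x₂ x₁ g s) := by
    intro c' hc'
    have hsum : 0 ≤ ∑ g ∈ (B₁.ballF x₁ (B₁.dist x₁ (G x₂) + (K * I + K) + N)).filter (fun g => B₂.dist (F g) c' ≤ K * N + 2 * K),
          B₁.r x₁ g * B₂.pr x₂ s₀ 𝒲 (fun s => DefAt B₂ B₁ ψ x₂ x₁ g s) :=
      Finset.sum_nonneg (fun g _ => hfn g)
    by_cases hB : Bad B₂ B₁ ψ x₂ x₁ N c' (G c')
    · rw [if_pos hB]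
      obtain ⟨g, hg, hpr⟩ := h𝒲₀ c' hB
      have hpr' := hpr 𝒲 ((Finset.subset_biUnion_of_mem 𝒲₀ hc').trans h𝒲)
      have hgd : B₁.dist (G c') g ≤ N := hg
      have h1 : B₁.r x₁ (G c') ≤ Q ^ N * B₁.r x₁ g :=
        (hr x₁ (G c') g).trans (mul_le_mul_of_nonneg_right (pow_le_pow_right₀ hQ hgd) (B₁.r_pos x₁ g).le)
      have h2 : B₂.r x₂ c' ≤ B₂.pr x₂ s₀ 𝒲 (fun s => DefAt B₂ B₁ ψ x₂ x₁ g s) / δ := by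
        rw [le_div_iff₀ hδ, mul_comm]; exact hpr'
      have hmem : g ∈ (B₁.ballF x₁ (B₁.dist x₁ (G x₂) + (K * I + K) + N)).filter (fun g => B₂.dist (F g) c' ≤ K * N + 2 * K) := by
        rw [Finset.mem_filter, B₁.mem_ballF]
        refine ⟨?_, hclose c' g hgd⟩
        have t1 := B₁.dist_triangle x₁ (G x₂) g
        have t2 := B₁.dist_triangle (G x₂) (G c') g
        have t3 := hp.lipG x₂ c'
        have t4 := Nat.mul_le_mul_left K (B₂.mem_ballF.1 hc')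
        omega
      have h3 : B₁.r x₁ g * B₂.pr x₂ s₀ 𝒲 (fun s => DefAt B₂ B₁ ψ x₂ x₁ g s) ≤
          ∑ g ∈ (B₁.ballF x₁ (B₁.dist x₁ (G x₂) + (K * I + K) + N)).filter (fun g => B₂.dist (F g) c' ≤ K * N + 2 * K),
            B₁.r x₁ g * B₂.pr x₂ s₀ 𝒲 (fun s => DefAt B₂ B₁ ψ x₂ x₁ g s) :=
        Finset.single_le_sum (f := fun g => B₁.r x₁ g * B₂.pr x₂ s₀ 𝒲 (fun s => DefAt B₂ B₁ ψ x₂ x₁ g s))
          (fun g _ => hfn g) hmem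
      have hpr0 : 0 ≤ B₂.pr x₂ s₀ 𝒲 (fun s => DefAt B₂ B₁ ψ x₂ x₁ g s) / δ :=
        div_nonneg (B₂.pr_nonneg 𝒲 _) hδ.le
      calc B₂.r x₂ c' * B₁.r x₁ (G c')
          ≤ (B₂.pr x₂ s₀ 𝒲 (fun s => DefAt B₂ B₁ ψ x₂ x₁ g s) / δ) * (Q ^ N * B₁.r x₁ g) :=
            mul_le_mul h2 h1 (B₁.r_pos x₁ _).le hpr0
        _ = Q ^ N / δ * (B₁.r x₁ g * B₂.pr x₂ s₀ 𝒲 (fun s => DefAt B₂ B₁ ψ x₂ x₁ g s)) := by ring
        _ ≤ _ := mul_le_mul_of_nonneg_left h3 hQ0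
    · rw [if_neg hB]
      exact mul_nonneg hQ0 hsum
  have hsum2 : ∑ c' ∈ B₂.ballF x₂ I, ∑ g ∈ (B₁.ballF x₁ (B₁.dist x₁ (G x₂) + (K * I + K) + N)).filter (fun g => B₂.dist (F g) c' ≤ K * N + 2 * K),
      B₁.r x₁ g * B₂.pr x₂ s₀ 𝒲 (fun s => DefAt B₂ B₁ ψ x₂ x₁ g s) ≤ n₀ * b := by
    rw [Finset.sum_comm' (s' := fun g => (B₂.ballF x₂ I).filter (fun c' => c' ∈ B₂.ballF (F g) (K * N + 2 * K)))
      (t' := B₁.ballF x₁ (B₁.dist x₁ (G x₂) + (K * I + K) + N))]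
    · have h5 : ∀ g ∈ B₁.ballF x₁ (B₁.dist x₁ (G x₂) + (K * I + K) + N),
          ∑ c' ∈ (B₂.ballF x₂ I).filter (fun c' => c' ∈ B₂.ballF (F g) (K * N + 2 * K)),
            B₁.r x₁ g * B₂.pr x₂ s₀ 𝒲 (fun s => DefAt B₂ B₁ ψ x₂ x₁ g s) ≤
          n₀ * (B₁.r x₁ g * B₂.pr x₂ s₀ 𝒲 (fun s => DefAt B₂ B₁ ψ x₂ x₁ g s)) := by
        intro g _
        rw [Finset.sum_const, nsmul_eq_mul]
        apply mul_le_mul_of_nonneg_right _ (hfn g)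
        have h6 : ((B₂.ballF x₂ I).filter (fun c' => c' ∈ B₂.ballF (F g) (K * N + 2 * K))).card ≤
            (B₂.ballF (F g) (K * N + 2 * K)).card :=
          Finset.card_le_card (fun c' hc' => (Finset.mem_filter.1 hc').2)
        exact_mod_cast h6.trans (hcard (F g))
      refine (Finset.sum_le_sum h5).trans ?_
      rw [← Finset.mul_sum]
      exact mul_le_mul_of_nonneg_left (hb _ 𝒲 s₀ hs₀ hgood) (Nat.cast_nonneg _)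
    · intro c' g
      simp only [Finset.mem_filter, B₂.mem_ballF]
      tauto
  calc _ ≤ ∑ c' ∈ B₂.ballF x₂ I, Q ^ N / δ * ∑ g ∈ (B₁.ballF x₁ (B₁.dist x₁ (G x₂) + (K * I + K) + N)).filter (fun g => B₂.dist (F g) c' ≤ K * N + 2 * K),
      B₁.r x₁ g * B₂.pr x₂ s₀ 𝒲 (fun s => DefAt B₂ B₁ ψ x₂ x₁ g s) := Finset.sum_le_sum hterm
    _ = Q ^ N / δ * ∑ c' ∈ B₂.ballF x₂ I, ∑ g ∈ (B₁.ballF x₁ (B₁.dist x₁ (G x₂) + (K * I + K) + N)).filter (fun g => B₂.dist (F g) c' ≤ K * N + 2 * K),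
      B₁.r x₁ g * B₂.pr x₂ s₀ 𝒲 (fun s => DefAt B₂ B₁ ψ x₂ x₁ g s) := by rw [← Finset.mul_sum]
    _ ≤ _ := mul_le_mul_of_nonneg_left hsum2 hQ0


end QFC
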