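import Pool.Agent.QFC.J1b
import Pool.Agent.QFC.J1c
import Pool.Agent.QFC.E4

/-! # J2 : good positions -/

open scoped Classical

namespace QFC

variable {n₁ n₂ : ℕ} [NeZero n₁] [NeZero n₂] {C₁ C₂ : Type} (B₁ : Bldg n₁ C₁) (B₂ : Bldg n₂ C₂)

theorem j2_grow {n : ℕ} [NeZero n] {C : Type} (B : Bldg n C) (x : C) (f : C → ℝ) (hf : ∀ c, 0 ≤ f c)
    {κ : ℝ} {k₀ : ℕ} (h : ∀ k ≥ k₀, κ ≤ ∑ c ∈ B.sphereF x k, f c) (m : ℕ) :
    (m : ℝ) * κ ≤ ∑ c ∈ B.ballF x (k₀ + m), f c := by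
  induction m with
  | zero =>
    rw [Nat.cast_zero, zero_mul]
    exact Finset.sum_nonneg fun c _ => hf c
  | succ m ih =>
    have h1 : B.ballF x (k₀ + (m + 1)) = B.ballF x (k₀ + m) ∪ B.sphereF x (k₀ + (m + 1)) := by
      ext c
      rw [Finset.mem_union, Bldg.mem_ballF, Bldg.mem_ballF, Bldg.mem_sphereF]
      omega
    have h2 : Disjoint (B.ballF x (k₀ + m)) (B.sphereF x (k₀ + (m + 1))) := by
      rw [Finset.disjoint_left]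
      intro c hc hc'
      rw [Bldg.mem_ballF] at hc
      rw [Bldg.mem_sphereF] at hc'
      omega
    have h3 := h (k₀ + (m + 1)) (by omega)
    rw [h1, Finset.sum_union h2, Nat.cast_add, Nat.cast_one, add_mul, one_mul]
    exact add_le_add ih h3

/-- Otherwise `∑ c' ∈ ball x₂ I, r₂ c' r₁ (G c') ≤ b + b'` for all `I` (`exists_bad_bound`, `exists_bad_bound'`: every position is bad for `φ` or for `ψ`), but by `exists_mass_lower` it is `≥ κ (I - k₀)` (the ball is the disjoint union of the spheres). -/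
theorem exists_goodPos (w₁ : Weights B₁.q) (w₂ : Weights B₂.q) {F : C₁ → C₂} {G : C₂ → C₁} {K R R' : ℕ}
    (hp : Bldg.Pair B₁ B₂ F G K) (φ : BCM B₁ B₂ F R) (ψ : BCM B₂ B₁ G R') (x₁ : C₁) (x₂ : C₂) (N : ℕ) :
    ∃ c', ¬ Bad B₁ B₂ φ x₁ x₂ N (G c') c' ∧ ¬ Bad B₂ B₁ ψ x₂ x₁ N c' (G c') := by
  by_contra hcon
  push Not at hcon
  obtain ⟨b, hb⟩ := exists_bad_bound B₁ B₂ w₁ w₂ hp φ x₁ x₂ N
  obtain ⟨b', hb'⟩ := exists_bad_bound' B₁ B₂ w₁ w₂ hp ψ x₁ x₂ N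
  obtain ⟨κ, hκ, k₀, hk⟩ := exists_mass_lower B₁ B₂ w₂ hp φ ψ x₁ x₂
  have hpos : ∀ c', 0 ≤ B₂.r x₂ c' * B₁.r x₁ (G c') := fun c' =>
    mul_nonneg (Bldg.r_pos B₂ x₂ c').le (Bldg.r_pos B₁ x₁ (G c')).le
  obtain ⟨m, hm⟩ := exists_nat_gt ((b + b') / κ)
  rw [div_lt_iff₀ hκ] at hm
  have h1 := j2_grow B₂ x₂ (fun c' => B₂.r x₂ c' * B₁.r x₁ (G c')) hpos hk m
  have h2 := hb (k₀ + m)
  have h3 := hb' (k₀ + m)
  have h4 : ∑ c' ∈ B₂.ballF x₂ (k₀ + m), B₂.r x₂ c' * B₁.r x₁ (G c') ≤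
      ∑ c' ∈ B₂.ballF x₂ (k₀ + m),
        ((if Bad B₁ B₂ φ x₁ x₂ N (G c') c' then B₂.r x₂ c' * B₁.r x₁ (G c') else 0) +
        (if Bad B₂ B₁ ψ x₂ x₁ N c' (G c') then B₂.r x₂ c' * B₁.r x₁ (G c') else 0)) := by
    refine Finset.sum_le_sum fun c' _ => ?_
    by_cases hbad : Bad B₁ B₂ φ x₁ x₂ N (G c') c'
    · rw [if_pos hbad]
      refine le_add_of_nonneg_right ?_
      split_ifs
      · exact hpos c'
      · exact le_refl _
    · rw [if_neg hbad, if_pos (hcon c' hbad), zero_add]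
  rw [Finset.sum_add_distrib] at h4
  linarith

end QFC
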