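import Pool.Agent.QFC.J5

/-! # J5b : limits preserve defect-freeness -/

open scoped Classical

namespace QFC

variable {n₁ n₂ : ℕ} [NeZero n₁] [NeZero n₂] {Γ₁ Γ₂ : Type} [Group Γ₁] [Group Γ₂] {B₁ : Bldg n₁ Γ₁} {B₂ : Bldg n₂ Γ₂}

/-- **Limits preserve defect-freeness.** Sequences of positions `g₁ N`, `g₂ N` not bad of radius `N`; translated chain maps `φ' N` over `F' N` converge along the non-principal ultrafilter `𝒰` to `φl` over `Fl`; `η₁`, `η₂` limits of the translated roots. Then `φl.push` maps `Apt η₁` to `Apt η₂`.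
Proof. `A ∈ Apt η₁`, `j ∉ D η₂ g`, `P = φl.push A`. If `P ∩ panel j g = ∅` done. Otherwise `d' ∈ P ∩ panel`; `push_near`: `e ∈ A`, `dist (Fl e) d' ≤ R`. `ρ := K (2 R + 1) + 3 K`. `Apt_approx` (for `e`, `ρ`): finite `𝒲`. Choose `N` (the following finitely many eventual properties and `N ≥ max (dist 1 e) (dist 1 g)` hold together for some `N`; `𝒰 ≤ atTop`):
`σ T ((g₁ N)⁻¹ x₁) = η₁ T` for `T ∈ 𝒲`; `σ (wall j g) ((g₂ N)⁻¹ x₂) = η₂ (wall j g)`; `F' N e = Fl e`; `(φ' N).φ2 (single c 1) = φl.φ2 (single c 1)` for all `c ∈ ball e ρ`. So there is `A' ∈ Apt (pt ((g₁ N)⁻¹ x₁))` with `A' ∩ ball e ρ = A ∩ ball e ρ`, `e ∈ A'`. `noDef_of_not_bad`: `NoDef ((φ' N).push A') j g`.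
The sets `(φ' N).push A'` and `φl.push A` agree on the panel `(j, g)`: for `d''` in the panel the relevant `c` have `dist (F' N c) d'' ≤ R` (resp. `dist (Fl c) d'' ≤ R`), so `dist (F' N c) (F' N e) ≤ 2 R + 1`, `dist c e ≤ ρ` (`Pair.close`); use `push_local` to restrict to `A ∩ ball e ρ` and `push_congr`. -/
theorem limit_apt (h1 : LInv B₁) (h2 : LInv B₂) (𝒰 : Ultrafilter ℕ) (h𝒰 : (𝒰 : Filter ℕ) ≤ Filter.atTop)
    {F : Γ₁ → Γ₂} {R₀ R K : ℕ} (φ : BCM B₁ B₂ F R₀) {x₁ : Γ₁} {x₂ : Γ₂} (g₁ : ℕ → Γ₁) (g₂ : ℕ → Γ₂)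
    (hgood : ∀ N, ¬ Bad B₁ B₂ φ x₁ x₂ N (g₁ N) (g₂ N))
    (F' : ℕ → Γ₁ → Γ₂) (G' : ℕ → Γ₂ → Γ₁) (hp : ∀ N, Bldg.Pair B₁ B₂ (F' N) (G' N) K) (φ' : ∀ N, BCM B₁ B₂ (F' N) R)
    (hφ : ∀ (N : ℕ) (S : Set Γ₁) (d : Γ₂), d ∈ (φ' N).push S ↔ g₂ N * d ∈ φ.push ((fun c => g₁ N * c) '' S))
    {Fl : Γ₁ → Γ₂} {Gl : Γ₂ → Γ₁} (hpl : Bldg.Pair B₁ B₂ Fl Gl K) (hFl : ∀ x, ∀ᶠ N in (𝒰 : Filter ℕ), F' N x = Fl x) (φl : BCM B₁ B₂ Fl R)
    (hφl : ∀ c, ∀ᶠ N in (𝒰 : Filter ℕ), (φ' N).φ2 (Finsupp.single c 1) = φl.φ2 (Finsupp.single c 1))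
    {η₁ : B₁.Wall → B₁.Sheet} {η₂ : B₂.Wall → B₂.Sheet} (hη₁ : B₁.IsRoller η₁)
    (hlim₁ : ∀ T, ∀ᶠ N in (𝒰 : Filter ℕ), B₁.σ T ((g₁ N)⁻¹ * x₁) = η₁ T)
    (hlim₂ : ∀ T, ∀ᶠ N in (𝒰 : Filter ℕ), B₂.σ T ((g₂ N)⁻¹ * x₂) = η₂ T)
    {A : Set Γ₁} (hA : A ∈ B₁.Apt η₁) : φl.push A ∈ B₂.Apt η₂ := by
  intro j g hj
  by_cases hP : φl.push A ∩ B₂.panel j g = ∅
  · exact Or.inl hP
  obtain ⟨d', hd'P, hd'pan⟩ := Set.nonempty_iff_ne_empty.2 hP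
  obtain ⟨e, heA, hed⟩ := BCM.push_near φl hd'P
  obtain ⟨𝒲, h𝒲⟩ := B₁.Apt_approx hη₁ hA heA (K * (2 * R + 1) + 3 * K)
  have ev1 : ∀ᶠ N in (𝒰 : Filter ℕ), ∀ T ∈ 𝒲, B₁.σ T ((g₁ N)⁻¹ * x₁) = η₁ T :=
    (Filter.eventually_all_finset 𝒲).2 (fun T _ => hlim₁ T)
  have ev2 := hlim₂ (B₂.wall j g)
  have ev3 := hFl e
  have ev4 : ∀ᶠ N in (𝒰 : Filter ℕ), ∀ c ∈ B₁.ball e (K * (2 * R + 1) + 3 * K),
      (φ' N).φ2 (Finsupp.single c 1) = φl.φ2 (Finsupp.single c 1) :=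
    (Filter.eventually_all_finite (B₁.ball_finite e _)).2 (fun c _ => hφl c)
  have ev5 : ∀ᶠ N in (𝒰 : Filter ℕ), max (B₁.dist 1 e) (B₂.dist 1 g) ≤ N :=
    h𝒰 (Filter.eventually_ge_atTop _)
  obtain ⟨N, e1, e2, e3, e4, e5⟩ := (ev1.and (ev2.and (ev3.and (ev4.and ev5)))).exists
  obtain ⟨A', hA', hAA'⟩ := h𝒲 _ e1
  have hee : e ∈ B₁.ball e (K * (2 * R + 1) + 3 * K) := by
    show B₁.dist e e ≤ _
    rw [B₁.dist_self]; exact Nat.zero_le _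
  have heA' : e ∈ A' := by
    have : e ∈ A' ∩ B₁.ball e (K * (2 * R + 1) + 3 * K) := by rw [hAA']; exact ⟨heA, hee⟩
    exact this.1
  have hj' : j ∉ B₂.D (B₂.pt ((g₂ N)⁻¹ * x₂)) g := by
    intro h
    apply hj
    show B₂.σ (B₂.wall j g) g ≠ η₂ (B₂.wall j g)
    rw [← e2]
    exact h
  have hnd := noDef_of_not_bad h1 h2 φ (φ' N) (hgood N) (hφ N) hA'
    ⟨e, heA', show B₁.dist 1 e ≤ N from le_trans (le_max_left _ _) e5⟩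
    (show g ∈ B₂.ball 1 N from le_trans (le_max_right _ _) e5) hj'
  have hmem : ∀ c, c ∈ B₁.ball e (K * (2 * R + 1) + 3 * K) → (c ∈ A' ↔ c ∈ A) := by
    intro c hc
    have h3 : c ∈ A' ∩ B₁.ball e (K * (2 * R + 1) + 3 * K) ↔ c ∈ A ∩ B₁.ball e (K * (2 * R + 1) + 3 * K) := by
      rw [hAA']
    constructor
    · intro h; exact (h3.1 ⟨h, hc⟩).1
    · intro h; exact (h3.2 ⟨h, hc⟩).1
  have heq : φl.push A ∩ B₂.panel j g = (φ' N).push A' ∩ B₂.panel j g := by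
    ext d''
    refine and_congr_left (fun hd'' => ?_)
    have hdd : B₂.dist d'' d' ≤ 1 :=
      B₂.dist_le_one (B₂.adj_trans (B₂.adj_symm (show B₂.adj j g d'' from hd'')) (show B₂.adj j g d' from hd'pan))
    have hdd2 : B₂.dist d' (Fl e) ≤ R := by rw [B₂.dist_comm]; exact hed
    have s1 : d'' ∈ φl.push A ↔ d'' ∈ φl.push (A ∩ B₁.ball e (K * (2 * R + 1) + 3 * K)) := by
      apply BCM.push_local
      intro c hc
      have t1 := B₂.dist_triangle (Fl c) d'' (Fl e)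
      have t2 := B₂.dist_triangle d'' d' (Fl e)
      have t3 : B₂.dist (Fl c) (Fl e) ≤ 2 * R + 1 := by omega
      have t4 := hpl.close t3
      have t5 : c ∈ B₁.ball e (K * (2 * R + 1) + 3 * K) := by
        show B₁.dist e c ≤ _
        rw [B₁.dist_comm]; exact t4
      exact ⟨fun h => ⟨h, t5⟩, fun h => h.1⟩
    have s2 : d'' ∈ φl.push (A ∩ B₁.ball e (K * (2 * R + 1) + 3 * K)) ↔
        d'' ∈ (φ' N).push (A ∩ B₁.ball e (K * (2 * R + 1) + 3 * K)) := by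
      apply BCM.push_congr
      intro c hc
      rw [e4 c hc.2]
    have s3 : d'' ∈ (φ' N).push (A ∩ B₁.ball e (K * (2 * R + 1) + 3 * K)) ↔ d'' ∈ (φ' N).push A' := by
      apply BCM.push_local
      intro c hc
      have t1 := B₂.dist_triangle (F' N c) d'' (Fl e)
      have t2 := B₂.dist_triangle d'' d' (Fl e)
      have t3 : B₂.dist (F' N c) (F' N e) ≤ 2 * R + 1 := by rw [e3]; omega
      have t4 := (hp N).close t3
      have t5 : c ∈ B₁.ball e (K * (2 * R + 1) + 3 * K) := by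
        show B₁.dist e c ≤ _
        rw [B₁.dist_comm]; exact t4
      exact ⟨fun h => (hmem c t5).2 h.1, fun h => ⟨(hmem c t5).1 h, t5⟩⟩
    exact s1.trans (s2.trans s3)
  unfold Bldg.NoDef at hnd ⊢
  rw [heq]
  exact hnd


end QFC
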