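import Pool.Agent.QFC.J6
import Pool.Agent.QFC.J5b
import Pool.Agent.QFC.J2
import Pool.Agent.QFC.H1

/-! # J6b : the limit data of a quasi-isometry -/

open scoped Classical

namespace QFC

variable {n₁ n₂ : ℕ} [NeZero n₁] [NeZero n₂]

/-- `exists_bcm` gives `φ`, `ψ`. `x₁ = 1`, `x₂ = 1`. For every `N` a good position `g₂ N` (`exists_goodPos`), `g₁ N = G (g₂ N)`. `F' N = fun c => (g₂ N)⁻¹ * F (g₁ N * c)`, `G' N = fun d => (g₁ N)⁻¹ * G (g₂ N * d)` with chain maps from `exists_translate`, pairs from `translate_pair`. The range of `F' N x` over `N` is finite: `dist (F' N x) 1 ≤ K dist x 1 + 2 K`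
(`dist (F' N 1) 1 = dist (F (G (g₂ N))) (g₂ N) ≤ K`, `LInv.dist`), same for `G' N`. Take a non-principal ultrafilter `𝒰` (`Filter.hyperfilter ℕ`, `≤ atTop` by `Filter.hyperfilter_le_cofinite`/`Nat.cofinite_eq_atTop`), limits by `exists_limit` and `exists_limit_root`; the limit pair satisfies `Pair` (pointwise eventual equalities). `limit_apt` twice (for `ψ` with the
roles exchanged: `¬ Bad B₂ B₁ ψ x₂ x₁ N (g₂ N) (g₁ N)`), `limitData_of`. -/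
theorem exists_limitData {Γ₁ Γ₂ : Type} [Group Γ₁] [Group Γ₂] (B₁ : Bldg n₁ Γ₁) (B₂ : Bldg n₂ Γ₂) (h1 : LInv B₁)
    (h2 : LInv B₂) (w₁ : Weights B₁.q) (w₂ : Weights B₂.q) {F : Γ₁ → Γ₂} {G : Γ₂ → Γ₁} {K : ℕ}
    (hp : Bldg.Pair B₁ B₂ F G K) : Nonempty (LimitData B₁ B₂) := by
  obtain ⟨R, ⟨φ⟩⟩ := BCM.exists_bcm hp.lipF
  obtain ⟨R', ⟨ψ⟩⟩ := BCM.exists_bcm hp.lipG
  choose g₂ hg₂ using fun N => exists_goodPos B₁ B₂ w₁ w₂ hp φ ψ 1 1 N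
  let g₁ : ℕ → Γ₁ := fun N => G (g₂ N)
  let F' : ℕ → Γ₁ → Γ₂ := fun N c => (g₂ N)⁻¹ * F (g₁ N * c)
  let G' : ℕ → Γ₂ → Γ₁ := fun N d => (g₁ N)⁻¹ * G (g₂ N * d)
  have hφ : ∀ N, ∃ φ' : BCM B₁ B₂ (F' N) (R + K + 1), ∀ (S : Set Γ₁) (d : Γ₂),
      d ∈ φ'.push S ↔ g₂ N * d ∈ φ.push ((fun c => g₁ N * c) '' S) := by
    intro N
    obtain ⟨φ', h⟩ := exists_translate h1 h2 φ hp.lipF (g₁ N) (g₂ N)⁻¹
    refine ⟨φ', fun S d => ?_⟩
    rw [h S d, inv_inv]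
  have hψ : ∀ N, ∃ ψ' : BCM B₂ B₁ (G' N) (R' + K + 1), ∀ (S : Set Γ₂) (d : Γ₁),
      d ∈ ψ'.push S ↔ g₁ N * d ∈ ψ.push ((fun c => g₂ N * c) '' S) := by
    intro N
    obtain ⟨ψ', h⟩ := exists_translate h2 h1 ψ hp.lipG (g₂ N) (g₁ N)⁻¹
    refine ⟨ψ', fun S d => ?_⟩
    rw [h S d, inv_inv]
  choose φ' hφ' using hφ
  choose ψ' hψ' using hψ
  have hpair : ∀ N, Bldg.Pair B₁ B₂ (F' N) (G' N) K := by
    intro N
    have h := translate_pair h1 h2 hp (g₁ N) (g₂ N)⁻¹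
    rw [inv_inv] at h
    exact h
  have hpair' : ∀ N, Bldg.Pair B₂ B₁ (G' N) (F' N) K := fun N =>
    ⟨(hpair N).lipG, (hpair N).lipF, (hpair N).fg, (hpair N).gf⟩
  have hbF : ∀ x, (Set.range fun N => F' N x).Finite := by
    intro x
    refine (B₂.ball_finite 1 (K + (K * B₁.dist 1 x + K))).subset ?_
    rintro _ ⟨N, rfl⟩
    have e1 : B₂.dist 1 (F' N 1) ≤ K := by
      have e2 : B₂.dist (g₂ N * 1) (g₂ N * F' N 1) = B₂.dist 1 (F' N 1) := LInv.dist h2 _ _ _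
      have e3 : g₂ N * F' N 1 = F (G (g₂ N)) := by
        show g₂ N * ((g₂ N)⁻¹ * F (g₁ N * 1)) = F (G (g₂ N))
        rw [mul_inv_cancel_left, mul_one]
      rw [← e2, e3, mul_one, B₂.dist_comm]
      exact hp.fg _
    have e4 := B₂.dist_triangle 1 (F' N 1) (F' N x)
    have e5 := (hpair N).lipF 1 x
    show B₂.dist 1 (F' N x) ≤ _
    omega
  have hbG : ∀ x, (Set.range fun N => G' N x).Finite := by
    intro x
    refine (B₁.ball_finite 1 (K * B₂.dist 1 x + K)).subset ?_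
    rintro _ ⟨N, rfl⟩
    have e1 : G' N 1 = 1 := by
      show (g₁ N)⁻¹ * G (g₂ N * 1) = 1
      rw [mul_one]
      exact inv_mul_cancel _
    have e5 := (hpair N).lipG 1 x
    rw [e1] at e5
    exact e5
  let 𝒰 : Ultrafilter ℕ := Filter.hyperfilter ℕ
  have h𝒰 : (𝒰 : Filter ℕ) ≤ Filter.atTop := by
    rw [← Nat.cofinite_eq_atTop]
    exact Filter.hyperfilter_le_cofinite
  obtain ⟨Fl, hFl, φl, hφl⟩ := exists_limit B₁ B₂ 𝒰 F' φ' hbF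
  obtain ⟨Gl, hGl, ψl, hψl⟩ := exists_limit B₂ B₁ 𝒰 G' ψ' hbG
  obtain ⟨η₁, hη₁, hl₁⟩ := exists_limit_root B₁ 𝒰 (fun N => (g₁ N)⁻¹ * 1)
  obtain ⟨η₂, hη₂, hl₂⟩ := exists_limit_root B₂ 𝒰 (fun N => (g₂ N)⁻¹ * 1)
  have hpl : Bldg.Pair B₁ B₂ Fl Gl K := by
    refine ⟨?_, ?_, ?_, ?_⟩
    · intro a b
      obtain ⟨N, e1, e2⟩ := ((hFl a).and (hFl b)).exists
      rw [← e1, ← e2]
      exact (hpair N).lipF a b
    · intro a b
      obtain ⟨N, e1, e2⟩ := ((hGl a).and (hGl b)).exists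
      rw [← e1, ← e2]
      exact (hpair N).lipG a b
    · intro a
      obtain ⟨N, e1, e2⟩ := ((hFl a).and (hGl (Fl a))).exists
      rw [← e2, ← e1]
      exact (hpair N).gf a
    · intro b
      obtain ⟨N, e1, e2⟩ := ((hGl b).and (hFl (Gl b))).exists
      rw [← e2, ← e1]
      exact (hpair N).fg b
  have hpl' : Bldg.Pair B₂ B₁ Gl Fl K := ⟨hpl.lipG, hpl.lipF, hpl.fg, hpl.gf⟩
  refine limitData_of hpl φl ψl hη₁ hη₂ ?_ ?_
  · intro A hA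
    exact limit_apt h1 h2 𝒰 h𝒰 φ g₁ g₂ (fun N => (hg₂ N).1) F' G' hpair φ' hφ' hpl hFl φl hφl hη₁
      hl₁ hl₂ hA
  · intro A hA
    exact limit_apt h2 h1 𝒰 h𝒰 ψ g₂ g₁ (fun N => (hg₂ N).2) G' F' hpair' ψ' hψ' hpl' hGl ψl hψl
      hη₂ hl₂ hl₁ hA

end QFC
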