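import Pool.Agent.QFC.K03

/-! # K03b : extension to an apartment -/

open scoped Classical

namespace QFC

namespace Bldg

variable {n : ℕ} {C : Type} (B : Bldg n C)
variable {η : B.Wall → B.Sheet}

/-- **Extension.** For every wall `T` let `s T` be `σ T a` for some `a ∈ Y` with `σ T a ≠ η T` if there is one, otherwise any realized sheet `≠ η T` (`q ≥ 3`). `S = {c | ∀ T, σ T c = η T ∨ σ T c = s T}`. `Y ⊆ S` by `hY`. `S ∈ Apt η`: let `i ∉ D η g`, `T = wall i g`, so
`σ T g = η T`; the chambers `d ≠ g` of the panel have `σ U d = σ U g` for `U ≠ T` and `σ T d ≠ η T`, so `d ∈ S ↔ g ∈ S ∧ σ T d = s T`, and exactly one chamber of the panel has `σ T d = s T` (`exists_gate`, `gate_unique`). -/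
theorem Apt_ext (hη : B.IsRoller η) {Y : Set C}
    (hY : ∀ T, ∀ a ∈ Y, ∀ b ∈ Y, B.σ T a = η T ∨ B.σ T b = η T ∨ B.σ T a = B.σ T b) :
    ∃ S ∈ B.Apt η, Y ⊆ S := by
  have hs : ∀ T, ∃ s, s ≠ η T ∧ (∃ c, B.σ T c = s) ∧ ∀ a ∈ Y, B.σ T a = η T ∨ B.σ T a = s := by
    intro T
    by_cases h : ∃ a ∈ Y, B.σ T a ≠ η T
    · obtain ⟨a, ha, haT⟩ := h
      refine ⟨B.σ T a, haT, ⟨a, rfl⟩, fun b hb => ?_⟩
      rcases hY T a ha b hb with h | h | h
      · exact absurd h haT
      · exact Or.inl h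
      · exact Or.inr h.symm
    · have h' : ∀ a ∈ Y, B.σ T a = η T := by
        intro a ha
        by_contra h''
        exact h ⟨a, ha, h''⟩
      obtain ⟨c, hc⟩ := B.wall_surj T
      obtain ⟨d, hd, hdc, _⟩ := B.exists_third (B.typ T) c c c
      have hne := B.σ_ne hd hdc.symm
      rw [hc] at hne
      by_cases hcη : B.σ T c = η T
      · refine ⟨B.σ T d, ?_, ⟨d, rfl⟩, fun a ha => Or.inl (h' a ha)⟩
        intro h1
        exact hne (hcη.trans h1.symm)
      · exact ⟨B.σ T c, hcη, ⟨c, rfl⟩, fun a ha => Or.inl (h' a ha)⟩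
  choose s hs1 hs2 hs3 using hs
  refine ⟨{c | ∀ T, B.σ T c = η T ∨ B.σ T c = s T}, ?_, fun a ha T => hs3 T a ha⟩
  intro i g hig
  have hgη : B.σ (B.wall i g) g = η (B.wall i g) := by
    by_contra h
    exact hig h
  by_cases hg : g ∈ {c | ∀ T, B.σ T c = η T ∨ B.σ T c = s T}
  · right
    obtain ⟨x, hx⟩ := hs2 (B.wall i g)
    obtain ⟨d, hd, hdσ⟩ := B.exists_gate i g x
    have hdg : d ≠ g := by
      intro h
      rw [h, hgη, hx] at hdσ
      exact hs1 _ hdσ.symm
    refine ⟨d, hdg, ?_⟩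
    apply Set.Subset.antisymm
    · rintro y ⟨hy, hyp⟩
      have hyp' : B.adj i g y := hyp
      rcases hy (B.wall i g) with h | h
      · left
        exact B.gate_unique hyp' (B.adj_refl i g) (h.trans hgη.symm)
      · right
        exact B.gate_unique hyp' hd (h.trans (hx.symm.trans hdσ.symm))
    · rintro y (hy | hy)
      · rw [hy]
        exact ⟨hg, B.adj_refl i g⟩
      · rw [Set.mem_singleton_iff] at hy
        rw [hy]
        refine ⟨fun U => ?_, hd⟩
        by_cases hU : U = B.wall i g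
        · rw [hU]
          exact Or.inr (hdσ.trans hx)
        · rw [← B.σ_eq hd hU]
          exact hg U
  · left
    apply Set.eq_empty_of_forall_notMem
    rintro y ⟨hy, hyp⟩
    apply hg
    intro U
    by_cases hU : U = B.wall i g
    · rw [hU]
      exact Or.inl hgη
    · rw [B.σ_eq (show B.adj i g y from hyp) hU]
      exact hy U

end Bldg

end QFC
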