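import Pool.Agent.QFC.K3
import Pool.Agent.QFC.K03b

/-! # K3b : the mixed apartment -/

open scoped Classical

namespace QFC

namespace Bldg

variable {n : ℕ} {C : Type} (B : Bldg n C)
variable {η : B.Wall → B.Sheet}

theorem k3b_other (hη : B.IsRoller η) {S : Set C} (hS : S ∈ B.Apt η) (i : ZMod n) {c : C}
    (hc : c ∈ S) : ∃ d ∈ S, d ≠ c ∧ B.adj i c d := by
  obtain ⟨d, h1, h2⟩ := B.Apt_other hη hS i hc
  have h3 : d ∈ S ∩ B.panel i c := by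
    rw [h2]
    exact Or.inr rfl
  exact ⟨d, h3.1, h1, h3.2⟩

theorem k3b_half (hη : B.IsRoller η) {S' S : Set C} (h' : S' ∈ B.Apt η) (hS : S ∈ B.Apt η)
    {i : ZMod n} {e e2 : C} (h2 : e2 ∈ S') (hadj : B.adj (i + 3) e e2) (hne : e2 ≠ e)
    (hi : i ∈ B.D η e) (hY : ∀ x ∈ S', B.σ (B.wall (i + 3) e) x = B.σ (B.wall (i + 3) e) e2 → x ∈ S)
    (m : ℕ) : ∃ z ∈ S', S ∩ B.ball z m = S' ∩ B.ball z m ∧
        ∀ x, B.σ (B.wall i e) x = η (B.wall i e) → m ≤ B.dist x z := by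
  have e2' : (2 : ZMod n) ≠ 0 := by
    have h := natCast_ne_zero B.hn (k := 2) (by norm_num) (by norm_num)
    rwa [Nat.cast_ofNat] at h
  have e3 : (3 : ZMod n) ≠ 0 := by
    have h := natCast_ne_zero B.hn (k := 3) (by norm_num) (by norm_num)
    rwa [Nat.cast_ofNat] at h
  have e4 : (4 : ZMod n) ≠ 0 := by
    have h := natCast_ne_zero B.hn (k := 4) (by norm_num) (by norm_num)
    rwa [Nat.cast_ofNat] at h
  obtain ⟨z, z1, -, z3, z4⟩ := B.deep_point hη h' h2 (B.wall (i + 3) e) (m + 1)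
  refine ⟨z, z1, ?_, fun x hx => ?_⟩
  · refine B.Apt_ball hη hη h' hS z1 ?_
    rintro y ⟨y1, y2⟩
    refine hY y y1 ?_
    rw [B.ball_in_half z4 y2, z3]
  · refine B.far_of_wall (i := i) (j := i + 3) (e := e) (x := x) (z := z) (m := m) ?_ ?_ ?_ ?_ ?_
    · intro h
      exact e3 (by linear_combination h)
    · rintro (h | h)
      · exact e2' (by linear_combination h)
      · exact e4 (by linear_combination -h)
    · rw [hx]
      exact Ne.symm hi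
    · rw [z3]
      exact (B.σ_ne hadj hne.symm).symm
    · intro t ht
      exact le_trans (Nat.le_succ m) (z4 t ht)

/-- `T' := wall i c1`, `σ T' c1 ≠ η T'`. `c2` := the other chamber of `S₂` in the panel `(i+3, c1)`; `d1` := the other chamber of `S₁` in the panel `(i+1, c1)`, `e1` := the other chamber of `S₁` in `(i-1, d1)`, `e2` := the other chamber of `S₁` in `(i+3, e1)` (`Apt_other`). `V = wall (i+3) c1`, `W = wall (i+3) e1`.
`e1` is on `T'` (`wall i e1 = T'`) and in the same `T'`-sheet as `c1` (`wall_eq`, `σ_eq`).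
`Y = {x ∈ S₁ | σ W x = σ W e2} ∪ {x ∈ S₂ | σ V x = σ V c2}`. Hypothesis of `Apt_ext`: two elements of `S₁` or two elements of `S₂`: `two_sheet`; otherwise `mix` (`σ W e2 ≠ σ W e1`, `σ V c2 ≠ σ V c1` by `σ_ne`). So `S ∈ Apt η` with `Y ⊆ S`.
First conclusion: `deep_point` in `S₁` from `e2`, wall `W`, depth `m + 1`: `z ∈ S₁`, `σ W z = σ W e2`, all `t` on `W` at distance `≥ m + 1`. `S₁ ∩ ball z m ⊆ Y ⊆ S` (`ball_in_half`), so `S ∩ ball z m = S₁ ∩ ball z m` (`Apt_ball`). `far_of_wall` (`e := e1`, `j := i + 3`): `σ T' x = η T' ≠ σ T' e1`.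
Second conclusion: same with `c2`, `V`, `S₂` (`e := c1`). -/
theorem mixed_apartment (hη : B.IsRoller η) {S₁ S₂ : Set C} (h1 : S₁ ∈ B.Apt η) (h2 : S₂ ∈ B.Apt η)
    {i : ZMod n} {c1 : C} (hi : i ∈ B.D η c1) (hd1 : c1 ∈ S₁) (hd2 : c1 ∈ S₂) :
    ∃ S ∈ B.Apt η,
      (∀ m, ∃ z ∈ S₁, S ∩ B.ball z m = S₁ ∩ B.ball z m ∧
        ∀ x, B.σ (B.wall i c1) x = η (B.wall i c1) → m ≤ B.dist x z) ∧
      (∀ m, ∃ z ∈ S₂, S ∩ B.ball z m = S₂ ∩ B.ball z m ∧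
        ∀ x, B.σ (B.wall i c1) x = η (B.wall i c1) → m ≤ B.dist x z) := by
  have e1' : (1 : ZMod n) ≠ 0 := by
    have h := natCast_ne_zero B.hn (k := 1) (by norm_num) (by norm_num)
    rwa [Nat.cast_one] at h
  obtain ⟨d1, d1S, d1ne, d1a⟩ := B.k3b_other hη h1 (i + 1) hd1
  obtain ⟨e1, e1S, e1ne, e1a⟩ := B.k3b_other hη h1 (i - 1) d1S
  obtain ⟨e2, e2S, e2ne, e2a⟩ := B.k3b_other hη h1 (i + 3) e1S
  obtain ⟨c2, c2S, c2ne, c2a⟩ := B.k3b_other hη h2 (i + 3) hd2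
  have w1 : B.wall i c1 = B.wall i d1 := B.wall_eq d1a (Or.inr (Or.inl rfl))
  have w2 : B.wall i d1 = B.wall i e1 := B.wall_eq e1a (Or.inr (Or.inr (by ring)))
  have s1 : B.σ (B.wall i c1) c1 = B.σ (B.wall i c1) d1 :=
    B.σ_eq d1a (B.wall_ne_of_ne (fun h => e1' (by linear_combination -h)) c1 c1)
  have s2 : B.σ (B.wall i c1) d1 = B.σ (B.wall i c1) e1 :=
    B.σ_eq e1a (B.wall_ne_of_ne (fun h => e1' (by linear_combination h)) c1 d1)
  have hie : i ∈ B.D η e1 := by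
    show B.σ (B.wall i e1) e1 ≠ η (B.wall i e1)
    rw [← w2, ← w1, ← s2, ← s1]
    exact hi
  have hW : B.σ (B.wall (i + 3) e1) e2 ≠ B.σ (B.wall (i + 3) e1) e1 :=
    (B.σ_ne e2a e2ne.symm).symm
  have hV : B.σ (B.wall (i + 3) c1) c2 ≠ B.σ (B.wall (i + 3) c1) c1 :=
    (B.σ_ne c2a c2ne.symm).symm
  obtain ⟨S, hS, hYS⟩ := B.Apt_ext hη
    (Y := {x | x ∈ S₁ ∧ B.σ (B.wall (i + 3) e1) x = B.σ (B.wall (i + 3) e1) e2} ∪
      {x | x ∈ S₂ ∧ B.σ (B.wall (i + 3) c1) x = B.σ (B.wall (i + 3) c1) c2}) (by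
    rintro T a (⟨a1, a2⟩ | ⟨a1, a2⟩) b (⟨b1, b2⟩ | ⟨b1, b2⟩)
    · exact B.two_sheet hη h1 a1 b1 T
    · exact B.mix hη h1 h2 hd1 hd2 a1 b1 d1a d1ne e1a e1ne (by rw [a2]; exact hW)
        (by rw [b2]; exact hV) T
    · rcases B.mix hη h1 h2 hd1 hd2 b1 a1 d1a d1ne e1a e1ne (by rw [b2]; exact hW)
        (by rw [a2]; exact hV) T with h | h | h
      · exact Or.inr (Or.inl h)
      · exact Or.inl h
      · exact Or.inr (Or.inr h.symm)
    · exact B.two_sheet hη h2 a1 b1 T)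
  refine ⟨S, hS, fun m => ?_, fun m => ?_⟩
  · rw [w1, w2]
    exact B.k3b_half hη h1 hS e2S e2a e2ne hie (fun x hx hx' => hYS (Or.inl ⟨hx, hx'⟩)) m
  · exact B.k3b_half hη h2 hS c2S c2a c2ne hi (fun x hx hx' => hYS (Or.inr ⟨hx, hx'⟩)) m

end Bldg

end QFC
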