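import Pool.Agent.QFC.K4b
import Pool.Agent.QFC.K3b

/-! # K4c : the contradiction -/

open scoped Classical

namespace QFC

namespace LimitData

variable {n₁ n₂ : ℕ} {C₁ C₂ : Type} {B₁ : Bldg n₁ C₁} {B₂ : Bldg n₂ C₂}

/-- for every chamber `x` of the panel `(i₀, c₀)` there is an apartment containing `x` and the half of `A` (`Apt_ext`: for `a` in the half and `b = x`: `σ T x = σ T c₀` for `T ≠ T₀`, `two_sheet a c₀`; for `T = T₀`: `σ T₀ a = η T₀`) -/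
theorem exists_half_ext (L : LimitData B₁ B₂) {A : Set C₁} (hA : A ∈ B₁.Apt L.η₁) {i₀ : ZMod n₁} {c₀ x : C₁} (hc₀ : c₀ ∈ A)
    (hi : i₀ ∉ B₁.D L.η₁ c₀) (hx : B₁.adj i₀ c₀ x) :
    ∃ B ∈ B₁.Apt L.η₁, x ∈ B ∧ ∀ y ∈ A, B₁.σ (B₁.wall i₀ c₀) y = L.η₁ (B₁.wall i₀ c₀) → y ∈ B := by
  have hmix : ∀ T, ∀ b ∈ A, B₁.σ (B₁.wall i₀ c₀) b = L.η₁ (B₁.wall i₀ c₀) →
      B₁.σ T x = L.η₁ T ∨ B₁.σ T b = L.η₁ T ∨ B₁.σ T x = B₁.σ T b := by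
    intro T b hb hbT
    by_cases hT : T = B₁.wall i₀ c₀
    · subst hT
      exact Or.inr (Or.inl hbT)
    · rw [← B₁.σ_eq hx hT]
      exact B₁.two_sheet L.hη₁ hA hc₀ hb T
  obtain ⟨S, hS, hYS⟩ := B₁.Apt_ext L.hη₁
    (Y := {y | y = x ∨ (y ∈ A ∧ B₁.σ (B₁.wall i₀ c₀) y = L.η₁ (B₁.wall i₀ c₀))}) (by
      intro T a ha b hb
      rcases ha with ha | ⟨ha, haT⟩
      · rcases hb with hb | ⟨hb, hbT⟩
        · rw [ha, hb]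
          exact Or.inr (Or.inr rfl)
        · rw [ha]
          exact hmix T b hb hbT
      · rcases hb with hb | ⟨hb, hbT⟩
        · rw [hb]
          rcases hmix T a ha haT with h | h | h
          · exact Or.inr (Or.inl h)
          · exact Or.inl h
          · exact Or.inr (Or.inr h.symm)
        · exact B₁.two_sheet L.hη₁ hA ha hb T)
  exact ⟨S, hS, hYS (Or.inl rfl), fun y hy hyT => hYS (Or.inr ⟨hy, hyT⟩)⟩

/-- a point lying in the images of all apartments containing the half: `deep_point` in `A` from `c₀`, `near_image`, `deep_image` -/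
theorem exists_common (L : LimitData B₁ B₂) {A : Set C₁} (hA : A ∈ B₁.Apt L.η₁) {T₀ : B₁.Wall} {c₀ : C₁} (hc₀ : c₀ ∈ A)
    (hT : B₁.σ T₀ c₀ = L.η₁ T₀) :
    ∃ c, ∀ A' ∈ B₁.Apt L.η₁, (∀ y ∈ A, B₁.σ T₀ y = L.η₁ T₀ → y ∈ A') → c ∈ L.Φ A' := by
  obtain ⟨R, hR⟩ := L.deep_image hA T₀ (L.K * L.K + 2 * L.K)
  obtain ⟨x, hx, _, hxT, hxd⟩ := B₁.deep_point L.hη₁ hA hc₀ T₀ R
  obtain ⟨c, hc, hcd⟩ := L.near_image hA hx
  refine ⟨c, fun A' hA' hAA' => ?_⟩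
  exact hR x hx (hxT.trans hT) hxd A' hA' hAA' ⟨hc, hcd⟩

theorem k4c_kids_ncard {n : ℕ} {C : Type} (B : Bldg n C) (i : ZMod n) (c : C) :
    {d | B.adj i c d ∧ d ≠ c}.ncard = B.q i - 1 := by
  have h1 : {d | B.adj i c d ∧ d ≠ c} = {d | B.adj i c d} \ {c} := by
    ext d
    simp
  rw [h1, Set.ncard_sdiff_singleton_of_mem (show c ∈ {d | B.adj i c d} from B.adj_refl i c), B.card_panel]

/-- **Contradiction.** `c₀` := the gate of some panel of type `i₀` (`exists_gate_roller`; chambers exist: `C₁` is non-empty because `hη₁ ∅`), `T₀ = wall i₀ c₀`, `A ∈ Apt η₁` with `c₀ ∈ A` (`Apt_ext {c₀}`), `𝒢` = the apartments containing the half `{x ∈ A | σ T₀ x = η T₀}`, `𝒮 = Φ '' 𝒢`.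
For each of the `q₁ i₀ - 1 ≥ 2` children `x` of `c₀` choose `B x ∈ 𝒢` with `x ∈ B x` (`exists_half_ext`; `c₀ ∈ B x` too). `x ≠ x'` implies `B x ≠ B x'` (otherwise `c₀, x, x'` in one panel of `B x`, `Apt_other`), so `Φ (B x) ≠ Φ (B x')` (`ΨΦ`). `exists_common`, `exists_branch` for `𝒮`: `i, c` with `c` in all `Φ B`, `i ∉ D η₂ c`, all common points on the `η₂`-side of
`T' = wall i c`. Let `k x` be the other chamber of `Φ (B x)` in the panel `(i, c)` (`Apt_other`): `q₂ i - 1 < q₁ i₀ - 1` possibilities, so `k x = k x' =: c1` for some `x ≠ x'` (`Set.exists_ne_map_eq_of_ncard_lt_of_maps_to`). `mixed_apartment` (in `B₂`, for `Φ (B x)`, `Φ (B x')`, `i`, `c1`; `i ∈ D η₂ c1` by `mem_D_child`; `wall i c1 = T'`) gives `S`.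
`escape` twice: `y ∈ B x ∩ Ψ S`, `y' ∈ B x' ∩ Ψ S` not in the `η`-sheet of `T₀`. `two_sheet` in `B x`: `σ T₀ y = σ T₀ x`; in `B x'`: `σ T₀ y' = σ T₀ x'`; `σ T₀ x ≠ σ T₀ x'` (`gate_unique`). `two_sheet` for `Ψ S`: contradiction. -/
theorem false (L : LimitData B₁ B₂) (i₀ : ZMod n₁) (hq : ∀ j, B₂.q j < B₁.q i₀) : False := by
  obtain ⟨xx, _⟩ := L.hη₁ ∅
  obtain ⟨c₀, _, hi₀⟩ := B₁.exists_gate_roller L.hη₁ i₀ xx
  have hcT : B₁.σ (B₁.wall i₀ c₀) c₀ = L.η₁ (B₁.wall i₀ c₀) := by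
    by_contra h
    exact hi₀ h
  obtain ⟨A, hA, hcA⟩ := B₁.Apt_ext L.hη₁ (Y := {c₀}) (by
    intro T a ha b hb
    rw [Set.mem_singleton_iff] at ha hb
    rw [ha, hb]
    exact Or.inr (Or.inr rfl))
  have hc₀A : c₀ ∈ A := hcA rfl
  have hch : ∀ x, B₁.adj i₀ c₀ x → ∃ B ∈ B₁.Apt L.η₁, x ∈ B ∧
      ∀ y ∈ A, B₁.σ (B₁.wall i₀ c₀) y = L.η₁ (B₁.wall i₀ c₀) → y ∈ B :=
    fun x hx => L.exists_half_ext hA hc₀A hi₀ hx
  choose! Bf hB1 hB2 hB3 using hch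
  -- distinct children give distinct apartments
  have hBne : ∀ x x', B₁.adj i₀ c₀ x → x ≠ c₀ → B₁.adj i₀ c₀ x' → x' ≠ c₀ → x ≠ x' → Bf x ≠ Bf x' := by
    intro x x' hx hxc hx' hxc' hne heq
    obtain ⟨d, _, hd⟩ := B₁.Apt_other L.hη₁ (hB1 x hx) i₀ (hB3 x hx c₀ hc₀A hcT)
    have h1 : x ∈ Bf x ∩ B₁.panel i₀ c₀ := ⟨hB2 x hx, hx⟩
    have h2 : x' ∈ Bf x ∩ B₁.panel i₀ c₀ := ⟨by rw [heq]; exact hB2 x' hx', hx'⟩
    rw [hd] at h1 h2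
    rcases h1 with h1 | h1
    · exact hxc h1
    · rcases h2 with h2 | h2
      · exact hxc' h2
      · rw [Set.mem_singleton_iff] at h1 h2
        exact hne (h1.trans h2.symm)
  obtain ⟨a, ha⟩ := L.exists_common hA hc₀A hcT
  obtain ⟨x₁, hx₁, hx₁c, _⟩ := B₁.exists_third i₀ c₀ c₀ c₀
  obtain ⟨x₂, hx₂, hx₂c, hx₂₁⟩ := B₁.exists_third i₀ c₀ c₀ x₁
  -- the family of images
  obtain ⟨i, c, hc, hi, hcom⟩ := B₂.exists_branch L.hη₂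
    (𝒮 := {S | ∃ A' ∈ B₁.Apt L.η₁, (∀ y ∈ A, B₁.σ (B₁.wall i₀ c₀) y = L.η₁ (B₁.wall i₀ c₀) → y ∈ A') ∧ L.Φ A' = S})
    (by
      rintro S ⟨A', hA', _, rfl⟩
      exact L.Φ_apt A' hA')
    (a := a) (by
      rintro S ⟨A', hA', h, rfl⟩
      exact ha A' hA' h)
    (S := L.Φ (Bf x₁)) (S' := L.Φ (Bf x₂))
    ⟨Bf x₁, hB1 x₁ hx₁, hB3 x₁ hx₁, rfl⟩ ⟨Bf x₂, hB1 x₂ hx₂, hB3 x₂ hx₂, rfl⟩ (by
      intro h
      have h1 := congrArg L.Ψ h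
      rw [L.ΨΦ _ (hB1 x₁ hx₁), L.ΨΦ _ (hB1 x₂ hx₂)] at h1
      exact hBne x₁ x₂ hx₁ hx₁c hx₂ hx₂c hx₂₁.symm h1)
  have hcΦ : ∀ x, B₁.adj i₀ c₀ x → c ∈ L.Φ (Bf x) :=
    fun x hx => hc _ ⟨Bf x, hB1 x hx, hB3 x hx, rfl⟩
  have hk : ∀ x, B₁.adj i₀ c₀ x → ∃ d, d ≠ c ∧ L.Φ (Bf x) ∩ B₂.panel i c = {c, d} :=
    fun x hx => B₂.Apt_other L.hη₂ (L.Φ_apt _ (hB1 x hx)) i (hcΦ x hx)
  have : Nonempty C₂ := ⟨c⟩
  choose! k hk1 hk2 using hk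
  have hkmem : ∀ x, B₁.adj i₀ c₀ x → k x ∈ L.Φ (Bf x) ∧ B₂.adj i c (k x) := by
    intro x hx
    have h1 : k x ∈ L.Φ (Bf x) ∩ B₂.panel i c := by
      rw [hk2 x hx]
      exact Or.inr rfl
    exact h1
  have hfin : {d | B₂.adj i c d ∧ d ≠ c}.Finite :=
    (B₂.panel_finite i c).subset (fun d hd => hd.1)
  have hcard : {d | B₂.adj i c d ∧ d ≠ c}.ncard < {x | B₁.adj i₀ c₀ x ∧ x ≠ c₀}.ncard := by
    rw [k4c_kids_ncard, k4c_kids_ncard]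
    have h1 := hq i
    have h2 := B₂.q_ge i
    omega
  obtain ⟨x, ⟨hx, hxc⟩, x', ⟨hx', hxc'⟩, hxx', hkk⟩ :=
    Set.exists_ne_map_eq_of_ncard_lt_of_maps_to hcard
      (f := k) (fun x hx => ⟨(hkmem x hx.1).2, hk1 x hx.1⟩) hfin
  have hw : B₂.wall i (k x) = B₂.wall i c := (B₂.wall_adj (hkmem x hx).2).symm
  obtain ⟨S, hS, hS1, hS2⟩ := B₂.mixed_apartment L.hη₂ (L.Φ_apt _ (hB1 x hx)) (L.Φ_apt _ (hB1 x' hx'))
    (i := i) (c1 := k x) (B₂.mem_D_child (hkmem x hx).2 (hk1 x hx).symm hi) (hkmem x hx).1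
    (by rw [hkk]; exact (hkmem x' hx').1)
  rw [hw] at hS1 hS2
  have hcom' : ∀ u, (∀ A' ∈ B₁.Apt L.η₁, (∀ y ∈ A, B₁.σ (B₁.wall i₀ c₀) y = L.η₁ (B₁.wall i₀ c₀) → y ∈ A') →
      u ∈ L.Φ A') → B₂.σ (B₂.wall i c) u = L.η₂ (B₂.wall i c) := by
    intro u hu
    apply hcom
    rintro S ⟨A', hA', h, rfl⟩
    exact hu A' hA' h
  obtain ⟨y, hy, hyS, hyT⟩ := L.escape hA (hB1 x hx) hc₀A hcT (hB3 x hx) hS (B₂.wall i c) hcom' hS1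
  obtain ⟨y', hy', hyS', hyT'⟩ := L.escape hA (hB1 x' hx') hc₀A hcT (hB3 x' hx') hS (B₂.wall i c) hcom' hS2
  have hxT : B₁.σ (B₁.wall i₀ c₀) x ≠ L.η₁ (B₁.wall i₀ c₀) := by
    rw [← hcT]
    intro h
    exact hxc (B₁.gate_unique hx (B₁.adj_refl i₀ c₀) h)
  have hxT' : B₁.σ (B₁.wall i₀ c₀) x' ≠ L.η₁ (B₁.wall i₀ c₀) := by
    rw [← hcT]
    intro h
    exact hxc' (B₁.gate_unique hx' (B₁.adj_refl i₀ c₀) h)
  have e1 : B₁.σ (B₁.wall i₀ c₀) y = B₁.σ (B₁.wall i₀ c₀) x := by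
    rcases B₁.two_sheet L.hη₁ (hB1 x hx) hy (hB2 x hx) (B₁.wall i₀ c₀) with h | h | h
    · exact absurd h hyT
    · exact absurd h hxT
    · exact h
  have e2 : B₁.σ (B₁.wall i₀ c₀) y' = B₁.σ (B₁.wall i₀ c₀) x' := by
    rcases B₁.two_sheet L.hη₁ (hB1 x' hx') hy' (hB2 x' hx') (B₁.wall i₀ c₀) with h | h | h
    · exact absurd h hyT'
    · exact absurd h hxT'
    · exact h
  have e3 : B₁.σ (B₁.wall i₀ c₀) y = B₁.σ (B₁.wall i₀ c₀) y' := by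
    rcases B₁.two_sheet L.hη₁ (L.Ψ_apt S hS) hyS hyS' (B₁.wall i₀ c₀) with h | h | h
    · exact absurd h hyT
    · exact absurd h hyT'
    · exact h
  exact hxx' (B₁.gate_unique hx hx' (e1.symm.trans (e3.trans e2)))

end LimitData

end QFC
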