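import Pool.Agent.QFC.Label

/-! # L5b : weights -/

open scoped Classical

namespace QFC

namespace KData

variable {m a b : ℕ} (K : KData m a b)

private instance inst6 : NeZero (2 * 3) := ⟨by norm_num⟩
private instance inst8 : NeZero (2 * 4) := ⟨by norm_num⟩

theorem aux1_46 : ∀ i : ZMod (2 * 3), (1 : ℚ) =
      (∑ j ∈ Finset.univ.filter (fun j : ZMod (2 * 3) => j ≠ i ∧ ¬ (j = i + 1 ∨ i = j + 1)),
        1 / (((if j.val % 2 = 0 then 4 else 6 : ℕ) : ℚ) - 1))
      + (if i.val % 2 = 0 then 1/3 else 2/5) / (((if (i + 1).val % 2 = 0 then 4 else 6 : ℕ) : ℚ) - 1)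
      + (if (i - 1).val % 2 = 0 then 2/5 else 1/3) / (((if (i - 1).val % 2 = 0 then 4 else 6 : ℕ) : ℚ) - 1) := by
  decide +kernel

theorem aux2_46 : ∀ i : ZMod (2 * 3), ((if i.val % 2 = 0 then 1/3 else 2/5) + (if i.val % 2 = 0 then 2/5 else 1/3) : ℚ) =
      (∑ j ∈ Finset.univ.filter (fun j : ZMod (2 * 3) => j ≠ i ∧ j ≠ i + 1 ∧ ¬ (j = i + 1 ∨ i = j + 1) ∧ ¬ (j = i + 1 + 1 ∨ i + 1 = j + 1)),
        1 / (((if j.val % 2 = 0 then 4 else 6 : ℕ) : ℚ) - 1))
      + (if (i + 1).val % 2 = 0 then 1/3 else 2/5) / (((if (i + 2).val % 2 = 0 then 4 else 6 : ℕ) : ℚ) - 1)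
      + (if (i - 1).val % 2 = 0 then 2/5 else 1/3) / (((if (i - 1).val % 2 = 0 then 4 else 6 : ℕ) : ℚ) - 1) := by
  decide +kernel

theorem aux1_68 : ∀ i : ZMod (2 * 4), (1 : ℚ) =
      (∑ j ∈ Finset.univ.filter (fun j : ZMod (2 * 4) => j ≠ i ∧ ¬ (j = i + 1 ∨ i = j + 1)),
        1 / (((if j.val % 2 = 0 then 6 else 8 : ℕ) : ℚ) - 1))
      + (if i.val % 2 = 0 then 2/5 else 3/7) / (((if (i + 1).val % 2 = 0 then 6 else 8 : ℕ) : ℚ) - 1)
      + (if (i - 1).val % 2 = 0 then 3/7 else 2/5) / (((if (i - 1).val % 2 = 0 then 6 else 8 : ℕ) : ℚ) - 1) := by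
  decide +kernel

theorem aux2_68 : ∀ i : ZMod (2 * 4), ((if i.val % 2 = 0 then 2/5 else 3/7) + (if i.val % 2 = 0 then 3/7 else 2/5) : ℚ) =
      (∑ j ∈ Finset.univ.filter (fun j : ZMod (2 * 4) => j ≠ i ∧ j ≠ i + 1 ∧ ¬ (j = i + 1 ∨ i = j + 1) ∧ ¬ (j = i + 1 + 1 ∨ i + 1 = j + 1)),
        1 / (((if j.val % 2 = 0 then 6 else 8 : ℕ) : ℚ) - 1))
      + (if (i + 1).val % 2 = 0 then 2/5 else 3/7) / (((if (i + 2).val % 2 = 0 then 6 else 8 : ℕ) : ℚ) - 1)
      + (if (i - 1).val % 2 = 0 then 3/7 else 2/5) / (((if (i - 1).val % 2 = 0 then 6 else 8 : ℕ) : ℚ) - 1) := by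
  decide +kernel

/-- hexagons, thickness `4` (even sides) and `6` (odd sides): `x1 = 1`, `up i = 1/3` if the side `i + 1` has thickness `6` (`i` even), `2/5` if it has thickness `4` (`i` odd); `dn i = 1/3` if the side `i` has thickness `6` (`i` odd), `2/5` if `i` is even. Check the equations for the six values of `i` (`decide`-like case analysis, `fin_cases`, `norm_num`):
`eq1`, `i` even: `1 = 1/3 + 1/5 + 1/3 + (1/3)/5 + (1/3)/5`; `i` odd: `1 = 1/5 + 1/3 + 1/5 + (2/5)/3 + (2/5)/3`; `eq2`: `1/3 + 2/5 = (1/3 + 1/5) + (2/5)/3 + (1/3)/5`. -/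
theorem exists_weights_46 (K : KData 3 4 6) : Nonempty (@Weights (2 * 3) ⟨by norm_num⟩ K.thick) := by
  refine ⟨@Weights.mk (2 * 3) ⟨by norm_num⟩ K.thick (fun _ => 1) (fun i => if i.val % 2 = 0 then 1/3 else 2/5)
    (fun i => if i.val % 2 = 0 then 2/5 else 1/3) ?_ ?_ ?_ ?_ ?_⟩
  · intro i; norm_num
  · intro i; split_ifs <;> norm_num
  · intro i; split_ifs <;> norm_num
  · intro i
    have h := congrArg (Rat.cast : ℚ → ℝ) (aux1_46 i)
    push_cast at h
    unfold TAdj thick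
    push_cast
    convert h using 4
    all_goals first
      | rfl
      | (congr 1; split_ifs <;> norm_num)
      | (split_ifs <;> norm_num)
  · intro i
    have h := congrArg (Rat.cast : ℚ → ℝ) (aux2_46 i)
    push_cast at h
    unfold TAdj thick
    push_cast
    convert h using 4
    all_goals first
      | rfl
      | (split_ifs <;> norm_num)

/-- octagons, thickness `6` (even sides) and `8` (odd sides): `x1 = 1`, values into a side of thickness `8`: `2/5`, into a side of thickness `6`: `3/7`. -/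
theorem exists_weights_68 (K : KData 4 6 8) : Nonempty (@Weights (2 * 4) ⟨by norm_num⟩ K.thick) := by
  refine ⟨@Weights.mk (2 * 4) ⟨by norm_num⟩ K.thick (fun _ => 1) (fun i => if i.val % 2 = 0 then 2/5 else 3/7)
    (fun i => if i.val % 2 = 0 then 3/7 else 2/5) ?_ ?_ ?_ ?_ ?_⟩
  · intro i; norm_num
  · intro i; split_ifs <;> norm_num
  · intro i; split_ifs <;> norm_num
  · intro i
    have h := congrArg (Rat.cast : ℚ → ℝ) (aux1_68 i)
    push_cast at h
    unfold TAdj thick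
    push_cast
    convert h using 4
    all_goals first
      | rfl
      | (congr 1; split_ifs <;> norm_num)
      | (split_ifs <;> norm_num)
  · intro i
    have h := congrArg (Rat.cast : ℚ → ℝ) (aux2_68 i)
    push_cast at h
    unfold TAdj thick
    push_cast
    convert h using 4
    all_goals first
      | rfl
      | (split_ifs <;> norm_num)

end KData

end QFC
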