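import Pool.Agent.QFC.L6e
import Pool.Agent.QFC.L5b
import Pool.Agent.QFC.J6b
import Pool.Agent.QFC.K4c

/-! # Final : groups of one-vertex complexes of types (4; 6, 8) and (3; 4, 6) are not quasi-isometric -/

open scoped Classical

namespace QFC

open Pool.Agent.QFC

/-- `exists_building` for both, `exists_gpQI`, weights (`exists_weights_68`, `exists_weights_46`, transported along `B.q = K.thick`), `exists_limitData` (`NeZero`), `LimitData.false` with `i₀ = 1` (`B₁.q 1 = thick 1 = 8`, `B₂.q j ∈ {4, 6}`). -/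
theorem no_pair (K₁ : KData 4 6 8) (K₂ : KData 3 4 6) (B₁ : Bldg (2 * 4) (GP K₁.VG)) (B₂ : Bldg (2 * 3) (GP K₂.VG))
    (hB₁ : LInv B₁) (hB₂ : LInv B₂) (hq₁ : ∀ i, B₁.q i = K₁.thick i) (hq₂ : ∀ i, B₂.q i = K₂.thick i)
    {F : GP K₁.VG → GP K₂.VG} {G : GP K₂.VG → GP K₁.VG} {K : ℕ} (hp : Bldg.Pair B₁ B₂ F G K) : False := by
  have i1 : NeZero (2 * 4) := ⟨by norm_num⟩
  have i2 : NeZero (2 * 3) := ⟨by norm_num⟩
  obtain ⟨w₁⟩ : Nonempty (Weights B₁.q) := by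
    rw [funext hq₁]
    exact KData.exists_weights_68 K₁
  obtain ⟨w₂⟩ : Nonempty (Weights B₂.q) := by
    rw [funext hq₂]
    exact KData.exists_weights_46 K₂
  obtain ⟨L⟩ := exists_limitData B₁ B₂ hB₁ hB₂ w₁ w₂ hp
  refine L.false (1 : ZMod (2 * 4)) ?_
  intro j
  have h1 : K₁.thick (1 : ZMod (2 * 4)) = 8 := rfl
  rw [hq₁, hq₂, h1]
  unfold KData.thick
  split_ifs <;> norm_num

theorem not_qi (K₁ : KData 4 6 8) (K₂ : KData 3 4 6) : ¬ QIGroups K₁.Pi K₂.Pi ∧ ¬ QIGroups K₂.Pi K₁.Pi := by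
  obtain ⟨B₁, hB₁, hq₁, hl₁⟩ := K₁.exists_building (by norm_num) (by norm_num) (by norm_num)
  obtain ⟨B₂, hB₂, hq₂, hl₂⟩ := K₂.exists_building (by norm_num) (by norm_num) (by norm_num)
  obtain ⟨S₁, F₁, F₁', D₁, h1⟩ := K₁.exists_gpQI (by norm_num) (by norm_num) (by norm_num) B₁ hB₁ hq₁
  obtain ⟨S₂, F₂, F₂', D₂, h2⟩ := K₂.exists_gpQI (by norm_num) (by norm_num) (by norm_num) B₂ hB₂ hq₂
  constructor
  · intro h
    obtain ⟨F, G, K, hp⟩ := exists_pair h1 h2 h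
    exact no_pair K₁ K₂ B₁ B₂ hl₁ hl₂ hq₁ hq₂ hp
  · intro h
    obtain ⟨F, G, K, hp⟩ := exists_pair h2 h1 h
    exact no_pair K₁ K₂ B₁ B₂ hl₁ hl₂ hq₁ hq₂ hp.symm

end QFC
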