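import Pool.Agent.QFC.A7
import Pool.Agent.QFC.Chain

/-! # G1 : the cellular chain complex -/

open scoped Classical

namespace QFC

namespace Bldg

variable {n : ℕ} [NeZero n] {C : Type} (B : Bldg n C)

theorem mkP_eq_iff {i j : ZMod n} {c d : C} : B.mkP i c = B.mkP j d ↔ i = j ∧ B.adj i c d := by
  constructor
  · intro h
    unfold mkP at h
    obtain ⟨h1, h2⟩ := Sigma.mk.inj_iff.1 h
    subst h1
    refine ⟨rfl, ?_⟩
    exact Quotient.exact (eq_of_heq h2)
  · rintro ⟨rfl, h⟩
    exact B.mkP_eq h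

/-- every panel is `mkP p.1 p.2.out` -/
theorem mkP_out (p : B.Pnl) : B.mkP p.1 p.2.out = p := by
  obtain ⟨i, q⟩ := p
  show (⟨i, Quotient.mk _ q.out⟩ : B.Pnl) = ⟨i, q⟩
  rw [Quotient.out_eq]

theorem mkV_out (v : B.Vtx) : B.mkV v.1 v.2.out = v := by
  obtain ⟨i, q⟩ := v
  show (⟨i, Quotient.mk _ q.out⟩ : B.Vtx) = ⟨i, q⟩
  rw [Quotient.out_eq]

/-- `E c d := ∃ e, adj i c e ∧ adj (i + 1) e d` is an equivalence relation: symmetric and transitive by `square` (`TAdj i (i + 1)`); it contains `vrel` and is contained in `EqvGen vrel` -/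
theorem mkV_eq_iff {i : ZMod n} {c d : C} : B.mkV i c = B.mkV i d ↔ ∃ e, B.adj i c e ∧ B.adj (i + 1) e d := by
  constructor
  · intro h
    unfold mkV at h
    obtain ⟨-, h2⟩ := Sigma.mk.inj_iff.1 h
    have h3 : Relation.EqvGen (B.vrel i) c d := Quotient.exact (eq_of_heq h2)
    clear h h2
    have hT : TAdj i (i + 1) := Or.inl rfl
    induction h3 with
    | rel x y hxy =>
      rcases hxy with h | h
      · exact ⟨y, h, B.adj_refl _ _⟩
      · exact ⟨x, B.adj_refl _ _, h⟩
    | refl x => exact ⟨x, B.adj_refl _ _, B.adj_refl _ _⟩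
    | symm x y _ ih =>
      obtain ⟨e, h1, h2⟩ := ih
      obtain ⟨f, f1, f2⟩ := B.square hT (B.adj_symm h1) h2
      exact ⟨f, f2, B.adj_symm f1⟩
    | trans x y z _ _ ih1 ih2 =>
      obtain ⟨e, h1, h2⟩ := ih1
      obtain ⟨e', h1', h2'⟩ := ih2
      obtain ⟨f, f1, f2⟩ := B.square hT h1' (B.adj_symm h2)
      exact ⟨f, B.adj_trans h1 f2, B.adj_trans (B.adj_symm f1) h2'⟩
  · rintro ⟨e, h1, h2⟩
    rw [B.mkV_eq_left h1, B.mkV_eq_right h2]

theorem dist_le_two_of_mkV {i : ZMod n} {c d : C} (h : B.mkV i c = B.mkV i d) : B.dist c d ≤ 2 := by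
  obtain ⟨e, h1, h2⟩ := B.mkV_eq_iff.1 h
  have h3 := B.dist_triangle c e d
  have h4 := B.dist_le_one h1
  have h5 := B.dist_le_one h2
  omega

theorem bdP_mkP (i : ZMod n) (c : C) :
    B.bdP (B.mkP i c) = Finsupp.single (B.mkV (i - 1) c) 1 + Finsupp.single (B.mkV i c) 1 := by
  have h : B.adj i (B.mkP i c).2.out c := by
    have h1 := B.mkP_out (B.mkP i c)
    exact (B.mkP_eq_iff.1 h1).2
  have h1 : B.mkV i (B.mkP i c).2.out = B.mkV i c := B.mkV_eq_left h
  have h2 : B.mkV (i - 1) (B.mkP i c).2.out = B.mkV (i - 1) c := by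
    apply B.mkV_eq_right
    rw [sub_add_cancel]
    exact h
  show Finsupp.single (B.mkV (i - 1) (B.mkP i c).2.out) 1 + Finsupp.single (B.mkV i (B.mkP i c).2.out) 1 = _
  rw [h1, h2]

theorem d2_single (c : C) : B.d2 (Finsupp.single c 1) = ∑ i : ZMod n, Finsupp.single (B.mkP i c) (1 : ZMod 2) := by
  unfold d2
  rw [Finsupp.linearCombination_single, one_smul]

theorem d1_single (i : ZMod n) (c : C) : B.d1 (Finsupp.single (B.mkP i c) 1) =
    Finsupp.single (B.mkV (i - 1) c) 1 + Finsupp.single (B.mkV i c) 1 := by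
  unfold d1
  rw [Finsupp.linearCombination_single, one_smul, B.bdP_mkP]

/-- on `single c 1`: `∑ i (v (i-1) + v i) = 2 ∑ v i = 0` (char 2) -/
theorem d1_d2 (y : C →₀ ZMod 2) : B.d1 (B.d2 y) = 0 := by
  have key : ∀ c : C, B.d1 (B.d2 (Finsupp.single c 1)) = 0 := by
    intro c
    rw [B.d2_single, map_sum]
    have h1 : ∀ i : ZMod n, B.d1 (Finsupp.single (B.mkP i c) 1) =
      Finsupp.single (B.mkV (i - 1) c) 1 + Finsupp.single (B.mkV i c) 1 := fun i => B.d1_single i c
    rw [Finset.sum_congr rfl (fun i _ => h1 i), Finset.sum_add_distrib]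
    have h2 : ∑ i : ZMod n, Finsupp.single (B.mkV (i - 1) c) (1 : ZMod 2) = ∑ i : ZMod n, Finsupp.single (B.mkV i c) (1 : ZMod 2) :=
      Equiv.sum_comp (Equiv.subRight (1 : ZMod n)) (fun i => Finsupp.single (B.mkV i c) (1 : ZMod 2))
    rw [h2]
    ext v
    simp only [Finsupp.coe_add, Pi.add_apply, Finsupp.coe_zero, Pi.zero_apply]
    exact CharTwo.add_self_eq_zero _
  induction y using Finsupp.induction_linear with
  | zero => simp
  | add f g hf hg => rw [map_add, map_add, hf, hg, add_zero]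
  | single c a =>
    have : (Finsupp.single c a : C →₀ ZMod 2) = a • Finsupp.single c 1 := by simp
    rw [this, map_smul, map_smul, key, smul_zero]

theorem aug_d1 (z : B.Pnl →₀ ZMod 2) : B.aug (B.d1 z) = 0 := by
  have hs : ∀ v : B.Vtx, B.aug (Finsupp.single v 1) = 1 := by
    intro v
    unfold aug
    rw [Finsupp.linearCombination_single, one_smul]
  have key : ∀ p : B.Pnl, B.aug (B.d1 (Finsupp.single p 1)) = 0 := by
    intro p
    rw [← B.mkP_out p, B.d1_single, map_add, hs, hs]
    exact CharTwo.add_self_eq_zero _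
  induction z using Finsupp.induction_linear with
  | zero => simp
  | add f g hf hg => rw [map_add, map_add, hf, hg, add_zero]
  | single c a =>
    have : (Finsupp.single c a : B.Pnl →₀ ZMod 2) = a • Finsupp.single c 1 := by simp
    rw [this, map_smul, map_smul, key, smul_zero]

theorem aug_single (v : B.Vtx) : B.aug (Finsupp.single v 1) = 1 := by
  unfold aug
  rw [Finsupp.linearCombination_single, one_smul]

/-- linear in `y`; for `y = single d 1`: `1` iff `adj i d c` -/
theorem d2_apply (y : C →₀ ZMod 2) (i : ZMod n) (c : C) :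
    B.d2 y (B.mkP i c) = ∑ d ∈ (B.panel_finite i c).toFinset, y d := by
  have key : ∀ d : C, B.d2 (Finsupp.single d 1) (B.mkP i c) = ∑ e ∈ (B.panel_finite i c).toFinset, (Finsupp.single d (1 : ZMod 2)) e := by
    intro d
    rw [B.d2_single, Finsupp.finsetSum_apply]
    have h1 : ∀ j : ZMod n, (Finsupp.single (B.mkP j d) (1 : ZMod 2)) (B.mkP i c) = if j = i then (if B.adj i c d then 1 else 0) else 0 := by
      intro j
      rw [Finsupp.single_apply]
      by_cases hj : j = i
      · subst hj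
        simp only [if_true]
        by_cases hd : B.adj j c d
        · rw [if_pos hd, if_pos (B.mkP_eq (B.adj_symm hd))]
        · rw [if_neg hd, if_neg]
          intro h
          exact hd (B.adj_symm (B.mkP_eq_iff.1 h).2)
      · rw [if_neg hj, if_neg]
        intro h
        exact hj (B.mkP_eq_iff.1 h).1
    rw [Finset.sum_congr rfl (fun j _ => h1 j)]
    rw [Finset.sum_ite_eq' Finset.univ i]
    simp only [Finset.mem_univ, if_true]
    have h2 : ∀ e : C, (Finsupp.single d (1 : ZMod 2)) e = if d = e then 1 else 0 := fun e => Finsupp.single_apply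
    rw [Finset.sum_congr rfl (fun e _ => h2 e), Finset.sum_ite_eq]
    simp only [Set.Finite.mem_toFinset]
    rfl
  induction y using Finsupp.induction_linear with
  | zero => simp
  | add f g hf hg => rw [map_add, Finsupp.add_apply, hf, hg, ← Finset.sum_add_distrib]; rfl
  | single d a =>
    have : (Finsupp.single d a : C →₀ ZMod 2) = a • Finsupp.single d 1 := by simp
    rw [this, map_smul, Finsupp.smul_apply, key, Finset.smul_sum]
    rfl

/-- sums of chains near `x` are near `x` -/
theorem near2_add {y y' : C →₀ ZMod 2} {x : C} {N : ℕ} (h : B.Near2 y x N) (h' : B.Near2 y' x N) : B.Near2 (y + y') x N := by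
  intro c hc
  by_cases h1 : y c = 0
  · by_cases h2 : y' c = 0
    · rw [Finsupp.add_apply, h1, h2, add_zero] at hc
      exact absurd rfl hc
    · exact h' c h2
  · exact h c h1
theorem near1_add {y y' : B.Pnl →₀ ZMod 2} {x : C} {N : ℕ} (h : B.Near1 y x N) (h' : B.Near1 y' x N) : B.Near1 (y + y') x N := by
  intro c hc
  by_cases h1 : y c = 0
  · by_cases h2 : y' c = 0
    · rw [Finsupp.add_apply, h1, h2, add_zero] at hc
      exact absurd rfl hc
    · exact h' c h2
  · exact h c h1
theorem near0_add {y y' : B.Vtx →₀ ZMod 2} {x : C} {N : ℕ} (h : B.Near0 y x N) (h' : B.Near0 y' x N) : B.Near0 (y + y') x N := by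
  intro c hc
  by_cases h1 : y c = 0
  · by_cases h2 : y' c = 0
    · rw [Finsupp.add_apply, h1, h2, add_zero] at hc
      exact absurd rfl hc
    · exact h' c h2
  · exact h c h1
theorem near2_mono {y : C →₀ ZMod 2} {x x' : C} {N N' : ℕ} (h : B.Near2 y x N) (h' : B.dist x' x + N ≤ N') : B.Near2 y x' N' := by
  intro c hc
  have h1 := h c hc
  have h2 := B.dist_triangle x' x c
  omega
theorem near1_mono {y : B.Pnl →₀ ZMod 2} {x x' : C} {N N' : ℕ} (h : B.Near1 y x N) (h' : B.dist x' x + N ≤ N') : B.Near1 y x' N' := by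
  intro p hp
  obtain ⟨c, h1, h3⟩ := h p hp
  have h2 := B.dist_triangle x' x c
  exact ⟨c, h1, by omega⟩
theorem near0_mono {y : B.Vtx →₀ ZMod 2} {x x' : C} {N N' : ℕ} (h : B.Near0 y x N) (h' : B.dist x' x + N ≤ N') : B.Near0 y x' N' := by
  intro p hp
  obtain ⟨c, h1, h3⟩ := h p hp
  have h2 := B.dist_triangle x' x c
  exact ⟨c, h1, by omega⟩

end Bldg

end QFC
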