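import Pool.Agent.QFC.G1

/-! # G2 : no finite 2-cycles, and the support of a filling -/

open scoped Classical

namespace QFC

namespace Bldg

variable {n : ℕ} [NeZero n] {C : Type} (B : Bldg n C)

/-- if `c ∈ supp y` has maximal distance from `x` and `j ∉ D (pt x) c` then `d2 y (mkP j c) = y c` (the other chambers of the panel are at distance `dist x c + 1`: `dist_child`, `d2_apply`) -/
theorem d2_top {y : C →₀ ZMod 2} {x c : C} (hc : y c ≠ 0) (hmax : ∀ d, y d ≠ 0 → B.dist x d ≤ B.dist x c) {j : ZMod n}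
    (hj : j ∉ B.D (B.pt x) c) : B.d2 y (B.mkP j c) = y c := by
  rw [B.d2_apply]
  apply Finset.sum_eq_single c
  · intro d hd hdc
    have hd' : B.adj j c d := (Set.Finite.mem_toFinset _).1 hd
    have h1 := (B.dist_child hd' hdc.symm hj).1
    by_contra h2
    have h3 := hmax d h2
    omega
  · intro h
    exact absurd ((Set.Finite.mem_toFinset _).2 (show c ∈ B.panel j c from B.adj_refl j c)) h

/-- a chamber of the support at maximal distance -/
theorem g2_exists_top {y : C →₀ ZMod 2} (x : C) {c : C} (hc : y c ≠ 0) :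
    ∃ c₀, y c₀ ≠ 0 ∧ (∀ d, y d ≠ 0 → B.dist x d ≤ B.dist x c₀) ∧ ∃ j, j ∉ B.D (B.pt x) c₀ := by
  obtain ⟨c₀, hc₀, hmax⟩ := Finset.exists_max_image y.support (B.dist x) ⟨c, Finsupp.mem_support_iff.2 hc⟩
  exact ⟨c₀, Finsupp.mem_support_iff.1 hc₀, fun d hd => hmax d (Finsupp.mem_support_iff.2 hd),
    B.D_ne_univ (B.pt_roller x) c₀⟩

/-- let `c ∈ supp y` be of maximal distance; if it were `> N`: `d2_top` (`D_ne_univ`) and `Near1` give a chamber `c''` in the panel `(j, c)` with `dist x c'' ≤ N`, but `c` is the gate, so `dist x c'' ≥ dist x c` -/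
theorem near2_of_d2 {y : C →₀ ZMod 2} {x : C} {N : ℕ} (h : B.Near1 (B.d2 y) x N) : B.Near2 y x N := by
  intro c hc
  obtain ⟨c₀, hc₀, hmax, j, hj⟩ := B.g2_exists_top x hc
  have h1 := B.d2_top hc₀ hmax hj
  obtain ⟨c', hc', hd⟩ := h (B.mkP j c₀) (by rw [h1]; exact hc₀)
  have hadj : B.adj j c' c₀ := (B.mkP_eq_iff.1 hc').2
  have h2 : B.dist x c₀ ≤ B.dist x c' := by
    by_cases heq : c₀ = c'
    · rw [heq]
    · have := (B.dist_child (B.adj_symm hadj) heq hj).1
      omega
  exact (hmax c hc).trans (h2.trans hd)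

theorem d2_injective : Function.Injective B.d2 := by
  rw [injective_iff_map_eq_zero]
  intro y hy
  by_contra hne
  obtain ⟨c, hc⟩ := Finsupp.ne_iff.1 hne
  obtain ⟨c₀, hc₀, hmax, j, hj⟩ := B.g2_exists_top c hc
  have h1 := B.d2_top hc₀ hmax hj
  rw [hy] at h1
  exact hc₀ h1.symm

end Bldg

end QFC
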