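import Pool.Agent.QFC.G2

/-! # G3 : every 1-cycle bounds -/

open scoped Classical

namespace QFC

namespace Bldg

variable {n : ℕ} [NeZero n] {C : Type} (B : Bldg n C)

/-- distance of the gate of a panel from `x` -/
noncomputable def lev (x : C) (p : B.Pnl) : ℕ := sInf {k | ∃ c, B.mkP p.1 c = p ∧ B.dist x c = k}

/-- the gate realizes the minimum (`dist_child`) -/
theorem lev_gate {x : C} {i : ZMod n} {g : C} (h : i ∉ B.D (B.pt x) g) : B.lev x (B.mkP i g) = B.dist x g := by
  unfold lev
  apply le_antisymm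
  · exact Nat.sInf_le ⟨g, rfl, rfl⟩
  · have hne : {k | ∃ c, B.mkP (B.mkP i g).1 c = B.mkP i g ∧ B.dist x c = k}.Nonempty := ⟨_, g, rfl, rfl⟩
    obtain ⟨c, h1, h2⟩ := Nat.sInf_mem hne
    rw [← h2]
    have h3 : B.adj i g c := B.adj_symm (B.mkP_eq_iff.1 h1).2
    by_cases hgc : g = c
    · rw [hgc]
    · have := (B.dist_child h3 hgc h).1
      omega

/-- for a descent `i` of `c` the gate is closer -/
theorem lev_desc {x : C} {i : ZMod n} {c : C} (h : i ∈ B.D (B.pt x) c) : B.lev x (B.mkP i c) + 1 = B.dist x c := by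
  obtain ⟨g, h1, h2⟩ := B.exists_gate_roller (B.pt_roller x) i c
  have hgc : g ≠ c := by
    rintro rfl
    exact h2 h
  rw [B.mkP_eq h1, B.lev_gate h2]
  exact ((B.dist_child (B.adj_symm h1) hgc h2).1).symm

theorem g3_one_ne (B : Bldg n C) : (1 : ZMod n) ≠ 0 := by
  have := natCast_ne_zero (n := n) B.hn (k := 1) (by norm_num) (by norm_num)
  simpa using this

theorem g3_cast_ne {k : ℕ} (h0 : 0 < k) (h : k < n) : ((k : ℕ) : ZMod n) ≠ 0 := by
  intro h'
  rw [ZMod.natCast_eq_zero_iff] at h'
  exact absurd (Nat.le_of_dvd h0 h') (by omega)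

/-- Let `z` be a 1-cycle all of whose panels have level `≤ k = dist x d`, `j, j + 1 ∉ D d`. The panels at the vertex `v = mkV j d` are `mkP j e` (`e` in the panel `(j+1, d)`) and `mkP (j+1) e` (`e` in the panel `(j, d)`) (`mkV_eq_iff`, `square`).
For `e ≠ d` in the panel `(j+1, d)`: `j ∉ D e` (`D_child`), so `lev (mkP j e) = dist x e = k + 1` and `z` vanishes there; same for the other kind. So `0 = d1 z v = z (mkP j d) + z (mkP (j+1) d)`. -/
theorem cycle_vertex {z : B.Pnl →₀ ZMod 2} (h : B.d1 z = 0) {x d : C} (hk : ∀ p, z p ≠ 0 → B.lev x p ≤ B.dist x d)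
    {j : ZMod n} (h1 : j ∉ B.D (B.pt x) d) (h2 : j + 1 ∉ B.D (B.pt x) d) : z (B.mkP j d) = z (B.mkP (j + 1) d) := by
  have h10 := B.g3_one_ne
  have hjj : j ≠ j + 1 := fun h => h10 (by simpa using h)
  have hjj' : j - 1 ≠ j := fun h => h10 (by simpa using h)
  -- vertices of different types are different
  have hVne : ∀ (i i' : ZMod n) (e e' : C), i ≠ i' → B.mkV i e ≠ B.mkV i' e' := by
    intro i i' e e' hii h
    exact hii (congrArg Sigma.fst h)
  have hPne : B.mkP j d ≠ B.mkP (j + 1) d := fun h => hjj (B.mkP_eq_iff.1 h).1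
  -- the two kinds of panels
  have kA : ∀ f, B.adj (j + 1) d f → z (B.mkP j f) ≠ 0 → f = d := by
    intro f hf hz
    by_contra hne
    have hD := B.D_child (B.pt_roller x) hf (Ne.symm hne) h2
    have hjf : j ∉ B.D (B.pt x) f := by
      rw [hD]
      rintro (h | h)
      · exact hjj h
      · exact h1 h.1
    have e1 := B.lev_gate hjf
    have e2 := (B.dist_child hf (Ne.symm hne) h2).1
    have e3 := hk _ hz
    omega
  have kB : ∀ f, B.adj j d f → z (B.mkP (j + 1) f) ≠ 0 → f = d := by
    intro f hf hz
    by_contra hne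
    have hD := B.D_child (B.pt_roller x) hf (Ne.symm hne) h1
    have hjf : j + 1 ∉ B.D (B.pt x) f := by
      rw [hD]
      rintro (h | h)
      · exact hjj h.symm
      · exact h2 h.1
    have e1 := B.lev_gate hjf
    have e2 := (B.dist_child hf (Ne.symm hne) h1).1
    have e3 := hk _ hz
    omega
  have key : ∀ p : B.Pnl, z p * B.bdP p (B.mkV j d) = (if p = B.mkP j d then z (B.mkP j d) else 0) +
      (if p = B.mkP (j + 1) d then z (B.mkP (j + 1) d) else 0) := by
    intro p
    by_cases hp1 : p = B.mkP j d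
    · rw [if_pos hp1, if_neg (by rw [hp1]; exact hPne), hp1, B.bdP_mkP, Finsupp.add_apply,
        Finsupp.single_eq_of_ne (hVne _ _ _ _ hjj'.symm), Finsupp.single_eq_same, zero_add, mul_one, add_zero]
    · by_cases hp2 : p = B.mkP (j + 1) d
      · rw [if_neg hp1, if_pos hp2, hp2, B.bdP_mkP, Finsupp.add_apply, add_sub_cancel_right,
          Finsupp.single_eq_same, Finsupp.single_eq_of_ne (hVne _ _ _ _ hjj), zero_add, mul_add, mul_one, mul_zero, add_zero]
      · rw [if_neg hp1, if_neg hp2, add_zero]
        by_contra hcon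
        have hz : z p ≠ 0 := fun h => hcon (by rw [h, zero_mul])
        have hb : B.bdP p (B.mkV j d) ≠ 0 := fun h => hcon (by rw [h, mul_zero])
        obtain ⟨i, e, rfl⟩ : ∃ i e, p = B.mkP i e := ⟨p.1, p.2.out, (B.mkP_out p).symm⟩
        rw [B.bdP_mkP, Finsupp.add_apply] at hb
        by_cases hc1 : B.mkV i e = B.mkV j d
        · have hij : i = j := congrArg Sigma.fst hc1
          subst hij
          obtain ⟨f, f1, f2⟩ := B.mkV_eq_iff.1 hc1
          have hpf : B.mkP i e = B.mkP i f := B.mkP_eq f1
          rw [hpf] at hz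
          have := kA f (B.adj_symm f2) hz
          rw [this] at hpf
          exact hp1 hpf
        · by_cases hc2 : B.mkV (i - 1) e = B.mkV j d
          · have hij : i - 1 = j := congrArg Sigma.fst hc2
            have hij' : i = j + 1 := by rw [← hij]; ring
            subst hij'
            have hc3 : B.mkV j d = B.mkV j e := by
              rw [add_sub_cancel_right] at hc2
              exact hc2.symm
            obtain ⟨f, f1, f2⟩ := B.mkV_eq_iff.1 hc3
            have hpf : B.mkP (j + 1) e = B.mkP (j + 1) f := B.mkP_eq (B.adj_symm f2)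
            rw [hpf] at hz
            have := kB f f1 hz
            rw [this] at hpf
            exact hp2 hpf
          · apply hb
            rw [Finsupp.single_eq_of_ne (Ne.symm hc1), Finsupp.single_eq_of_ne (Ne.symm hc2), add_zero]
  have hsum : B.d1 z (B.mkV j d) = z (B.mkP j d) + z (B.mkP (j + 1) d) := by
    unfold d1
    rw [Finsupp.linearCombination_apply, Finsupp.sum, Finsupp.finsetSum_apply]
    have : ∀ p ∈ z.support, (z p • B.bdP p) (B.mkV j d) = (if p = B.mkP j d then z (B.mkP j d) else 0) +
      (if p = B.mkP (j + 1) d then z (B.mkP (j + 1) d) else 0) := by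
      intro p _
      rw [← key p]
      rfl
    rw [Finset.sum_congr rfl this, Finset.sum_add_distrib, Finset.sum_ite_eq', Finset.sum_ite_eq']
    have hs : ∀ q : B.Pnl, (if q ∈ z.support then z q else 0) = z q := by
      intro q
      by_cases hq : z q = 0
      · rw [hq]; simp
      · rw [if_pos (Finsupp.mem_support_iff.2 hq)]
    rw [hs, hs]
  rw [h] at hsum
  have h3 : z (B.mkP j d) + z (B.mkP (j + 1) d) = 0 := hsum.symm
  have h4 : z (B.mkP j d) = - z (B.mkP (j + 1) d) := eq_neg_of_add_eq_zero_left h3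
  rw [h4]
  exact ZMod.neg_eq_self_mod_two _

/-- along an arc of non-descents -/
theorem g3_arc {z : B.Pnl →₀ ZMod 2} (h : B.d1 z = 0) {x d : C} (hk : ∀ p, z p ≠ 0 → B.lev x p ≤ B.dist x d)
    (s : ZMod n) (m : ℕ) (hm : ∀ k : ℕ, k ≤ m → s + (k : ZMod n) ∉ B.D (B.pt x) d) :
    ∀ k : ℕ, k ≤ m → z (B.mkP (s + (k : ZMod n)) d) = z (B.mkP s d) := by
  intro k
  induction k with
  | zero => intro _; simp
  | succ k ih =>
    intro hkm
    rw [← ih (by omega)]
    have h1 := hm k (by omega)
    have h2 := hm (k + 1) hkm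
    have e : s + ((k + 1 : ℕ) : ZMod n) = s + (k : ZMod n) + 1 := by push_cast; ring
    rw [e] at h2 ⊢
    exact (B.cycle_vertex h hk h1 h2).symm

/-- The sides `∉ D d` form an arc (`D = ∅`, `{i}`, `{i, i+1}`: `D_cases`): `cycle_vertex` along the arc -/
theorem cycle_arc {z : B.Pnl →₀ ZMod 2} (h : B.d1 z = 0) {x d : C} (hk : ∀ p, z p ≠ 0 → B.lev x p ≤ B.dist x d)
    {j j' : ZMod n} (h1 : j ∉ B.D (B.pt x) d) (h2 : j' ∉ B.D (B.pt x) d) : z (B.mkP j d) = z (B.mkP j' d) := by
  have hn := B.hn
  obtain ⟨s, m, hs1, hs2⟩ : ∃ (s : ZMod n) (m : ℕ), (∀ k : ℕ, k ≤ m → s + (k : ZMod n) ∉ B.D (B.pt x) d) ∧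
      ∀ j, j ∉ B.D (B.pt x) d → ∃ k : ℕ, k ≤ m ∧ j = s + (k : ZMod n) := by
    have hval : ∀ s j : ZMod n, j = s + (((j - s).val : ℕ) : ZMod n) := by
      intro s j
      rw [ZMod.natCast_zmod_val]
      ring
    rcases B.D_cases (B.pt_roller x) d with hD | ⟨i, hD⟩ | ⟨i, hD⟩
    · refine ⟨0, n - 1, fun k _ => by rw [hD]; exact id, fun j _ => ⟨(j - 0).val, ?_, hval 0 j⟩⟩
      have := ZMod.val_lt (j - 0)
      omega
    · refine ⟨i + 1, n - 2, fun k hk => ?_, fun j hj => ⟨(j - (i + 1)).val, ?_, hval _ j⟩⟩
      · rw [hD]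
        intro h'
        have h'' : i + 1 + (k : ZMod n) = i := h'
        apply g3_cast_ne (n := n) (k := k + 1) (by omega) (by omega)
        push_cast
        linear_combination h''
      · by_contra hcon
        have h1 := ZMod.val_lt (j - (i + 1))
        have h2 : (j - (i + 1)).val = n - 1 := by omega
        have h3 := hval (i + 1) j
        rw [h2] at h3
        apply hj
        rw [hD]
        show j = i
        rw [h3]
        have : (((n - 1 : ℕ) : ZMod n)) = -1 := by
          have h4 : ((n - 1 + 1 : ℕ) : ZMod n) = 0 := by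
            rw [show n - 1 + 1 = n by omega]; simp
          push_cast at h4
          linear_combination h4
        rw [this]
        ring
    · refine ⟨i + 2, n - 3, fun k hk => ?_, fun j hj => ⟨(j - (i + 2)).val, ?_, hval _ j⟩⟩
      · rw [hD]
        rintro (h' | h')
        · apply g3_cast_ne (n := n) (k := k + 2) (by omega) (by omega)
          have h'' : i + 2 + (k : ZMod n) = i := h'
          push_cast
          linear_combination h''
        · apply g3_cast_ne (n := n) (k := k + 1) (by omega) (by omega)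
          have h'' : i + 2 + (k : ZMod n) = i + 1 := h'
          push_cast
          linear_combination h''
      · by_contra hcon
        have h1 := ZMod.val_lt (j - (i + 2))
        have h3 := hval (i + 2) j
        apply hj
        rw [hD]
        have h5 : (j - (i + 2)).val = n - 1 ∨ (j - (i + 2)).val = n - 2 := by omega
        rcases h5 with h2 | h2
        · right
          show j = i + 1
          rw [h2] at h3
          rw [h3]
          have : (((n - 1 : ℕ) : ZMod n)) = -1 := by
            have h4 : ((n - 1 + 1 : ℕ) : ZMod n) = 0 := by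
              rw [show n - 1 + 1 = n by omega]; simp
            push_cast at h4
            linear_combination h4
          rw [this]
          ring
        · left
          rw [h2] at h3
          rw [h3]
          have : (((n - 2 : ℕ) : ZMod n)) = -2 := by
            have h4 : ((n - 2 + 2 : ℕ) : ZMod n) = 0 := by
              rw [show n - 2 + 2 = n by omega]; simp
            push_cast at h4
            linear_combination h4
          rw [this]
          ring
  obtain ⟨k, hk1, rfl⟩ := hs2 _ h1
  obtain ⟨k', hk1', rfl⟩ := hs2 _ h2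
  rw [B.g3_arc h hk s m hs1 k hk1, B.g3_arc h hk s m hs1 k' hk1']

end Bldg

end QFC
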