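import Pool.Agent.QFC.Bldg

/-!
# The graph product of groups over a cycle (definitions)
-/

open scoped Classical

namespace QFC

variable {n : ℕ} (P : ZMod n → Type) [∀ i, Group (P i)]

/-- commutators of neighbouring factors -/
def gpRel : Set (Monoid.CoprodI P) :=
  {g | ∃ (i j : ZMod n) (a : P i) (b : P j), TAdj i j ∧
    g = Monoid.CoprodI.of a * Monoid.CoprodI.of b * (Monoid.CoprodI.of a)⁻¹ * (Monoid.CoprodI.of b)⁻¹}

/-- the graph product over the cycle `ZMod n` -/
def GP : Type := Monoid.CoprodI P ⧸ Subgroup.normalClosure (gpRel P)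

noncomputable instance : Group (GP P) :=
  inferInstanceAs (Group (Monoid.CoprodI P ⧸ Subgroup.normalClosure (gpRel P)))

namespace GP

/-- the vertex groups -/
noncomputable def of (i : ZMod n) : P i →* GP P :=
  (QuotientGroup.mk' (Subgroup.normalClosure (gpRel P))).comp Monoid.CoprodI.of

/-- the subgroup generated by the side `i` and its neighbours (stabilizer of a wall) -/
noncomputable def St (i : ZMod n) : Subgroup (GP P) :=
  Subgroup.closure {g | ∃ j, (j = i ∨ TAdj i j) ∧ ∃ a : P j, g = of P j a}

/-- `i`-adjacency -/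
def Adj (i : ZMod n) (c d : GP P) : Prop := ∃ a : P i, d = c * of P i a

end GP

end QFC
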