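import Pool.Agent.QFC.H3
import Pool.Agent.QFC.Pr
import Pool.Agent.QFC.G2
import Pool.Agent.QFC.G3b
import Pool.Agent.QFC.G4

/-! # H4 : uniqueness of push-forwards -/

open scoped Classical

namespace QFC

namespace BCM

variable {n₁ n₂ : ℕ} [NeZero n₁] [NeZero n₂] {C₁ C₂ : Type} {B₁ : Bldg n₁ C₁} {B₂ : Bldg n₂ C₂}

theorem h4_add_self {α : Type} (f : α →₀ ZMod 2) : f + f = 0 := by
  ext a
  rw [Finsupp.add_apply, Finsupp.zero_apply]
  exact CharTwo.add_self_eq_zero _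

theorem h4_d1_single (B : Bldg n₁ C₁) (p : B.Pnl) : B.d1 (Finsupp.single p 1) = B.bdP p := by
  unfold Bldg.d1
  rw [Finsupp.linearCombination_single, one_smul]

/-- The chain homotopy. `h0 v`: `exists_fill0` for `φ0 (single v) + ψ0 (single v)` (augmentation `1 + 1 = 0`), `x = F v.2.out`, radius `R`; near `F c` (radius `R + 3 K`) for every `c` at `v`. `h1 p`: `exists_fill` for
`φ1 (single p) + ψ1 (single p) + h0 (bdP p)` (`h0` extended linearly; this is a cycle by `comm1`), near `F c` (radius `R + 3 K`) for every `c` in the panel `p` (`near2_of_d2`). Then `φ2 (single c) + ψ2 (single c) + ∑ j, h1 (mkP j c)` has `d2 = 0`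
(`comm2`, `d1_d2`), so it vanishes (`d2_injective`). -/
theorem exists_homotopy {F : C₁ → C₂} {R K : ℕ} (φ ψ : BCM B₁ B₂ F R)
    (hL : ∀ a b, B₂.dist (F a) (F b) ≤ K * B₁.dist a b + K) :
    ∃ h1 : B₁.Pnl → (C₂ →₀ ZMod 2), (∀ i c, B₂.Near2 (h1 (B₁.mkP i c)) (F c) (R + 3 * K)) ∧
      ∀ c, φ.φ2 (Finsupp.single c 1) + ψ.φ2 (Finsupp.single c 1) = ∑ j : ZMod n₁, h1 (B₁.mkP j c) := by
  have hfill0 : ∀ v : B₁.Vtx, ∃ z : B₂.Pnl →₀ ZMod 2,
      B₂.d1 z = φ.φ0 (Finsupp.single v 1) + ψ.φ0 (Finsupp.single v 1) ∧ B₂.Near1 z (F v.2.out) R := by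
    intro v
    apply B₂.exists_fill0
    · rw [map_add, φ.aug0, ψ.aug0, B₁.aug_single]
      exact CharTwo.add_self_eq_zero _
    · have e1 := φ.near0 v.1 v.2.out
      have e2 := ψ.near0 v.1 v.2.out
      rw [B₁.mkV_out] at e1 e2
      exact B₂.near0_add e1 e2
  choose h0 hh0 hn0 using hfill0
  set H0 : (B₁.Vtx →₀ ZMod 2) →ₗ[ZMod 2] (B₂.Pnl →₀ ZMod 2) := Finsupp.linearCombination (ZMod 2) h0 with hH0
  have hH0s : ∀ v, H0 (Finsupp.single v 1) = h0 v := by
    intro v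
    rw [hH0, Finsupp.linearCombination_single, one_smul]
  have hH0d : ∀ u, B₂.d1 (H0 u) = φ.φ0 u + ψ.φ0 u := by
    intro u
    induction u using Finsupp.induction_linear with
    | zero => simp
    | add f g hf hg =>
      rw [map_add, map_add, map_add, map_add, hf, hg]
      abel
    | single v a =>
      have e1 : Finsupp.single v a = a • Finsupp.single v (1 : ZMod 2) := by
        rw [Finsupp.smul_single, smul_eq_mul, mul_one]
      rw [e1, map_smul, map_smul, map_smul, map_smul, hH0s, hh0, smul_add]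
  have hfill1 : ∀ p : B₁.Pnl, ∃ y : C₂ →₀ ZMod 2,
      B₂.d2 y = φ.φ1 (Finsupp.single p 1) + ψ.φ1 (Finsupp.single p 1) + H0 (B₁.bdP p) := by
    intro p
    apply B₂.exists_fill
    rw [map_add, map_add, φ.comm1, ψ.comm1, hH0d, h4_d1_single]
    exact h4_add_self _
  choose h1 hh1 using hfill1
  refine ⟨h1, ?_, ?_⟩
  · intro i c
    apply B₂.near2_of_d2
    rw [hh1]
    have hv : ∀ j : ZMod n₁, B₂.Near1 (h0 (B₁.mkV j c)) (F c) (R + 3 * K) := by
      intro j
      refine B₂.near1_mono (hn0 (B₁.mkV j c)) ?_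
      have e1 : B₁.mkV j c = B₁.mkV j (B₁.mkV j c).2.out := (B₁.mkV_out (B₁.mkV j c)).symm
      have e2 := B₁.dist_le_two_of_mkV e1
      have e3 := hL c (B₁.mkV j c).2.out
      have e4 := Nat.mul_le_mul_left K e2
      omega
    have e5 : B₂.dist (F c) (F c) + R ≤ R + 3 * K := by rw [B₂.dist_self]; omega
    refine B₂.near1_add (B₂.near1_add (B₂.near1_mono (φ.near1 i c) e5) (B₂.near1_mono (ψ.near1 i c) e5)) ?_
    rw [B₁.bdP_mkP, map_add, hH0s, hH0s]
    exact B₂.near1_add (hv _) (hv _)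
  · intro c
    apply B₂.d2_injective
    rw [map_add, φ.comm2, ψ.comm2, map_sum]
    simp only [hh1]
    rw [Finset.sum_add_distrib, Finset.sum_add_distrib, ← map_sum, ← map_sum, ← map_sum, ← B₁.d2_single]
    have e6 : ∑ i : ZMod n₁, B₁.bdP (B₁.mkP i c) = 0 := by
      have e7 := B₁.d1_d2 (Finsupp.single c 1)
      rw [B₁.d2_single, map_sum] at e7
      rw [← e7]
      apply Finset.sum_congr rfl
      intro i _
      rw [h4_d1_single]
    rw [e6, map_zero, add_zero]


end BCM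

end QFC
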