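import Mathlib
import Pool.Agent.QFC.Defs

/-!
# Words: a small verified calculator

Letters are natural numbers: `2 * i` is the generator `i`, `2 * i + 1` its inverse.
-/

namespace Pool.Agent.QFC

section

variable {G : Type} [Group G]

/-- The value of a letter. -/
def lval (f : ℕ → G) (a : ℕ) : G := if a % 2 = 0 then f (a / 2) else (f (a / 2))⁻¹

/-- The value of a word. -/
def wval (f : ℕ → G) (w : List ℕ) : G := (w.map (lval f)).prod

/-- The inverse letter. -/
def flp (a : ℕ) : ℕ := if a % 2 = 0 then a + 1 else a - 1

/-- The inverse word. -/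
def winv (w : List ℕ) : List ℕ := (w.map flp).reverse

/-- Multiply by a letter on the left, with cancellation. -/
def push (a : ℕ) (w : List ℕ) : List ℕ :=
  match w with
  | [] => [a]
  | b :: t => if b = flp a then t else a :: b :: t

/-- Free reduction. -/
def red (w : List ℕ) : List ℕ := w.foldr push []

/-- Substitution. -/
def sub (s : ℕ → List ℕ) (w : List ℕ) : List ℕ :=
  w.flatMap (fun a => if a % 2 = 0 then s (a / 2) else winv (s (a / 2)))

@[simp] theorem wval_nil (f : ℕ → G) : wval f [] = 1 := rfl

@[simp] theorem wval_cons (f : ℕ → G) (a : ℕ) (w : List ℕ) :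
    wval f (a :: w) = lval f a * wval f w := by
  simp [wval]

@[simp] theorem wval_append (f : ℕ → G) (v w : List ℕ) :
    wval f (v ++ w) = wval f v * wval f w := by
  simp [wval]

theorem lval_flp (f : ℕ → G) (a : ℕ) : lval f (flp a) = (lval f a)⁻¹ := by
  unfold lval flp
  by_cases h : a % 2 = 0
  · rw [if_pos h, if_pos h, if_neg (by omega)]
    have : (a + 1) / 2 = a / 2 := by omega
    rw [this]
  · rw [if_neg h, if_neg h, if_pos (by omega), inv_inv]
    have : (a - 1) / 2 = a / 2 := by omega
    rw [this]

theorem wval_winv (f : ℕ → G) (w : List ℕ) : wval f (winv w) = (wval f w)⁻¹ := by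
  induction w with
  | nil => simp [winv]
  | cons a w ih =>
    have h : winv (a :: w) = winv w ++ [flp a] := by simp [winv]
    rw [h, wval_append, ih, wval_cons, wval_cons, wval_nil, lval_flp, mul_one, mul_inv_rev]

theorem wval_push (f : ℕ → G) (a : ℕ) (w : List ℕ) :
    wval f (push a w) = lval f a * wval f w := by
  cases w with
  | nil => simp [push]
  | cons b t =>
    unfold push
    by_cases h : b = flp a
    · simp only [h, if_true]
      rw [wval_cons, lval_flp, mul_inv_cancel_left]
    · simp only [h, if_false]
      rw [wval_cons]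

theorem wval_red (f : ℕ → G) (w : List ℕ) : wval f (red w) = wval f w := by
  induction w with
  | nil => rfl
  | cons a w ih =>
    have h : red (a :: w) = push a (red w) := rfl
    rw [h, wval_push, ih, wval_cons]

theorem wval_eq_of_red (f : ℕ → G) {v w : List ℕ} (h : red v = red w) : wval f v = wval f w := by
  rw [← wval_red f v, h, wval_red]

theorem wval_sub (f : ℕ → G) (s : ℕ → List ℕ) (w : List ℕ) :
    wval f (sub s w) = wval (fun i => wval f (s i)) w := by
  induction w with
  | nil => rfl
  | cons a w ih =>
    have h : sub s (a :: w) = (if a % 2 = 0 then s (a / 2) else winv (s (a / 2))) ++ sub s w := rfl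
    rw [h, wval_append, ih, wval_cons]
    congr 1
    unfold lval
    by_cases ha : a % 2 = 0
    · rw [if_pos ha, if_pos ha]
    · rw [if_neg ha, if_neg ha, wval_winv]

theorem map_wval {H : Type} [Group H] (F : G →* H) (f : ℕ → G) (w : List ℕ) :
    F (wval f w) = wval (fun i => F (f i)) w := by
  induction w with
  | nil => simp
  | cons a w ih =>
    rw [wval_cons, wval_cons, map_mul, ih]
    congr 1
    unfold lval
    by_cases ha : a % 2 = 0
    · rw [if_pos ha, if_pos ha]
    · rw [if_neg ha, if_neg ha, map_inv]

/-- All generators occurring in the word are `< n`. -/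
def lettersLt (n : ℕ) (w : List ℕ) : Bool := w.all (fun a => decide (a / 2 < n))

theorem wval_congr {f g : ℕ → G} {n : ℕ} (h : ∀ i < n, f i = g i) (w : List ℕ)
    (hw : lettersLt n w = true) : wval f w = wval g w := by
  induction w with
  | nil => rfl
  | cons a w ih =>
    have h2 : decide (a / 2 < n) = true ∧ lettersLt n w = true := by
      have h3 : lettersLt n (a :: w) = (decide (a / 2 < n) && lettersLt n w) := rfl
      rw [h3, Bool.and_eq_true] at hw
      exact hw
    rw [wval_cons, wval_cons, ih h2.2]
    congr 1
    unfold lval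
    rw [h _ (of_decide_eq_true h2.1)]

end

/-- The generators of the free group `F_n`, as a function on `ℕ`. -/
def gen (n : ℕ) (i : ℕ) : FreeGroup (Fin n) := if h : i < n then FreeGroup.of ⟨i, h⟩ else 1

/-- The word as an element of the free group `F_n`. -/
def fw (n : ℕ) (w : List ℕ) : FreeGroup (Fin n) := wval (gen n) w

theorem gen_fin {n : ℕ} (i : Fin n) : gen n i = FreeGroup.of i := by
  simp [gen]

/-- The endomorphism of the free group given by words. -/
def endo (n : ℕ) (s : ℕ → List ℕ) : FreeGroup (Fin n) →* FreeGroup (Fin n) :=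
  FreeGroup.lift (fun i => fw n (s i))

theorem endo_of (n : ℕ) (s : ℕ → List ℕ) (i : Fin n) :
    endo n s (FreeGroup.of i) = fw n (s i) := by
  simp [endo]

theorem endo_fw (n : ℕ) (s : ℕ → List ℕ) (w : List ℕ) (hw : lettersLt n w = true) :
    endo n s (fw n w) = fw n (sub s w) := by
  unfold fw
  rw [map_wval, wval_sub]
  refine wval_congr (n := n) ?_ w hw
  intro i hi
  have : gen n i = FreeGroup.of ⟨i, hi⟩ := by simp [gen, hi]
  rw [this, endo_of]
  rfl

/-- Checkable condition: `s` and `s'` are inverse to each other on the first `n` generators. -/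
def invCheck (n : ℕ) (s s' : ℕ → List ℕ) : Bool :=
  (List.range n).all (fun i => lettersLt n (s i) && decide (red (sub s' (s i)) = [2 * i]))

theorem endo_comp {n : ℕ} {s s' : ℕ → List ℕ} (h : invCheck n s s' = true) :
    (endo n s').comp (endo n s) = MonoidHom.id _ := by
  apply FreeGroup.ext_hom
  intro i
  show endo n s' (endo n s (FreeGroup.of i)) = FreeGroup.of i
  have h1 := List.all_eq_true.1 h i (List.mem_range.2 i.2)
  rw [Bool.and_eq_true] at h1
  rw [endo_of, endo_fw n s' _ h1.1]
  have h2 : red (sub s' (s i)) = [2 * (i : ℕ)] := of_decide_eq_true h1.2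
  unfold fw
  rw [← wval_red, h2]
  simp [lval, gen]

/-- The automorphism given by words for it and for its inverse. -/
def autOf (n : ℕ) (s s' : ℕ → List ℕ) (h : invCheck n s s' = true) (h' : invCheck n s' s = true) :
    MulAut (FreeGroup (Fin n)) :=
  MonoidHom.toMulEquiv (endo n s) (endo n s') (endo_comp h) (endo_comp h')

theorem autOf_apply {n : ℕ} {s s' : ℕ → List ℕ} (h : invCheck n s s' = true)
    (h' : invCheck n s' s = true) (x : FreeGroup (Fin n)) : autOf n s s' h h' x = endo n s x := rfl

theorem autOf_symm_apply {n : ℕ} {s s' : ℕ → List ℕ} (h : invCheck n s s' = true)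
    (h' : invCheck n s' s = true) (x : FreeGroup (Fin n)) :
    (autOf n s s' h h').symm x = endo n s' x := rfl

end Pool.Agent.QFC
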