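import Mathlib
import Pool.Agent.QFC.Defs
import Pool.Agent.QFC.Word

/-!
# Mapping tori and presented groups: a verified isomorphism checker
-/

namespace Pool.Agent.QFC

/-! ### Bookkeeping of letters -/

theorem lettersLt_cons {n a : ℕ} {w : List ℕ} :
    lettersLt n (a :: w) = true ↔ a / 2 < n ∧ lettersLt n w = true := by
  have h3 : lettersLt n (a :: w) = (decide (a / 2 < n) && lettersLt n w) := rfl
  rw [h3, Bool.and_eq_true, decide_eq_true_iff]

theorem lettersLt_append {n : ℕ} {v w : List ℕ} :
    lettersLt n (v ++ w) = true ↔ lettersLt n v = true ∧ lettersLt n w = true := by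
  simp [lettersLt, List.all_append]

theorem lettersLt_iff {n : ℕ} {w : List ℕ} :
    lettersLt n w = true ↔ ∀ a ∈ w, a / 2 < n := by
  simp [lettersLt, List.all_eq_true]

theorem flp_div (a : ℕ) : flp a / 2 = a / 2 := by
  unfold flp
  by_cases h : a % 2 = 0
  · rw [if_pos h]; omega
  · rw [if_neg h]; omega

theorem lettersLt_winv {n : ℕ} {w : List ℕ} (h : lettersLt n w = true) :
    lettersLt n (winv w) = true := by
  rw [lettersLt_iff] at h ⊢
  intro a ha
  have h1 : a ∈ w.map flp := List.mem_reverse.1 ha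
  obtain ⟨b, hb, rfl⟩ := List.mem_map.1 h1
  rw [flp_div]
  exact h b hb

theorem lettersLt_push {n a : ℕ} {w : List ℕ} (ha : a / 2 < n) (h : lettersLt n w = true) :
    lettersLt n (push a w) = true := by
  cases w with
  | nil => exact lettersLt_cons.2 ⟨ha, rfl⟩
  | cons b t =>
    unfold push
    by_cases hb : b = flp a
    · simp only [hb, if_true]
      exact (lettersLt_cons.1 h).2
    · simp only [hb, if_false]
      exact lettersLt_cons.2 ⟨ha, h⟩

theorem lettersLt_red {n : ℕ} {w : List ℕ} (h : lettersLt n w = true) :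
    lettersLt n (red w) = true := by
  induction w with
  | nil => rfl
  | cons a w ih =>
    have h1 := lettersLt_cons.1 h
    have h2 : red (a :: w) = push a (red w) := rfl
    rw [h2]
    exact lettersLt_push h1.1 (ih h1.2)

theorem lettersLt_sub {n m : ℕ} {s : ℕ → List ℕ} (hs : ∀ i < n, lettersLt m (s i) = true)
    {w : List ℕ} (h : lettersLt n w = true) : lettersLt m (sub s w) = true := by
  induction w with
  | nil => rfl
  | cons a w ih =>
    have h1 := lettersLt_cons.1 h
    have h2 : sub s (a :: w) = (if a % 2 = 0 then s (a / 2) else winv (s (a / 2))) ++ sub s w := rfl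
    rw [h2, lettersLt_append]
    refine ⟨?_, ih h1.2⟩
    by_cases ha : a % 2 = 0
    · rw [if_pos ha]; exact hs _ h1.1
    · rw [if_neg ha]; exact lettersLt_winv (hs _ h1.1)

/-! ### Normal forms in a mapping torus -/

/-- One step of the normal form. -/
def nfStep (n : ℕ) (s s' : ℕ → List ℕ) (a : ℕ) (r : List ℕ × ℤ) : List ℕ × ℤ :=
  if a / 2 = n then
    (if a % 2 = 0 then (red (sub s r.1), r.2 + 1) else (red (sub s' r.1), r.2 - 1))
  else (push a r.1, r.2)

/-- Normal form `(v, k)` of a word in `a_0, …, a_{n-1}, t` (with `t` the letter `n`):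
the word equals `v t^k`. -/
def nf (n : ℕ) (s s' : ℕ → List ℕ) (w : List ℕ) : List ℕ × ℤ :=
  w.foldr (nfStep n s s') ([], 0)

section

variable {H : Type} [Group H] {n : ℕ} {s s' : ℕ → List ℕ}

theorem conj_wval (f : ℕ → H) (t : H) (h1 : ∀ i < n, t * f i * t⁻¹ = wval f (s i))
    (w : List ℕ) (hw : lettersLt n w = true) : t * wval f w * t⁻¹ = wval f (sub s w) := by
  have h2 : t * wval f w * t⁻¹ = (MulAut.conj t).toMonoidHom (wval f w) := rfl
  rw [h2, map_wval, wval_sub]
  exact wval_congr (n := n) (fun i hi => h1 i hi) w hw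

theorem nf_sound (f : ℕ → H) (h1 : ∀ i < n, f n * f i * (f n)⁻¹ = wval f (s i))
    (h2 : ∀ i < n, (f n)⁻¹ * f i * f n = wval f (s' i))
    (hs : ∀ i < n, lettersLt n (s i) = true) (hs' : ∀ i < n, lettersLt n (s' i) = true)
    (w : List ℕ) (hw : lettersLt (n + 1) w = true) :
    lettersLt n (nf n s s' w).1 = true ∧
      wval f w = wval f (nf n s s' w).1 * (f n) ^ (nf n s s' w).2 := by
  induction w with
  | nil => exact ⟨rfl, by simp [nf]⟩
  | cons a w ih =>
    obtain ⟨ha, hw'⟩ := lettersLt_cons.1 hw
    obtain ⟨hl, hv⟩ := ih hw'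
    have hnf : nf n s s' (a :: w) = nfStep n s s' a (nf n s s' w) := rfl
    rw [hnf, wval_cons, hv]
    set r := nf n s s' w with hr
    unfold nfStep
    by_cases han : a / 2 = n
    · rw [if_pos han]
      by_cases hpar : a % 2 = 0
      · rw [if_pos hpar]
        refine ⟨lettersLt_red (lettersLt_sub hs hl), ?_⟩
        have hla : lval f a = f n := by
          unfold lval
          rw [if_pos hpar, han]
        rw [hla, wval_red, ← conj_wval f (f n) h1 r.1 hl, add_comm, zpow_add, zpow_one]
        group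
      · rw [if_neg hpar]
        refine ⟨lettersLt_red (lettersLt_sub hs' hl), ?_⟩
        have hla : lval f a = (f n)⁻¹ := by
          unfold lval
          rw [if_neg hpar, han]
        have h3 := conj_wval f (f n)⁻¹ (s := s') (n := n) (by
          intro i hi
          rw [inv_inv]
          exact h2 i hi) r.1 hl
        rw [hla, wval_red, ← h3]
        have h4 : (f n) ^ (r.2 - 1) = (f n)⁻¹ * (f n) ^ r.2 := by
          rw [← zpow_neg_one, ← zpow_add]
          congr 1
          ring
        rw [h4]
        group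
    · rw [if_neg han]
      have ha2 : a / 2 < n := by omega
      exact ⟨lettersLt_push ha2 hl, by rw [wval_push, mul_assoc]⟩

/-- A word in the letters `a_0, …, a_{n-1}, t` is determined by its normal form. -/
theorem wval_eq_of_nf (f : ℕ → H) (h1 : ∀ i < n, f n * f i * (f n)⁻¹ = wval f (s i))
    (h2 : ∀ i < n, (f n)⁻¹ * f i * f n = wval f (s' i))
    (hs : ∀ i < n, lettersLt n (s i) = true) (hs' : ∀ i < n, lettersLt n (s' i) = true)
    {v w : List ℕ} (hv : lettersLt (n + 1) v = true) (hw : lettersLt (n + 1) w = true)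
    (h : nf n s s' v = nf n s s' w) : wval f v = wval f w := by
  rw [(nf_sound f h1 h2 hs hs' v hv).2, h, ← (nf_sound f h1 h2 hs hs' w hw).2]

end

/-! ### The mapping torus -/

section

variable {n : ℕ}

/-- The generators `a_0, …, a_{n-1}, t` of the mapping torus, as a function on `ℕ`. -/
def mtGen (φ : MulAut (FreeGroup (Fin n))) (i : ℕ) : MappingTorus φ :=
  if h : i < n then SemidirectProduct.inl (FreeGroup.of ⟨i, h⟩)
  else if i = n then SemidirectProduct.inr (Multiplicative.ofAdd 1) else 1

theorem mtGen_lt (φ : MulAut (FreeGroup (Fin n))) {i : ℕ} (h : i < n) :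
    mtGen φ i = SemidirectProduct.inl (FreeGroup.of ⟨i, h⟩) := by
  simp [mtGen, h]

theorem mtGen_n (φ : MulAut (FreeGroup (Fin n))) :
    mtGen φ n = SemidirectProduct.inr (Multiplicative.ofAdd 1) := by
  simp [mtGen]

theorem mt_conj (φ : MulAut (FreeGroup (Fin n))) (x : FreeGroup (Fin n)) :
    mtGen φ n * SemidirectProduct.inl x * (mtGen φ n)⁻¹ = SemidirectProduct.inl (φ x) := by
  rw [mtGen_n, ← map_inv, ← SemidirectProduct.inl_aut]
  simp

theorem mt_conj' (φ : MulAut (FreeGroup (Fin n))) (x : FreeGroup (Fin n)) :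
    (mtGen φ n)⁻¹ * SemidirectProduct.inl x * mtGen φ n = SemidirectProduct.inl (φ.symm x) := by
  have h := mt_conj φ (φ.symm x)
  rw [MulEquiv.apply_symm_apply] at h
  rw [← h]
  group

theorem inl_fw (φ : MulAut (FreeGroup (Fin n))) (w : List ℕ) (hw : lettersLt n w = true) :
    (SemidirectProduct.inl (fw n w) : MappingTorus φ) = wval (mtGen φ) w := by
  unfold fw
  rw [map_wval]
  refine wval_congr (n := n) ?_ w hw
  intro i hi
  rw [mtGen_lt φ hi]
  simp [gen, hi]

/-- Homomorphisms out of a mapping torus. -/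
def mtLift {H : Type} [Group H] (φ : MulAut (FreeGroup (Fin n))) (F : FreeGroup (Fin n) →* H)
    (t : H) (h : ∀ i, F (φ (FreeGroup.of i)) = t * F (FreeGroup.of i) * t⁻¹) :
    MappingTorus φ →* H :=
  SemidirectProduct.lift F (zpowersHom H t) (by
    have h1 : F.comp φ.toMonoidHom = (MulAut.conj t).toMonoidHom.comp F := by
      apply FreeGroup.ext_hom
      intro i
      exact h i
    have h2 : ∀ x, F (φ x) = t * F x * t⁻¹ := fun x => DFunLike.congr_fun h1 x
    have h3 : ∀ x, F (φ.symm x) = t⁻¹ * F x * t := by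
      intro x
      have := h2 (φ.symm x)
      rw [MulEquiv.apply_symm_apply] at this
      rw [this]
      group
    have hnat : ∀ k : ℕ, ∀ x, F ((φ ^ k) x) = t ^ k * F x * (t ^ k)⁻¹ := by
      intro k
      induction k with
      | zero => intro x; simp
      | succ k ih =>
        intro x
        rw [pow_succ', MulAut.mul_apply, h2, ih, pow_succ']
        group
    have hnat' : ∀ k : ℕ, ∀ x, F (((φ ^ k)⁻¹) x) = (t ^ k)⁻¹ * F x * (t ^ k) := by
      intro k x
      have := hnat k ((φ ^ k)⁻¹ x)
      rw [MulAut.apply_inv_self] at this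
      rw [this]
      group
    intro g
    apply MonoidHom.ext
    intro x
    show F (((zpowersHom (MulAut (FreeGroup (Fin n))) φ) g) x) =
      ((zpowersHom H t) g) * F x * ((zpowersHom H t) g)⁻¹
    rw [zpowersHom_apply, zpowersHom_apply]
    rcases Int.eq_nat_or_neg (Multiplicative.toAdd g) with ⟨k, hk | hk⟩
    · rw [hk, zpow_natCast, zpow_natCast]
      exact hnat k x
    · rw [hk, zpow_neg, zpow_neg, zpow_natCast, zpow_natCast, inv_inv]
      exact hnat' k x)

theorem mtLift_inl {H : Type} [Group H] (φ : MulAut (FreeGroup (Fin n)))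
    (F : FreeGroup (Fin n) →* H) (t : H)
    (h : ∀ i, F (φ (FreeGroup.of i)) = t * F (FreeGroup.of i) * t⁻¹) (x : FreeGroup (Fin n)) :
    mtLift φ F t h (SemidirectProduct.inl x) = F x := by
  unfold mtLift
  rw [SemidirectProduct.lift_inl]

theorem mtLift_t {H : Type} [Group H] (φ : MulAut (FreeGroup (Fin n)))
    (F : FreeGroup (Fin n) →* H) (t : H)
    (h : ∀ i, F (φ (FreeGroup.of i)) = t * F (FreeGroup.of i) * t⁻¹) :
    mtLift φ F t h (mtGen φ n) = t := by
  unfold mtLift
  rw [mtGen_n, SemidirectProduct.lift_inr, zpowersHom_apply, toAdd_ofAdd, zpow_one]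

/-- Homomorphisms out of the mapping torus are determined on generators. -/
theorem mt_ext {H : Type} [Group H] (φ : MulAut (FreeGroup (Fin n))) {F F' : MappingTorus φ →* H}
    (h : ∀ i, i ≤ n → F (mtGen φ i) = F' (mtGen φ i)) : F = F' := by
  apply SemidirectProduct.hom_ext
  · apply FreeGroup.ext_hom
    intro i
    have := h i i.2.le
    rw [mtGen_lt φ i.2] at this
    exact this
  · apply MonoidHom.ext_mint
    have := h n le_rfl
    rw [mtGen_n] at this
    exact this

end

/-! ### Presented groups -/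

/-- The set of relators given by a list of words. -/
def relSet (g : ℕ) (L : List (List ℕ)) : Set (FreeGroup (Fin g)) := {r | ∃ w ∈ L, r = fw g w}

/-- The group presented by a list of words in the generators `0, …, g-1`. -/
abbrev PiK (g : ℕ) (L : List (List ℕ)) : Type := PresentedGroup (relSet g L)

/-- The generators of the presented group, as a function on `ℕ`. -/
def pGen (g : ℕ) (L : List (List ℕ)) (i : ℕ) : PiK g L :=
  PresentedGroup.mk (relSet g L) (gen g i)

theorem wval_pGen (g : ℕ) (L : List (List ℕ)) (w : List ℕ) :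
    wval (pGen g L) w = PresentedGroup.mk (relSet g L) (fw g w) := by
  unfold fw
  rw [map_wval]
  rfl

theorem wval_rel {g : ℕ} {L : List (List ℕ)} {w : List ℕ} (hw : w ∈ L) :
    wval (pGen g L) w = 1 := by
  rw [wval_pGen, PresentedGroup.one_of_mem]
  exact ⟨w, hw, rfl⟩

/-- A certificate: a list of `(u, j, e)`, standing for the product of the conjugates
`u r_j^{±1} u⁻¹`. -/
def certWord (L : List (List ℕ)) (c : List (List ℕ × ℕ × Bool)) : List ℕ :=
  c.flatMap (fun x => x.1 ++ ((if x.2.2 then L.getD x.2.1 [] else winv (L.getD x.2.1 [])) ++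
    winv x.1))

theorem wval_getD {g : ℕ} {L : List (List ℕ)} (j : ℕ) :
    wval (pGen g L) (L.getD j []) = 1 := by
  by_cases h : j < L.length
  · have h1 : L.getD j [] = L[j] := by simp [List.getD, h]
    rw [h1]
    exact wval_rel (List.getElem_mem h)
  · have h1 : L.getD j [] = [] := by
      rw [List.getD_eq_default]
      omega
    rw [h1]
    rfl

theorem wval_cert {g : ℕ} {L : List (List ℕ)} (c : List (List ℕ × ℕ × Bool)) :
    wval (pGen g L) (certWord L c) = 1 := by
  induction c with
  | nil => rfl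
  | cons x c ih =>
    have h : certWord L (x :: c) = (x.1 ++ ((if x.2.2 then L.getD x.2.1 []
      else winv (L.getD x.2.1 [])) ++ winv x.1)) ++ certWord L c := rfl
    rw [h, wval_append, ih, mul_one, wval_append, wval_append, wval_winv]
    by_cases hx : x.2.2 = true
    · rw [if_pos hx, wval_getD, one_mul, mul_inv_cancel]
    · rw [if_neg hx, wval_winv, wval_getD, inv_one, one_mul, mul_inv_cancel]

/-- If `v` is freely equal to `certificate * w`, then `v = w` in the presented group. -/
theorem wval_eq_of_cert {g : ℕ} {L : List (List ℕ)} {v w : List ℕ}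
    (c : List (List ℕ × ℕ × Bool)) (h : red v = red (certWord L c ++ w)) :
    wval (pGen g L) v = wval (pGen g L) w := by
  rw [wval_eq_of_red _ h, wval_append, wval_cert, one_mul]

/-- Data for an isomorphism between a mapping torus and a presented group. -/
structure IsoData where
  n : ℕ
  /-- images of the generators under `φ` and `φ⁻¹` -/
  s : ℕ → List ℕ
  s' : ℕ → List ℕ
  g : ℕ
  /-- relators -/
  L : List (List ℕ)
  /-- images of the generators `j < g` of the presented group as words in `a_0,…,a_{n-1},t` -/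
  A : ℕ → List ℕ
  /-- images of `a_0,…,a_{n-1},t` as words in the generators of the presented group -/
  B : ℕ → List ℕ
  /-- certificates for `B (φ a_i) = t a_i t⁻¹` -/
  c1 : ℕ → List (List ℕ × ℕ × Bool)
  /-- certificates for `B (A j) = j` -/
  c2 : ℕ → List (List ℕ × ℕ × Bool)

namespace IsoData

variable (D : IsoData)

/-- The complete check. -/
def check : Bool :=
  invCheck D.n D.s D.s' && invCheck D.n D.s' D.s &&
  (List.range D.n).all (fun i => lettersLt D.n (D.s i) && lettersLt D.n (D.s' i)) &&
  (List.range D.g).all (fun j => lettersLt (D.n + 1) (D.A j)) &&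
  (List.range (D.n + 1)).all (fun i => lettersLt D.g (D.B i)) &&
  D.L.all (fun w => lettersLt D.g w && decide (nf D.n D.s D.s' (sub D.A w) = ([], 0))) &&
  (List.range D.n).all (fun i => decide (red (sub D.B (D.s i)) =
    red (certWord D.L (D.c1 i) ++ (D.B D.n ++ (D.B i ++ winv (D.B D.n)))))) &&
  (List.range D.g).all (fun j => decide (red (sub D.B (D.A j)) =
    red (certWord D.L (D.c2 j) ++ [2 * j]))) &&
  (List.range (D.n + 1)).all (fun i => decide (nf D.n D.s D.s' (sub D.A (D.B i)) =
    nf D.n D.s D.s' [2 * i]))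

variable {D}

theorem check_iff (h : D.check = true) :
    invCheck D.n D.s D.s' = true ∧ invCheck D.n D.s' D.s = true ∧
    (∀ i < D.n, lettersLt D.n (D.s i) = true ∧ lettersLt D.n (D.s' i) = true) ∧
    (∀ j < D.g, lettersLt (D.n + 1) (D.A j) = true) ∧
    (∀ i < D.n + 1, lettersLt D.g (D.B i) = true) ∧
    (∀ w ∈ D.L, lettersLt D.g w = true ∧ nf D.n D.s D.s' (sub D.A w) = ([], 0)) ∧
    (∀ i < D.n, red (sub D.B (D.s i)) =
      red (certWord D.L (D.c1 i) ++ (D.B D.n ++ (D.B i ++ winv (D.B D.n))))) ∧
    (∀ j < D.g, red (sub D.B (D.A j)) = red (certWord D.L (D.c2 j) ++ [2 * j])) ∧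
    (∀ i < D.n + 1, nf D.n D.s D.s' (sub D.A (D.B i)) = nf D.n D.s D.s' [2 * i]) := by
  unfold check at h
  simp only [Bool.and_eq_true, List.all_eq_true, List.mem_range, decide_eq_true_eq] at h
  obtain ⟨⟨⟨⟨⟨⟨⟨⟨h1, h2⟩, h3⟩, h4⟩, h5⟩, h6⟩, h7⟩, h8⟩, h9⟩ := h
  exact ⟨h1, h2, h3, h4, h5, h6, h7, h8, h9⟩

/-- The automorphism of the data. -/
def aut (h : D.check = true) : MulAut (FreeGroup (Fin D.n)) :=
  autOf D.n D.s D.s' (check_iff h).1 (check_iff h).2.1

theorem aut_of (h : D.check = true) (i : Fin D.n) :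
    D.aut h (FreeGroup.of i) = fw D.n (D.s i) := by
  unfold aut
  rw [autOf_apply, endo_of]

theorem aut_symm_of (h : D.check = true) (i : Fin D.n) :
    (D.aut h).symm (FreeGroup.of i) = fw D.n (D.s' i) := by
  unfold aut
  rw [autOf_symm_apply, endo_of]

theorem rel1 (h : D.check = true) (i : ℕ) (hi : i < D.n) :
    mtGen (D.aut h) D.n * mtGen (D.aut h) i * (mtGen (D.aut h) D.n)⁻¹ =
      wval (mtGen (D.aut h)) (D.s i) := by
  rw [mtGen_lt _ hi, mt_conj, aut_of, inl_fw]
  exact ((check_iff h).2.2.1 i hi).1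

theorem rel2 (h : D.check = true) (i : ℕ) (hi : i < D.n) :
    (mtGen (D.aut h) D.n)⁻¹ * mtGen (D.aut h) i * mtGen (D.aut h) D.n =
      wval (mtGen (D.aut h)) (D.s' i) := by
  rw [mtGen_lt _ hi, mt_conj', aut_symm_of, inl_fw]
  exact ((check_iff h).2.2.1 i hi).2

/-- From the presented group to the mapping torus. -/
def toMT (h : D.check = true) : PiK D.g D.L →* MappingTorus (D.aut h) :=
  PresentedGroup.toGroup (f := fun j : Fin D.g => wval (mtGen (D.aut h)) (D.A j)) (by
    rintro r ⟨w, hw, rfl⟩
    obtain ⟨hw1, hw2⟩ := (check_iff h).2.2.2.2.2.1 w hw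
    have h1 : FreeGroup.lift (fun j : Fin D.g => wval (mtGen (D.aut h)) (D.A j)) (fw D.g w) =
        wval (mtGen (D.aut h)) (sub D.A w) := by
      unfold fw
      rw [map_wval, wval_sub]
      refine wval_congr (n := D.g) ?_ w hw1
      intro i hi
      simp [gen, hi]
    rw [h1]
    have h2 := wval_eq_of_nf (mtGen (D.aut h)) (rel1 h) (rel2 h)
      (fun i hi => ((check_iff h).2.2.1 i hi).1) (fun i hi => ((check_iff h).2.2.1 i hi).2)
      (v := sub D.A w) (w := []) (lettersLt_sub (check_iff h).2.2.2.1 hw1) rfl (by rw [hw2]; rfl)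
    rw [h2]
    rfl)

theorem toMT_pGen (h : D.check = true) (j : ℕ) (hj : j < D.g) :
    toMT h (pGen D.g D.L j) = wval (mtGen (D.aut h)) (D.A j) := by
  have h1 : pGen D.g D.L j = PresentedGroup.of ⟨j, hj⟩ := by
    unfold pGen gen
    rw [dif_pos hj]
    rfl
  rw [h1]
  unfold toMT
  rw [PresentedGroup.toGroup.of]

/-- From the mapping torus to the presented group. -/
def ofMT (h : D.check = true) : MappingTorus (D.aut h) →* PiK D.g D.L :=
  mtLift (D.aut h) (FreeGroup.lift (fun i => wval (pGen D.g D.L) (D.B i)))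
    (wval (pGen D.g D.L) (D.B D.n)) (by
    intro i
    rw [aut_of]
    have h0 := (check_iff h).2.2.1 i i.2
    have h1 : FreeGroup.lift (fun i : Fin D.n => wval (pGen D.g D.L) (D.B i)) (fw D.n (D.s i)) =
        wval (pGen D.g D.L) (sub D.B (D.s i)) := by
      unfold fw
      rw [map_wval, wval_sub]
      refine wval_congr (n := D.n) ?_ _ h0.1
      intro i hi
      simp [gen, hi]
    rw [h1, wval_eq_of_cert (D.c1 i) ((check_iff h).2.2.2.2.2.2.1 i i.2), wval_append, wval_append,
      wval_winv, FreeGroup.lift_apply_of, mul_assoc])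

theorem ofMT_gen (h : D.check = true) (i : ℕ) (hi : i < D.n + 1) :
    ofMT h (mtGen (D.aut h) i) = wval (pGen D.g D.L) (D.B i) := by
  by_cases hin : i < D.n
  · rw [mtGen_lt _ hin]
    unfold ofMT
    rw [mtLift_inl]
    simp
  · have : i = D.n := by omega
    subst this
    unfold ofMT
    rw [mtLift_t]

/-- The isomorphism. -/
def iso (h : D.check = true) : MappingTorus (D.aut h) ≃* PiK D.g D.L :=
  MonoidHom.toMulEquiv (ofMT h) (toMT h)
    (by
      apply mt_ext
      intro i hi
      have hB : lettersLt D.g (D.B i) = true := (check_iff h).2.2.2.2.1 i (by omega)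
      show toMT h (ofMT h (mtGen (D.aut h) i)) = mtGen (D.aut h) i
      rw [ofMT_gen h i (by omega), map_wval]
      have h1 : wval (fun j => toMT h (pGen D.g D.L j)) (D.B i) =
          wval (mtGen (D.aut h)) (sub D.A (D.B i)) := by
        rw [wval_sub]
        exact wval_congr (n := D.g) (fun j hj => toMT_pGen h j hj) _ hB
      rw [h1]
      have h2 := wval_eq_of_nf (mtGen (D.aut h)) (rel1 h) (rel2 h)
        (fun i hi => ((check_iff h).2.2.1 i hi).1) (fun i hi => ((check_iff h).2.2.1 i hi).2)
        (v := sub D.A (D.B i)) (w := [2 * i]) (lettersLt_sub (check_iff h).2.2.2.1 hB)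
        (lettersLt_cons.2 ⟨by omega, rfl⟩) ((check_iff h).2.2.2.2.2.2.2.2 i (by omega))
      rw [h2, wval_cons, wval_nil, mul_one]
      unfold lval
      rw [if_pos (by omega)]
      congr 1
      omega)
    (by
      apply PresentedGroup.ext
      intro j
      show ofMT h (toMT h (PresentedGroup.of j)) = PresentedGroup.of j
      have hj : PresentedGroup.of j = pGen D.g D.L j := by
        unfold pGen
        rw [gen_fin]
        rfl
      have hA : lettersLt (D.n + 1) (D.A j) = true := (check_iff h).2.2.2.1 j j.2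
      rw [hj, toMT_pGen h j j.2, map_wval]
      have h1 : wval (fun i => ofMT h (mtGen (D.aut h) i)) (D.A j) =
          wval (pGen D.g D.L) (sub D.B (D.A j)) := by
        rw [wval_sub]
        exact wval_congr (n := D.n + 1) (fun i hi => ofMT_gen h i hi) _ hA
      rw [h1, wval_eq_of_cert (D.c2 j) ((check_iff h).2.2.2.2.2.2.2.1 j j.2), wval_cons, wval_nil,
        mul_one]
      unfold lval
      rw [if_pos (by omega)]
      congr 1
      omega)

end IsoData

end Pool.Agent.QFC
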