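import Mathlib
import Pool.Agent.QFC.MT

namespace Pool.Agent.QFC

/-- relators -/
def hexL : List (List ℕ) :=
  [[6, 2, 9, 5, 8, 1],
   [7, 5, 6, 3, 6, 1],
   [8, 0, 6, 5, 9, 1],
   [8, 2, 8, 5, 7, 3]]

/-- words for the automorphism -/
def hexPhi : List (List ℕ) :=
  [[2],
   [9, 1, 2, 7, 10, 5, 3, 0, 8],
   [9, 1, 2, 2, 6],
   [8],
   [9, 1, 2, 5, 9, 1, 2, 2, 6],
   [3, 0, 8]]

/-- words for the inverse automorphism -/
def hexPhi' : List (List ℕ) :=
  [[0, 10, 7],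
   [0],
   [4, 9, 11],
   [1, 10, 4],
   [6],
   [1, 10, 4, 10, 2, 11, 4, 9, 11]]

/-- certificates -/
def hexC1 : List (List (List ℕ × ℕ × Bool)) :=
  [[],
   [([8, 8, 7, 1, 9], 2, true), ([8, 8, 7, 5, 6, 3, 1, 9], 2, false), ([8, 8, 0, 7, 2, 7, 4, 6], 1, true)],
   [([8, 8, 7, 1, 9], 2, true), ([8, 8, 7], 0, false)],
   [],
   [([8, 8, 7, 1, 9], 2, true), ([8, 8, 7, 3, 8, 7, 1, 9], 2, true), ([8, 8, 7, 3, 8, 7], 0, false), ([8, 8, 4, 9, 3, 9], 3, true)],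
   [([8, 1, 9], 2, false)]]

/-- certificates -/
def hexC2 : List (List (List ℕ × ℕ × Bool)) :=
  [[],
   [],
   [],
   [],
   []]

/-- data -/
def hexData : IsoData where
  n := 6
  s := fun i => hexPhi.getD i []
  s' := fun i => hexPhi'.getD i []
  g := 5
  L := hexL
  A := fun i => ([[0],
   [13, 4, 12],
   [6, 12],
   [10, 12],
   [12]] : List (List ℕ)).getD i []
  B := fun i => ([[0],
   [8, 0, 9],
   [8, 2, 9],
   [4, 9],
   [8, 4, 9, 9],
   [6, 9],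
   [8]] : List (List ℕ)).getD i []
  c1 := fun i => hexC1.getD i []
  c2 := fun i => hexC2.getD i []

theorem hex_check : hexData.check = true := by decide +kernel

end Pool.Agent.QFC
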