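import Mathlib
import Pool.Agent.QFC.Defs

/-!
# A homological criterion for irreducibility

`irr_of_matrix`: if the matrix `M` of `φ` on `Hom(F_n, K) = K^n` has no proper invariant subspace
and `trace M ≠ 0`, then `φ` is irreducible.
-/

namespace Pool.Agent.QFC

open Monoid

variable {n : ℕ}

/-- The exponent vector of an element of the free group. -/
def expo (n : ℕ) : FreeGroup (Fin n) →* Multiplicative (Fin n → ℤ) :=
  FreeGroup.lift (fun i => Multiplicative.ofAdd (Pi.single i 1))

/-- The functional `v ↦ Σ_i (expo x)_i v_i`. -/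
def ev {n : ℕ} (K : Type) [Field K] (x : FreeGroup (Fin n)) (v : Fin n → K) : K :=
  ∑ i, ((Multiplicative.toAdd (expo n x) i : ℤ) : K) * v i

variable {K : Type} [Field K]

theorem ev_one (v : Fin n → K) : ev K (1 : FreeGroup (Fin n)) v = 0 := by
  simp [ev]

theorem ev_mul (x y : FreeGroup (Fin n)) (v : Fin n → K) :
    ev K (x * y) v = ev K x v + ev K y v := by
  simp only [ev, map_mul, toAdd_mul, Pi.add_apply, Int.cast_add, add_mul,
    Finset.sum_add_distrib]

theorem ev_inv (x : FreeGroup (Fin n)) (v : Fin n → K) : ev K (x⁻¹) v = - ev K x v := by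
  have h := ev_mul x⁻¹ x v
  rw [inv_mul_cancel, ev_one] at h
  linear_combination -h

theorem ev_conj (g x : FreeGroup (Fin n)) (v : Fin n → K) : ev K (g * x * g⁻¹) v = ev K x v := by
  rw [ev_mul, ev_mul, ev_inv]
  ring

theorem ev_of (i : Fin n) (v : Fin n → K) : ev K (FreeGroup.of i) v = v i := by
  simp only [ev, expo, FreeGroup.lift_apply_of, toAdd_ofAdd]
  rw [Finset.sum_eq_single i]
  · simp
  · intro j _ hj
    rw [Pi.single_eq_of_ne hj]
    simp
  · intro h
    exact absurd (Finset.mem_univ i) h

theorem ev_add (x : FreeGroup (Fin n)) (v w : Fin n → K) :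
    ev K x (v + w) = ev K x v + ev K x w := by
  simp only [ev, Pi.add_apply, mul_add, Finset.sum_add_distrib]

theorem ev_smul (x : FreeGroup (Fin n)) (c : K) (v : Fin n → K) :
    ev K x (c • v) = c * ev K x v := by
  simp only [ev, Pi.smul_apply, smul_eq_mul, Finset.mul_sum]
  refine Finset.sum_congr rfl fun i _ => ?_
  ring

theorem ev_zero (x : FreeGroup (Fin n)) : ev K x (0 : Fin n → K) = 0 := by
  simp [ev]

/-- `ev` in the vector argument is a linear map. -/
def evL (K : Type) [Field K] (x : FreeGroup (Fin n)) : (Fin n → K) →ₗ[K] K where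
  toFun := ev K x
  map_add' := ev_add x
  map_smul' := ev_smul x

/-- `ev` in the group argument is a homomorphism. -/
def evH (K : Type) [Field K] (v : Fin n → K) : FreeGroup (Fin n) →* Multiplicative K where
  toFun x := Multiplicative.ofAdd (ev K x v)
  map_one' := by rw [ev_one]; rfl
  map_mul' x y := by rw [ev_mul]; rfl

/-- Every homomorphism `F_n → K` is `evH v` for the vector of its values. -/
theorem evH_eq (f : FreeGroup (Fin n) →* Multiplicative K) :
    evH K (fun i => Multiplicative.toAdd (f (FreeGroup.of i))) = f := by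
  apply FreeGroup.ext_hom
  intro i
  show Multiplicative.ofAdd (ev K (FreeGroup.of i) _) = _
  rw [ev_of]
  rfl

theorem ev_eq (f : FreeGroup (Fin n) →* Multiplicative K) (x : FreeGroup (Fin n)) :
    ev K x (fun i => Multiplicative.toAdd (f (FreeGroup.of i))) = Multiplicative.toAdd (f x) := by
  have h := DFunLike.congr_fun (evH_eq f) x
  rw [← h]
  rfl

/-- The matrix of `φ`: row `i` is the exponent vector of `φ (a_i)`. -/
def autMatrix (φ : MulAut (FreeGroup (Fin n))) : Matrix (Fin n) (Fin n) ℤ :=
  fun i j => Multiplicative.toAdd (expo n (φ (FreeGroup.of i))) j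

/-- The action of `φ` on `Hom(F_n, K) = K^n` is the matrix `autMatrix φ`. -/
theorem ev_mulVec (φ : MulAut (FreeGroup (Fin n))) (v : Fin n → K) (x : FreeGroup (Fin n)) :
    ev K x (((autMatrix φ).map (Int.cast : ℤ → K)).mulVec v) = ev K (φ x) v := by
  have h := ev_eq ((evH K v).comp φ.toMonoidHom) x
  have h2 : (fun i => Multiplicative.toAdd (((evH K v).comp φ.toMonoidHom) (FreeGroup.of i)))
      = ((autMatrix φ).map (Int.cast : ℤ → K)).mulVec v := by
    funext i
    rfl
  rw [h2] at h
  exact h

/-- A nontrivial subgroup of a free group has a nontrivial homomorphism to `K`. -/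
theorem exists_hom (A : Subgroup (FreeGroup (Fin n))) (hA : A ≠ ⊥) :
    ∃ f : A →* Multiplicative K, ∃ x, f x ≠ 1 := by
  have : IsFreeGroup A := inferInstance
  by_cases hne : Nonempty (IsFreeGroup.Generators A)
  · obtain ⟨a⟩ := hne
    refine ⟨IsFreeGroup.lift (fun _ => Multiplicative.ofAdd (1 : K)), IsFreeGroup.of a, ?_⟩
    rw [IsFreeGroup.lift_of]
    intro h
    exact one_ne_zero (α := K) (Multiplicative.ofAdd.injective h)
  · exfalso
    apply hA
    rw [Subgroup.eq_bot_iff_forall]
    intro x hx
    have hemp : IsEmpty (IsFreeGroup.Generators A) := not_nonempty_iff.1 hne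
    have e := IsFreeGroup.toFreeGroup A
    have : Subsingleton (FreeGroup (IsFreeGroup.Generators A)) := inferInstance
    have : Subsingleton A := e.toEquiv.subsingleton
    have h1 : (⟨x, hx⟩ : A) = 1 := Subsingleton.elim _ _
    exact congrArg Subtype.val h1

section Decomp

variable {k : ℕ} {P : Option (Fin k) → Subgroup (FreeGroup (Fin n))}
  (hP : Function.Bijective (CoprodI.lift (fun i => (P i).subtype)))

include hP

/-- Universal property of the free product, for homomorphisms to `K`. -/
theorem exists_vec (f : ∀ i, P i →* Multiplicative K) :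
    ∃ v : Fin n → K, ∀ i, ∀ x : P i, ev K (x : FreeGroup (Fin n)) v = Multiplicative.toAdd (f i x) := by
  classical
  let e : CoprodI (fun i => P i) ≃* FreeGroup (Fin n) := MulEquiv.ofBijective _ hP
  let F : FreeGroup (Fin n) →* Multiplicative K := (CoprodI.lift f).comp e.symm.toMonoidHom
  refine ⟨fun i => Multiplicative.toAdd (F (FreeGroup.of i)), fun i x => ?_⟩
  rw [ev_eq]
  have h1 : e.symm (x : FreeGroup (Fin n)) = (CoprodI.of (M := fun i => P i) (i := i) x) := by
    rw [MulEquiv.symm_apply_eq]
    show _ = CoprodI.lift (fun i => (P i).subtype) (CoprodI.of (M := fun i => P i) (i := i) x)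
    rw [CoprodI.lift_of]
    rfl
  show Multiplicative.toAdd ((CoprodI.lift f) (e.symm (x : FreeGroup (Fin n)))) = _
  rw [h1, CoprodI.lift_of]

/-- A vector vanishing on all factors is zero. -/
theorem vec_eq_zero (v : Fin n → K) (h : ∀ i, ∀ x ∈ P i, ev K x v = 0) : v = 0 := by
  have h1 : (evH K v).comp (CoprodI.lift (fun i => (P i).subtype)) = 1 := by
    apply CoprodI.ext_hom
    intro i
    ext x
    show ev K ((CoprodI.lift (fun i => (P i).subtype))
      (CoprodI.of (M := fun i => P i) (i := i) x)) v = 0
    rw [CoprodI.lift_of]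
    exact h i x x.2
  funext j
  obtain ⟨y, hy⟩ := hP.2 (FreeGroup.of j)
  have h2 := DFunLike.congr_fun h1 y
  have h3 : ev K ((CoprodI.lift (fun i => (P i).subtype)) y) v = 0 := h2
  rw [hy, ev_of] at h3
  exact h3

/-- The factors generate. -/
theorem iSup_eq_top' : (⨆ i, P i) = ⊤ := by
  rw [eq_top_iff]
  intro x _
  obtain ⟨y, rfl⟩ := hP.2 x
  induction y using CoprodI.induction_on with
  | one => rw [map_one]; exact Subgroup.one_mem _
  | of i m =>
    rw [CoprodI.lift_of]
    exact (le_iSup P i) m.2
  | mul a b ha hb => rw [map_mul]; exact Subgroup.mul_mem _ (ha trivial) (hb trivial)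

end Decomp

/-- Vectors vanishing on the subgroup `A`. -/
def vanish (K : Type) [Field K] (A : Subgroup (FreeGroup (Fin n))) : Submodule K (Fin n → K) where
  carrier := {v | ∀ x ∈ A, ev K x v = 0}
  add_mem' := by
    intro v w hv hw x hx
    rw [ev_add, hv x hx, hw x hx, add_zero]
  zero_mem' := fun x _ => ev_zero x
  smul_mem' := by
    intro c v hv x hx
    rw [ev_smul, hv x hx, mul_zero]

theorem mem_vanish {A : Subgroup (FreeGroup (Fin n))} {v : Fin n → K} :
    v ∈ vanish K A ↔ ∀ x ∈ A, ev K x v = 0 := Iff.rfl

/-- The homological criterion. -/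
theorem irr_of_matrix (φ : MulAut (FreeGroup (Fin n))) (K : Type) [Field K]
    (hinv : ∀ U : Submodule K (Fin n → K),
      (∀ v ∈ U, ((autMatrix φ).map (Int.cast : ℤ → K)).mulVec v ∈ U) → U = ⊥ ∨ U = ⊤)
    (htr : Matrix.trace ((autMatrix φ).map (Int.cast : ℤ → K)) ≠ 0) :
    IsIrreducibleAut φ := by
  classical
  intro k
  refine ⟨fun S => ?_⟩
  obtain ⟨P, hk, hP, hbot, htop, σ, hσ⟩ := S
  set T : Matrix (Fin n) (Fin n) K := (autMatrix φ).map (Int.cast : ℤ → K) with hT
  -- extension by zero
  have hext : ∀ i : Option (Fin k), P i ≠ ⊥ →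
      ∃ v : Fin n → K, v ∉ vanish K (P i) ∧ ∀ j, j ≠ i → v ∈ vanish K (P j) := by
    intro i hi
    obtain ⟨f, x, hx⟩ := exists_hom (K := K) (P i) hi
    obtain ⟨v, hv⟩ := exists_vec (K := K) hP
      (fun j => if h : j = i then (h ▸ f : P j →* Multiplicative K) else 1)
    refine ⟨v, fun h => hx ?_, fun j hj y hy => ?_⟩
    · have h1 := hv i x
      rw [dif_pos rfl] at h1
      have h2 := h x x.2
      rw [h2] at h1
      exact (Multiplicative.toAdd.injective h1.symm)
    · have h1 := hv j ⟨y, hy⟩
      rw [dif_neg hj] at h1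
      exact h1
  -- the permutation
  have hU : ∀ i : Fin k, ∀ v ∈ vanish K (P (some (σ i))), T.mulVec v ∈ vanish K (P (some i)) := by
    intro i v hv x hx
    rw [hT, ev_mulVec]
    obtain ⟨g, hg⟩ := hσ i
    have h1 : φ x ∈ (P (some i)).map φ.toMonoidHom := ⟨x, hx, rfl⟩
    rw [hg] at h1
    obtain ⟨y, hy, hyx⟩ := h1
    have h2 : φ x = g * y * g⁻¹ := by
      rw [← hyx]
      rfl
    rw [h2, ev_conj]
    exact hv y hy
  -- the factor `B` is trivial
  have hB : P none = ⊥ := by
    by_contra hB
    have hW := hinv (⨅ i : Fin k, vanish K (P (some i))) (by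
      intro v hv
      rw [Submodule.mem_iInf] at hv ⊢
      intro i
      exact hU i v (hv (σ i)))
    rcases hW with hW | hW
    · obtain ⟨v, hv1, hv2⟩ := hext none hB
      have : v ∈ (⨅ i : Fin k, vanish K (P (some i))) := by
        rw [Submodule.mem_iInf]
        intro i
        exact hv2 (some i) (by simp)
      rw [hW, Submodule.mem_bot] at this
      rw [this] at hv1
      exact hv1 (Submodule.zero_mem _)
    · obtain ⟨v, hv1, -⟩ := hext (some ⟨0, hk⟩) (hbot _)
      have : v ∈ (⨅ i : Fin k, vanish K (P (some i))) := by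
        rw [hW]; trivial
      rw [Submodule.mem_iInf] at this
      exact hv1 (this _)
  let N : Fin k → Submodule K (Fin n → K) := fun i =>
    ⨅ j : Fin k, ⨅ _ : j ≠ i, vanish K (P (some j))
  have hN : ∀ i v, v ∈ N i ↔ ∀ j, j ≠ i → v ∈ vanish K (P (some j)) := by
    intro i v
    simp only [N, Submodule.mem_iInf]
  have hNT : ∀ i, ∀ v ∈ N (σ i), T.mulVec v ∈ N i := by
    intro i v hv
    rw [hN] at hv ⊢
    intro j hj
    exact hU j v (hv (σ j) (fun h => hj (σ.injective h)))
  have hzero : ∀ v : Fin n → K, (∀ i : Fin k, v ∈ vanish K (P (some i))) → v = 0 := by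
    intro v hv
    refine vec_eq_zero hP v ?_
    intro i
    cases i with
    | none =>
      intro x hx
      rw [hB, Subgroup.mem_bot] at hx
      rw [hx, ev_one]
    | some i => exact hv i
  have hne : ∀ i, σ i ≠ i := by
    intro i hi
    have hW := hinv (N i) (by
      intro v hv
      apply hNT i v
      rw [hi]
      exact hv)
    rcases hW with hW | hW
    · obtain ⟨v, hv1, hv2⟩ := hext (some i) (hbot i)
      have : v ∈ N i := by
        rw [hN]
        intro j hj
        exact hv2 (some j) (by simpa using hj)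
      rw [hW, Submodule.mem_bot] at this
      rw [this] at hv1
      exact hv1 (Submodule.zero_mem _)
    · -- all other factors are trivial
      have hj : ∀ j, j ≠ some i → P j = ⊥ := by
        intro j hj
        cases j with
        | none => exact hB
        | some j =>
          exfalso
          have hji : j ≠ i := fun h => hj (by rw [h])
          obtain ⟨v, hv1, hv2⟩ := hext (some j) (hbot j)
          have : v ∈ N i := by rw [hW]; trivial
          rw [hN] at this
          exact hv1 (this j hji)
      apply htop i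
      have h1 := iSup_eq_top' hP
      rw [eq_top_iff, ← h1]
      refine iSup_le fun j => ?_
      by_cases hji : j = some i
      · rw [hji]
      · rw [hj j hji]
        exact bot_le
  -- internal direct sum
  have hind : iSupIndep N := by
    intro i
    rw [Submodule.disjoint_def]
    intro v hv1 hv2
    have h2 : v ∈ vanish K (P (some i)) := by
      have hle : (⨆ j, ⨆ _ : j ≠ i, N j) ≤ vanish K (P (some i)) := by
        refine iSup_le fun j => iSup_le fun hj => ?_
        intro w hw
        rw [hN] at hw
        exact hw i hj.symm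
      exact hle hv2
    apply hzero
    intro j
    by_cases hj : j = i
    · rw [hj]; exact h2
    · exact (hN i v).1 hv1 j hj
  have hsup : iSup N = ⊤ := by
    rw [eq_top_iff]
    intro v _
    have hcomp : ∀ i : Fin k, ∃ w : Fin n → K, w ∈ N i ∧ v - w ∈ vanish K (P (some i)) := by
      intro i
      obtain ⟨w, hw⟩ := exists_vec (K := K) hP
        (fun j => if j = some i then (evH K v).comp (P j).subtype else 1)
      refine ⟨w, ?_, ?_⟩
      · rw [hN]
        intro j hj x hx
        have h1 := hw (some j) ⟨x, hx⟩
        rw [if_neg (by simpa using hj)] at h1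
        exact h1
      · intro x hx
        have h1 := hw (some i) ⟨x, hx⟩
        rw [if_pos rfl] at h1
        have h2 : ev K x w = ev K x v := h1
        have h3 := (evL K x).map_sub v w
        have h4 : ev K x (v - w) = ev K x v - ev K x w := h3
        rw [h4, h2, sub_self]
    choose w hw1 hw2 using hcomp
    have hv : v = ∑ i, w i := by
      have : v - ∑ i, w i = 0 := by
        apply hzero
        intro i
        have h1 : v - ∑ i, w i = (v - w i) - ∑ j ∈ Finset.univ.erase i, w j := by
          rw [← Finset.add_sum_erase _ _ (Finset.mem_univ i)]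
          abel
        rw [h1]
        refine Submodule.sub_mem _ (hw2 i) (Submodule.sum_mem _ ?_)
        intro j hj
        exact (hN j (w j)).1 (hw1 j) i (Finset.ne_of_mem_erase hj).symm
      exact sub_eq_zero.1 this
    rw [hv]
    exact Submodule.sum_mem _ fun i _ => (le_iSup N i) (hw1 i)
  have hint : DirectSum.IsInternal N :=
    (DirectSum.isInternal_submodule_iff_iSupIndep_and_iSup_eq_top N).2 ⟨hind, hsup⟩
  have htrace : LinearMap.trace K (Fin n → K) (Matrix.toLin' T) = 0 := by
    refine LinearMap.trace_eq_zero_of_mapsTo_ne hint (fun i => σ.symm i) ?_ ?_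
    · intro i h
      exact hne i (by rw [Equiv.symm_apply_eq] at h; exact h.symm)
    · intro i v hv
      have h1 := hNT (σ.symm i) v (by rw [Equiv.apply_symm_apply]; exact hv)
      exact h1
  rw [Matrix.trace_toLin'_eq] at htrace
  exact htr htrace

end Pool.Agent.QFC
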