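import Mathlib
import Pool.Agent.QFC.Irr

/-!
# Irreducible polynomials over a finite field, and invariant subspaces
-/

namespace Pool.Agent.QFC

open Polynomial

section

variable {K : Type} [Field K]

/-- The polynomial with coefficient list `l` (lowest degree first). -/
noncomputable def toPoly (l : List K) : K[X] := l.foldr (fun a p => C a + X * p) 0

theorem toPoly_nil : toPoly ([] : List K) = 0 := rfl

theorem toPoly_cons (a : K) (l : List K) : toPoly (a :: l) = C a + X * toPoly l := rfl

theorem toPoly_degree_lt (l : List K) : (toPoly l).degree < l.length := by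
  induction l with
  | nil => simp [toPoly_nil, degree_zero]
  | cons a l ih =>
    rw [toPoly_cons]
    refine lt_of_le_of_lt (degree_add_le _ _) (max_lt ?_ ?_)
    · refine lt_of_le_of_lt degree_C_le ?_
      rw [List.length_cons]
      exact_mod_cast Nat.succ_pos _
    · rw [List.length_cons]
      by_cases h : toPoly l = 0
      · rw [h, mul_zero, degree_zero]
        exact WithBot.bot_lt_coe _
      · rw [degree_mul, degree_X, degree_eq_natDegree h]
        rw [degree_eq_natDegree h] at ih
        have h1 : (toPoly l).natDegree < l.length := by exact_mod_cast ih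
        have h2 : 1 + (toPoly l).natDegree < l.length + 1 := by omega
        exact_mod_cast h2

theorem toPoly_eq_zero {l : List K} (h : toPoly l = 0) : ∀ a ∈ l, a = 0 := by
  induction l with
  | nil => simp
  | cons a l ih =>
    rw [toPoly_cons] at h
    have h0 : a = 0 := by
      have := congrArg (fun p => p.coeff 0) h
      simpa using this
    have h1 : toPoly l = 0 := by
      rw [h0, C_0, zero_add] at h
      exact (mul_eq_zero.1 h).resolve_left X_ne_zero
    intro b hb
    rcases List.mem_cons.1 hb with hb | hb
    · rw [hb, h0]
    · exact ih h1 b hb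

/-- `r - t c`, entrywise. -/
def subMul (t : K) : List K → List K → List K
  | x :: r, y :: c => (x - t * y) :: subMul t r c
  | _, _ => []

theorem subMul_length (t : K) : ∀ (r c : List K), r.length = c.length →
    (subMul t r c).length = c.length
  | [], [], _ => rfl
  | x :: r, y :: c, h => by
    simp only [subMul, List.length_cons]
    rw [subMul_length t r c (by simpa using h)]
  | [], y :: c, h => by simp at h
  | x :: r, [], h => by simp at h

theorem toPoly_subMul (t : K) : ∀ (r c : List K), r.length = c.length →
    toPoly (subMul t r c) = toPoly r - C t * toPoly c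
  | [], [], _ => by simp [subMul, toPoly_nil]
  | x :: r, y :: c, h => by
    simp only [subMul, toPoly_cons]
    rw [toPoly_subMul t r c (by simpa using h), C_sub, C_mul]
    ring
  | [], y :: c, h => by simp at h
  | x :: r, [], h => by simp at h

theorem toPoly_snoc (l : List K) (t : K) : toPoly (l ++ [t]) = toPoly l + C t * X ^ l.length := by
  induction l with
  | nil => simp [toPoly_nil, toPoly_cons]
  | cons a l ih =>
    rw [List.cons_append, toPoly_cons, ih, toPoly_cons, List.length_cons, pow_succ]
    ring

/-- One Horner step modulo the monic polynomial `X ^ d + toPoly c`, `d = c.length`. -/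
def hstep (c r : List K) (a : K) : List K := subMul (r.getLastD 0) (a :: r.dropLast) c

theorem hstep_length {c r : List K} (h : r.length = c.length) (hc : c ≠ []) (a : K) :
    (hstep c r a).length = c.length := by
  apply subMul_length
  have : 0 < c.length := List.length_pos_of_ne_nil hc
  simp
  omega

theorem toPoly_hstep {c r : List K} (h : r.length = c.length) (hc : c ≠ []) (a : K) :
    toPoly (hstep c r a) = X * toPoly r + C a - C (r.getLastD 0) * (X ^ c.length + toPoly c) := by
  have hpos : 0 < c.length := List.length_pos_of_ne_nil hc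
  have hr : r ≠ [] := by
    intro h0
    rw [h0] at h
    simp at h
    omega
  unfold hstep
  rw [toPoly_subMul _ _ _ (by simp; omega), toPoly_cons]
  have h1 : toPoly r = toPoly r.dropLast + C (r.getLastD 0) * X ^ r.dropLast.length := by
    conv_lhs => rw [← List.dropLast_append_getLast hr]
    rw [toPoly_snoc]
    have : r.getLastD 0 = r.getLast hr := by
      rw [List.getLastD_eq_getLast?, List.getLast?_eq_getLast_of_ne_nil hr]
      rfl
    rw [this]
  have h2 : c.length = r.dropLast.length + 1 := by
    rw [List.length_dropLast]
    omega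
  rw [h1, h2, pow_succ]
  ring

/-- The remainder of the polynomial with coefficient list `l` (HIGHEST degree first). -/
def remP (c : List K) (l : List K) : List K :=
  l.foldl (hstep c) (List.replicate c.length 0)

/-- The polynomial with coefficient list `l`, highest degree first. -/
noncomputable def hornerP (l : List K) : K[X] := l.foldl (fun p a => p * X + C a) 0

theorem foldl_inv {c : List K} (hc : c ≠ []) (l : List K) : ∀ (A : K[X]) (r : List K),
    r.length = c.length → (X ^ c.length + toPoly c) ∣ A - toPoly r →
    (l.foldl (hstep c) r).length = c.length ∧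
    (X ^ c.length + toPoly c) ∣ l.foldl (fun p a => p * X + C a) A - toPoly (l.foldl (hstep c) r) := by
  induction l with
  | nil => intro A r h1 h2; exact ⟨h1, h2⟩
  | cons a l ih =>
    intro A r h1 h2
    rw [List.foldl_cons, List.foldl_cons]
    refine ih _ _ (hstep_length h1 hc a) ?_
    rw [toPoly_hstep h1 hc]
    obtain ⟨B, hB⟩ := h2
    refine ⟨X * B + C (r.getLastD 0), ?_⟩
    have : A = toPoly r + (X ^ c.length + toPoly c) * B := by rw [← hB]; ring
    rw [this]
    ring

theorem toPoly_replicate (d : ℕ) : toPoly (List.replicate d (0 : K)) = 0 := by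
  induction d with
  | zero => rfl
  | succ d ih => rw [List.replicate_succ, toPoly_cons, ih]; simp

theorem remP_spec {c : List K} (hc : c ≠ []) (l : List K) :
    (remP c l).length = c.length ∧ (X ^ c.length + toPoly c) ∣ hornerP l - toPoly (remP c l) := by
  refine foldl_inv hc l 0 _ (List.length_replicate) ?_
  rw [toPoly_replicate, sub_zero]
  exact dvd_zero _

theorem not_dvd_of_rem {c : List K} (hc : c ≠ []) {l : List K}
    (h : ∃ a ∈ remP c l, a ≠ 0) : ¬ (X ^ c.length + toPoly c) ∣ hornerP l := by
  intro hd
  obtain ⟨h1, h2⟩ := remP_spec hc l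
  have h3 : (X ^ c.length + toPoly c) ∣ toPoly (remP c l) := by
    have := dvd_sub hd h2
    rwa [sub_sub_cancel] at this
  have h4 : toPoly (remP c l) = 0 := by
    by_contra h0
    have h5 := degree_le_of_dvd h3 h0
    have h6 := toPoly_degree_lt (remP c l)
    have h7 : (X ^ c.length + toPoly c : K[X]).degree = (c.length : WithBot ℕ) := by
      rw [degree_add_eq_left_of_degree_lt]
      · exact degree_X_pow _
      · rw [degree_X_pow]
        exact toPoly_degree_lt c
    rw [h7] at h5
    rw [h1] at h6
    exact absurd (lt_of_le_of_lt h5 h6) (lt_irrefl _)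
  obtain ⟨a, ha, ha0⟩ := h
  exact ha0 (toPoly_eq_zero h4 a ha)

/-- Every monic polynomial of degree `d` is `X ^ d + toPoly c` with `c` of length `d`. -/
theorem exists_toPoly (d : ℕ) : ∀ p : K[X], p.degree < d → ∃ c : List K, c.length = d ∧
    toPoly c = p := by
  induction d with
  | zero =>
    intro p hp
    refine ⟨[], rfl, ?_⟩
    have : p.degree < 0 := by exact_mod_cast hp
    rw [toPoly_nil]
    exact (degree_lt_iff_coeff_zero p 0 |>.1 (by simpa using hp) |> fun h => by
      ext m
      rw [coeff_zero]
      exact (h m (Nat.zero_le m)).symm)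
  | succ d ih =>
    intro p hp
    obtain ⟨c, hc1, hc2⟩ := ih p.divX (by
      rw [degree_lt_iff_coeff_zero] at hp ⊢
      intro m hm
      rw [coeff_divX]
      exact hp (m + 1) (by omega))
    refine ⟨p.coeff 0 :: c, by simp [hc1], ?_⟩
    rw [toPoly_cons, hc2, add_comm]
    exact X_mul_divX_add p

/-- All lists of length `d` with entries in `E`. -/
def allLists (E : List K) : ℕ → List (List K)
  | 0 => [[]]
  | d + 1 => (allLists E d).flatMap (fun l => E.map (fun a => a :: l))

theorem mem_allLists {E : List K} (hE : ∀ a : K, a ∈ E) : ∀ l : List K, l ∈ allLists E l.length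
  | [] => by simp [allLists]
  | a :: l => by
    rw [List.length_cons, allLists, List.mem_flatMap]
    exact ⟨l, mem_allLists hE l, List.mem_map.2 ⟨a, hE a, rfl⟩⟩

/-- Checkable irreducibility: `l` is the coefficient list, highest degree first, leading
coefficient `1`. -/
def irrCheck [DecidableEq K] (E : List K) (l : List K) : Bool :=
  (List.range ((l.length - 1) / 2)).all (fun d => (allLists E (d + 1)).all (fun c =>
    (remP c l).any (fun a => decide (a ≠ 0))))

theorem hornerP_monic (l : List K) :
    hornerP (1 :: l) = X ^ l.length + toPoly l.reverse := by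
  have key : ∀ (l : List K) (A : K[X]), l.foldl (fun p a => p * X + C a) A =
      A * X ^ l.length + toPoly l.reverse := by
    intro l
    induction l with
    | nil => intro A; simp [toPoly_nil]
    | cons a l ih =>
      intro A
      rw [List.foldl_cons, ih, List.length_cons, List.reverse_cons, toPoly_snoc,
        List.length_reverse, pow_succ]
      ring
  unfold hornerP
  rw [List.foldl_cons, key]
  simp

theorem irreducible_of_check [DecidableEq K] {E : List K} (hE : ∀ a : K, a ∈ E) {l : List K}
    (hl : l ≠ []) (h : irrCheck E (1 :: l) = true) : Irreducible (hornerP (1 :: l)) := by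
  have hdeg : (X ^ l.length + toPoly l.reverse : K[X]).natDegree = l.length ∧
      (X ^ l.length + toPoly l.reverse : K[X]).Monic := by
    have h1 : (toPoly l.reverse).degree < l.length := by
      have := toPoly_degree_lt l.reverse
      rwa [List.length_reverse] at this
    have h2 : (X ^ l.length + toPoly l.reverse : K[X]).Monic :=
      monic_X_pow_add h1
    refine ⟨?_, h2⟩
    have h3 : (X ^ l.length + toPoly l.reverse : K[X]).degree = l.length := by
      rw [degree_add_eq_left_of_degree_lt]
      · exact degree_X_pow _
      · rw [degree_X_pow]; exact h1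
    exact natDegree_eq_of_degree_eq_some h3
  rw [hornerP_monic]
  rw [hdeg.2.irreducible_iff_lt_natDegree_lt]
  · intro q hq hqd hdiv
    rw [Finset.mem_Ioc, hdeg.1] at hqd
    obtain ⟨c, hc1, hc2⟩ := exists_toPoly q.natDegree (q - X ^ q.natDegree) (by
      have := degree_sub_lt_left (p := q) (q := X ^ q.natDegree) (by
        rw [degree_X_pow, degree_eq_natDegree hq.ne_zero]) hq.ne_zero (by
        rw [hq.leadingCoeff, leadingCoeff_X_pow])
      rwa [degree_eq_natDegree hq.ne_zero] at this)
    have hq2 : q = X ^ c.length + toPoly c := by
      rw [hc1, hc2]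
      ring
    have hcne : c ≠ [] := by
      intro h0
      rw [h0] at hc1
      simp at hc1
      omega
    have h1 := List.all_eq_true.1 h (c.length - 1) (List.mem_range.2 (by
      rw [List.length_cons, hc1]
      omega))
    have h2 := List.all_eq_true.1 h1 c (by
      have : c.length - 1 + 1 = c.length := by
        have : 0 < c.length := List.length_pos_of_ne_nil hcne
        omega
      rw [this]
      exact mem_allLists hE c)
    obtain ⟨a, ha1, ha2⟩ := List.any_eq_true.1 h2
    rw [← hornerP_monic, hq2] at hdiv
    exact not_dvd_of_rem hcne ⟨a, ha1, of_decide_eq_true ha2⟩ hdiv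
  · intro h1
    have h2 := hdeg.1
    rw [h1, natDegree_one] at h2
    have : 0 < l.length := List.length_pos_of_ne_nil hl
    omega

end

section

variable {K : Type} [Field K] {n : ℕ}

/-- If `p` is irreducible of degree `n` and `p(T) u = 0` for some `u ≠ 0`, then every vector is
`f(T) u`. -/
theorem cyclic_of_irred (T : Module.End K (Fin n → K)) (p : K[X]) (hp : Irreducible p)
    (hdeg : p.natDegree = n) (u : Fin n → K) (hu : u ≠ 0) (hpu : aeval T p u = 0) :
    ∀ v, ∃ f : K[X], v = aeval T f u := by
  let L : degreeLT K n →ₗ[K] (Fin n → K) :=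
    { toFun := fun f => aeval T (f : K[X]) u
      map_add' := by
        intro f g
        simp
      map_smul' := by
        intro c f
        simp }
  have hinj : Function.Injective L := by
    rw [← LinearMap.ker_eq_bot, LinearMap.ker_eq_bot']
    intro f hf
    by_contra hf0
    have hf1 : (f : K[X]) ≠ 0 := fun h => hf0 (Subtype.ext h)
    have hnd : ¬ p ∣ (f : K[X]) := by
      intro hd
      have h1 := degree_le_of_dvd hd hf1
      have h2 := mem_degreeLT.1 f.2
      rw [degree_eq_natDegree hp.ne_zero, hdeg] at h1
      exact absurd (lt_of_le_of_lt h1 h2) (lt_irrefl _)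
    have hcop : IsCoprime p (f : K[X]) := (hp.coprime_iff_not_dvd).2 hnd
    obtain ⟨a, b, hab⟩ := hcop
    apply hu
    have h3 : aeval T (a * p + b * (f : K[X])) u = u := by
      rw [hab]
      simp
    rw [map_add, map_mul, map_mul, LinearMap.add_apply, Module.End.mul_apply,
      Module.End.mul_apply, hpu, map_zero, zero_add] at h3
    have hf' : aeval T (f : K[X]) u = 0 := hf
    rw [hf', map_zero] at h3
    exact h3.symm
  have hsurj : Function.Surjective L := by
    have hfin : Module.finrank K (degreeLT K n) = n := by
      rw [(degreeLTEquiv K n).finrank_eq, Module.finrank_fin_fun]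
    have : FiniteDimensional K (degreeLT K n) :=
      Module.Finite.equiv (degreeLTEquiv K n).symm
    exact (LinearMap.injective_iff_surjective_of_finrank_eq_finrank
      (by rw [hfin, Module.finrank_fin_fun])).1 hinj
  intro v
  obtain ⟨f, hf⟩ := hsurj v
  exact ⟨f, hf.symm⟩

/-- No proper invariant subspace. -/
theorem no_inv_of_irred (T : Matrix (Fin n) (Fin n) K) (p : K[X]) (hp : Irreducible p)
    (hdeg : p.natDegree = n) (u : Fin n → K) (hu : u ≠ 0)
    (hpu : aeval (Matrix.toLin' T) p u = 0) :
    ∀ U : Submodule K (Fin n → K), (∀ v ∈ U, T.mulVec v ∈ U) → U = ⊥ ∨ U = ⊤ := by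
  intro U hU
  by_cases hbot : U = ⊥
  · exact Or.inl hbot
  right
  have hp0 : ∀ v, aeval (Matrix.toLin' T) p v = 0 := by
    intro v
    obtain ⟨f, hf⟩ := cyclic_of_irred _ p hp hdeg u hu hpu v
    rw [hf, ← Module.End.mul_apply, ← map_mul, mul_comm, map_mul, Module.End.mul_apply, hpu,
      map_zero]
  obtain ⟨w, hw, hw0⟩ := (Submodule.ne_bot_iff U).1 hbot
  rw [eq_top_iff]
  intro v _
  obtain ⟨f, hf⟩ := cyclic_of_irred _ p hp hdeg w hw0 (hp0 w) v
  rw [hf]
  have hT : ∀ k : ℕ, ∀ v ∈ U, ((Matrix.toLin' T) ^ k) v ∈ U := by
    intro k
    induction k with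
    | zero => intro v hv; simpa using hv
    | succ k ih =>
      intro v hv
      rw [pow_succ', Module.End.mul_apply, Matrix.toLin'_apply]
      exact hU _ (ih v hv)
  rw [aeval_eq_sum_range, LinearMap.sum_apply]
  refine Submodule.sum_mem _ fun k _ => ?_
  rw [LinearMap.smul_apply]
  exact Submodule.smul_mem _ _ (hT k w hw)

end

end Pool.Agent.QFC
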