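import Mathlib
import Pool.Agent.QFC.Irr
import Pool.Agent.QFC.Poly
import Pool.Agent.QFC.Word
import Pool.Agent.QFC.MT

/-!
# A checkable criterion for irreducibility of an automorphism given by words
-/

namespace Pool.Agent.QFC

open Polynomial

/-! ### The matrix from words -/

/-- Exponent sum of the generator `j` in a word. -/
def esum (j : ℕ) (w : List ℕ) : ℤ :=
  (w.map (fun a => if a / 2 = j then (if a % 2 = 0 then 1 else -1) else 0)).sum

theorem expo_fw {n : ℕ} (w : List ℕ) (hw : lettersLt n w = true) (j : Fin n) :
    Multiplicative.toAdd (expo n (fw n w)) j = esum j w := by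
  induction w with
  | nil => simp [fw, esum]
  | cons a w ih =>
    obtain ⟨ha, hw'⟩ := lettersLt_cons.1 hw
    have h1 : fw n (a :: w) = lval (gen n) a * fw n w := by
      unfold fw
      rw [wval_cons]
    have h2 : esum j (a :: w) =
        (if a / 2 = j then (if a % 2 = 0 then 1 else -1) else 0) + esum j w := by
      unfold esum
      rw [List.map_cons, List.sum_cons]
    rw [h1, map_mul, toAdd_mul, Pi.add_apply, ih hw', h2]
    congr 1
    have hg : gen n (a / 2) = FreeGroup.of ⟨a / 2, ha⟩ := by simp [gen, ha]
    unfold lval
    rw [hg]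
    by_cases hpar : a % 2 = 0
    · rw [if_pos hpar, if_pos hpar]
      simp only [expo, FreeGroup.lift_apply_of, toAdd_ofAdd]
      by_cases hj : a / 2 = j
      · rw [if_pos hj]
        have : j = ⟨a / 2, ha⟩ := Fin.ext hj.symm
        rw [this, Pi.single_eq_same]
      · rw [if_neg hj]
        rw [Pi.single_eq_of_ne]
        intro h
        exact hj (congrArg Fin.val h).symm
    · rw [if_neg hpar, if_neg hpar, map_inv, toAdd_inv]
      simp only [expo, FreeGroup.lift_apply_of, toAdd_ofAdd, Pi.neg_apply]
      by_cases hj : a / 2 = j
      · rw [if_pos hj]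
        have : j = ⟨a / 2, ha⟩ := Fin.ext hj.symm
        rw [this, Pi.single_eq_same]
      · rw [if_neg hj]
        rw [Pi.single_eq_of_ne, neg_zero]
        intro h
        exact hj (congrArg Fin.val h).symm

theorem autMatrix_eq {D : IsoData} (h : D.check = true) (i j : Fin D.n) :
    autMatrix (D.aut h) i j = esum j (D.s i) := by
  unfold autMatrix
  rw [IsoData.aut_of, expo_fw]
  exact ((IsoData.check_iff h).2.2.1 i i.2).1

/-! ### List vectors -/

section

variable {K : Type} [Field K]

/-- List vector to function. -/
def toVec (n : ℕ) (v : List K) : Fin n → K := fun i => v.getD i 0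

/-- dot product of lists -/
def ldot : List K → List K → K
  | x :: r, y :: c => x * y + ldot r c
  | _, _ => 0

/-- List matrix times list vector. -/
def lmulV (M : List (List K)) (v : List K) : List K := M.map (fun r => ldot r v)

theorem ldot_eq : ∀ (n : ℕ) (r v : List K), r.length = n → v.length = n →
    ldot r v = ∑ i : Fin n, r.getD i 0 * v.getD i 0
  | 0, [], [], _, _ => by simp [ldot]
  | n + 1, x :: r, y :: v, h1, h2 => by
    rw [Fin.sum_univ_succ, ldot, ldot_eq n r v (by simpa using h1) (by simpa using h2)]
    simp
  | n + 1, [], _, h1, _ => by simp at h1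
  | n + 1, _ :: _, [], _, h2 => by simp at h2
  | 0, _ :: _, _, h1, _ => by simp at h1
  | 0, [], _ :: _, _, h2 => by simp at h2

theorem lmulV_spec {n : ℕ} {M : List (List K)} (hM : M.length = n)
    (hM2 : ∀ r ∈ M, r.length = n) {v : List K} (hv : v.length = n) :
    (Matrix.of fun i j : Fin n => (M.getD i []).getD j 0).mulVec (toVec n v) =
      toVec n (lmulV M v) := by
  funext i
  have hi : (i : ℕ) < M.length := by rw [hM]; exact i.2
  have h1 : M.getD i [] = M[(i : ℕ)] := by simp [List.getD, hi]
  have h2 : (lmulV M v).getD i 0 = ldot M[(i : ℕ)] v := by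
    unfold lmulV
    simp [List.getD, hi]
  unfold toVec
  rw [h2, ldot_eq n _ v (hM2 _ (List.getElem_mem hi)) hv]
  unfold Matrix.mulVec dotProduct
  refine Finset.sum_congr rfl fun j _ => ?_
  show (M.getD i []).getD j 0 * _ = _
  rw [h1]

/-- `y + a u` -/
def laddMul (a : K) : List K → List K → List K
  | x :: r, y :: c => (x + a * y) :: laddMul a r c
  | _, _ => []

theorem laddMul_length (a : K) : ∀ (r c : List K), r.length = c.length →
    (laddMul a r c).length = c.length
  | [], [], _ => rfl
  | x :: r, y :: c, h => by
    simp only [laddMul, List.length_cons]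
    rw [laddMul_length a r c (by simpa using h)]
  | [], y :: c, h => by simp at h
  | x :: r, [], h => by simp at h

theorem laddMul_getD (a : K) : ∀ (r c : List K) (_ : r.length = c.length) (i : ℕ),
    (laddMul a r c).getD i 0 = r.getD i 0 + a * c.getD i 0
  | [], [], _, i => by simp [laddMul]
  | x :: r, y :: c, h, 0 => by simp [laddMul]
  | x :: r, y :: c, h, i + 1 => by
    simp only [laddMul, List.getD_cons_succ]
    exact laddMul_getD a r c (by simpa using h) i
  | [], y :: c, h, i => by simp at h
  | x :: r, [], h, i => by simp at h

/-- Horner evaluation of the polynomial `hornerP l` at `M`, applied to `u`. -/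
def lhorner (M : List (List K)) (u : List K) (l : List K) : List K :=
  l.foldl (fun y a => laddMul a (lmulV M y) u) (List.replicate u.length 0)

theorem lhorner_spec {n : ℕ} {M : List (List K)} (hM : M.length = n)
    (hM2 : ∀ r ∈ M, r.length = n) {u : List K} (hu : u.length = n) (l : List K) :
    aeval (Matrix.toLin' (Matrix.of fun i j : Fin n => (M.getD i []).getD j 0)) (hornerP l)
      (toVec n u) = toVec n (lhorner M u l) := by
  set T := Matrix.toLin' (Matrix.of fun i j : Fin n => (M.getD i []).getD j 0) with hT
  have key : ∀ (l : List K) (A : K[X]) (y : List K), y.length = n →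
      aeval T A (toVec n u) = toVec n y →
      aeval T (l.foldl (fun p a => p * X + C a) A) (toVec n u) =
        toVec n (l.foldl (fun y a => laddMul a (lmulV M y) u) y) := by
    intro l
    induction l with
    | nil => intro A y _ h; exact h
    | cons a l ih =>
      intro A y hy h
      rw [List.foldl_cons, List.foldl_cons]
      have hlen : (lmulV M y).length = u.length := by
        unfold lmulV
        rw [List.length_map, hM, hu]
      refine ih _ _ (by rw [laddMul_length _ _ _ hlen, hu]) ?_
      have h1 : toVec n (laddMul a (lmulV M y) u) =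
          toVec n (lmulV M y) + a • toVec n u := by
        funext i
        show (laddMul a (lmulV M y) u).getD i 0 = (lmulV M y).getD i 0 + a * u.getD i 0
        exact laddMul_getD a _ _ hlen i
      rw [h1, ← lmulV_spec hM hM2 hy, ← h, mul_comm A X]
      simp [hT, Module.End.mul_apply, Matrix.toLin'_apply]
  refine key l 0 _ (by rw [List.length_replicate, hu]) ?_
  rw [map_zero, LinearMap.zero_apply]
  funext i
  unfold toVec
  simp

end

theorem list_sum_range {K : Type} [AddCommMonoid K] (f : ℕ → K) (n : ℕ) :
    ((List.range n).map f).sum = ∑ i ∈ Finset.range n, f i := by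
  induction n with
  | zero => simp
  | succ n ih => rw [List.range_succ, List.map_append, List.sum_append, ih,
      Finset.sum_range_succ]; simp

/-- Checkable criterion: `M` is the matrix of exponent sums mod `p`, `l` the coefficient list of a
monic irreducible polynomial of degree `n` (highest degree first, without the leading `1`), `u` a
nonzero vector killed by it, and the trace is not zero. -/
theorem irr_of_data {D : IsoData} (h : D.check = true) (K : Type) [Field K] [DecidableEq K]
    (E : List K) (hE : ∀ a : K, a ∈ E) (M : List (List K)) (l u : List K)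
    (hl : l.length = D.n) (hu : u.length = D.n) (hM : M.length = D.n)
    (hM2 : ∀ r ∈ M, r.length = D.n)
    (hMat : ∀ i < D.n, ∀ j < D.n, (M.getD i []).getD j 0 = ((esum j (D.s i) : ℤ) : K))
    (hirr : irrCheck E (1 :: l) = true) (hu0 : ∃ a ∈ u, a ≠ 0)
    (hker : lhorner M u (1 :: l) = List.replicate D.n 0)
    (htr : ((List.range D.n).map (fun i => (M.getD i []).getD i 0)).sum ≠ 0) :
    IsIrreducibleAut (D.aut h) := by
  have hn : 0 < D.n := by
    obtain ⟨a, ha, -⟩ := hu0
    rw [← hu]
    exact List.length_pos_of_mem ha
  have hmat : (autMatrix (D.aut h)).map (Int.cast : ℤ → K) =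
      Matrix.of fun i j : Fin D.n => (M.getD i []).getD j 0 := by
    ext i j
    rw [Matrix.map_apply, autMatrix_eq, Matrix.of_apply, hMat i i.2 j j.2]
  have hp := irreducible_of_check hE (l := l) (by
    intro h0
    rw [h0] at hl
    simp at hl
    omega) hirr
  refine irr_of_matrix _ K ?_ ?_
  · rw [hmat]
    refine no_inv_of_irred _ (hornerP (1 :: l)) hp ?_ (toVec D.n u) ?_ ?_
    · rw [hornerP_monic]
      have h1 : (toPoly l.reverse).degree < l.length := by
        have := toPoly_degree_lt l.reverse
        rwa [List.length_reverse] at this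
      have h3 : (X ^ l.length + toPoly l.reverse : K[X]).degree = l.length := by
        rw [degree_add_eq_left_of_degree_lt]
        · exact degree_X_pow _
        · rw [degree_X_pow]; exact h1
      rw [natDegree_eq_of_degree_eq_some h3, hl]
    · intro h0
      obtain ⟨a, ha, ha0⟩ := hu0
      obtain ⟨i, hi, rfl⟩ := List.getElem_of_mem ha
      have := congrFun h0 ⟨i, by omega⟩
      apply ha0
      have h2 : u.getD i 0 = 0 := this
      simpa [List.getD, hi] using h2
    · rw [lhorner_spec hM hM2 hu, hker]
      funext i
      unfold toVec
      simp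
  · rw [hmat]
    intro h0
    apply htr
    have h1 : ((List.range D.n).map (fun i => (M.getD i []).getD i 0)).sum =
        Matrix.trace (Matrix.of fun i j : Fin D.n => (M.getD i []).getD j 0) := by
      unfold Matrix.trace
      rw [list_sum_range, ← Fin.sum_univ_eq_sum_range (fun i => (M.getD i []).getD i 0)]
      rfl
    rw [h1, h0]

end Pool.Agent.QFC
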