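import Mathlib
import Pool.Agent.QFC.IrrCheck
import Pool.Agent.QFC.Hex

namespace Pool.Agent.QFC

/-- matrix mod p -/
def hexM : List (List (ZMod 3)) :=
  [[0, 1, 0, 0, 0, 0],
   [0, 0, 2, 2, 0, 1],
   [2, 2, 0, 1, 2, 0],
   [0, 0, 0, 0, 1, 0],
   [1, 0, 2, 1, 1, 0],
   [1, 2, 0, 0, 1, 0]]

theorem hex_irr : IsIrreducibleAut (hexData.aut hex_check) := by
  refine irr_of_data hex_check (ZMod 3) [0, 1, 2] (by decide) hexM
    [2, 1, 2, 0, 2, 2]
    [1, 0, 0, 0, 0, 0] rfl rfl rfl ?_ ?_ ?_ ?_ ?_ ?_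
  · decide +kernel
  · decide +kernel
  · decide +kernel
  · exact ⟨1, by decide, by decide⟩
  · decide +kernel
  · decide +kernel

end Pool.Agent.QFC
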