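import Mathlib
import Pool.Agent.QFC.Groups
import Pool.Agent.QFC.MT

/-!
# The fundamental group of a one-vertex complex and its short presentation
-/

namespace Pool.Agent.QFC

open _root_.QFC

variable {m a b : ℕ}

/-- The letter of an end: `x`-ends are `0, …, b-1`, `y`-ends are `b, …, b+a-1`. -/
def endLetter (a b : ℕ) : Fin b ⊕ Fin a → ℕ
  | Sum.inl s => s
  | Sum.inr t => b + t

/-- The relator read from the corner `w`, as a word. -/
def cornerWord (K : KData m a b) (w : Fin b × Fin a) : List ℕ :=
  (List.range (2 * m)).map (fun k => endLetter a b (K.ltr (k + 1) w))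

/-- All checks for the isomorphism between `K.Pi` and the group presented by `L`. -/
def kCheck (K : KData m a b) (L : List (List ℕ)) (c : ℕ → List (List ℕ × ℕ × Bool)) : Bool :=
  decide (a % 2 = 0) && decide (b % 2 = 0) &&
  decide (∀ s : Fin b, ((K.ix s : Fin b) : ℕ) = flp s) &&
  decide (∀ t : Fin a, b + ((K.iy t : Fin a) : ℕ) = flp (b + t)) &&
  decide (∀ s : Fin b, ∀ t : Fin a, red (cornerWord K (s, t)) = red (certWord L (c (a * s + t)))) &&
  L.all (fun w => lettersLt ((a + b) / 2) w && decide (∃ s : Fin b, ∃ t : Fin a, cornerWord K (s, t) = w))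

theorem kCheck_iff {K : KData m a b} {L : List (List ℕ)} {c : ℕ → List (List ℕ × ℕ × Bool)}
    (h : kCheck K L c = true) : a % 2 = 0 ∧ b % 2 = 0 ∧
    (∀ s : Fin b, ((K.ix s : Fin b) : ℕ) = flp s) ∧
    (∀ t : Fin a, b + ((K.iy t : Fin a) : ℕ) = flp (b + t)) ∧
    (∀ s : Fin b, ∀ t : Fin a, red (cornerWord K (s, t)) = red (certWord L (c (a * s + t)))) ∧
    (∀ w ∈ L, lettersLt ((a + b) / 2) w = true ∧ ∃ s : Fin b, ∃ t : Fin a,
      cornerWord K (s, t) = w) := by
  unfold kCheck at h
  simp only [Bool.and_eq_true, List.all_eq_true, decide_eq_true_eq] at h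
  obtain ⟨⟨⟨⟨⟨h1, h2⟩, h3⟩, h4⟩, h5⟩, h6⟩ := h
  exact ⟨h1, h2, h3, h4, h5, h6⟩

section

variable {K : KData m a b} {L : List (List ℕ)} {c : ℕ → List (List ℕ × ℕ × Bool)}
  (h : kCheck K L c = true)

theorem wval_list_map {G : Type} [Group G] (f : ℕ → G) {ι : Type} (l : List ι) (e : ι → ℕ) :
    wval f (l.map e) = (l.map (fun i => lval f (e i))).prod := by
  unfold wval
  rw [List.map_map]
  rfl

/-- From the fundamental group to the presented group. -/
def kTo (h : kCheck K L c = true) : K.Pi →* PiK ((a + b) / 2) L :=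
  PresentedGroup.toGroup (f := fun e => lval (pGen ((a + b) / 2) L) (endLetter a b e)) (by
    obtain ⟨h1, h2, h3, h4, h5, h6⟩ := kCheck_iff h
    rintro r ((⟨s, rfl⟩ | ⟨t, rfl⟩) | ⟨w, rfl⟩)
    · rw [map_mul, FreeGroup.lift_apply_of, FreeGroup.lift_apply_of]
      have : endLetter a b (Sum.inl (K.ix s)) = flp (endLetter a b (Sum.inl s)) := h3 s
      rw [this, lval_flp, mul_inv_cancel]
    · rw [map_mul, FreeGroup.lift_apply_of, FreeGroup.lift_apply_of]
      have : endLetter a b (Sum.inr (K.iy t)) = flp (endLetter a b (Sum.inr t)) := h4 t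
      rw [this, lval_flp, mul_inv_cancel]
    · rw [map_list_prod, List.map_map]
      have h7 : wval (pGen ((a + b) / 2) L) (cornerWord K w) = 1 := by
        have := wval_eq_of_red (pGen ((a + b) / 2) L) (h5 w.1 w.2)
        rw [this, wval_cert]
      unfold cornerWord at h7
      rw [wval_list_map] at h7
      rw [← h7]
      congr 1
      refine List.map_congr_left fun k _ => ?_
      simp)

theorem kTo_of (e : Fin b ⊕ Fin a) :
    kTo h (PresentedGroup.of e) = lval (pGen ((a + b) / 2) L) (endLetter a b e) := by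
  unfold kTo
  rw [PresentedGroup.toGroup.of]

/-- The generators in `K.Pi`. -/
def kGen (K : KData m a b) (i : ℕ) : K.Pi :=
  if h : 2 * i < b then PresentedGroup.of (Sum.inl ⟨2 * i, h⟩)
  else if h' : 2 * i - b < a then PresentedGroup.of (Sum.inr ⟨2 * i - b, h'⟩) else 1

theorem of_ix (K : KData m a b) (s : Fin b) :
    (PresentedGroup.of (Sum.inl (K.ix s)) : K.Pi) = (PresentedGroup.of (Sum.inl s))⁻¹ := by
  have h : (PresentedGroup.of (Sum.inl s) * PresentedGroup.of (Sum.inl (K.ix s)) : K.Pi) = 1 := by
    have := PresentedGroup.one_of_mem (rels := K.rels)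
      (x := FreeGroup.of (Sum.inl s) * FreeGroup.of (Sum.inl (K.ix s)))
      (Or.inl (Or.inl ⟨s, rfl⟩))
    rw [map_mul] at this
    exact this
  exact (inv_eq_of_mul_eq_one_right h).symm

theorem of_iy (K : KData m a b) (t : Fin a) :
    (PresentedGroup.of (Sum.inr (K.iy t)) : K.Pi) = (PresentedGroup.of (Sum.inr t))⁻¹ := by
  have h : (PresentedGroup.of (Sum.inr t) * PresentedGroup.of (Sum.inr (K.iy t)) : K.Pi) = 1 := by
    have := PresentedGroup.one_of_mem (rels := K.rels)
      (x := FreeGroup.of (Sum.inr t) * FreeGroup.of (Sum.inr (K.iy t)))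
      (Or.inl (Or.inr ⟨t, rfl⟩))
    rw [map_mul] at this
    exact this
  exact (inv_eq_of_mul_eq_one_right h).symm

theorem of_face (K : KData m a b) (w : Fin b × Fin a) :
    (((List.range (2 * m)).map (fun k => (PresentedGroup.of (K.ltr (k + 1) w) : K.Pi))).prod) = 1 := by
  have := PresentedGroup.one_of_mem (rels := K.rels)
    (x := ((List.range (2 * m)).map (fun k => FreeGroup.of (K.ltr (k + 1) w))).prod)
    (Or.inr ⟨w, rfl⟩)
  rw [map_list_prod, List.map_map] at this
  exact this

include h in
theorem lval_kGen (e : Fin b ⊕ Fin a) :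
    lval (kGen K) (endLetter a b e) = PresentedGroup.of e := by
  obtain ⟨h1, h2, h3, h4, h5, h6⟩ := kCheck_iff h
  rcases e with s | t
  · have hs := s.2
    show lval (kGen K) (s : ℕ) = _
    unfold lval
    by_cases hpar : (s : ℕ) % 2 = 0
    · rw [if_pos hpar]
      unfold kGen
      rw [dif_pos (by omega)]
      congr 2
      exact Fin.ext (by show 2 * ((s : ℕ) / 2) = s; omega)
    · rw [if_neg hpar]
      unfold kGen
      rw [dif_pos (by omega), ← of_ix]
      congr 2
      refine Fin.ext ?_
      rw [h3]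
      unfold flp
      rw [if_pos (by show (2 * ((s : ℕ) / 2)) % 2 = 0; omega)]
      show 2 * ((s : ℕ) / 2) + 1 = s
      omega
  · have ht := t.2
    show lval (kGen K) (b + (t : ℕ)) = _
    unfold lval
    by_cases hpar : (b + (t : ℕ)) % 2 = 0
    · rw [if_pos hpar]
      unfold kGen
      rw [dif_neg (by omega), dif_pos (by omega)]
      congr 2
      exact Fin.ext (by show 2 * ((b + (t : ℕ)) / 2) - b = t; omega)
    · rw [if_neg hpar]
      unfold kGen
      rw [dif_neg (by omega), dif_pos (by omega), ← of_iy]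
      congr 2
      refine Fin.ext ?_
      have h7 := h4 ⟨2 * ((b + (t : ℕ)) / 2) - b, by omega⟩
      unfold flp at h7
      rw [if_pos (by show (b + (2 * ((b + (t : ℕ)) / 2) - b)) % 2 = 0; omega)] at h7
      have h8 : b + (2 * ((b + (t : ℕ)) / 2) - b) + 1 = b + t := by omega
      have h9 : b + ((K.iy ⟨2 * ((b + (t : ℕ)) / 2) - b, by omega⟩ : Fin a) : ℕ) =
        b + (2 * ((b + (t : ℕ)) / 2) - b) + 1 := h7
      omega

/-- From the presented group to the fundamental group. -/
def kOf (h : kCheck K L c = true) : PiK ((a + b) / 2) L →* K.Pi :=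
  PresentedGroup.toGroup (rels := relSet ((a + b) / 2) L)
    (f := fun j : Fin ((a + b) / 2) => kGen K j) (by
    obtain ⟨h1, h2, h3, h4, h5, h6⟩ := kCheck_iff h
    rintro r ⟨w, hw, rfl⟩
    obtain ⟨hw1, s, t, hst⟩ := h6 w hw
    have h7 : FreeGroup.lift (fun j : Fin ((a + b) / 2) => kGen K j) (fw ((a + b) / 2) w) =
        wval (kGen K) w := by
      unfold fw
      rw [map_wval]
      refine wval_congr (n := (a + b) / 2) ?_ w hw1
      intro i hi
      simp [gen, hi]
    rw [h7, ← hst]
    unfold cornerWord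
    rw [wval_list_map, ← of_face K (s, t)]
    congr 1
    refine List.map_congr_left fun k _ => ?_
    exact lval_kGen h _)

theorem kOf_pGen (j : ℕ) (hj : j < (a + b) / 2) :
    kOf h (pGen ((a + b) / 2) L j) = kGen K j := by
  have h1 : pGen ((a + b) / 2) L j = PresentedGroup.of ⟨j, hj⟩ := by
    unfold pGen gen
    rw [dif_pos hj]
    rfl
  rw [h1]
  unfold kOf
  rw [PresentedGroup.toGroup.of]

/-- The isomorphism. -/
def kIso (h : kCheck K L c = true) : K.Pi ≃* PiK ((a + b) / 2) L :=
  MonoidHom.toMulEquiv (kTo h) (kOf h)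
    (by
      apply PresentedGroup.ext
      intro e
      show kOf h (kTo h (PresentedGroup.of e)) = PresentedGroup.of e
      rw [kTo_of, ← lval_kGen h e]
      obtain ⟨h1, h2, h3, h4, h5, h6⟩ := kCheck_iff h
      have hlt : endLetter a b e / 2 < (a + b) / 2 := by
        rcases e with s | t
        · have := s.2
          show (s : ℕ) / 2 < _
          omega
        · have := t.2
          show (b + (t : ℕ)) / 2 < _
          omega
      unfold lval
      by_cases hpar : endLetter a b e % 2 = 0
      · rw [if_pos hpar, if_pos hpar, kOf_pGen h _ hlt]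
      · rw [if_neg hpar, if_neg hpar, map_inv, kOf_pGen h _ hlt])
    (by
      apply PresentedGroup.ext
      intro j
      show kTo h (kOf h (PresentedGroup.of j)) = PresentedGroup.of j
      have hj : PresentedGroup.of j = pGen ((a + b) / 2) L j := by
        unfold pGen
        rw [gen_fin]
        rfl
      rw [hj, kOf_pGen h j j.2]
      obtain ⟨h1, h2, h3, h4, h5, h6⟩ := kCheck_iff h
      have hj2 := j.2
      unfold kGen
      by_cases hlt : 2 * (j : ℕ) < b
      · rw [dif_pos hlt, kTo_of]
        show lval _ (2 * (j : ℕ)) = _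
        unfold lval
        rw [if_pos (by omega)]
        congr 1
        omega
      · rw [dif_neg hlt, dif_pos (by omega), kTo_of]
        show lval _ (b + (2 * (j : ℕ) - b)) = _
        unfold lval
        rw [if_pos (by omega)]
        congr 1
        omega)

end

end Pool.Agent.QFC
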