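import Mathlib
import Pool.Agent.QFC.KIso
import Pool.Agent.QFC.Hex

namespace Pool.Agent.QFC

open _root_.QFC

/-- the one-vertex complex -/
def hexK : KData 3 4 6 where
  ix := ![1, 0, 3, 2, 5, 4]
  iy := ![1, 0, 3, 2]
  al := ![![3, 1, 2, 0],
    ![3, 1, 2, 0],
    ![1, 3, 0, 2],
    ![2, 0, 3, 1],
    ![0, 3, 2, 1],
    ![0, 3, 2, 1]]
  be := ![![2, 5, 0, 0],
    ![5, 2, 4, 4],
    ![1, 0, 2, 2],
    ![4, 4, 5, 5],
    ![3, 3, 1, 1],
    ![0, 1, 3, 3]]
  r1_inv := by decide +kernel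
  r2_inv := by decide +kernel
  face := by decide +kernel

/-- certificates -/
def hexKC : List (List (List ℕ × ℕ × Bool)) :=
  [[([], 0, true)],
   [([], 1, true)],
   [([], 2, true)],
   [([0, 6, 5, 9, 1], 2, false)],
   [([1, 9], 2, true)],
   [([1], 1, false)],
   [([1], 2, false)],
   [([1], 0, false)],
   [([2, 7, 4, 6], 1, true)],
   [([2, 9, 5, 8, 1], 0, false)],
   [([], 3, true)],
   [([2, 8, 5, 7, 3], 3, false)],
   [([3], 3, false)],
   [([3, 6, 1], 1, false)],
   [([3, 9], 3, true)],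
   [([3, 7], 0, true)],
   [([4, 6], 1, true)],
   [([4, 9, 3, 9], 3, true)],
   [([4, 8, 3, 7], 0, true)],
   [([4, 7, 1, 9], 2, true)],
   [([5, 6, 3, 6, 1], 1, false)],
   [([5, 9, 1], 2, false)],
   [([5, 8, 1], 0, false)],
   [([5, 7, 3], 3, false)]]

theorem hex_kCheck : kCheck hexK hexL (fun i => hexKC.getD i []) = true := by decide +kernel

/-- the mapping torus is the fundamental group of the complex -/
def hexIso : MappingTorus (hexData.aut hex_check) ≃* hexK.Pi :=
  (IsoData.iso hex_check).trans (kIso hex_kCheck).symm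

end Pool.Agent.QFC
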