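import Pool.Agent.QFC.E3

/-! # J1 : the mass of bad positions is bounded -/

open scoped Classical

namespace QFC

variable {n₁ n₂ : ℕ} [NeZero n₁] [NeZero n₂] {C₁ C₂ : Type} (B₁ : Bldg n₁ C₁) (B₂ : Bldg n₂ C₂)

/-- The defect at `g` depends only on the apartment near `G g`: (`push_local`; a chamber `c''` of a panel of `g` has `dist g c'' ≤ 1`, the relevant `c` have `dist (F c) c'' ≤ R`, so `dist (F c) g ≤ R + 1`, `dist (G g) c ≤ K (R + 1) + 2 K`.) -/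
theorem def_local {F : C₁ → C₂} {G : C₂ → C₁} {K R : ℕ} (hp : Bldg.Pair B₁ B₂ F G K) (φ : BCM B₁ B₂ F R) (x₂ g : C₂) {A A' : Set C₁}
    (h : ∀ c, B₁.dist (G g) c ≤ K * (R + 1) + 2 * K → (c ∈ A ↔ c ∈ A')) :
    (∃ j, j ∉ B₂.D (B₂.pt x₂) g ∧ ¬ B₂.NoDef (φ.push A) j g) ↔ (∃ j, j ∉ B₂.D (B₂.pt x₂) g ∧ ¬ B₂.NoDef (φ.push A') j g) := by
  have key : ∀ j, φ.push A ∩ B₂.panel j g = φ.push A' ∩ B₂.panel j g := by
    intro j
    ext d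
    rw [Set.mem_inter_iff, Set.mem_inter_iff]
    refine and_congr_left fun hd => ?_
    refine φ.push_local fun c hc => h c ?_
    refine hp.near ?_
    have h1 := B₂.dist_triangle (F c) d g
    have h2 := B₂.dist_le_one (B₂.adj_symm (show B₂.adj j g d from hd))
    omega
  have key2 : ∀ j, B₂.NoDef (φ.push A) j g ↔ B₂.NoDef (φ.push A') j g := by
    intro j
    unfold Bldg.NoDef
    rw [key j]
  exact exists_congr fun j => and_congr_right fun _ => not_congr (key2 j)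

/-- One bad position gives a probability: if some admissible `t` has a point `e ∈ Ap x₁ t` with `dist c e ≤ N`, a defect at `g`, `dist (G g) c ≤ L`, then `δ r₁ c ≤ pr (DefAt g)` (`pr_local_lower` at `e` with `ρ = N + L + K (R + 1) + 2 K`, `def_local`; `r₁ e` and `r₁ c` are comparable: `exists_r_ratio`). -/
theorem exists_pr_def_lower {F : C₁ → C₂} {G : C₂ → C₁} {K R : ℕ} (hp : Bldg.Pair B₁ B₂ F G K) (φ : BCM B₁ B₂ F R) (N L : ℕ) :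
    ∃ δ : ℝ, 0 < δ ∧ ∀ (x₁ c : C₁) (x₂ g : C₂) (s₀ t : B₁.Wall → B₁.Sheet), B₁.Adm x₁ s₀ → B₁.Adm x₁ t →
      (B₁.Ap x₁ t ∩ B₁.ball c N).Nonempty → B₁.dist (G g) c ≤ L → DefAt B₁ B₂ φ x₁ x₂ g t →
      ∃ 𝒲₀ : Finset B₁.Wall, ∀ 𝒲, 𝒲₀ ⊆ 𝒲 → δ * B₁.r x₁ c ≤ B₁.pr x₁ s₀ 𝒲 (fun s => DefAt B₁ B₂ φ x₁ x₂ g s) := by
  obtain ⟨δ₀, hδ₀, hloc⟩ := B₁.pr_local_lower (N + L + (K * (R + 1) + 2 * K))
  obtain ⟨Q, hQ, hratio⟩ := B₁.exists_r_ratio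
  have hQN : 0 < Q ^ N := pow_pos (lt_of_lt_of_le one_pos hQ) N
  refine ⟨δ₀ / Q ^ N, div_pos hδ₀ hQN, ?_⟩
  intro x₁ c x₂ g s₀ t hs₀ ht hne hL hdef
  obtain ⟨e, he, hce⟩ := hne
  have hce' : B₁.dist c e ≤ N := hce
  have hfin : (B₁.Sep x₁ e ∪ B₁.Wb e (N + L + (K * (R + 1) + 2 * K))).Finite :=
    (B₁.Sep_finite x₁ e).union (B₁.Wb_finite e _)
  refine ⟨hfin.toFinset, fun 𝒲 h𝒲 => ?_⟩
  have hsub : B₁.Sep x₁ e ∪ B₁.Wb e (N + L + (K * (R + 1) + 2 * K)) ⊆ ↑𝒲 := by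
    intro T hT
    exact Finset.mem_coe.2 (h𝒲 (hfin.mem_toFinset.2 hT))
  have h1 := hloc x₁ e s₀ t 𝒲
    (fun A => ∃ j, j ∉ B₂.D (B₂.pt x₂) g ∧ ¬ B₂.NoDef (φ.push A) j g) hs₀ ht hsub ?_ hdef
  · have h2 : B₁.r x₁ c ≤ Q ^ N * B₁.r x₁ e :=
      (hratio x₁ c e).trans (mul_le_mul_of_nonneg_right (pow_le_pow_right₀ hQ hce')
        (Bldg.r_pos B₁ x₁ e).le)
    have h3 : δ₀ / Q ^ N * B₁.r x₁ c ≤ δ₀ * B₁.r x₁ e := by
      calc δ₀ / Q ^ N * B₁.r x₁ c ≤ δ₀ / Q ^ N * (Q ^ N * B₁.r x₁ e) :=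
            mul_le_mul_of_nonneg_left h2 (div_pos hδ₀ hQN).le
        _ = δ₀ * B₁.r x₁ e := by
            rw [← mul_assoc, div_mul_cancel₀ _ hQN.ne']
    exact h3.trans h1
  · intro A A' hAA
    refine def_local B₁ B₂ hp φ x₂ g ?_
    intro c' hc'
    have hmem : c' ∈ B₁.ball e (N + L + (K * (R + 1) + 2 * K)) := by
      show B₁.dist e c' ≤ _
      have h4 := B₁.dist_triangle e c c'
      have h5 := B₁.dist_triangle c (G g) c'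
      rw [B₁.dist_comm e c] at h4
      rw [B₁.dist_comm c (G g)] at h5
      omega
    constructor
    · intro hA
      have h6 : c' ∈ A ∩ B₁.ball e (N + L + (K * (R + 1) + 2 * K)) := ⟨hA, hmem⟩
      rw [hAA] at h6
      exact h6.1
    · intro hA
      have h6 : c' ∈ A' ∩ B₁.ball e (N + L + (K * (R + 1) + 2 * K)) := ⟨hA, hmem⟩
      rw [← hAA] at h6
      exact h6.1

end QFC
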