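import Pool.Agent.QFC.J1

/-! # J1b : the mass of bad positions is bounded -/

open scoped Classical

namespace QFC

variable {n₁ n₂ : ℕ} [NeZero n₁] [NeZero n₂] {C₁ C₂ : Type} (B₁ : Bldg n₁ C₁) (B₂ : Bldg n₂ C₂)

/-- Let `c'` be bad: `g ∈ ball c' N` with `DefAt g t`, `Ap x₁ t` meets `ball (G c') N`; `dist (G g) (G c') ≤ K N + K =: L`. `exists_pr_def_lower`: `r₂ (c') r₁ (G c') ≤ Q₂ ^ N r₂ (g) pr (DefAt g) / δ` (for any large `𝒲`; choose one `𝒲` good for level `I + N + 1` and containing the finitely many `𝒲₀` for `c' ∈ ball x₂ I`: `exists_good`). Sum over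
`c' ∈ ball x₂ I`: each `g ∈ ball x₂ (I + N)` is used by at most `|ball g N|` positions `c'` (`exists_ball_card`), so the sum is `≤ const * ∑ g ∈ ball x₂ (I + N), r₂ g * pr (DefAt g) ≤ const * b` (`exists_defect_sum`). -/
theorem exists_bad_bound (w₁ : Weights B₁.q) (w₂ : Weights B₂.q) {F : C₁ → C₂} {G : C₂ → C₁} {K R : ℕ}
    (hp : Bldg.Pair B₁ B₂ F G K) (φ : BCM B₁ B₂ F R) (x₁ : C₁) (x₂ : C₂) (N : ℕ) :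
    ∃ b : ℝ, ∀ (I : ℕ), ∑ c' ∈ B₂.ballF x₂ I,
      (if Bad B₁ B₂ φ x₁ x₂ N (G c') c' then B₂.r x₂ c' * B₁.r x₁ (G c') else 0) ≤ b := by
  obtain ⟨δ, hδ, hlow⟩ := exists_pr_def_lower B₁ B₂ hp φ N (K * N + K)
  obtain ⟨Q, hQ, hr⟩ := B₂.exists_r_ratio
  obtain ⟨n₀, hcard⟩ := B₂.exists_ball_card N
  obtain ⟨b, hb⟩ := exists_defect_sum B₁ B₂ w₁ w₂ hp φ x₁ x₂
  obtain ⟨s₀, hs₀⟩ := B₁.exists_Adm x₁
  refine ⟨Q ^ N / δ * (n₀ * b), fun I => ?_⟩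
  have hQ0 : 0 ≤ Q ^ N / δ := div_nonneg (pow_nonneg (by linarith) _) hδ.le
  -- choice of the finite sets of walls
  have h𝒲₀ : ∀ c' : C₂, ∃ 𝒲₀ : Finset B₁.Wall, Bad B₁ B₂ φ x₁ x₂ N (G c') c' →
      ∃ g ∈ B₂.ball c' N, ∀ 𝒲, 𝒲₀ ⊆ 𝒲 → δ * B₁.r x₁ (G c') ≤ B₁.pr x₁ s₀ 𝒲 (fun s => DefAt B₁ B₂ φ x₁ x₂ g s) := by
    intro c'
    by_cases hB : Bad B₁ B₂ φ x₁ x₂ N (G c') c'
    · obtain ⟨t, ht, hne, g, hg, hdef⟩ := hB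
      have hd : B₁.dist (G g) (G c') ≤ K * N + K := by
        have h1 := hp.lipG g c'
        have h2 : B₂.dist g c' ≤ N := by rw [B₂.dist_comm]; exact hg
        have h3 := Nat.mul_le_mul_left K h2
        omega
      obtain ⟨𝒲₀, h𝒲₀⟩ := hlow x₁ (G c') x₂ g s₀ t hs₀ ht hne hd hdef
      exact ⟨𝒲₀, fun _ => ⟨g, hg, h𝒲₀⟩⟩
    · exact ⟨∅, fun h => absurd h hB⟩
  choose 𝒲₀ h𝒲₀ using h𝒲₀
  obtain ⟨𝒲, h𝒲, hgood⟩ := exists_good B₁ B₂ hp R x₁ x₂ (I + N + 1) ((B₂.ballF x₂ I).biUnion 𝒲₀)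
  have hfn : ∀ g, 0 ≤ B₂.r x₂ g * B₁.pr x₁ s₀ 𝒲 (fun s => DefAt B₁ B₂ φ x₁ x₂ g s) := fun g =>
    mul_nonneg (B₂.r_pos x₂ g).le (B₁.pr_nonneg 𝒲 _)
  have hterm : ∀ c' ∈ B₂.ballF x₂ I,
      (if Bad B₁ B₂ φ x₁ x₂ N (G c') c' then B₂.r x₂ c' * B₁.r x₁ (G c') else 0) ≤
        Q ^ N / δ * ∑ g ∈ B₂.ballF c' N, B₂.r x₂ g * B₁.pr x₁ s₀ 𝒲 (fun s => DefAt B₁ B₂ φ x₁ x₂ g s) := by
    intro c' hc'
    have hsum : 0 ≤ ∑ g ∈ B₂.ballF c' N, B₂.r x₂ g * B₁.pr x₁ s₀ 𝒲 (fun s => DefAt B₁ B₂ φ x₁ x₂ g s) :=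
      Finset.sum_nonneg (fun g _ => hfn g)
    by_cases hB : Bad B₁ B₂ φ x₁ x₂ N (G c') c'
    · rw [if_pos hB]
      obtain ⟨g, hg, hpr⟩ := h𝒲₀ c' hB
      have hpr' := hpr 𝒲 ((Finset.subset_biUnion_of_mem 𝒲₀ hc').trans h𝒲)
      have hgd : B₂.dist c' g ≤ N := hg
      have h1 : B₂.r x₂ c' ≤ Q ^ N * B₂.r x₂ g :=
        (hr x₂ c' g).trans (mul_le_mul_of_nonneg_right (pow_le_pow_right₀ hQ hgd) (B₂.r_pos x₂ g).le)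
      have h2 : B₁.r x₁ (G c') ≤ B₁.pr x₁ s₀ 𝒲 (fun s => DefAt B₁ B₂ φ x₁ x₂ g s) / δ := by
        rw [le_div_iff₀ hδ, mul_comm]; exact hpr'
      have h3 : B₂.r x₂ g * B₁.pr x₁ s₀ 𝒲 (fun s => DefAt B₁ B₂ φ x₁ x₂ g s) ≤
          ∑ g ∈ B₂.ballF c' N, B₂.r x₂ g * B₁.pr x₁ s₀ 𝒲 (fun s => DefAt B₁ B₂ φ x₁ x₂ g s) :=
        Finset.single_le_sum (f := fun g => B₂.r x₂ g * B₁.pr x₁ s₀ 𝒲 (fun s => DefAt B₁ B₂ φ x₁ x₂ g s))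
          (fun g _ => hfn g) (B₂.mem_ballF.2 hgd)
      calc B₂.r x₂ c' * B₁.r x₁ (G c')
          ≤ (Q ^ N * B₂.r x₂ g) * (B₁.pr x₁ s₀ 𝒲 (fun s => DefAt B₁ B₂ φ x₁ x₂ g s) / δ) :=
            mul_le_mul h1 h2 (B₁.r_pos x₁ _).le (mul_nonneg (pow_nonneg (by linarith) _) (B₂.r_pos x₂ g).le)
        _ = Q ^ N / δ * (B₂.r x₂ g * B₁.pr x₁ s₀ 𝒲 (fun s => DefAt B₁ B₂ φ x₁ x₂ g s)) := by ring
        _ ≤ _ := mul_le_mul_of_nonneg_left h3 hQ0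
    · rw [if_neg hB]
      exact mul_nonneg hQ0 hsum
  have hsum2 : ∑ c' ∈ B₂.ballF x₂ I, ∑ g ∈ B₂.ballF c' N,
      B₂.r x₂ g * B₁.pr x₁ s₀ 𝒲 (fun s => DefAt B₁ B₂ φ x₁ x₂ g s) ≤ n₀ * b := by
    rw [Finset.sum_comm' (s' := fun g => (B₂.ballF x₂ I).filter (fun c' => c' ∈ B₂.ballF g N))
      (t' := B₂.ballF x₂ (I + N))]
    · have h5 : ∀ g ∈ B₂.ballF x₂ (I + N), ∑ c' ∈ (B₂.ballF x₂ I).filter (fun c' => c' ∈ B₂.ballF g N),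
          B₂.r x₂ g * B₁.pr x₁ s₀ 𝒲 (fun s => DefAt B₁ B₂ φ x₁ x₂ g s) ≤
          n₀ * (B₂.r x₂ g * B₁.pr x₁ s₀ 𝒲 (fun s => DefAt B₁ B₂ φ x₁ x₂ g s)) := by
        intro g _
        rw [Finset.sum_const, nsmul_eq_mul]
        apply mul_le_mul_of_nonneg_right _ (hfn g)
        have h6 : ((B₂.ballF x₂ I).filter (fun c' => c' ∈ B₂.ballF g N)).card ≤ (B₂.ballF g N).card :=
          Finset.card_le_card (fun c' hc' => (Finset.mem_filter.1 hc').2)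
        exact_mod_cast h6.trans (hcard g)
      refine (Finset.sum_le_sum h5).trans ?_
      rw [← Finset.mul_sum]
      exact mul_le_mul_of_nonneg_left (hb (I + N) 𝒲 s₀ hs₀ hgood) (Nat.cast_nonneg _)
    · intro c' g
      simp only [Finset.mem_filter, B₂.mem_ballF]
      constructor
      · rintro ⟨h1, h2⟩
        refine ⟨⟨h1, by rw [B₂.dist_comm]; exact h2⟩, ?_⟩
        have := B₂.dist_triangle x₂ c' g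
        omega
      · rintro ⟨⟨h1, h2⟩, _⟩
        exact ⟨h1, by rw [B₂.dist_comm]; exact h2⟩
  calc _ ≤ ∑ c' ∈ B₂.ballF x₂ I, Q ^ N / δ * ∑ g ∈ B₂.ballF c' N,
      B₂.r x₂ g * B₁.pr x₁ s₀ 𝒲 (fun s => DefAt B₁ B₂ φ x₁ x₂ g s) := Finset.sum_le_sum hterm
    _ = Q ^ N / δ * ∑ c' ∈ B₂.ballF x₂ I, ∑ g ∈ B₂.ballF c' N,
      B₂.r x₂ g * B₁.pr x₁ s₀ 𝒲 (fun s => DefAt B₁ B₂ φ x₁ x₂ g s) := by rw [← Finset.mul_sum]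
    _ ≤ _ := mul_le_mul_of_nonneg_left hsum2 hQ0


end QFC
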