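import Pool.Agent.QFC.H2

/-! # J3 : limits of chain maps along an ultrafilter -/

open scoped Classical

namespace QFC

/-- a function with finite range is eventually constant along an ultrafilter (`Ultrafilter.finite_biUnion_mem_iff` or `Ultrafilter.eventually_exists_mem_iff`) -/
theorem exists_ultra_const {X : Type} (𝒰 : Ultrafilter ℕ) (f : ℕ → X) (hf : (Set.range f).Finite) :
    ∃ x, ∀ᶠ N in (𝒰 : Filter ℕ), f N = x := by
  have h1 : ∀ᶠ N in (𝒰 : Filter ℕ), ∃ x ∈ Set.range f, f N = x :=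
    Filter.Eventually.of_forall (fun N => ⟨f N, ⟨N, rfl⟩, rfl⟩)
  obtain ⟨x, -, hx⟩ := (Ultrafilter.eventually_exists_mem_iff hf).1 h1
  exact ⟨x, hx⟩

/-- chains mod 2 supported in a finite set are finitely many -/
theorem j3_finite {X : Type} {S : Set X} (hS : S.Finite) :
    {y : X →₀ ZMod 2 | ∀ a, y a ≠ 0 → a ∈ S}.Finite := by
  refine Set.Finite.of_finite_image (f := Finsupp.support) ?_ ?_
  · refine (hS.toFinset.powerset : Finset (Finset X)).finite_toSet.subset ?_
    rintro _ ⟨y, hy, rfl⟩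
    rw [Finset.mem_coe, Finset.mem_powerset]
    intro a ha
    rw [Set.Finite.mem_toFinset]
    exact hy a (Finsupp.mem_support_iff.1 ha)
  · intro y _ y' _ h
    have h2 : ∀ a : ZMod 2, a ≠ 0 → a = 1 := by decide
    have h : y.support = y'.support := h
    ext1 a
    by_cases ha : a ∈ y.support
    · have h1 : a ∈ y'.support := h ▸ ha
      rw [h2 _ (Finsupp.mem_support_iff.1 ha), h2 _ (Finsupp.mem_support_iff.1 h1)]
    · have h1 : a ∉ y'.support := h ▸ ha
      rw [Finsupp.notMem_support_iff.1 ha, Finsupp.notMem_support_iff.1 h1]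

namespace Bldg

variable {n : ℕ} {C : Type} (B : Bldg n C)

/-- chains mod 2 supported in a fixed finite set are finitely many -/
theorem finite_near2 (x : C) (R : ℕ) : {y : C →₀ ZMod 2 | B.Near2 y x R}.Finite :=
  j3_finite (B.ball_finite x R)

theorem finite_near1 (x : C) (R : ℕ) : {y : B.Pnl →₀ ZMod 2 | B.Near1 y x R}.Finite := by
  have : NeZero n := ⟨by have := B.hn; omega⟩
  have h1 : {p : B.Pnl | ∃ c, B.mkP p.1 c = p ∧ B.dist x c ≤ R}.Finite := by
    refine ((Set.finite_univ (α := ZMod n)).prod (B.ball_finite x R)).image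
      (fun t : ZMod n × C => B.mkP t.1 t.2) |>.subset ?_
    rintro p ⟨c, hc, hd⟩
    exact ⟨(p.1, c), ⟨Set.mem_univ _, hd⟩, hc⟩
  exact j3_finite h1

theorem finite_near0 (x : C) (R : ℕ) : {y : B.Vtx →₀ ZMod 2 | B.Near0 y x R}.Finite := by
  have : NeZero n := ⟨by have := B.hn; omega⟩
  have h1 : {p : B.Vtx | ∃ c, B.mkV p.1 c = p ∧ B.dist x c ≤ R}.Finite := by
    refine ((Set.finite_univ (α := ZMod n)).prod (B.ball_finite x R)).image
      (fun t : ZMod n × C => B.mkV t.1 t.2) |>.subset ?_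
    rintro p ⟨c, hc, hd⟩
    exact ⟨(p.1, c), ⟨Set.mem_univ _, hd⟩, hc⟩
  exact j3_finite h1

end Bldg

/-- a pointwise limit of linear maps along an ultrafilter -/
theorem j3_lim {X Y : Type} (𝒰 : Ultrafilter ℕ) (f : ℕ → (X →₀ ZMod 2) →ₗ[ZMod 2] (Y →₀ ZMod 2))
    (hf : ∀ x, (Set.range fun N => f N (Finsupp.single x 1)).Finite) :
    ∃ g : (X →₀ ZMod 2) →ₗ[ZMod 2] (Y →₀ ZMod 2), ∀ y, ∀ᶠ N in (𝒰 : Filter ℕ), f N y = g y := by
  choose L hL using fun x => exists_ultra_const 𝒰 _ (hf x)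
  refine ⟨Finsupp.linearCombination (ZMod 2) L, ?_⟩
  intro y
  induction y using Finsupp.induction_linear with
  | zero => exact Filter.Eventually.of_forall (fun N => by rw [map_zero, map_zero])
  | add a b ha hb =>
    filter_upwards [ha, hb] with N h1 h2
    rw [map_add, map_add, h1, h2]
  | single x a =>
    filter_upwards [hL x] with N h1
    have h2 : (Finsupp.single x a : X →₀ ZMod 2) = a • Finsupp.single x 1 := by
      rw [Finsupp.smul_single, smul_eq_mul, mul_one]
    rw [h2, map_smul, map_smul, h1, Finsupp.linearCombination_single, one_smul]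

variable {n₁ n₂ : ℕ} [NeZero n₁] [NeZero n₂] {C₁ C₂ : Type} (B₁ : Bldg n₁ C₁) (B₂ : Bldg n₂ C₂)

/-- For each basis element (`c`, resp. `mkP i c`, resp. `mkV i c`) the image under `φ N` takes finitely many values (`finite_near*` for the finitely many values of `F N c`), so it is eventually constant (`exists_ultra_const`); extend the limits linearly. `comm2` on `single c 1`: finitely many eventual equalities hold simultaneously for some `N`
(`Filter.Eventually.and`, `Filter.eventually_all`), and `𝒰` is not trivial (`Eventually.exists`); same for the other identities. -/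
theorem exists_limit (𝒰 : Ultrafilter ℕ) {R : ℕ} (F : ℕ → C₁ → C₂) (φ : ∀ N, BCM B₁ B₂ (F N) R)
    (hb : ∀ x, (Set.range fun N => F N x).Finite) :
    ∃ F' : C₁ → C₂, (∀ x, ∀ᶠ N in (𝒰 : Filter ℕ), F N x = F' x) ∧ ∃ φ' : BCM B₁ B₂ F' R,
      ∀ c, ∀ᶠ N in (𝒰 : Filter ℕ), (φ N).φ2 (Finsupp.single c 1) = φ'.φ2 (Finsupp.single c 1) := by
  choose F' hF' using fun x => exists_ultra_const 𝒰 _ (hb x)
  have f2 : ∀ x, (Set.range fun N => (φ N).φ2 (Finsupp.single x 1)).Finite := by
    intro x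
    refine ((hb x).biUnion (t := fun d => {y | B₂.Near2 y d R})
      (fun d _ => B₂.finite_near2 d R)).subset ?_
    rintro _ ⟨N, rfl⟩
    exact Set.mem_biUnion (x := F N x) ⟨N, rfl⟩ ((φ N).near2 x)
  have f1 : ∀ p, (Set.range fun N => (φ N).φ1 (Finsupp.single p 1)).Finite := by
    intro p
    refine ((hb p.2.out).biUnion (t := fun d => {y | B₂.Near1 y d R})
      (fun d _ => B₂.finite_near1 d R)).subset ?_
    rintro _ ⟨N, rfl⟩
    refine Set.mem_biUnion (x := F N p.2.out) ⟨N, rfl⟩ ?_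
    have := (φ N).near1 p.1 p.2.out
    rw [B₁.mkP_out] at this
    exact this
  have f0 : ∀ p, (Set.range fun N => (φ N).φ0 (Finsupp.single p 1)).Finite := by
    intro p
    refine ((hb p.2.out).biUnion (t := fun d => {y | B₂.Near0 y d R})
      (fun d _ => B₂.finite_near0 d R)).subset ?_
    rintro _ ⟨N, rfl⟩
    refine Set.mem_biUnion (x := F N p.2.out) ⟨N, rfl⟩ ?_
    have := (φ N).near0 p.1 p.2.out
    rw [B₁.mkV_out] at this
    exact this
  obtain ⟨g2, hg2⟩ := j3_lim 𝒰 (fun N => (φ N).φ2) f2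
  obtain ⟨g1, hg1⟩ := j3_lim 𝒰 (fun N => (φ N).φ1) f1
  obtain ⟨g0, hg0⟩ := j3_lim 𝒰 (fun N => (φ N).φ0) f0
  refine ⟨F', hF', ⟨g2, g1, g0, ?_, ?_, ?_, ?_, ?_, ?_⟩, fun c => hg2 _⟩
  · intro y
    obtain ⟨N, h1, h2⟩ := ((hg2 y).and (hg1 (B₁.d2 y))).exists
    rw [← h1, ← h2]
    exact (φ N).comm2 y
  · intro y
    obtain ⟨N, h1, h2⟩ := ((hg1 y).and (hg0 (B₁.d1 y))).exists
    rw [← h1, ← h2]
    exact (φ N).comm1 y
  · intro y
    obtain ⟨N, h1⟩ := (hg0 y).exists
    rw [← h1]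
    exact (φ N).aug0 y
  · intro c
    obtain ⟨N, h1, h2⟩ := ((hg2 (Finsupp.single c 1)).and (hF' c)).exists
    rw [← h1, ← h2]
    exact (φ N).near2 c
  · intro i c
    obtain ⟨N, h1, h2⟩ := ((hg1 (Finsupp.single (B₁.mkP i c) 1)).and (hF' c)).exists
    rw [← h1, ← h2]
    exact (φ N).near1 i c
  · intro i c
    obtain ⟨N, h1, h2⟩ := ((hg0 (Finsupp.single (B₁.mkV i c) 1)).and (hF' c)).exists
    rw [← h1, ← h2]
    exact (φ N).near0 i c

end QFC
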