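import Pool.Agent.QFC.H2
import Pool.Agent.QFC.K01
import Pool.Agent.QFC.Pr

/-! # J4 : left translations -/

open scoped Classical

namespace QFC

section
variable {n : ℕ} [NeZero n] {Γ : Type} [Group Γ] {B : Bldg n Γ} (hL : LInv B)
include hL

theorem LInv.adj_iff (h : Γ) (i : ZMod n) (c d : Γ) : B.adj i (h * c) (h * d) ↔ B.adj i c d := by
  constructor
  · intro hcd
    have h1 := hL h⁻¹ i _ _ hcd
    rwa [inv_mul_cancel_left, inv_mul_cancel_left] at h1
  · exact hL h i c d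

theorem LInv.j4_dist_le (h c d : Γ) : B.dist (h * c) (h * d) ≤ B.dist c d := by
  let f : B.graph →g B.graph :=
    { toFun := fun c => h * c
      map_rel' := fun {a b} hab => ⟨fun e => hab.1 (mul_left_cancel e),
        hab.2.imp fun i hi => hL h i a b hi⟩ }
  obtain ⟨p, hp⟩ := (B.preconnected c d).exists_walk_length_eq_dist
  have h1 : B.graph.dist (h * c) (h * d) ≤ (p.map f).length := SimpleGraph.dist_le (p.map f)
  rw [SimpleGraph.Walk.length_map, hp] at h1
  exact h1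

/-- a translation is an isomorphism of the gallery graph -/
theorem LInv.dist (h c d : Γ) : B.dist (h * c) (h * d) = B.dist c d := by
  refine le_antisymm (hL.j4_dist_le h c d) ?_
  have h1 := hL.j4_dist_le h⁻¹ (h * c) (h * d)
  rwa [inv_mul_cancel_left, inv_mul_cancel_left] at h1

theorem LInv.ball (h c : Γ) (r : ℕ) : (fun y => h * y) '' B.ball c r = B.ball (h * c) r := by
  ext y
  constructor
  · rintro ⟨y, hy, rfl⟩
    show B.dist (h * c) (h * y) ≤ r
    rw [hL.dist]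
    exact hy
  · intro hy
    refine ⟨h⁻¹ * y, ?_, mul_inv_cancel_left h y⟩
    show B.dist c (h⁻¹ * y) ≤ r
    rw [← hL.dist h, mul_inv_cancel_left]
    exact hy

omit hL [NeZero n] in
theorem j4_mem_D (x c : Γ) (i : ZMod n) :
    i ∈ B.D (B.pt x) c ↔ ∃ d, B.adj i c d ∧ B.dist x d < B.dist x c := by
  constructor
  · intro hi
    obtain ⟨g, hg, hg2⟩ := B.exists_gate_roller (B.pt_roller x) i c
    have hne : g ≠ c := by
      rintro rfl
      exact hg2 hi
    have h1 := (B.dist_child (B.adj_symm hg) hne hg2).1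
    exact ⟨g, hg, by omega⟩
  · rintro ⟨d, hd, hlt⟩
    by_contra hi
    have hne : c ≠ d := by
      rintro rfl
      exact lt_irrefl _ hlt
    have h1 := (B.dist_child hd hne hi).1
    omega

/-- `i ∈ D (pt x) c ↔ ∃ d, adj i c d ∧ dist x d < dist x c` (`dist_child`, `exists_gate_roller`), which is invariant -/
theorem LInv.D_pt (h x c : Γ) : B.D (B.pt (h * x)) (h * c) = B.D (B.pt x) c := by
  ext i
  rw [j4_mem_D, j4_mem_D]
  constructor
  · rintro ⟨d, hd, hlt⟩
    refine ⟨h⁻¹ * d, ?_, ?_⟩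
    · rw [← hL.adj_iff h, mul_inv_cancel_left]
      exact hd
    · rw [← hL.dist h, ← hL.dist h x c, mul_inv_cancel_left]
      exact hlt
  · rintro ⟨d, hd, hlt⟩
    refine ⟨h * d, (hL.adj_iff h i c d).2 hd, ?_⟩
    rw [hL.dist, hL.dist]
    exact hlt

theorem LInv.j4_image (h : Γ) (S : Set Γ) (i : ZMod n) (g : Γ) :
    ((fun c => h * c) '' S) ∩ B.panel i (h * g) = (fun c => h * c) '' (S ∩ B.panel i g) := by
  ext y
  constructor
  · rintro ⟨⟨z, hz, rfl⟩, hy⟩
    exact ⟨z, ⟨hz, (hL.adj_iff h i g z).1 hy⟩, rfl⟩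
  · rintro ⟨z, ⟨hz, hz2⟩, rfl⟩
    exact ⟨⟨z, hz, rfl⟩, (hL.adj_iff h i g z).2 hz2⟩

theorem LInv.NoDef (h : Γ) (S : Set Γ) (i : ZMod n) (g : Γ) :
    B.NoDef ((fun c => h * c) '' S) i (h * g) ↔ B.NoDef S i g := by
  have hinj : Function.Injective (fun S : Set Γ => (fun c => h * c) '' S) :=
    Set.image_injective.2 (mul_right_injective h)
  unfold Bldg.NoDef
  rw [hL.j4_image, Set.image_eq_empty]
  constructor
  · rintro (h1 | ⟨d, hd, h1⟩)
    · exact Or.inl h1
    · refine Or.inr ⟨h⁻¹ * d, ?_, ?_⟩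
      · rintro rfl
        exact hd (mul_inv_cancel_left h d).symm
      · apply hinj
        simp only []
        rw [h1, Set.image_pair, mul_inv_cancel_left]
  · rintro (h1 | ⟨d, hd, h1⟩)
    · exact Or.inl h1
    · refine Or.inr ⟨h * d, fun e => hd (mul_left_cancel e), ?_⟩
      rw [h1, Set.image_pair]

theorem LInv.Apt (h x : Γ) (S : Set Γ) : ((fun c => h * c) '' S) ∈ B.Apt (B.pt (h * x)) ↔ S ∈ B.Apt (B.pt x) := by
  constructor
  · intro h1 i g hg
    rw [← hL.NoDef h]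
    apply h1
    rw [hL.D_pt]
    exact hg
  · intro h1 i g hg
    have e : g = h * (h⁻¹ * g) := (mul_inv_cancel_left h g).symm
    rw [e] at hg ⊢
    rw [hL.D_pt] at hg
    rw [hL.NoDef]
    exact h1 i _ hg

/-- translation of chambers, panels (`Quotient.map`), vertices (`Quotient.map`; `EqvGen` is preserved) -/
theorem LInv.exists_bcm (h : Γ) : ∃ χ : BCM B B (fun c => h * c) 0,
    ∀ c, χ.φ2 (Finsupp.single c 1) = Finsupp.single (h * c) 1 := by
  let hP : B.Pnl → B.Pnl := fun p => B.mkP p.1 (h * p.2.out)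
  let hV : B.Vtx → B.Vtx := fun v => B.mkV v.1 (h * v.2.out)
  have hP1 : ∀ i c, hP (B.mkP i c) = B.mkP i (h * c) := by
    intro i c
    have h1 : B.mkP i (B.mkP i c).2.out = B.mkP i c := B.mkP_out (B.mkP i c)
    exact B.mkP_eq (hL h i _ _ (B.mkP_eq_iff.1 h1).2)
  have hV1 : ∀ i c, hV (B.mkV i c) = B.mkV i (h * c) := by
    intro i c
    have h1 : B.mkV i (B.mkV i c).2.out = B.mkV i c := B.mkV_out (B.mkV i c)
    obtain ⟨e, he1, he2⟩ := B.mkV_eq_iff.1 h1
    exact (B.mkV_eq_left (hL h i _ _ he1)).trans (B.mkV_eq_right (hL h (i + 1) _ _ he2))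
  let φ2 : (Γ →₀ ZMod 2) →ₗ[ZMod 2] (Γ →₀ ZMod 2) :=
    Finsupp.lmapDomain (ZMod 2) (ZMod 2) (fun c => h * c)
  let φ1 : (B.Pnl →₀ ZMod 2) →ₗ[ZMod 2] (B.Pnl →₀ ZMod 2) :=
    Finsupp.lmapDomain (ZMod 2) (ZMod 2) hP
  let φ0 : (B.Vtx →₀ ZMod 2) →ₗ[ZMod 2] (B.Vtx →₀ ZMod 2) :=
    Finsupp.lmapDomain (ZMod 2) (ZMod 2) hV
  have e2 : ∀ c, φ2 (Finsupp.single c 1) = Finsupp.single (h * c) 1 := fun c =>
    Finsupp.mapDomain_single
  have e1 : ∀ p, φ1 (Finsupp.single p 1) = Finsupp.single (hP p) 1 := fun p =>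
    Finsupp.mapDomain_single
  have e0 : ∀ v, φ0 (Finsupp.single v 1) = Finsupp.single (hV v) 1 := fun v =>
    Finsupp.mapDomain_single
  have c2 : B.d2 ∘ₗ φ2 = φ1 ∘ₗ B.d2 := by
    refine Finsupp.lhom_ext' fun c => LinearMap.ext_ring ?_
    show B.d2 (φ2 (Finsupp.single c 1)) = φ1 (B.d2 (Finsupp.single c 1))
    rw [e2, B.d2_single, B.d2_single, map_sum]
    refine Finset.sum_congr rfl fun i _ => ?_
    rw [e1, hP1]
  have c1 : B.d1 ∘ₗ φ1 = φ0 ∘ₗ B.d1 := by
    refine Finsupp.lhom_ext' fun p => LinearMap.ext_ring ?_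
    show B.d1 (φ1 (Finsupp.single p 1)) = φ0 (B.d1 (Finsupp.single p 1))
    have hp : p = B.mkP p.1 p.2.out := (B.mkP_out p).symm
    rw [hp, e1, hP1, B.d1_single, B.d1_single, map_add, e0, e0, hV1, hV1]
  have c0 : B.aug ∘ₗ φ0 = B.aug := by
    refine Finsupp.lhom_ext' fun v => LinearMap.ext_ring ?_
    show B.aug (φ0 (Finsupp.single v 1)) = B.aug (Finsupp.single v 1)
    rw [e0, B.aug_single, B.aug_single]
  refine ⟨⟨φ2, φ1, φ0, fun y => LinearMap.congr_fun c2 y, fun z => LinearMap.congr_fun c1 z,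
    fun u => LinearMap.congr_fun c0 u, ?_, ?_, ?_⟩, e2⟩
  · intro c d hd
    rw [e2] at hd
    have hd' : d = h * c := by
      by_contra hne
      exact hd (Finsupp.single_eq_of_ne hne)
    rw [hd', B.dist_self]
  · intro i c p hp
    rw [e1, hP1] at hp
    have hp' : p = B.mkP i (h * c) := by
      by_contra hne
      exact hp (Finsupp.single_eq_of_ne hne)
    refine ⟨h * c, ?_, (B.dist_self _).le⟩
    rw [hp']
    rfl
  · intro i c p hp
    rw [e0, hV1] at hp
    have hp' : p = B.mkV i (h * c) := by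
      by_contra hne
      exact hp (Finsupp.single_eq_of_ne hne)
    refine ⟨h * c, ?_, (B.dist_self _).le⟩
    rw [hp']
    rfl

end

end QFC
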