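import Pool.Agent.QFC.J4

/-! # J4b : translated chain maps -/

open scoped Classical

namespace QFC

variable {n₁ n₂ : ℕ} [NeZero n₁] [NeZero n₂] {Γ₁ Γ₂ : Type} [Group Γ₁] [Group Γ₂] {B₁ : Bldg n₁ Γ₁} {B₂ : Bldg n₂ Γ₂}

/-- conjugation of a chain map by translations, with uniform radius: `LInv.exists_bcm` and `BCM.exists_comp` twice (`K := 1` for the translation, which is an isometry); for membership: `φ'.φ2 (single c 1) (d)` is `φ.φ2 (single (h₁ * c) 1) (h₂⁻¹ … )`, i.e. `φ'.φ2 (single c 1)` is the translate by `h₂` of `φ.φ2 (single (h₁ c) 1)`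
(`Finsupp.mapDomain`), so `d ∈ φ'.push S ↔ h₂⁻¹ * d ∈ φ.push (h₁ • S)` (reindex the `finsum`: `finsum_mem_image`) -/
theorem exists_translate (h1 : LInv B₁) (h2 : LInv B₂) {F : Γ₁ → Γ₂} {K R : ℕ} (φ : BCM B₁ B₂ F R)
    (hF : ∀ a b, B₂.dist (F a) (F b) ≤ K * B₁.dist a b + K) (g₁ : Γ₁) (g₂ : Γ₂) :
    ∃ φ' : BCM B₁ B₂ (fun c => g₂ * F (g₁ * c)) (R + K + 1),
      ∀ (S : Set Γ₁) (d : Γ₂), d ∈ φ'.push S ↔ g₂⁻¹ * d ∈ φ.push ((fun c => g₁ * c) '' S) := by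
  obtain ⟨χ₁, hχ₁⟩ := LInv.exists_bcm h1 g₁
  obtain ⟨χ₂, hχ₂⟩ := LInv.exists_bcm h2 g₂
  obtain ⟨a₁, ha₁⟩ := BCM.exists_comp χ₁ φ hF
  have hiso : ∀ a b, B₂.dist (g₂ * a) (g₂ * b) ≤ 1 * B₂.dist a b + 1 := by
    intro a b
    have := LInv.dist h2 g₂ a b
    omega
  obtain ⟨a₂, ha₂⟩ := BCM.exists_comp a₁ χ₂ hiso
  have hval : ∀ (y : Γ₂ →₀ ZMod 2) (d : Γ₂), (χ₂.φ2 y) d = y (g₂⁻¹ * d) := by
    intro y d
    induction y using Finsupp.induction_linear with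
    | zero => simp
    | add f g hf hg => rw [map_add, Finsupp.add_apply, Finsupp.add_apply, hf, hg]
    | single b a =>
      have e1 : Finsupp.single b a = a • Finsupp.single b (1 : ZMod 2) := by
        rw [Finsupp.smul_single, smul_eq_mul, mul_one]
      have e2 : (χ₂.φ2 (Finsupp.single b a)) d = a * (Finsupp.single (g₂ * b) (1 : ZMod 2)) d := by
        rw [e1, map_smul, hχ₂, Finsupp.smul_apply, smul_eq_mul]
      rw [e2, Finsupp.single_apply, Finsupp.single_apply]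
      by_cases hb : g₂ * b = d
      · rw [if_pos hb, if_pos (by rw [← hb, inv_mul_cancel_left]), mul_one]
      · rw [if_neg hb, if_neg (fun h => hb (by rw [h, mul_inv_cancel_left])), mul_zero]
  have key : ∃ φ' : BCM B₁ B₂ (fun c => g₂ * F (g₁ * c)) (1 * (K * 0 + K + R) + 1 + 0),
      ∀ (S : Set Γ₁) (d : Γ₂), d ∈ φ'.push S ↔ g₂⁻¹ * d ∈ φ.push ((fun c => g₁ * c) '' S) := by
    refine ⟨a₂, ?_⟩
    intro S d
    show (∑ᶠ c ∈ S, a₂.φ2 (Finsupp.single c 1) d) ≠ 0 ↔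
      (∑ᶠ c ∈ (fun c => g₁ * c) '' S, φ.φ2 (Finsupp.single c 1) (g₂⁻¹ * d)) ≠ 0
    rw [finsum_mem_image (fun a _ b _ h => mul_left_cancel h)]
    have e3 : ∀ c, a₂.φ2 (Finsupp.single c 1) d = φ.φ2 (Finsupp.single (g₁ * c) 1) (g₂⁻¹ * d) := by
      intro c
      rw [ha₂, hval, ha₁, hχ₁]
    simp only [e3]
  have hR : 1 * (K * 0 + K + R) + 1 + 0 = R + K + 1 := by omega
  rw [hR] at key
  exact key


/-- the translated pair -/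
theorem translate_pair (h1 : LInv B₁) (h2 : LInv B₂) {F : Γ₁ → Γ₂} {G : Γ₂ → Γ₁} {K : ℕ} (hp : Bldg.Pair B₁ B₂ F G K) (g₁ : Γ₁) (g₂ : Γ₂) :
    Bldg.Pair B₁ B₂ (fun c => g₂ * F (g₁ * c)) (fun d => g₁⁻¹ * G (g₂⁻¹ * d)) K := by
  refine ⟨fun a b => ?_, fun a b => ?_, fun a => ?_, fun b => ?_⟩
  · have e1 := LInv.dist h2 g₂ (F (g₁ * a)) (F (g₁ * b))
    have e2 := LInv.dist h1 g₁ a b
    have e3 := hp.lipF (g₁ * a) (g₁ * b)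
    rw [e2] at e3
    show B₂.dist (g₂ * F (g₁ * a)) (g₂ * F (g₁ * b)) ≤ _
    rw [e1]; exact e3
  · have e1 := LInv.dist h1 g₁⁻¹ (G (g₂⁻¹ * a)) (G (g₂⁻¹ * b))
    have e2 := LInv.dist h2 g₂⁻¹ a b
    have e3 := hp.lipG (g₂⁻¹ * a) (g₂⁻¹ * b)
    rw [e2] at e3
    show B₁.dist (g₁⁻¹ * G (g₂⁻¹ * a)) (g₁⁻¹ * G (g₂⁻¹ * b)) ≤ _
    rw [e1]; exact e3
  · show B₁.dist (g₁⁻¹ * G (g₂⁻¹ * (g₂ * F (g₁ * a)))) a ≤ K
    rw [inv_mul_cancel_left]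
    have e1 := LInv.dist h1 g₁ (g₁⁻¹ * G (F (g₁ * a))) a
    rw [mul_inv_cancel_left] at e1
    rw [← e1]
    exact hp.gf (g₁ * a)
  · show B₂.dist (g₂ * F (g₁ * (g₁⁻¹ * G (g₂⁻¹ * b)))) b ≤ K
    rw [mul_inv_cancel_left]
    have e1 := LInv.dist h2 g₂⁻¹ (g₂ * F (G (g₂⁻¹ * b))) b
    rw [inv_mul_cancel_left] at e1
    rw [← e1]
    exact hp.fg (g₂⁻¹ * b)


end QFC
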