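import Pool.Agent.QFC.B1
import Pool.Agent.QFC.Choice

/-! # P1 : apartments of choices -/

open scoped Classical

namespace QFC

namespace Bldg

variable {n : ℕ} {C : Type} (B : Bldg n C)

/-- for every wall `T` there is a chamber `c` with `σ T c ≠ σ T x` (a panel on `T` has `q ≥ 3` chambers in different sheets) -/
theorem exists_Adm (x : C) : ∃ s, B.Adm x s := by
  have h : ∀ T : B.Wall, ∃ a, a ≠ B.σ T x ∧ ∃ c, B.σ T c = a := by
    intro T
    obtain ⟨c, hc⟩ := B.wall_surj T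
    obtain ⟨g, hg, hg2⟩ := B.exists_gate (B.typ T) c x
    obtain ⟨d, hd, hdg, _⟩ := B.exists_third (B.typ T) c g g
    have hgd : B.adj (B.typ T) g d := B.adj_trans (B.adj_symm hg) hd
    have h1 := B.σ_ne hgd hdg.symm
    rw [← B.wall_adj hg, hc] at h1
    rw [hc] at hg2
    refine ⟨B.σ T d, ?_, d, rfl⟩
    rw [← hg2]
    exact h1.symm
  exact ⟨fun T => (h T).choose, fun T => (h T).choose_spec⟩

/-- change an admissible choice: if `Z` is a set of walls and `f T` (`T ∈ Z`) realized sheets different from the sheet of `x`, there is an admissible `s` with `s T = f T` on `Z` and `s T = s₀ T` elsewhere -/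
theorem Adm_update {x : C} {s₀ : B.Wall → B.Sheet} (h₀ : B.Adm x s₀) (Z : Set B.Wall) (f : B.Wall → B.Sheet)
    (hf : ∀ T ∈ Z, f T ≠ B.σ T x ∧ ∃ c, B.σ T c = f T) : B.Adm x (fun T => if T ∈ Z then f T else s₀ T) := by
  intro T
  by_cases hT : T ∈ Z
  · simp only [if_pos hT]
    exact hf T hT
  · simp only [if_neg hT]
    exact h₀ T

theorem mem_Ap_self (x : C) (s : B.Wall → B.Sheet) : x ∈ B.Ap x s := by
  intro T hT
  rw [B.Sep_self] at hT
  exact absurd hT (Set.notMem_empty T)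

/-- Let `g` be the gate of the panel `(i, g)`, `T = wall i g`. A chamber `d ≠ g` of the panel has `Sep x d = insert T (Sep x g)` and `σ U d = σ U g` for `U ≠ T`. So `d ∈ Ap ↔ g ∈ Ap ∧ σ T d = s T`. If `g ∉ Ap` the panel does not meet `Ap`;
if `g ∈ Ap` exactly one other chamber is in `Ap` (`exists_gate` for a chamber `c` with `σ T c = s T`; it is `≠ g` since `s T ≠ σ T x = σ T g`). -/
theorem Ap_Apt {x : C} {s : B.Wall → B.Sheet} (hs : B.Adm x s) : B.Ap x s ∈ B.Apt (B.pt x) := by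
  intro i g hg
  have hgT : B.σ (B.wall i g) g = B.σ (B.wall i g) x := by
    by_contra h
    exact hg h
  have hmem : ∀ d, B.adj i g d → g ≠ d →
      (d ∈ B.Ap x s ↔ g ∈ B.Ap x s ∧ B.σ (B.wall i g) d = s (B.wall i g)) := by
    intro d hd hne
    obtain ⟨_, h2, h3⟩ := B.dist_child hd hne hg
    constructor
    · intro h
      refine ⟨?_, h _ (by rw [h2]; exact Set.mem_insert _ _)⟩
      intro U hU
      have hne' : U ≠ B.wall i g := fun e => h3 (e ▸ hU)
      rw [← B.σ_child hd hne']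
      exact h U (by rw [h2]; exact Set.mem_insert_of_mem _ hU)
    · rintro ⟨h4, h5⟩ U hU
      rw [h2] at hU
      rcases Set.mem_insert_iff.1 hU with rfl | hU
      · exact h5
      · have hne' : U ≠ B.wall i g := fun e => h3 (e ▸ hU)
        rw [B.σ_child hd hne']
        exact h4 U hU
  by_cases hgA : g ∈ B.Ap x s
  · right
    obtain ⟨hs1, c, hc⟩ := hs (B.wall i g)
    obtain ⟨d, hd, hd2⟩ := B.exists_gate i g c
    rw [hc] at hd2
    have hdg : g ≠ d := by
      rintro rfl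
      exact hs1 (hd2.symm.trans hgT)
    refine ⟨d, hdg.symm, ?_⟩
    ext y
    constructor
    · rintro ⟨hy1, hy2⟩
      by_cases hyg : g = y
      · exact Or.inl hyg.symm
      · have h6 := ((hmem y hy2 hyg).1 hy1).2
        exact Or.inr (B.gate_unique hy2 hd (h6.trans hd2.symm))
    · rintro (rfl | rfl)
      · exact ⟨hgA, B.adj_refl i _⟩
      · exact ⟨(hmem _ hd hdg).2 ⟨hgA, hd2⟩, hd⟩
  · left
    rw [Set.eq_empty_iff_forall_notMem]
    rintro y ⟨hy1, hy2⟩
    by_cases hyg : g = y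
    · exact hgA (hyg ▸ hy1)
    · exact hgA ((hmem y hy2 hyg).1 hy1).1

theorem p1_Wb_eq (e : C) (ρ : ℕ) : B.Wb e ρ = ⋃ c ∈ B.ball e ρ, B.Sep e c := by
  ext T
  simp only [Wb, Set.mem_iUnion, exists_prop]
  rfl

theorem Wb_finite (e : C) (ρ : ℕ) : (B.Wb e ρ).Finite := by
  rw [B.p1_Wb_eq]
  exact (B.ball_finite e ρ).biUnion fun c _ => B.Sep_finite e c

/-- `|Wb e ρ| ≤ |ball e ρ| * ρ` (`dist_eq`, `exists_ball_card`) -/
theorem exists_Wb_card (ρ : ℕ) : ∃ N : ℕ, ∀ e, (B.Wb e ρ).ncard ≤ N := by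
  obtain ⟨N, hN⟩ := B.exists_ball_card ρ
  refine ⟨N * ρ, fun e => ?_⟩
  have h1 : B.Wb e ρ ⊆ ↑((B.ballF e ρ).biUnion fun c => (B.Sep_finite e c).toFinset) := by
    rintro T ⟨c, hc, hT⟩
    rw [Finset.mem_coe, Finset.mem_biUnion]
    exact ⟨c, B.mem_ballF.2 hc, (Set.Finite.mem_toFinset _).2 hT⟩
  calc (B.Wb e ρ).ncard
      ≤ (↑((B.ballF e ρ).biUnion fun c => (B.Sep_finite e c).toFinset) : Set B.Wall).ncard :=
        Set.ncard_le_ncard h1 (Finset.finite_toSet _)
    _ = ((B.ballF e ρ).biUnion fun c => (B.Sep_finite e c).toFinset).card :=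
        Set.ncard_coe_finset _
    _ ≤ (B.ballF e ρ).card * ρ := by
        refine Finset.card_biUnion_le_card_mul _ _ _ fun c hc => ?_
        rw [← Set.ncard_eq_toFinset_card _ (B.Sep_finite e c), ← B.dist_eq]
        exact B.mem_ballF.1 hc
    _ ≤ N * ρ := Nat.mul_le_mul_right _ (hN e)

/-- the apartment near `e` is determined by the choices at the walls in `Sep x e ∪ Wb e ρ` (`Sep x c ⊆ Sep x e ∪ Sep e c`) -/
theorem Ap_local {x e : C} {ρ : ℕ} {s s' : B.Wall → B.Sheet}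
    (h : ∀ T ∈ B.Sep x e ∪ B.Wb e ρ, s T = s' T) : B.Ap x s' ∩ B.ball e ρ = B.Ap x s ∩ B.ball e ρ := by
  have key : ∀ c ∈ B.ball e ρ, ∀ T ∈ B.Sep x c, s T = s' T := by
    intro c hc T hT
    apply h
    rcases B.Sep_subset x e c hT with h1 | h1
    · exact Or.inl h1
    · exact Or.inr ⟨c, hc, h1⟩
  ext c
  constructor
  · rintro ⟨h1, h2⟩
    exact ⟨fun T hT => (h1 T hT).trans (key c h2 T hT).symm, h2⟩
  · rintro ⟨h1, h2⟩
    exact ⟨fun T hT => (h1 T hT).trans (key c h2 T hT), h2⟩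

end Bldg

end QFC
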