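import Pool.Agent.QFC.K03b
import Pool.Agent.QFC.P1

/-! # K04 : apartments of chamber roots; approximation -/

open scoped Classical

namespace QFC

namespace Bldg

variable {n : ℕ} {C : Type} (B : Bldg n C)

theorem k04_upd {x : C} {s₀ : B.Wall → B.Sheet} (h₀ : B.Adm x s₀) (Z : Set B.Wall) (f : B.Wall → B.Sheet)
    (hf : ∀ T ∈ Z, f T ≠ B.σ T x ∧ ∃ c, B.σ T c = f T) :
    ∃ s, B.Adm x s ∧ (∀ T ∈ Z, s T = f T) ∧ ∀ T, T ∉ Z → s T = s₀ T :=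
  ⟨_, B.Adm_update h₀ Z f hf, fun _ hT => if_pos hT, fun _ hT => if_neg hT⟩

/-- Every non-empty set of `Apt (pt x)` is the apartment of an admissible choice: `x ∈ S` (`Apt_toward_root`). `s T` := `σ T c` for some `c ∈ S` with `σ T c ≠ σ T x` if there is one (unique value by `two_sheet`), otherwise the value of some admissible choice
(`exists_Adm`). `S ⊆ Ap x s`, `Ap x s ∈ Apt (pt x)` (`Ap_Apt`), so `S = Ap x s` (`Apt_eq_of_subset`). -/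
theorem Apt_pt {x : C} {S : Set C} (hS : S ∈ B.Apt (B.pt x)) (hne : S.Nonempty) :
    ∃ s, B.Adm x s ∧ S = B.Ap x s := by
  have hη := B.pt_roller x
  obtain ⟨c₀, hc₀⟩ := hne
  obtain ⟨s₀, hs₀⟩ := B.exists_Adm x
  have hf : ∀ T : B.Wall, ∃ σ₀, (∃ c ∈ S, B.σ T c ≠ B.σ T x) → ∃ c ∈ S, B.σ T c ≠ B.σ T x ∧ B.σ T c = σ₀ := by
    intro T
    by_cases h : ∃ c ∈ S, B.σ T c ≠ B.σ T x
    · obtain ⟨c, h1, h2⟩ := h
      exact ⟨B.σ T c, fun _ => ⟨c, h1, h2, rfl⟩⟩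
    · exact ⟨s₀ T, fun h' => absurd h' h⟩
  choose f hf using hf
  obtain ⟨s, hadm, hs1, -⟩ := B.k04_upd hs₀ {T | ∃ c ∈ S, B.σ T c ≠ B.σ T x} f (by
    intro T hT
    obtain ⟨c, h1, h2, h3⟩ := hf T hT
    exact ⟨by rw [← h3]; exact h2, c, h3⟩)
  refine ⟨s, hadm, ?_⟩
  apply B.Apt_eq_of_subset hη hS (B.Ap_Apt hadm) ⟨c₀, hc₀⟩
  intro c hc T hT
  have hT' : B.σ T x ≠ B.σ T c := hT
  have hTZ : T ∈ {T | ∃ c ∈ S, B.σ T c ≠ B.σ T x} := ⟨c, hc, fun h => hT' h.symm⟩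
  rw [hs1 T hTZ]
  obtain ⟨c', h1, h2, h3⟩ := hf T hTZ
  rw [← h3]
  rcases B.two_sheet hη hS hc h1 T with h | h | h
  · exact absurd h.symm hT'
  · exact absurd h h2
  · exact h

/-- **Approximation.** `𝒲 := Wb e ρ` (finite). Let `y` agree with `η` on `𝒲`. Define `s` (`Adm_update` twice, starting from `exists_Adm y`): for `T ∈ Wb e ρ` such that some `a ∈ A` has `σ T a ≠ η T`: `s T = σ T a` (`≠ η T = σ T y`); for the other `T ∈ Sep y e`: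
`s T = σ T e`. (i) `e ∈ Ap y s`: let `T ∈ Sep y e`; if `T ∈ Wb` then `σ T e ≠ σ T y = η T`, so `s T` is a value `σ T a ≠ η T` and `two_sheet e a` gives `s T = σ T e`; otherwise by definition. (ii) `A ∩ ball e ρ ⊆ Ap y s`: let `c` be in it, `T ∈ Sep y c`. If `T ∈ Sep e c` then
`T ∈ Wb`, `σ T c ≠ σ T y = η T`, so `s T = σ T c` (`two_sheet`). If `T ∉ Sep e c` then `σ T c = σ T e`, `T ∈ Sep y e` and (i). (iii) `Apt_ball` (roots `η` and `pt y`) with `A' = Ap y s`. -/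
theorem Apt_approx {η : B.Wall → B.Sheet} (hη : B.IsRoller η) {A : Set C} (hA : A ∈ B.Apt η)
    {e : C} (he : e ∈ A) (ρ : ℕ) : ∃ 𝒲 : Finset B.Wall, ∀ y, (∀ T ∈ 𝒲, B.σ T y = η T) →
      ∃ A' ∈ B.Apt (B.pt y), A' ∩ B.ball e ρ = A ∩ B.ball e ρ := by
  refine ⟨(B.Wb_finite e ρ).toFinset, fun y hy => ?_⟩
  have hy' : ∀ T ∈ B.Wb e ρ, B.σ T y = η T := fun T hT => hy T (by simpa using hT)
  obtain ⟨s₀, hs₀⟩ := B.exists_Adm y
  have hf : ∀ T : B.Wall, ∃ σ₀, (T ∈ B.Wb e ρ ∧ ∃ c ∈ A, B.σ T c ≠ η T) → ∃ c ∈ A, B.σ T c ≠ η T ∧ B.σ T c = σ₀ := by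
    intro T
    by_cases h : T ∈ B.Wb e ρ ∧ ∃ c ∈ A, B.σ T c ≠ η T
    · obtain ⟨-, c, h1, h2⟩ := h
      exact ⟨B.σ T c, fun _ => ⟨c, h1, h2, rfl⟩⟩
    · exact ⟨s₀ T, fun h' => absurd h' h⟩
  choose f hf using hf
  obtain ⟨s', hs', hs1', hs2'⟩ := B.k04_upd hs₀ {T | T ∈ B.Wb e ρ ∧ ∃ c ∈ A, B.σ T c ≠ η T} f (by
    intro T hT
    obtain ⟨c, h1, h2, h3⟩ := hf T hT
    refine ⟨?_, c, h3⟩
    rw [hy' T hT.1, ← h3]
    exact h2)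
  obtain ⟨s, hadm2, hs3, hs4⟩ := B.k04_upd hs' {T | T ∈ B.Sep y e ∧ ¬ (T ∈ B.Wb e ρ ∧ ∃ c ∈ A, B.σ T c ≠ η T)}
    (fun T => B.σ T e) (by
    intro T hT
    exact ⟨fun h => hT.1 h.symm, e, rfl⟩)
  have hs1 : ∀ T, T ∈ B.Sep y e → ¬ (T ∈ B.Wb e ρ ∧ ∃ c ∈ A, B.σ T c ≠ η T) → s T = B.σ T e :=
    fun T h1 h2 => hs3 T ⟨h1, h2⟩
  have hs2 : ∀ T, (T ∈ B.Wb e ρ ∧ ∃ c ∈ A, B.σ T c ≠ η T) → s T = f T := by
    intro T h2
    rw [hs4 T (fun h => h.2 h2)]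
    exact hs1' T h2
  -- chambers of A not in the sheet of the root
  have hval : ∀ T ∈ B.Wb e ρ, ∀ c ∈ A, B.σ T c ≠ η T → B.σ T c = s T := by
    intro T hT c hc hne
    rw [hs2 T ⟨hT, c, hc, hne⟩]
    obtain ⟨c', h1, h2, h3⟩ := hf T ⟨hT, c, hc, hne⟩
    rw [← h3]
    rcases B.two_sheet hη hA hc h1 T with h | h | h
    · exact absurd h hne
    · exact absurd h h2
    · exact h
  have hi : ∀ T ∈ B.Sep y e, B.σ T e = s T := by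
    intro T hT
    by_cases hc : T ∈ B.Wb e ρ ∧ ∃ c ∈ A, B.σ T c ≠ η T
    · apply hval T hc.1 e he
      rw [← hy' T hc.1]
      exact fun h => hT h.symm
    · exact (hs1 T hT hc).symm
  refine ⟨B.Ap y s, B.Ap_Apt hadm2, ?_⟩
  apply B.Apt_ball hη (B.pt_roller y) hA (B.Ap_Apt hadm2) he
  rintro c ⟨hcA, hcb⟩ T hT
  by_cases hce : T ∈ B.Sep e c
  · have hTW : T ∈ B.Wb e ρ := ⟨c, hcb, hce⟩
    apply hval T hTW c hcA
    rw [← hy' T hTW]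
    exact fun h => hT h.symm
  · have h1 : B.σ T e = B.σ T c := by
      by_contra h
      exact hce h
    rw [← h1]
    apply hi
    show B.σ T y ≠ B.σ T e
    rw [h1]
    exact hT

end Bldg

end QFC
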