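import Pool.Agent.QFC.J3
import Pool.Agent.QFC.J4b
import Pool.Agent.QFC.K04

/-! # J5 : one side of the limit argument -/

open scoped Classical

namespace QFC

/-- the limit of the chamber roots `x N` along `𝒰`: for each wall `T` the values `σ T (x N)` lie in a finite set (`sheets_finite`); `IsRoller`: finitely many eventual equalities hold for some `N` -/
theorem exists_limit_root {n : ℕ} {C : Type} (B : Bldg n C) (𝒰 : Ultrafilter ℕ) (x : ℕ → C) :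
    ∃ η : B.Wall → B.Sheet, B.IsRoller η ∧ ∀ T, ∀ᶠ N in (𝒰 : Filter ℕ), B.σ T (x N) = η T := by
  have h : ∀ T, ∃ a, ∀ᶠ N in (𝒰 : Filter ℕ), B.σ T (x N) = a := fun T =>
    exists_ultra_const 𝒰 (fun N => B.σ T (x N))
      ((B.sheets_finite T).subset (by rintro _ ⟨N, rfl⟩; exact ⟨x N, rfl⟩))
  choose η hη using h
  refine ⟨η, ?_, hη⟩
  intro 𝒲
  have h2 := (Filter.eventually_all_finset (l := (𝒰 : Filter ℕ)) 𝒲).2 (fun T (_ : T ∈ 𝒲) => hη T)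
  obtain ⟨N, hN⟩ := h2.exists
  exact ⟨x N, hN⟩


variable {n₁ n₂ : ℕ} [NeZero n₁] [NeZero n₂] {Γ₁ Γ₂ : Type} [Group Γ₁] [Group Γ₂] {B₁ : Bldg n₁ Γ₁} {B₂ : Bldg n₂ Γ₂}

/-- **One good position.** `g₁ = (the position in Γ₁)`, `g₂ = (the position in Γ₂)`, not bad of radius `N`. `A' ∈ Apt (pt (g₁⁻¹ x₁))` meeting `ball 1 N`, `g ∈ ball 1 N`, `j ∉ D (pt (g₂⁻¹ x₂)) g`. `φ'` the translated chain map (`exists_translate` with `g₁` and `g₂⁻¹`): `d ∈ φ'.push A' ↔ g₂ d ∈ φ.push (g₁ A')`. Then `φ'.push A'` has no defect at `(j, g)`.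
Proof: `g₁ A' ∈ Apt (pt x₁)` (`LInv.Apt`), non-empty, so `= Ap x₁ s` (`Apt_pt`), it meets `ball g₁ N` (`LInv.ball`); `g₂ g ∈ ball g₂ N`, `j ∉ D (pt x₂) (g₂ g)` (`LInv.D_pt`); not bad gives `NoDef (φ.push (Ap x₁ s)) j (g₂ g)`; translate back (`LInv.NoDef` with `φ.push (g₁ A') = (g₂ * ·) '' φ'.push A'`). -/
theorem noDef_of_not_bad (h1 : LInv B₁) (h2 : LInv B₂) {F : Γ₁ → Γ₂} {R R' : ℕ} {F' : Γ₁ → Γ₂} (φ : BCM B₁ B₂ F R) (φ' : BCM B₁ B₂ F' R') {x₁ : Γ₁} {x₂ : Γ₂} {N : ℕ}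
    {g₁ : Γ₁} {g₂ : Γ₂} (hgood : ¬ Bad B₁ B₂ φ x₁ x₂ N g₁ g₂)
    (hφ : ∀ (S : Set Γ₁) (d : Γ₂), d ∈ φ'.push S ↔ g₂ * d ∈ φ.push ((fun c => g₁ * c) '' S))
    {A' : Set Γ₁} (hA' : A' ∈ B₁.Apt (B₁.pt (g₁⁻¹ * x₁))) (hmeet : (A' ∩ B₁.ball 1 N).Nonempty)
    {g : Γ₂} (hg : g ∈ B₂.ball 1 N) {j : ZMod n₂} (hj : j ∉ B₂.D (B₂.pt (g₂⁻¹ * x₂)) g) : B₂.NoDef (φ'.push A') j g := by
  have hA1 : (fun c => g₁ * c) '' A' ∈ B₁.Apt (B₁.pt x₁) := by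
    have := (LInv.Apt h1 g₁ (g₁⁻¹ * x₁) A').2 hA'
    rwa [mul_inv_cancel_left] at this
  obtain ⟨a, ha, hb⟩ := hmeet
  obtain ⟨s, hs, hAs⟩ := B₁.Apt_pt hA1 ⟨g₁ * a, a, ha, rfl⟩
  by_contra hnd
  apply hgood
  refine ⟨s, hs, ⟨g₁ * a, ?_, ?_⟩, g₂ * g, ?_, j, ?_, ?_⟩
  · rw [← hAs]; exact ⟨a, ha, rfl⟩
  · show B₁.dist g₁ (g₁ * a) ≤ N
    have h3 := LInv.dist h1 g₁ 1 a
    rw [mul_one] at h3
    rw [h3]; exact hb
  · show B₂.dist g₂ (g₂ * g) ≤ N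
    have h3 := LInv.dist h2 g₂ 1 g
    rw [mul_one] at h3
    rw [h3]; exact hg
  · have h3 := LInv.D_pt h2 g₂ (g₂⁻¹ * x₂) g
    rw [mul_inv_cancel_left] at h3
    rw [h3]; exact hj
  · intro h4
    apply hnd
    rw [← LInv.NoDef h2 g₂ (φ'.push A') j g]
    have h5 : (fun c => g₂ * c) '' φ'.push A' = φ.push (B₁.Ap x₁ s) := by
      rw [← hAs]
      ext d
      constructor
      · rintro ⟨b, hb', rfl⟩
        exact (hφ A' b).1 hb'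
      · intro hd
        refine ⟨g₂⁻¹ * d, (hφ A' (g₂⁻¹ * d)).2 ?_, ?_⟩
        · rw [mul_inv_cancel_left]; exact hd
        · show g₂ * (g₂⁻¹ * d) = d
          rw [mul_inv_cancel_left]
    rw [h5]
    exact h4


end QFC
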