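import Pool.Agent.QFC.H4b
import Pool.Agent.QFC.K01
import Pool.Agent.QFC.Pr

/-! # J6 : the limit data -/

open scoped Classical

namespace QFC

variable {n₁ n₂ : ℕ} [NeZero n₁] [NeZero n₂] {C₁ C₂ : Type} {B₁ : Bldg n₁ C₁} {B₂ : Bldg n₂ C₂}

theorem j6_loc {F : C₁ → C₂} {G : C₂ → C₁} {K R : ℕ} (hp : Bldg.Pair B₁ B₂ F G K) (φ : BCM B₁ B₂ F R)
    (r : ℕ) {A A' : Set C₁} (c : C₁)
    (h : A ∩ B₁.ball c (K * (R + r) + 3 * K) = A' ∩ B₁.ball c (K * (R + r) + 3 * K)) :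
    φ.push A ∩ B₂.ball (F c) r = φ.push A' ∩ B₂.ball (F c) r := by
  have key : ∀ c'', c'' ∈ B₂.ball (F c) r → (c'' ∈ φ.push A ↔ c'' ∈ φ.push A') := by
    intro c'' hc''
    refine BCM.push_local φ ?_
    intro a ha
    have h1 : B₂.dist (F a) (F c) ≤ R + r := by
      have h2 := B₂.dist_triangle (F a) c'' (F c)
      have h3 : B₂.dist (F c) c'' ≤ r := hc''
      rw [B₂.dist_comm c'' (F c)] at h2
      omega
    have h4 : a ∈ B₁.ball c (K * (R + r) + 3 * K) := by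
      show B₁.dist c a ≤ _
      rw [B₁.dist_comm]
      exact hp.close h1
    have h5 : a ∈ A ∩ B₁.ball c (K * (R + r) + 3 * K) ↔ a ∈ A' ∩ B₁.ball c (K * (R + r) + 3 * K) := by
      rw [h]
    constructor
    · intro h6
      exact (h5.1 ⟨h6, h4⟩).1
    · intro h6
      exact (h5.2 ⟨h6, h4⟩).1
  ext c''
  constructor
  · rintro ⟨h1, h2⟩
    exact ⟨(key c'' h2).1 h1, h2⟩
  · rintro ⟨h1, h2⟩
    exact ⟨(key c'' h2).2 h1, h2⟩

/-- Assembly of `LimitData` from a pair with two chain maps whose push-forwards preserve apartments. `K' = max K (max R R')`. `ΨΦ`, `ΦΨ`: `push_inverse` (`Apt_cycle`). `nearΦ`: `push_near`. `locΦ r`: `r' = K (R + r) + 3 K`: for `c'' ∈ ball (F c) r` the relevant `a` have `dist (F a) (F c) ≤ R + r`, so `dist a c ≤ r'` (`Pair.close`), `push_local`. -/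
theorem limitData_of {F : C₁ → C₂} {G : C₂ → C₁} {K R R' : ℕ} (hp : Bldg.Pair B₁ B₂ F G K) (φ : BCM B₁ B₂ F R) (ψ : BCM B₂ B₁ G R')
    {η₁ : B₁.Wall → B₁.Sheet} {η₂ : B₂.Wall → B₂.Sheet} (hη₁ : B₁.IsRoller η₁) (hη₂ : B₂.IsRoller η₂)
    (hφ : ∀ A ∈ B₁.Apt η₁, φ.push A ∈ B₂.Apt η₂) (hψ : ∀ A ∈ B₂.Apt η₂, ψ.push A ∈ B₁.Apt η₁) :
    Nonempty (LimitData B₁ B₂) := by
  refine ⟨{ η₁ := η₁, η₂ := η₂, hη₁ := hη₁, hη₂ := hη₂, F := F, G := G, K := max K (max R R')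
            pair := hp.mono (le_max_left _ _)
            Φ := φ.push, Ψ := ψ.push, Φ_apt := hφ, Ψ_apt := hψ
            ΨΦ := fun A hA => BCM.push_inverse hp φ ψ (B₁.Apt_cycle hη₁ hA)
            ΦΨ := fun A hA => BCM.push_inverse hp.symm ψ φ (B₂.Apt_cycle hη₂ hA)
            nearΦ := ?_, nearΨ := ?_
            locΦ := fun r => ⟨K * (R + r) + 3 * K, fun A _ A' _ c h =>
              j6_loc hp φ r c h⟩
            locΨ := fun r => ⟨K * (R' + r) + 3 * K, fun A _ A' _ c h =>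
              j6_loc hp.symm ψ r c h⟩ }⟩
  · intro A _ c' hc'
    obtain ⟨c, hc, hd⟩ := BCM.push_near φ hc'
    refine ⟨c, hc, ?_⟩
    rw [B₂.dist_comm]
    exact hd.trans ((le_max_left _ _).trans (le_max_right _ _))
  · intro A _ c' hc'
    obtain ⟨c, hc, hd⟩ := BCM.push_near ψ hc'
    refine ⟨c, hc, ?_⟩
    rw [B₁.dist_comm]
    exact hd.trans ((le_max_right _ _).trans (le_max_right _ _))

end QFC
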