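import Pool.Agent.QFC.K01

/-! # K01b : at most two sheets -/

open scoped Classical

namespace QFC

namespace Bldg

variable {n : ℕ} {C : Type} (B : Bldg n C)
variable {η : B.Wall → B.Sheet}

/-- **At most two sheets** (the `η`-sheet and one more) at every wall. Suppose `σ T c, σ T d, η T` are pairwise different. Let `e = meet c d` (`meet`): `e ∈ S` (`Apt_toward_root`), `σ T e = η T`. Let `t` be the gate of `T` for `e` (`wall_gate T e`).
Claim `e = t`: let `U ∈ Sep e t`, `u` on `U` (`wall_surj`). `U ≠ T`, `¬ Cross U T`. `dichotomy` (`T, U`; `t` on `T`, `u` on `U`) at `e`: `σ T e = σ T u` (since `σ U e ≠ σ U t`), so `σ T u = η T`. At `c`: `σ T c ≠ η T`, so `σ U c = σ U t`; at `d`: `σ U d = σ U t`. So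
`σ U c = σ U d`, hence `σ U e = σ U c = σ U t` (meet), contradiction. So `e` is on `T`. Let `i = typ T`, `g` resp. `g'` the chambers of the panel `(i, e)` with `σ T g = σ T c`, `σ T g' = σ T d` (`exists_gate`). `g ∈ S` by `Apt_toward_root` from `c`: for `U ≠ T`
`σ U g = σ U e ∈ {σ U c, η U}`, and `σ T g = σ T c`. Same for `g'`. So `e, g, g'` are three different chambers of `S` in one panel: contradiction to `Apt_other`. -/
theorem two_sheet (hη : B.IsRoller η) {S : Set C} (hS : S ∈ B.Apt η) {c d : C} (hc : c ∈ S) (hd : d ∈ S)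
    (T : B.Wall) : B.σ T c = η T ∨ B.σ T d = η T ∨ B.σ T c = B.σ T d := by
  by_contra hcon
  rw [not_or, not_or] at hcon
  obtain ⟨h1, h2, h3⟩ := hcon
  obtain ⟨e, he⟩ := B.meet hη c d
  have heS : e ∈ S := by
    refine B.Apt_toward_root hη hS hc (fun U => ?_)
    rw [he U]
    split_ifs with h
    · exact Or.inl rfl
    · exact Or.inr rfl
  have heT : B.σ T e = η T := by
    rw [he T, if_neg h3]
  obtain ⟨t, htT, htσ, htsep, _⟩ := B.wall_gate T e
  have het : e = t := by
    apply B.eq_of_sep_empty
    intro U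
    by_contra hU
    obtain ⟨hUT, hUc⟩ := htsep U hU
    obtain ⟨u, hu⟩ := B.wall_surj U
    have hxc : ¬ B.Cross T U := fun h => hUc (B.Cross_symm h)
    have hdi := fun x => B.dichotomy (Ne.symm hUT) hxc htT (show B.On U u from hu) x
    have hTu : B.σ T e = B.σ T u := by
      rcases hdi e with h | h
      · exact h
      · exact absurd h hU
    have hTu' : B.σ T u = η T := hTu.symm.trans heT
    have hcU : B.σ U c = B.σ U t := by
      rcases hdi c with h | h
      · exact absurd (h.trans hTu') h1
      · exact h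
    have hdU : B.σ U d = B.σ U t := by
      rcases hdi d with h | h
      · exact absurd (h.trans hTu') h2
      · exact h
    apply hU
    rw [he U, if_pos (hcU.trans hdU.symm)]
    exact hcU
  subst het
  have hTw : B.wall (B.typ T) e = T := htT
  obtain ⟨g, hg, hgσ⟩ := B.exists_gate (B.typ T) e c
  obtain ⟨g', hg', hgσ'⟩ := B.exists_gate (B.typ T) e d
  rw [hTw] at hgσ hgσ'
  have hgS : g ∈ S := by
    refine B.Apt_toward_root hη hS hc (fun U => ?_)
    by_cases hU : U = T
    · rw [hU]
      exact Or.inl hgσ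
    · rw [← B.σ_eq hg (by rw [hTw]; exact hU), he U]
      split_ifs with h
      · exact Or.inl rfl
      · exact Or.inr rfl
  have hgS' : g' ∈ S := by
    refine B.Apt_toward_root hη hS hd (fun U => ?_)
    by_cases hU : U = T
    · rw [hU]
      exact Or.inl hgσ'
    · rw [← B.σ_eq hg' (by rw [hTw]; exact hU), he U]
      split_ifs with h
      · exact Or.inl h
      · exact Or.inr rfl
  obtain ⟨f, _, hf⟩ := B.Apt_other hη hS (B.typ T) heS
  have m1 : g ∈ S ∩ B.panel (B.typ T) e := ⟨hgS, hg⟩
  have m2 : g' ∈ S ∩ B.panel (B.typ T) e := ⟨hgS', hg'⟩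
  rw [hf] at m1 m2
  have n1 : g ≠ e := by
    intro h
    rw [h] at hgσ
    exact h1 (hgσ.symm.trans heT)
  have n2 : g' ≠ e := by
    intro h
    rw [h] at hgσ'
    exact h2 (hgσ'.symm.trans heT)
  rcases m1 with m1 | m1
  · exact n1 m1
  · rcases m2 with m2 | m2
    · exact n2 m2
    · rw [Set.mem_singleton_iff] at m1 m2
      apply h3
      rw [← hgσ, ← hgσ', m1, m2]

end Bldg

end QFC
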