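import Pool.Agent.QFC.K01b

/-! # K02 : characterization of membership, convexity -/

open scoped Classical

namespace QFC

namespace Bldg

variable {n : ℕ} {C : Type} (B : Bldg n C)
variable {η : B.Wall → B.Sheet}

/-- (→) `a = c`. (←) Induction on `dist e c`. Let `T = wall i e ∈ Sep e c` (`exists_sep_side`), `g` the chamber of the panel `(i, e)` with `σ T g = σ T c`. Claim `g ∈ S`. If `σ T c = η T` then `i ∉ D η g` and `Apt_gate_mem`. Otherwise there is `a ∈ S` with
`σ T a = σ T c ≠ η T`. Let `S ∩ panel i e = {e, d}` (`Apt_other`). `two_sheet e a`: `σ T e = η T` (the other cases are excluded: `σ T a = σ T c ≠ η T`, `σ T a ≠ σ T e`). So `σ T d ≠ η T` (`d ≠ e`), `two_sheet d a`: `σ T d = σ T a = σ T c`, so `d = g` (`gate_unique`).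
Then induct with `g` instead of `e` (`step_toward`: `Sep g c = Sep e c \ {T}`). -/
theorem Apt_mem_iff (hη : B.IsRoller η) {S : Set C} (hS : S ∈ B.Apt η) {e : C} (he : e ∈ S) (c : C) :
    c ∈ S ↔ ∀ T ∈ B.Sep e c, B.σ T c = η T ∨ ∃ a ∈ S, B.σ T a = B.σ T c := by
  constructor
  · intro hc T _
    exact Or.inr ⟨c, hc, rfl⟩
  · intro h
    obtain ⟨k, hk⟩ : ∃ k, B.dist e c = k := ⟨_, rfl⟩
    induction k generalizing e with
    | zero =>
      rw [← B.dist_eq_zero hk]
      exact he
    | succ k ih =>
      have hne : e ≠ c := by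
        intro h
        rw [h, B.dist_self] at hk
        omega
      obtain ⟨i, hi⟩ := B.exists_sep_side hne
      obtain ⟨g, hg, hgσ⟩ := B.exists_gate i e c
      obtain ⟨hsep, hst⟩ := B.step_toward hi hg hgσ
      have hgS : g ∈ S := by
        by_cases hη1 : B.σ (B.wall i e) c = η (B.wall i e)
        · apply B.Apt_gate_mem hS he hg
          intro h'
          have h'' : B.σ (B.wall i g) g ≠ η (B.wall i g) := h'
          rw [← B.wall_adj hg] at h''
          exact h'' (hgσ.trans hη1)
        · obtain ⟨a, ha, haσ⟩ : ∃ a ∈ S, B.σ (B.wall i e) a = B.σ (B.wall i e) c := by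
            rcases h _ hi with h | h
            · exact absurd h hη1
            · exact h
          have hce : B.σ (B.wall i e) e ≠ B.σ (B.wall i e) c := hi
          have heη : B.σ (B.wall i e) e = η (B.wall i e) := by
            rcases B.two_sheet hη hS he ha (B.wall i e) with h | h | h
            · exact h
            · exact absurd (haσ.symm.trans h) hη1
            · exact absurd (h.trans haσ) hce
          obtain ⟨d, hde, hd⟩ := B.Apt_other hη hS i he
          have hdm : d ∈ S ∩ B.panel i e := by
            rw [hd]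
            exact Or.inr rfl
          have hdη : B.σ (B.wall i e) d ≠ η (B.wall i e) := by
            rw [← heη]
            exact (B.σ_ne hdm.2 hde.symm).symm
          have hdc : B.σ (B.wall i e) d = B.σ (B.wall i e) c := by
            rcases B.two_sheet hη hS hdm.1 ha (B.wall i e) with h | h | h
            · exact absurd h hdη
            · exact absurd (haσ.symm.trans h) hη1
            · exact h.trans haσ
          have hgd : g = d := B.gate_unique hg hdm.2 (hgσ.trans hdc.symm)
          rw [hgd]
          exact hdm.1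
      refine ih hgS ?_ (by omega)
      intro T hT
      rw [hsep] at hT
      exact h T hT.1

/-- `Apt_mem_iff` (`e := c`): for `T ∈ Sep c y`, `σ T y = σ T d` -/
theorem Apt_convex (hη : B.IsRoller η) {S : Set C} (hS : S ∈ B.Apt η) {c d y : C} (hc : c ∈ S) (hd : d ∈ S)
    (hy : B.Btw c d y) : y ∈ S := by
  rw [B.Apt_mem_iff hη hS hc]
  intro T hT
  rcases hy T with h | h
  · exact absurd h.symm hT
  · exact Or.inr ⟨d, hd, h.symm⟩

/-- A geodesic from `c` to `d` through adjacent chambers; the chamber next to `c` -/
theorem exists_first {c d : C} (h : c ≠ d) : ∃ i g, B.adj i c g ∧ g ≠ c ∧ B.σ (B.wall i c) g = B.σ (B.wall i c) d ∧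
    B.wall i c ∈ B.Sep c d ∧ B.Btw c d g ∧ B.dist c d = B.dist g d + 1 ∧ B.dist c g = 1 := by
  obtain ⟨i, hi⟩ := B.exists_sep_side h
  obtain ⟨g, hg, hgσ⟩ := B.exists_gate i c d
  have hgc : g ≠ c := by
    intro h'
    rw [h'] at hgσ
    exact hi hgσ
  refine ⟨i, g, hg, hgc, hgσ, hi, ?_, (B.step_toward hi hg hgσ).2, ?_⟩
  · intro T
    by_cases hT : T = B.wall i c
    · rw [hT]
      exact Or.inr hgσ
    · exact Or.inl (B.σ_eq hg hT).symm
  · have h1 := B.dist_le_one hg
    have h2 : B.dist c g ≠ 0 := fun h' => hgc (B.dist_eq_zero h').symm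
    omega

theorem Btw_trans {c d y z : C} (h : B.Btw c d y) (h' : B.Btw y d z) : B.Btw c d z := by
  intro T
  rcases h' T with h1 | h1
  · rw [h1]
    exact h T
  · exact Or.inr h1

theorem Btw_dist {c d y : C} (h : B.Btw c d y) : B.dist c d = B.dist c y + B.dist y d :=
  B.dist_add_of_btw h

/-- an induction principle along a geodesic from `c` to `d` -/
theorem geo_induction {c d : C} {p : C → Prop} (h0 : p c)
    (hs : ∀ (y : C) (i : ZMod n) (z : C), p y → B.Btw c d y → B.adj i y z → z ≠ y → B.Btw c d z →
      B.wall i y ∈ B.Sep y d → B.σ (B.wall i y) z = B.σ (B.wall i y) d → B.dist c z = B.dist c y + 1 → p z) : p d := by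
  have key : ∀ k y, B.dist y d = k → B.Btw c d y → p y → p d := by
    intro k
    induction k with
    | zero =>
      intro y hk _ hp
      rw [← B.dist_eq_zero hk]
      exact hp
    | succ k ih =>
      intro y hk hb hp
      have hne : y ≠ d := by
        intro h
        rw [h, B.dist_self] at hk
        omega
      obtain ⟨i, z, hz, hzy, hzσ, hsep, hbz, hd, _⟩ := B.exists_first hne
      have hbz' := B.Btw_trans hb hbz
      have e1 := B.Btw_dist hb
      have e2 := B.Btw_dist hbz'
      exact ih z (by omega) hbz' (hs y i z hp hb hz hzy hbz' hsep hzσ (by omega))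
  exact key _ c rfl (fun T => Or.inl rfl) h0

end Bldg

end QFC
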