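import Pool.Agent.QFC.K02

/-! # K03 : balls determine apartments -/

open scoped Classical

namespace QFC

namespace Bldg

variable {n : ℕ} {C : Type} (B : Bldg n C)
variable {η η' : B.Wall → B.Sheet}

/-- two chambers different from `y` of the same panel of an apartment coincide -/
theorem k03_other_unique (hη : B.IsRoller η) {S : Set C} (hS : S ∈ B.Apt η) {i : ZMod n} {y d z : C} (hy : y ∈ S)
    (hd : d ∈ S) (hz : z ∈ S) (hyd : B.adj i y d) (hyz : B.adj i y z) (hd' : d ≠ y) (hz' : z ≠ y) : d = z := by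
  obtain ⟨f, _, hf⟩ := B.Apt_other hη hS i hy
  have m1 : d ∈ S ∩ B.panel i y := ⟨hd, hyd⟩
  have m2 : z ∈ S ∩ B.panel i y := ⟨hz, hyz⟩
  rw [hf] at m1 m2
  rcases m1 with m1 | m1
  · exact absurd m1 hd'
  · rcases m2 with m2 | m2
    · exact absurd m2 hz'
    · rw [Set.mem_singleton_iff] at m1 m2
      rw [m1, m2]

/-- (the roots of `S` and `S'` may be different.) `⊇` clear. `⊆`: let `c ∈ S'`, `dist e c ≤ ρ`; all chambers between `e` and `c` are in `S'` (`Apt_convex`, `e ∈ S'`). `geo_induction` with `p y := y ∈ S`: for a step `y → z` across `i`, `S ∩ panel i y = {y, d}`,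
`dist e d ≤ dist e y + 1 = dist e z ≤ ρ`, so `d ∈ S'`; `S' ∩ panel i y` has only two elements `y, z`, so `d = z`. -/
theorem Apt_ball (hη : B.IsRoller η) (hη' : B.IsRoller η') {S S' : Set C} (hS : S ∈ B.Apt η) (hS' : S' ∈ B.Apt η') {e : C} {ρ : ℕ}
    (he : e ∈ S) (h : S ∩ B.ball e ρ ⊆ S') : S' ∩ B.ball e ρ = S ∩ B.ball e ρ := by
  apply Set.Subset.antisymm
  · rintro c ⟨hc, hcρ⟩
    have hcρ' : B.dist e c ≤ ρ := hcρ
    have heS' : e ∈ S' := h ⟨he, by show B.dist e e ≤ ρ; rw [B.dist_self]; exact Nat.zero_le _⟩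
    refine ⟨?_, hcρ⟩
    refine B.geo_induction (c := e) (d := c) (p := fun y => y ∈ S) he ?_
    intro y i z hy hby hyz hzy hbz _ _ hdz
    obtain ⟨d, hdy, hd⟩ := B.Apt_other hη hS i hy
    have hdm : d ∈ S ∩ B.panel i y := by
      rw [hd]
      exact Or.inr rfl
    have hdd : B.dist e d ≤ ρ := by
      have e1 := B.dist_triangle e y d
      have e2 := B.dist_le_one hdm.2
      have e3 := B.Btw_dist hbz
      omega
    have hdS' : d ∈ S' := h ⟨hdm.1, hdd⟩
    have hzS' : z ∈ S' := B.Apt_convex hη' hS' heS' hc hbz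
    have hyS' : y ∈ S' := B.Apt_convex hη' hS' heS' hc hby
    have hdz' : d = z := B.k03_other_unique hη' hS' hyS' hdS' hzS' hdm.2 hyz hdy hzy
    rw [← hdz']
    exact hdm.1
  · rintro c ⟨hc, hcρ⟩
    exact ⟨h ⟨hc, hcρ⟩, hcρ⟩

theorem Apt_eq_of_subset (hη : B.IsRoller η) {S S' : Set C} (hS : S ∈ B.Apt η) (hS' : S' ∈ B.Apt η)
    (hne : S.Nonempty) (h : S ⊆ S') : S = S' := by
  apply Set.Subset.antisymm h
  intro c hc
  obtain ⟨e, he⟩ := hne
  have h1 := B.Apt_ball hη hη hS hS' he (ρ := B.dist e c) (fun x hx => h hx.1)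
  have h2 : c ∈ S' ∩ B.ball e (B.dist e c) := ⟨hc, le_refl (B.dist e c)⟩
  rw [h1] at h2
  exact h2.1

/-- the half of an apartment on the root side of a wall determines the same half of any apartment containing it. `geo_induction` from `c` to `y` with `p z := z ∈ A`: (all `z` between `c` and `y` have `σ T z = η T`, and are in `S` by convexity, `c ∈ S` by `h`.) A step
`z → z'` across `i`: `A ∩ panel i z = {z, d}`. If `σ T d = η T` then `d ∈ S`, so `d = z'` (`S` has two chambers in this panel). If `σ T d ≠ η T` then `T = wall i z` (`σ T` changes), and `σ T z' = η T = σ T z` contradicts `z' ≠ z` (`gate_unique`). -/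
theorem Apt_half_eq (hη : B.IsRoller η) {A S : Set C} (hA : A ∈ B.Apt η) (hS : S ∈ B.Apt η) {T : B.Wall} {c : C}
    (hc : c ∈ A) (hcT : B.σ T c = η T) (h : ∀ x ∈ A, B.σ T x = η T → x ∈ S) {y : C} (hy : y ∈ S)
    (hyT : B.σ T y = η T) : y ∈ A := by
  have hcS : c ∈ S := h c hc hcT
  refine B.geo_induction (c := c) (d := y) (p := fun z => z ∈ A) hc ?_
  intro z i z' hz hbz hzz' hne hbz' _ _ _
  have hσ : ∀ w, B.Btw c y w → B.σ T w = η T := by
    intro w hw
    rcases hw T with h1 | h1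
    · exact h1.trans hcT
    · exact h1.trans hyT
  have hzS : z ∈ S := B.Apt_convex hη hS hcS hy hbz
  have hzS' : z' ∈ S := B.Apt_convex hη hS hcS hy hbz'
  obtain ⟨d, hdz, hd⟩ := B.Apt_other hη hA i hz
  have hdm : d ∈ A ∩ B.panel i z := by
    rw [hd]
    exact Or.inr rfl
  by_cases hdT : B.σ T d = η T
  · have hdS : d ∈ S := h d hdm.1 hdT
    have hdz' : d = z' := B.k03_other_unique hη hS hzS hdS hzS' hdm.2 hzz' hdz hne
    rw [← hdz']
    exact hdm.1
  · exfalso
    have hTw : T = B.wall i z := by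
      by_contra hTw
      apply hdT
      rw [← B.σ_eq hdm.2 hTw]
      exact hσ z hbz
    apply hne
    apply B.gate_unique hzz' (B.adj_refl i z)
    rw [← hTw, hσ z hbz, hσ z' hbz']

end Bldg

end QFC
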