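import Pool.Agent.QFC.K02

/-! # K1 : going away from a wall -/

open scoped Classical

namespace QFC

namespace Bldg

variable {n : ℕ} {C : Type} (B : Bldg n C)
variable {η : B.Wall → B.Sheet}

/-- the wall `wall i c` is different from `T` and has `T` on the same side as `c` -/
def Away (T : B.Wall) (i : ZMod n) (c : C) : Prop :=
  B.wall i c ≠ T ∧ ∀ t, B.On T t → B.σ (B.wall i c) t = B.σ (B.wall i c) c

/-- a type `≠ i`, `≠ i ± 1` -/
private theorem k1_not_tadj {n : ℕ} (hn : 6 ≤ n) {i : ZMod n} {k : ℕ} (h2 : 2 ≤ k) (h4 : k ≤ 4) :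
    i + (k : ZMod n) ≠ i ∧ ¬ TAdj i (i + (k : ZMod n)) := by
  refine ⟨?_, ?_⟩
  · intro h
    have h1 : ((k : ℕ) : ZMod n) = 0 := by simpa using h
    exact natCast_ne_zero hn (by omega) (by omega) h1
  · rintro (h | h)
    · have h1 : ((k : ℕ) : ZMod n) = 1 := by simpa using h
      obtain ⟨l, rfl⟩ : ∃ l, k = l + 1 := ⟨k - 1, by omega⟩
      have h3 : ((l : ℕ) : ZMod n) = 0 := by
        push_cast at h1
        simpa using h1
      exact natCast_ne_zero hn (by omega) (by omega) h3
    · have h1 : (((k + 1 : ℕ)) : ZMod n) = 0 := by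
        push_cast
        rw [add_assoc] at h
        simpa using h
      exact natCast_ne_zero hn (by omega) (by omega) h1

/-- two walls of different, not neighbouring types do not cross -/
private theorem k1_not_cross {i j : ZMod n} (h : ¬ TAdj i j) (c d : C) :
    ¬ B.Cross (B.wall i c) (B.wall j d) := by
  intro hx
  have h1 := hx.1
  rw [B.typ_wall, B.typ_wall] at h1
  exact h h1

/-- Count the bad sides `i`, i.e. `¬ Away T i c`. (1) `wall i c = T`: only `i = typ T`, and then `c` is on `T`. (2) `Cross (wall i c) T`: `i ∈ {typ T - 1, typ T + 1}`. (3) `wall i c ≠ T`, not crossing `T`, separating `c` from some (hence every, `const_on`) chamber of `T`. Two different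
sides `i, j` of kind (3) are neighbours: otherwise the walls do not cross, `dichotomy` with the common chamber `c` at a chamber `t` on `T` gives `σ (wall i c) t = σ (wall i c) c` or the same for `j`. So there are at most two sides of kind (3) (`TAdj_cases`), and none if `c` is on `T` (`const_on` with `t = c`).
Total `≤ 3` if `c` is on `T`, `≤ 4` otherwise; `n ≥ 6`. (Concretely: the bad sides are contained in `{typ T, typ T ± 1}` resp. in `{typ T ± 1} ∪ {a, b}`; use `Finset.card` with `Fintype.card (ZMod n) = n`.) -/
theorem exists_away_side (T : B.Wall) (c : C) : ∃ i, B.Away T i c := by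
  by_contra hno
  push Not at hno
  have hi := k1_not_tadj B.hn (i := B.typ T) (k := 2) (by omega) (by omega)
  have hj := k1_not_tadj B.hn (i := B.typ T) (k := 4) (by omega) (by omega)
  have hij := k1_not_tadj B.hn (i := B.typ T + ((2 : ℕ) : ZMod n)) (k := 2) (by omega) (by omega)
  have he : B.typ T + ((2 : ℕ) : ZMod n) + ((2 : ℕ) : ZMod n) = B.typ T + ((4 : ℕ) : ZMod n) := by
    push_cast
    ring
  rw [he] at hij
  set i := B.typ T + ((2 : ℕ) : ZMod n) with hidef
  set j := B.typ T + ((4 : ℕ) : ZMod n) with hjdef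
  have hiT : B.wall i c ≠ T := by
    intro h
    have := B.typ_wall i c
    rw [h] at this
    exact hi.1 this.symm
  have hjT : B.wall j c ≠ T := by
    intro h
    have := B.typ_wall j c
    rw [h] at this
    exact hj.1 this.symm
  have hjx : ¬ B.Cross (B.wall j c) T := by
    intro h
    have h1 := h.1
    rw [B.typ_wall] at h1
    exact hj.2 h1.symm
  have hbi := hno i
  have hbj := hno j
  unfold Away at hbi hbj
  push Not at hbi hbj
  obtain ⟨t, ht, hti⟩ := hbi hiT
  obtain ⟨t', ht', htj⟩ := hbj hjT
  rw [← B.const_on hjT hjx ht ht'] at htj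
  rcases B.dichotomy (B.wall_ne_of_ne hij.1.symm c c) (B.k1_not_cross hij.2 c c) (B.On_wall i c)
    (B.On_wall j c) t with h | h
  · exact hti h
  · exact htj h

/-- `U = wall i c = wall i c'` and `V = wall j c'` are both on `c'`, of different non-neighbouring types, so they do not cross. `t` on `T`: `σ U t = σ U c ≠ σ U c'` (`σ_ne`); `dichotomy` for `U, V` with the common chamber `c'` at `t`: `σ V t = σ V c'`. `V ≠ T`: if `V = T` then `c'` is on `T` and
`Away T i c` gives `σ U c' = σ U c`. -/
theorem away_next {T : B.Wall} {i j : ZMod n} {c c' : C} (h1 : B.Away T i c) (h : B.adj i c c') (hne : c' ≠ c)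
    (hj : j ≠ i) (hj' : ¬ TAdj i j) : B.Away T j c' := by
  have hs := B.σ_ne h hne.symm
  have hw := B.wall_adj h
  refine ⟨?_, ?_⟩
  · intro hV
    have hon : B.On T c' := by
      rw [← hV]
      exact B.On_wall j c'
    exact hs (h1.2 c' hon).symm
  · intro t ht
    have h2 := h1.2 t ht
    rcases B.dichotomy (B.wall_ne_of_ne hj.symm c' c') (B.k1_not_cross hj' c' c') (B.On_wall i c')
      (B.On_wall j c') t with h3 | h3
    · exfalso
      rw [← hw, h2] at h3
      exact hs h3
    · exact h3

end Bldg

end QFC
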