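import Pool.Agent.QFC.K1

/-! # K1b : paths going away from a wall -/

open scoped Classical

namespace QFC

namespace Bldg

variable {n : ℕ} {C : Type} (B : Bldg n C)
variable {η : B.Wall → B.Sheet}

/-- **Paths going away.** Let `c 0 = c`, `c (l+1)` := the other chamber of `S` in the panel `(τ l, c l)` (`Apt_other`; recursion on `S` as a subtype). By `away_next` `Away T (τ l) (c l)` for all `l`. Induction on `l`: `dist (c 0) (c l) = l`, `σ T (c l) = σ T (c 0)`, and `Sep (c 0) (c l) ⊆ Sep t (c l)` for every `t` on `T`: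
`U = wall (τ l) (c l)` is not in `Sep t (c l)` (`Away`), hence not in `Sep (c 0) (c l)`; `Sep x (c (l+1)) = Sep x (c l) ∪ {U}` for `x = c 0` and for `x = t`. `U ≠ T` keeps `σ T`. -/
theorem away_path (hη : B.IsRoller η) {S : Set C} (hS : S ∈ B.Apt η) {c : C} (hc : c ∈ S) (T : B.Wall) (τ : ℕ → ZMod n)
    (h0 : B.Away T (τ 0) c) (hτ : ∀ l, τ (l + 1) ≠ τ l ∧ ¬ TAdj (τ l) (τ (l + 1))) :
    ∃ p : ℕ → C, p 0 = c ∧ (∀ l, p l ∈ S) ∧ (∀ l, B.adj (τ l) (p l) (p (l + 1))) ∧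
      ∀ l, B.dist c (p l) = l ∧ B.σ T (p l) = B.σ T c ∧
        ∀ t, B.On T t → B.Sep c (p l) ⊆ B.Sep t (p l) ∧ l ≤ B.dist t (p l) := by
  have hex : ∀ (i : ZMod n) (x : S), ∃ y : S, (y : C) ≠ x ∧ B.adj i x y := by
    rintro i ⟨x, hx⟩
    obtain ⟨d, h1, h2⟩ := B.Apt_other hη hS i hx
    have h3 : d ∈ S ∩ B.panel i x := by
      rw [h2]
      exact Or.inr rfl
    exact ⟨⟨d, h3.1⟩, h1, h3.2⟩
  choose o ho1 ho2 using hex
  obtain ⟨p, hp0, hp⟩ : ∃ p : ℕ → S, p 0 = ⟨c, hc⟩ ∧ ∀ l, p (l + 1) = o (τ l) (p l) :=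
    ⟨fun l => Nat.rec ⟨c, hc⟩ (fun l x => o (τ l) x) l, rfl, fun _ => rfl⟩
  have hadj : ∀ l, B.adj (τ l) (p l : C) (p (l + 1) : C) := fun l => by
    rw [hp l]
    exact ho2 (τ l) (p l)
  have hne : ∀ l, (p (l + 1) : C) ≠ p l := fun l => by
    rw [hp l]
    exact ho1 (τ l) (p l)
  have haway : ∀ l, B.Away T (τ l) (p l : C) := by
    intro l
    induction l with
    | zero =>
      rw [hp0]
      exact h0
    | succ l ih => exact B.away_next ih (hadj l) (hne l) (hτ l).1 (hτ l).2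
  obtain ⟨t0, ht0⟩ := B.wall_surj T
  have ht0' : B.On T t0 := ht0
  have key : ∀ l, B.dist c (p l : C) = l ∧ B.σ T (p l : C) = B.σ T c ∧
      ∀ t, B.On T t → B.Sep c (p l : C) ⊆ B.Sep t (p l : C) := by
    intro l
    induction l with
    | zero =>
      rw [hp0]
      refine ⟨B.dist_self c, rfl, fun t _ => ?_⟩
      show B.Sep c c ⊆ _
      rw [B.Sep_self]
      exact Set.empty_subset _
    | succ l ih =>
      obtain ⟨i1, i2, i3⟩ := ih
      obtain ⟨a1, a2⟩ := haway l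
      have hnt : ∀ t, B.On T t → τ l ∉ B.D (B.pt t) (p l) := by
        intro t ht h
        exact h (a2 t ht).symm
      have hnc : τ l ∉ B.D (B.pt c) (p l) := by
        intro h
        have h1 : B.wall (τ l) (p l) ∈ B.Sep c (p l) := fun h2 => h h2.symm
        have h2 := i3 t0 ht0' h1
        exact h2 (a2 t0 ht0')
      obtain ⟨d1, d2, -⟩ := B.dist_child (hadj l) (hne l).symm hnc
      refine ⟨by rw [d1, i1], ?_, fun t ht => ?_⟩
      · rw [← B.σ_eq (hadj l) (Ne.symm a1)]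
        exact i2
      · obtain ⟨-, f2, -⟩ := B.dist_child (hadj l) (hne l).symm (hnt t ht)
        rw [d2, f2]
        exact Set.insert_subset_insert (i3 t ht)
  refine ⟨fun l => p l, by show (p 0 : C) = c; rw [hp0], fun l => (p l).2, hadj, fun l => ?_⟩
  obtain ⟨k1, k2, k3⟩ := key l
  refine ⟨k1, k2, fun t ht => ⟨k3 t ht, ?_⟩⟩
  have h1 : B.dist c (p l) ≤ B.dist t (p l) := by
    rw [B.dist_eq, B.dist_eq]
    exact Set.ncard_le_ncard (k3 t ht) (B.Sep_finite _ _)
  rw [k1] at h1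
  exact h1

/-- `exists_away_side`, `away_path` with `τ l = i + 2 l` (`i + 2` is neither equal to `i` nor a neighbour) -/
theorem deep_point (hη : B.IsRoller η) {S : Set C} (hS : S ∈ B.Apt η) {c : C} (hc : c ∈ S) (T : B.Wall) (m : ℕ) :
    ∃ d ∈ S, B.dist c d = m ∧ B.σ T d = B.σ T c ∧ ∀ t, B.On T t → m ≤ B.dist t d := by
  obtain ⟨i, hi⟩ := B.exists_away_side T c
  have e1 : (1 : ZMod n) ≠ 0 := by
    have h := natCast_ne_zero B.hn (k := 1) (by norm_num) (by norm_num)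
    rwa [Nat.cast_one] at h
  have e2 : (2 : ZMod n) ≠ 0 := by
    have h := natCast_ne_zero B.hn (k := 2) (by norm_num) (by norm_num)
    rwa [Nat.cast_ofNat] at h
  have e3 : (3 : ZMod n) ≠ 0 := by
    have h := natCast_ne_zero B.hn (k := 3) (by norm_num) (by norm_num)
    rwa [Nat.cast_ofNat] at h
  obtain ⟨p, -, h2, -, h4⟩ := B.away_path hη hS hc T (fun l => i + 2 * (l : ZMod n))
    (by
      have h : i + 2 * ((0 : ℕ) : ZMod n) = i := by rw [Nat.cast_zero]; ring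
      show B.Away T (i + 2 * ((0 : ℕ) : ZMod n)) c
      rw [h]
      exact hi)
    (by
      intro l
      show i + 2 * ((l + 1 : ℕ) : ZMod n) ≠ i + 2 * (l : ZMod n) ∧
        ¬ TAdj (i + 2 * (l : ZMod n)) (i + 2 * ((l + 1 : ℕ) : ZMod n))
      rw [Nat.cast_add, Nat.cast_one]
      refine ⟨fun h => e2 (by linear_combination h), ?_⟩
      rintro (h | h)
      · exact e1 (by linear_combination h)
      · exact e3 (by linear_combination -h))
  exact ⟨p m, h2 m, (h4 m).1, (h4 m).2.1, fun t ht => ((h4 m).2.2 t ht).2⟩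

end Bldg

end QFC
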