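import Pool.Agent.QFC.K1b
import Pool.Agent.QFC.K03

/-! # K3 : compatibility of two far regions -/

open scoped Classical

namespace QFC

/-- `i + k ≠ i`, `i + k` and `i` are not neighbours -/
private theorem k3_tadj {n : ℕ} (hn : 6 ≤ n) {i j : ZMod n} (k : ℕ) (hk : j = i + (k : ZMod n)) (h2 : 2 ≤ k)
    (h4 : k ≤ 4) : (i ≠ j ∧ ¬ TAdj i j) ∧ (j ≠ i ∧ ¬ TAdj j i) := by
  subst hk
  have key : i + (k : ZMod n) ≠ i ∧ ¬ TAdj i (i + (k : ZMod n)) := by
    refine ⟨?_, ?_⟩
    · intro h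
      have h1 : ((k : ℕ) : ZMod n) = 0 := by simpa using h
      exact natCast_ne_zero hn (by omega) (by omega) h1
    · rintro (h | h)
      · have h1 : ((k : ℕ) : ZMod n) = 1 := by simpa using h
        obtain ⟨l, rfl⟩ : ∃ l, k = l + 1 := ⟨k - 1, by omega⟩
        have h3 : ((l : ℕ) : ZMod n) = 0 := by
          push_cast at h1
          simpa using h1
        exact natCast_ne_zero hn (by omega) (by omega) h3
      · have h1 : (((k + 1 : ℕ)) : ZMod n) = 0 := by
          push_cast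
          rw [add_assoc] at h
          simpa using h
        exact natCast_ne_zero hn (by omega) (by omega) h1
  exact ⟨⟨key.1.symm, key.2⟩, key.1, fun h => key.2 h.symm⟩

namespace Bldg

variable {n : ℕ} {C : Type} (B : Bldg n C)
variable {η : B.Wall → B.Sheet}

/-- dichotomy for two walls with a common chamber, types different and not neighbours -/
private theorem k3_dich {i j : ZMod n} (h : i ≠ j ∧ ¬ TAdj i j) (e x : C) :
    B.σ (B.wall i e) x = B.σ (B.wall i e) e ∨ B.σ (B.wall j e) x = B.σ (B.wall j e) e := by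
  refine B.dichotomy (B.wall_ne_of_ne h.1 e e) ?_ (B.On_wall i e) (B.On_wall j e) x
  intro hx
  have h1 := hx.1
  rw [B.typ_wall, B.typ_wall] at h1
  exact h.2 h1

/-- if `T ≠ X = wall j u` does not cross `X` and does not separate... then `σ X a = σ X b` -/
private theorem k3_cross {T : B.Wall} {j : ZMod n} {u a b : C} (hne : T ≠ B.wall j u)
    (ha : B.σ T a ≠ B.σ T u) (hb : B.σ T b ≠ B.σ T u)
    (hab : B.σ (B.wall j u) a ≠ B.σ (B.wall j u) b) : TAdj (B.typ T) j := by
  by_contra hno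
  have hx : ¬ B.Cross T (B.wall j u) := by
    intro h
    have h1 := h.1
    rw [B.typ_wall] at h1
    exact hno h1
  obtain ⟨t, ht⟩ := B.wall_surj T
  have ht' : B.On T t := ht
  have h1 := B.dichotomy hne hx ht' (B.On_wall j u) a
  have h2 := B.dichotomy hne hx ht' (B.On_wall j u) b
  rcases h1 with h1 | h1
  · exact ha h1
  rcases h2 with h2 | h2
  · exact hb h2
  exact hab (h1.trans h2.symm)

/-- **Compatibility of two far regions.** `U₁ = wall (i+1) c1 = wall (i+1) d1`, `U₂ = wall (i-1) d1 = wall (i-1) e1`, `V = wall (i+3) c1`, `W = wall (i+3) e1`. None of the pairs `(V, U₁)` (common chamber `c1`), `(U₁, U₂)` (common `d1`), `(U₂, W)` (common `e1`) crosses (types `i+3, i+1`; `i+1, i-1`; `i-1, i+3`; `n ≥ 6`), and their members are different.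
`dichotomy` for these pairs with the common chamber. At `a`: `σ W a ≠ σ W e1`, so `σ U₂ a = σ U₂ e1 ≠ σ U₂ d1` (`σ_ne`), so `σ U₁ a = σ U₁ d1 ≠ σ U₁ c1`, so `σ V a = σ V c1`. At `b`: `σ V b ≠ σ V c1`, so `σ U₁ b = σ U₁ c1 ≠ σ U₁ d1`, so `σ U₂ b = σ U₂ d1`.
Suppose `σ T a, σ T b, η T` pairwise different; `σ T c1 = η T` (`two_sheet` for `a, c1 ∈ S₁` and for `b, c1 ∈ S₂`). `T ≠ U₁` (`σ U₁ b = σ U₁ c1`), `T ≠ V` (`σ V a = σ V c1`), so `σ T d1 = σ T c1 = η T`; `T ≠ U₂` (`σ U₂ b = σ U₂ d1`). `T` crosses each `X ∈ {U₁, U₂, V}`: otherwise `dichotomy` (`u` on `T`; `c1`, `d1`, `c1` on `X`) at `a` and at `b`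
gives `σ X a = σ X u = σ X b`, but `X` separates `a` from `b`. So `typ T` is a neighbour of `i + 1` and `i - 1` (so `typ T = i`) and of `i + 3`: impossible for `n ≥ 6`. -/
theorem mix (hη : B.IsRoller η) {S₁ S₂ : Set C} (h1 : S₁ ∈ B.Apt η) (h2 : S₂ ∈ B.Apt η) {i : ZMod n} {c1 d1 e1 a b : C}
    (hc1 : c1 ∈ S₁) (hc2 : c1 ∈ S₂) (ha : a ∈ S₁) (hb : b ∈ S₂) (hd : B.adj (i + 1) c1 d1) (hd' : d1 ≠ c1)
    (he : B.adj (i - 1) d1 e1) (he' : e1 ≠ d1) (ha' : B.σ (B.wall (i + 3) e1) a ≠ B.σ (B.wall (i + 3) e1) e1)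
    (hb' : B.σ (B.wall (i + 3) c1) b ≠ B.σ (B.wall (i + 3) c1) c1) (T : B.Wall) :
    B.σ T a = η T ∨ B.σ T b = η T ∨ B.σ T a = B.σ T b := by
  -- the three pairs of types
  have t1 := (k3_tadj B.hn (i := i + 1) (j := i + 3) 2 (by push_cast; ring) (by omega) (by omega))
  have t2 := (k3_tadj B.hn (i := i - 1) (j := i + 1) 2 (by push_cast; ring) (by omega) (by omega))
  have t3 := (k3_tadj B.hn (i := i - 1) (j := i + 3) 4 (by push_cast; ring) (by omega) (by omega))
  have hU1 : B.wall (i + 1) c1 = B.wall (i + 1) d1 := B.wall_adj hd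
  have hU2 : B.wall (i - 1) d1 = B.wall (i - 1) e1 := B.wall_adj he
  have hs1 := B.σ_ne hd hd'.symm
  have hs2 := B.σ_ne he he'.symm
  -- at `a`
  have a1 : B.σ (B.wall (i - 1) d1) a = B.σ (B.wall (i - 1) d1) e1 := by
    rw [hU2]
    exact (B.k3_dich t3.1 e1 a).resolve_right ha'
  have a2 : B.σ (B.wall (i + 1) c1) a = B.σ (B.wall (i + 1) c1) d1 := by
    rw [hU1]
    exact (B.k3_dich t2.2 d1 a).resolve_right (fun h => hs2 (h.symm.trans a1))
  have a3 : B.σ (B.wall (i + 3) c1) a = B.σ (B.wall (i + 3) c1) c1 :=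
    (B.k3_dich t1.2 c1 a).resolve_right (fun h => hs1 (h.symm.trans a2))
  -- at `b`
  have b1 : B.σ (B.wall (i + 1) c1) b = B.σ (B.wall (i + 1) c1) c1 :=
    (B.k3_dich t1.1 c1 b).resolve_right hb'
  have b2 : B.σ (B.wall (i - 1) d1) b = B.σ (B.wall (i - 1) d1) d1 := by
    refine (B.k3_dich t2.1 d1 b).resolve_right (fun h => ?_)
    rw [← hU1] at h
    exact hs1 (b1.symm.trans h)
  by_contra hno
  push Not at hno
  obtain ⟨na, nb, nab⟩ := hno
  have hc : B.σ T c1 = η T := by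
    rcases B.two_sheet hη h1 ha hc1 T with h | h | h
    · exact absurd h na
    · exact h
    rcases B.two_sheet hη h2 hb hc2 T with h' | h' | h'
    · exact absurd h' nb
    · exact h'
    exact absurd (h.trans h'.symm) nab
  have hTU1 : T ≠ B.wall (i + 1) c1 := by
    intro h
    rw [← h] at b1
    exact nb (b1.trans hc)
  have hTV : T ≠ B.wall (i + 3) c1 := by
    intro h
    rw [← h] at a3
    exact na (a3.trans hc)
  have hd1 : B.σ T d1 = η T := (B.σ_eq hd hTU1).symm.trans hc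
  have hTU2 : T ≠ B.wall (i - 1) d1 := by
    intro h
    rw [← h] at b2
    exact nb (b2.trans hd1)
  have x1 : TAdj (B.typ T) (i + 1) := by
    refine B.k3_cross hTU1 (a := a) (b := b) ?_ ?_ ?_
    · rw [hc]; exact na
    · rw [hc]; exact nb
    · rw [a2, b1]; exact hs1.symm
  have x2 : TAdj (B.typ T) (i + 3) := by
    refine B.k3_cross hTV (a := a) (b := b) ?_ ?_ ?_
    · rw [hc]; exact na
    · rw [hc]; exact nb
    · rw [a3]; exact hb'.symm
  have x3 : TAdj (B.typ T) (i - 1) := by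
    refine B.k3_cross hTU2 (a := a) (b := b) ?_ ?_ ?_
    · rw [hd1]; exact na
    · rw [hd1]; exact nb
    · rw [a1, b2]; exact hs2.symm
  have h2' : ((2 : ℕ) : ZMod n) ≠ 0 := natCast_ne_zero B.hn (by omega) (by omega)
  have h4' : ((4 : ℕ) : ZMod n) ≠ 0 := natCast_ne_zero B.hn (by omega) (by omega)
  push_cast at h2' h4'
  rcases x1 with x1 | x1
  · -- `typ T = i`
    have e1' : B.typ T = i := (add_right_cancel x1).symm
    rw [e1'] at x2
    rcases x2 with x2 | x2
    · apply h2'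
      linear_combination x2
    · apply h4'
      linear_combination -x2
  · -- `typ T = i + 2`
    rcases x3 with x3 | x3
    · apply h4'
      linear_combination -x3 - x1
    · apply h2'
      linear_combination x3 - x1

/-- by `exists_on_between` a wall separating `z` from `y` passes between them -/
theorem ball_in_half {T : B.Wall} {z y : C} {m : ℕ} (h : ∀ t, B.On T t → m + 1 ≤ B.dist t z) (hy : B.dist z y ≤ m) :
    B.σ T y = B.σ T z := by
  by_contra hne
  obtain ⟨t, ht, h1, -⟩ := B.exists_on_between (fun hh => hne hh.symm)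
  have h2 := h t ht
  rw [B.dist_comm z t] at h1
  omega

/-- `wall i e`, `wall j e` do not cross (`j ≠ i`, `¬ TAdj i j`); `dichotomy` with the common chamber `e` at `x`: `σ (wall j e) x = σ (wall j e) e ≠ σ (wall j e) z`, so (`exists_on_between`) a chamber of `wall j e` lies between `x` and `z` -/
theorem far_of_wall {i j : ZMod n} (hij : j ≠ i) (hij' : ¬ TAdj i j) {e x z : C} {m : ℕ} (hx : B.σ (B.wall i e) x ≠ B.σ (B.wall i e) e)
    (hz : B.σ (B.wall j e) z ≠ B.σ (B.wall j e) e) (h : ∀ t, B.On (B.wall j e) t → m ≤ B.dist t z) : m ≤ B.dist x z := by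
  have h1 := (B.k3_dich ⟨hij.symm, hij'⟩ e x).resolve_left hx
  have h2 : B.σ (B.wall j e) x ≠ B.σ (B.wall j e) z := by
    rw [h1]
    exact hz.symm
  obtain ⟨t, ht, h3, -⟩ := B.exists_on_between h2
  have h4 := h t ht
  omega

end Bldg

end QFC
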