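import Pool.Agent.QFC.K03

/-! # K4a : branching of a family of apartments -/

open scoped Classical

namespace QFC

namespace Bldg

variable {n : ℕ} {C : Type} (B : Bldg n C)
variable {η : B.Wall → B.Sheet}

/-- **Branching.** Let `I` = the common part. `S ≠ I` or `S' ≠ I`; say (rename) `S₀ ∈ 𝒮`, `y' ∈ S₀ \ I`. Along the geodesic from `a` to `y'` (in `S₀` by convexity; `geo_induction` with `p y := y ∈ I` by contradiction) there are adjacent (side `i`) `c ∈ I`, `c' ∈ S₀ \ I`. (1) `i ∉ D η c`: otherwise the gate `g ≠ c` of the panel is in every member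
(`Apt_gate_mem`), `S₀ ∩ panel = {c, g}` and `c' ∈ {c, g} ⊆ I`. (2) Let `x ∈ I` with `σ T' x ≠ η T'`, `T' = wall i c`. The chamber `g` of the panel with `σ T' g = σ T' x` is between `c` and `x`, so in every member; `g ≠ c` as `σ T' c = η T'`; `S₀ ∩ panel = {c, g}`, so `c' = g ∈ I`, contradiction. -/
theorem exists_branch (hη : B.IsRoller η) {𝒮 : Set (Set C)} (h𝒮 : ∀ S ∈ 𝒮, S ∈ B.Apt η) {a : C} (ha : ∀ S ∈ 𝒮, a ∈ S)
    {S S' : Set C} (hS : S ∈ 𝒮) (hS' : S' ∈ 𝒮) (hne : S ≠ S') :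
    ∃ i c, (∀ S ∈ 𝒮, c ∈ S) ∧ i ∉ B.D η c ∧ ∀ x, (∀ S ∈ 𝒮, x ∈ S) → B.σ (B.wall i c) x = η (B.wall i c) := by
  -- a member with a point outside the common part
  obtain ⟨S₀, hS₀, y', hy', hy'I⟩ : ∃ S₀ ∈ 𝒮, ∃ y' ∈ S₀, ¬ ∀ S ∈ 𝒮, y' ∈ S := by
    by_contra hcon
    push Not at hcon
    apply hne
    ext x
    exact ⟨fun hx => hcon S hS x hx S' hS', fun hx => hcon S' hS' x hx S hS⟩
  -- adjacent chambers
  obtain ⟨i, c, c', hcI, hc', hc'I, hadj⟩ : ∃ (i : ZMod n) (c c' : C), (∀ S ∈ 𝒮, c ∈ S) ∧ c' ∈ S₀ ∧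
      (¬ ∀ S ∈ 𝒮, c' ∈ S) ∧ B.adj i c c' := by
    by_contra hcon
    apply hy'I
    refine B.geo_induction (c := a) (d := y') (p := fun y => ∀ S ∈ 𝒮, y ∈ S) ha ?_
    intro y i z hy _ hyz _ hz _ _ _
    have hzS : z ∈ S₀ := B.Apt_convex hη (h𝒮 S₀ hS₀) (ha S₀ hS₀) hy' hz
    by_contra hzI
    exact hcon ⟨i, y, z, hy, hzS, hzI, hyz⟩
  -- no second common chamber in the panel
  have key : ∀ g, B.adj i c g → g ≠ c → (∀ S ∈ 𝒮, g ∈ S) → False := by
    intro g hg hgc hgI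
    obtain ⟨d, _, hd⟩ := B.Apt_other hη (h𝒮 S₀ hS₀) i (hcI S₀ hS₀)
    have h1 : g ∈ S₀ ∩ B.panel i c := ⟨hgI S₀ hS₀, hg⟩
    have h2 : c' ∈ S₀ ∩ B.panel i c := ⟨hc', hadj⟩
    rw [hd] at h1 h2
    have h1' : g = c ∨ g = d := h1
    have h2' : c' = c ∨ c' = d := h2
    rcases h1' with h1' | h1'
    · exact hgc h1'
    · rcases h2' with h2' | h2'
      · exact hc'I (h2' ▸ hcI)
      · exact hc'I ((h2'.trans h1'.symm) ▸ hgI)
  have hD : i ∉ B.D η c := by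
    intro hD
    obtain ⟨g, hg, hgD⟩ := B.exists_gate_roller hη i c
    refine key g hg ?_ (fun S hS => B.Apt_gate_mem (h𝒮 S hS) (hcI S hS) hg hgD)
    rintro rfl
    exact hgD hD
  refine ⟨i, c, hcI, hD, fun x hx => ?_⟩
  by_contra hne'
  have hc0 : B.σ (B.wall i c) c = η (B.wall i c) := by
    by_contra h
    exact hD h
  obtain ⟨g, hg, hgx⟩ := B.exists_gate i c x
  refine key g hg ?_ (fun S hS => B.Apt_convex hη (h𝒮 S hS) (hcI S hS) (hx S hS) ?_)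
  · rintro rfl
    exact hne' (hgx.symm.trans hc0)
  · intro U
    by_cases hU : U = B.wall i c
    · right
      rw [hU]
      exact hgx
    · left
      exact (B.σ_eq hg hU).symm

end Bldg

end QFC
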