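import Pool.Agent.QFC.K03

/-! # K4d : the inverse limit data, images near points, transfer -/

open scoped Classical

namespace QFC

namespace LimitData

variable {n₁ n₂ : ℕ} {C₁ C₂ : Type} {B₁ : Bldg n₁ C₁} {B₂ : Bldg n₂ C₂}

/-- the inverse limit data -/
def symm (L : LimitData B₁ B₂) : LimitData B₂ B₁ where
  η₁ := L.η₂
  η₂ := L.η₁
  hη₁ := L.hη₂
  hη₂ := L.hη₁
  F := L.G
  G := L.F
  K := L.K
  pair := ⟨L.pair.lipG, L.pair.lipF, L.pair.fg, L.pair.gf⟩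
  Φ := L.Ψ
  Ψ := L.Φ
  Φ_apt := L.Ψ_apt
  Ψ_apt := L.Φ_apt
  ΨΦ := L.ΦΨ
  ΦΨ := L.ΨΦ
  nearΦ := L.nearΨ
  nearΨ := L.nearΦ
  locΦ := L.locΨ
  locΨ := L.locΦ

/-- `x ∈ A = Ψ (Φ A)`: `nearΨ` gives `c ∈ Φ A` with `dist x (G c) ≤ K`; `dist (F x) c ≤ dist (F x) (F (G c)) + K ≤ K K + 2 K` -/
theorem near_image (L : LimitData B₁ B₂) {A : Set C₁} (hA : A ∈ B₁.Apt L.η₁) {x : C₁} (hx : x ∈ A) :
    ∃ c ∈ L.Φ A, B₂.dist (L.F x) c ≤ L.K * L.K + 2 * L.K := by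
  have hx' : x ∈ L.Ψ (L.Φ A) := by
    rw [L.ΨΦ A hA]
    exact hx
  obtain ⟨c, hc, hd⟩ := L.nearΨ (L.Φ A) (L.Φ_apt A hA) x hx'
  refine ⟨c, hc, ?_⟩
  have h1 := B₂.dist_triangle (L.F x) (L.F (L.G c)) c
  have h2 := L.pair.lipF x (L.G c)
  have h3 := L.pair.fg c
  have h4 : L.K * B₁.dist x (L.G c) ≤ L.K * L.K := Nat.mul_le_mul_left _ hd
  omega

/-- `locΦ` and `Apt_ball` -/
theorem transfer (L : LimitData B₁ B₂) (r : ℕ) : ∃ R, ∀ A ∈ B₁.Apt L.η₁, ∀ A' ∈ B₁.Apt L.η₁, ∀ x ∈ A,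
    A ∩ B₁.ball x R ⊆ A' → L.Φ A ∩ B₂.ball (L.F x) r = L.Φ A' ∩ B₂.ball (L.F x) r := by
  obtain ⟨R, hR⟩ := L.locΦ r
  refine ⟨R, ?_⟩
  intro A hA A' hA' x hx h
  exact hR A hA A' hA' x (B₁.Apt_ball L.hη₁ L.hη₁ hA hA' hx h).symm

end LimitData

end QFC
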