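import Pool.Agent.QFC.K4a
import Pool.Agent.QFC.K4d
import Pool.Agent.QFC.K3
import Pool.Agent.QFC.Pr

/-! # K4b : two consequences of the limit data -/

open scoped Classical

namespace QFC

namespace LimitData

variable {n₁ n₂ : ℕ} {C₁ C₂ : Type} {B₁ : Bldg n₁ C₁} {B₂ : Bldg n₂ C₂}

/-- `A ∈ Apt η₁`, `T₀` a wall. For every `ρ` there is `R` such that for every point `x ∈ A` of the half `σ T₀ = η T₀` that is `R`-deep and every `A' ∈ Apt η₁` containing this half of `A`: `Φ A ∩ ball (F x) ρ ⊆ Φ A'`. (`transfer` gives `R'`; `R = R' + 1`; `A ∩ ball x R' ⊆` half `⊆ A'` by `ball_in_half`.) -/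
theorem deep_image (L : LimitData B₁ B₂) {A : Set C₁} (hA : A ∈ B₁.Apt L.η₁) (T₀ : B₁.Wall) (ρ : ℕ) :
    ∃ R, ∀ x ∈ A, B₁.σ T₀ x = L.η₁ T₀ → (∀ t, B₁.On T₀ t → R ≤ B₁.dist t x) →
      ∀ A' ∈ B₁.Apt L.η₁, (∀ y ∈ A, B₁.σ T₀ y = L.η₁ T₀ → y ∈ A') → L.Φ A ∩ B₂.ball (L.F x) ρ ⊆ L.Φ A' := by
  obtain ⟨R', hR'⟩ := L.transfer ρ
  refine ⟨R' + 1, fun x hx hxT hdeep A' hA' hh => ?_⟩
  have h1 : A ∩ B₁.ball x R' ⊆ A' := by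
    rintro y ⟨hyA, hyb⟩
    apply hh y hyA
    rw [B₁.ball_in_half hdeep hyb]
    exact hxT
  rw [hR' A hA A' hA' x hx h1]
  exact Set.inter_subset_left

/-- **Escape.** Let `A ∈ Apt η₁`, `S ∈ Apt η₂`, `x₀ ∈ A`, `σ T₀ x₀ = η T₀`, `B ∈ Apt η₁` contain the half `H = {x ∈ A | σ T₀ x = η T₀}`, `T'` a wall of `B₂` such that all points lying in all `Φ A'` (`A' ∈ Apt η₁`, `A' ⊇ H`) have `σ T' = η T'`, and suppose that for every `m` there is `z ∈ Φ B` with `S ∩ ball z m = Φ B ∩ ball z m` and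
`m ≤ dist u z` whenever `σ T' u = η T'`. Then some `y ∈ B ∩ Ψ S` has `σ T₀ y ≠ η T₀`.
Proof. `K₀ = K K + 2 K`; `R_c` from `transfer` for `L.symm` with radius `K₀`; `R` from `deep_image` with `ρ = K₀`; `M = (K K₀ + 2 K) + (K R + K) + K₀`; `m = max R_c (M + 1)`, `z` as given. `near_image` for `L.symm` (`z ∈ Φ B`): `y ∈ Ψ (Φ B) = B` with `dist (G z) y ≤ K₀`. `Ψ (Φ B) ∩ ball (G z) K₀ = Ψ S ∩ ball (G z) K₀` so `y ∈ Ψ S`.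
Suppose `σ T₀ y = η T₀`. Then `y ∈ A` (`Apt_half_eq` with `c = x₀`). `deep_point` in `A` from `y`: `x_d ∈ A`, `dist y x_d = R`, `σ T₀ x_d = η T₀`, `R`-deep. `near_image`: `c ∈ Φ A`, `dist (F x_d) c ≤ K₀`; by `deep_image` `c` lies in all `Φ A'`, so `σ T' c = η T'` and `m ≤ dist c z`. But
`dist z c ≤ dist z (F y) + dist (F y) (F x_d) + dist (F x_d) c ≤ (K K₀ + 2 K) + (K R + K) + K₀ = M < m`. Contradiction. -/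
theorem escape (L : LimitData B₁ B₂) {A B : Set C₁} (hA : A ∈ B₁.Apt L.η₁) (hB : B ∈ B₁.Apt L.η₁) {T₀ : B₁.Wall} {x₀ : C₁}
    (hx₀ : x₀ ∈ A) (hx₀T : B₁.σ T₀ x₀ = L.η₁ T₀) (hAB : ∀ y ∈ A, B₁.σ T₀ y = L.η₁ T₀ → y ∈ B) {S : Set C₂}
    (hS : S ∈ B₂.Apt L.η₂) (T' : B₂.Wall)
    (h : ∀ c, (∀ A' ∈ B₁.Apt L.η₁, (∀ y ∈ A, B₁.σ T₀ y = L.η₁ T₀ → y ∈ A') → c ∈ L.Φ A') → B₂.σ T' c = L.η₂ T')
    (hz : ∀ m, ∃ z ∈ L.Φ B, S ∩ B₂.ball z m = L.Φ B ∩ B₂.ball z m ∧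
        ∀ u, B₂.σ T' u = L.η₂ T' → m ≤ B₂.dist u z) :
    ∃ y ∈ B, y ∈ L.Ψ S ∧ B₁.σ T₀ y ≠ L.η₁ T₀ := by
  obtain ⟨Rc, hRc⟩ := L.symm.transfer (L.K * L.K + 2 * L.K)
  obtain ⟨R, hR⟩ := L.deep_image hA T₀ (L.K * L.K + 2 * L.K)
  obtain ⟨z, hzB, hz1, hz2⟩ := hz (max Rc (((L.K * (L.K * L.K + 2 * L.K) + 2 * L.K) + (L.K * R + L.K) + (L.K * L.K + 2 * L.K)) + 1))
  have hΦB : L.Φ B ∈ B₂.Apt L.η₂ := L.Φ_apt B hB
  obtain ⟨y, hy1, hy2⟩ := L.symm.near_image (A := L.Φ B) hΦB hzB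
  have hyB : y ∈ B := by
    have h1 : L.symm.Φ (L.Φ B) = B := L.ΨΦ B hB
    rw [h1] at hy1
    exact hy1
  have hyS : y ∈ L.Ψ S := by
    have h1 : L.Φ B ∩ B₂.ball z Rc ⊆ S := by
      rintro u ⟨hu1, hu2⟩
      have hu3 : u ∈ L.Φ B ∩ B₂.ball z (max Rc (((L.K * (L.K * L.K + 2 * L.K) + 2 * L.K) + (L.K * R + L.K) + (L.K * L.K + 2 * L.K)) + 1)) :=
        ⟨hu1, show B₂.dist z u ≤ _ from le_trans (show B₂.dist z u ≤ Rc from hu2) (le_max_left _ _)⟩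
      rw [← hz1] at hu3
      exact hu3.1
    have h2 := hRc (L.Φ B) hΦB S hS z hzB h1
    have h3 : y ∈ L.symm.Φ (L.Φ B) ∩ B₁.ball (L.symm.F z) (L.K * L.K + 2 * L.K) := ⟨hy1, hy2⟩
    rw [h2] at h3
    exact h3.1
  refine ⟨y, hyB, hyS, fun hyT => ?_⟩
  have hyA : y ∈ A := B₁.Apt_half_eq L.hη₁ hA hB hx₀ hx₀T hAB hyB hyT
  obtain ⟨xd, hxd1, hxd2, hxd3, hxd4⟩ := B₁.deep_point L.hη₁ hA hyA T₀ R
  have hxdT : B₁.σ T₀ xd = L.η₁ T₀ := by rw [hxd3, hyT]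
  obtain ⟨c, hc1, hc2⟩ := L.near_image hA hxd1
  have hcT : B₂.σ T' c = L.η₂ T' := by
    apply h
    intro A' hA' hh
    exact hR xd hxd1 hxdT hxd4 A' hA' hh ⟨hc1, hc2⟩
  have h1 := hz2 c hcT
  have hy2' : B₁.dist (L.G z) y ≤ L.K * L.K + 2 * L.K := hy2
  have h2 := L.pair.symm.near hy2'
  have h3 := L.pair.lipF y xd
  rw [hxd2] at h3
  have t1 := B₂.dist_triangle c (L.F y) z
  have t2 := B₂.dist_triangle c (L.F xd) (L.F y)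
  have t3 := B₂.dist_comm c (L.F xd)
  have t4 := B₂.dist_comm (L.F xd) (L.F y)
  have t5 : ((L.K * (L.K * L.K + 2 * L.K) + 2 * L.K) + (L.K * R + L.K) + (L.K * L.K + 2 * L.K)) + 1 ≤ B₂.dist c z :=
    le_trans (le_max_right _ _) h1
  omega

end LimitData

end QFC
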