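import Mathlib
import Pool.Agent.QFC.Defs

/-!
# Invariance under isomorphisms, and first facts on word metrics
-/

namespace Pool.Agent.QFC

section Basic

variable {G : Type} [Group G]

/-- The set of lengths of words representing `g`. -/
def lenSet (S : Finset G) (g : G) : Set ℕ :=
  {k : ℕ | ∃ l : List G, l.length = k ∧ (∀ x ∈ l, x ∈ S ∨ x⁻¹ ∈ S) ∧ l.prod = g}

theorem wordLength_def (S : Finset G) (g : G) : wordLength S g = sInf (lenSet S g) := rfl

theorem lenSet_nonempty {S : Finset G} (hS : Generates S) (g : G) : (lenSet S g).Nonempty := by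
  have hg : g ∈ Subgroup.closure (S : Set G) := by
    have : Subgroup.closure (S : Set G) = ⊤ := hS
    rw [this]; trivial
  induction hg using Subgroup.closure_induction with
  | mem x hx => exact ⟨1, [x], rfl, by simpa using Or.inl hx, by simp⟩
  | one => exact ⟨0, [], rfl, by simp, rfl⟩
  | mul x y _ _ hx hy =>
    obtain ⟨_, l, -, hl, rfl⟩ := hx
    obtain ⟨_, l', -, hl', rfl⟩ := hy
    refine ⟨_, l ++ l', rfl, ?_, by simp⟩
    intro z hz
    rcases List.mem_append.1 hz with h | h
    · exact hl z h
    · exact hl' z h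
  | inv x _ hx =>
    obtain ⟨_, l, -, hl, rfl⟩ := hx
    refine ⟨_, (l.map (·⁻¹)).reverse, rfl, ?_, ?_⟩
    · intro z hz
      obtain ⟨y, hy, rfl⟩ := List.mem_map.1 (List.mem_reverse.1 hz)
      rw [inv_inv]
      exact (hl y hy).symm
    · rw [List.prod_inv_reverse]

theorem exists_word {S : Finset G} (hS : Generates S) (g : G) :
    ∃ l : List G, l.length = wordLength S g ∧ (∀ x ∈ l, x ∈ S ∨ x⁻¹ ∈ S) ∧ l.prod = g :=
  Nat.sInf_mem (lenSet_nonempty hS g)

theorem wordLength_le {S : Finset G} {g : G} (l : List G) (hl : ∀ x ∈ l, x ∈ S ∨ x⁻¹ ∈ S)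
    (hp : l.prod = g) : wordLength S g ≤ l.length :=
  Nat.sInf_le ⟨l, rfl, hl, hp⟩

theorem wordLength_one (S : Finset G) : wordLength S (1 : G) = 0 :=
  Nat.le_zero.1 (wordLength_le (S := S) [] (by simp) rfl)

theorem wordLength_inv_le {S : Finset G} (hS : Generates S) (g : G) :
    wordLength S g⁻¹ ≤ wordLength S g := by
  obtain ⟨l, h1, h2, h3⟩ := exists_word hS g
  rw [← h1]
  have := wordLength_le (S := S) (g := g⁻¹) ((l.map (·⁻¹)).reverse) (by
    intro z hz
    obtain ⟨y, hy, rfl⟩ := List.mem_map.1 (List.mem_reverse.1 hz)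
    rw [inv_inv]
    exact (h2 y hy).symm) (by rw [← h3, List.prod_inv_reverse])
  simpa using this

theorem wordLength_inv {S : Finset G} (hS : Generates S) (g : G) :
    wordLength S g⁻¹ = wordLength S g := by
  refine le_antisymm (wordLength_inv_le hS g) ?_
  have := wordLength_inv_le hS g⁻¹
  rwa [inv_inv] at this

theorem wordLength_mul_le {S : Finset G} (hS : Generates S) (g h : G) :
    wordLength S (g * h) ≤ wordLength S g + wordLength S h := by
  obtain ⟨l, h1, h2, h3⟩ := exists_word hS g
  obtain ⟨l', h1', h2', h3'⟩ := exists_word hS h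
  have := wordLength_le (S := S) (g := g * h) (l ++ l') (by
    intro z hz
    rcases List.mem_append.1 hz with h | h
    · exact h2 z h
    · exact h2' z h) (by rw [List.prod_append, h3, h3'])
  rw [List.length_append] at this
  omega

theorem eq_one_of_wordLength {S : Finset G} (hS : Generates S) {g : G}
    (h : wordLength S g = 0) : g = 1 := by
  obtain ⟨l, h1, h2, h3⟩ := exists_word hS g
  rw [h] at h1
  rw [← h3, List.length_eq_zero_iff.1 h1]
  rfl

theorem wordDist_self (S : Finset G) (g : G) : wordDist S g g = 0 := by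
  unfold wordDist
  rw [inv_mul_cancel, wordLength_one]

theorem wordDist_comm {S : Finset G} (hS : Generates S) (g h : G) :
    wordDist S g h = wordDist S h g := by
  unfold wordDist
  rw [← wordLength_inv hS, mul_inv_rev, inv_inv]

theorem wordDist_triangle {S : Finset G} (hS : Generates S) (g h k : G) :
    wordDist S g k ≤ wordDist S g h + wordDist S h k := by
  unfold wordDist
  have : g⁻¹ * k = (g⁻¹ * h) * (h⁻¹ * k) := by group
  rw [this]
  exact wordLength_mul_le hS _ _

theorem eq_of_wordDist {S : Finset G} (hS : Generates S) {g h : G} (hd : wordDist S g h = 0) :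
    g = h := by
  have := eq_one_of_wordLength hS hd
  exact inv_mul_eq_one.1 this

theorem wordDist_mul_left (S : Finset G) (k g h : G) :
    wordDist S (k * g) (k * h) = wordDist S g h := by
  unfold wordDist
  congr 1
  group

/-- Word metrics are geodesic. -/
theorem wordDist_geo {S : Finset G} (hS : Generates S) (g h : G) (k : ℕ)
    (hk : k ≤ wordDist S g h) : ∃ z, wordDist S g z = k ∧ wordDist S z h = wordDist S g h - k := by
  obtain ⟨l, h1, h2, h3⟩ := exists_word hS (g⁻¹ * h)
  have hd : wordDist S g h = l.length := by rw [h1]; rfl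
  have ha : wordDist S g (g * (l.take k).prod) ≤ k := by
    unfold wordDist
    rw [inv_mul_cancel_left]
    refine (wordLength_le (S := S) (l.take k) (fun x hx => h2 x (List.mem_of_mem_take hx)) rfl).trans ?_
    rw [List.length_take]
    exact Nat.min_le_left _ _
  have hb : wordDist S (g * (l.take k).prod) h ≤ l.length - k := by
    unfold wordDist
    have h4 : (g * (l.take k).prod)⁻¹ * h = (l.drop k).prod := by
      have h5 : (l.take k).prod * (l.drop k).prod = g⁻¹ * h := by
        rw [← List.prod_append, List.take_append_drop, h3]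
      have h6 : h = g * ((l.take k).prod * (l.drop k).prod) := by rw [h5]; group
      rw [h6]
      group
    rw [h4]
    refine (wordLength_le (S := S) (l.drop k) (fun x hx => h2 x (List.mem_of_mem_drop hx)) rfl).trans ?_
    rw [List.length_drop]
  have hc := wordDist_triangle hS g (g * (l.take k).prod) h
  refine ⟨g * (l.take k).prod, ?_, ?_⟩
  · omega
  · omega

end Basic

section Iso

variable {G H : Type} [Group G] [Group H] (e : G ≃* H)

/-- Image of a finite set. -/
noncomputable def mapF (S : Finset G) : Finset H := S.map e.toEquiv.toEmbedding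

theorem mem_mapF {S : Finset G} {h : H} : h ∈ mapF e S ↔ e.symm h ∈ S := by
  unfold mapF
  rw [Finset.mem_map_equiv]
  rfl

theorem generates_mapF {S : Finset G} (hS : Generates S) : Generates (mapF e S) := by
  unfold Generates
  rw [eq_top_iff]
  intro h _
  obtain ⟨l, -, h2, h3⟩ := exists_word hS (e.symm h)
  have h4 : h = (l.map e).prod := by
    rw [← map_list_prod, h3, MulEquiv.apply_symm_apply]
  rw [h4]
  refine Subgroup.list_prod_mem _ ?_
  intro x hx
  obtain ⟨y, hy, rfl⟩ := List.mem_map.1 hx
  rcases h2 y hy with hy | hy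
  · refine Subgroup.subset_closure ?_
    show e y ∈ mapF e S
    rw [mem_mapF, MulEquiv.symm_apply_apply]
    exact hy
  · rw [← inv_inv (e y)]
    refine Subgroup.inv_mem _ (Subgroup.subset_closure ?_)
    show (e y)⁻¹ ∈ mapF e S
    rw [mem_mapF, ← map_inv, MulEquiv.symm_apply_apply]
    exact hy

theorem wordLength_mapF_le {S : Finset G} (hS : Generates S) (g : G) :
    wordLength (mapF e S) (e g) ≤ wordLength S g := by
  obtain ⟨l, h1, h2, h3⟩ := exists_word hS g
  have := wordLength_le (S := mapF e S) (g := e g) (l.map e) (by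
    intro x hx
    obtain ⟨y, hy, rfl⟩ := List.mem_map.1 hx
    rw [mem_mapF, MulEquiv.symm_apply_apply, mem_mapF, ← map_inv, MulEquiv.symm_apply_apply]
    exact h2 y hy) (by rw [← map_list_prod, h3])
  rw [List.length_map] at this
  omega

theorem wordLength_mapF {S : Finset G} (hS : Generates S) (g : G) :
    wordLength (mapF e S) (e g) = wordLength S g := by
  refine le_antisymm (wordLength_mapF_le e hS g) ?_
  have h1 := wordLength_mapF_le e.symm (generates_mapF e hS) (e g)
  have h2 : mapF e.symm (mapF e S) = S := by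
    ext x
    rw [mem_mapF, mem_mapF]
    simp
  rw [h2, MulEquiv.symm_apply_apply] at h1
  exact h1

theorem wordDist_mapF {S : Finset G} (hS : Generates S) (g h : G) :
    wordDist (mapF e S) (e g) (e h) = wordDist S g h := by
  unfold wordDist
  rw [← map_inv, ← map_mul, wordLength_mapF e hS]

/-- Hyperbolicity is invariant under isomorphisms. -/
theorem IsHyperbolicGroup.of_equiv (e : G ≃* H) (h : IsHyperbolicGroup G) : IsHyperbolicGroup H := by
  obtain ⟨S, hS, δ, hδ⟩ := h
  refine ⟨mapF e S, generates_mapF e hS, δ, ?_⟩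
  intro x y z w
  have := hδ (e.symm x) (e.symm y) (e.symm z) (e.symm w)
  simp only [← wordDist_mapF e hS, MulEquiv.apply_symm_apply] at this
  exact this

/-- Quasi-isometry is invariant under isomorphisms. -/
theorem QIGroups.of_equiv {G' H' : Type} [Group G'] [Group H'] (e : G ≃* G') (e' : H ≃* H')
    (h : QIGroups G H) : QIGroups G' H' := by
  obtain ⟨S, T, hS, hT, f, K, C, h1, h2, h3⟩ := h
  refine ⟨mapF e S, mapF e' T, generates_mapF e hS, generates_mapF e' hT,
    fun x => e' (f (e.symm x)), K, C, ?_, ?_, ?_⟩
  · intro x y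
    have := h1 (e.symm x) (e.symm y)
    rw [wordDist_mapF e' hT]
    simp only [← wordDist_mapF e hS, MulEquiv.apply_symm_apply] at this
    exact this
  · intro x y
    have := h2 (e.symm x) (e.symm y)
    rw [wordDist_mapF e' hT]
    simp only [← wordDist_mapF e hS, MulEquiv.apply_symm_apply] at this
    exact this
  · intro h
    obtain ⟨x, hx⟩ := h3 (e'.symm h)
    refine ⟨e x, ?_⟩
    show wordDist (mapF e' T) (e' (f (e.symm (e x)))) h ≤ C
    rw [MulEquiv.symm_apply_apply]
    have := wordDist_mapF e' hT (f x) (e'.symm h)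
    rw [MulEquiv.apply_symm_apply] at this
    rw [this]
    exact hx

end Iso

end Pool.Agent.QFC
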