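import Mathlib
import Pool.Agent.QFC.Cover
import Pool.Agent.QFC.Transport

/-!
# The fundamental group of a one-vertex complex is quasi-isometric to the chamber graph of the
building with the same parameters
-/

open scoped Classical

namespace QFC

open _root_.Pool.Agent.QFC (wordDist wordLength Generates)

namespace KData

variable {m a b : ℕ} (K : KData m a b)

/-- generators of the fundamental group -/
def g (e : Fin b ⊕ Fin a) : K.Pi := PresentedGroup.of e

/-- the opposite end -/
def opp : Fin b ⊕ Fin a → Fin b ⊕ Fin a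
  | Sum.inl s => Sum.inl (K.ix s)
  | Sum.inr t => Sum.inr (K.iy t)

theorem ix_ix (s : Fin b) (t : Fin a) : K.ix (K.ix s) = s := (K.r1_inv s t).1

theorem iy_iy (s : Fin b) (t : Fin a) : K.iy (K.iy t) = t := (K.r2_inv s t).1

theorem g_mul_opp (e : Fin b ⊕ Fin a) : K.g e * K.g (K.opp e) = 1 := by
  rcases e with s | t
  · have := PresentedGroup.one_of_mem (rels := K.rels)
      (x := FreeGroup.of (Sum.inl s) * FreeGroup.of (Sum.inl (K.ix s)))
      (Or.inl (Or.inl ⟨s, rfl⟩))
    rw [map_mul] at this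
    exact this
  · have := PresentedGroup.one_of_mem (rels := K.rels)
      (x := FreeGroup.of (Sum.inr t) * FreeGroup.of (Sum.inr (K.iy t)))
      (Or.inl (Or.inr ⟨t, rfl⟩))
    rw [map_mul] at this
    exact this

theorem g_opp (e : Fin b ⊕ Fin a) : K.g (K.opp e) = (K.g e)⁻¹ :=
  (inv_eq_of_mul_eq_one_right (K.g_mul_opp e)).symm

/-- states: a vertex of the universal cover and a corner at it -/
abbrev St (K : KData m a b) : Type := K.Pi × (Fin b × Fin a)

/-- move along the `x`-edge of the corner -/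
def mvx (p : K.St) : K.St := (p.1 * K.g (Sum.inl p.2.1), K.r1 p.2)

/-- move along the `y`-edge of the corner -/
def mvy (p : K.St) : K.St := (p.1 * K.g (Sum.inr p.2.2), K.r2 p.2)

theorem mvx_mvx (p : K.St) : K.mvx (K.mvx p) = p := by
  obtain ⟨h, s, t⟩ := p
  unfold mvx r1
  have h1 := K.r1_inv s t
  have h2 := K.g_mul_opp (Sum.inl s)
  refine Prod.ext ?_ (Prod.ext h1.1 h1.2)
  show h * K.g (Sum.inl s) * K.g (Sum.inl (K.ix s)) = h
  rw [mul_assoc]
  have h3 : K.g (Sum.inl s) * K.g (Sum.inl (K.ix s)) = 1 := h2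
  rw [h3, mul_one]

theorem mvy_mvy (p : K.St) : K.mvy (K.mvy p) = p := by
  obtain ⟨h, s, t⟩ := p
  unfold mvy r2
  have h1 := K.r2_inv s t
  have h2 := K.g_mul_opp (Sum.inr t)
  refine Prod.ext ?_ (Prod.ext h1.2 h1.1)
  show h * K.g (Sum.inr t) * K.g (Sum.inr (K.iy t)) = h
  rw [mul_assoc]
  have h3 : K.g (Sum.inr t) * K.g (Sum.inr (K.iy t)) = 1 := h2
  rw [h3, mul_one]

/-- the position and the corner reached after `k` sides of the polygon of the state `p` -/
def coord : ℕ → K.St → K.St
  | 0, p => p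
  | k + 1, p => if (k + 1) % 2 = 0 then K.mvx (coord k p) else K.mvy (coord k p)

theorem coord_succ (k : ℕ) (p : K.St) : K.coord (k + 1) p =
    if (k + 1) % 2 = 0 then K.mvx (K.coord k p) else K.mvy (K.coord k p) := rfl

theorem coord_snd (k : ℕ) (p : K.St) : (K.coord k p).2 = K.kap k p.2 := by
  induction k with
  | zero => rfl
  | succ k ih =>
    unfold coord kap
    by_cases h : (k + 1) % 2 = 0
    · rw [if_pos h, if_pos h, ← ih]
      rfl
    · rw [if_neg h, if_neg h, ← ih]
      rfl

theorem coord_fst (k : ℕ) (p : K.St) : (K.coord k p).1 =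
    p.1 * ((List.range k).map (fun j => K.g (K.ltr (j + 1) p.2))).prod := by
  induction k with
  | zero => simp [coord]
  | succ k ih =>
    rw [List.range_succ, List.map_append, List.prod_append, ← mul_assoc, ← ih, K.coord_succ]
    have h0 : K.ltr (k + 1) p.2 = if (k + 1) % 2 = 0 then Sum.inl (K.coord k p).2.1
        else Sum.inr (K.coord k p).2.2 := by
      unfold ltr
      rw [Nat.add_sub_cancel, ← K.coord_snd]
    rw [List.map_cons, List.map_nil, List.prod_cons, List.prod_nil, mul_one, h0]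
    by_cases h : (k + 1) % 2 = 0
    · rw [if_pos h, if_pos h]
      rfl
    · rw [if_neg h, if_neg h]
      rfl

theorem kap_two_mul (k : ℕ) (w : Fin b × Fin a) : K.kap (2 * k) w =
    ((fun w => ((K.ix (K.be w.1 w.2), K.al (K.be w.1 w.2) (K.iy w.2)) : Fin b × Fin a))^[k]) w := by
  induction k with
  | zero => rfl
  | succ k ih =>
    rw [Function.iterate_succ_apply', ← ih]
    have h1 : 2 * (k + 1) = 2 * k + 1 + 1 := by ring
    rw [h1]
    have h2 : (2 * k + 1 + 1) % 2 = 0 := by omega
    have h3 : (2 * k + 1) % 2 ≠ 0 := by omega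
    conv_lhs => unfold kap
    rw [if_pos h2]
    conv_lhs => unfold kap
    rw [if_neg h3]
    rfl

theorem coord_period (p : K.St) : K.coord (2 * m) p = p := by
  refine Prod.ext ?_ ?_
  · rw [K.coord_fst]
    have h : ((List.range (2 * m)).map (fun j => K.g (K.ltr (j + 1) p.2))).prod = 1 := by
      have := PresentedGroup.one_of_mem (rels := K.rels)
        (x := ((List.range (2 * m)).map (fun k => FreeGroup.of (K.ltr (k + 1) p.2))).prod)
        (Or.inr ⟨p.2, rfl⟩)
      rw [map_list_prod, List.map_map] at this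
      exact this
    rw [h, mul_one]
  · rw [K.coord_snd, K.kap_two_mul, K.face]

/-- coordinates of the corner `i` of the polygon of the state `p` -/
def cz (i : ZMod (2 * m)) (p : K.St) : K.St := K.coord i.val p

theorem cz_bij (i : ZMod (2 * m)) : Function.Bijective (K.cz i) := by
  have key : ∀ k, Function.Bijective (K.coord k) := by
    intro k
    induction k with
    | zero => exact Function.bijective_id
    | succ k ih =>
      have hx : Function.Bijective K.mvx := Function.Involutive.bijective K.mvx_mvx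
      have hy : Function.Bijective K.mvy := Function.Involutive.bijective K.mvy_mvy
      by_cases h : (k + 1) % 2 = 0
      · have : K.coord (k + 1) = K.mvx ∘ K.coord k := by
          funext p
          show (if (k + 1) % 2 = 0 then K.mvx (K.coord k p) else K.mvy (K.coord k p)) = _
          rw [if_pos h]
          rfl
        rw [this]
        exact hx.comp ih
      · have : K.coord (k + 1) = K.mvy ∘ K.coord k := by
          funext p
          show (if (k + 1) % 2 = 0 then K.mvx (K.coord k p) else K.mvy (K.coord k p)) = _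
          rw [if_neg h]
          rfl
        rw [this]
        exact hy.comp ih
  exact key _

theorem val_succ (hm : 0 < m) (i : ZMod (2 * m)) : (i + 1).val = i.val + 1 ∨
    (i.val = 2 * m - 1 ∧ (i + 1).val = 0) := by
  have : NeZero (2 * m) := ⟨by omega⟩
  have hlt := ZMod.val_lt i
  rw [ZMod.val_add]
  have h1 : (1 : ZMod (2 * m)).val = 1 := by
    have : Fact (1 < 2 * m) := ⟨by omega⟩
    exact ZMod.val_one (2 * m)
  rw [h1]
  rcases Nat.lt_or_ge (i.val + 1) (2 * m) with h | h
  · left
    exact Nat.mod_eq_of_lt h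
  · right
    have h2 : i.val + 1 = 2 * m := by omega
    rw [h2, Nat.mod_self]
    exact ⟨by omega, rfl⟩

theorem par_succ (hm : 0 < m) (i : ZMod (2 * m)) : (i + 1).val % 2 = (i.val + 1) % 2 := by
  rcases val_succ hm i with h | ⟨h1, h2⟩
  · rw [h]
  · rw [h1, h2]
    omega

theorem cz_succ (hm : 0 < m) (i : ZMod (2 * m)) (p : K.St) :
    K.cz (i + 1) p = if (i.val + 1) % 2 = 0 then K.mvx (K.cz i p) else K.mvy (K.cz i p) := by
  unfold cz
  rcases val_succ hm i with h | ⟨h1, h2⟩
  · rw [h]
    rfl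
  · rw [h2]
    have h3 : K.coord (i.val + 1) p = p := by
      have : i.val + 1 = 2 * m := by omega
      rw [this]
      exact K.coord_period p
    show p = _
    conv_lhs => rw [← h3]
    rfl

/-! ### the label system -/

/-- the edge carrying the side `i` -/
def edg (i : ZMod (2 * m)) (p : K.St) : K.Pi × (Fin b ⊕ Fin a) :=
  ((K.cz i p).1, if i.val % 2 = 0 then Sum.inl (K.cz i p).2.1 else Sum.inr (K.cz i p).2.2)

/-- in the coordinates of the corner `i`, the side `i` -/
theorem edg_iff (i : ZMod (2 * m)) (p q : K.St) : K.edg i p = K.edg i q ↔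
    (K.cz i p).1 = (K.cz i q).1 ∧ (if i.val % 2 = 0 then (K.cz i p).2.1 = (K.cz i q).2.1
      else (K.cz i p).2.2 = (K.cz i q).2.2) := by
  unfold edg
  by_cases h : i.val % 2 = 0
  · simp [h, Prod.ext_iff]
  · simp [h, Prod.ext_iff]

/-- in the coordinates of the corner `i`, the side `i + 1` -/
theorem edg_succ_iff (hm : 0 < m) (i : ZMod (2 * m)) (p q : K.St) :
    K.edg (i + 1) p = K.edg (i + 1) q ↔
    (K.cz i p).1 = (K.cz i q).1 ∧ (if i.val % 2 = 0 then (K.cz i p).2.2 = (K.cz i q).2.2
      else (K.cz i p).2.1 = (K.cz i q).2.1) := by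
  rw [K.edg_iff, K.cz_succ hm, K.cz_succ hm, par_succ hm]
  generalize K.cz i p = u
  generalize K.cz i q = v
  obtain ⟨h, s, t⟩ := u
  obtain ⟨h', s', t'⟩ := v
  by_cases hpar : i.val % 2 = 0
  · have h1 : ¬ ((i.val + 1) % 2 = 0) := by omega
    rw [if_neg h1, if_neg h1, if_neg h1, if_pos hpar]
    show (h * K.g (Sum.inr t) = h' * K.g (Sum.inr t') ∧ K.iy t = K.iy t') ↔ (h = h' ∧ t = t')
    constructor
    · rintro ⟨h2, h3⟩
      have h4 : t = t' := by
        rw [← K.iy_iy s t, h3, K.iy_iy s t']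
      subst h4
      exact ⟨mul_right_cancel h2, rfl⟩
    · rintro ⟨rfl, rfl⟩
      exact ⟨rfl, rfl⟩
  · have h1 : (i.val + 1) % 2 = 0 := by omega
    rw [if_pos h1, if_pos h1, if_pos h1, if_neg hpar]
    show (h * K.g (Sum.inl s) = h' * K.g (Sum.inl s') ∧ K.ix s = K.ix s') ↔ (h = h' ∧ s = s')
    constructor
    · rintro ⟨h2, h3⟩
      have h4 : s = s' := by
        rw [← K.ix_ix s t, h3, K.ix_ix s' t]
      subst h4
      exact ⟨mul_right_cancel h2, rfl⟩
    · rintro ⟨rfl, rfl⟩
      exact ⟨rfl, rfl⟩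

theorem edg_sq (hm : 0 < m) (i : ZMod (2 * m)) (p q r : K.St) (h1 : K.edg i p = K.edg i q)
    (h2 : K.edg (i + 1) p = K.edg (i + 1) r) :
    ∃ e, K.edg (i + 1) q = K.edg (i + 1) e ∧ K.edg i r = K.edg i e := by
  rw [K.edg_iff] at h1
  rw [K.edg_succ_iff hm] at h2
  by_cases hpar : i.val % 2 = 0
  · rw [if_pos hpar] at h1 h2
    obtain ⟨e, he⟩ := (K.cz_bij i).2 ((K.cz i p).1, ((K.cz i r).2.1, (K.cz i q).2.2))
    refine ⟨e, ?_, ?_⟩
    · rw [K.edg_succ_iff hm, he, if_pos hpar]
      exact ⟨h1.1.symm, rfl⟩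
    · rw [K.edg_iff, he, if_pos hpar]
      exact ⟨h2.1.symm, rfl⟩
  · rw [if_neg hpar] at h1 h2
    obtain ⟨e, he⟩ := (K.cz_bij i).2 ((K.cz i p).1, ((K.cz i q).2.1, (K.cz i r).2.2))
    refine ⟨e, ?_, ?_⟩
    · rw [K.edg_succ_iff hm, he, if_neg hpar]
      exact ⟨h1.1.symm, rfl⟩
    · rw [K.edg_iff, he, if_neg hpar]
      exact ⟨h2.1.symm, rfl⟩

theorem edg_meet (hm : 0 < m) (i : ZMod (2 * m)) (p q : K.St) (h1 : K.edg i p = K.edg i q)
    (h2 : K.edg (i + 1) p = K.edg (i + 1) q) : p = q := by
  rw [K.edg_iff] at h1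
  rw [K.edg_succ_iff hm] at h2
  apply (K.cz_bij i).1
  by_cases hpar : i.val % 2 = 0
  · rw [if_pos hpar] at h1 h2
    exact Prod.ext h1.1 (Prod.ext h1.2 h2.2)
  · rw [if_neg hpar] at h1 h2
    exact Prod.ext h1.1 (Prod.ext h2.2 h1.2)

theorem edg_card (i : ZMod (2 * m)) (p : K.St) :
    {q | K.edg i p = K.edg i q}.ncard = K.thick i := by
  unfold thick
  by_cases hpar : i.val % 2 = 0
  · rw [if_pos hpar]
    have h1 : {q | K.edg i p = K.edg i q} =
        (K.cz i) ⁻¹' (Set.range (fun t : Fin a => ((K.cz i p).1, ((K.cz i p).2.1, t)))) := by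
      ext q
      rw [Set.mem_ofPred_eq, K.edg_iff, if_pos hpar, Set.mem_preimage, Set.mem_range]
      constructor
      · rintro ⟨h2, h3⟩
        exact ⟨(K.cz i q).2.2, by rw [h2, h3]⟩
      · rintro ⟨t, ht⟩
        rw [← ht]
        exact ⟨rfl, rfl⟩
    rw [h1, Set.ncard_preimage_of_injective_subset_range (K.cz_bij i).1
      (by rw [(K.cz_bij i).2.range_eq]; exact Set.subset_univ _)]
    rw [← Set.image_univ, Set.ncard_image_of_injective, Set.ncard_univ, Nat.card_eq_fintype_card,
      Fintype.card_fin]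
    intro t t' h
    simpa using h
  · rw [if_neg hpar]
    have h1 : {q | K.edg i p = K.edg i q} =
        (K.cz i) ⁻¹' (Set.range (fun s : Fin b => ((K.cz i p).1, (s, (K.cz i p).2.2)))) := by
      ext q
      rw [Set.mem_ofPred_eq, K.edg_iff, if_neg hpar, Set.mem_preimage, Set.mem_range]
      constructor
      · rintro ⟨h2, h3⟩
        exact ⟨(K.cz i q).2.1, by rw [h2, h3]⟩
      · rintro ⟨t, ht⟩
        rw [← ht]
        exact ⟨rfl, rfl⟩
    rw [h1, Set.ncard_preimage_of_injective_subset_range (K.cz_bij i).1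
      (by rw [(K.cz_bij i).2.range_eq]; exact Set.subset_univ _)]
    rw [← Set.image_univ, Set.ncard_image_of_injective, Set.ncard_univ, Nat.card_eq_fintype_card,
      Fintype.card_fin]
    intro t t' h
    simpa using h

/-- the label system of the universal cover of `K` -/
def labSys (hm : 0 < m) : LabSys (2 * m) K.thick K.St where
  R i p q := K.edg i p = K.edg i q
  equiv i := ⟨fun _ => rfl, fun h => h.symm, fun h h' => h.trans h'⟩
  card := K.edg_card
  sq := by
    rintro i j p q r (rfl | rfl) h1 h2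
    · exact K.edg_sq hm i p q r h1 h2
    · obtain ⟨e, he1, he2⟩ := K.edg_sq hm j p r q h2 h1
      exact ⟨e, he2, he1⟩
  meet := by
    rintro i j p q (rfl | rfl) h1 h2
    · exact K.edg_meet hm i p q h1 h2
    · exact K.edg_meet hm j p q h2 h1

end KData

end QFC
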