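import Mathlib
import Pool.Agent.QFC.KCover

/-!
# The fundamental group acts simply transitively on the vertices of the building
-/

open scoped Classical

namespace QFC

open _root_.Pool.Agent.QFC (wordDist wordLength Generates exists_word wordLength_le
  wordDist_triangle wordDist_comm wordDist_self)

namespace KData

variable {m a b : ℕ} (K : KData m a b)

/-- neighbouring corner along the edge of the kind of `e` -/
def nbr (e : Fin b ⊕ Fin a) (i : ZMod (2 * m)) : ZMod (2 * m) :=
  match e with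
  | Sum.inl _ => if i.val % 2 = 0 then i - 1 else i + 1
  | Sum.inr _ => if i.val % 2 = 0 then i + 1 else i - 1

/-- move along the edge of the kind of `e` -/
noncomputable def mv (e : Fin b ⊕ Fin a) (p : K.St) : K.St :=
  match e with
  | Sum.inl _ => K.mvx p
  | Sum.inr _ => K.mvy p

/-- the corner of the state `p` has the end `e` -/
def hasEnd (e : Fin b ⊕ Fin a) (p : K.St) : Prop :=
  match e with
  | Sum.inl s => p.2.1 = s
  | Sum.inr t => p.2.2 = t

theorem par_pred (hm : 0 < m) (i : ZMod (2 * m)) : (i - 1).val % 2 = (i.val + 1) % 2 := by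
  have h := par_succ hm (i - 1)
  rw [sub_add_cancel] at h
  omega

theorem cz_nbr (hm : 0 < m) (e : Fin b ⊕ Fin a) (i : ZMod (2 * m)) (p : K.St) :
    K.cz (nbr e i) p = K.mv e (K.cz i p) := by
  have hp : K.cz i p = if i.val % 2 = 0 then K.mvx (K.cz (i - 1) p)
      else K.mvy (K.cz (i - 1) p) := by
    have h := K.cz_succ hm (i - 1) p
    rw [sub_add_cancel] at h
    have h2 := par_pred hm i
    rw [h]
    by_cases h3 : i.val % 2 = 0
    · rw [if_pos h3, if_pos (by omega)]
    · rw [if_neg h3, if_neg (by omega)]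
  have hs := K.cz_succ hm i p
  rcases e with s | t
  · show K.cz (if i.val % 2 = 0 then i - 1 else i + 1) p = K.mvx (K.cz i p)
    by_cases h3 : i.val % 2 = 0
    · rw [if_pos h3] at hp ⊢
      rw [hp, K.mvx_mvx]
    · rw [if_neg h3]
      rw [hs, if_pos (by omega)]
  · show K.cz (if i.val % 2 = 0 then i + 1 else i - 1) p = K.mvy (K.cz i p)
    by_cases h3 : i.val % 2 = 0
    · rw [if_pos h3]
      rw [hs, if_neg (by omega)]
    · rw [if_neg h3] at hp ⊢
      rw [hp, K.mvy_mvy]

theorem nbr_opp (hm : 0 < m) (e : Fin b ⊕ Fin a) (i : ZMod (2 * m)) :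
    nbr (K.opp e) (nbr e i) = i := by
  have h1 := par_pred hm i
  have h2 := par_succ hm i
  rcases e with s | t
  · show nbr (Sum.inl (K.ix s)) (if i.val % 2 = 0 then i - 1 else i + 1) = i
    by_cases h3 : i.val % 2 = 0
    · rw [if_pos h3]
      show (if (i - 1).val % 2 = 0 then (i - 1) - 1 else (i - 1) + 1) = i
      rw [if_neg (by omega), sub_add_cancel]
    · rw [if_neg h3]
      show (if (i + 1).val % 2 = 0 then (i + 1) - 1 else (i + 1) + 1) = i
      rw [if_pos (by omega), add_sub_cancel_right]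
  · show nbr (Sum.inr (K.iy t)) (if i.val % 2 = 0 then i + 1 else i - 1) = i
    by_cases h3 : i.val % 2 = 0
    · rw [if_pos h3]
      show (if (i + 1).val % 2 = 0 then (i + 1) + 1 else (i + 1) - 1) = i
      rw [if_neg (by omega), add_sub_cancel_right]
    · rw [if_neg h3]
      show (if (i - 1).val % 2 = 0 then (i - 1) + 1 else (i - 1) - 1) = i
      rw [if_pos (by omega), sub_add_cancel]

theorem mv_fst {e : Fin b ⊕ Fin a} {p : K.St} (h : K.hasEnd e p) :
    (K.mv e p).1 = p.1 * K.g e := by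
  rcases e with s | t
  · have h' : p.2.1 = s := h
    show p.1 * K.g (Sum.inl p.2.1) = _
    rw [h']
  · have h' : p.2.2 = t := h
    show p.1 * K.g (Sum.inr p.2.2) = _
    rw [h']

theorem hasEnd_mv {e : Fin b ⊕ Fin a} {p : K.St} (h : K.hasEnd e p) :
    K.hasEnd (K.opp e) (K.mv e p) := by
  rcases e with s | t
  · have h' : p.2.1 = s := h
    show K.ix p.2.1 = K.ix s
    rw [h']
  · have h' : p.2.2 = t := h
    show K.iy p.2.2 = K.iy t
    rw [h']

theorem opp_opp (e : Fin b ⊕ Fin a) (p : K.St) : K.opp (K.opp e) = e := by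
  rcases e with s | t
  · show Sum.inl (K.ix (K.ix s)) = Sum.inl s
    rw [K.ix_ix s p.2.2]
  · show Sum.inr (K.iy (K.iy t)) = Sum.inr t
    rw [K.iy_iy p.2.1 t]

section

variable {C : Type} (B : Bldg (2 * m) C)

/-- a developing map -/
structure DevH where
  f : C → K.St
  hq : ∀ i, B.q i = K.thick i
  edg : ∀ i c d, B.adj i c d → K.edg i (f c) = K.edg i (f d)
  inj : ∀ i c d, B.adj i c d → c ≠ d → f c ≠ f d

theorem exists_devH (hm : 0 < m) (hq : B.q = K.thick) (x : C) (p : K.St) :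
    ∃ D : K.DevH B, D.f x = p := by
  obtain ⟨L, hL⟩ : ∃ L : LabSys (2 * m) B.q K.St, ∀ i p q, L.R i p q ↔ K.edg i p = K.edg i q := by
    rw [hq]
    exact ⟨K.labSys hm, fun _ _ _ => Iff.rfl⟩
  obtain ⟨f, hf0, hf1, hf2⟩ := B.exists_cover L x p
  exact ⟨⟨f, fun i => by rw [hq], fun i c d h => (hL i _ _).1 (hf1 i c d h), hf2⟩, hf0⟩

variable {K B} (D : K.DevH B) (hm : 0 < m)

namespace DevH

/-- panels are mapped onto panels -/
theorem surj (i : ZMod (2 * m)) (c : C) (p : K.St) (h : K.edg i (D.f c) = K.edg i p) :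
    ∃ d, B.adj i c d ∧ D.f d = p := by
  have h1 : (D.f '' (B.panel i c)) ⊆ {q | K.edg i (D.f c) = K.edg i q} := by
    rintro q ⟨d, hd, rfl⟩
    exact D.edg i c d hd
  have hinj : Set.InjOn D.f (B.panel i c) := by
    intro d hd e he hde
    by_contra hne
    exact D.inj i d e (B.adj_trans (B.adj_symm hd) he) hne hde
  have h2 : (D.f '' (B.panel i c)).ncard = B.q i := by
    rw [hinj.ncard_image]
    exact B.card_panel i c
  have h3 := K.edg_card i (D.f c)
  have h4 : {q | K.edg i (D.f c) = K.edg i q}.Finite := by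
    by_contra hinf
    have h5 : {q | K.edg i (D.f c) = K.edg i q}.ncard = 0 := Set.Infinite.ncard hinf
    have h6 := B.q_ge i
    have h7 := D.hq i
    omega
  have h5 := Set.eq_of_subset_of_ncard_le h1 (by rw [h2, h3, D.hq]) h4
  have h6 : p ∈ D.f '' (B.panel i c) := by
    rw [h5]
    exact h
  obtain ⟨d, hd, hdp⟩ := h6
  exact ⟨d, hd, hdp⟩

end DevH

/-- same vertex of type `{i, i+1}` -/
def veq (B : Bldg (2 * m) C) (i : ZMod (2 * m)) (c d : C) : Prop :=
  ∃ e, B.adj i c e ∧ B.adj (i + 1) e d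

theorem tadj_succ (i : ZMod (2 * m)) : TAdj i (i + 1) := Or.inl rfl

theorem veq_refl (i : ZMod (2 * m)) (c : C) : veq B i c c :=
  ⟨c, B.adj_refl i c, B.adj_refl _ c⟩

theorem veq_symm {i : ZMod (2 * m)} {c d : C} (h : veq B i c d) : veq B i d c := by
  obtain ⟨e, h1, h2⟩ := h
  obtain ⟨f, h3, h4⟩ := B.square (tadj_succ i) (B.adj_symm h1) h2
  exact ⟨f, h4, B.adj_symm h3⟩

theorem veq_trans {i : ZMod (2 * m)} {c d e : C} (h : veq B i c d) (h' : veq B i d e) :
    veq B i c e := by
  obtain ⟨u, h1, h2⟩ := h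
  obtain ⟨v, h3, h4⟩ := h'
  obtain ⟨f, h5, h6⟩ := B.square (tadj_succ i) h3 (B.adj_symm h2)
  exact ⟨f, B.adj_trans h1 h6, B.adj_trans (B.adj_symm h5) h4⟩

theorem veq_left {i : ZMod (2 * m)} {c d : C} (h : B.adj i c d) : veq B i c d :=
  ⟨d, h, B.adj_refl _ d⟩

theorem veq_right {i : ZMod (2 * m)} {c d : C} (h : B.adj (i + 1) c d) : veq B i c d :=
  ⟨c, B.adj_refl _ c, h⟩

theorem dist_veq {i : ZMod (2 * m)} {c d : C} (h : veq B i c d) : B.dist c d ≤ 2 := by
  obtain ⟨e, h1, h2⟩ := h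
  have h3 := B.dist_le_one h1
  have h4 := B.dist_le_one h2
  have h5 := B.dist_triangle c e d
  omega

/-- vertices -/
def vset (B : Bldg (2 * m) C) : Setoid (C × ZMod (2 * m)) where
  r u v := u.2 = v.2 ∧ veq B u.2 u.1 v.1
  iseqv := {
    refl := fun u => ⟨rfl, veq_refl _ _⟩
    symm := by
      rintro ⟨c, i⟩ ⟨d, j⟩ ⟨h1, h2⟩
      have h1' : i = j := h1
      subst h1'
      exact ⟨rfl, veq_symm h2⟩
    trans := by
      rintro ⟨c, i⟩ ⟨d, j⟩ ⟨e, k⟩ ⟨h1, h2⟩ ⟨h3, h4⟩
      have h1' : i = j := h1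
      subst h1'
      have h3' : i = k := h3
      subst h3'
      exact ⟨rfl, veq_trans h2 h4⟩ }

/-- vertices of the building -/
def Vert (B : Bldg (2 * m) C) : Type := Quotient (vset B)

/-- the vertex of a flag -/
def mkv (B : Bldg (2 * m) C) (c : C) (i : ZMod (2 * m)) : Vert B := Quotient.mk (vset B) (c, i)

theorem mkv_eq {c d : C} {i j : ZMod (2 * m)} : mkv B c i = mkv B d j ↔ i = j ∧ veq B i c d :=
  ⟨fun h => Quotient.exact h, fun h => Quotient.sound h⟩

namespace DevH

include hm in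
theorem veq_pos {i : ZMod (2 * m)} {c d : C} (h : veq B i c d) :
    (K.cz i (D.f c)).1 = (K.cz i (D.f d)).1 := by
  obtain ⟨e, h1, h2⟩ := h
  have h3 := (K.edg_iff i _ _).1 (D.edg i c e h1)
  have h4 := (K.edg_succ_iff hm i _ _).1 (D.edg (i + 1) e d h2)
  rw [h3.1, h4.1]

include hm in
theorem veq_unique {i : ZMod (2 * m)} {c d : C} (h : veq B i c d) (hf : D.f c = D.f d) :
    c = d := by
  obtain ⟨e, h1, h2⟩ := h
  have h3 := D.edg i c e h1
  have h4 := D.edg (i + 1) e d h2
  rw [← hf] at h4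
  have h5 := K.edg_meet hm i (D.f c) (D.f e) h3 h4.symm
  have h6 : c = e := by
    by_contra hne
    exact D.inj i c e h1 hne h5
  subst h6
  by_contra hne
  exact D.inj (i + 1) c d h2 hne hf

include hm in
theorem veq_label (i : ZMod (2 * m)) (c : C) (w : Fin b × Fin a) :
    ∃ d, veq B i c d ∧ K.cz i (D.f d) = ((K.cz i (D.f c)).1, w) := by
  obtain ⟨s, t⟩ := w
  by_cases hpar : i.val % 2 = 0
  · obtain ⟨p, hp⟩ := (K.cz_bij i).2 ((K.cz i (D.f c)).1, ((K.cz i (D.f c)).2.1, t))
    obtain ⟨e, he1, he2⟩ := D.surj i c p (by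
      rw [K.edg_iff, hp, if_pos hpar]
      exact ⟨rfl, rfl⟩)
    obtain ⟨q, hq⟩ := (K.cz_bij i).2 ((K.cz i (D.f c)).1, (s, t))
    obtain ⟨d, hd1, hd2⟩ := D.surj (i + 1) e q (by
      rw [K.edg_succ_iff hm, he2, hp, hq, if_pos hpar]
      exact ⟨rfl, rfl⟩)
    exact ⟨d, ⟨e, he1, hd1⟩, by rw [hd2, hq]⟩
  · obtain ⟨p, hp⟩ := (K.cz_bij i).2 ((K.cz i (D.f c)).1, (s, (K.cz i (D.f c)).2.2))
    obtain ⟨e, he1, he2⟩ := D.surj i c p (by
      rw [K.edg_iff, hp, if_neg hpar]
      exact ⟨rfl, rfl⟩)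
    obtain ⟨q, hq⟩ := (K.cz_bij i).2 ((K.cz i (D.f c)).1, (s, t))
    obtain ⟨d, hd1, hd2⟩ := D.surj (i + 1) e q (by
      rw [K.edg_succ_iff hm, he2, hp, hq, if_neg hpar]
      exact ⟨rfl, rfl⟩)
    exact ⟨d, ⟨e, he1, hd1⟩, by rw [hd2, hq]⟩

include hm in
/-- flags of one vertex with a common end share the edge -/
theorem veq_nbr {i : ZMod (2 * m)} {c d : C} (h : veq B i c d) {e : Fin b ⊕ Fin a}
    (h1 : K.hasEnd e (K.cz i (D.f c))) (h2 : K.hasEnd e (K.cz i (D.f d))) :
    veq B (nbr e i) c d := by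
  obtain ⟨u, h3, h4⟩ := h
  have h5 := (K.edg_iff i _ _).1 (D.edg i c u h3)
  have h6 := (K.edg_succ_iff hm i _ _).1 (D.edg (i + 1) u d h4)
  rcases e with s | t
  · have h1' : (K.cz i (D.f c)).2.1 = s := h1
    have h2' : (K.cz i (D.f d)).2.1 = s := h2
    show veq B (if i.val % 2 = 0 then i - 1 else i + 1) c d
    by_cases hpar : i.val % 2 = 0
    · rw [if_pos hpar] at h5 h6 ⊢
      have h7 : D.f u = D.f d := by
        apply (K.cz_bij i).1
        exact Prod.ext h6.1 (Prod.ext (by rw [← h5.2, h1', h2']) h6.2)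
      have h8 : u = d := D.veq_unique hm (veq_right h4) h7
      subst h8
      refine veq_right ?_
      rw [sub_add_cancel]
      exact h3
    · rw [if_neg hpar] at h5 h6 ⊢
      have h7 : D.f c = D.f u := by
        apply (K.cz_bij i).1
        exact Prod.ext h5.1 (Prod.ext (by rw [h6.2, h1', h2']) h5.2)
      have h8 : c = u := D.veq_unique hm (veq_left h3) h7
      subst h8
      exact veq_left h4
  · have h1' : (K.cz i (D.f c)).2.2 = t := h1
    have h2' : (K.cz i (D.f d)).2.2 = t := h2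
    show veq B (if i.val % 2 = 0 then i + 1 else i - 1) c d
    by_cases hpar : i.val % 2 = 0
    · rw [if_pos hpar] at h5 h6 ⊢
      have h7 : D.f c = D.f u := by
        apply (K.cz_bij i).1
        exact Prod.ext h5.1 (Prod.ext h5.2 (by rw [h6.2, h1', h2']))
      have h8 : c = u := D.veq_unique hm (veq_left h3) h7
      subst h8
      exact veq_left h4
    · rw [if_neg hpar] at h5 h6 ⊢
      have h7 : D.f u = D.f d := by
        apply (K.cz_bij i).1
        exact Prod.ext h6.1 (Prod.ext h6.2 (by rw [← h5.2, h1', h2']))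
      have h8 : u = d := D.veq_unique hm (veq_right h4) h7
      subst h8
      refine veq_right ?_
      rw [sub_add_cancel]
      exact h3

/-- moving a vertex along the end `e` -/
def ActR (e : Fin b ⊕ Fin a) (v v' : Vert B) : Prop :=
  ∃ c i, v = mkv B c i ∧ K.hasEnd e (K.cz i (D.f c)) ∧ v' = mkv B c (nbr e i)

include hm in
theorem act_total (e : Fin b ⊕ Fin a) (c : C) (i : ZMod (2 * m)) :
    ∃ c', veq B i c c' ∧ D.ActR e (mkv B c i) (mkv B c' (nbr e i)) := by
  rcases e with s | t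
  · obtain ⟨d, hd1, hd2⟩ := D.veq_label hm i c (s, (K.cz i (D.f c)).2.2)
    exact ⟨d, hd1, d, i, mkv_eq.2 ⟨rfl, hd1⟩, by rw [hd2]; rfl, rfl⟩
  · obtain ⟨d, hd1, hd2⟩ := D.veq_label hm i c ((K.cz i (D.f c)).2.1, t)
    exact ⟨d, hd1, d, i, mkv_eq.2 ⟨rfl, hd1⟩, by rw [hd2]; rfl, rfl⟩

include hm in
theorem act_fun {e : Fin b ⊕ Fin a} {v v' v'' : Vert B} (h : D.ActR e v v')
    (h' : D.ActR e v v'') : v' = v'' := by
  obtain ⟨c, i, h1, h2, h3⟩ := h
  obtain ⟨d, j, h4, h5, h6⟩ := h'
  rw [h1] at h4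
  obtain ⟨h7, h8⟩ := mkv_eq.1 h4
  subst h7
  rw [h3, h6]
  exact mkv_eq.2 ⟨rfl, D.veq_nbr hm h8 h2 h5⟩

include hm in
theorem act_opp {e : Fin b ⊕ Fin a} {v v' : Vert B} (h : D.ActR e v v') :
    D.ActR (K.opp e) v' v := by
  obtain ⟨c, i, h1, h2, h3⟩ := h
  refine ⟨c, nbr e i, h3, ?_, ?_⟩
  · rw [K.cz_nbr hm]
    exact K.hasEnd_mv h2
  · rw [K.nbr_opp hm, h1]

/-- the position of a vertex -/
noncomputable def pos (D : K.DevH B) (hm : 0 < m) : Vert B → K.Pi :=
  Quotient.lift (fun u : C × ZMod (2 * m) => (K.cz u.2 (D.f u.1)).1) (by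
    rintro ⟨c, i⟩ ⟨d, j⟩ ⟨h1, h2⟩
    have h1' : i = j := h1
    subst h1'
    exact D.veq_pos hm h2)

theorem pos_mkv (c : C) (i : ZMod (2 * m)) : D.pos hm (mkv B c i) = (K.cz i (D.f c)).1 := rfl

theorem pos_act {e : Fin b ⊕ Fin a} {v v' : Vert B} (h : D.ActR e v v') :
    D.pos hm v' = D.pos hm v * K.g e := by
  obtain ⟨c, i, h1, h2, h3⟩ := h
  rw [h1, h3, pos_mkv, pos_mkv, K.cz_nbr hm]
  exact K.mv_fst h2

include hm in
theorem act_exists (e : Fin b ⊕ Fin a) (v : Vert B) : ∃ v', D.ActR e v v' := by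
  induction v using Quotient.inductionOn with
  | _ u =>
    obtain ⟨c', _, h⟩ := D.act_total hm e u.1 u.2
    exact ⟨_, h⟩

/-- the move along `e` as a function -/
noncomputable def A (D : K.DevH B) (hm : 0 < m) (e : Fin b ⊕ Fin a) (v : Vert B) : Vert B :=
  (D.act_exists hm e v).choose

theorem A_spec (e : Fin b ⊕ Fin a) (v : Vert B) : D.ActR e v (D.A hm e v) :=
  (D.act_exists hm e v).choose_spec

theorem A_eq {e : Fin b ⊕ Fin a} {v v' : Vert B} (h : D.ActR e v v') : D.A hm e v = v' :=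
  D.act_fun hm (D.A_spec hm e v) h

theorem A_opp (e : Fin b ⊕ Fin a) (v : Vert B) : D.A hm (K.opp e) (D.A hm e v) = v :=
  D.A_eq hm (D.act_opp hm (D.A_spec hm e v))

theorem A_opp' (e : Fin b ⊕ Fin a) (v : Vert B) : D.A hm e (D.A hm (K.opp e) v) = v := by
  induction v using Quotient.inductionOn with
  | _ u =>
    have h := D.A_opp hm (K.opp e) (Quotient.mk _ u)
    rw [K.opp_opp e (D.f u.1)] at h
    exact h

/-- the permutation of the vertices -/
noncomputable def P (D : K.DevH B) (hm : 0 < m) (e : Fin b ⊕ Fin a) : Equiv.Perm (Vert B) where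
  toFun := D.A hm e
  invFun := D.A hm (K.opp e)
  left_inv := D.A_opp hm e
  right_inv := D.A_opp' hm e

theorem prod_apply (l : List (Fin b ⊕ Fin a)) : ∀ v : Vert B,
    (MulOpposite.unop ((l.map (fun e => MulOpposite.op (D.P hm e))).prod)) v =
      l.foldl (fun v e => D.A hm e v) v := by
  induction l with
  | nil => intro v; rfl
  | cons e l ih =>
    intro v
    rw [List.map_cons, List.prod_cons, List.foldl_cons, ← ih]
    rfl

/-- corner reached after `k` sides of the polygon read from the corner `i` -/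
def ik : ℕ → ZMod (2 * m) → ZMod (2 * m)
  | 0, i => i
  | k + 1, i => if (k + 1) % 2 = 0 then (if (ik k i).val % 2 = 0 then ik k i - 1 else ik k i + 1)
      else (if (ik k i).val % 2 = 0 then ik k i + 1 else ik k i - 1)

theorem ik_succ (k : ℕ) (i : ZMod (2 * m)) : ik (k + 1) i =
    if (k + 1) % 2 = 0 then (if (ik k i).val % 2 = 0 then ik k i - 1 else ik k i + 1)
      else (if (ik k i).val % 2 = 0 then ik k i + 1 else ik k i - 1) := rfl

include hm in
theorem ik_even (i : ZMod (2 * m)) (hi : i.val % 2 = 0) (k : ℕ) :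
    ik k i = i + k ∧ (ik k i).val % 2 = k % 2 := by
  induction k with
  | zero => simp [ik, hi]
  | succ k ih =>
    rw [ik_succ]
    obtain ⟨h1, h2⟩ := ih
    by_cases hk : (k + 1) % 2 = 0
    · rw [if_pos hk, if_neg (by omega)]
      refine ⟨by rw [h1]; push_cast; ring, ?_⟩
      rw [par_succ hm]
      omega
    · rw [if_neg hk, if_pos (by omega)]
      refine ⟨by rw [h1]; push_cast; ring, ?_⟩
      rw [par_succ hm]
      omega

include hm in
theorem ik_odd (i : ZMod (2 * m)) (hi : i.val % 2 ≠ 0) (k : ℕ) :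
    ik k i = i - k ∧ (ik k i).val % 2 = (k + 1) % 2 := by
  induction k with
  | zero =>
    refine ⟨by simp [ik], ?_⟩
    show i.val % 2 = _
    omega
  | succ k ih =>
    rw [ik_succ]
    obtain ⟨h1, h2⟩ := ih
    by_cases hk : (k + 1) % 2 = 0
    · rw [if_pos hk, if_pos (by omega)]
      refine ⟨by rw [h1]; push_cast; ring, ?_⟩
      rw [par_pred hm]
      omega
    · rw [if_neg hk, if_neg (by omega)]
      refine ⟨by rw [h1]; push_cast; ring, ?_⟩
      rw [par_pred hm]
      omega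

include hm in
theorem ik_period (i : ZMod (2 * m)) : ik (2 * m) i = i := by
  by_cases hi : i.val % 2 = 0
  · rw [(ik_even hm i hi (2 * m)).1, ZMod.natCast_self, add_zero]
  · rw [(ik_odd hm i hi (2 * m)).1, ZMod.natCast_self, sub_zero]

/-- reading the polygon of a flag -/
theorem read_polygon (c : C) (i : ZMod (2 * m)) (w : Fin b × Fin a)
    (hw : (K.cz i (D.f c)).2 = w) (k : ℕ) :
    ((List.range k).map (fun j => K.ltr (j + 1) w)).foldl (fun v e => D.A hm e v) (mkv B c i) =
      mkv B c (ik k i) ∧ (K.cz (ik k i) (D.f c)).2 = K.kap k w := by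
  induction k with
  | zero => exact ⟨rfl, hw⟩
  | succ k ih =>
    obtain ⟨h1, h2⟩ := ih
    rw [List.range_succ, List.map_append, List.foldl_append, h1, List.map_cons, List.map_nil,
      List.foldl_cons, List.foldl_nil]
    by_cases hk : (k + 1) % 2 = 0
    · have he : K.ltr (k + 1) w = Sum.inl (K.kap k w).1 := by
        unfold ltr
        rw [if_pos hk, Nat.add_sub_cancel]
      have hik : ik (k + 1) i = nbr (Sum.inl (K.kap k w).1 : Fin b ⊕ Fin a) (ik k i) := by
        rw [ik_succ, if_pos hk]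
        rfl
      have hend : K.hasEnd (Sum.inl (K.kap k w).1) (K.cz (ik k i) (D.f c)) := by
        show (K.cz (ik k i) (D.f c)).2.1 = _
        rw [h2]
      rw [he, hik]
      refine ⟨D.A_eq hm ⟨c, ik k i, rfl, hend, rfl⟩, ?_⟩
      rw [K.cz_nbr hm]
      show K.r1 (K.cz (ik k i) (D.f c)).2 = (if (k + 1) % 2 = 0 then K.r1 (K.kap k w) else K.r2 (K.kap k w))
      rw [h2, if_pos hk]
    · have he : K.ltr (k + 1) w = Sum.inr (K.kap k w).2 := by
        unfold ltr
        rw [if_neg hk, Nat.add_sub_cancel]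
      have hik : ik (k + 1) i = nbr (Sum.inr (K.kap k w).2 : Fin b ⊕ Fin a) (ik k i) := by
        rw [ik_succ, if_neg hk]
        rfl
      have hend : K.hasEnd (Sum.inr (K.kap k w).2) (K.cz (ik k i) (D.f c)) := by
        show (K.cz (ik k i) (D.f c)).2.2 = _
        rw [h2]
      rw [he, hik]
      refine ⟨D.A_eq hm ⟨c, ik k i, rfl, hend, rfl⟩, ?_⟩
      rw [K.cz_nbr hm]
      show K.r2 (K.cz (ik k i) (D.f c)).2 = (if (k + 1) % 2 = 0 then K.r1 (K.kap k w) else K.r2 (K.kap k w))
      rw [h2, if_neg hk]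

/-- the right action of the fundamental group on the vertices -/
noncomputable def Φ (D : K.DevH B) (hm : 0 < m) : K.Pi →* (Equiv.Perm (Vert B))ᵐᵒᵖ :=
  PresentedGroup.toGroup (f := fun e => MulOpposite.op (D.P hm e)) (by
    rintro r ((⟨s, rfl⟩ | ⟨t, rfl⟩) | ⟨w, rfl⟩)
    · rw [map_mul, FreeGroup.lift_apply_of, FreeGroup.lift_apply_of, ← MulOpposite.op_mul]
      apply MulOpposite.unop_injective
      apply Equiv.ext
      intro v
      exact D.A_opp hm (Sum.inl s) v
    · rw [map_mul, FreeGroup.lift_apply_of, FreeGroup.lift_apply_of, ← MulOpposite.op_mul]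
      apply MulOpposite.unop_injective
      apply Equiv.ext
      intro v
      exact D.A_opp hm (Sum.inr t) v
    · rw [map_list_prod, List.map_map]
      have h1 : (List.map ((FreeGroup.lift fun e => MulOpposite.op (D.P hm e)) ∘
          fun k => FreeGroup.of (K.ltr (k + 1) w)) (List.range (2 * m))) =
          (((List.range (2 * m)).map (fun j => K.ltr (j + 1) w)).map
            (fun e => MulOpposite.op (D.P hm e))) := by
        rw [List.map_map]
        refine List.map_congr_left fun k _ => ?_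
        show (FreeGroup.lift fun e => MulOpposite.op (D.P hm e)) (FreeGroup.of (K.ltr (k + 1) w)) = _
        rw [FreeGroup.lift_apply_of]
        rfl
      rw [h1]
      apply MulOpposite.unop_injective
      apply Equiv.ext
      intro v
      rw [D.prod_apply hm]
      induction v using Quotient.inductionOn with
      | _ u =>
        obtain ⟨c, i⟩ := u
        obtain ⟨d, hd1, hd2⟩ := D.veq_label hm i c w
        have h2 : (Quotient.mk (vset B) (c, i) : Vert B) = mkv B d i := mkv_eq.2 ⟨rfl, hd1⟩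
        have h3 := (D.read_polygon hm d i w (by rw [hd2]) (2 * m)).1
        rw [ik_period hm] at h3
        show List.foldl (fun v e => D.A hm e v) (Quotient.mk (vset B) (c, i) : Vert B) _ = _
        rw [h2, h3]
        rfl)

/-- the action -/
noncomputable def act (D : K.DevH B) (hm : 0 < m) (v : Vert B) (γ : K.Pi) : Vert B :=
  (MulOpposite.unop (D.Φ hm γ)) v

theorem act_mul (v : Vert B) (γ γ' : K.Pi) :
    D.act hm v (γ * γ') = D.act hm (D.act hm v γ) γ' := by
  unfold act
  rw [map_mul]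
  rfl

theorem act_one (v : Vert B) : D.act hm v 1 = v := by
  unfold act
  rw [map_one]
  rfl

theorem act_g (v : Vert B) (e : Fin b ⊕ Fin a) : D.act hm v (K.g e) = D.A hm e v := by
  unfold act Φ g
  rw [PresentedGroup.toGroup.of]
  rfl

theorem act_pos (γ : K.Pi) : ∀ v, D.pos hm (D.act hm v γ) = D.pos hm v * γ := by
  have hγ : γ ∈ Subgroup.closure (Set.range K.g) := by
    have h : Subgroup.closure (Set.range (PresentedGroup.of : Fin b ⊕ Fin a → K.Pi)) = ⊤ :=
      PresentedGroup.closure_range_of K.rels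
    have h2 : Set.range K.g = Set.range (PresentedGroup.of : Fin b ⊕ Fin a → K.Pi) := rfl
    rw [h2, h]
    trivial
  induction hγ using Subgroup.closure_induction with
  | mem x hx =>
    obtain ⟨e, rfl⟩ := hx
    intro v
    rw [D.act_g hm, D.pos_act hm (D.A_spec hm e v)]
  | one => intro v; rw [D.act_one hm, mul_one]
  | mul x y _ _ hx hy => intro v; rw [D.act_mul hm, hy, hx, mul_assoc]
  | inv x _ hx =>
    intro v
    have h1 := hx (D.act hm v x⁻¹)
    rw [← D.act_mul hm, inv_mul_cancel, D.act_one hm] at h1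
    rw [h1, mul_inv_cancel_right]

theorem step (c : C) (i : ZMod (2 * m)) : ∃ γ, mkv B c (i + 1) = D.act hm (mkv B c i) γ := by
  by_cases hi : i.val % 2 = 0
  · refine ⟨K.g (Sum.inr (K.cz i (D.f c)).2.2), ?_⟩
    rw [D.act_g hm]
    have he : K.hasEnd (Sum.inr (K.cz i (D.f c)).2.2) (K.cz i (D.f c)) := rfl
    refine (D.A_eq hm ⟨c, i, rfl, he, ?_⟩).symm
    show _ = mkv B c (if i.val % 2 = 0 then i + 1 else i - 1)
    rw [if_pos hi]
  · refine ⟨K.g (Sum.inl (K.cz i (D.f c)).2.1), ?_⟩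
    rw [D.act_g hm]
    have he : K.hasEnd (Sum.inl (K.cz i (D.f c)).2.1) (K.cz i (D.f c)) := rfl
    refine (D.A_eq hm ⟨c, i, rfl, he, ?_⟩).symm
    show _ = mkv B c (if i.val % 2 = 0 then i - 1 else i + 1)
    rw [if_neg hi]

theorem steps (c : C) (i : ZMod (2 * m)) (k : ℕ) :
    ∃ γ, mkv B c (i + k) = D.act hm (mkv B c i) γ := by
  induction k with
  | zero => exact ⟨1, by rw [D.act_one hm]; simp⟩
  | succ k ih =>
    obtain ⟨γ, hγ⟩ := ih
    obtain ⟨γ', hγ'⟩ := D.step hm c (i + k)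
    refine ⟨γ * γ', ?_⟩
    rw [D.act_mul hm, ← hγ, ← hγ']
    congr 1
    push_cast
    ring

theorem steps' (c : C) (i j : ZMod (2 * m)) : ∃ γ, mkv B c j = D.act hm (mkv B c i) γ := by
  have : NeZero (2 * m) := ⟨by omega⟩
  obtain ⟨γ, hγ⟩ := D.steps hm c i (j - i).val
  refine ⟨γ, ?_⟩
  rw [← hγ, ZMod.natCast_zmod_val]
  congr 1
  ring

theorem transitive (v v' : Vert B) : ∃ γ, v' = D.act hm v γ := by
  induction v using Quotient.inductionOn with
  | _ u =>
  induction v' using Quotient.inductionOn with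
  | _ u' =>
  obtain ⟨c, i⟩ := u
  obtain ⟨d, j⟩ := u'
  have key : ∀ d, Relation.ReflTransGen (fun x y => ∃ i, B.adj i x y) c d →
      ∀ j, ∃ γ, mkv B d j = D.act hm (mkv B c i) γ := by
    intro d hd
    induction hd with
    | refl => intro j; exact D.steps' hm c i j
    | @tail x y _ hxy ih =>
      obtain ⟨l, hl⟩ := hxy
      intro j
      obtain ⟨γ, hγ⟩ := ih l
      have h1 : mkv B x l = mkv B y l := mkv_eq.2 ⟨rfl, veq_left hl⟩
      obtain ⟨γ', hγ'⟩ := D.steps' hm y l j
      exact ⟨γ * γ', by rw [D.act_mul hm, ← hγ, h1, ← hγ']⟩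
  exact key d (B.conn c d) j

theorem pos_injective : Function.Injective (D.pos hm) := by
  intro v v' h
  obtain ⟨γ, hγ⟩ := D.transitive hm v v'
  have h1 := D.act_pos hm γ v
  rw [← hγ, ← h] at h1
  have h2 : γ = 1 := by
    have := mul_left_cancel (a := D.pos hm v) (b := 1) (c := γ) (by rw [mul_one]; exact h1)
    exact this.symm
  rw [hγ, h2, D.act_one hm]

theorem pos_surjective (v₀ : Vert B) : Function.Surjective (D.pos hm) := by
  intro γ
  refine ⟨D.act hm v₀ ((D.pos hm v₀)⁻¹ * γ), ?_⟩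
  rw [D.act_pos hm]
  group

/-! ### the quasi-isometry -/

/-- the generating set -/
noncomputable def _root_.QFC.KData.S (K : KData m a b) : Finset K.Pi := Finset.univ.image K.g

theorem _root_.QFC.KData.generates_S (K : KData m a b) : Generates K.S := by
  unfold Generates
  have h : Subgroup.closure (Set.range (PresentedGroup.of : Fin b ⊕ Fin a → K.Pi)) = ⊤ :=
    PresentedGroup.closure_range_of K.rels
  rw [← h]
  congr 1
  ext x
  simp [KData.S, g]

/-- the map from chambers to the group -/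
noncomputable def F (D : K.DevH B) (c : C) : K.Pi := (D.f c).1

theorem F_eq (c : C) : D.F c = D.pos hm (mkv B c 0) := by
  rw [D.pos_mkv hm]
  unfold KData.cz F
  rw [ZMod.val_zero]
  rfl

theorem dist_coord (k : ℕ) (p : K.St) : wordDist K.S p.1 (K.coord k p).1 ≤ k := by
  rw [K.coord_fst]
  unfold wordDist
  rw [inv_mul_cancel_left]
  refine (wordLength_le (S := K.S) _ ?_ rfl).trans ?_
  · intro x hx
    obtain ⟨j, _, rfl⟩ := List.mem_map.1 hx
    left
    exact Finset.mem_image_of_mem _ (Finset.mem_univ _)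
  · simp

theorem lip (c d : C) : wordDist K.S (D.F c) (D.F d) ≤ 4 * m * B.dist c d := by
  have hS := K.generates_S
  have key : ∀ k c, B.dist c d = k → wordDist K.S (D.F c) (D.F d) ≤ 4 * m * k := by
    intro k
    induction k with
    | zero =>
      intro c h
      rw [B.dist_eq_zero h, wordDist_self]
      exact Nat.zero_le _
    | succ k ih =>
      intro c h
      obtain ⟨i, e, h1, _, h3⟩ := B.exists_step h
      have h4 := ih e h3
      have h5 := wordDist_triangle hS (D.F c) (D.F e) (D.F d)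
      have h6 : (K.cz i (D.f c)).1 = (K.cz i (D.f e)).1 := ((K.edg_iff i _ _).1 (D.edg i c e h1)).1
      have h7 := dist_coord (K := K) i.val (D.f c)
      have h8 := dist_coord (K := K) i.val (D.f e)
      have h9 := wordDist_triangle hS (D.F c) (K.cz i (D.f c)).1 (D.F e)
      rw [h6] at h9
      have h6' : (K.coord i.val (D.f c)).1 = (K.coord i.val (D.f e)).1 := h6
      rw [h6'] at h7
      have h10 := wordDist_comm hS (K.cz i (D.f e)).1 (D.F e)
      by_cases hm0 : m = 0
      · subst hm0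
        have := B.hn
        omega
      · have : NeZero (2 * m) := ⟨by omega⟩
        have hlt := ZMod.val_lt i
        have h11 : wordDist K.S (D.F c) (K.cz i (D.f e)).1 ≤ i.val := h7
        have h12 : wordDist K.S (D.F e) (K.cz i (D.f e)).1 ≤ i.val := h8
        have h13 : 4 * m * (k + 1) = 4 * m * k + 4 * m := by ring
        omega
  exact key _ c rfl

include hm in
theorem word_bound (l : List (Fin b ⊕ Fin a)) : ∀ (c : C) (i : ZMod (2 * m)) (d : C)
    (j : ZMod (2 * m)), mkv B d j = l.foldl (fun v e => D.A hm e v) (mkv B c i) →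
    B.dist c d ≤ 2 * l.length + 2 := by
  induction l with
  | nil =>
    intro c i d j h
    obtain ⟨h1, h2⟩ := mkv_eq.1 h
    have := dist_veq h2
    rw [B.dist_comm]
    simpa using this
  | cons e l ih =>
    intro c i d j h
    obtain ⟨c', h1, h2⟩ := D.act_total hm e c i
    rw [List.foldl_cons, D.A_eq hm h2] at h
    have h3 := ih c' _ d j h
    have h4 := dist_veq h1
    have h5 := B.dist_triangle c c' d
    rw [List.length_cons]
    omega

theorem exists_ends (l : List K.Pi) (hl : ∀ x ∈ l, x ∈ K.S ∨ x⁻¹ ∈ K.S) (p : K.St) :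
    ∃ l' : List (Fin b ⊕ Fin a), l'.map K.g = l := by
  induction l with
  | nil => exact ⟨[], rfl⟩
  | cons x l ih =>
    obtain ⟨l', hl'⟩ := ih (fun y hy => hl y (List.mem_cons_of_mem _ hy))
    rcases hl x List.mem_cons_self with h | h
    · obtain ⟨e, _, he⟩ := Finset.mem_image.1 h
      exact ⟨e :: l', by rw [List.map_cons, hl', he]⟩
    · obtain ⟨e, _, he⟩ := Finset.mem_image.1 h
      refine ⟨K.opp e :: l', ?_⟩
      rw [List.map_cons, hl', K.g_opp, he, inv_inv]

theorem act_list (l : List (Fin b ⊕ Fin a)) : ∀ v : Vert B,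
    D.act hm v (l.map K.g).prod = l.foldl (fun v e => D.A hm e v) v := by
  induction l with
  | nil => intro v; exact D.act_one hm v
  | cons e l ih =>
    intro v
    rw [List.map_cons, List.prod_cons, D.act_mul hm, D.act_g hm, ih]
    rfl

include hm in
theorem lower (c d : C) : B.dist c d ≤ 2 * wordDist K.S (D.F c) (D.F d) + 2 := by
  obtain ⟨l, h1, h2, h3⟩ := exists_word K.generates_S ((D.F c)⁻¹ * D.F d)
  obtain ⟨l', hl'⟩ := exists_ends l h2 (D.f c)
  have h4 : D.act hm (mkv B c 0) ((D.F c)⁻¹ * D.F d) = mkv B d 0 := by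
    apply D.pos_injective hm
    rw [D.act_pos hm, ← D.F_eq hm, ← D.F_eq hm]
    group
  rw [← h3, ← hl', D.act_list hm] at h4
  have h5 := D.word_bound hm l' c 0 d 0 h4.symm
  have h6 : l'.length = wordDist K.S (D.F c) (D.F d) := by
    unfold wordDist
    rw [← h1, ← hl', List.length_map]
  omega

include hm in
theorem dense (c₀ : C) (γ : K.Pi) : ∃ c, wordDist K.S (D.F c) γ ≤ 2 * m := by
  obtain ⟨v, hv⟩ := D.pos_surjective hm (mkv B c₀ 0) γ
  induction v using Quotient.inductionOn with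
  | _ u =>
    obtain ⟨c, i⟩ := u
    refine ⟨c, ?_⟩
    have h1 : (K.coord i.val (D.f c)).1 = γ := hv
    have h2 := dist_coord (K := K) i.val (D.f c)
    rw [h1] at h2
    have : NeZero (2 * m) := ⟨by omega⟩
    have hlt := ZMod.val_lt i
    have h3 : wordDist K.S (D.F c) γ ≤ i.val := h2
    omega

end DevH

end

end KData

end QFC
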