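import Pool.Agent.QFC.GP

/-! # L1 : graph products over the cycle: universal property, cocycles -/

open scoped Classical

namespace QFC

variable {n : ℕ} (P : ZMod n → Type) [∀ i, Group (P i)]

namespace GP

theorem of_comm {i j : ZMod n} (h : TAdj i j) (a : P i) (b : P j) : of P i a * of P j b = of P j b * of P i a := by
  have h1 : (QuotientGroup.mk' (Subgroup.normalClosure (gpRel P)))
      (Monoid.CoprodI.of a * Monoid.CoprodI.of b * (Monoid.CoprodI.of a)⁻¹ * (Monoid.CoprodI.of b)⁻¹) = 1 := by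
    rw [QuotientGroup.mk'_apply, QuotientGroup.eq_one_iff]
    exact Subgroup.subset_normalClosure ⟨i, j, a, b, h, rfl⟩
  rw [map_mul, map_mul, map_mul, map_inv, map_inv] at h1
  have h2 : of P i a * of P j b * (of P i a)⁻¹ * (of P j b)⁻¹ = 1 := h1
  rw [mul_inv_eq_one, mul_inv_eq_iff_eq_mul] at h2
  exact h2

/-- `Monoid.CoprodI.lift`, `QuotientGroup.lift`, `Subgroup.normalClosure_le_normal` -/
theorem exists_lift {M : Type} [Group M] (f : ∀ i, P i →* M)
    (h : ∀ i j (a : P i) (b : P j), TAdj i j → f i a * f j b = f j b * f i a) :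
    ∃ F : GP P →* M, ∀ i a, F (of P i a) = f i a := by
  have hN : Subgroup.normalClosure (gpRel P) ≤ (Monoid.CoprodI.lift f).ker := by
    apply Subgroup.normalClosure_le_normal
    rintro g ⟨i, j, a, b, hij, rfl⟩
    show (Monoid.CoprodI.lift f) _ = 1
    rw [map_mul, map_mul, map_mul, map_inv, map_inv, Monoid.CoprodI.lift_of, Monoid.CoprodI.lift_of, h i j a b hij]
    group
  refine ⟨QuotientGroup.lift (Subgroup.normalClosure (gpRel P)) (Monoid.CoprodI.lift f) hN, ?_⟩
  intro i a
  show (QuotientGroup.lift (Subgroup.normalClosure (gpRel P)) (Monoid.CoprodI.lift f) hN)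
    (QuotientGroup.mk' _ (Monoid.CoprodI.of a)) = f i a
  rw [QuotientGroup.mk'_apply, QuotientGroup.lift_mk, Monoid.CoprodI.lift_of]

/-- the images of the factors generate: every element of `CoprodI` is a product of letters (`Monoid.CoprodI.induction_on`, or the subgroup generated by the letters is everything); right multiplication version -/
theorem induction {p : GP P → Prop} (h1 : p 1) (hs : ∀ c i (a : P i), p c → p (c * of P i a)) : ∀ c, p c := by
  let π : Monoid.CoprodI P →* GP P := QuotientGroup.mk' (Subgroup.normalClosure (gpRel P))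
  have hπ : Function.Surjective π := QuotientGroup.mk'_surjective (Subgroup.normalClosure (gpRel P))
  have key : ∀ g : Monoid.CoprodI P, ∀ c : GP P, p c → p (c * π g) := by
    intro g
    induction g using Monoid.CoprodI.induction_on with
    | one =>
      intro c hc
      rw [map_one, mul_one]
      exact hc
    | of i a =>
      intro c hc
      exact hs c i a hc
    | mul x y hx hy =>
      intro c hc
      rw [map_mul, ← mul_assoc]
      exact hy _ (hx c hc)
  intro c
  obtain ⟨g, rfl⟩ := hπ c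
  have h2 := key g 1 h1
  rw [one_mul] at h2
  exact h2

/-- **Cocycles.** For `a : P i` let `ρ i a : Equiv.Perm (H × GP P)`, `(h, c) ↦ (h * z c i a⁻¹, c * of i a⁻¹)`. By `hz` it is a homomorphism `P i →* Equiv.Perm (H × GP P)` (first check `z c i 1 = 1`), by `hc` (applied to inverses) and `of_comm` neighbouring ones commute. `exists_lift` gives `ρ : GP P →* Equiv.Perm (H × GP P)`. Put `f c := (ρ c⁻¹ (1, 1)).1`. By
`induction`, `(ρ c⁻¹ (1, 1)).2 = c`. `ρ (c * of i a)⁻¹ (1, 1) = ρ i a⁻¹ (ρ c⁻¹ (1,1)) = (f c * z c i a, c * of i a)`. -/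
theorem exists_cocycle {H : Type} [Group H] (z : GP P → ∀ i, P i → H)
    (hz : ∀ c i a b, z c i (a * b) = z c i a * z (c * of P i a) i b)
    (hc : ∀ c i j (a : P i) (b : P j), TAdj i j →
      z c i a * z (c * of P i a) j b = z c j b * z (c * of P j b) i a) :
    ∃ f : GP P → H, f 1 = 1 ∧ ∀ c i a, f (c * of P i a) = f c * z c i a := by
  have z1 : ∀ c i, z c i 1 = 1 := by
    intro c i
    have h := hz c i 1 1
    rw [mul_one, map_one, mul_one] at h
    exact left_eq_mul.1 h
  let ρ : ∀ i, P i →* Equiv.Perm (H × GP P) := fun i => MonoidHom.toHomPerm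
    { toFun := fun a => (fun p => (p.1 * z p.2 i a⁻¹, p.2 * of P i a⁻¹) : H × GP P → H × GP P)
      map_one' := by
        funext p
        simp only [inv_one, z1, map_one, mul_one]
        rfl
      map_mul' := fun a b => by
        funext p
        show ((p.1 * z p.2 i (a * b)⁻¹, p.2 * of P i (a * b)⁻¹) : H × GP P) =
          (p.1 * z p.2 i b⁻¹ * z (p.2 * of P i b⁻¹) i a⁻¹, p.2 * of P i b⁻¹ * of P i a⁻¹)
        rw [mul_inv_rev, hz, map_mul, mul_assoc, mul_assoc] }
  have hρ : ∀ i a p, ρ i a p = ((p.1 * z p.2 i a⁻¹, p.2 * of P i a⁻¹) : H × GP P) := fun i a p => rfl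
  obtain ⟨Φ, hΦ⟩ := exists_lift P ρ (by
    intro i j a b hij
    ext1 p
    rw [Equiv.Perm.mul_apply, Equiv.Perm.mul_apply, hρ, hρ, hρ, hρ]
    dsimp only
    have h1 := hc p.2 i j a⁻¹ b⁻¹ hij
    have h2 := of_comm P hij a⁻¹ b⁻¹
    rw [mul_assoc, mul_assoc, mul_assoc, mul_assoc, h1, h2])
  have key : ∀ c i a, Φ (c * of P i a)⁻¹ (1, 1) =
      ((Φ c⁻¹ (1, 1)).1 * z (Φ c⁻¹ (1, 1)).2 i a, (Φ c⁻¹ (1, 1)).2 * of P i a) := by
    intro c i a
    rw [mul_inv_rev, map_mul, ← map_inv, hΦ, Equiv.Perm.mul_apply, hρ, inv_inv]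
  have hsnd : ∀ c, (Φ c⁻¹ (1, 1)).2 = c := by
    refine induction P ?_ ?_
    · rw [inv_one, map_one]
      rfl
    · intro c i a hc'
      rw [key, hc']
  refine ⟨fun c => (Φ c⁻¹ (1, 1)).1, ?_, ?_⟩
  · dsimp only
    rw [inv_one, map_one]
    rfl
  · intro c i a
    dsimp only
    rw [key, hsnd]

end GP

end QFC
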