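import Pool.Agent.QFC.L1
import Pool.Agent.QFC.LimitData
import Pool.Agent.QFC.A1

/-! # L3 : the building of a graph product -/

open scoped Classical

namespace QFC

variable {n : ℕ} (P : ZMod n → Type) [∀ i, Group (P i)]

namespace GP

theorem mem_St_iff_mul (i j : ZMod n) (hj : j = i ∨ TAdj i j) (c : GP P) (a : P j) : c * of P j a ∈ St P i ↔ c ∈ St P i := by
  have h : of P j a ∈ St P i := Subgroup.subset_closure ⟨j, hj, a, rfl⟩
  exact Subgroup.mul_mem_cancel_right _ h

/-- the sheet function of the wall `St i`: `exists_cocycle` with `H = P i` and `z c j a = a` (transported) if `j = i` and `c ∈ St P i`, else `1`. `hz`: `mem_St_iff_mul`. `hc`: if neither type is `i` both sides are `1`; if exactly one is `i` (the other is then a neighbour of `i`), both sides are `a` or `1` by `mem_St_iff_mul`; both equal `i` is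
impossible (`TAdj i i` is false for `n ≥ 6`). -/
theorem exists_lam (hn : 6 ≤ n) (i : ZMod n) : ∃ lam : GP P → P i, lam 1 = 1 ∧
    (∀ c ∈ St P i, ∀ a : P i, lam (c * of P i a) = lam c * a) ∧
    (∀ c (a : P i), c ∉ St P i → lam (c * of P i a) = lam c) ∧
    (∀ c j (a : P j), j ≠ i → lam (c * of P j a) = lam c) := by
  let z : GP P → ∀ j, P j → P i := fun c j a => if h : j = i then (if c ∈ St P i then h ▸ a else 1) else 1
  have zi : ∀ c (a : P i), c ∈ St P i → z c i a = a := by
    intro c a hc
    show (if h : i = i then (if c ∈ St P i then h ▸ a else 1) else 1) = a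
    rw [dif_pos rfl, if_pos hc]
  have zi' : ∀ c (a : P i), c ∉ St P i → z c i a = 1 := by
    intro c a hc
    show (if h : i = i then (if c ∈ St P i then h ▸ a else 1) else 1) = 1
    rw [dif_pos rfl, if_neg hc]
  have zj : ∀ c j (a : P j), j ≠ i → z c j a = 1 := by
    intro c j a hj
    show (if h : j = i then (if c ∈ St P i then h ▸ a else 1) else 1) = 1
    rw [dif_neg hj]
  have hmem : ∀ c j (a : P j), (j = i ∨ TAdj i j) → (c * of P j a ∈ St P i ↔ c ∈ St P i) :=
    fun c j a hj => mem_St_iff_mul P i j hj c a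
  have hz : ∀ c j a b, z c j (a * b) = z c j a * z (c * of P j a) j b := by
    intro c j a b
    by_cases hj : j = i
    · subst hj
      by_cases hc : c ∈ St P j
      · rw [zi _ _ hc, zi _ _ hc, zi _ _ ((hmem c j a (Or.inl rfl)).2 hc)]
      · rw [zi' _ _ hc, zi' _ _ hc, zi' _ _ (fun h => hc ((hmem c j a (Or.inl rfl)).1 h)), mul_one]
    · rw [zj _ _ _ hj, zj _ _ _ hj, zj _ _ _ hj, mul_one]
  have hc : ∀ c j k (a : P j) (b : P k), TAdj j k →
      z c j a * z (c * of P j a) k b = z c k b * z (c * of P k b) j a := by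
    intro c j k a b hjk
    have hne : j ≠ k := TAdj_ne hn hjk
    by_cases hj : j = i
    · subst hj
      rw [zj _ k b (Ne.symm hne), zj _ k b (Ne.symm hne), mul_one, one_mul]
      by_cases hc : c ∈ St P j
      · rw [zi _ _ hc, zi _ _ ((hmem c k b (Or.inr hjk)).2 hc)]
      · rw [zi' _ _ hc, zi' _ _ (fun h => hc ((hmem c k b (Or.inr hjk)).1 h))]
    · by_cases hk : k = i
      · subst hk
        rw [zj _ j a hne, zj _ j a hne, mul_one, one_mul]
        by_cases hc : c ∈ St P k
        · rw [zi _ _ hc, zi _ _ ((hmem c j a (Or.inr hjk.symm)).2 hc)]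
        · rw [zi' _ _ hc, zi' _ _ (fun h => hc ((hmem c j a (Or.inr hjk.symm)).1 h))]
      · rw [zj _ _ _ hj, zj _ _ _ hk, zj _ _ _ hj, zj _ _ _ hk]
  obtain ⟨f, hf1, hf2⟩ := exists_cocycle P z hz hc
  refine ⟨f, hf1, ?_, ?_, ?_⟩
  · intro c hc a
    rw [hf2, zi _ _ hc]
  · intro c a hc
    rw [hf2, zi' _ _ hc, mul_one]
  · intro c j a hj
    rw [hf2, zj _ _ _ hj, mul_one]

theorem of_injective (hn : 6 ≤ n) (i : ZMod n) : Function.Injective (of P i) := by
  obtain ⟨lam, h1, h2, _⟩ := exists_lam P hn i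
  intro a b hab
  have h3 := h2 1 (Subgroup.one_mem _) a
  have h4 := h2 1 (Subgroup.one_mem _) b
  rw [h1, one_mul, one_mul] at h3 h4
  rw [← h3, ← h4, hab]

/-- right cosets moves connect a coset of `St i` (`Subgroup.closure_induction_right` or induction on the closure) -/
theorem conn_St (i : ZMod n) {c d : GP P} (h : c⁻¹ * d ∈ St P i) :
    Relation.ReflTransGen (fun x y => ∃ j, (j = i ∨ TAdj i j) ∧ Adj P j x y) c d := by
  let R : GP P → GP P → Prop := fun x y => ∃ j, (j = i ∨ TAdj i j) ∧ Adj P j x y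
  have hsymm : Std.Symm R := by
    refine ⟨?_⟩
    rintro x y ⟨j, hj, a, rfl⟩
    refine ⟨j, hj, a⁻¹, ?_⟩
    rw [map_inv, mul_inv_cancel_right]
  have key : ∀ g ∈ St P i, ∀ c, Relation.ReflTransGen R c (c * g) := by
    intro g hg
    induction hg using Subgroup.closure_induction with
    | mem x hx =>
      intro c
      obtain ⟨j, hj, a, rfl⟩ := hx
      exact Relation.ReflTransGen.single ⟨j, hj, a, rfl⟩
    | one =>
      intro c
      rw [mul_one]
    | mul x y _ _ hx hy =>
      intro c
      rw [← mul_assoc]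
      exact (hx c).trans (hy (c * x))
    | inv x _ hx =>
      intro c
      have h1 := hx (c * x⁻¹)
      rw [inv_mul_cancel_right] at h1
      exact (Relation.ReflTransGen.stdSymm (r := R)).symm _ _ h1
  have h1 := key _ h c
  rw [mul_inv_cancel_left] at h1
  exact h1

end GP

end QFC
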