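import Pool.Agent.QFC.L3

/-! # L3b : the building of a graph product -/

open scoped Classical

namespace QFC

variable {n : ℕ} (P : ZMod n → Type) [∀ i, Group (P i)]

namespace GP

/-- **The building.** `Wall = Σ i, GP P ⧸ St P i`, `wall i c = ⟨i, c⟩`, `typ = Sigma.fst`, `Sheet = Σ i, P i`, `σ ⟨i, T⟩ c = ⟨i, lam i (T.out⁻¹ * c)⟩`. `wall_eq`: `of j a ∈ St i`. `wall_conn`: `conn_St` (`QuotientGroup.eq`). `σ_eq`: for `j ≠ i` third property of `lam`; for `j = i`, `T ≠ wall i c` means `T.out⁻¹ * c ∉ St i`. `σ_ne`: `T.out⁻¹ * c ∈ St i` and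
`lam (… * of i a) = lam … * a`, `a ≠ 1`. `square`: `of_comm`. `conn`: `induction`. `card_panel`: `of_injective`. -/
theorem exists_bldg (hn : 6 ≤ n) [∀ i, Finite (P i)] (h3 : ∀ i, 3 ≤ Nat.card (P i)) :
    ∃ B : Bldg n (GP P), B.adj = Adj P ∧ (∀ i, B.q i = Nat.card (P i)) := by
  choose lam lam1 lam2 lam3 lam4 using fun i => exists_lam P hn i
  have hout : ∀ i (T : GP P ⧸ St P i), (QuotientGroup.mk (Quotient.out T) : GP P ⧸ St P i) = T :=
    fun i T => Quotient.out_eq' T
  -- `T.out⁻¹ * c ∈ St` iff `c` is on `T`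
  have hon : ∀ i (T : GP P ⧸ St P i) (c : GP P), (Quotient.out T)⁻¹ * c ∈ St P i ↔ T = QuotientGroup.mk c := by
    intro i T c
    rw [← QuotientGroup.eq, hout]
  let B : Bldg n (GP P) :=
    { hn := hn
      Wall := Σ i, GP P ⧸ St P i
      Sheet := Σ i, P i
      adj := Adj P
      adj_equiv := fun i => by
        refine ⟨fun c => ⟨1, by rw [map_one, mul_one]⟩, ?_, ?_⟩
        · rintro c d ⟨a, rfl⟩
          exact ⟨a⁻¹, by rw [map_inv, mul_inv_cancel_right]⟩
        · rintro c d e ⟨a, rfl⟩ ⟨b, rfl⟩
          exact ⟨a * b, by rw [map_mul, mul_assoc]⟩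
      wall := fun i c => ⟨i, QuotientGroup.mk c⟩
      typ := fun T => T.1
      typ_wall := fun _ _ => rfl
      wall_surj := by
        rintro ⟨i, T⟩
        obtain ⟨c, hc⟩ := QuotientGroup.mk_surjective T
        exact ⟨c, by rw [hc]⟩
      wall_eq := by
        rintro i j c d ⟨a, rfl⟩ hj
        have h : of P j a ∈ St P i := Subgroup.subset_closure ⟨j, hj, a, rfl⟩
        have h2 : (QuotientGroup.mk c : GP P ⧸ St P i) = QuotientGroup.mk (c * of P j a) := by
          rw [QuotientGroup.eq, inv_mul_cancel_left]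
          exact h
        rw [h2]
      wall_conn := by
        intro i c d h
        have h2 : (QuotientGroup.mk c : GP P ⧸ St P i) = QuotientGroup.mk d := eq_of_heq (Sigma.mk.inj h).2
        rw [QuotientGroup.eq] at h2
        exact conn_St P i h2
      σ := fun T c => ⟨T.1, lam T.1 ((Quotient.out T.2)⁻¹ * c)⟩
      σ_eq := by
        rintro ⟨i, T⟩ j c d ⟨a, rfl⟩ hT
        dsimp only
        rw [← mul_assoc]
        by_cases hj : j = i
        · subst hj
          have h : (Quotient.out T)⁻¹ * c ∉ St P j := by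
            intro h
            apply hT
            rw [(hon j T c).1 h]
          rw [lam3 _ _ _ h]
        · rw [lam4 _ _ _ _ hj]
      σ_ne := by
        rintro j c d ⟨a, rfl⟩ hne h
        dsimp only at h
        have h2 := eq_of_heq (Sigma.mk.inj h).2
        rw [← mul_assoc, lam2 j _ ((hon j _ c).2 rfl)] at h2
        apply hne
        have h3 : a = 1 := left_eq_mul.1 h2
        rw [h3, map_one, mul_one]
      square := by
        rintro i j c d e hij ⟨a, rfl⟩ ⟨b, rfl⟩
        refine ⟨c * of P i a * of P j b, ⟨b, rfl⟩, a, ?_⟩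
        rw [mul_assoc, of_comm P hij, mul_assoc]
      conn := by
        have h1 : ∀ c : GP P, Relation.ReflTransGen (fun x y => ∃ i, Adj P i x y) 1 c := by
          refine induction P Relation.ReflTransGen.refl ?_
          intro c i a h
          exact h.tail ⟨i, a, rfl⟩
        have hs : Std.Symm (fun x y : GP P => ∃ i, Adj P i x y) := by
          refine ⟨?_⟩
          rintro x y ⟨i, a, rfl⟩
          exact ⟨i, a⁻¹, by rw [map_inv, mul_inv_cancel_right]⟩
        intro c d
        exact ((Relation.ReflTransGen.stdSymm (r := fun x y : GP P => ∃ i, Adj P i x y)).symm _ _ (h1 c)).trans (h1 d)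
      q := fun i => Nat.card (P i)
      q_ge := h3
      card_panel := by
        intro i c
        have h1 : {d | Adj P i c d} = (fun a => c * of P i a) '' (Set.univ : Set (P i)) := by
          ext d
          constructor
          · rintro ⟨a, rfl⟩
            exact ⟨a, trivial, rfl⟩
          · rintro ⟨a, _, rfl⟩
            exact ⟨a, rfl⟩
        rw [h1, Set.ncard_image_of_injective, Set.ncard_univ]
        intro a b hab
        exact of_injective P hn i (mul_left_cancel hab) }
  exact ⟨B, rfl, fun i => rfl⟩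

theorem lInv_of_adj (B : Bldg n (GP P)) (hB : B.adj = Adj P) : LInv B := by
  intro h i c d hcd
  rw [hB] at hcd ⊢
  obtain ⟨a, rfl⟩ := hcd
  exact ⟨a, by rw [mul_assoc]⟩

end GP

end QFC
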