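import Pool.Agent.QFC.Defs
import Pool.Agent.QFC.Hyp
import Pool.Agent.QFC.Transport

/-! # Q1 : word metrics -/

namespace QFC

open Pool.Agent.QFC

variable {G : Type} [Group G]

/-- every element is a product of elements of `S` and inverses (`Subgroup.exists_list_of_mem_closure`) -/
theorem exists_list (S : Finset G) (hS : Generates S) (g : G) :
    ∃ l : List G, (∀ x ∈ l, x ∈ S ∨ x⁻¹ ∈ S) ∧ l.prod = g := by
  obtain ⟨l, _, h2, h3⟩ := exists_word hS g
  exact ⟨l, h2, h3⟩

/-- a list realizing the word length -/
theorem exists_min_list (S : Finset G) (hS : Generates S) (g : G) :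
    ∃ l : List G, l.length = wordLength S g ∧ (∀ x ∈ l, x ∈ S ∨ x⁻¹ ∈ S) ∧ l.prod = g := exists_word hS g

theorem wordLength_le (S : Finset G) {l : List G} (h : ∀ x ∈ l, x ∈ S ∨ x⁻¹ ∈ S) : wordLength S l.prod ≤ l.length := Pool.Agent.QFC.wordLength_le l h rfl

/-- `geo`: cut a minimal list after `k` letters -/
theorem wordDist_geo (S : Finset G) (hS : Generates S) : GeoSp (wordDist S) :=
  ⟨wordDist_self S, fun h => eq_of_wordDist hS h, wordDist_comm hS, wordDist_triangle hS,
    Pool.Agent.QFC.wordDist_geo hS⟩

/-- Lipschitz maps on the Cayley graph (a minimal list for `x⁻¹ y`, induction on its length) -/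
theorem lip_of_gen (S : Finset G) (hS : Generates S) {X : Type} (d : X → X → ℕ) (h0 : ∀ x, d x x = 0) (hsymm : ∀ x y, d x y = d y x)
    (htri : ∀ x y z, d x z ≤ d x y + d y z) (f : G → X) (D : ℕ) (hf : ∀ x, ∀ s ∈ S, d (f x) (f (x * s)) ≤ D) (x y : G) :
    d (f x) (f y) ≤ D * wordDist S x y := by
  have key : ∀ (l : List G) (x : G), (∀ z ∈ l, z ∈ S ∨ z⁻¹ ∈ S) → d (f x) (f (x * l.prod)) ≤ D * l.length := by
    intro l
    induction l with
    | nil =>
      intro x _
      rw [List.prod_nil, mul_one, h0]
      exact Nat.zero_le _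
    | cons z l ih =>
      intro x hl
      rw [List.prod_cons, ← mul_assoc, List.length_cons]
      have h1 : d (f x) (f (x * z)) ≤ D := by
        rcases hl z (by simp) with hz | hz
        · exact hf x z hz
        · have h2 := hf (x * z) _ hz
          rw [mul_inv_cancel_right] at h2
          rw [hsymm]
          exact h2
      have h2 := ih (x * z) (fun w hw => hl w (by simp [hw]))
      have h3 := htri (f x) (f (x * z)) (f (x * z * l.prod))
      rw [Nat.mul_succ]
      omega
  obtain ⟨l, h1, h2, h3⟩ := exists_min_list S hS (x⁻¹ * y)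
  have h4 := key l x h2
  rw [h3, mul_inv_cancel_left, h1] at h4
  exact h4

/-- change of generators: `lip_of_gen` with `f = id`, `D = max over s ∈ S of wordLength T s` -/
theorem exists_change (S T : Finset G) (hS : Generates S) (hT : Generates T) :
    ∃ K, ∀ x y, wordDist T x y ≤ K * wordDist S x y := by
  refine ⟨S.sup (fun s => wordLength T s), fun x y => ?_⟩
  refine lip_of_gen S hS (wordDist T) (wordDist_self T) (wordDist_comm hT) (wordDist_triangle hT) id _ ?_ x y
  intro x s hs
  have h1 : wordDist T (id x) (id (x * s)) = wordLength T s := by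
    unfold wordDist
    rw [id, id, inv_mul_cancel_left]
  rw [h1]
  exact Finset.le_sup (f := fun s => wordLength T s) hs

end QFC
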