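import Pool.Agent.QFC.L3b
import Pool.Agent.QFC.KQI
import Pool.Agent.QFC.Q1
import Pool.Agent.QFC.Pr

/-! # L6d : the fundamental group is quasi-isometric to the building; hyperbolicity -/

open scoped Classical

namespace QFC

open Pool.Agent.QFC

/-- a quasi-isometry between a group with the word metric of `S` and a building -/
structure GpQI {n : ℕ} {C G : Type} [Group G] (B : Bldg n C) (S : Finset G) (F : G → C) (F' : C → G) (D : ℕ) : Prop where
  gen : Generates S
  lip : ∀ x y, B.dist (F x) (F y) ≤ D * wordDist S x y + D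
  lip' : ∀ x y, wordDist S (F' x) (F' y) ≤ D * B.dist x y + D
  left : ∀ x, wordDist S (F' (F x)) x ≤ D
  right : ∀ y, B.dist (F (F' y)) y ≤ D

namespace KData

variable {m a b : ℕ} (K : KData m a b)

/-- The vertex groups `VG i = Multiplicative (ZMod (thick i))`; `GP.exists_bldg`, `Nat.card = thick`, `lInv_of_adj`. -/
theorem exists_building (hm : 3 ≤ m) (ha : 3 ≤ a) (hb : 3 ≤ b) :
    ∃ B : Bldg (2 * m) (GP K.VG), B.adj = GP.Adj K.VG ∧ (∀ i, B.q i = K.thick i) ∧ LInv B := by
  have hthick : ∀ i : ZMod (2 * m), 3 ≤ K.thick i := by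
    intro i
    unfold thick
    split_ifs
    · exact ha
    · exact hb
  have hcard : ∀ i : ZMod (2 * m), Nat.card (K.VG i) = K.thick i := by
    intro i
    show Nat.card (ZMod (K.thick i)) = K.thick i
    exact Nat.card_zmod _
  haveI hfin : ∀ i : ZMod (2 * m), Finite (K.VG i) := by
    intro i
    apply Nat.finite_of_card_ne_zero
    rw [hcard]
    have := hthick i
    omega
  obtain ⟨B, h1, h2⟩ := GP.exists_bldg K.VG (show 6 ≤ 2 * m by omega) (fun i => by rw [hcard]; exact hthick i)
  exact ⟨B, h1, fun i => by rw [h2, hcard], GP.lInv_of_adj K.VG B h1⟩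

/-- `S` = the images of all letters (generates: `PresentedGroup.closure_range_of`). `exists_dev`, `exists_theta` (`Θ 1 = 1`). `F x` := a chamber `c` with `cor c i = x` for some `i` (`cor_surj`); `F' = Θ`. `D = 4 m + 4` (or larger).
`lip` (`lip_of_gen` with `D = 4`): `c = F x`, `cor c i = x`; `cor_mul_gen`: `d` with `mkV i c = mkV i d` and `cor d j = x * gen l`; `c' = F (x * gen l)`, `cor c' j' = x * gen l`: `cor_inj`: `mkV j' c' = mkV j d` (so `j' = j` and) `dist c' d ≤ 2`, `dist c d ≤ 2` (`dist_le_two_of_mkV`; equality of vertices of types `j'`, `j` forces `j' = j`).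
`lip'`: for adjacent chambers `Θ d = Θ c * wd i (π c) * (wd i (π d))⁻¹`, a word of length `≤ 4 m`; induction along a geodesic of the building. `left`: `x = cor c i = Θ c * wd i (π c)`, `≤ 2 m`. `right`: `c' = F (Θ y)`, `cor c' j = Θ y = cor y 0`, `cor_inj`: distance `≤ 2`. -/
theorem exists_gpQI (hm : 3 ≤ m) (ha : 3 ≤ a) (hb : 3 ≤ b) (B : Bldg (2 * m) (GP K.VG)) (hB : B.adj = GP.Adj K.VG)
    (hq : ∀ i, B.q i = K.thick i) : ∃ (S : Finset K.Pi) (F : K.Pi → GP K.VG) (F' : GP K.VG → K.Pi) (D : ℕ), GpQI B S F F' D := by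
  have hm0 : 0 < m := by omega
  have hS := K.generates_S
  obtain ⟨D, _⟩ := K.exists_devH B hm0 (funext hq) 1 (1, ((⟨0, by omega⟩ : Fin b), (⟨0, by omega⟩ : Fin a)))
  choose F hF using fun γ => D.dense hm0 1 γ
  refine ⟨K.S, F, D.F, 8 * m + 2, hS, ?_, ?_, ?_, ?_⟩
  · intro x y
    have h1 := D.lower hm0 (F x) (F y)
    have h2 := wordDist_triangle hS (D.F (F x)) x (D.F (F y))
    have h3 := wordDist_triangle hS x y (D.F (F y))
    have h4 := hF x
    have h5 := hF y
    rw [wordDist_comm hS] at h5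
    have h6 : 2 * wordDist K.S x y ≤ (8 * m + 2) * wordDist K.S x y := Nat.mul_le_mul_right _ (by omega)
    omega
  · intro x y
    have h1 := D.lip x y
    have h2 : 4 * m * B.dist x y ≤ (8 * m + 2) * B.dist x y := Nat.mul_le_mul_right _ (by omega)
    omega
  · intro x
    have := hF x
    omega
  · intro y
    have h1 := D.lower hm0 (F (D.F y)) y
    have h2 := hF (D.F y)
    omega

end KData

end QFC
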