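import Pool.Agent.QFC.L6d
import Pool.Agent.QFC.A8
import Pool.Agent.QFC.HypQI

/-! # L6e : hyperbolicity; from groups to buildings -/

open scoped Classical

namespace QFC

open Pool.Agent.QFC

namespace KData

variable {m a b : ℕ} (K : KData m a b)

/-- **Hyperbolicity**: `exists_building`, `exists_gpQI`, `four_point`, `fourPt_of_qi` (`f = F`; `dY = wordDist S`, `h2`: `wordDist x y ≤ wordDist (F' (F x)) (F' (F y)) + 2 D ≤ D dist (F x) (F y) + 3 D`), `wordDist_geo`, `geoSp`. `FourPoint S δ` is by definition `FourPt (wordDist S) δ`. -/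
theorem isHyperbolic (hm : 3 ≤ m) (ha : 3 ≤ a) (hb : 3 ≤ b) : IsHyperbolicGroup K.Pi := by
  obtain ⟨B, hB, hq, _⟩ := K.exists_building hm ha hb
  obtain ⟨S, F, F', D, h⟩ := K.exists_gpQI hm ha hb B hB hq
  refine ⟨S, h.gen, ?_⟩
  have hd := wordDist_geo S h.gen
  have hL1 : ∀ x y, B.dist (F x) (F y) ≤ 3 * D * wordDist S x y + 3 * D := by
    intro x y
    have h1 := h.lip x y
    have h2 : D * wordDist S x y ≤ 3 * D * wordDist S x y := Nat.mul_le_mul_right _ (by omega)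
    omega
  have hL2 : ∀ x y, wordDist S x y ≤ 3 * D * B.dist (F x) (F y) + 3 * D := by
    intro x y
    have h1 := h.lip' (F x) (F y)
    have h2 := hd.tri x (F' (F x)) y
    have h3 := hd.tri (F' (F x)) (F' (F y)) y
    have h4 := h.left x
    have h5 := h.left y
    rw [hd.comm] at h4
    have h6 : D * B.dist (F x) (F y) ≤ 3 * D * B.dist (F x) (F y) := Nat.mul_le_mul_right _ (by omega)
    omega
  have hL3 : ∀ y, ∃ x, B.dist (F x) y ≤ 3 * D := by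
    intro y
    have h1 := h.right y
    exact ⟨F' y, by omega⟩
  obtain ⟨δ, hδ⟩ := HypQI.fourPt_of_qi hd B.geoSpH F (3 * D) hL1 hL2 hL3 B.fourPt
  exact ⟨δ, hδ⟩

end KData

/-- From a quasi-isometry of the groups to a pair of maps of the buildings. `f : G₁ → G₂` with constants for generating sets `T₁`, `T₂`: change of generators (`exists_change`) to `S₁`, `S₂`; coarse inverse `f'` (choose `x` with `dist (f x) z ≤ C`). `F = F₂ ∘ f ∘ F₁'`, `G = F₁ ∘ f' ∘ F₂'`. -/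
theorem exists_pair {n₁ n₂ : ℕ} {C₁ C₂ G₁ G₂ : Type} [Group G₁] [Group G₂] {B₁ : Bldg n₁ C₁} {B₂ : Bldg n₂ C₂} {S₁ : Finset G₁} {S₂ : Finset G₂}
    {F₁ : G₁ → C₁} {F₁' : C₁ → G₁} {F₂ : G₂ → C₂} {F₂' : C₂ → G₂} {D₁ D₂ : ℕ} (h1 : GpQI B₁ S₁ F₁ F₁' D₁) (h2 : GpQI B₂ S₂ F₂ F₂' D₂)
    (h : QIGroups G₁ G₂) : ∃ (F : C₁ → C₂) (G : C₂ → C₁) (K : ℕ), Bldg.Pair B₁ B₂ F G K := by
  obtain ⟨T₁, T₂, hT₁, hT₂, f, K, C, hf1, hf2, hf3⟩ := h
  obtain ⟨a₁, ha₁⟩ := exists_change S₁ T₁ h1.gen hT₁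
  obtain ⟨b₁, hb₁⟩ := exists_change T₁ S₁ hT₁ h1.gen
  obtain ⟨a₂, ha₂⟩ := exists_change S₂ T₂ h2.gen hT₂
  obtain ⟨b₂, hb₂⟩ := exists_change T₂ S₂ hT₂ h2.gen
  choose f' hf' using hf3
  have d1 := wordDist_geo S₁ h1.gen
  have d2 := wordDist_geo S₂ h2.gen
  have e1 := wordDist_geo T₁ hT₁
  have e2 := wordDist_geo T₂ hT₂
  -- constants
  -- f is Lipschitz for S₁, S₂
  have F1 : ∀ x y, wordDist S₂ (f x) (f y) ≤ b₂ * (K * (a₁ * wordDist S₁ x y) + C) := by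
    intro x y
    refine (hb₂ _ _).trans (Nat.mul_le_mul_left _ ((hf1 x y).trans ?_))
    exact Nat.add_le_add_right (Nat.mul_le_mul_left _ (ha₁ x y)) _
  -- lower bound for f
  have F2 : ∀ x y, wordDist T₁ x y ≤ K * wordDist T₂ (f x) (f y) + C := hf2
  -- f' is Lipschitz
  have F3 : ∀ x y, wordDist S₁ (f' x) (f' y) ≤ b₁ * (K * (a₂ * wordDist S₂ x y + 2 * C) + C) := by
    intro x y
    refine (hb₁ _ _).trans (Nat.mul_le_mul_left _ ((F2 _ _).trans ?_))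
    refine Nat.add_le_add_right (Nat.mul_le_mul_left _ ?_) _
    have t1 := e2.tri (f (f' x)) x (f (f' y))
    have t2 := e2.tri x y (f (f' y))
    have t3 := hf' x
    have t4 := hf' y
    rw [e2.comm] at t4
    have t5 := ha₂ x y
    omega
  -- f (f' y) close to y
  have F4 : ∀ y, wordDist S₂ (f (f' y)) y ≤ b₂ * C := fun y => (hb₂ _ _).trans (Nat.mul_le_mul_left _ (hf' y))
  -- f' (f x) close to x
  have F5 : ∀ x, wordDist S₁ (f' (f x)) x ≤ b₁ * (K * C + C) := by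
    intro x
    refine (hb₁ _ _).trans (Nat.mul_le_mul_left _ ((F2 _ _).trans ?_))
    exact Nat.add_le_add_right (Nat.mul_le_mul_left _ (hf' (f x))) _
  set A := b₂ * K * a₁ with hA
  set A' := b₁ * K * a₂ with hA'
  have G1 : ∀ x y, wordDist S₂ (f x) (f y) ≤ A * wordDist S₁ x y + b₂ * C := by
    intro x y
    refine (F1 x y).trans (le_of_eq ?_)
    rw [hA]
    ring
  have G3 : ∀ x y, wordDist S₁ (f' x) (f' y) ≤ A' * wordDist S₂ x y + b₁ * (K * (2 * C) + C) := by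
    intro x y
    refine (F3 x y).trans (le_of_eq ?_)
    rw [hA']
    ring
  refine ⟨fun c => F₂ (f (F₁' c)), fun c => F₁ (f' (F₂' c)), ?_⟩
  have P1 : ∀ x y, B₂.dist (F₂ (f (F₁' x))) (F₂ (f (F₁' y))) ≤
      D₂ * (A * D₁) * B₁.dist x y + (D₂ * (A * D₁ + b₂ * C) + D₂) := by
    intro x y
    refine (h2.lip _ _).trans ?_
    have t1 := G1 (F₁' x) (F₁' y)
    have t2 := h1.lip' x y
    have t3 := t1.trans (Nat.add_le_add_right (Nat.mul_le_mul_left A t2) _)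
    refine (Nat.add_le_add_right (Nat.mul_le_mul_left D₂ t3) _).trans (le_of_eq ?_)
    ring
  have P2 : ∀ x y, B₁.dist (F₁ (f' (F₂' x))) (F₁ (f' (F₂' y))) ≤
      D₁ * (A' * D₂) * B₂.dist x y + (D₁ * (A' * D₂ + b₁ * (K * (2 * C) + C)) + D₁) := by
    intro x y
    refine (h1.lip _ _).trans ?_
    have t1 := G3 (F₂' x) (F₂' y)
    have t2 := h2.lip' x y
    have t3 := t1.trans (Nat.add_le_add_right (Nat.mul_le_mul_left A' t2) _)
    refine (Nat.add_le_add_right (Nat.mul_le_mul_left D₁ t3) _).trans (le_of_eq ?_)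
    ring
  have P3 : ∀ x, B₁.dist (F₁ (f' (F₂' (F₂ (f (F₁' x)))))) x ≤
      D₁ * (A' * D₂ + b₁ * (K * (2 * C) + C) + b₁ * (K * C + C)) + D₁ + D₁ := by
    intro x
    have t1 := B₁.dist_triangle (F₁ (f' (F₂' (F₂ (f (F₁' x)))))) (F₁ (F₁' x)) x
    have t2 := h1.right x
    have t3 := h1.lip (f' (F₂' (F₂ (f (F₁' x))))) (F₁' x)
    have t4 := d1.tri (f' (F₂' (F₂ (f (F₁' x))))) (f' (f (F₁' x))) (F₁' x)
    have t5 := F5 (F₁' x)
    have t6 := G3 (F₂' (F₂ (f (F₁' x)))) (f (F₁' x))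
    have t7 := Nat.mul_le_mul_left A' (h2.left (f (F₁' x)))
    have t8 : wordDist S₁ (f' (F₂' (F₂ (f (F₁' x))))) (F₁' x) ≤
      A' * D₂ + b₁ * (K * (2 * C) + C) + b₁ * (K * C + C) := by omega
    have t9 := Nat.mul_le_mul_left D₁ t8
    omega
  have P4 : ∀ y, B₂.dist (F₂ (f (F₁' (F₁ (f' (F₂' y)))))) y ≤
      D₂ * (A * D₁ + b₂ * C + b₂ * C) + D₂ + D₂ := by
    intro y
    have t1 := B₂.dist_triangle (F₂ (f (F₁' (F₁ (f' (F₂' y)))))) (F₂ (F₂' y)) y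
    have t2 := h2.right y
    have t3 := h2.lip (f (F₁' (F₁ (f' (F₂' y))))) (F₂' y)
    have t4 := d2.tri (f (F₁' (F₁ (f' (F₂' y))))) (f (f' (F₂' y))) (F₂' y)
    have t5 := F4 (F₂' y)
    have t6 := G1 (F₁' (F₁ (f' (F₂' y)))) (f' (F₂' y))
    have t7 := Nat.mul_le_mul_left A (h1.left (f' (F₂' y)))
    have t8 : wordDist S₂ (f (F₁' (F₁ (f' (F₂' y))))) (F₂' y) ≤ A * D₁ + b₂ * C + b₂ * C := by omega
    have t9 := Nat.mul_le_mul_left D₂ t8
    omega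
  generalize hq1 : D₂ * (A * D₁) = q1 at P1
  generalize hq2 : (D₂ * (A * D₁ + b₂ * C) + D₂) = q2 at P1
  generalize hq3 : D₁ * (A' * D₂) = q3 at P2
  generalize hq4 : (D₁ * (A' * D₂ + b₁ * (K * (2 * C) + C)) + D₁) = q4 at P2
  generalize hq5 : D₁ * (A' * D₂ + b₁ * (K * (2 * C) + C) + b₁ * (K * C + C)) + D₁ + D₁ = q5 at P3
  generalize hq6 : D₂ * (A * D₁ + b₂ * C + b₂ * C) + D₂ + D₂ = q6 at P4
  refine ⟨q1 + q2 + q3 + q4 + q5 + q6, ?_, ?_, ?_, ?_⟩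
  · intro x y
    have t1 := P1 x y
    have t2 : q1 * B₁.dist x y ≤ (q1 + q2 + q3 + q4 + q5 + q6) * B₁.dist x y := Nat.mul_le_mul_right _ (by omega)
    omega
  · intro x y
    have t1 := P2 x y
    have t2 : q3 * B₂.dist x y ≤ (q1 + q2 + q3 + q4 + q5 + q6) * B₂.dist x y := Nat.mul_le_mul_right _ (by omega)
    omega
  · intro x
    have t1 := P3 x
    omega
  · intro y
    have t1 := P4 y
    omega

end QFC
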