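import Mathlib
import Pool.Agent.QFC.MT

namespace Pool.Agent.QFC

/-- relators -/
def octL : List (List ℕ) :=
  [[8, 2, 8, 1, 11, 0, 11, 1],
   [9, 4, 10, 7, 8, 7, 9, 1],
   [12, 1, 13, 4, 13, 2, 13, 1],
   [8, 5, 13, 7, 10, 2, 11, 3],
   [10, 6, 8, 3, 13, 6, 13, 3],
   [9, 5, 10, 4, 12, 6, 10, 5]]

/-- words for the automorphism -/
def octPhi : List (List ℕ) :=
  [[2],
   [17, 2, 17, 1, 4],
   [21, 12, 21, 5, 16, 12],
   [8],
   [7, 14, 8, 20, 12, 5, 9, 19, 11, 16, 21, 12, 21, 5, 16, 12],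
   [12],
   [3, 6, 16, 13],
   [16],
   [5, 9, 19, 11, 16, 21, 12, 21, 5, 16, 12],
   [20],
   [5, 0, 16, 3, 16, 20, 3, 19, 8, 21, 21, 12, 21, 5, 16, 12]]

/-- words for the inverse automorphism -/
def octPhi' : List (List ℕ) :=
  [[14, 10, 5, 19, 10, 19, 3, 15, 0, 15],
   [0],
   [14, 10, 5, 19, 10, 19],
   [0, 12, 10, 15],
   [6],
   [14, 4, 17, 18, 11, 18, 4, 11, 15, 7, 0, 19, 2, 20, 5, 18, 7],
   [10],
   [0, 12, 10, 15, 8, 17, 11, 19, 7],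
   [14],
   [6, 19, 4, 21, 3, 18, 1],
   [18]]

/-- certificates -/
def octC1 : List (List (List ℕ × ℕ × Bool)) :=
  [[],
   [([8, 8, 0, 9, 3, 9], 0, true)],
   [([8, 8, 2, 9, 7, 11], 4, true)],
   [],
   [([8, 5, 10, 4, 12, 6, 3, 8, 5, 13, 7, 10, 2, 9, 7, 11], 4, true), ([8, 5, 10, 4, 12, 6, 10, 3, 11, 6, 12, 4, 9], 3, true), ([8, 8, 4, 11, 7, 13, 5, 11, 4, 8], 5, true)],
   [],
   [([8, 8, 8, 6, 9, 6, 11, 5, 8], 1, true)],
   [],
   [([8, 8, 3, 8, 5, 13, 7, 10, 2, 9, 7, 11], 4, true), ([8, 8, 10, 3, 11, 6, 12, 4, 9], 3, true)],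
   [],
   [([8, 8, 3, 9], 0, false), ([8, 8, 8, 1, 12, 1, 13, 4, 13, 2, 9, 7, 11], 4, true), ([8, 8, 8, 12, 3, 12, 5, 12, 0, 13], 2, true)]]

/-- certificates -/
def octC2 : List (List (List ℕ × ℕ × Bool)) :=
  [[],
   [],
   [],
   [],
   [],
   [],
   []]

/-- data -/
def octData : IsoData where
  n := 11
  s := fun i => octPhi.getD i []
  s' := fun i => octPhi'.getD i []
  g := 7
  L := octL
  A := fun i => ([[0, 22],
   [23, 4, 22, 22],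
   [6, 22],
   [23, 10, 22],
   [22],
   [14, 22],
   [23, 18, 22]] : List (List ℕ)).getD i []
  B := fun i => ([[0, 9],
   [8, 0, 9, 9],
   [8, 2, 9, 9],
   [4, 9],
   [8, 4, 9, 9],
   [8, 6, 9],
   [8, 8, 6, 9, 9],
   [10, 9],
   [8, 10, 9, 9],
   [8, 12, 9],
   [8, 8, 12, 9, 9],
   [8]] : List (List ℕ)).getD i []
  c1 := fun i => octC1.getD i []
  c2 := fun i => octC2.getD i []

theorem oct_check : octData.check = true := by decide +kernel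

end Pool.Agent.QFC
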