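import Mathlib
import Pool.Agent.QFC.KIso
import Pool.Agent.QFC.Oct

namespace Pool.Agent.QFC

open _root_.QFC

/-- the one-vertex complex -/
def octK : KData 4 6 8 where
  ix := ![1, 0, 3, 2, 5, 4, 7, 6]
  iy := ![1, 0, 3, 2, 5, 4]
  al := ![![2, 0, 3, 1, 4, 5],
    ![1, 3, 0, 2, 4, 5],
    ![2, 0, 4, 3, 5, 1],
    ![1, 5, 0, 3, 2, 4],
    ![2, 3, 0, 4, 5, 1],
    ![2, 5, 0, 1, 3, 4],
    ![3, 1, 4, 0, 5, 2],
    ![3, 1, 5, 0, 2, 4]]
  be := ![![2, 4, 0, 0, 1, 4],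
    ![6, 3, 1, 1, 3, 0],
    ![5, 0, 6, 6, 5, 6],
    ![1, 7, 3, 3, 7, 1],
    ![0, 5, 4, 4, 0, 7],
    ![4, 2, 7, 7, 6, 2],
    ![7, 1, 2, 2, 2, 5],
    ![3, 6, 5, 5, 4, 3]]
  r1_inv := by decide +kernel
  r2_inv := by decide +kernel
  face := by decide +kernel

/-- certificates -/
def octKC : List (List (List ℕ × ℕ × Bool)) :=
  [[([], 0, true)],
   [([], 1, true)],
   [([0, 11, 1], 0, false)],
   [([0, 9, 3, 9], 0, true)],
   [([], 2, true)],
   [([0, 13], 2, true)],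
   [([1], 1, false)],
   [([1, 11, 0, 11, 1], 0, false)],
   [([1], 0, false)],
   [([1, 10, 0, 9, 3, 9], 0, true)],
   [([1], 2, false)],
   [([1, 13, 4, 13, 2, 13, 1], 2, false)],
   [([], 3, true)],
   [([2, 8, 1, 11, 0, 11, 1], 0, false)],
   [([], 4, true)],
   [([2, 11, 3], 3, false)],
   [([2, 13, 1], 2, false)],
   [([2, 9, 7, 11], 4, true)],
   [([3, 9], 0, true)],
   [([3, 13, 6, 13, 3], 4, false)],
   [([3], 3, false)],
   [([3, 11, 6, 12, 4, 9], 3, true)],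
   [([3], 4, false)],
   [([3, 12, 5, 12, 0, 13], 2, true)],
   [([4, 10, 7, 8, 7, 9, 1], 1, false)],
   [([], 5, true)],
   [([4, 8], 5, true)],
   [([4, 12, 6, 10, 5], 5, false)],
   [([4, 13, 2, 13, 1], 2, false)],
   [([4, 9], 3, true)],
   [([5, 10, 4, 12, 6, 10, 5], 5, false)],
   [([5, 13, 7, 10, 2, 11, 3], 3, false)],
   [([5, 8], 1, true)],
   [([5], 5, false)],
   [([5, 11, 4, 8], 5, true)],
   [([5, 12, 0, 13], 2, true)],
   [([6, 11, 5, 8], 1, true)],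
   [([6, 9, 6, 11, 5, 8], 1, true)],
   [([6, 12, 4, 9], 3, true)],
   [([6, 8, 3, 13, 6, 13, 3], 4, false)],
   [([6, 13, 3], 4, false)],
   [([6, 10, 5], 5, false)],
   [([7, 11], 4, true)],
   [([7, 9, 1], 1, false)],
   [([7, 13, 5, 11, 4, 8], 5, true)],
   [([7, 8, 7, 9, 1], 1, false)],
   [([7, 10, 2, 11, 3], 3, false)],
   [([7, 12, 2, 9, 7, 11], 4, true)]]

theorem oct_kCheck : kCheck octK octL (fun i => octKC.getD i []) = true := by decide +kernel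

/-- the mapping torus is the fundamental group of the complex -/
def octIso : MappingTorus (octData.aut oct_check) ≃* octK.Pi :=
  (IsoData.iso oct_check).trans (kIso oct_kCheck).symm

end Pool.Agent.QFC
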