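import Pool.Agent.QFC.P1

/-! # P2 : counting choices -/

open scoped Classical

namespace QFC

namespace Bldg

variable {n : ℕ} {C : Type} (B : Bldg n C)

theorem p2_other_finite (x : C) (T : B.Wall) : {a | a ≠ B.σ T x ∧ ∃ c, B.σ T c = a}.Finite :=
  (B.sheets_finite T).subset fun _ ha => ha.2

/-- `s` is determined by its values on `𝒲`, which lie in the finite sets `range (σ T)` -/
theorem chSet_finite (x : C) (s₀ : B.Wall → B.Sheet) (𝒲 : Finset B.Wall) : (B.chSet x s₀ 𝒲).Finite := by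
  have hfin : (Set.pi Set.univ fun T : {T // T ∈ 𝒲} => Set.range fun c => B.σ T.1 c).Finite :=
    Set.Finite.pi (fun T : {T // T ∈ 𝒲} => B.sheets_finite T.1)
  refine Set.Finite.of_finite_image (f := fun s (T : {T // T ∈ 𝒲}) => s T.1)
    (hfin.subset ?_) ?_
  · rintro _ ⟨s, hs, rfl⟩
    intro T _
    exact (hs.1 T.1).2
  · intro s hs s' hs' heq
    funext T
    by_cases hT : T ∈ 𝒲
    · exact congrFun heq ⟨T, hT⟩
    · rw [hs.2 T hT, hs'.2 T hT]

theorem mem_ch {x : C} {s₀ s : B.Wall → B.Sheet} {𝒲 : Finset B.Wall} :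
    s ∈ B.ch x s₀ 𝒲 ↔ B.Adm x s ∧ ∀ T, T ∉ 𝒲 → s T = s₀ T := by
  unfold ch
  rw [dif_pos (B.chSet_finite x s₀ 𝒲), Set.Finite.mem_toFinset]
  rfl

theorem ch_nonempty {x : C} {s₀ : B.Wall → B.Sheet} (hs : B.Adm x s₀) (𝒲 : Finset B.Wall) :
    (B.ch x s₀ 𝒲).Nonempty := ⟨s₀, B.mem_ch.2 ⟨hs, fun _ _ => rfl⟩⟩

/-- the number of sheets different from the sheet of `x` is `q - 1` (`sheets_ncard`) -/
theorem ncard_other (x : C) (T : B.Wall) :
    {a | a ≠ B.σ T x ∧ ∃ c, B.σ T c = a}.ncard = B.q (B.typ T) - 1 := by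
  have h1 : {a | a ≠ B.σ T x ∧ ∃ c, B.σ T c = a} = (Set.range fun c => B.σ T c) \ {B.σ T x} := by
    ext a
    constructor
    · rintro ⟨h1, h2⟩
      exact ⟨h2, h1⟩
    · rintro ⟨h1, h2⟩
      exact ⟨h2, h1⟩
  have h2 : B.σ T x ∈ Set.range fun c => B.σ T c := ⟨x, rfl⟩
  rw [h1, Set.ncard_sdiff_singleton_of_mem h2, B.sheets_ncard T]

/-- number of choices with prescribed values `t` on `J ⊆ 𝒲`: `∏ T ∈ 𝒲 \ J, (q T - 1)` (bijection with `Fintype.piFinset` / `Finset.pi` over `𝒲 \ J`, `ncard_other`) -/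
theorem card_cyl {x : C} {s₀ t : B.Wall → B.Sheet} (hs : B.Adm x s₀) (ht : B.Adm x t) (𝒲 J : Finset B.Wall)
    (hJ : J ⊆ 𝒲) : ((B.ch x s₀ 𝒲).filter (fun s => ∀ T ∈ J, s T = t T)).card = ∏ T ∈ 𝒲 \ J, (B.q (B.typ T) - 1) := by
  have h1 : ∏ T ∈ 𝒲 \ J, (B.q (B.typ T) - 1) =
      ((𝒲 \ J).pi fun T => (B.p2_other_finite x T).toFinset).card := by
    rw [Finset.card_pi]
    refine Finset.prod_congr rfl fun T _ => ?_
    rw [← B.ncard_other x T, Set.ncard_eq_toFinset_card _ (B.p2_other_finite x T)]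
  rw [h1]
  refine Finset.card_bij (fun s _ => fun T _ => s T) ?_ ?_ ?_
  · intro s h
    rw [Finset.mem_filter, B.mem_ch] at h
    rw [Finset.mem_pi]
    intro T _
    rw [Set.Finite.mem_toFinset]
    exact h.1.1 T
  · intro s h s' h' heq
    rw [Finset.mem_filter, B.mem_ch] at h h'
    funext T
    by_cases hT : T ∈ J
    · rw [h.2 T hT, h'.2 T hT]
    · by_cases hW : T ∈ 𝒲
      · exact congrFun (congrFun heq T) (Finset.mem_sdiff.2 ⟨hW, hT⟩)
      · rw [h.1.2 T hW, h'.1.2 T hW]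
  · intro g hg
    rw [Finset.mem_pi] at hg
    refine ⟨fun T => if h : T ∈ 𝒲 \ J then g T h else if T ∈ J then t T else s₀ T, ?_, ?_⟩
    · rw [Finset.mem_filter, B.mem_ch]
      refine ⟨⟨?_, ?_⟩, ?_⟩
      · intro T
        by_cases h : T ∈ 𝒲 \ J
        · simp only [dif_pos h]
          have := hg T h
          rw [Set.Finite.mem_toFinset] at this
          exact this
        · simp only [dif_neg h]
          by_cases h' : T ∈ J
          · simp only [if_pos h']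
            exact ht T
          · simp only [if_neg h']
            exact hs T
      · intro T hT
        have h : T ∉ 𝒲 \ J := fun h => hT (Finset.mem_sdiff.1 h).1
        have h' : T ∉ J := fun h => hT (hJ h)
        simp only [dif_neg h, if_neg h']
      · intro T hT
        have h : T ∉ 𝒲 \ J := fun h => (Finset.mem_sdiff.1 h).2 hT
        simp only [dif_neg h, if_pos hT]
    · funext T hT
      simp only [dif_pos hT]

theorem p2_pr_eq (x : C) (s₀ : B.Wall → B.Sheet) (𝒲 : Finset B.Wall) (E : (B.Wall → B.Sheet) → Prop) :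
    B.pr x s₀ 𝒲 E = (((B.ch x s₀ 𝒲).filter E).card : ℝ) / (B.ch x s₀ 𝒲).card := by
  unfold pr avg
  rw [Finset.sum_boole]

/-- cylinder probabilities: `card_cyl` for `J` and for `∅` -/
theorem pr_cyl {x : C} {s₀ t : B.Wall → B.Sheet} (hs : B.Adm x s₀) (ht : B.Adm x t) (𝒲 J : Finset B.Wall)
    (hJ : J ⊆ 𝒲) : B.pr x s₀ 𝒲 (fun s => ∀ T ∈ J, s T = t T) = ∏ T ∈ J, (1 / ((B.q (B.typ T) : ℝ) - 1)) := by
  have hcard : (B.ch x s₀ 𝒲).card = ∏ T ∈ 𝒲, (B.q (B.typ T) - 1) := by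
    have h := B.card_cyl hs ht 𝒲 ∅ (Finset.empty_subset _)
    rw [Finset.sdiff_empty] at h
    rw [← h, Finset.filter_true_of_mem]
    intro s _ T hT
    exact absurd hT (Finset.notMem_empty T)
  have hq : ∀ T, ((B.q (B.typ T) - 1 : ℕ) : ℝ) = (B.q (B.typ T) : ℝ) - 1 := by
    intro T
    have := B.q_ge (B.typ T)
    rw [Nat.cast_sub (by omega), Nat.cast_one]
  have hpos : ∀ T, (0 : ℝ) < (B.q (B.typ T) : ℝ) - 1 := by
    intro T
    have h3 : (3 : ℝ) ≤ B.q (B.typ T) := by exact_mod_cast B.q_ge (B.typ T)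
    linarith
  have hnum : ((B.ch x s₀ 𝒲).filter (fun s => ∀ T ∈ J, s T = t T)).card =
      ∏ T ∈ 𝒲 \ J, (B.q (B.typ T) - 1) := B.card_cyl hs ht 𝒲 J hJ
  have hpr : B.pr x s₀ 𝒲 (fun s => ∀ T ∈ J, s T = t T) =
      (((B.ch x s₀ 𝒲).filter (fun s => ∀ T ∈ J, s T = t T)).card : ℝ) / (B.ch x s₀ 𝒲).card := by
    rw [B.p2_pr_eq]
    congr 2
    exact congrArg Finset.card (Finset.filter_congr_decidable _ _ _)
  rw [hpr, hnum, hcard]
  push_cast
  rw [Finset.prod_congr rfl fun T _ => hq T, Finset.prod_congr rfl fun T _ => hq T,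
    ← Finset.prod_sdiff hJ, Finset.prod_div_distrib, Finset.prod_const_one]
  have h1 : ∏ T ∈ 𝒲 \ J, ((B.q (B.typ T) : ℝ) - 1) ≠ 0 :=
    Finset.prod_ne_zero_iff.2 fun T _ => (hpos T).ne'
  have h2 : ∏ T ∈ J, ((B.q (B.typ T) : ℝ) - 1) ≠ 0 :=
    Finset.prod_ne_zero_iff.2 fun T _ => (hpos T).ne'
  field_simp

end Bldg

end QFC
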