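import Pool.Agent.QFC.P2

/-! # P2b : elementary properties of averages -/

open scoped Classical

namespace QFC

namespace Bldg

variable {n : ℕ} {C : Type} (B : Bldg n C)

theorem avg_mono {x : C} {s₀ : B.Wall → B.Sheet} (𝒲 : Finset B.Wall) {f g : (B.Wall → B.Sheet) → ℝ}
    (h : ∀ s, B.Adm x s → f s ≤ g s) : B.avg x s₀ 𝒲 f ≤ B.avg x s₀ 𝒲 g := by
  unfold avg
  exact div_le_div_of_nonneg_right
    (Finset.sum_le_sum fun s hs => h s (B.mem_ch.1 hs).1) (Nat.cast_nonneg _)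

theorem avg_sum {x : C} {s₀ : B.Wall → B.Sheet} (𝒲 : Finset B.Wall) {ι : Type} (t : Finset ι)
    (f : ι → (B.Wall → B.Sheet) → ℝ) :
    B.avg x s₀ 𝒲 (fun s => ∑ a ∈ t, f a s) = ∑ a ∈ t, B.avg x s₀ 𝒲 (f a) := by
  unfold avg
  rw [Finset.sum_comm, Finset.sum_div]

theorem avg_mul {x : C} {s₀ : B.Wall → B.Sheet} (𝒲 : Finset B.Wall) (a : ℝ)
    (f : (B.Wall → B.Sheet) → ℝ) : B.avg x s₀ 𝒲 (fun s => a * f s) = a * B.avg x s₀ 𝒲 f := by
  unfold avg
  rw [← Finset.mul_sum, mul_div_assoc]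

theorem avg_const {x : C} {s₀ : B.Wall → B.Sheet} (hs : B.Adm x s₀) (𝒲 : Finset B.Wall) (a : ℝ) :
    B.avg x s₀ 𝒲 (fun _ => a) = a := by
  unfold avg
  have h : ((B.ch x s₀ 𝒲).card : ℝ) ≠ 0 := by
    have := Finset.card_pos.2 (B.ch_nonempty hs 𝒲)
    exact_mod_cast this.ne'
  rw [Finset.sum_const, nsmul_eq_mul, mul_div_cancel_left₀ _ h]

theorem pr_mono {x : C} {s₀ : B.Wall → B.Sheet} (𝒲 : Finset B.Wall) {E E' : (B.Wall → B.Sheet) → Prop}
    (h : ∀ s, B.Adm x s → E s → E' s) : B.pr x s₀ 𝒲 E ≤ B.pr x s₀ 𝒲 E' := by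
  unfold pr
  refine B.avg_mono 𝒲 fun s hs => ?_
  by_cases hE : E s
  · simp only [if_pos hE, if_pos (h s hs hE), le_refl]
  · simp only [if_neg hE]
    split_ifs
    · exact zero_le_one
    · exact le_refl _

theorem pr_nonneg {x : C} {s₀ : B.Wall → B.Sheet} (𝒲 : Finset B.Wall) (E : (B.Wall → B.Sheet) → Prop) :
    0 ≤ B.pr x s₀ 𝒲 E := by
  rw [B.p2_pr_eq]
  positivity

/-- union bound -/
theorem pr_exists_le {x : C} {s₀ : B.Wall → B.Sheet} (𝒲 : Finset B.Wall) {ι : Type} (t : Finset ι)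
    (E : ι → (B.Wall → B.Sheet) → Prop) :
    B.pr x s₀ 𝒲 (fun s => ∃ a ∈ t, E a s) ≤ ∑ a ∈ t, B.pr x s₀ 𝒲 (E a) := by
  unfold pr
  rw [← B.avg_sum 𝒲 t (fun a s => if E a s then (1 : ℝ) else 0)]
  refine B.avg_mono 𝒲 fun s _ => ?_
  by_cases hE : ∃ a ∈ t, E a s
  · simp only [if_pos hE]
    obtain ⟨a, ha, hEa⟩ := hE
    have h1 : (if E a s then (1 : ℝ) else 0) ≤ ∑ a ∈ t, if E a s then (1 : ℝ) else 0 :=
      Finset.single_le_sum (f := fun a => if E a s then (1 : ℝ) else 0)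
        (fun b _ => by
          split_ifs
          · exact zero_le_one
          · exact le_refl _) ha
    rwa [if_pos hEa] at h1
  · simp only [if_neg hE]
    refine Finset.sum_nonneg fun b _ => ?_
    split_ifs
    · exact zero_le_one
    · exact le_refl _

end Bldg

end QFC
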