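import Pool.Agent.QFC.P2b

/-! # P3 : probabilities of local events -/

open scoped Classical

namespace QFC

namespace Bldg

variable {n : ℕ} {C : Type} (B : Bldg n C)

theorem p3_r_eq (x c : C) :
    B.r x c = ∏ T ∈ (B.Sep_finite x c).toFinset, (1 / ((B.q (B.typ T) : ℝ) - 1)) := by
  unfold r
  rw [finprod_mem_eq_finite_toFinset_prod _ (B.Sep_finite x c)]

/-- `c ∈ Ap x s ↔ ∀ T ∈ Sep x c, s T = σ T c`; `pr_cyl` with `J = Sep x c` (as a finset) and `t = Adm_update` of `s₀` by `σ · c` on `Sep x c` -/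
theorem pr_mem_Ap {x : C} {s₀ : B.Wall → B.Sheet} (hs : B.Adm x s₀) (𝒲 : Finset B.Wall) {c : C}
    (h : B.Sep x c ⊆ ↑𝒲) : B.pr x s₀ 𝒲 (fun s => c ∈ B.Ap x s) = B.r x c := by
  have ht : B.Adm x (fun T => if T ∈ B.Sep x c then B.σ T c else s₀ T) := by
    refine B.Adm_update hs (B.Sep x c) (fun T => B.σ T c) ?_
    intro T hT
    exact ⟨fun e => hT e.symm, c, rfl⟩
  have hJ : (B.Sep_finite x c).toFinset ⊆ 𝒲 := by
    intro T hT
    rw [Set.Finite.mem_toFinset] at hT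
    exact h hT
  rw [B.p3_r_eq, ← B.pr_cyl hs ht 𝒲 _ hJ]
  congr 1
  funext s
  apply propext
  constructor
  · intro hc T hT
    rw [Set.Finite.mem_toFinset] at hT
    simp only [if_pos hT]
    exact (hc T hT).symm
  · intro hc T hT
    have h1 := hc T ((Set.Finite.mem_toFinset _).2 hT)
    simp only [if_pos hT] at h1
    exact h1.symm

/-- A local event that happens for one choice `t` has probability at least a constant times `r x e`: it happens for all `s` with `s = t` on `J = Sep x e ∪ Wb e ρ` (`Ap_local`), `pr_cyl`, and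
`∏_{T ∈ J} 1/(q T - 1) ≥ r x e * (Q - 1)^{-N}` with `Q = max q`, `N` from `exists_Wb_card`. -/
theorem pr_local_lower (ρ : ℕ) : ∃ δ : ℝ, 0 < δ ∧ ∀ (x e : C) (s₀ t : B.Wall → B.Sheet) (𝒲 : Finset B.Wall)
    (E : Set C → Prop), B.Adm x s₀ → B.Adm x t → B.Sep x e ∪ B.Wb e ρ ⊆ ↑𝒲 →
    (∀ A A' : Set C, A ∩ B.ball e ρ = A' ∩ B.ball e ρ → (E A ↔ E A')) → E (B.Ap x t) →
    δ * B.r x e ≤ B.pr x s₀ 𝒲 (fun s => E (B.Ap x s)) := by
  have hne : NeZero n := ⟨by have := B.hn; omega⟩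
  obtain ⟨N, hN⟩ := B.exists_Wb_card ρ
  obtain ⟨Q, hQ⟩ : ∃ Q : ℕ, ∀ i, B.q i ≤ Q :=
    ⟨∑ i, B.q i, fun i => Finset.single_le_sum (f := fun i => B.q i)
      (fun _ _ => Nat.zero_le _) (Finset.mem_univ i)⟩
  have hQ3 : 3 ≤ Q := (B.q_ge 0).trans (hQ 0)
  have hQR : (0 : ℝ) < Q := by
    have : 0 < Q := by omega
    exact_mod_cast this
  have hQ1 : (1 : ℝ) ≤ Q := by
    have : 1 ≤ Q := by omega
    exact_mod_cast this
  have hpos : ∀ T, (0 : ℝ) < (B.q (B.typ T) : ℝ) - 1 := by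
    intro T
    have h3 : (3 : ℝ) ≤ B.q (B.typ T) := by exact_mod_cast B.q_ge (B.typ T)
    linarith
  refine ⟨(1 / (Q : ℝ)) ^ N, by positivity, ?_⟩
  intro x e s₀ t 𝒲 E hs₀ ht hsub hloc hE
  set S : Finset B.Wall := (B.Sep_finite x e).toFinset with hS
  set W : Finset B.Wall := (B.Wb_finite e ρ).toFinset with hW
  set J : Finset B.Wall := S ∪ W with hJ
  have hJ𝒲 : J ⊆ 𝒲 := by
    intro T hT
    rw [hJ, Finset.mem_union, hS, hW, Set.Finite.mem_toFinset, Set.Finite.mem_toFinset] at hT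
    exact hsub hT
  have h1 : B.pr x s₀ 𝒲 (fun s => ∀ T ∈ J, s T = t T) ≤
      B.pr x s₀ 𝒲 (fun s => E (B.Ap x s)) := by
    refine B.pr_mono 𝒲 fun s _ hst => ?_
    refine (hloc _ _ (B.Ap_local ?_)).1 hE
    intro T hT
    apply hst T
    rw [hJ, Finset.mem_union, hS, hW, Set.Finite.mem_toFinset, Set.Finite.mem_toFinset]
    exact hT
  refine le_trans ?_ h1
  rw [B.pr_cyl hs₀ ht 𝒲 J hJ𝒲, B.p3_r_eq, ← hS]
  have h2 : ∏ T ∈ J, (1 / ((B.q (B.typ T) : ℝ) - 1)) =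
      (∏ T ∈ J \ S, (1 / ((B.q (B.typ T) : ℝ) - 1))) *
        ∏ T ∈ S, (1 / ((B.q (B.typ T) : ℝ) - 1)) := by
    rw [Finset.prod_sdiff (show S ⊆ J from Finset.subset_union_left)]
  rw [h2]
  apply mul_le_mul_of_nonneg_right
  · have hcard : (J \ S).card ≤ N := by
      have hWN : W.card ≤ N := by
        rw [hW, ← Set.ncard_eq_toFinset_card _ (B.Wb_finite e ρ)]
        exact hN e
      refine le_trans (Finset.card_le_card ?_) hWN
      intro T hT
      rw [Finset.mem_sdiff, hJ, Finset.mem_union] at hT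
      exact hT.1.resolve_left hT.2
    calc (1 / (Q : ℝ)) ^ N ≤ (1 / (Q : ℝ)) ^ (J \ S).card := by
          apply pow_le_pow_of_le_one (by positivity) _ hcard
          rw [div_le_one hQR]
          exact hQ1
      _ = ∏ T ∈ J \ S, (1 / (Q : ℝ)) := by rw [Finset.prod_const]
      _ ≤ ∏ T ∈ J \ S, (1 / ((B.q (B.typ T) : ℝ) - 1)) := by
          refine Finset.prod_le_prod (fun _ _ => by positivity) fun T _ => ?_
          apply one_div_le_one_div_of_le (hpos T)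
          have : (B.q (B.typ T) : ℝ) ≤ Q := by exact_mod_cast hQ (B.typ T)
          linarith
  · exact Finset.prod_nonneg fun T _ => (one_div_pos.2 (hpos T)).le

end Bldg

end QFC
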